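import Pool.Agent.H19.Om1

/-! Lindelöf spaces built from an Aronszajn tree whose product is not Lindelöf. -/

namespace Pool.Agent.H19.Om.ATree

open Set Filter Topology

set_option maxHeartbeats 400000

variable (T : ATree)

open Classical in
/-- The embedding into a Cantor cube. -/
noncomputable def φ (x : T.N × Bool) : T.N ⊕ T.N → Bool
  | .inl s => decide (T.lt s x.1)
  | .inr s => decide (x = (s, false))

instance : Nonempty T.N := ⟨(T.ne (Classical.arbitrary _)).choose⟩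

lemma low (α : W1) : {x : T.N × Bool | T.ht x.1 ≤ α}.Countable := by
  refine (((cIic α).biUnion fun β _ => T.lev β).prod (countable_univ (α := Bool))).mono
    fun x hx => ?_
  exact ⟨mem_biUnion (x := T.ht x.1) hx rfl, trivial⟩

lemma nbhd (t : T.N) {U : Set (T.N ⊕ T.N → Bool)} (hU : U ∈ 𝓝 (T.φ (t, true)))
    (h : ∃ ξ, ξ < T.ht t) : ∃ s0, T.lt s0 t ∧ ∃ F : Finset T.N, (∀ s ∈ F, T.ht t ≤ T.ht s) ∧
      ∃ G : Finset T.N, ∀ x : T.N × Bool, T.lt s0 x.1 → (∀ s ∈ F, ¬ T.lt s x.1) → x.1 ∉ G →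
        T.φ x ∈ U := by
  classical
  rw [nhds_pi, Filter.mem_pi'] at hU
  obtain ⟨E, V, hV, hVU⟩ := hU
  obtain ⟨ξ, hξ⟩ := h
  obtain ⟨α, hα, hα'⟩ := (insert ξ ((E.toLeft.filter fun s => T.ht s < T.ht t).image
    T.ht)).exists_max_image id (Finset.insert_nonempty _ _)
  have h1 : α < T.ht t := by
    rcases Finset.mem_insert.1 hα with rfl | h
    · exact hξ
    · obtain ⟨s, hs, rfl⟩ := Finset.mem_image.1 h
      exact (Finset.mem_filter.1 hs).2
  obtain ⟨s0, rfl, hs0⟩ := T.pred t α h1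
  refine ⟨s0, hs0, E.toLeft.filter fun s => T.ht t ≤ T.ht s, fun s hs => (Finset.mem_filter.1 hs).2,
    E.toRight, fun x h2 h3 h4 => hVU fun i hi => ?_⟩
  convert mem_of_mem_nhds (hV i) using 1
  cases i with
  | inl s =>
    have hs : s ∈ E.toLeft := Finset.mem_toLeft.2 hi
    simp only [φ, decide_eq_decide]
    rcases lt_or_ge (T.ht s) (T.ht t) with h5 | h5
    · have h6 : T.ht s ≤ T.ht s0 := hα' _ (Finset.mem_insert_of_mem
        (Finset.mem_image_of_mem _ (Finset.mem_filter.2 ⟨hs, h5⟩)))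
      exact ⟨fun h => (T.cmp h h2 h6).elim (fun h => h ▸ hs0) fun h => T.trans h hs0,
        fun h => (T.cmp h hs0 h6).elim (fun h => h ▸ h2) fun h => T.trans h h2⟩
    · exact iff_of_false (h3 s (Finset.mem_filter.2 ⟨hs, h5⟩)) fun h => (T.ht_lt h).not_ge h5
  | inr s =>
    simp only [φ, decide_eq_decide]
    exact iff_of_false (fun h => h4 (h ▸ Finset.mem_toRight.2 hi)) (by simp)

lemma key {A : Set W1} (hA : Pos A) {p : W1 → T.N} (hp : ∀ δ ∈ A, T.ht (p δ) = δ)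
    {U : W1 → Set (T.N ⊕ T.N → Bool)} (hU : ∀ δ ∈ A, U δ ∈ 𝓝 (T.φ (p δ, true))) :
    ∃ δ0 ∈ A, ∃ E : Finset W1, (E : Set W1) ⊆ A ∧
      {x : T.N × Bool | T.lt (p δ0) x.1 ∧ ∀ δ ∈ E, T.φ x ∉ U δ}.Countable := by
  classical
  choose! s0 hs0 F hF G hG using fun δ (h : δ ∈ A ∧ ∃ ξ, ξ < δ) =>
    T.nbhd (p δ) (hU δ h.1) (by rw [hp δ h.1]; exact h.2)
  obtain ⟨α, hα⟩ := hA (fun δ => T.ht (s0 δ)) fun δ h1 h2 =>
    (T.ht_lt (hs0 δ ⟨h1, h2⟩)).trans_eq (hp δ h1)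
  have h1 : ¬ {δ | (δ ∈ A ∧ ∃ ξ, ξ < δ) ∧ T.ht (s0 δ) = α}.Countable := fun h =>
    hα ((h.union (cIic α)).mono fun δ hδ => (le_or_gt δ α).symm.imp
      (fun h' => ⟨⟨hδ.1, α, h'⟩, hδ.2⟩) id)
  obtain ⟨s, hs⟩ := exists_fiber h1 s0 ((T.lev α).mono (by rintro _ ⟨δ, hδ, rfl⟩; exact hδ.2))
  set B := {δ | δ ∈ {δ | (δ ∈ A ∧ ∃ ξ, ξ < δ) ∧ T.ht (s0 δ) = α} ∧ s0 δ = s} with hB
  obtain ⟨E, hE⟩ : ∃ E : Finset B, ∀ u, ∃ δ ∈ E, ∀ s ∈ F δ, ¬ T.lt s u := by
    by_contra h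
    push Not at h
    choose u hu using h
    have h2 : ∀ δ ∈ B, ∃ s ∈ (F δ : Set T.N), 
        ∀ᶠ E in (Ultrafilter.of atTop : Ultrafilter (Finset B)), T.lt s (u E) :=
      fun δ hδ => (Ultrafilter.eventually_exists_mem_iff (F δ).finite_toSet).1
        (Ultrafilter.of_le atTop ((eventually_ge_atTop {(⟨δ, hδ⟩ : B)}).mono fun E hE =>
          hu E ⟨δ, hδ⟩ (by simpa using hE)))
    choose! r hr hr' using h2
    refine hs (T.nochain r B (fun δ hδ => (hp δ hδ.1.1.1).ge.trans (hF δ hδ.1.1 _ (hr δ hδ)))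
      fun δ hδ δ' hδ' => ?_)
    obtain ⟨E, h3⟩ := ((hr' δ hδ).and (hr' δ' hδ')).exists
    exact ⟨_, h3⟩
  obtain ⟨δ0, hδ0⟩ : B.Nonempty := nonempty_iff_ne_empty.2 fun h => hs (h ▸ countable_empty)
  refine ⟨δ0, hδ0.1.1.1, E.image Subtype.val, fun δ hδ => ?_,
    (((E.biUnion fun δ => G δ).countable_toSet.prod (countable_univ (α := Bool))).mono
      fun x hx => mk_mem_prod ?_ (mem_univ _))⟩
  · obtain ⟨δ, -, rfl⟩ := Finset.mem_image.1 hδ
    exact δ.2.1.1.1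
  · obtain ⟨δ, hδ, h⟩ := hE x.1
    refine Finset.mem_biUnion.2 ⟨δ, hδ, by_contra fun h2 => hx.2 δ (Finset.mem_image_of_mem _ hδ)
      (hG δ δ.2.1.1 x ?_ h h2)⟩
    rw [δ.2.2, ← hδ0.2]
    exact T.trans (hs0 δ0 hδ0.1.1) hx.1

/-- Isolated copies of all nodes and the nodes on the levels in `A`. -/
def Y (A : Set W1) : Type := {x : T.N × Bool // x.2 = false ∨ T.ht x.1 ∈ A}

noncomputable instance (A : Set W1) : TopologicalSpace (T.Y A) :=
  TopologicalSpace.induced (fun x => T.φ x.1) inferInstance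

/-- A node as a point. -/
def pt {A : Set W1} (t : T.N) (h : T.ht t ∈ A) : T.Y A := ⟨(t, true), Or.inr h⟩

lemma cover {A : Set W1} (α : W1) :
    (univ : Set (T.Y A)) ⊆ {x | T.ht x.1.1 ≤ α} ∪ ⋃ s ∈ {s | T.ht s = α}, {x | T.lt s x.1.1} := by
  intro x _
  refine (le_or_gt (T.ht x.1.1) α).imp id fun h => ?_
  obtain ⟨s, hs, hs'⟩ := T.pred _ α h
  exact mem_biUnion hs hs'

lemma level {A : Set W1} (hA : Pos A) {ι : Type*} [Countable ι] (V : T.N → ι → Set (T.Y A))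
    (hV : ∀ t h, ∃ i, V t i ∈ 𝓝 (T.pt t h)) : ∃ α, ∀ s, T.ht s = α →
      ∃ i, ∃ E : Set T.N, E.Countable ∧ {x | T.lt s x.1.1 ∧ ∀ e ∈ E, x ∉ V e i}.Countable := by
  by_contra h
  push Not at h
  choose p hp hp' using h
  obtain ⟨i, hi⟩ := hA.iUnion (B := fun i => {δ | ∃ U ∈ 𝓝 (T.φ (p δ, true)),
      (fun x : T.Y A => T.φ x.1) ⁻¹' U ⊆ V (p δ) i}) fun δ hδ => by
    obtain ⟨i, hi⟩ := hV (p δ) ((hp δ).symm ▸ hδ)
    exact mem_iUnion.2 ⟨i, (mem_nhds_induced (fun x : T.Y A => T.φ x.1) _ _).1 hi⟩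
  choose! U hU hU' using fun δ (hδ : δ ∈ {δ | ∃ U ∈ 𝓝 (T.φ (p δ, true)),
      (fun x : T.Y A => T.φ x.1) ⁻¹' U ⊆ V (p δ) i}) => hδ
  obtain ⟨δ0, -, E, hE, h2⟩ := T.key hi (fun δ _ => hp δ) hU
  refine hp' δ0 i _ (E.countable_toSet.image p)
    ((h2.preimage Subtype.val_injective).mono fun x hx => ?_)
  exact ⟨hx.1, fun δ hδ h3 => hx.2 _ (mem_image_of_mem _ hδ) (hU' δ (hE hδ) h3)⟩

theorem lindelof {A : Set W1} (hA : Pos A) : LindelofSpace (T.Y A) := by
  refine ⟨isLindelof_of_countable_subcover fun {ι} U hU hc => ?_⟩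
  choose j hj using fun x => mem_iUnion.1 (hc (mem_univ x))
  obtain ⟨α, hα⟩ := T.level hA (ι := Unit) (fun t _ => ⋃ h, U (j (T.pt t h))) fun t h =>
    ⟨(), mem_of_superset ((hU _).mem_nhds (hj _)) (subset_iUnion (fun h => U (j (T.pt t h))) h)⟩
  have hα' : ∀ s, T.ht s = α → ∃ C : Set (T.Y A), C.Countable ∧
      ∀ x : T.Y A, T.lt s x.1.1 → ∃ y ∈ C, x ∈ U (j y) := by
    intro s hs
    obtain ⟨_, E, hE, hE'⟩ := hα s hs
    refine ⟨_, hE'.union ((hE.image fun e => (e, true)).preimage Subtype.val_injective),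
      fun x hx => ?_⟩
    by_cases h1 : ∀ e ∈ E, x ∉ ⋃ h, U (j (T.pt e h))
    · exact ⟨x, Or.inl ⟨hx, h1⟩, hj x⟩
    · push Not at h1
      obtain ⟨e, he, h1⟩ := h1
      obtain ⟨h, h1⟩ := mem_iUnion.1 h1
      exact ⟨_, Or.inr ⟨e, he, rfl⟩, h1⟩
  choose! C hC hC' using hα'
  refine ⟨j '' ({x | T.ht x.1.1 ≤ α} ∪ ⋃ s ∈ {s | T.ht s = α}, C s), (((T.low α).preimage
      Subtype.val_injective).union ((T.lev α).biUnion hC)).image j, fun x hx => ?_⟩
  rcases T.cover α hx with h | h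
  · exact mem_biUnion (mem_image_of_mem j (Or.inl h)) (hj x)
  obtain ⟨s, hs, h⟩ := mem_iUnion₂.1 h
  obtain ⟨y, hy, h⟩ := hC' s hs x h
  exact mem_biUnion (mem_image_of_mem j (Or.inr (mem_biUnion hs hy))) h

theorem simple {A : Set W1} (hA : Pos A) {M : Type*} [MetricSpace M]
    [SecondCountableTopology M] {f : T.Y A → M} (hf : Continuous f) : (range f).Countable := by
  haveI : Nonempty M := ⟨f ⟨(Classical.arbitrary _, false), Or.inl rfl⟩⟩
  obtain ⟨d, hd⟩ := TopologicalSpace.exists_dense_seq M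
  have h1 := fun n : ℕ => T.level hA (fun _ i => f ⁻¹' Metric.ball (d i) (1 / (n + 1)))
    fun t h => by
      obtain ⟨i, hi⟩ := Metric.denseRange_iff.1 hd (f (T.pt t h)) _
        (Nat.one_div_pos_of_nat (n := n))
      exact ⟨i, hf.continuousAt (Metric.isOpen_ball.mem_nhds hi)⟩
  choose α hα using h1
  choose! i E _ hE using hα
  obtain ⟨γ, hγ⟩ := bdd (countable_range α)
  rw [← image_univ]
  refine (Countable.mono (image_mono (T.cover γ))) ?_
  rw [image_union, image_iUnion₂]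
  refine (((T.low γ).preimage Subtype.val_injective).image f).union
    ((T.lev γ).biUnion fun s hs => ?_)
  choose r hr hr' using fun n => T.pred s (α n) ((hγ _ (mem_range_self n)).trans_eq hs.symm)
  refine (((countable_iUnion fun n => hE n _ (hr n)).image f).union (Set.Subsingleton.countable
    (s := ⋂ n : ℕ, Metric.ball (d (i n (r n))) (1 / (n + 1))) fun a ha b hb => ?_)).mono ?_
  · refine eq_of_forall_dist_le fun ε hε => ?_
    obtain ⟨n, hn⟩ := exists_nat_one_div_lt (half_pos hε)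
    have h2 := dist_triangle_right a b (d (i n (r n)))
    have h3 : dist a _ < _ := mem_iInter.1 ha n
    have h4 : dist b _ < _ := mem_iInter.1 hb n
    linarith
  · rintro _ ⟨x, hx, rfl⟩
    by_cases h : f x ∈ ⋂ n : ℕ, Metric.ball (d (i n (r n))) (1 / (n + 1))
    · exact Or.inr h
    · obtain ⟨n, hn⟩ := not_forall.1 (mt mem_iInter.2 h)
      exact Or.inl (mem_image_of_mem f (mem_iUnion.2 ⟨n, T.trans (hr' n) hx, fun _ _ => hn⟩))

/-- The sum of two such spaces, realised in a Cantor cube. -/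
abbrev X (A : Bool → Set W1) : Type :=
  {z : Bool × (T.N ⊕ T.N → Bool) // ∃ x : T.Y (A z.1), T.φ x.1 = z.2}

/-- The two pieces. -/
noncomputable def j (A : Bool → Set W1) (b : Bool) (x : T.Y (A b)) : T.X A :=
  ⟨(b, T.φ x.1), x, rfl⟩

lemma j_cont (A : Bool → Set W1) (b : Bool) : Continuous (T.j A b) :=
  (continuous_const.prodMk continuous_induced_dom).subtype_mk _

lemma j_cover (A : Bool → Set W1) : ⋃ b, range (T.j A b) = univ :=
  eq_univ_of_forall fun ⟨⟨b, _⟩, x, h⟩ => mem_iUnion.2 ⟨b, x, Subtype.ext (Prod.ext rfl h)⟩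

theorem X_lindelof {A : Bool → Set W1} (hA : ∀ b, Pos (A b)) : LindelofSpace (T.X A) :=
  ⟨T.j_cover A ▸ isLindelof_iUnion fun b => by
    haveI := T.lindelof (hA b)
    exact isLindelof_range (T.j_cont A b)⟩

theorem X_simple {A : Bool → Set W1} (hA : ∀ b, Pos (A b)) {M : Type*} [MetricSpace M]
    [SecondCountableTopology M] {f : T.X A → M} (hf : Continuous f) : (range f).Countable := by
  rw [← image_univ, ← T.j_cover A, image_iUnion]
  exact countable_iUnion fun b => range_comp _ _ ▸ T.simple (hA b) (hf.comp (T.j_cont A b))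

theorem X_sq {A : Bool → Set W1} (hA : Disjoint (A false) (A true)) :
    ¬ LindelofSpace (T.X A × T.X A) := by
  intro h
  have h1 : IsClosed {z : T.X A × T.X A | z.1.1.1 = false ∧ z.2.1.1 = true ∧ z.1.1.2 = z.2.1.2} :=
    (isClosed_eq (by fun_prop) continuous_const).inter
      ((isClosed_eq (by fun_prop) continuous_const).inter (isClosed_eq (by fun_prop) (by fun_prop)))
  obtain ⟨S, hS, h2⟩ := h1.isLindelof.elim_countable_subcover
    (fun s => {z | z.1.1.2 (.inr s) = true})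
    (fun s => (isOpen_discrete {true}).preimage (f := fun z : T.X A × T.X A => z.1.1.2 (.inr s))
      (by fun_prop)) (by
      rintro ⟨⟨⟨b, _⟩, ⟨⟨t, c⟩, hx⟩, h5⟩, ⟨⟨b', _⟩, ⟨⟨u, c'⟩, hy⟩, h6⟩⟩ ⟨rfl : b = false,
        rfl : b' = true, h7⟩
      have h3 : T.φ (t, c) = T.φ (u, c') := h5.trans (h7.trans h6.symm)
      refine mem_iUnion.2 ⟨t, (congrFun h5 _).symm.trans ?_⟩
      cases c
      · simp [φ]
      cases c'
      · simpa [φ] using congrFun h3 (.inr u)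
      have h4 : ∀ s, T.lt s t ↔ T.lt s u := fun s => by simpa [φ] using congrFun h3 (.inl s)
      rcases lt_trichotomy (T.ht t) (T.ht u) with h | h | h
      · obtain ⟨s, hs, hs'⟩ := T.pred u _ h
        exact absurd (T.ht_lt ((h4 s).2 hs')) (hs ▸ lt_irrefl _)
      · exact absurd (h ▸ hy.resolve_left (by simp)) (disjoint_left.1 hA (hx.resolve_left (by simp)))
      · obtain ⟨s, hs, hs'⟩ := T.pred t _ h
        exact absurd (T.ht_lt ((h4 s).1 hs')) (hs ▸ lt_irrefl _))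
  refine not_countable_univ ((hS.image T.ht).mono fun α _ => ?_)
  obtain ⟨s, rfl⟩ := T.ne α
  obtain ⟨s', hs', h3⟩ := mem_iUnion₂.1 (h2 (a := (T.j A false ⟨(s, false), Or.inl rfl⟩,
    T.j A true ⟨(s, false), Or.inl rfl⟩)) ⟨rfl, rfl, rfl⟩)
  obtain rfl : s = s' := by simpa [φ, j] using h3
  exact mem_image_of_mem _ hs'

end Pool.Agent.H19.Om.ATree
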