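import Mathlib

/-! Closed transformation monoids on `Ω = ℕ`, automatic continuity and homeomorphicity. -/

namespace Pool.Agent.H19.AutoCont

/-- `S` is closed in `ℕ → ℕ` with the topology of pointwise convergence. -/
def IsClosedMonoid (S : Submonoid (Function.End ℕ)) : Prop :=
  IsClosed {f : ℕ → ℕ | ∃ g : S, (fun x => g.1 x) = f}

/-- The topology of pointwise convergence on `S` (subspace topology from `ℕ → ℕ`). -/
def pw (S : Submonoid (Function.End ℕ)) : TopologicalSpace S :=
  TopologicalSpace.induced (fun (f : S) (x : ℕ) => f.1 x) inferInstance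

/-- Every semigroup homomorphism from `S` to a closed submonoid is continuous. -/
def AutoContinuity (S : Submonoid (Function.End ℕ)) : Prop :=
  ∀ T : Submonoid (Function.End ℕ), IsClosedMonoid T →
    ∀ φ : S →ₙ* T, @Continuous S T (pw S) (pw T) φ

/-- Every semigroup isomorphism from `S` onto a closed submonoid is a homeomorphism. -/
def AutoHomeomorphicity (S : Submonoid (Function.End ℕ)) : Prop :=
  ∀ T : Submonoid (Function.End ℕ), IsClosedMonoid T →
    ∀ φ : S ≃* T, @Continuous S T (pw S) (pw T) φ ∧ @Continuous T S (pw T) (pw S) φ.symm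

/-- The group of invertible elements of `S` has finitely many orbits on `n`-tuples, `n ≥ 1`. -/
def Oligomorphic (S : Submonoid (Function.End ℕ)) : Prop :=
  ∀ n : ℕ, 1 ≤ n → ∃ R : Finset (Fin n → ℕ), ∀ x : Fin n → ℕ,
    ∃ r ∈ R, ∃ g : Sˣ, ∀ i, x i = (g : S).1 (r i)

open Filter Topology

lemma isClosedMonoid_iff {S : Submonoid (Function.End ℕ)} :
    IsClosedMonoid S ↔ IsClosed {f : ℕ → ℕ | (show Function.End ℕ from f) ∈ S} := by
  unfold IsClosedMonoid
  have : {f : ℕ → ℕ | ∃ g : S, (fun x => g.1 x) = f} =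
      {f : ℕ → ℕ | (show Function.End ℕ from f) ∈ S} := by
    ext f
    constructor
    · rintro ⟨g, rfl⟩; exact g.2
    · intro h; exact ⟨⟨f, h⟩, rfl⟩
  rw [this]

lemma tendsto_pw {S : Submonoid (Function.End ℕ)} {ι : Type*} {l : Filter ι} {u : ι → S} {f : S} :
    Tendsto u l (@nhds S (pw S) f) ↔ ∀ x, ∀ᶠ i in l, (u i).1 x = f.1 x := by
  unfold pw
  rw [nhds_induced, tendsto_comap_iff, tendsto_pi_nhds]
  refine forall_congr' fun x => ?_
  rw [nhds_discrete, tendsto_pure]
  rfl

lemma tendsto_fun {ι : Type*} {l : Filter ι} {u : ι → ℕ → ℕ} {f : ℕ → ℕ} :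
    Tendsto u l (𝓝 f) ↔ ∀ x, ∀ᶠ i in l, u i x = f x := by
  rw [tendsto_pi_nhds]
  refine forall_congr' fun x => ?_
  rw [nhds_discrete, tendsto_pure]

lemma nhds_eval (f : ℕ → ℕ) (x : ℕ) : {g : ℕ → ℕ | g x = f x} ∈ 𝓝 f :=
  tendsto_fun.1 tendsto_id x

end Pool.Agent.H19.AutoCont
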