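import Mathlib

set_option autoImplicit false
set_option maxHeartbeats 400000

open Pointwise

namespace Pool.Agent.H19.Cay

theorem stab {V : Type*} (C : ℕ → Set V) (hf : (C 0).Finite) (hm : Antitone C) :
    ∃ M, ∀ N, M ≤ N → C N = C M := by
  classical
  have hfin : ∀ n, (C n).Finite := fun n => hf.subset (hm (Nat.zero_le n))
  have hex : ∃ k, ∃ n, (C n).ncard = k := ⟨_, 0, rfl⟩
  obtain ⟨M, hM⟩ := Nat.find_spec hex
  refine ⟨M, fun N hN => ?_⟩
  apply Set.eq_of_subset_of_ncard_le (hm hN) _ (hfin M)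
  rw [hM]
  exact Nat.find_min' hex ⟨N, rfl⟩

theorem core {L V : Type*} [Group L] [MulAction L V] (Γ : Subgroup L)
    (hΓ : ∀ γ ∈ Γ, IsOfFinOrder γ) (htr : ∀ x y : V, ∃ γ ∈ Γ, γ • x = y)
    (hF : ∀ x y : V, {z : V | ∃ σ : L, σ • x = x ∧ σ • y = z}.Finite)
    (h : L) (v0 : V) (hinj : Function.Injective fun i : ℕ => h ^ i • v0) : False := by
  classical
  set v : ℕ → V := fun i => h ^ i • v0 with hv
  have hadd : ∀ a b : ℕ, h ^ a • v b = v (a + b) := by
    intro a b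
    simp only [hv, pow_add, mul_smul]
  let C : ℕ → Set V := fun N =>
    {z | ∃ τ : L, (∀ j, 1 ≤ j → j ≤ N + 1 → τ • v j = v j) ∧ τ • v 0 = z}
  have hC0 : (C 0).Finite := by
    refine (hF (v 1) (v 0)).subset ?_
    rintro z ⟨τ, h1, h2⟩
    exact ⟨τ, h1 1 le_rfl le_rfl, h2⟩
  have hCm : Antitone C := by
    intro a b hab z
    rintro ⟨τ, h1, h2⟩
    exact ⟨τ, fun j hj hj' => h1 j hj (by omega), h2⟩
  obtain ⟨M, hM⟩ := stab C hC0 hCm
  have ext : ∀ w : ℕ → V, (∀ t, ∃ σ : L, ∀ i, i ≤ M + 1 → σ • v i = w (t + i)) →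
      ∀ m t, ∃ σ : L, ∀ i, i ≤ M + 1 + m → σ • v i = w (t + i) := by
    intro w hw m
    induction m with
    | zero => intro t; simpa using hw t
    | succ m ih =>
      intro t
      obtain ⟨σ', hσ'⟩ := ih (t + 1)
      obtain ⟨σ0, hσ0⟩ := hw t
      have hρ : ∀ j, 1 ≤ j → j ≤ M + 1 + m + 1 → (σ' * h⁻¹) • v j = w (t + j) := by
        intro j hj hj'
        obtain ⟨i, rfl⟩ : ∃ i, j = 1 + i := ⟨j - 1, by omega⟩
        rw [← hadd 1 i, pow_one, mul_smul, inv_smul_smul, hσ' i (by omega), add_assoc]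
      have hτ : ((σ' * h⁻¹)⁻¹ * σ0) • v 0 ∈ C M := by
        refine ⟨_, fun j hj hj' => ?_, rfl⟩
        rw [mul_smul, hσ0 j hj', ← hρ j hj (by omega), inv_smul_smul]
      rw [← hM (M + 1 + m) (by omega)] at hτ
      obtain ⟨τ', h1, h2⟩ := hτ
      refine ⟨(σ' * h⁻¹) * τ', fun i hi => ?_⟩
      rcases Nat.eq_zero_or_pos i with rfl | hi0
      · rw [mul_smul, h2, mul_smul (σ' * h⁻¹)⁻¹, smul_inv_smul, hσ0 0 (by omega)]
      · rw [mul_smul, h1 i hi0 (by omega), hρ i hi0 (by omega)]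
  choose γ hγΓ hγ using fun n => htr (v n) (v 0)
  let f : ℕ → (Fin (M + 2) → V) := fun n i => γ n • v (n + i)
  have hD : (Set.pi Set.univ fun i : Fin (M + 2) =>
      {z : V | ∃ σ : L, σ • v 0 = v 0 ∧ σ • v i = z}).Finite :=
    Set.Finite.pi fun i => hF _ _
  have hmaps : Set.MapsTo f Set.univ (Set.pi Set.univ fun i : Fin (M + 2) =>
      {z : V | ∃ σ : L, σ • v 0 = v 0 ∧ σ • v i = z}) := by
    intro n _ i _
    refine ⟨γ n * h ^ n, ?_, ?_⟩
    · rw [mul_smul, hadd, add_zero, hγ]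
    · rw [mul_smul, hadd]
  obtain ⟨n, -, m, -, hnm, hfe⟩ :=
    Set.infinite_univ.exists_lt_map_eq_of_mapsTo hmaps hD
  obtain ⟨k, rfl⟩ : ∃ k, m = n + k := ⟨m - n, by omega⟩
  have hk : 0 < k := by omega
  set g : L := (h ^ n)⁻¹ * ((γ (n + k))⁻¹ * γ n) * h ^ n with hg
  have hgo : IsOfFinOrder g := by
    have h1 : IsOfFinOrder ((γ (n + k))⁻¹ * γ n) :=
      hΓ _ (Γ.mul_mem (Γ.inv_mem (hγΓ _)) (hγΓ _))
    obtain ⟨d, hd, hd1⟩ := isOfFinOrder_iff_pow_eq_one.1 h1
    refine isOfFinOrder_iff_pow_eq_one.2 ⟨d, hd, ?_⟩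
    have : g = (h ^ n)⁻¹ * ((γ (n + k))⁻¹ * γ n) * ((h ^ n)⁻¹)⁻¹ := by rw [inv_inv]
    rw [this, conj_pow, hd1]
    simp
  have hgv : ∀ i, i ≤ M + 1 → g • v i = v (k + i) := by
    intro i hi
    have e1 := congrFun hfe ⟨i, by omega⟩
    simp only [f] at e1
    rw [hg, mul_smul, mul_smul, mul_smul, hadd, e1, inv_smul_smul, add_assoc, ← hadd n,
      inv_smul_smul]
  let w : ℕ → V := fun t => g ^ (t / k) • v (t % k)
  have hw : ∀ s, s ≤ k + M + 1 → ∀ j, w (k * j + s) = g ^ j • v s := by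
    intro s
    induction s using Nat.strong_induction_on with
    | _ s ih =>
      intro hs j
      by_cases hsk : s < k
      · simp only [w]
        rw [Nat.mul_add_div hk, Nat.div_eq_of_lt hsk, add_zero, Nat.mul_add_mod,
          Nat.mod_eq_of_lt hsk]
      · obtain ⟨s', rfl⟩ : ∃ s', s = k + s' := ⟨s - k, by omega⟩
        have e : k * j + (k + s') = k * (j + 1) + s' := by ring
        rw [e, ih s' (by omega) (by omega), pow_succ, mul_smul, hgv s' (by omega)]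
  have hwin : ∀ t, ∃ σ : L, ∀ i, i ≤ M + 1 → σ • v i = w (t + i) := by
    intro t
    refine ⟨g ^ (t / k) * h ^ (t % k), fun i hi => ?_⟩
    have hlt := Nat.mod_lt t hk
    have e : t + i = k * (t / k) + (t % k + i) := by
      have := Nat.div_add_mod t k
      omega
    rw [mul_smul, hadd, e, hw _ (by omega)]
  obtain ⟨d, hd, hd1⟩ := isOfFinOrder_iff_pow_eq_one.1 hgo
  obtain ⟨σ, hσ⟩ := ext w hwin (k * d) 0
  have e0 := hσ 0 (by omega)
  have e1 := hσ (k * d) (by omega)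
  have e2 := hw 0 (by omega) d
  have e3 := hw 0 (by omega) 0
  simp only [add_zero, zero_add, mul_zero, pow_zero, one_smul, hd1] at e0 e1 e2 e3
  have e4 : v (k * d) = v 0 := by
    apply MulAction.injective σ
    show σ • v (k * d) = σ • v 0
    rw [e0, e1, e2, e3]
  have e5 := hinj e4
  have : 0 < k * d := Nat.mul_pos hk hd
  omega

/-- automorphisms of the Cayley graph -/
def aut {G : Type*} [Group G] (S : Set G) : Subgroup (Equiv.Perm G) where
  carrier := {σ | ∀ x y, (σ x)⁻¹ * σ y ∈ S ↔ x⁻¹ * y ∈ S}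
  mul_mem' := by
    intro a b ha hb x y
    simp only [Equiv.Perm.mul_apply]
    rw [ha, hb]
  one_mem' := by intro x y; simp
  inv_mem' := by
    intro a ha x y
    have := ha (a⁻¹ x) (a⁻¹ y)
    simpa using this.symm

theorem aut_pow {G : Type*} [Group G] (S : Set G) (σ : Equiv.Perm G) (hσ : σ ∈ aut S) (r : ℕ) :
    ∀ x y : G, x⁻¹ * y ∈ S ^ r → (σ x)⁻¹ * σ y ∈ S ^ r := by
  induction r with
  | zero =>
    intro x y hxy
    simp only [pow_zero, Set.mem_one, inv_mul_eq_one] at hxy ⊢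
    rw [hxy]
  | succ r ih =>
    intro x y hxy
    rw [pow_succ] at hxy ⊢
    obtain ⟨b, hb, s, hs, e⟩ := hxy
    have h1 := ih x (x * b) (by simpa using hb)
    have h2 : (σ (x * b))⁻¹ * σ y ∈ S := by
      rw [hσ]
      have : (x * b)⁻¹ * y = s := by
        simp only at e
        rw [mul_inv_rev, mul_assoc, ← e]
        simp
      rwa [this]
    exact ⟨_, h1, _, h2, by simp⟩

theorem mem_pow {G : Type*} [Group G] (S : Set G) (hS : Subgroup.closure S = ⊤)
    (hi : ∀ x ∈ S, x⁻¹ ∈ S) (g : G) : ∃ r : ℕ, g ∈ S ^ r := by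
  have h1 : g ∈ (Subgroup.closure S).toSubmonoid := by rw [hS]; trivial
  rw [Subgroup.closure_toSubmonoid] at h1
  induction h1 using Submonoid.closure_induction with
  | mem x hx =>
    refine ⟨1, ?_⟩
    rw [pow_one]
    rcases hx with hx | hx
    · exact hx
    · simpa using hi _ hx
  | one => exact ⟨0, by simp⟩
  | mul x y _ _ hx hy =>
    obtain ⟨a, ha⟩ := hx
    obtain ⟨b, hb⟩ := hy
    exact ⟨a + b, by rw [pow_add]; exact Set.mul_mem_mul ha hb⟩

theorem main {G H : Type*} [Group G] [Group H] (S : Set G) (T : Set H) (hSf : S.Finite)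
    (hS : Subgroup.closure S = ⊤) (hi : ∀ x ∈ S, x⁻¹ ∈ S) (hG : Monoid.IsTorsion G)
    (e : G ≃ H) (he : ∀ g h : G, g⁻¹ * h ∈ S ↔ (e g)⁻¹ * (e h) ∈ T) : Monoid.IsTorsion H := by
  intro η
  by_contra hη
  have hl : ∀ g : G, MulAction.toPermHom G G g ∈ aut S := by
    intro g x y
    simp [mul_assoc]
  let φ : G →* aut S := (MulAction.toPermHom G G).codRestrict (aut S) hl
  let ψ : H →* Equiv.Perm G :=
    (e.symm.permCongrHom.toMonoidHom).comp (MulAction.toPermHom H H)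
  have hψ : ∀ (a : H) (x : G), ψ a x = e.symm (a * e x) := by
    intro a x
    simp [ψ, Equiv.permCongrHom, Equiv.permCongr_apply]
  have hψa : ψ η ∈ aut S := by
    intro x y
    rw [he, he x y, hψ, hψ]
    simp [mul_assoc]
  refine core (L := aut S) (V := G) φ.range ?_ ?_ ?_ ⟨ψ η, hψa⟩ 1 ?_
  · rintro _ ⟨g, rfl⟩
    exact φ.isOfFinOrder (hG g)
  · intro x y
    refine ⟨φ (y * x⁻¹), ⟨_, rfl⟩, ?_⟩
    show (y * x⁻¹) * x = y
    simp
  · intro x y
    obtain ⟨r, hr⟩ := mem_pow S hS hi (x⁻¹ * y)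
    have hfin : ∀ c : ℕ, (S ^ c).Finite := by
      intro c
      induction c with
      | zero => simp
      | succ c ih => rw [pow_succ]; exact ih.mul hSf
    refine ((hfin r).image fun z => x * z).subset ?_
    rintro z ⟨σ, h1, h2⟩
    have h3 := aut_pow S σ.1 σ.2 r x y hr
    have h1' : σ.1 x = x := h1
    have h2' : σ.1 y = z := h2
    rw [h1', h2'] at h3
    exact ⟨_, h3, by simp⟩
  · intro a b hab
    have key : ∀ c : ℕ, ((⟨ψ η, hψa⟩ : aut S) ^ c • (1 : G)) = e.symm (η ^ c * e 1) := by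
      intro c
      rw [← hψ, map_pow]
      rfl
    simp only [key] at hab
    have h2 := mul_right_cancel (e.symm.injective hab)
    exact (injective_pow_iff_not_isOfFinOrder.2 hη) h2

end Pool.Agent.H19.Cay
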