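import Mathlib

set_option autoImplicit false
open Classical

namespace Pool.Agent.H19

/-- circulant graph on `Fin (4k+1)` with jumps `1..k` -/
def circ (k : ℕ) : SimpleGraph (Fin (4 * k + 1)) :=
  SimpleGraph.circulantGraph {x : Fin (4 * k + 1) | x.val ≤ k}

theorem circ_adj (k : ℕ) (u v : Fin (4 * k + 1)) :
    (circ k).Adj u v ↔ u ≠ v ∧ ((u - v).val ≤ k ∨ (v - u).val ≤ k) := by
  simp [circ, SimpleGraph.circulantGraph_adj]

theorem circ_deg (k : ℕ) (v : Fin (4 * k + 1)) : (circ k).degree v = (circ k).degree 0 := by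
  rw [← SimpleGraph.card_neighborFinset_eq_degree, ← SimpleGraph.card_neighborFinset_eq_degree]
  refine Finset.card_bij (fun w _ => w - v) ?_ ?_ ?_
  · intro w hw
    rw [SimpleGraph.mem_neighborFinset] at hw ⊢
    have := (SimpleGraph.circulantGraph_adj_translate (s := {x : Fin (4 * k + 1) | x.val ≤ k})
      (u := 0) (v := w - v) (d := v)).1 (by simpa [circ] using hw)
    exact this
  · intro a _ b _ h
    simpa using h
  · intro w hw
    refine ⟨w + v, ?_, by simp⟩
    rw [SimpleGraph.mem_neighborFinset] at hw ⊢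
    have := (SimpleGraph.circulantGraph_adj_translate (s := {x : Fin (4 * k + 1) | x.val ≤ k})
      (u := 0) (v := w) (d := v)).2 hw
    simpa [circ] using this

def TT (k : ℕ) : Finset (Fin (4 * k + 1)) := Finset.univ.filter (fun x => 0 < x.val ∧ x.val ≤ k)

theorem TT_card (k : ℕ) : (TT k).card = k := by
  have : (TT k).map Fin.valEmbedding = Finset.Ioc 0 k := by
    ext x
    simp only [TT, Finset.mem_map, Finset.mem_filter, Finset.mem_univ, true_and,
      Fin.valEmbedding_apply, Finset.mem_Ioc]
    constructor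
    · rintro ⟨a, ha, rfl⟩
      exact ha
    · intro h
      exact ⟨⟨x, by omega⟩, h, rfl⟩
  rw [← Finset.card_map Fin.valEmbedding, this]
  simp

theorem circ_deg_ge (k : ℕ) : k ≤ (circ k).degree 0 := by
  rw [← SimpleGraph.card_neighborFinset_eq_degree]
  conv_lhs => rw [← TT_card k]
  apply Finset.card_le_card
  intro x hx
  simp only [TT, Finset.mem_filter, Finset.mem_univ, true_and] at hx
  rw [SimpleGraph.mem_neighborFinset, circ_adj]
  refine ⟨?_, Or.inr (by simpa using hx.2)⟩
  intro h
  rw [← h] at hx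
  simp at hx

theorem circ_deg_le (k : ℕ) : (circ k).degree 0 ≤ 2 * k := by
  rw [← SimpleGraph.card_neighborFinset_eq_degree]
  have h1 : (circ k).neighborFinset 0 ⊆ TT k ∪ (TT k).image (fun x => -x) := by
    intro x hx
    rw [SimpleGraph.mem_neighborFinset, circ_adj] at hx
    obtain ⟨h0, h⟩ := hx
    rw [Finset.mem_union]
    rcases h with h | h
    · right
      rw [Finset.mem_image]
      refine ⟨-x, ?_, by simp⟩
      simp only [TT, Finset.mem_filter, Finset.mem_univ, true_and]
      refine ⟨?_, by simpa using h⟩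
      rw [Nat.pos_iff_ne_zero]
      intro h2
      have : -x = 0 := Fin.ext h2
      apply h0
      simp [neg_eq_zero.1 this]
    · left
      simp only [TT, Finset.mem_filter, Finset.mem_univ, true_and]
      refine ⟨?_, by simpa using h⟩
      rw [Nat.pos_iff_ne_zero]
      intro h2
      exact h0 (Fin.ext h2).symm
  calc _ ≤ _ := Finset.card_le_card h1
    _ ≤ (TT k).card + ((TT k).image (fun x => -x)).card := Finset.card_union_le _ _
    _ ≤ (TT k).card + (TT k).card := Nat.add_le_add_left Finset.card_image_le _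
    _ = 2 * k := by rw [TT_card]; ring

theorem circ_adj_succ (k : ℕ) (hk : 2 ≤ k) (i j : ℕ) (hj : j < 4 * k + 1) (h1 : i < j)
    (h2 : j ≤ i + 2) : (circ k).Adj ⟨i, by omega⟩ ⟨j, hj⟩ := by
  rw [circ_adj]
  refine ⟨by simp; omega, Or.inr ?_⟩
  rw [Fin.sub_val_of_le (by simp; omega)]
  simp
  omega

theorem circ_conn (k : ℕ) (hk : 2 ≤ k) : (circ k).Connected := by
  rw [SimpleGraph.connected_iff_exists_forall_reachable]
  refine ⟨0, ?_⟩
  rintro ⟨i, hi⟩
  induction i with
  | zero => exact SimpleGraph.Reachable.refl _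
  | succ i ih =>
    exact (ih (by omega)).trans (circ_adj_succ k hk i (i+1) hi (by omega) (by omega)).reachable

theorem circ_not_col (k : ℕ) (hk : 2 ≤ k) : ¬ (circ k).Colorable 2 := by
  rintro ⟨C⟩
  have h01 := C.valid (circ_adj_succ k hk 0 1 (by omega) (by omega) (by omega))
  have h02 := C.valid (circ_adj_succ k hk 0 2 (by omega) (by omega) (by omega))
  have h12 := C.valid (circ_adj_succ k hk 1 2 (by omega) (by omega) (by omega))
  revert h01 h02 h12
  generalize C ⟨0, _⟩ = a
  generalize C ⟨1, _⟩ = b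
  generalize C ⟨2, _⟩ = c
  revert a b c
  decide

theorem circ_edges (k : ℕ) : 2 * (circ k).edgeSet.ncard = (4 * k + 1) * (circ k).degree 0 := by
  have h3 := (circ k).sum_degrees_eq_twice_card_edges
  have h4 : (circ k).edgeSet.ncard = (circ k).edgeFinset.card := by
    rw [← SimpleGraph.coe_edgeFinset, Set.ncard_coe_finset]
  rw [h4, ← h3, Finset.sum_congr rfl (fun v _ => circ_deg k v)]
  simp

end Pool.Agent.H19
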