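import Pool.Agent.H19.LsA

/-! Continuous linear surjections of `C_p`-spaces preserve analyticity. -/

namespace Pool.Agent.H19.Cond

open Set Filter Topology Pool.Agent.H19.Ls

variable {X Y : Type*} [TopologicalSpace X] [TopologicalSpace Y]

lemma repr {T : C(X, ℝ) →ₗ[ℝ] C(Y, ℝ)} (h : PC T) (y : Y) :
    ∃ (n : ℕ) (c : Fin n → ℝ) (a : Fin n → X), ∀ g, ∑ i, c i * g (a i) = T g y := by
  obtain ⟨F, hF, hF'⟩ := fin_supp h y
  obtain ⟨n, a, rfl⟩ := hF.fin_embedding
  have h1 := mem_span_of_iInf_ker_le_ker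
    (L := fun i => (LinearMap.proj (a i)).comp (ContinuousMap.coeFnLinearMap ℝ))
    (K := (LinearMap.proj y).comp ((ContinuousMap.coeFnLinearMap ℝ).comp T)) (fun g hg =>
      hF' g (by rintro _ ⟨i, rfl⟩; exact (Submodule.mem_iInf _).1 hg i))
  obtain ⟨c, hc⟩ := (Submodule.mem_span_range_iff_exists_fun ℝ).1 h1
  refine ⟨n, c, a, fun g => ?_⟩
  have := LinearMap.congr_fun hc g
  rw [LinearMap.sum_apply] at this
  exact this

lemma inducing [CompletelyRegularSpace Y] {G : Type*} {T : G → C(Y, ℝ)}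
    (hs : Function.Surjective T) : IsInducing fun y g => T g y := by
  refine isInducing_iff_nhds.2 fun y => le_antisymm
    (tendsto_iff_comap.1 (continuous_pi fun g => (T g).continuous).continuousAt) fun U hU => ?_
  obtain ⟨V, hVU, hV, hy⟩ := mem_nhds_iff.1 hU
  obtain ⟨u, hu, hu0, hu1⟩ := CompletelyRegularSpace.completely_regular_isOpen y V hV hy
  obtain ⟨g, hg⟩ := hs ⟨fun z => u z, continuous_subtype_val.comp hu⟩
  refine mem_comap.2 ⟨{φ | φ g < 1}, (isOpen_lt (continuous_apply g) continuous_const).mem_nhds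
    (by simp [hg, hu0]), fun z hz => hVU ?_⟩
  by_contra h
  simp [hg, hu1 h] at hz

lemma closed_range [LindelofSpace Y] {G : Type*} [Nonempty G] {T : G → C(Y, ℝ)}
    (hs : Function.Surjective T) : IsClosed (range fun y g => T g y) := by
  refine isClosed_of_closure_subset fun ψ hψ => ?_
  by_contra h
  obtain ⟨g, hg⟩ := (isLindelof_univ (X := Y)).indexed_countable_subcover
    (fun g => {y | T g y ≠ ψ g}) (fun g => isOpen_ne_fun (T g).continuous continuous_const)
    (fun y _ => by
      by_contra h1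
      exact h ⟨y, funext fun g => not_not.1 fun h2 => h1 (mem_iUnion.2 ⟨g, h2⟩)⟩)
  set a : ℕ → (G → ℝ) → ℝ := fun n φ => (1 / 2) ^ n * min 1 |φ (g n) - ψ (g n)| with ha
  have ha0 : ∀ n φ, 0 ≤ a n φ := fun n φ => by rw [ha]; positivity
  have ha1 : ∀ n φ, ‖a n φ‖ ≤ (1 / 2) ^ n := fun n φ => by
    rw [Real.norm_of_nonneg (ha0 n φ)]
    exact mul_le_of_le_one_right (by positivity) (min_le_left _ _)
  have hH : Continuous fun φ => ∑' n, a n φ := continuous_tsum (fun n => by rw [ha]; fun_prop)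
    summable_geometric_two ha1
  have hpos : ∀ y, ∑' n, a n (fun g => T g y) ≠ 0 := by
    intro y
    obtain ⟨n, hn⟩ := mem_iUnion.1 (hg (mem_univ y))
    refine ((Summable.of_norm_bounded summable_geometric_two fun n =>
      ha1 n fun g => T g y).tsum_pos (fun m => ha0 m fun g => T g y) n ?_).ne'
    have := abs_pos.2 (sub_ne_zero.2 hn)
    rw [ha]; positivity
  obtain ⟨k, hk⟩ := hs ⟨fun y => (∑' n, a n (fun g => T g y))⁻¹,
    (hH.comp (continuous_pi fun g => (T g).continuous)).inv₀ hpos⟩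
  have h1 : ψ ∈ {φ | φ k * ∑' n, a n φ = 1} := by
    refine closure_minimal ?_ (isClosed_eq ((continuous_apply k).mul hH) continuous_const) hψ
    rintro _ ⟨y, rfl⟩
    show T k y * _ = 1
    rw [hk]
    exact inv_mul_cancel₀ (hpos y)
  simp [ha] at h1

theorem analytic [T35Space Y] [Nonempty Y] {f : (ℕ → ℕ) → X} (hf : Continuous f)
    (hf' : Function.Surjective f) {T : C(X, ℝ) →ₗ[ℝ] C(Y, ℝ)} (h : PC T)
    (hs : Function.Surjective T) : ∃ k : (ℕ → ℕ) → Y, Continuous k ∧ Function.Surjective k := by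
  have he := inducing hs
  set Φ : (Σ n, Fin n → ℝ × (ℕ → ℕ)) → C(X, ℝ) → ℝ :=
    fun p g => ∑ i, (p.2 i).1 * g (f (p.2 i).2) with hΦ
  have hΦc : Continuous Φ := continuous_sigma fun n => continuous_pi fun g => by
    exact continuous_finsetSum (f := fun i (a : Fin n → ℝ × (ℕ → ℕ)) => (a i).1 * g (f (a i).2))
      Finset.univ fun i _ => by fun_prop
  set E := Φ ⁻¹' range fun y g => T g y with hE
  choose k hk using fun p : E => p.2
  have hkc : Continuous k := he.continuous_iff.2 (by
    rw [show (fun y g => T g y) ∘ k = Φ ∘ Subtype.val from funext hk]; fun_prop)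
  have hks : Function.Surjective k := by
    intro y
    obtain ⟨n, c, a, hc⟩ := repr h y
    choose u hu using fun i => hf' (a i)
    have h1 : (fun g => T g y) = Φ ⟨n, fun i => (c i, u i)⟩ := funext fun g => by
      simp only [hΦ, hu, hc]
    exact ⟨⟨_, y, h1⟩, he.injective ((hk _).trans h1.symm)⟩
  haveI := LindelofSpace.of_continuous_surjective hkc hks
  haveI : PolishSpace E := ((closed_range hs).preimage hΦc).polishSpace
  haveI : Nonempty E := hks.nonempty
  obtain ⟨w, hw, hw'⟩ := PolishSpace.exists_nat_nat_continuous_surjective E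
  exact ⟨k ∘ w, hkc.comp hw, hks.comp hw'⟩

end Pool.Agent.H19.Cond
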