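import Mathlib

/-! Closing off under countably valued finitary operations, and compactness lemmas. -/

namespace Pool.Agent.H19.Cp

open Set Filter Topology Cardinal

section Close
universe u
variable {α : Type u} (W : Finset α → Set α)

/-- One step of closing off. -/
def stp (A : Set α) : Set α := A ∪ ⋃ E : {E : Finset α // (E : Set α) ⊆ A}, W E.1

/-- Closing off under `W`. -/
def cls (A : Set α) : Set α := ⋃ n : ℕ, (stp W)^[n] A

lemma stp_mono {A B : Set α} (h : A ⊆ B) : stp W A ⊆ stp W B := by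
  rintro x (hx | hx)
  · exact Or.inl (h hx)
  · obtain ⟨E, hE⟩ := mem_iUnion.1 hx
    exact Or.inr (mem_iUnion.2 ⟨⟨E.1, E.2.trans h⟩, hE⟩)

lemma iter_mono {A B : Set α} (h : A ⊆ B) (n : ℕ) : (stp W)^[n] A ⊆ (stp W)^[n] B := by
  induction n with
  | zero => exact h
  | succ n ih => rw [Function.iterate_succ_apply', Function.iterate_succ_apply']; exact stp_mono W ih

lemma cls_mono {A B : Set α} (h : A ⊆ B) : cls W A ⊆ cls W B :=
  iUnion_mono fun n => iter_mono W h n

lemma subset_cls (A : Set α) : A ⊆ cls W A := subset_iUnion (fun n => (stp W)^[n] A) 0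

lemma iter_mono_n (A : Set α) : Monotone fun n => (stp W)^[n] A :=
  monotone_nat_of_le_succ fun n => by
    show (stp W)^[n] A ⊆ (stp W)^[n + 1] A
    rw [Function.iterate_succ_apply']; exact subset_union_left

lemma exists_level {A : Set α} (E : Finset α) (hE : (E : Set α) ⊆ cls W A) :
    ∃ n, (E : Set α) ⊆ (stp W)^[n] A := by
  classical
  induction E using Finset.induction_on with
  | empty => exact ⟨0, by simp⟩
  | insert a s _ ih =>
    rw [Finset.coe_insert, insert_subset_iff] at hE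
    obtain ⟨n, hn⟩ := ih hE.2
    obtain ⟨m, hm⟩ := mem_iUnion.1 hE.1
    refine ⟨max n m, ?_⟩
    rw [Finset.coe_insert, insert_subset_iff]
    exact ⟨iter_mono_n W A (le_max_right _ _) hm, hn.trans (iter_mono_n W A (le_max_left _ _))⟩

lemma cls_closed {A : Set α} (E : Finset α) (hE : (E : Set α) ⊆ cls W A) : W E ⊆ cls W A := by
  obtain ⟨n, hn⟩ := exists_level W E hE
  intro x hx
  refine mem_iUnion.2 ⟨n + 1, ?_⟩
  rw [Function.iterate_succ_apply']
  exact Or.inr (mem_iUnion.2 ⟨⟨E, hn⟩, hx⟩)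

lemma cls_min {A B : Set α} (h : A ⊆ B) (hB : ∀ E : Finset α, (E : Set α) ⊆ B → W E ⊆ B) :
    cls W A ⊆ B := by
  refine iUnion_subset fun n => ?_
  induction n with
  | zero => exact h
  | succ n ih =>
    rw [Function.iterate_succ_apply']
    exact union_subset ih (iUnion_subset fun E => hB E.1 (E.2.trans ih))

lemma cls_fin_aux {A : Set α} (E : Finset α)
    (h : ∀ x ∈ E, ∃ F : Finset α, (F : Set α) ⊆ A ∧ x ∈ cls W F) :
    ∃ F : Finset α, (F : Set α) ⊆ A ∧ (E : Set α) ⊆ cls W F := by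
  classical
  induction E using Finset.induction_on with
  | empty => exact ⟨∅, by simp, by simp⟩
  | insert a s _ ih =>
    obtain ⟨F, hF, hF'⟩ := ih fun x hx => h x (Finset.mem_insert_of_mem hx)
    obtain ⟨G, hG, hG'⟩ := h a (Finset.mem_insert_self _ _)
    refine ⟨F ∪ G, by rw [Finset.coe_union]; exact union_subset hF hG, ?_⟩
    rw [Finset.coe_insert, insert_subset_iff, Finset.coe_union]
    exact ⟨cls_mono W subset_union_right hG', hF'.trans (cls_mono W subset_union_left)⟩

lemma cls_fin {A : Set α} (E : Finset α) (hE : (E : Set α) ⊆ cls W A) :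
    ∃ F : Finset α, (F : Set α) ⊆ A ∧ (E : Set α) ⊆ cls W F := by
  classical
  apply cls_fin_aux
  have : cls W A ⊆ {x | ∃ F : Finset α, (F : Set α) ⊆ A ∧ x ∈ cls W F} := by
    apply cls_min
    · intro x hx
      exact ⟨{x}, by simpa using hx, subset_cls W _ (by simp)⟩
    · intro E hE x hx
      obtain ⟨F, hF, hF'⟩ := cls_fin_aux W E (A := A) fun y hy => hE hy
      exact ⟨F, hF, cls_closed W E hF' hx⟩
  exact fun x hx => this (hE hx)

lemma card_fin {A : Set α} {c : Cardinal.{u}} (hc : ℵ₀ ≤ c) (hA : #A ≤ c) :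
    #{E : Finset α // (E : Set α) ⊆ A} ≤ c := by
  classical
  have h1 : #{E : Finset α // (E : Set α) ⊆ A} ≤ #(List A) := by
    refine mk_le_of_surjective (f := fun l : List A =>
      (⟨(l.map Subtype.val).toFinset, fun x hx => by
        simp only [List.coe_toFinset, List.mem_map, mem_setOf_eq] at hx
        obtain ⟨a, -, rfl⟩ := hx; exact a.2⟩ : {E : Finset α // (E : Set α) ⊆ A})) ?_
    rintro ⟨E, hE⟩
    refine ⟨E.attach.toList.map fun x => ⟨x.1, hE x.2⟩, Subtype.ext ?_⟩
    ext x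
    simp
  exact h1.trans ((mk_list_le_max _).trans (max_le hc hA))

lemma card_cls (hW : ∀ E, (W E).Countable) {A : Set α} {c : Cardinal.{u}} (hc : ℵ₀ ≤ c)
    (hA : #A ≤ c) : #(cls W A) ≤ c := by
  have h1 : ∀ B : Set α, #B ≤ c → #(stp W B) ≤ c := by
    intro B hB
    refine (mk_union_le _ _).trans (add_le_of_le hc hB ?_)
    refine (mk_iUnion_le _).trans (mul_le_of_le hc (card_fin hc hB) ?_)
    exact ciSup_le' fun E => ((le_aleph0_iff_set_countable).2 (hW _)).trans hc
  have h2 : ∀ n, #((stp W)^[n] A) ≤ c := by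
    intro n
    induction n with
    | zero => exact hA
    | succ n ih => rw [Function.iterate_succ_apply']; exact h1 _ ih
  have h3 := mk_iUnion_le_lift (fun n : ℕ => (stp W)^[n] A)
  simp only [lift_uzero, mk_nat, lift_aleph0] at h3
  exact h3.trans (mul_le_of_le hc hc (ciSup_le' h2))

lemma cls_countable (hW : ∀ E, (W E).Countable) {A : Set α} (hA : A.Countable) :
    (cls W A).Countable :=
  le_aleph0_iff_set_countable.1 (card_cls W hW le_rfl (le_aleph0_iff_set_countable.2 hA))

end Close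

lemma exists_all {Y β : Type*} [TopologicalSpace Y] [CompactSpace Y] (A : Set β) {D : Set Y}
    (hD : IsClosed D) (Z : Finset β → Set Y) (hZ : ∀ E, IsClosed (Z E)) (ha : Antitone Z)
    (hne : ∀ E : Finset β, (E : Set β) ⊆ A → (D ∩ Z E).Nonempty) :
    ∃ q ∈ D, ∀ E : Finset β, (E : Set β) ⊆ A → q ∈ Z E := by
  classical
  haveI : Nonempty {E : Finset β // (E : Set β) ⊆ A} := ⟨⟨∅, by simp⟩⟩
  obtain ⟨q, hq⟩ := IsCompact.nonempty_iInter_of_directed_nonempty_isCompact_isClosed
    (fun E : {E : Finset β // (E : Set β) ⊆ A} => D ∩ Z E.1)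
    (fun E F => ⟨⟨E.1 ∪ F.1, by rw [Finset.coe_union]; exact union_subset E.2 F.2⟩,
      inter_subset_inter_right _ (ha Finset.subset_union_left),
      inter_subset_inter_right _ (ha Finset.subset_union_right)⟩)
    (fun E => hne E.1 E.2) (fun E => (hD.inter (hZ _)).isCompact) (fun E => hD.inter (hZ _))
  rw [mem_iInter] at hq
  exact ⟨q, (hq ⟨∅, by simp⟩).1, fun E hE => (hq ⟨E, hE⟩).2⟩

lemma exists_pre {Y Z : Type*} [TopologicalSpace Y] [CompactSpace Y] [TopologicalSpace Z]
    [T2Space Z] {f : Y → Z} (hf : Continuous f) {B : Set Y} {z : Z} (hz : z ∈ closure (f '' B)) :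
    ∃ q ∈ closure B, f q = z := hf.isClosedMap.closure_image_subset B hz

lemma lift_ctble {Y Z : Type*} {f : Y → Z} {B : Set Y} {t : Set Z} (ht : t ⊆ f '' B)
    (htc : t.Countable) : ∃ C ⊆ B, C.Countable ∧ f '' C = t := by
  haveI := htc.to_subtype
  have : ∀ z : t, ∃ y, y ∈ B ∧ f y = z := fun z => ht z.2
  choose g hg hg' using this
  refine ⟨range g, range_subset_iff.2 hg, countable_range g, ?_⟩
  ext z
  constructor
  · rintro ⟨_, ⟨w, rfl⟩, rfl⟩; rw [hg']; exact w.2
  · intro hz; exact ⟨_, ⟨⟨z, hz⟩, rfl⟩, hg' _⟩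

lemma exists_ctble {Y : Type*} [TopologicalSpace Y] [CompactSpace Y] {U : Set C(Y, ℝ)}
    (hU : U.Countable) (B : Set Y) :
    ∃ C ⊆ B, C.Countable ∧ ∀ p ∈ closure B, ∃ q ∈ closure C, ∀ φ ∈ U, φ q = φ p := by
  haveI := hU.to_subtype
  set f : Y → U → ℝ := fun y φ => φ.1 y with hf
  have hc : Continuous f := continuous_pi fun φ => φ.1.continuous
  obtain ⟨t, ht, htc, hts⟩ :=
    (TopologicalSpace.IsSeparable.of_separableSpace (f '' B)).exists_countable_dense_subset
  obtain ⟨C, hC, hCc, rfl⟩ := lift_ctble ht htc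
  refine ⟨C, hC, hCc, fun p hp => ?_⟩
  obtain ⟨q, hq, h⟩ := exists_pre hc (closure_minimal hts isClosed_closure
    (image_closure_subset_closure_image hc (mem_image_of_mem f hp)))
  exact ⟨q, hq, fun φ hφ => congrFun h ⟨φ, hφ⟩⟩

end Pool.Agent.H19.Cp
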