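import Pool.Agent.H19.CpA

/-! Compact spaces with a finitary countably valued separating assignment are Corson. -/

namespace Pool.Agent.H19.Cp

open Set Filter Topology Cardinal

universe u
variable {Y : Type u} [TopologicalSpace Y]

/-- A separating assignment. -/
structure OS (O : Finset Y → Set C(Y, ℝ)) : Prop where
  ctble : ∀ E, (O E).Countable
  mono : Monotone O
  sep : ∀ A : Set Y, ∀ p ∈ closure A, ∀ q ∈ closure A,
    (∀ E : Finset Y, (E : Set Y) ⊆ A → ∀ φ ∈ O E, φ p = φ q) → p = q

lemma isClosed_agree (U : Set C(Y, ℝ)) (p : Y) : IsClosed {q | ∀ φ ∈ U, φ q = φ p} := by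
  simp only [setOf_forall]
  exact isClosed_iInter fun φ => isClosed_iInter fun _ => isClosed_eq φ.continuous continuous_const

lemma OS_of_sigma {Γ : Type*} {e : Y → Γ → ℝ} (he : Continuous e) (hi : Function.Injective e)
    (hs : ∀ s, (Function.support (e s)).Countable) : ∃ O : Finset Y → Set C(Y, ℝ), OS O := by
  refine ⟨fun E => (fun γ => (⟨fun s => e s γ, (continuous_apply γ).comp he⟩ : C(Y, ℝ))) ''
    (⋃ s ∈ E, Function.support (e s)), fun E => ?_, fun E F h => ?_, fun A p hp q hq h => ?_⟩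
  · exact (E.countable_toSet.biUnion fun s _ => hs s).image _
  · exact image_mono (biUnion_subset_biUnion_left h)
  · apply hi
    funext γ
    by_cases hγ : ∃ s ∈ A, e s γ ≠ 0
    · obtain ⟨s, hs, hγ⟩ := hγ
      exact h {s} (by simpa using hs) _ ⟨γ, by simpa using hγ, rfl⟩
    · push Not at hγ
      have h1 : closure A ⊆ {s | e s γ = 0} := closure_minimal hγ
        (isClosed_eq ((continuous_apply γ).comp he) continuous_const)
      rw [h1 hp, h1 hq]

variable [CompactSpace Y] {O : Finset Y → Set C(Y, ℝ)}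

lemma OS.ct (h : OS O) (B : Set Y) {p : Y} (hp : p ∈ closure B) :
    ∃ C ⊆ B, C.Countable ∧ p ∈ closure C := by
  classical
  choose W hWB hWc hW using fun E : Finset Y => exists_ctble (h.ctble (insert p E)) B
  refine ⟨cls W ∅, cls_min W (empty_subset _) fun E _ => hWB E,
    cls_countable W hWc countable_empty, ?_⟩
  obtain ⟨q, hq, hq'⟩ := exists_all (cls W ∅) (D := closure (cls W ∅)) isClosed_closure
    (fun E => {q | ∀ φ ∈ O (insert p E), φ q = φ p}) (fun E => isClosed_agree _ _)
    (fun E F hEF q hq φ hφ => hq φ (h.mono (Finset.insert_subset_insert _ hEF) hφ))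
    (fun E hE => by
      obtain ⟨q, hq, hq'⟩ := hW E p hp
      exact ⟨q, closure_mono (cls_closed W E hE) hq, hq'⟩)
  have : q = p := by
    refine h.sep (insert p (cls W ∅)) q (closure_mono (subset_insert _ _) hq) p
      (subset_closure (mem_insert _ _)) fun E hE φ hφ => ?_
    refine hq' (E.erase p) (fun x hx => ?_) φ (h.mono (Finset.subset_insert_iff.2 Subset.rfl) hφ)
    rw [Finset.coe_erase] at hx
    exact (hE hx.1).resolve_left hx.2
  exact this ▸ hq

/-- Agreement on the functions attached to finite subsets of `B`. -/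
def Rl (O : Finset Y → Set C(Y, ℝ)) (B : Set Y) (p q : Y) : Prop :=
  ∀ E : Finset Y, (E : Set Y) ⊆ B → ∀ φ ∈ O E, φ p = φ q

lemma exists_ret [T2Space Y] (h : OS O) : ∃ (W : Finset Y → Set Y) (r : Set Y → Y → Y),
    (∀ E, (W E).Countable) ∧ (∀ A, Continuous (r A)) ∧ (∀ A s, r A s ∈ closure (cls W A)) ∧
    (∀ A s, Rl O (cls W A) (r A s) s) := by
  choose W _ hWc hW using fun E : Finset Y => exists_ctble (h.ctble E) univ
  have h1 : ∀ A s, ∃ q ∈ closure (cls W A), Rl O (cls W A) q s := fun A s =>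
    exists_all (cls W A) (D := closure (cls W A)) isClosed_closure
      (fun E => {q | ∀ φ ∈ O E, φ q = φ s}) (fun E => isClosed_agree _ _)
      (fun E F hEF q hq φ hφ => hq φ (h.mono hEF hφ))
      (fun E hE => by
        obtain ⟨q, hq, hq'⟩ := hW E s (by simp)
        exact ⟨q, closure_mono (cls_closed W E hE) hq, hq'⟩)
  choose r hr hr' using h1
  refine ⟨W, r, hWc, fun A => ?_, hr, hr'⟩
  rw [continuous_iff_isClosed]
  intro F hF
  set I : Set C(Y, ℝ) := {φ | ∃ E : Finset Y, (E : Set Y) ⊆ cls W A ∧ φ ∈ O E} with hI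
  set f : Y → I → ℝ := fun y φ => φ.1 y with hf
  have hc : Continuous f := continuous_pi fun φ => φ.1.continuous
  have : r A ⁻¹' F = f ⁻¹' (f '' (F ∩ closure (cls W A))) := by
    ext s
    constructor
    · intro hs
      refine ⟨r A s, ⟨hs, hr A s⟩, funext fun φ => ?_⟩
      obtain ⟨E, hE, hφ⟩ := φ.2
      exact hr' A s E hE _ hφ
    · rintro ⟨p, hp, hps⟩
      have : p = r A s := h.sep _ p hp.2 _ (hr A s) fun E hE φ hφ =>
        (congrFun hps ⟨φ, E, hE, hφ⟩).trans (hr' A s E hE φ hφ).symm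
      show r A s ∈ F
      exact this ▸ hp.1
  rw [this]
  exact (hc.isClosedMap _ (hF.inter isClosed_closure)).preimage hc

lemma jumps_countable (h : OS O) {W : Finset Y → Set Y} {r : Set Y → Y → Y}
    (hr : ∀ A s, r A s ∈ closure (cls W A)) (hr' : ∀ A s, Rl O (cls W A) (r A s) s)
    {ι : Type*} [LinearOrder ι] [WellFoundedLT ι] (a : ι → Y) (s : Y) :
    {i | r (a '' Iic i) s ≠ r (a '' Iio i) s}.Countable := by
  set I := {i | r (a '' Iic i) s ≠ r (a '' Iio i) s} with hI
  by_contra hunc
  set J := {i | (I ∩ Iio i).Countable} with hJ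
  have h1 : ¬ (I ∩ J).Countable := by
    by_cases hJu : (Jᶜ).Nonempty
    · obtain ⟨i, hi, hmin⟩ := WellFounded.has_min wellFounded_lt _ hJu
      intro h2
      apply hi
      refine Set.Countable.mono (fun j hj => ?_) h2
      refine ⟨hj.1, ?_⟩
      by_contra h3
      exact hmin j h3 hj.2
    · rw [not_nonempty_iff_eq_empty, compl_empty_iff] at hJu
      rwa [hJu, inter_univ]
  obtain ⟨C, hC, hCc, hpC⟩ := h.ct _ (hr (a '' J) s)
  have h2 : ∀ c : C, ∃ T ⊆ J, T.Countable ∧ c.1 ∈ cls W (a '' T) := by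
    intro c
    obtain ⟨F, hF, hF'⟩ := cls_fin W {c.1} (A := a '' J) (by simpa using hC c.2)
    obtain ⟨T, hT, hTc, hTe⟩ := lift_ctble hF F.countable_toSet
    exact ⟨T, hT, hTc, by rw [hTe]; exact hF' (by simp)⟩
  choose T hT hTc hTm using h2
  haveI := hCc.to_subtype
  have h3 : (⋃ c, ⋃ t ∈ T c, insert t (I ∩ Iio t)).Countable :=
    countable_iUnion fun c => (hTc c).biUnion fun t ht => Set.Countable.insert t (hT c ht)
  obtain ⟨j, hj, hj'⟩ : ∃ j ∈ I ∩ J, j ∉ ⋃ c, ⋃ t ∈ T c, insert t (I ∩ Iio t) := by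
    by_contra h4
    push Not at h4
    exact h1 (h3.mono h4)
  have h4 : ∀ c, T c ⊆ Iio j := fun c t ht => by
    by_contra h5
    apply hj'
    refine mem_iUnion.2 ⟨c, mem_iUnion₂.2 ⟨t, ht, ?_⟩⟩
    rcases (not_lt.1 h5).eq_or_lt with h6 | h6
    · exact Or.inl h6
    · exact Or.inr ⟨hj.1, h6⟩
  have h5 : r (a '' J) s ∈ closure (cls W (a '' Iio j)) :=
    closure_mono (fun c hc => cls_mono W (image_mono (h4 ⟨c, hc⟩)) (hTm ⟨c, hc⟩)) hpC
  have h6 : Iic j ⊆ J := fun i hi =>
    Set.Countable.mono (inter_subset_inter_right _ (Iio_subset_Iio hi)) hj.2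
  have h7 : ∀ V ⊆ Iic j, Iio j ⊆ V → r (a '' J) s = r (a '' V) s := fun V hV hV' =>
    h.sep _ _ (closure_mono (cls_mono W (image_mono hV')) h5) _ (hr _ s) fun E hE φ hφ =>
      (hr' _ s E (hE.trans (cls_mono W (image_mono (hV.trans h6)))) φ hφ).trans
        (hr' _ s E hE φ hφ).symm
  exact hj.1 ((h7 _ Subset.rfl Iio_subset_Iic_self).symm.trans (h7 _ Iio_subset_Iic_self Subset.rfl))

/-- The closure of `B` is separated by a continuous map with countable supports. -/
def Cs (B : Set Y) : Prop := ∃ (Γ : Type u) (e : Y → Γ → ℝ), Continuous e ∧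
  InjOn e (closure B) ∧ ∀ s ∈ closure B, (Function.support (e s)).Countable

omit [CompactSpace Y] in
lemma cs_countable (h : OS O) {B : Set Y} (hB : B.Countable) : Cs B := by
  set I : Set C(Y, ℝ) := ⋃ E : {E : Finset Y // (E : Set Y) ⊆ B}, O E.1 with hI
  haveI : Countable {E : Finset Y // (E : Set Y) ⊆ B} :=
    mk_le_aleph0_iff.1 (card_fin le_rfl (le_aleph0_iff_set_countable.2 hB))
  haveI : Countable I := (countable_iUnion fun E => h.ctble _).to_subtype
  refine ⟨I, fun y φ => φ.1 y, continuous_pi fun φ => φ.1.continuous, fun p hp q hq hpq => ?_,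
    fun _ _ => to_countable _⟩
  exact h.sep B p hp q hq fun E hE φ hφ => congrFun hpq ⟨φ, mem_iUnion.2 ⟨⟨E, hE⟩, hφ⟩⟩

theorem OS.corson [T2Space Y] (h : OS O) : ∃ (Γ : Type u) (e : Y → Γ → ℝ), IsEmbedding e ∧
    ∀ s, (Function.support (e s)).Countable := by
  obtain ⟨W, r, hW, hrc, hr, hr'⟩ := exists_ret h
  have main : ∀ c : Cardinal.{u}, ∀ A : Set Y, #A = c → Cs (cls W A) := by
    intro c
    induction c using WellFoundedLT.induction with
    | ind c ih =>
    intro A hA
    by_cases hc : c ≤ ℵ₀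
    · exact cs_countable h (cls_countable W hW (le_aleph0_iff_set_countable.1 (hA ▸ hc)))
    push Not at hc
    obtain ⟨a0⟩ : Nonempty (c.ord.ToType ≃ A) := Cardinal.eq.1 (by rw [mk_ord_toType, hA])
    set a : c.ord.ToType → Y := fun i => (a0 i).1 with ha
    have hA' : range a = A := by
      ext y
      constructor
      · rintro ⟨i, rfl⟩; exact (a0 i).2
      · intro hy; exact ⟨a0.symm ⟨y, hy⟩, by simp [ha]⟩
    have h1 : ∀ i, Cs (cls W (a '' Iic i)) := fun i => by
      refine ih _ (mk_image_le.trans_lt ?_) _ rfl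
      rw [← Iio_insert]
      exact mk_insert_le.trans_lt (add_lt_of_lt hc.le (mk_Iio_ord_toType i)
        (one_lt_aleph0.trans hc))
    choose Γ e he hi hs using h1
    obtain ⟨Γ0, e0, he0, hi0, hs0⟩ := cs_countable h (cls_countable W hW countable_empty)
    have hsub : ∀ i s, r (a '' Iio i) s ∈ closure (cls W (a '' Iic i)) := fun i s =>
      closure_mono (cls_mono W (image_mono Iio_subset_Iic_self)) (hr _ s)
    refine ⟨Γ0 ⊕ (Σ i, Γ i), fun s => Sum.elim (e0 (r ∅ s))
      (fun z => e z.1 (r (a '' Iic z.1) s) z.2 - e z.1 (r (a '' Iio z.1) s) z.2), ?_, ?_, ?_⟩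
    · refine continuous_pi fun z => ?_
      rcases z with γ | ⟨i, γ⟩
      · exact (continuous_apply γ).comp (he0.comp (hrc _))
      · exact ((continuous_apply γ).comp ((he i).comp (hrc _))).sub
          ((continuous_apply γ).comp ((he i).comp (hrc _)))
    · intro s hs t ht hst
      have e1 : r ∅ s = r ∅ t := hi0 (hr _ s) (hr _ t) (funext fun γ => congrFun hst (Sum.inl γ))
      have rl : ∀ B, r B s = r B t → Rl O (cls W B) s t := fun B hB E hE φ hφ =>
        (hr' B s E hE φ hφ).symm.trans (hB ▸ hr' B t E hE φ hφ)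
      have key : ∀ V : Set c.ord.ToType, (∀ j ∈ V, r (a '' Iic j) s = r (a '' Iic j) t) →
          Rl O (cls W (a '' V)) s t := by
        intro V hV E hE
        obtain ⟨F, hF, hF'⟩ := cls_fin W E hE
        obtain ⟨T, hT, hTf, hTe⟩ := (Set.exists_subset_image_finite_and (p := fun s => s = (F : Set Y))).1
          ⟨F, hF, F.finite_toSet, rfl⟩
        rcases T.eq_empty_or_nonempty with rfl | hne
        · rw [image_empty] at hTe
          exact rl ∅ e1 E (hTe ▸ hF')
        · obtain ⟨j, hj, hmax⟩ := Set.exists_max_image T id hTf hne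
          refine rl _ (hV j (hT hj)) E (hF'.trans (cls_mono W ?_))
          rw [← hTe]
          exact image_mono hmax
      have e2 : ∀ i, r (a '' Iic i) s = r (a '' Iic i) t := by
        intro i
        induction i using WellFoundedLT.induction with
        | ind i ihi =>
        have e3 : r (a '' Iio i) s = r (a '' Iio i) t :=
          h.sep _ _ (hr _ s) _ (hr _ t) fun E hE φ hφ =>
            ((hr' _ s E hE φ hφ).trans (key _ ihi E hE φ hφ)).trans (hr' _ t E hE φ hφ).symm
        refine hi i (hr _ s) (hr _ t) (funext fun γ => ?_)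
        have := congrFun hst (Sum.inr ⟨i, γ⟩)
        simp only [Sum.elim_inr, e3] at this
        linarith
      have := key Set.univ fun j _ => e2 j
      rw [image_univ, hA'] at this
      exact h.sep _ s hs t ht this
    · intro s _
      have h2 := jumps_countable h hr hr' a s
      refine (((hs0 _ (hr ∅ s)).image Sum.inl).union (h2.biUnion fun i _ =>
        ((hs i _ (hr _ s)).union (hs i _ (hsub i s))).image
          (fun γ => (Sum.inr ⟨i, γ⟩ : Γ0 ⊕ (Σ i, Γ i))))).mono ?_
      rintro (γ | ⟨i, γ⟩) hz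
      · exact Or.inl ⟨γ, hz, rfl⟩
      · simp only [Function.mem_support, Sum.elim_inr] at hz
        refine Or.inr (mem_biUnion (x := i) ?_ ⟨γ, ?_, rfl⟩)
        · intro h3; apply hz; rw [h3, sub_self]
        · by_contra h3
          simp only [mem_union, Function.mem_support, not_or, not_not] at h3
          apply hz; rw [h3.1, h3.2, sub_self]
  obtain ⟨Γ, e, he, hi, hs⟩ := main _ Set.univ rfl
  have hu : closure (cls W (Set.univ : Set Y)) = Set.univ :=
    eq_univ_of_univ_subset ((subset_cls W _).trans subset_closure)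
  rw [hu] at hi hs
  exact ⟨Γ, e, (he.isClosedEmbedding (injOn_univ.1 hi)).isEmbedding, fun s => hs s trivial⟩

end Pool.Agent.H19.Cp
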