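import Pool.Agent.H19.CpB

/-! Compact sets of continuous functions on a product with a compact factor. -/

namespace Pool.Agent.H19.Cp

open Set Filter Topology

/-- Countable tightness of a subspace. -/
def CT {Z : Type*} [TopologicalSpace Z] (T : Set Z) : Prop :=
  ∀ B ⊆ T, ∀ p ∈ T, p ∈ closure B → ∃ C ⊆ B, C.Countable ∧ p ∈ closure C

lemma ct_of_sub {Z : Type*} [TopologicalSpace Z] {T : Set Z}
    (h : ∀ (A : Set T) (z : T), z ∈ closure A → ∃ B ⊆ A, B.Countable ∧ z ∈ closure B) : CT T := by
  intro B hB p hp hpB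
  obtain ⟨C, hC, hCc, hpC⟩ := h (Subtype.val ⁻¹' B) ⟨p, hp⟩ (by
    rw [closure_subtype, Subtype.image_preimage_coe, inter_eq_right.2 hB]; exact hpB)
  exact ⟨Subtype.val '' C, image_subset_iff.2 hC, hCc.image _, closure_subtype.1 hpC⟩

lemma exists_sep {M : Type*} [MetricSpace M] {R : Set M} (hR : ¬ TopologicalSpace.IsSeparable R) :
    ∃ ε > 0, ∃ N ⊆ R, ¬ N.Countable ∧ N.Pairwise fun a b => ε ≤ dist a b := by
  by_contra h
  push Not at h
  have h1 : ∀ ε > 0, ∃ N : Set M, N.Countable ∧ ∀ a ∈ R, ∃ b ∈ N, dist a b < ε := by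
    intro ε hε
    obtain ⟨N, hN⟩ := zorn_subset {N : Set M | N ⊆ R ∧ N.Pairwise fun a b => ε ≤ dist a b}
      (fun c hc hch => ⟨⋃₀ c, ⟨sUnion_subset fun a ha => (hc ha).1,
        (pairwise_sUnion hch.directedOn).2 fun a ha => (hc ha).2⟩, fun s hs => subset_sUnion_of_mem hs⟩)
    refine ⟨N, ?_, fun a ha => ?_⟩
    · by_contra h2
      exact h ε hε N hN.1.1 h2 hN.1.2
    · by_contra h2
      push Not at h2
      have h3 : insert a N ⊆ N := hN.2 ⟨insert_subset ha hN.1.1, hN.1.2.insert
        fun b hb _ => ⟨h2 b hb, dist_comm a b ▸ h2 b hb⟩⟩ (subset_insert _ _)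
      have := h2 a (h3 (mem_insert _ _))
      rw [dist_self] at this
      exact absurd hε (not_lt.2 this)
  choose! N hN hN' using h1
  refine hR ⟨⋃ n : ℕ, N (1 / (n + 1)), countable_iUnion fun n => hN _ Nat.one_div_pos_of_nat,
    fun a ha => Metric.mem_closure_iff.2 fun ε hε => ?_⟩
  obtain ⟨n, hn⟩ := exists_nat_one_div_lt hε
  obtain ⟨b, hb, hab⟩ := hN' _ (Nat.one_div_pos_of_nat (n := n)) a ha
  exact ⟨b, mem_iUnion.2 ⟨n, hb⟩, hab.trans hn⟩

variable {X : Type*} [TopologicalSpace X]

lemma sep_range (H : ∀ T : Set (X → ℝ), (∀ g ∈ T, Continuous g) → IsCompact T → CT T)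
    {M : Type*} [MetricSpace M] {f : X → M} (hf : Continuous f) :
    TopologicalSpace.IsSeparable (range f) := by
  classical
  by_contra hR
  obtain ⟨ε, hε, N, hN, hNc, hsep⟩ := exists_sep hR
  set u : N → X → ℝ := fun y x => max 0 (ε / 3 - dist (f x) y) with hu
  have hu0 : ∀ y x, u y x ≠ 0 → dist (f x) y < ε / 3 := fun y x h => by
    by_contra h1
    exact h (max_eq_left (by linarith))
  have huniq : ∀ (y y' : N) (m m' : M), dist m y < ε / 3 → dist m' y' < ε / 3 →
      dist m m' < ε / 3 → y = y' := by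
    intro y y' m m' h1 h2 h3
    by_contra h4
    have := hsep y.2 y'.2 fun h => h4 (Subtype.ext h)
    have h5 := dist_triangle4 (y : M) m m' y'
    rw [dist_comm (y : M) m] at h5
    linarith
  set G : (N → Bool) → X → ℝ := fun b x => ∑ᶠ y, (if b y then u y x else 0) with hG
  have hGv : ∀ b x (y : N), dist (f x) y < ε / 3 → G b x = if b y then u y x else 0 := by
    intro b x y hy
    refine finsum_eq_single _ y fun y' hy' => ?_
    split_ifs
    · by_contra h1
      exact hy' (huniq y' y _ _ (hu0 _ _ h1) hy (by simpa using hε))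
    · rfl
  have hG1 : ∀ b, Continuous (G b) := by
    intro b
    refine continuous_finsum (fun y => ?_) fun x => ?_
    · split_ifs
      · rw [hu]; fun_prop
      · exact continuous_const
    · refine ⟨f ⁻¹' Metric.ball (f x) (ε / 6), hf.continuousAt (Metric.ball_mem_nhds _ (by linarith)),
        Set.Subsingleton.finite ?_⟩
      rintro y ⟨z, hz, hz'⟩ y' ⟨w, hw, hw'⟩
      have h1 : u y z ≠ 0 := fun h => hz (by simp [h])
      have h2 : u y' w ≠ 0 := fun h => hw (by simp [h])
      refine huniq y y' _ _ (hu0 _ _ h1) (hu0 _ _ h2) ?_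
      have h3 := dist_triangle_right (f z) (f w) (f x)
      have h4 : dist (f z) (f x) < ε / 6 := hz'
      have h5 : dist (f w) (f x) < ε / 6 := hw'
      linarith
  have hG2 : Continuous G := by
    refine continuous_pi fun x => ?_
    by_cases hx : ∃ y : N, dist (f x) y < ε / 3
    · obtain ⟨y, hy⟩ := hx
      simp only [fun b => hGv b x y hy]
      exact (continuous_of_discreteTopology (f := fun c : Bool => if c then u y x else 0)).comp
        (continuous_apply y)
    · have : ∀ b, G b x = 0 := fun b => finsum_eq_zero_of_forall_eq_zero fun y => by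
        split_ifs
        · by_contra h1; exact hx ⟨y, hu0 _ _ h1⟩
        · rfl
      simp only [this]
      exact continuous_const
  have h1 : (fun _ => true) ∈ closure (range fun E : Finset N => fun y => decide (y ∈ E)) := by
    refine mem_closure_of_tendsto (b := atTop) (f := fun E : Finset N => fun y => decide (y ∈ E))
      ?_ (Eventually.of_forall fun E => mem_range_self E)
    rw [tendsto_pi_nhds]
    intro y
    refine tendsto_const_nhds.congr' ((eventually_ge_atTop {y}).mono fun E hE => ?_)
    simpa using hE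
  obtain ⟨C, hC, hCc, hpC⟩ := H (range G) (by rintro _ ⟨b, rfl⟩; exact hG1 b)
    (isCompact_range hG2) (G '' _) (image_subset_range _ _) _ (mem_range_self _)
    (image_closure_subset_closure_image hG2 (mem_image_of_mem G h1))
  rw [← range_comp, ← image_univ] at hC
  obtain ⟨D, -, hDc, rfl⟩ := lift_ctble hC hCc
  have h2 : (⋃ E ∈ D, (E : Set N)).Countable := hDc.biUnion fun E _ => E.countable_toSet
  obtain ⟨y, hy⟩ : ∃ y : N, y ∉ ⋃ E ∈ D, (E : Set N) := by
    by_contra h3
    push Not at h3
    exact hNc (countable_coe_iff.1 (countable_univ_iff.1 (h2.mono fun y _ => h3 y)))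
  obtain ⟨x, hx⟩ := hN y.2
  have h3 : dist (f x) y < ε / 3 := by rw [hx, dist_self]; linarith
  have h4 : closure ((G ∘ fun E : Finset N => fun y => decide (y ∈ E)) '' D) ⊆ {g | g x = 0} := by
    refine closure_minimal ?_ (isClosed_eq (continuous_apply x) continuous_const)
    rintro _ ⟨E, hE, rfl⟩
    have : y ∉ E := fun h => hy (mem_biUnion hE h)
    show G _ x = 0
    rw [hGv _ x y h3]
    simp [this]
  have h5 : G (fun _ => true) x = 0 := h4 hpC
  rw [hGv _ x y h3] at h5
  simp only [if_true, hu, hx, dist_self, sub_zero] at h5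
  have := le_max_right 0 (ε / 3)
  linarith

variable {Y K : Type*} [TopologicalSpace Y] [TopologicalSpace K] [CompactSpace K]

lemma exists_L (H : ∀ T : Set (X → ℝ), (∀ g ∈ T, Continuous g) → IsCompact T → CT T)
    {F : Y → X × K → ℝ} (h1 : ∀ s, Continuous (F s)) (h2 : Continuous F)
    (hi : Function.Injective F) : ∃ L : Finset Y → Set K, (∀ E, (L E).Countable) ∧ Monotone L ∧
      ∀ A : Set Y, ∀ p ∈ closure A, ∀ q ∈ closure A,
        (∀ E : Finset Y, (E : Set Y) ⊆ A → ∀ l ∈ L E, ∀ x, F p (x, l) = F q (x, l)) → p = q := by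
  classical
  set f : Y → X → C(K, ℝ) := fun s => (⟨F s, h1 s⟩ : C(X × K, ℝ)).curry with hf
  choose D hDc hD using fun s => sep_range H (f := f s) (ContinuousMap.continuous _)
  choose L _ hLc hL using fun E : Finset Y =>
    exists_ctble (E.countable_toSet.biUnion fun s _ => hDc s) (univ : Set K)
  have hL' : ∀ (E : Finset Y) k, ∃ k' ∈ closure (L E), ∀ s ∈ E, ∀ x, F s (x, k') = F s (x, k) := by
    intro E k
    obtain ⟨k', hk', h⟩ := hL E k (by simp)
    refine ⟨k', hk', fun s hs x => ?_⟩
    have : closure (D s) ⊆ {φ : C(K, ℝ) | φ k' = φ k} := closure_minimal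
      (fun φ hφ => h φ (mem_biUnion hs hφ)) (isClosed_eq (by fun_prop) (by fun_prop))
    exact this (hD s (mem_range_self x))
  refine ⟨fun E => ⋃ E' ∈ E.powerset, L E', fun E => (E.powerset).countable_toSet.biUnion
    fun E' _ => hLc E', fun E E' h => biUnion_subset_biUnion_left (Finset.powerset_mono.2 h),
    fun A p hp q hq h => hi (funext fun ⟨x, k⟩ => ?_)⟩
  have hc : ∀ s, Continuous fun k => F s (x, k) := fun s => (h1 s).comp (by fun_prop)
  obtain ⟨k', hk', h3⟩ := exists_all A (D := closure {l | F p (x, l) = F q (x, l)}) isClosed_closure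
    (fun E => {k' | ∀ s ∈ E, F s (x, k') = F s (x, k)})
    (fun E => by
      simp only [setOf_forall]
      exact isClosed_iInter fun s => isClosed_iInter fun _ => isClosed_eq (hc s) continuous_const)
    (fun E E' hE k' hk' s hs => hk' s (hE hs))
    (fun E hE => by
      obtain ⟨k', hk', h3⟩ := hL' E k
      exact ⟨k', closure_mono (fun l hl => h E hE l
        (mem_biUnion (Finset.mem_powerset_self E) hl) x) hk', fun s hs => h3 s hs x⟩)
  have h4 : closure A ⊆ {s | F s (x, k') = F s (x, k)} := closure_minimal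
    (fun s hs => h3 {s} (by simpa using hs) s (by simp))
    (isClosed_eq ((continuous_apply _).comp h2) ((continuous_apply _).comp h2))
  have h5 : F p (x, k') = F q (x, k') := closure_minimal Subset.rfl (isClosed_eq (hc p) (hc q)) hk'
  exact ((h4 hp).symm.trans h5).trans (h4 hq)

omit [CompactSpace K] in
lemma exists_G {F : Y → X × K → ℝ} (h1 : ∀ s, Continuous (F s)) (h2 : Continuous F) {L : Set K}
    (hL : L.Countable) (p : Y) : ∃ G : Y → X → ℝ, Continuous G ∧ (∀ s, Continuous (G s)) ∧
      ∀ q, G q = 0 ↔ ∀ l ∈ L, ∀ x, F q (x, l) = F p (x, l) := by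
  rcases L.eq_empty_or_nonempty with rfl | hne
  · exact ⟨0, continuous_const, fun _ => continuous_const, by simp⟩
  obtain ⟨l, rfl⟩ := hL.exists_eq_range hne
  set a : ℕ → Y → X → ℝ := fun n q x => (1 / 2) ^ n * min 1 |F q (x, l n) - F p (x, l n)| with ha
  have ha0 : ∀ n q x, 0 ≤ a n q x := fun n q x => by rw [ha]; positivity
  have ha1 : ∀ n q x, ‖a n q x‖ ≤ (1 / 2) ^ n := fun n q x => by
    rw [Real.norm_of_nonneg (ha0 n q x)]
    exact mul_le_of_le_one_right (by positivity) (min_le_left _ _)
  have hc : ∀ s n, Continuous fun x => F s (x, l n) := fun s n => (h1 s).comp (by fun_prop)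
  have hc' : ∀ z, Continuous fun s => F s z := fun z => (continuous_apply z).comp h2
  refine ⟨fun q x => ∑' n, a n q x, continuous_pi fun x => continuous_tsum (fun n => ?_)
    summable_geometric_two fun n q => ha1 n q x, fun q => continuous_tsum (fun n => ?_)
    summable_geometric_two fun n x => ha1 n q x, fun q => ⟨fun h => ?_, fun h => ?_⟩⟩
  · exact continuous_const.mul (continuous_const.min ((hc' _).sub continuous_const).abs)
  · exact continuous_const.mul (continuous_const.min ((hc _ n).sub (hc _ n)).abs)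
  · rintro _ ⟨n, rfl⟩ x
    have h3 : Summable fun n => a n q x :=
      Summable.of_norm_bounded summable_geometric_two fun n => ha1 n q x
    have h4 : a n q x ≤ 0 := (h3.le_tsum n fun m _ => ha0 m q x).trans (congrFun h x).le
    have h5 : min 1 |F q (x, l n) - F p (x, l n)| ≤ 0 :=
      nonpos_of_mul_nonpos_right h4 (by positivity)
    rcases min_le_iff.1 h5 with h6 | h6
    · linarith
    · exact sub_eq_zero.1 (abs_nonpos_iff.1 h6)
  · funext x
    have : ∀ n, a n q x = 0 := fun n => by simp [ha, h _ (mem_range_self n) x]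
    simp [this]

variable [CompactSpace Y]

theorem tight (H : ∀ T : Set (X → ℝ), (∀ g ∈ T, Continuous g) → IsCompact T → CT T)
    {F : Y → X × K → ℝ} (h1 : ∀ s, Continuous (F s)) (h2 : Continuous F)
    (hi : Function.Injective F) (B : Set Y) {p : Y} (hp : p ∈ closure B) :
    ∃ C ⊆ B, C.Countable ∧ p ∈ closure C := by
  classical
  obtain ⟨L, hLc, hLm, hL⟩ := exists_L H h1 h2 hi
  have h3 : ∀ E : Finset Y, ∃ C ⊆ B, C.Countable ∧ ∃ q ∈ closure C,
      ∀ l ∈ L (insert p E), ∀ x, F q (x, l) = F p (x, l) := by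
    intro E
    obtain ⟨G, hG, hG', hG0⟩ := exists_G h1 h2 (hLc (insert p E)) p
    obtain ⟨C, hC, hCc, hpC⟩ := H (range G) (by rintro _ ⟨b, rfl⟩; exact hG' b)
      (isCompact_range hG) (G '' B) (image_subset_range _ _) _ (mem_range_self p)
      (image_closure_subset_closure_image hG (mem_image_of_mem G hp))
    obtain ⟨D, hD, hDc, rfl⟩ := lift_ctble hC hCc
    obtain ⟨q, hq, hq'⟩ := exists_pre hG hpC
    exact ⟨D, hD, hDc, q, hq, (hG0 q).1 (hq'.trans ((hG0 p).2 fun _ _ _ => rfl))⟩
  choose W hWB hWc hW using h3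
  refine ⟨cls W ∅, cls_min W (empty_subset _) fun E _ => hWB E,
    cls_countable W hWc countable_empty, ?_⟩
  obtain ⟨q, hq, hq'⟩ := exists_all (cls W ∅) (D := closure (cls W ∅)) isClosed_closure
    (fun E => {q | ∀ l ∈ L (insert p E), ∀ x, F q (x, l) = F p (x, l)})
    (fun E => by
      simp only [setOf_forall]
      exact isClosed_iInter fun l => isClosed_iInter fun _ => isClosed_iInter fun x =>
        isClosed_eq ((continuous_apply _).comp h2) continuous_const)
    (fun E F hEF q hq l hl => hq l (hLm (Finset.insert_subset_insert _ hEF) hl))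
    (fun E hE => by
      obtain ⟨q, hq, hq'⟩ := hW E
      exact ⟨q, closure_mono (cls_closed W E hE) hq, hq'⟩)
  have : q = p := by
    refine hL (insert p (cls W ∅)) q (closure_mono (subset_insert _ _) hq) p
      (subset_closure (mem_insert _ _)) fun E hE l hl => ?_
    refine hq' (E.erase p) (fun x hx => ?_) l (hLm (Finset.subset_insert_iff.2 Subset.rfl) hl)
    rw [Finset.coe_erase] at hx
    exact (hE hx.1).resolve_left hx.2
  exact this ▸ hq

theorem frechet
    (H : ∀ T : Set (X → ℝ), (∀ g ∈ T, Continuous g) → IsCompact T → FrechetUrysohnSpace T)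
    {F : Y → X × K → ℝ} (h1 : ∀ s, Continuous (F s)) (h2 : Continuous F)
    (hi : Function.Injective F) : FrechetUrysohnSpace Y := by
  have H' : ∀ T : Set (X → ℝ), (∀ g ∈ T, Continuous g) → IsCompact T → CT T := fun T hT hT' => by
    haveI := H T hT hT'
    refine ct_of_sub fun A z hz => ?_
    obtain ⟨x, hx, hxz⟩ := mem_closure_iff_seq_limit.1 hz
    exact ⟨range x, range_subset_iff.2 hx, countable_range x,
      mem_closure_of_tendsto hxz (Eventually.of_forall mem_range_self)⟩
  refine ⟨fun B p hp => ?_⟩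
  obtain ⟨C, hC, hCc, hpC⟩ := tight H' h1 h2 hi B hp
  obtain ⟨L, hLc, -, hL⟩ := exists_L H' h1 h2 hi
  haveI : Countable {E : Finset Y // (E : Set Y) ⊆ C} :=
    Cardinal.mk_le_aleph0_iff.1 (card_fin le_rfl (Cardinal.le_aleph0_iff_set_countable.2 hCc))
  obtain ⟨G, hG, hG', hG0⟩ := exists_G h1 h2
    (countable_iUnion fun E : {E : Finset Y // (E : Set Y) ⊆ C} => hLc E.1) p
  haveI := H (range G) (by rintro _ ⟨b, rfl⟩; exact hG' b) (isCompact_range hG)
  have hG2 : Continuous (rangeFactorization G) := hG.subtype_mk _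
  obtain ⟨z, hz, hzp⟩ := mem_closure_iff_seq_limit.1
    (image_closure_subset_closure_image hG2 (mem_image_of_mem _ hpC))
  choose c hc hcz using hz
  refine ⟨c, fun n => hC (hc n), tendsto_nhds_of_unique_mapClusterPt fun q hq => ?_⟩
  have h3 : q ∈ closure C := mem_closure_iff_clusterPt.2
    (hq.clusterPt.mono (le_principal_iff.2 (mem_map.2 (Eventually.of_forall hc))))
  have h4 : rangeFactorization G q = rangeFactorization G p := by
    have h5 := hq.continuousAt_comp hG2.continuousAt
    have h6 : rangeFactorization G ∘ c = z := funext hcz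
    rw [h6] at h5
    exact eq_of_nhds_neBot (h5.clusterPt.mono hzp)
  have h5 : G q = 0 := (congrArg Subtype.val h4).trans ((hG0 p).2 fun _ _ _ => rfl)
  exact hL C q h3 p hpC fun E hE l hl => (hG0 q).1 h5 l (mem_iUnion.2 ⟨⟨E, hE⟩, hl⟩)

theorem exists_OS
    (H : ∀ T : Set (X → ℝ), (∀ g ∈ T, Continuous g) → IsCompact T →
      ∃ O : Finset T → Set C(T, ℝ), OS O)
    {F : Y → X × K → ℝ} (h1 : ∀ s, Continuous (F s)) (h2 : Continuous F)
    (hi : Function.Injective F) : ∃ O : Finset Y → Set C(Y, ℝ), OS O := by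
  classical
  have H' : ∀ T : Set (X → ℝ), (∀ g ∈ T, Continuous g) → IsCompact T → CT T := fun T hT hT' => by
    obtain ⟨O, hO⟩ := H T hT hT'
    haveI := isCompact_iff_compactSpace.1 hT'
    exact ct_of_sub fun A z hz => hO.ct A hz
  obtain ⟨L, hLc, hLm, hL⟩ := exists_L H' h1 h2 hi
  set g : K → Y → X → ℝ := fun k s x => F s (x, k) with hg
  have hgc : ∀ k, Continuous (g k) := fun k => continuous_pi fun x => (continuous_apply _).comp h2
  choose O hO using fun k => H (range (g k))
    (by rintro _ ⟨s, rfl⟩; exact (h1 s).comp (by fun_prop)) (isCompact_range (hgc k))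
  set g' : ∀ k, C(Y, range (g k)) := fun k => ⟨rangeFactorization (g k), (hgc k).subtype_mk _⟩
    with hg'
  refine ⟨fun E => ⋃ k ∈ L E, (fun φ => φ.comp (g' k)) '' O k (E.image (g' k)), fun E => ?_,
    fun E E' h => ?_, fun A p hp q hq h => hL A p hp q hq fun E hE k hk x => ?_⟩
  · exact (hLc E).biUnion fun k _ => ((hO k).ctble _).image _
  · exact iUnion₂_subset fun k hk => subset_iUnion₂_of_subset k (hLm h hk)
      (image_mono ((hO k).mono (Finset.image_subset_image h)))
  · have hc := (g' k).continuous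
    have : g' k p = g' k q := by
      refine (hO k).sep (g' k '' A) _ (image_closure_subset_closure_image hc (mem_image_of_mem _ hp))
        _ (image_closure_subset_closure_image hc (mem_image_of_mem _ hq)) fun E' hE' φ hφ => ?_
      obtain ⟨E'', hE'', rfl⟩ := Finset.subset_set_image_iff.1 hE'
      refine h (E ∪ E'') (by rw [Finset.coe_union]; exact union_subset hE hE'') (φ.comp (g' k)) ?_
      exact mem_biUnion (hLm Finset.subset_union_left hk)
        ⟨φ, (hO k).mono (Finset.image_subset_image Finset.subset_union_right) hφ, rfl⟩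
    exact congrFun (congrArg Subtype.val this) x

end Pool.Agent.H19.Cp
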