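import Mathlib

set_option maxHeartbeats 400000

namespace Pool.Agent.H19.Cyv

open Finset

theorem dig (k r : ℕ) (hk : k ≠ 0) (hr : r.Prime) (hrk : r ∣ k) :
    ∃ D : ℕ → ℕ, (∀ n, D (n + k) = D n) ∧
      (∀ n (φ : ℕ → ℂ), ∑ s ∈ range r, φ (D (n + s * (k / r))) = ∑ s ∈ range r, φ s) ∧
      ∀ r', r'.Prime → r' ∣ k → r' ≠ r → ∀ n s, D (n + s * (k / r')) = D n := by
  obtain ⟨b, c, hc, rfl⟩ := Nat.exists_eq_pow_mul_and_not_dvd hk r hr.ne_one
  obtain ⟨b, rfl⟩ : ∃ b', b = b' + 1 := by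
    cases b with
    | zero => simp at hrk; exact absurd hrk hc
    | succ b => exact ⟨b, rfl⟩
  have he : 0 < r ^ b := pow_pos hr.pos b
  have key : ∀ n t, (n + t * r ^ b) / r ^ b % r = (n / r ^ b + t) % r := by
    intro n t; rw [Nat.add_mul_div_right _ _ he]
  refine ⟨fun n => n / r ^ b % r, fun n => ?_, fun n φ => ?_, fun r' hr' hd hne n s => ?_⟩
  · have : n + r ^ (b + 1) * c = n + (c * r) * r ^ b := by ring
    simp only [this, key, Nat.add_mul_mod_self_right]
  · have h1 : r ^ (b + 1) * c / r = c * r ^ b := by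
      rw [show r ^ (b + 1) * c = r * (c * r ^ b) by ring, Nat.mul_div_cancel_left _ hr.pos]
    have h2 : ∀ s, (n + s * (r ^ (b + 1) * c / r)) / r ^ b % r = (n / r ^ b + s * c) % r := by
      intro s; rw [h1, ← mul_assoc, key]
    simp only [h2]
    have hinj : Set.InjOn (fun s => (n / r ^ b + s * c) % r) (range r : Set ℕ) := by
      intro s hs t ht hst
      have h3 : s * c ≡ t * c [MOD r] := Nat.ModEq.add_left_cancel' _ hst
      have h4 : s ≡ t [MOD r] :=
        Nat.ModEq.cancel_right_of_coprime ((Nat.Prime.coprime_iff_not_dvd hr).2 hc) h3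
      exact Nat.ModEq.eq_of_lt_of_lt h4 (by simpa using hs) (by simpa using ht)
    have himg : (range r).image (fun s => (n / r ^ b + s * c) % r) = range r := by
      refine eq_of_subset_of_card_le ?_ (by rw [card_image_of_injOn hinj])
      intro x hx
      obtain ⟨s, -, rfl⟩ := mem_image.1 hx
      exact mem_range.2 (Nat.mod_lt _ hr.pos)
    conv_rhs => rw [← himg, sum_image hinj]
  · have h1 : r' ∣ c := by
      refine (Nat.Coprime.dvd_of_dvd_mul_left ?_ hd)
      exact ((Nat.coprime_primes hr' hr).2 hne).pow_right _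
    obtain ⟨c', rfl⟩ := h1
    have h2 : r ^ (b + 1) * (r' * c') / r' = c' * r * r ^ b := by
      rw [show r ^ (b + 1) * (r' * c') = r' * (c' * r * r ^ b) by ring,
        Nat.mul_div_cancel_left _ hr'.pos]
    have h3 : n + s * (c' * r * r ^ b) = n + (s * c' * r) * r ^ b := by ring
    simp only [h2, h3, key, Nat.add_mul_mod_self_right]

theorem sumv (r : ℕ) (hr : 0 < r) :
    ∑ s ∈ range r, (((if s = 0 then (r : ℤ) - 1 else -1 : ℤ)) : ℂ) = 0 := by
  obtain ⟨m, rfl⟩ : ∃ m, r = m + 1 := ⟨r - 1, by omega⟩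
  rw [sum_range_succ']
  simp

theorem sumq (q : ℕ) : ∑ s ∈ range q, ((s : ℂ) - ((q : ℂ) - 1) / 2) = 0 := by
  have : ∀ m : ℕ, ∑ s ∈ range m, (s : ℂ) = m * ((m : ℂ) - 1) / 2 := by
    intro m
    induction m with
    | zero => simp
    | succ m ih => rw [sum_range_succ, ih]; push_cast; ring
  rw [sum_sub_distrib, this]
  simp only [sum_const, card_range, nsmul_eq_mul]
  ring

theorem existsG (k : ℕ) (hk : 2 ≤ k) :
    ∃ G : ℕ → ℝ, (∀ n, G (n + k) = G n) ∧
      (∀ r, r.Prime → r ∣ k → ∀ n, ∑ s ∈ range r, (G (n + s * (k / r)) : ℂ) = 0) ∧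
      ∃ q, q.Prime ∧ q ∣ k ∧ ∀ n, ∑ s ∈ range q,
        Complex.exp (Complex.I * (G (n + s * (k / q)) : ℂ)) = 0 := by
  classical
  have hk0 : k ≠ 0 := by omega
  have hne : k.primeFactors.Nonempty := Nat.nonempty_primeFactors.2 (by omega)
  set q := k.primeFactors.max' hne with hq
  have hqm : q ∈ k.primeFactors := max'_mem _ _
  have hqp : q.Prime := Nat.prime_of_mem_primeFactors hqm
  have hqk : q ∣ k := Nat.dvd_of_mem_primeFactors hqm
  choose! D h1 h2 h3 using fun r => dig k r hk0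
  let v : ℕ → ℕ → ℤ := fun r d => if d = 0 then (r : ℤ) - 1 else -1
  let g : ℕ → ℤ := fun n => ∏ r ∈ k.primeFactors.erase q, v r (D r n)
  have hmem : ∀ r ∈ k.primeFactors.erase q, r.Prime ∧ r ∣ k ∧ r ≠ q ∧ r < q := by
    intro r hr
    have h := mem_erase.1 hr
    exact ⟨Nat.prime_of_mem_primeFactors h.2, Nat.dvd_of_mem_primeFactors h.2, h.1,
      lt_of_le_of_ne (le_max' _ _ h.2) h.1⟩
  have hgq : ∀ n s, g (n + s * (k / q)) = g n := by
    intro n s
    refine prod_congr rfl fun r hr => ?_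
    obtain ⟨a, b, c, -⟩ := hmem r hr
    rw [h3 r a b q hqp hqk c.symm]
  refine ⟨fun n => (2 * Real.pi / q) * (((D q n : ℝ) - ((q : ℝ) - 1) / 2) * g n), fun n => ?_,
    fun r hr hrk n => ?_, q, hqp, hqk, fun n => ?_⟩
  · have : g (n + k) = g n := prod_congr rfl fun r hr => by
      obtain ⟨a, b, -, -⟩ := hmem r hr
      rw [h1 r a b]
    simp only [this, h1 q hqp hqk]
  · by_cases hrq : r = q
    · subst hrq
      simp only [hgq]
      push_cast
      rw [← mul_sum, ← sum_mul, h2 q hqp hqk n (fun d => (d : ℂ) - ((q : ℂ) - 1) / 2), sumq]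
      simp
    · have hrm : r ∈ k.primeFactors.erase q :=
        mem_erase.2 ⟨hrq, Nat.mem_primeFactors.2 ⟨hr, hrk, hk0⟩⟩
      have hg : ∀ s, g (n + s * (k / r)) = v r (D r (n + s * (k / r))) *
          ∏ r' ∈ (k.primeFactors.erase q).erase r, v r' (D r' n) := by
        intro s
        simp only [g]
        rw [← mul_prod_erase _ _ hrm]
        congr 1
        refine prod_congr rfl fun r' hr' => ?_
        obtain ⟨a, b, -, -⟩ := hmem r' (mem_erase.1 hr').2
        rw [h3 r' a b r hr hrk (mem_erase.1 hr').1.symm]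
      simp only [hg, h3 q hqp hqk r hr hrk hrq]
      have h4 := h2 r hr hrk n (fun d => ((v r d : ℤ) : ℂ))
      have h5 : ∑ s ∈ range r, ((v r s : ℤ) : ℂ) = 0 := sumv r hr.pos
      rw [h5] at h4
      push_cast
      rw [← mul_sum, ← mul_sum, ← sum_mul, h4]
      simp
  · simp only [hgq]
    have hq0 : (q : ℂ) ≠ 0 := by exact_mod_cast hqp.ne_zero
    have hnd : ¬ (q : ℤ) ∣ g n := by
      have hqi : Prime (q : ℤ) := Nat.prime_iff_prime_int.1 hqp
      intro hd
      obtain ⟨r, hr, hd⟩ := (Prime.dvd_finset_prod_iff hqi _).1 hd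
      obtain ⟨a, -, -, c⟩ := hmem r hr
      simp only [v] at hd
      split_ifs at hd
      · have := Int.le_of_dvd (by have := a.two_le; omega) hd
        omega
      · exact hqi.not_dvd_one (by simpa using hd)
    have hprim := Complex.isPrimitiveRoot_exp q hqp.ne_zero
    set ω := Complex.exp (2 * Real.pi * Complex.I / q) ^ (g n) with hω
    have hω1 : ω ≠ 1 := fun h => hnd ((hprim.zpow_eq_one_iff_dvd _).1 h)
    have hωq : ω ^ q = 1 := by
      rw [hω, ← zpow_natCast, ← zpow_mul]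
      exact (hprim.zpow_eq_one_iff_dvd _).2 (Dvd.intro_left _ rfl)
    have h4 := h2 q hqp hqk n (fun d => Complex.exp (Complex.I *
      (((2 * Real.pi / q) * (((d : ℝ) - ((q : ℝ) - 1) / 2) * g n) : ℝ) : ℂ)))
    rw [h4]
    have h5 : ∀ d : ℕ, Complex.exp (Complex.I *
        (((2 * Real.pi / q) * (((d : ℝ) - ((q : ℝ) - 1) / 2) * g n) : ℝ) : ℂ)) =
        Complex.exp (-(Complex.I * (2 * Real.pi / q) * (((q : ℂ) - 1) / 2) * g n)) * ω ^ d := by
      intro d
      rw [hω, ← Complex.exp_int_mul, ← Complex.exp_nat_mul, ← Complex.exp_add]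
      congr 1
      push_cast
      ring
    simp only [h5]
    rw [← mul_sum, geom_sum_eq hω1, hωq]
    simp

theorem coset {k : ℕ} [NeZero k] (Φ : ZMod k → ℂ) (c : ZMod k) (r : ℕ) (hr : 0 < r)
    (h : ∀ i, ∑ s ∈ range r, Φ (i + s * c) = 0) : ∑ i, Φ i = 0 := by
  have h1 : ∑ s ∈ range r, ∑ i, Φ (i + s * c) = 0 := by
    rw [sum_comm]; simp [h]
  have h2 : ∀ s : ℕ, ∑ i, Φ (i + s * c) = ∑ i, Φ i := fun s =>
    Equiv.sum_comp (Equiv.addRight ((s : ZMod k) * c)) Φ
  simp only [h2, sum_const, card_range, nsmul_eq_mul, mul_eq_zero, Nat.cast_eq_zero] at h1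
  exact h1.resolve_left hr.ne'

end Pool.Agent.H19.Cyv
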