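import Pool.Agent.H19.CyvA

set_option maxHeartbeats 400000

namespace Pool.Agent.H19.Cyv

open Finset Polynomial

noncomputable def z (k : ℕ) : ℂ := Complex.exp (2 * Real.pi * Complex.I / k)

noncomputable def pol {d : ℕ} (b : Fin d → ℤ) : ℤ[X] := ∑ j : Fin d, monomial (j : ℕ) (b j)

theorem aeval_pol {d : ℕ} (b : Fin d → ℤ) (w : ℂ) :
    aeval w (pol b) = ∑ j : Fin d, (b j : ℂ) * w ^ (j : ℕ) := by
  simp [pol, aeval_monomial]

theorem coeff_pol {d : ℕ} (b : Fin d → ℤ) (j : Fin d) : (pol b).coeff j = b j := by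
  simp only [pol, finset_sum_coeff, coeff_monomial]
  rw [sum_eq_single j] <;> simp +contextual [Fin.ext_iff]

theorem degree_pol {d : ℕ} (b : Fin d → ℤ) : (pol b).degree < d := by
  refine (degree_sum_le _ _).trans_lt ?_
  rw [Finset.sup_lt_iff (WithBot.bot_lt_coe _)]
  intro j _
  exact (degree_monomial_le _ _).trans_lt (by exact_mod_cast j.2)

theorem cyc_dvd {k : ℕ} (hk : 0 < k) (P : ℤ[X]) (h : aeval (z k) P = 0) : cyclotomic k ℤ ∣ P := by
  have hp : IsPrimitiveRoot (z k) k := Complex.isPrimitiveRoot_exp k hk.ne'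
  rw [cyclotomic_eq_minpoly hp hk]
  exact minpoly.isIntegrallyClosed_dvd (hp.isIntegral hk) h

theorem aeval_cyc {k : ℕ} (hk : 0 < k) {w : ℂ} (hw : IsPrimitiveRoot w k) :
    aeval w (cyclotomic k ℤ) = 0 := by
  rw [cyclotomic_eq_minpoly hw hk]; exact minpoly.aeval _ _

theorem uniq {k : ℕ} (hk : 0 < k) (b c : Fin k.totient → ℤ)
    (h : ∑ j, (b j : ℂ) * z k ^ (j : ℕ) = ∑ j, (c j : ℂ) * z k ^ (j : ℕ)) : b = c := by
  have h1 : cyclotomic k ℤ ∣ pol b - pol c := cyc_dvd hk _ (by simp [aeval_pol, h])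
  have h2 : pol b - pol c = 0 := by
    refine eq_zero_of_dvd_of_degree_lt h1 ?_
    rw [degree_cyclotomic]
    exact (degree_sub_le _ _).trans_lt (max_lt (degree_pol b) (degree_pol c))
  funext j
  rw [← coeff_pol b j, ← coeff_pol c j, sub_eq_zero.1 h2]

theorem exi {k : ℕ} (hk : 0 < k) (i : ℕ) :
    ∃ b : Fin k.totient → ℤ, ∑ j, (b j : ℂ) * z k ^ (j : ℕ) = z k ^ i := by
  have hp : IsPrimitiveRoot (z k) k := Complex.isPrimitiveRoot_exp k hk.ne'
  have hm := cyclotomic.monic k ℤ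
  have hd : ((X : ℤ[X]) ^ i %ₘ cyclotomic k ℤ).natDegree < k.totient := by
    rw [← natDegree_cyclotomic k ℤ]
    refine natDegree_modByMonic_lt _ hm fun h => ?_
    have := natDegree_cyclotomic k ℤ
    rw [h, natDegree_one] at this
    exact (Nat.totient_pos.2 hk).ne this
  refine ⟨fun j => ((X : ℤ[X]) ^ i %ₘ cyclotomic k ℤ).coeff j, ?_⟩
  have h1 := aeval_modByMonic_eq_self_of_root (p := (X : ℤ[X]) ^ i) (aeval_cyc hk hp)
  rw [aeval_eq_sum_range' hd, sum_range] at h1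
  simpa [zsmul_eq_mul] using h1

theorem keyG {k : ℕ} (hk : 0 < k) (G : ℕ → ℝ) (hper : ∀ n, G (n + k) = G n)
    (hz : ∀ r, r.Prime → r ∣ k → ∀ n, ∑ s ∈ range r, (G (n + s * (k / r)) : ℂ) = 0)
    {d : ℕ} (b : Fin d → ℤ) (i : ℕ) (h : ∑ j, (b j : ℂ) * z k ^ (j : ℕ) = z k ^ i) :
    ∑ j : Fin d, (b j : ℂ) * (G j : ℂ) = G i := by
  haveI : NeZero k := ⟨hk.ne'⟩
  have hp : IsPrimitiveRoot (z k) k := Complex.isPrimitiveRoot_exp k hk.ne'
  let Φ : ZMod k → ℂ := fun j => G j.val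
  have hΦ : ∀ n : ℕ, Φ n = G n := fun n => by
    simp only [Φ, ZMod.val_natCast]
    rw [Function.Periodic.map_mod_nat hper]
  have hψ : ∀ n : ℕ, ZMod.stdAddChar (n : ZMod k) = z k ^ n := fun n => by
    have := ZMod.stdAddChar_coe (N := k) (n : ℤ)
    rw [Int.cast_natCast] at this
    rw [this, z, ← Complex.exp_nat_mul]
    congr 1; push_cast; ring
  have hinv : ∀ n : ℕ, (k : ℂ) * G n = ∑ t : ZMod k, (z k ^ t.val) ^ n * ZMod.dft Φ t := by
    intro n
    have h1 := congr_fun (ZMod.dft_dft Φ) (-(n : ZMod k))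
    rw [ZMod.dft_apply] at h1
    simp only [neg_neg, mul_neg, smul_eq_mul, hΦ] at h1
    rw [← h1]
    refine sum_congr rfl fun t _ => ?_
    rw [← pow_mul, ← hψ]
    simp
  have hvan : ∀ t : ZMod k, ¬ Nat.Coprime t.val k → ZMod.dft Φ t = 0 := by
    intro t ht
    obtain ⟨r, hr, hrt, hrk⟩ := Nat.Prime.not_coprime_iff_dvd.1 ht
    rw [ZMod.dft_apply]
    refine coset _ ((k / r : ℕ) : ZMod k) r hr.pos fun j => ?_
    have hct : ((k / r : ℕ) : ZMod k) * t = 0 := by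
      obtain ⟨u, hu⟩ := hrt
      rw [← ZMod.natCast_zmod_val t, hu, ← Nat.cast_mul, ← mul_assoc, Nat.div_mul_cancel hrk]
      simp
    have h1 : ∀ s : ℕ, (j + s * ((k / r : ℕ) : ZMod k)) * t = j * t := fun s => by
      rw [add_mul, mul_assoc, hct]; simp
    have h2 : ∀ s : ℕ, Φ (j + s * ((k / r : ℕ) : ZMod k)) = G (j.val + s * (k / r)) := fun s => by
      rw [← hΦ]; simp
    simp only [h1, h2, smul_eq_mul]
    rw [← mul_sum, hz r hr hrk, mul_zero]
  have hk0 : (k : ℂ) ≠ 0 := by exact_mod_cast hk.ne'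
  apply mul_left_cancel₀ hk0
  rw [hinv i, mul_sum]
  have h3 : ∀ j : Fin d, (k : ℂ) * ((b j : ℂ) * (G j : ℂ)) =
      ∑ t : ZMod k, (b j : ℂ) * (z k ^ t.val) ^ (j : ℕ) * ZMod.dft Φ t := fun j => by
    rw [mul_left_comm, hinv, mul_sum]; simp only [mul_assoc]
  simp only [h3]
  rw [sum_comm]
  refine sum_congr rfl fun t _ => ?_
  rw [← sum_mul]
  by_cases ht : Nat.Coprime t.val k
  · obtain ⟨Q, hQ⟩ := cyc_dvd hk (pol b - X ^ i) (by simp [aeval_pol, h])
    have h4 := congrArg (aeval (z k ^ t.val)) hQ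
    rw [map_mul, aeval_cyc hk (hp.pow_of_coprime _ ht), zero_mul, map_sub, aeval_pol, map_pow,
      aeval_X, sub_eq_zero] at h4
    rw [h4]
  · simp [hvan t ht]

theorem total {k : ℕ} (hk : 0 < k) (E : ℕ → ℂ) (hper : ∀ n, E (n + k) = E n) (q : ℕ) (hq : 0 < q)
    (c : ℕ) (h : ∀ n, ∑ s ∈ range q, E (n + s * c) = 0) : ∑ i ∈ range k, E i = 0 := by
  haveI : NeZero k := ⟨hk.ne'⟩
  have hΦ : ∀ n : ℕ, E (n : ZMod k).val = E n := fun n => by
    rw [ZMod.val_natCast, Function.Periodic.map_mod_nat hper]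
  have h1 := coset (fun j : ZMod k => E j.val) (c : ZMod k) q hq fun j => by
    rw [← h j.val]
    refine sum_congr rfl fun s _ => ?_
    rw [← hΦ (j.val + s * c)]; simp
  rw [← h1]
  obtain ⟨m, rfl⟩ : ∃ m, k = m + 1 := ⟨k - 1, by omega⟩
  rw [sum_range]
  rfl

end Pool.Agent.H19.Cyv
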