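import Pool.Agent.H19.DiffFam

namespace Pool.Agent.H19.DiffFam

/-- base blocks of a (1387,7,1) difference family in `ZMod 1 × ZMod 1387`, coded as `x * 1387 + y` -/
def fam1387 : List (List ℕ) :=
  [[0, 5, 247, 551, 589, 624, 758],
   [0, 205, 399, 418, 564, 570, 618],
   [0, 83, 372, 494, 932, 1102, 1178],
   [0, 7, 229, 536, 1089, 1149, 1151],
   [0, 33, 265, 287, 1067, 1171, 1338],
   [0, 671, 750, 765, 853, 1156, 1353],
   [0, 64, 109, 220, 288, 990, 1103],
   [0, 308, 367, 698, 712, 839, 1237],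
   [0, 65, 145, 785, 878, 1111, 1177],
   [0, 1, 119, 149, 429, 957, 1119],
   [0, 41, 108, 401, 561, 718, 945],
   [0, 267, 294, 311, 809, 1184, 1296],
   [0, 26, 58, 804, 940, 1030, 1303],
   [0, 620, 717, 991, 1063, 1066, 1091],
   [0, 270, 347, 408, 454, 586, 709],
   [0, 21, 323, 679, 687, 1197, 1254],
   [0, 95, 99, 427, 532, 760, 861],
   [0, 626, 646, 863, 1007, 1121, 1285],
   [0, 11, 185, 306, 558, 818, 896],
   [0, 63, 250, 451, 650, 674, 686],
   [0, 297, 386, 460, 541, 1196, 1281],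
   [0, 70, 414, 714, 894, 903, 1166],
   [0, 96, 147, 330, 592, 648, 961],
   [0, 215, 479, 565, 693, 1047, 1162],
   [0, 40, 50, 516, 645, 692, 831],
   [0, 92, 253, 351, 632, 663, 783],
   [0, 202, 521, 664, 830, 946, 998],
   [0, 23, 158, 195, 435, 757, 1206],
   [0, 523, 901, 930, 943, 1060, 1191],
   [0, 286, 463, 638, 681, 879, 1214],
   [0, 16, 55, 208, 464, 715, 1316],
   [0, 188, 206, 656, 868, 993, 1250],
   [0, 124, 490, 543, 773, 913, 1318]]

theorem steiner1387 : ∃ 𝓒 : Finset (Finset (Fin 1387)), IsSteiner 1387 7 2 𝓒 :=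
  steiner_of_check 1 1387 33 7 fam1387 (by decide +kernel)

end Pool.Agent.H19.DiffFam
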