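import Pool.Agent.H19.DiffFam3

namespace Pool.Agent.H19.DiffFam

/-- base blocks of a 2-(316,6,1) design under the cyclic group of order 31 acting on 10 copies of
`ZMod 31` and 6 fixed points -/
def fam6x316 : List (List ℕ) :=
  [[0, 1, 20, 207, 276, 289],
   [0, 2, 9, 237, 259, 304],
   [0, 3, 26, 157, 199, 225],
   [0, 4, 18, 164, 236, 301],
   [0, 6, 21, 171, 190, 274],
   [0, 31, 62, 93, 124, 310],
   [0, 32, 71, 120, 135, 312],
   [0, 33, 80, 116, 146, 315],
   [0, 34, 104, 158, 168, 183],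
   [0, 35, 67, 108, 137, 314],
   [0, 36, 91, 229, 233, 246],
   [0, 37, 115, 192, 211, 212],
   [0, 38, 88, 110, 144, 293],
   [0, 39, 72, 123, 150, 311],
   [0, 40, 77, 251, 252, 263],
   [0, 41, 89, 156, 179, 182],
   [0, 42, 147, 169, 264, 282],
   [0, 43, 106, 260, 267, 269],
   [0, 44, 154, 167, 219, 273],
   [0, 45, 83, 96, 133, 245],
   [0, 46, 69, 94, 127, 216],
   [0, 47, 82, 122, 145, 313],
   [0, 48, 114, 231, 234, 239],
   [0, 49, 92, 285, 287, 309],
   [0, 50, 75, 117, 134, 255],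
   [0, 51, 85, 188, 203, 209],
   [0, 52, 151, 194, 224, 265],
   [0, 53, 139, 214, 223, 280],
   [0, 54, 81, 109, 141, 170],
   [0, 55, 119, 286, 290, 303],
   [0, 56, 84, 105, 129, 205],
   [0, 57, 153, 159, 210, 298],
   [0, 58, 87, 101, 148, 240],
   [0, 59, 73, 99, 142, 180],
   [0, 60, 90, 97, 136, 306],
   [0, 61, 76, 95, 130, 277],
   [0, 63, 138, 189, 243, 261],
   [0, 64, 152, 176, 254, 305],
   [0, 65, 98, 184, 226, 272],
   [0, 66, 149, 197, 238, 291],
   [0, 68, 103, 173, 213, 296],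
   [0, 70, 143, 166, 241, 270],
   [0, 74, 113, 191, 220, 271],
   [0, 78, 131, 172, 208, 292],
   [0, 79, 111, 198, 247, 299],
   [0, 86, 102, 161, 258, 294],
   [0, 100, 126, 248, 262, 266],
   [0, 107, 128, 279, 284, 307],
   [0, 112, 125, 186, 193, 195],
   [0, 118, 140, 155, 174, 175],
   [0, 121, 132, 217, 227, 242],
   [0, 163, 202, 221, 249, 281],
   [0, 178, 201, 244, 278, 308],
   [31, 32, 51, 227, 269, 307],
   [31, 33, 40, 175, 242, 290],
   [31, 34, 57, 163, 188, 261],
   [31, 35, 49, 174, 195, 239],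
   [31, 37, 52, 202, 252, 305],
   [31, 67, 153, 167, 171, 184],
   [31, 71, 139, 282, 283, 294],
   [31, 72, 151, 187, 210, 213],
   [31, 73, 116, 200, 220, 295],
   [31, 75, 123, 157, 198, 304],
   [31, 80, 154, 223, 225, 247],
   [31, 82, 147, 250, 265, 271],
   [31, 83, 120, 162, 256, 296],
   [31, 84, 108, 161, 218, 276],
   [31, 88, 122, 190, 236, 272],
   [31, 100, 140, 203, 230, 270],
   [31, 107, 125, 181, 251, 292],
   [31, 112, 132, 179, 197, 301],
   [31, 118, 128, 176, 229, 259],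
   [31, 121, 126, 207, 243, 285],
   [31, 159, 194, 219, 264, 280],
   [31, 182, 209, 246, 263, 309],
   [62, 63, 82, 165, 245, 300],
   [62, 64, 71, 180, 206, 228],
   [62, 65, 88, 194, 250, 292],
   [62, 66, 80, 177, 205, 257],
   [62, 68, 83, 243, 264, 283],
   [62, 108, 133, 220, 221, 232],
   [62, 116, 144, 281, 296, 302],
   [62, 120, 134, 249, 272, 275],
   [62, 122, 129, 198, 202, 215],
   [62, 123, 142, 161, 163, 185],
   [62, 157, 190, 218, 256, 295],
   [62, 184, 213, 247, 271, 294],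
   [93, 94, 113, 176, 214, 258],
   [93, 95, 102, 197, 273, 299],
   [93, 96, 119, 168, 219, 287],
   [93, 97, 111, 226, 270, 298],
   [93, 99, 114, 159, 212, 233],
   [93, 170, 216, 240, 277, 306],
   [93, 171, 187, 225, 250, 283],
   [124, 125, 144, 183, 196, 238],
   [124, 126, 133, 166, 211, 268],
   [124, 127, 150, 230, 256, 281],
   [124, 128, 142, 208, 267, 288],
   [124, 130, 145, 181, 221, 295],
   [124, 156, 188, 233, 252, 287],
   [124, 185, 215, 232, 275, 302],
   [155, 186, 217, 248, 279, 310],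
   [155, 189, 224, 263, 280, 314],
   [155, 192, 231, 278, 281, 315],
   [155, 198, 245, 277, 283, 312],
   [155, 203, 236, 271, 295, 311],
   [155, 210, 242, 275, 287, 313]]

theorem steiner6x316 : ∃ 𝓒 : Finset (Finset (Fin 316)), IsSteiner 316 6 2 𝓒 :=
  steiner_of_checkO 10 31 6 107 6 (by decide) fam6x316 (by decide +kernel)

end Pool.Agent.H19.DiffFam
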