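import Pool.Agent.H19.DiffFam2

namespace Pool.Agent.H19.DiffFam

/-- base blocks of a difference family for a 2-(785,8,1) design, in mixed radix [5, 157] -/
def fam8x785 : List (List ℕ) :=
  [[0, 4, 112, 537, 142, 718, 733, 128],
   [0, 3, 69, 784, 729, 31, 361, 396],
   [0, 375, 706, 499, 25, 258, 669, 595],
   [0, 400, 597, 688, 550, 116, 503, 530],
   [0, 165, 534, 156, 325, 177, 11, 670],
   [0, 490, 673, 272, 85, 714, 222, 610],
   [0, 575, 611, 449, 300, 708, 134, 75],
   [0, 90, 77, 373, 320, 596, 508, 80],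
   [0, 152, 307, 636, 745, 469, 543, 65],
   [0, 164, 434, 627, 690, 28, 106, 645],
   [0, 383, 43, 409, 265, 551, 742, 60],
   [0, 511, 96, 278, 335, 327, 584, 535],
   [0, 232, 522, 556, 305, 89, 203, 780],
   [0, 354, 454, 437, 430, 303, 476, 675]]

theorem steiner8x785 : ∃ 𝓒 : Finset (Finset (Fin 785)), IsSteiner 785 8 2 𝓒 :=
  steiner_of_checkL [5, 157] 14 8 fam8x785 (by decide +kernel)

end Pool.Agent.H19.DiffFam
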