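import Pool.Agent.H19.DiffFam

namespace Pool.Agent.H19.DiffFam

/-- base blocks of a (925,7,1) difference family in `ZMod 5 × ZMod 185`, coded as `x * 185 + y` -/
def fam925 : List (List ℕ) :=
  [[0, 215, 240, 447, 448, 513, 542],
   [0, 209, 229, 351, 366, 700, 735],
   [0, 146, 202, 658, 717, 762, 845],
   [0, 173, 391, 445, 731, 861, 914],
   [0, 36, 212, 335, 422, 538, 862],
   [0, 68, 194, 201, 436, 606, 715],
   [0, 270, 321, 354, 397, 443, 620],
   [0, 236, 364, 607, 668, 695, 760],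
   [0, 111, 222, 330, 477, 488, 777],
   [0, 148, 264, 346, 481, 666, 685],
   [0, 260, 339, 356, 507, 528, 600],
   [0, 319, 341, 635, 693, 702, 825],
   [0, 31, 41, 262, 347, 807, 917],
   [0, 38, 98, 396, 476, 676, 721],
   [0, 225, 295, 492, 508, 522, 548],
   [0, 199, 246, 251, 254, 610, 660],
   [0, 300, 373, 437, 642, 648, 745],
   [0, 291, 314, 400, 690, 781, 854],
   [0, 181, 214, 216, 367, 680, 747],
   [0, 13, 486, 593, 611, 692, 750],
   [0, 161, 239, 281, 352, 590, 782],
   [0, 78, 511, 613, 657, 706, 765]]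

theorem steiner925 : ∃ 𝓒 : Finset (Finset (Fin 925)), IsSteiner 925 7 2 𝓒 :=
  steiner_of_check 5 185 22 7 fam925 (by decide +kernel)

end Pool.Agent.H19.DiffFam
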