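import Pool.Agent.H19.DiffFam2

namespace Pool.Agent.H19.DiffFam

/-- base blocks of a difference family for a 2-(1017,9,1) design, in mixed radix [3, 3, 113] -/
def fam9x1017 : List (List ℕ) :=
  [[0, 57, 9, 324, 766, 471, 445, 977, 98],
   [0, 313, 729, 819, 949, 286, 128, 426, 172],
   [0, 384, 63, 234, 272, 231, 44, 709, 634],
   [0, 113, 18, 648, 521, 941, 883, 933, 182],
   [0, 615, 441, 621, 874, 561, 256, 851, 350],
   [0, 763, 126, 468, 544, 457, 74, 390, 244],
   [0, 222, 36, 279, 11, 861, 755, 844, 364],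
   [0, 212, 882, 225, 737, 104, 505, 681, 686],
   [0, 498, 252, 936, 64, 903, 148, 779, 494],
   [0, 439, 72, 558, 22, 700, 479, 660, 721],
   [0, 420, 747, 450, 443, 204, 1016, 340, 355],
   [0, 995, 504, 855, 134, 788, 289, 537, 974],
   [0, 867, 144, 99, 37, 372, 958, 302, 431],
   [0, 835, 477, 900, 886, 403, 1001, 669, 703]]

theorem steiner9x1017 : ∃ 𝓒 : Finset (Finset (Fin 1017)), IsSteiner 1017 9 2 𝓒 :=
  steiner_of_checkR [3, 3] [113] 14 fam9x1017 (by decide +kernel)

end Pool.Agent.H19.DiffFam
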