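import Pool.Agent.H19.DiffFam2

namespace Pool.Agent.H19.DiffFam

/-- base blocks of a difference family for a 2-(1729,9,1) design, in mixed radix [7, 13, 19] -/
def fam9x1729 : List (List ℕ) :=
  [[273, 182, 1274, 1189, 1184, 1369, 1368, 915, 912],
   [0, 278, 1461, 1093, 638, 1491, 1512, 280, 357],
   [0, 459, 1278, 96, 1643, 1323, 1316, 483, 518],
   [0, 183, 1548, 731, 1004, 1617, 1568, 196, 259],
   [766, 1657, 1140, 398, 906, 621, 961, 1240, 1446],
   [739, 1661, 1156, 407, 858, 562, 943, 1273, 1438],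
   [787, 1720, 1147, 433, 829, 572, 954, 1219, 1383],
   [816, 1710, 1121, 414, 879, 625, 978, 1196, 1389],
   [1071, 119, 721, 1195, 1392, 976, 1411, 947, 1198],
   [1015, 133, 672, 1241, 1443, 963, 1431, 922, 1210],
   [1022, 154, 644, 1272, 1441, 941, 1418, 968, 1261],
   [1078, 140, 693, 1220, 1380, 956, 1396, 999, 1259],
   [623, 413, 875, 1382, 957, 1224, 1035, 178, 712],
   [616, 392, 903, 1390, 975, 1191, 1044, 130, 653],
   [560, 406, 854, 1445, 964, 1245, 1070, 101, 663],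
   [567, 427, 826, 1439, 940, 1268, 1051, 151, 716],
   [47, 41, 17, 780, 1699, 1175, 175, 707, 1029],
   [65, 8, 25, 760, 1724, 1163, 126, 651, 1043],
   [54, 62, 80, 773, 1678, 1112, 98, 658, 1064],
   [30, 85, 74, 795, 1647, 1114, 147, 714, 1050],
   [594, 402, 838, 1637, 528, 1489, 974, 1194, 1388],
   [610, 375, 842, 1583, 473, 1500, 965, 1242, 1447],
   [601, 423, 901, 1560, 479, 1524, 939, 1271, 1437],
   [575, 452, 891, 1604, 536, 1507, 958, 1221, 1384]]

theorem steiner9x1729 : ∃ 𝓒 : Finset (Finset (Fin 1729)), IsSteiner 1729 9 2 𝓒 :=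
  steiner_of_checkL [7, 13, 19] 24 9 fam9x1729 (by decide +kernel)

end Pool.Agent.H19.DiffFam
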