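import Pool.Agent.H19.DiffFam2

namespace Pool.Agent.H19.DiffFam

/-- base blocks of a difference family for a 2-(1737,9,1) design, in mixed radix [3, 3, 193] -/
def fam9x1737 : List (List ℕ) :=
  [[0, 823, 1412, 922, 341, 734, 16, 1013, 1735],
   [0, 1374, 363, 375, 1380, 859, 233, 886, 1520],
   [0, 1199, 316, 542, 1423, 534, 420, 1209, 1329],
   [0, 403, 932, 1348, 815, 1117, 1667, 622, 74],
   [0, 1219, 602, 526, 1151, 113, 1681, 1634, 70],
   [0, 852, 957, 897, 786, 967, 170, 778, 1583],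
   [0, 308, 1270, 1433, 469, 1497, 582, 246, 1167],
   [0, 709, 464, 1042, 1283, 874, 506, 865, 1235],
   [0, 184, 1061, 1561, 692, 986, 448, 761, 1303],
   [0, 1032, 273, 717, 1470, 211, 611, 1534, 1142],
   [0, 1334, 1540, 407, 199, 1704, 1185, 39, 564],
   [0, 304, 266, 1447, 1481, 838, 1685, 901, 56],
   [0, 481, 1322, 1264, 431, 86, 394, 1661, 1357],
   [0, 1509, 1587, 240, 156, 292, 998, 1453, 755],
   [0, 1100, 1387, 641, 352, 255, 438, 1488, 1311],
   [0, 1402, 1652, 349, 95, 1090, 380, 649, 1361],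
   [0, 139, 1232, 1606, 521, 1175, 772, 572, 979],
   [0, 1644, 1074, 105, 669, 1462, 26, 283, 1727],
   [0, 1001, 721, 740, 1018, 1713, 456, 30, 1293],
   [0, 664, 635, 1087, 1112, 1063, 830, 676, 911],
   [0, 796, 125, 949, 1628, 500, 1600, 1247, 151],
   [0, 699, 1191, 1050, 552, 220, 1619, 1525, 134],
   [0, 1694, 172, 47, 1567, 192, 330, 1551, 1419],
   [0, 619, 806, 1132, 941, 1252, 1154, 487, 587]]

theorem steiner9x1737 : ∃ 𝓒 : Finset (Finset (Fin 1737)), IsSteiner 1737 9 2 𝓒 :=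
  steiner_of_checkR [3, 3] [193] 24 fam9x1737 (by decide +kernel)

end Pool.Agent.H19.DiffFam
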