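import Pool.Agent.H19.DiffFam2

namespace Pool.Agent.H19.DiffFam

/-- base blocks of a difference family for a 2-(3097,9,1) design, in mixed radix [19, 163] -/
def fam9x3097 : List (List ℕ) :=
  [[1805, 1900, 2489, 3031, 3030, 1391, 1402, 1799, 1792],
   [1254, 342, 1501, 1363, 1354, 948, 933, 820, 833],
   [969, 1672, 456, 64, 69, 2849, 2832, 220, 217],
   [0, 2593, 522, 2031, 1100, 1636, 1465, 2081, 1036],
   [0, 594, 2513, 2965, 134, 436, 2697, 1192, 1933],
   [0, 1171, 1950, 48, 3069, 332, 2783, 2325, 786],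
   [0, 1887, 1222, 879, 2228, 1249, 1876, 678, 2445],
   [0, 3005, 98, 1532, 1589, 539, 2572, 2923, 206],
   [0, 923, 2196, 899, 2210, 2958, 165, 1832, 1281],
   [0, 2409, 718, 1960, 1143, 2714, 415, 1695, 1410],
   [0, 2430, 701, 1664, 1455, 122, 2991, 1731, 1370],
   [0, 2868, 265, 870, 2257, 2626, 479, 2604, 495],
   [304, 2869, 171, 646, 1064, 2299, 2147, 2261, 627],
   [641, 173, 2302, 599, 2428, 108, 1137, 2000, 3095],
   [632, 188, 2315, 598, 2417, 101, 1124, 2009, 3080],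
   [2045, 854, 236, 1173, 2852, 2188, 1018, 2534, 2661],
   [2040, 837, 239, 1164, 2867, 2201, 1015, 2539, 2678],
   [310, 655, 2151, 1888, 514, 714, 1497, 2388, 2347],
   [317, 656, 2162, 1893, 531, 711, 1486, 2381, 2346],
   [1323, 94, 1718, 492, 2961, 2779, 862, 2205, 49],
   [1318, 77, 1721, 477, 2948, 2788, 867, 2222, 46],
   [2293, 1758, 2181, 1635, 2709, 1869, 1089, 1149, 878],
   [2286, 1757, 2170, 1652, 2706, 1874, 1096, 1150, 889],
   [2904, 3045, 283, 428, 129, 2578, 136, 1458, 1522],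
   [2891, 3054, 268, 427, 118, 2571, 149, 1449, 1537],
   [300, 1780, 1055, 886, 1101, 1148, 40, 858, 2218],
   [289, 1773, 1054, 881, 1084, 1151, 55, 871, 2209],
   [363, 383, 2370, 1533, 143, 1459, 892, 1091, 1152],
   [378, 396, 2361, 1526, 142, 1448, 875, 1094, 1147],
   [2110, 2557, 1546, 909, 3064, 2259, 1529, 137, 1450],
   [2127, 2554, 1551, 896, 3073, 2244, 1530, 148, 1457],
   [1905, 2506, 1821, 597, 2425, 113, 840, 234, 2042],
   [1914, 2491, 1808, 600, 2420, 96, 851, 241, 2043],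
   [349, 1502, 1265, 1174, 2863, 2195, 663, 2163, 309],
   [354, 1519, 1262, 1163, 2856, 2194, 648, 2150, 318],
   [1685, 466, 984, 1898, 529, 708, 2488, 2934, 810],
   [1678, 465, 973, 1883, 516, 717, 2471, 2937, 805],
   [742, 2747, 2724, 952, 2796, 2465, 2100, 585, 450],
   [759, 2744, 2729, 967, 2809, 2456, 2099, 574, 443],
   [1567, 992, 557, 189, 2307, 639, 1629, 724, 763],
   [1568, 1003, 564, 172, 2310, 634, 1620, 739, 776],
   [1781, 1047, 288, 845, 232, 2039, 3085, 1122, 2006],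
   [1772, 1062, 301, 846, 243, 2046, 3090, 1139, 2003]]

theorem steiner9x3097 : ∃ 𝓒 : Finset (Finset (Fin 3097)), IsSteiner 3097 9 2 𝓒 :=
  steiner_of_checkL [19, 163] 43 9 fam9x3097 (by decide +kernel)

end Pool.Agent.H19.DiffFam
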