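import Pool.Agent.H19.DiffFam2

namespace Pool.Agent.H19.DiffFam

/-- base blocks of a difference family for a 2-(3241,9,1) design, in mixed radix [7, 463] -/
def fam9x3241 : List (List ℕ) :=
  [[0, 6, 989, 1521, 317, 142, 2585, 1150, 3033],
   [0, 2, 1865, 2271, 1011, 451, 3083, 1732, 2572],
   [0, 3, 1422, 2073, 1282, 2731, 134, 2941, 2388],
   [65, 1324, 1859, 2287, 2554, 1655, 704, 1738, 806],
   [1501, 2294, 2701, 2769, 2970, 750, 2246, 1669, 2581],
   [2850, 1495, 2144, 2372, 1074, 3050, 688, 1443, 1117],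
   [47, 888, 2320, 443, 2780, 25, 1550, 82, 1623],
   [2083, 1528, 2878, 766, 3064, 2666, 414, 2195, 639],
   [825, 997, 1433, 498, 718, 2032, 2623, 3128, 745],
   [30, 589, 2629, 299, 2939, 17, 3196, 2214, 1079],
   [138, 2799, 318, 792, 410, 2046, 3113, 454, 2929],
   [1726, 513, 1009, 1888, 657, 710, 1523, 2732, 2234],
   [979, 990, 1286, 844, 1437, 967, 2274, 2257, 1965],
   [1171, 1863, 214, 2694, 1354, 2448, 2074, 1380, 3035],
   [1151, 1426, 678, 177, 435, 2636, 2096, 1825, 2575],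
   [1730, 662, 856, 563, 2042, 650, 1513, 2587, 2389],
   [2945, 167, 143, 1793, 1985, 2711, 306, 3086, 3104],
   [285, 2645, 325, 1192, 2304, 2993, 2172, 197, 879],
   [900, 2613, 2976, 570, 2189, 496, 465, 3225, 2806],
   [2225, 1228, 3043, 519, 1159, 1570, 183, 585, 2480],
   [1269, 680, 1299, 2959, 461, 3076, 2532, 1217, 2747],
   [2761, 2826, 909, 382, 1458, 1408, 312, 3229, 2948],
   [400, 1901, 947, 2512, 773, 3211, 2288, 2551, 1657],
   [1930, 1539, 3027, 891, 2465, 3133, 2767, 2969, 753],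
   [628, 125, 2502, 174, 290, 2791, 146, 2943, 166],
   [53, 1031, 2164, 1836, 2864, 1789, 450, 2927, 3112],
   [811, 703, 1741, 38, 740, 2477, 2733, 2238, 1525],
   [2578, 2241, 1670, 113, 2356, 779, 2255, 1964, 2270],
   [1116, 691, 1448, 2308, 2995, 1193, 1384, 3037, 2075],
   [1618, 1551, 79, 2188, 492, 568, 1824, 2571, 2094],
   [642, 419, 2194, 1161, 1571, 523, 2589, 2390, 1517],
   [522, 1157, 1569, 2313, 3141, 1042, 277, 2494, 477],
   [2960, 458, 3078, 911, 2909, 2669, 2176, 199, 880],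
   [380, 1457, 1411, 2917, 2820, 759, 464, 3221, 2804],
   [2509, 775, 3212, 1544, 3173, 1772, 185, 586, 2484],
   [890, 2468, 3131, 1693, 3020, 1783, 2528, 1215, 2746],
   [257, 2057, 941, 863, 1877, 508, 313, 3233, 2950],
   [2755, 2676, 1058, 2110, 2119, 2267, 2286, 2550, 1653],
   [122, 2504, 629, 1766, 1394, 88, 2540, 1361, 2595],
   [1030, 2167, 51, 3055, 2518, 923, 2277, 2402, 1810],
   [705, 1742, 808, 1989, 2860, 1640, 801, 558, 1896],
   [2244, 1668, 2577, 1181, 2015, 59, 610, 3070, 2809],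
   [692, 1445, 1118, 3119, 597, 2773, 2602, 2687, 1207],
   [1549, 78, 1621, 251, 1907, 1097, 536, 1451, 1261],
   [416, 2196, 643, 786, 260, 2202, 412, 2047, 796]]

theorem steiner9x3241 : ∃ 𝓒 : Finset (Finset (Fin 3241)), IsSteiner 3241 9 2 𝓒 :=
  steiner_of_checkL [7, 463] 45 9 fam9x3241 (by decide +kernel)

end Pool.Agent.H19.DiffFam
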