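import Pool.Agent.H19.DiffFam2

namespace Pool.Agent.H19.DiffFam

/-- base blocks of a difference family for a 2-(3321,9,1) design, in mixed radix [3, 3, 3, 3, 41] -/
def fam9x3321 : List (List ℕ) :=
  [[0, 34, 68, 61, 50, 15, 39, 24, 75],
   [0, 115, 2255, 2653, 293, 3274, 1202, 790, 3128],
   [0, 554, 3220, 2318, 1492, 2903, 223, 1103, 1897],
   [0, 2948, 2419, 383, 2158, 437, 1042, 3056, 1267],
   [0, 961, 869, 1996, 2705, 2500, 2570, 1429, 680],
   [0, 2059, 1607, 1762, 2804, 1330, 1850, 1681, 617],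
   [0, 94, 163, 246, 1143, 1653, 688, 3308, 2017],
   [0, 107, 164, 249, 1152, 1677, 728, 3292, 1982],
   [0, 530, 974, 1464, 198, 3144, 593, 2896, 1712],
   [0, 562, 973, 1461, 234, 3129, 580, 2867, 1720],
   [0, 2933, 2513, 2112, 981, 1893, 125, 475, 317],
   [0, 2938, 2512, 2109, 990, 1923, 157, 455, 280],
   [0, 931, 1783, 2676, 2547, 1284, 508, 2489, 1468],
   [0, 971, 1784, 2679, 2583, 1263, 503, 2464, 1478],
   [0, 2038, 730, 2757, 1791, 681, 2956, 1364, 2179],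
   [0, 2051, 731, 2760, 1800, 705, 2996, 1348, 2144],
   [0, 2231, 1055, 3246, 765, 633, 917, 1195, 2684],
   [0, 2263, 1054, 3243, 801, 618, 904, 1166, 2692],
   [0, 3176, 2999, 2841, 1062, 111, 2069, 232, 2828],
   [0, 3181, 2998, 2838, 1071, 141, 2101, 212, 2791],
   [0, 2389, 1378, 408, 3033, 555, 2209, 1031, 3250],
   [0, 2429, 1379, 411, 3069, 534, 2204, 1006, 3260],
   [0, 823, 1621, 2433, 1386, 2949, 3199, 2579, 2908],
   [0, 836, 1622, 2436, 1395, 2973, 3239, 2563, 2873],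
   [0, 1583, 3080, 1302, 1656, 957, 2375, 1843, 416],
   [0, 1615, 3079, 1299, 1692, 942, 2362, 1814, 424],
   [0, 2609, 1865, 1140, 3087, 2055, 854, 799, 2504],
   [0, 2614, 1864, 1137, 3096, 2085, 886, 779, 2467],
   [0, 2308, 1216, 165, 1899, 2256, 1561, 1112, 1306],
   [0, 2348, 1217, 168, 1935, 2235, 1556, 1087, 1316],
   [0, 337, 649, 975, 1224, 3192, 2632, 3065, 1207],
   [0, 350, 650, 978, 1233, 3216, 2672, 3049, 1172],
   [0, 1988, 569, 2517, 684, 2415, 2294, 1438, 173],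
   [0, 2020, 568, 2514, 720, 2400, 2281, 1409, 181],
   [0, 1718, 83, 1788, 576, 840, 368, 1690, 1046],
   [0, 1723, 82, 1785, 585, 870, 400, 1670, 1009],
   [0, 283, 487, 732, 117, 1608, 1966, 3137, 2521],
   [0, 323, 488, 735, 153, 1587, 1961, 3112, 2531],
   [0, 1471, 2917, 1056, 495, 2625, 1741, 1931, 1855],
   [0, 1484, 2918, 1059, 504, 2649, 1781, 1915, 1820],
   [0, 2150, 893, 3003, 2952, 2334, 269, 1276, 740],
   [0, 2182, 892, 3000, 2988, 2319, 256, 1247, 748],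
   [0, 2690, 2027, 1383, 900, 354, 1502, 718, 1127],
   [0, 2695, 2026, 1380, 909, 384, 1534, 698, 1090],
   [0, 2794, 2188, 1623, 2061, 2013, 2128, 626, 3007],
   [0, 2834, 2189, 1626, 2097, 1992, 2123, 601, 3017]]

theorem steiner9x3321 : ∃ 𝓒 : Finset (Finset (Fin 3321)), IsSteiner 3321 9 2 𝓒 :=
  steiner_of_checkR [3, 3] [3, 3, 41] 46 fam9x3321 (by decide +kernel)

end Pool.Agent.H19.DiffFam
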