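import Pool.Agent.H19.DiffFam2

namespace Pool.Agent.H19.DiffFam

/-- base blocks of a difference family for a 2-(793,9,1) design, in mixed radix [13, 61] -/
def fam9x793 : List (List ℕ) :=
  [[0, 312, 520, 741, 507, 28, 37, 413, 406],
   [0, 702, 377, 676, 546, 461, 462, 316, 321],
   [0, 390, 650, 728, 39, 437, 434, 703, 714],
   [605, 362, 645, 296, 766, 550, 705, 482, 412],
   [604, 353, 642, 289, 755, 555, 712, 493, 407],
   [277, 153, 389, 696, 674, 242, 405, 707, 487],
   [282, 146, 378, 695, 665, 239, 414, 710, 488],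
   [122, 747, 730, 761, 557, 294, 536, 469, 594],
   [125, 748, 739, 760, 548, 291, 543, 480, 589],
   [619, 176, 24, 357, 639, 603, 738, 129, 745],
   [616, 175, 15, 358, 648, 606, 731, 118, 750]]

theorem steiner9x793 : ∃ 𝓒 : Finset (Finset (Fin 793)), IsSteiner 793 9 2 𝓒 :=
  steiner_of_checkL [13, 61] 11 9 fam9x793 (by decide +kernel)

end Pool.Agent.H19.DiffFam
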