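import Pool.Agent.H19.DiffFam2

namespace Pool.Agent.H19.DiffFam

/-- base blocks of a difference family for a 2-(873,9,1) design, in mixed radix [3, 3, 97] -/
def fam9x873 : List (List ℕ) :=
  [[0, 325, 146, 550, 731, 365, 70, 518, 817],
   [0, 244, 110, 631, 767, 275, 709, 608, 178],
   [0, 838, 83, 37, 794, 644, 97, 239, 790],
   [0, 847, 281, 28, 596, 266, 511, 617, 376],
   [0, 199, 866, 676, 11, 419, 385, 464, 502],
   [0, 586, 650, 289, 227, 752, 727, 131, 160],
   [0, 658, 488, 217, 389, 347, 547, 536, 340],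
   [0, 712, 803, 163, 74, 698, 412, 185, 475],
   [0, 316, 821, 559, 56, 743, 529, 140, 358],
   [0, 19, 398, 856, 479, 122, 835, 761, 52],
   [0, 451, 299, 424, 578, 311, 628, 572, 259],
   [0, 775, 443, 100, 434, 671, 691, 212, 196]]

theorem steiner9x873 : ∃ 𝓒 : Finset (Finset (Fin 873)), IsSteiner 873 9 2 𝓒 :=
  steiner_of_checkR [3, 3] [97] 12 fam9x873 (by decide +kernel)

end Pool.Agent.H19.DiffFam
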