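import Mathlib

/-! Steiner systems from difference families, with a kernel-checkable certificate. -/

namespace Pool.Agent.H19.DiffFam

open Finset

/-- `𝓑` is a Steiner system `S(n,q,r)` on the point set `Fin n`: a family of `q`-subsets such that
every `r`-subset lies in exactly one member. -/
def IsSteiner (n q r : ℕ) (𝓑 : Finset (Finset (Fin n))) : Prop :=
  (∀ B ∈ 𝓑, B.card = q) ∧ ∀ R : Finset (Fin n), R.card = r → ∃! B, B ∈ 𝓑 ∧ R ⊆ B

lemma transfer {G : Type*} [Fintype G] [DecidableEq G] {n q r : ℕ} (hn : Fintype.card G = n)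
    (𝓑 : Finset (Finset G)) (h1 : ∀ B ∈ 𝓑, B.card = q)
    (h2 : ∀ R : Finset G, R.card = r → ∃! B, B ∈ 𝓑 ∧ R ⊆ B) :
    ∃ 𝓒 : Finset (Finset (Fin n)), IsSteiner n q r 𝓒 := by
  let e : G ≃ Fin n := Fintype.equivFinOfCardEq hn
  refine ⟨𝓑.image (fun B => B.map e.toEmbedding), ?_, ?_⟩
  · intro C hC
    obtain ⟨B, hB, rfl⟩ := mem_image.1 hC
    rw [card_map, h1 B hB]
  · intro R hR
    obtain ⟨B, ⟨hB, hRB⟩, hu⟩ := h2 (R.map e.symm.toEmbedding) (by rw [card_map, hR])
    refine ⟨B.map e.toEmbedding, ⟨mem_image_of_mem _ hB, ?_⟩, ?_⟩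
    · intro x hx
      rw [mem_map_equiv]
      exact hRB (by rw [mem_map_equiv]; simpa using hx)
    · rintro C ⟨hC, hRC⟩
      obtain ⟨B', hB', rfl⟩ := mem_image.1 hC
      rw [hu B' ⟨hB', ?_⟩]
      intro x hx
      rw [mem_map_equiv] at hx
      have := hRC hx
      rw [mem_map_equiv] at this
      simpa using this

theorem of_diff {G : Type*} [AddCommGroup G] [Fintype G] [DecidableEq G] {t k : ℕ}
    (D : Fin t → Fin k → G)
    (H1 : ∀ i a b j c d, a ≠ b → c ≠ d → D i a - D i b = D j c - D j d → i = j ∧ a = c ∧ b = d)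
    (H0 : ∀ i a b, a ≠ b → D i a ≠ D i b)
    (H2 : ∀ g ≠ 0, ∃ i a b, a ≠ b ∧ D i a - D i b = g) :
    ∃ 𝓑 : Finset (Finset G), (∀ B ∈ 𝓑, B.card = k) ∧
      ∀ R : Finset G, R.card = 2 → ∃! B, B ∈ 𝓑 ∧ R ⊆ B := by
  let blk : Fin t × G → Finset G := fun p => univ.image (fun a => D p.1 a + p.2)
  refine ⟨univ.image blk, ?_, ?_⟩
  · intro B hB
    obtain ⟨p, -, rfl⟩ := mem_image.1 hB
    rw [card_image_of_injective _ ?_, card_univ, Fintype.card_fin]
    intro a b hab
    by_contra hne
    exact H0 p.1 a b hne (add_right_cancel hab)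
  · intro R hR
    obtain ⟨x, y, hxy, rfl⟩ := card_eq_two.1 hR
    obtain ⟨i, a, b, hab, hd⟩ := H2 (x - y) (sub_ne_zero.2 hxy)
    refine ⟨blk (i, x - D i a), ⟨mem_image_of_mem _ (mem_univ _), ?_⟩, ?_⟩
    · intro z hz
      simp only [mem_insert, mem_singleton] at hz
      simp only [blk, mem_image, mem_univ, true_and]
      rcases hz with rfl | rfl
      · exact ⟨a, by abel⟩
      · refine ⟨b, ?_⟩
        have : D i b = D i a - (x - z) := by rw [← hd]; abel
        rw [this]; abel
    · rintro B ⟨hB, hsub⟩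
      obtain ⟨⟨j, g⟩, -, rfl⟩ := mem_image.1 hB
      have hx : x ∈ blk (j, g) := hsub (by simp)
      have hy : y ∈ blk (j, g) := hsub (by simp)
      simp only [blk, mem_image, mem_univ, true_and] at hx hy
      obtain ⟨c, hc⟩ := hx
      obtain ⟨d, hd'⟩ := hy
      have hcd : c ≠ d := by
        rintro rfl
        exact hxy (hc.symm.trans hd')
      have h : D i a - D i b = D j c - D j d := by
        rw [hd, ← hc, ← hd']; abel
      obtain ⟨rfl, rfl, rfl⟩ := H1 i a b j c d hab hcd h
      have : g = x - D i a := by rw [← hc]; abel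
      rw [this]

/-- bitmask check: the entries are distinct, avoid the mask `m`, and fill it up to `T` -/
def go : List ℕ → ℕ → ℕ → Bool
  | [], m, T => m == T
  | x :: xs, m, T => !m.testBit x && go xs (m ||| 2 ^ x) T

lemma go_spec : ∀ (L : List ℕ) (m T : ℕ), go L m T = true →
    L.Nodup ∧ (∀ x ∈ L, m.testBit x = false) ∧ ∀ y, T.testBit y = true → m.testBit y = true ∨ y ∈ L
  | [], m, T, h => by
    simp only [go, beq_iff_eq] at h
    subst h
    exact ⟨List.nodup_nil, by simp, fun y hy => Or.inl hy⟩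
  | x :: xs, m, T, h => by
    simp only [go, Bool.and_eq_true, Bool.not_eq_true'] at h
    obtain ⟨h1, h2, h3⟩ := go_spec xs _ T h.2
    refine ⟨List.nodup_cons.2 ⟨fun hx => ?_, h1⟩, ?_, ?_⟩
    · have := h2 x hx
      simp [Nat.testBit_or, Nat.testBit_two_pow_self] at this
    · intro z hz
      rcases List.mem_cons.1 hz with rfl | hz
      · exact h.1
      · have := h2 z hz
        rw [Nat.testBit_or, Bool.or_eq_false_iff] at this
        exact this.1
    · intro y hy
      rcases h3 y hy with h4 | h4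
      · rw [Nat.testBit_or, Bool.or_eq_true] at h4
        rcases h4 with h4 | h4
        · exact Or.inl h4
        · right
          rw [Nat.testBit_two_pow] at h4
          simp only [decide_eq_true_eq] at h4
          subst h4
          exact List.mem_cons_self
      · exact Or.inr (List.mem_cons_of_mem _ h4)

/-- entry `a` of base block `i` -/
def pt (L : List (List ℕ)) (i a : ℕ) : ℕ := (L.getD i []).getD a 0

/-- code of the difference of two coded points of `ZMod m × ZMod n` -/
def code (m n z w : ℕ) : ℕ :=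
  ((z / n % m + (m - w / n % m)) % m) * n + (z % n + (n - w % n)) % n

def triples (t k : ℕ) : List (Fin t × Fin k × Fin k) :=
  (List.finRange t).flatMap fun i => (List.finRange k).flatMap fun a =>
    ((List.finRange k).filter (fun b => b != a)).map fun b => (i, a, b)

lemma mem_triples {t k : ℕ} (p : Fin t × Fin k × Fin k) : p ∈ triples t k ↔ p.2.1 ≠ p.2.2 := by
  obtain ⟨i, a, b⟩ := p
  simp only [triples, List.mem_flatMap, List.mem_finRange, true_and, List.mem_map,
    List.mem_filter, bne_iff_ne, ne_eq, Prod.mk.injEq]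
  constructor
  · rintro ⟨i', a', b', h, rfl, rfl, rfl⟩
    exact fun h' => h h'.symm
  · intro h
    exact ⟨i, a, b, fun h' => h h'.symm, rfl, rfl, rfl⟩

def check (m n t k : ℕ) (L : List (List ℕ)) : Bool :=
  go ((triples t k).map fun p => code m n (pt L p.1 p.2.1) (pt L p.1 p.2.2)) 1 (2 ^ (m * n) - 1)

lemma val_sub_cast (n : ℕ) [NeZero n] (z w : ℕ) :
    ((z : ZMod n) - (w : ZMod n)).val = (z % n + (n - w % n)) % n := by
  have hw : w % n ≤ n := (Nat.mod_lt _ (Nat.pos_of_ne_zero (NeZero.ne n))).le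
  have : (z : ZMod n) - (w : ZMod n) = ((z % n + (n - w % n) : ℕ) : ZMod n) := by
    push_cast [Nat.cast_sub hw]
    simp [sub_eq_add_neg]
  rw [this, ZMod.val_natCast]

theorem steiner_of_check (m n t k : ℕ) [NeZero m] [NeZero n] (L : List (List ℕ))
    (h : check m n t k L = true) :
    ∃ 𝓒 : Finset (Finset (Fin (m * n))), IsSteiner (m * n) k 2 𝓒 := by
  have hn : 0 < n := Nat.pos_of_ne_zero (NeZero.ne n)
  let D : Fin t → Fin k → ZMod m × ZMod n := fun i a =>
    (((pt L i a / n : ℕ) : ZMod m), ((pt L i a : ℕ) : ZMod n))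
  let κ : ZMod m × ZMod n → ℕ := fun g => g.1.val * n + g.2.val
  have hκ : ∀ i a b, κ (D i a - D i b) = code m n (pt L i a) (pt L i b) := by
    intro i a b
    simp only [κ, D, Prod.fst_sub, Prod.snd_sub, val_sub_cast, code]
  have hinj : Function.Injective κ := by
    rintro ⟨x, y⟩ ⟨x', y'⟩ hh
    simp only [κ] at hh
    have hy := ZMod.val_lt y
    have hy' := ZMod.val_lt y'
    have h2 : y.val = y'.val := by
      have := congrArg (· % n) hh
      simpa [Nat.add_mod, Nat.mod_eq_of_lt hy, Nat.mod_eq_of_lt hy'] using this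
    have h1 : x.val = x'.val := by
      rw [h2] at hh
      exact Nat.eq_of_mul_eq_mul_right hn (Nat.add_right_cancel hh)
    rw [ZMod.val_injective _ h1, ZMod.val_injective _ h2]
  have hκ0 : κ 0 = 0 := by simp [κ]
  obtain ⟨h1, h2, h3⟩ := go_spec _ _ _ h
  suffices hs : ∃ 𝓑 : Finset (Finset (ZMod m × ZMod n)), (∀ B ∈ 𝓑, B.card = k) ∧
      ∀ R : Finset (ZMod m × ZMod n), R.card = 2 → ∃! B, B ∈ 𝓑 ∧ R ⊆ B by
    obtain ⟨𝓑, hB1, hB2⟩ := hs
    exact transfer (by simp [ZMod.card]) 𝓑 hB1 hB2
  refine of_diff D ?_ ?_ ?_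
  · intro i a b j c d hab hcd hh
    have := List.inj_on_of_nodup_map h1 ((mem_triples (i, a, b)).2 hab)
      ((mem_triples (j, c, d)).2 hcd) (by
        show code m n (pt L i a) (pt L i b) = code m n (pt L j c) (pt L j d)
        rw [← hκ, ← hκ, hh])
    simpa using this
  · intro i a b hab hh
    have := h2 _ (List.mem_map_of_mem ((mem_triples (i, a, b)).2 hab))
    simp only at this
    rw [← hκ, hh, sub_self, hκ0] at this
    simp at this
  · intro g hg
    have hlt : κ g < m * n := by
      have h4 := ZMod.val_lt g.1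
      have h5 := ZMod.val_lt g.2
      calc κ g = g.1.val * n + g.2.val := rfl
        _ < g.1.val * n + n := by omega
        _ = (g.1.val + 1) * n := by ring
        _ ≤ m * n := Nat.mul_le_mul_right _ h4
    have hne : κ g ≠ 0 := fun h0 => hg (hinj (h0.trans hκ0.symm))
    rcases h3 (κ g) (by rw [Nat.testBit_two_pow_sub_one]; simpa using hlt) with h4 | h4
    · exfalso
      have : (1 : ℕ) = 2 ^ 0 := rfl
      rw [this, Nat.testBit_two_pow] at h4
      simp only [decide_eq_true_eq] at h4
      exact hne h4.symm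
    · obtain ⟨⟨i, a, b⟩, hp, hc⟩ := List.mem_map.1 h4
      refine ⟨i, a, b, (mem_triples _).1 hp, hinj ?_⟩
      rw [hκ]; exact hc

end Pool.Agent.H19.DiffFam
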