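import Mathlib
import Pool.Agent.H19.DiffFam

/-! Difference families and relative difference families in products of cyclic groups. -/

namespace Pool.Agent.H19.DiffFam

open Finset

theorem of_diff_rel {G H : Type*} [AddCommGroup G] [Fintype G] [DecidableEq G]
    [AddCommGroup H] [Fintype H] [DecidableEq H] {t k : ℕ} (hk : Fintype.card G = k)
    (D : Fin t → Fin k → G × H)
    (H1 : ∀ i a b j c d, a ≠ b → c ≠ d → D i a - D i b = D j c - D j d → i = j ∧ a = c ∧ b = d)
    (H0 : ∀ i a b, a ≠ b → (D i a - D i b).2 ≠ 0)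
    (H2 : ∀ g : G × H, g.2 ≠ 0 → ∃ i a b, a ≠ b ∧ D i a - D i b = g) :
    ∃ 𝓑 : Finset (Finset (G × H)), (∀ B ∈ 𝓑, B.card = k) ∧
      ∀ R : Finset (G × H), R.card = 2 → ∃! B, B ∈ 𝓑 ∧ R ⊆ B := by
  let blk : Fin t × (G × H) → Finset (G × H) := fun p => univ.image (fun a => D p.1 a + p.2)
  let cos : H → Finset (G × H) := fun h => univ.image (fun g : G => (g, h))
  have hcos : ∀ h z, z ∈ cos h ↔ z.2 = h := by
    intro h z
    simp only [cos, mem_image, mem_univ, true_and]
    constructor
    · rintro ⟨g, rfl⟩; rfl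
    · rintro rfl; exact ⟨z.1, rfl⟩
  have hblk : ∀ j g x y, x ≠ y → x ∈ blk (j, g) → y ∈ blk (j, g) →
      ∃ c d, c ≠ d ∧ D j c + g = x ∧ D j d + g = y := by
    intro j g x y hxy hx hy
    simp only [blk, mem_image, mem_univ, true_and] at hx hy
    obtain ⟨c, hc⟩ := hx
    obtain ⟨d, hd⟩ := hy
    refine ⟨c, d, ?_, hc, hd⟩
    rintro rfl
    exact hxy (hc.symm.trans hd)
  refine ⟨univ.image blk ∪ univ.image cos, ?_, ?_⟩
  · intro B hB
    rcases mem_union.1 hB with hB | hB
    · obtain ⟨p, -, rfl⟩ := mem_image.1 hB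
      rw [card_image_of_injective _ ?_, card_univ, Fintype.card_fin]
      intro a b hab
      by_contra hne
      apply H0 p.1 a b hne
      rw [add_right_cancel hab, sub_self]; rfl
    · obtain ⟨h, -, rfl⟩ := mem_image.1 hB
      rw [card_image_of_injective _ ?_, card_univ, hk]
      intro a b hab
      exact (Prod.ext_iff.1 hab).1
  · intro R hR
    obtain ⟨x, y, hxy, rfl⟩ := card_eq_two.1 hR
    by_cases h2 : x.2 = y.2
    · refine ⟨cos x.2, ⟨mem_union_right _ (mem_image_of_mem _ (mem_univ _)), ?_⟩, ?_⟩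
      · intro z hz
        simp only [mem_insert, mem_singleton] at hz
        rw [hcos]
        rcases hz with rfl | rfl
        · rfl
        · exact h2.symm
      · rintro B ⟨hB, hsub⟩
        rcases mem_union.1 hB with hB | hB
        · obtain ⟨⟨j, g⟩, -, rfl⟩ := mem_image.1 hB
          obtain ⟨c, d, hcd, hc, hd⟩ := hblk j g x y hxy (hsub (by simp)) (hsub (by simp))
          exfalso
          apply H0 j c d hcd
          have : D j c - D j d = x - y := by rw [← hc, ← hd]; abel
          rw [this, Prod.snd_sub, h2, sub_self]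
        · obtain ⟨h, -, rfl⟩ := mem_image.1 hB
          have := (hcos h x).1 (hsub (by simp))
          rw [this]
    · obtain ⟨i, a, b, hab, hd⟩ := H2 (x - y) (by rw [Prod.snd_sub]; exact sub_ne_zero.2 h2)
      refine ⟨blk (i, x - D i a), ⟨mem_union_left _ (mem_image_of_mem _ (mem_univ _)), ?_⟩, ?_⟩
      · intro z hz
        simp only [mem_insert, mem_singleton] at hz
        simp only [blk, mem_image, mem_univ, true_and]
        rcases hz with rfl | rfl
        · exact ⟨a, by abel⟩
        · refine ⟨b, ?_⟩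
          have : D i b = D i a - (x - z) := by rw [← hd]; abel
          rw [this]; abel
      · rintro B ⟨hB, hsub⟩
        rcases mem_union.1 hB with hB | hB
        · obtain ⟨⟨j, g⟩, -, rfl⟩ := mem_image.1 hB
          obtain ⟨c, d, hcd, hc, hd'⟩ := hblk j g x y hxy (hsub (by simp)) (hsub (by simp))
          have h : D i a - D i b = D j c - D j d := by
            rw [hd, ← hc, ← hd']; abel
          obtain ⟨rfl, rfl, rfl⟩ := H1 i a b j c d hab hcd h
          have : g = x - D i a := by rw [← hc]; abel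
          rw [this]
        · obtain ⟨h, -, rfl⟩ := mem_image.1 hB
          exact absurd (((hcos h x).1 (hsub (by simp))).trans
            ((hcos h y).1 (hsub (by simp))).symm) h2

/-- mixed radix code of the digitwise difference -/
def codeL : List ℕ → ℕ → ℕ → ℕ
  | [], _, _ => 0
  | m :: ms, z, w => (z % m + (m - w % m)) % m + m * codeL ms (z / m) (w / m)

lemma exists_coded : ∀ ms : List ℕ, (∀ m ∈ ms, 0 < m) →
    ∃ (G : Type) (_ : AddCommGroup G) (_ : Fintype G) (_ : DecidableEq G) (dec : ℕ → G)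
      (κ : G → ℕ), (∀ z w, κ (dec z - dec w) = codeL ms z w) ∧ Function.Injective κ ∧
      (∀ g, κ g < ms.prod) ∧ κ 0 = 0 ∧ Fintype.card G = ms.prod
  | [], _ => ⟨PUnit, inferInstance, inferInstance, inferInstance, fun _ => 0, fun _ => 0,
      fun _ _ => rfl, fun _ _ _ => rfl, fun _ => by simp, rfl, by simp⟩
  | m :: ms, h => by
    obtain ⟨G, i1, i2, i3, dec, κ, h1, h2, h3, h4, h5⟩ :=
      exists_coded ms (fun x hx => h x (List.mem_cons_of_mem _ hx))
    have hm : 0 < m := h m List.mem_cons_self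
    haveI : NeZero m := ⟨hm.ne'⟩
    refine ⟨ZMod m × G, inferInstance, inferInstance, inferInstance,
      fun z => ((z : ZMod m), dec (z / m)), fun g => g.1.val + m * κ g.2, ?_, ?_, ?_, ?_, ?_⟩
    · intro z w
      simp only [Prod.fst_sub, Prod.snd_sub, val_sub_cast, h1, codeL]
    · rintro ⟨x, y⟩ ⟨x', y'⟩ hh
      simp only at hh
      have hx := ZMod.val_lt x
      have hx' := ZMod.val_lt x'
      have e1 : x.val = x'.val := by
        have := congrArg (· % m) hh
        simpa [Nat.add_mul_mod_self_left, Nat.mod_eq_of_lt hx, Nat.mod_eq_of_lt hx'] using this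
      have e2 : κ y = κ y' := by
        rw [e1] at hh
        exact Nat.eq_of_mul_eq_mul_left hm (Nat.add_left_cancel hh)
      rw [ZMod.val_injective _ e1, h2 e2]
    · rintro ⟨x, y⟩
      have hx := ZMod.val_lt x
      have hy := h3 y
      simp only [List.prod_cons]
      calc x.val + m * κ y < m + m * κ y := by omega
        _ = m * (κ y + 1) := by ring
        _ ≤ m * ms.prod := Nat.mul_le_mul_left _ hy
    · simp [h4]
    · simp [ZMod.card, h5]

def checkL (ms : List ℕ) (t k : ℕ) (L : List (List ℕ)) : Bool :=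
  ms.all (fun m => decide (0 < m)) &&
  go ((triples t k).map fun p => codeL ms (pt L p.1 p.2.1) (pt L p.1 p.2.2)) 1 (2 ^ ms.prod - 1)

theorem steiner_of_checkL (ms : List ℕ) (t k : ℕ) (L : List (List ℕ))
    (h : checkL ms t k L = true) :
    ∃ 𝓒 : Finset (Finset (Fin ms.prod)), IsSteiner ms.prod k 2 𝓒 := by
  simp only [checkL, Bool.and_eq_true, List.all_eq_true, decide_eq_true_eq] at h
  obtain ⟨G, i1, i2, i3, dec, κ, hκ, hinj, hlt, hκ0, hcard⟩ := exists_coded ms h.1
  let D : Fin t → Fin k → G := fun i a => dec (pt L i a)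
  obtain ⟨h1, h2, h3⟩ := go_spec _ _ _ h.2
  suffices hs : ∃ 𝓑 : Finset (Finset G), (∀ B ∈ 𝓑, B.card = k) ∧
      ∀ R : Finset G, R.card = 2 → ∃! B, B ∈ 𝓑 ∧ R ⊆ B by
    obtain ⟨𝓑, hB1, hB2⟩ := hs
    exact transfer hcard 𝓑 hB1 hB2
  refine of_diff D ?_ ?_ ?_
  · intro i a b j c d hab hcd hh
    have := List.inj_on_of_nodup_map h1 ((mem_triples (i, a, b)).2 hab)
      ((mem_triples (j, c, d)).2 hcd) (by
        show codeL ms (pt L i a) (pt L i b) = codeL ms (pt L j c) (pt L j d)
        rw [← hκ, ← hκ]; exact congrArg κ hh)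
    simpa using this
  · intro i a b hab hh
    have := h2 _ (List.mem_map_of_mem ((mem_triples (i, a, b)).2 hab))
    simp only at this
    rw [← hκ] at this
    have e : dec (pt L i a) - dec (pt L i b) = 0 := sub_eq_zero.2 hh
    rw [e, hκ0] at this
    simp at this
  · intro g hg
    have hne : κ g ≠ 0 := fun h0 => hg (hinj (h0.trans hκ0.symm))
    rcases h3 (κ g) (by rw [Nat.testBit_two_pow_sub_one]; simpa using hlt g) with h4 | h4
    · exfalso
      have : (1 : ℕ) = 2 ^ 0 := rfl
      rw [this, Nat.testBit_two_pow] at h4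
      simp only [decide_eq_true_eq] at h4
      exact hne h4.symm
    · obtain ⟨⟨i, a, b⟩, hp, hc⟩ := List.mem_map.1 h4
      refine ⟨i, a, b, (mem_triples _).1 hp, hinj ?_⟩
      rw [hκ]; exact hc

def checkR (ns ms : List ℕ) (t : ℕ) (L : List (List ℕ)) : Bool :=
  ns.all (fun m => decide (0 < m)) && ms.all (fun m => decide (0 < m)) &&
  go ((triples t ns.prod).map fun p =>
    codeL ns (pt L p.1 p.2.1 % ns.prod) (pt L p.1 p.2.2 % ns.prod) +
      ns.prod * codeL ms (pt L p.1 p.2.1 / ns.prod) (pt L p.1 p.2.2 / ns.prod))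
    (2 ^ ns.prod - 1) (2 ^ (ns.prod * ms.prod) - 1)

theorem steiner_of_checkR (ns ms : List ℕ) (t : ℕ) (L : List (List ℕ))
    (h : checkR ns ms t L = true) :
    ∃ 𝓒 : Finset (Finset (Fin (ns.prod * ms.prod))), IsSteiner (ns.prod * ms.prod) ns.prod 2 𝓒 := by
  simp only [checkR, Bool.and_eq_true, List.all_eq_true, decide_eq_true_eq] at h
  obtain ⟨G, i1, i2, i3, dec, κ, hκ, hinj, hlt, hκ0, hcard⟩ := exists_coded ns h.1.1
  obtain ⟨G', j1, j2, j3, dec', κ', hκ', hinj', hlt', hκ0', hcard'⟩ := exists_coded ms h.1.2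
  set k := ns.prod with hk
  have hk0 : 0 < k := lt_of_le_of_lt (Nat.zero_le _) (hlt 0)
  let D : Fin t → Fin k → G × G' := fun i a => (dec (pt L i a % k), dec' (pt L i a / k))
  let μ : G × G' → ℕ := fun g => κ g.1 + k * κ' g.2
  have hμ : ∀ i a b, μ (D i a - D i b) = codeL ns (pt L i a % k) (pt L i b % k) +
      k * codeL ms (pt L i a / k) (pt L i b / k) := by
    intro i a b
    simp only [μ, D, Prod.fst_sub, Prod.snd_sub, hκ, hκ']
  have hμinj : Function.Injective μ := by
    rintro ⟨x, y⟩ ⟨x', y'⟩ hh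
    simp only [μ] at hh
    have hx := hlt x
    have hx' := hlt x'
    have e1 : κ x = κ x' := by
      have := congrArg (· % k) hh
      simpa [Nat.add_mul_mod_self_left, Nat.mod_eq_of_lt hx, Nat.mod_eq_of_lt hx'] using this
    have e2 : κ' y = κ' y' := by
      rw [e1] at hh
      exact Nat.eq_of_mul_eq_mul_left hk0 (Nat.add_left_cancel hh)
    rw [hinj e1, hinj' e2]
  obtain ⟨h1, h2, h3⟩ := go_spec _ _ _ h.2
  suffices hs : ∃ 𝓑 : Finset (Finset (G × G')), (∀ B ∈ 𝓑, B.card = k) ∧
      ∀ R : Finset (G × G'), R.card = 2 → ∃! B, B ∈ 𝓑 ∧ R ⊆ B by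
    obtain ⟨𝓑, hB1, hB2⟩ := hs
    exact transfer (by rw [Fintype.card_prod, hcard, hcard']) 𝓑 hB1 hB2
  refine of_diff_rel hcard D ?_ ?_ ?_
  · intro i a b j c d hab hcd hh
    have := List.inj_on_of_nodup_map h1 ((mem_triples (i, a, b)).2 hab)
      ((mem_triples (j, c, d)).2 hcd) (by
        simp only
        rw [← hμ, ← hμ, hh])
    simpa using this
  · intro i a b hab hh
    have := h2 _ (List.mem_map_of_mem ((mem_triples (i, a, b)).2 hab))
    simp only at this
    rw [← hμ, Nat.testBit_two_pow_sub_one] at this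
    simp only [μ, hh, hκ0', mul_zero, add_zero, decide_eq_false_iff_not] at this
    exact this (hlt _)
  · intro g hg
    have hne : κ' g.2 ≠ 0 := fun h0 => hg (hinj' (h0.trans hκ0'.symm))
    have hb : μ g < k * ms.prod := by
      have hx := hlt g.1
      have hy := hlt' g.2
      calc μ g = κ g.1 + k * κ' g.2 := rfl
        _ < k + k * κ' g.2 := by omega
        _ = k * (κ' g.2 + 1) := by ring
        _ ≤ k * ms.prod := Nat.mul_le_mul_left _ hy
    rcases h3 (μ g) (by rw [Nat.testBit_two_pow_sub_one]; simpa using hb) with h4 | h4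
    · exfalso
      rw [Nat.testBit_two_pow_sub_one] at h4
      simp only [decide_eq_true_eq, μ] at h4
      have : k * 1 ≤ k * κ' g.2 := Nat.mul_le_mul_left _ (Nat.one_le_iff_ne_zero.2 hne)
      omega
    · obtain ⟨⟨i, a, b⟩, hp, hc⟩ := List.mem_map.1 h4
      refine ⟨i, a, b, (mem_triples _).1 hp, hμinj ?_⟩
      rw [hμ]; exact hc

end Pool.Agent.H19.DiffFam
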