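import Mathlib
import Pool.Agent.H19.DiffFam

/-! Steiner systems from base blocks under a cyclic group acting on several copies of `ZMod p`
together with some fixed points. -/

namespace Pool.Agent.H19.DiffFam

open Finset

theorem of_orbits {X T : Type*} [Fintype X] [DecidableEq X] [AddCommGroup T] [Fintype T]
    (τ : T → X → X) (τ0 : ∀ x, τ 0 x = x) (τadd : ∀ s t x, τ (s + t) x = τ s (τ t x))
    (H : Finset X) (hH : ∀ t, ∀ x ∈ H, τ t x = x) (κ : X → X → ℕ)
    (inv : ∀ t x y, κ (τ t x) (τ t y) = κ x y)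
    (sep : ∀ x y x' y', (x ≠ y ∧ ¬ (x ∈ H ∧ y ∈ H)) → (x' ≠ y' ∧ ¬ (x' ∈ H ∧ y' ∈ H)) →
      κ x y = κ x' y' → ∃ t, τ t x = x' ∧ τ t y = y')
    (free : ∀ t x y, ¬ (x ∈ H ∧ y ∈ H) → τ t x = x → τ t y = y → t = 0)
    {n k : ℕ} (D : Fin n → Fin k → X)
    (H0 : ∀ i a b, a ≠ b → D i a ≠ D i b ∧ ¬ (D i a ∈ H ∧ D i b ∈ H))
    (H1 : ∀ i a b j c d, a ≠ b → c ≠ d → κ (D i a) (D i b) = κ (D j c) (D j d) →
      i = j ∧ a = c ∧ b = d)
    (H2 : ∀ x y, x ≠ y → ¬ (x ∈ H ∧ y ∈ H) → ∃ i a b, a ≠ b ∧ κ (D i a) (D i b) = κ x y)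
    (hc : H.card = k ∨ H.card ≤ 1) :
    ∃ 𝓑 : Finset (Finset X), (∀ B ∈ 𝓑, B.card = k) ∧
      ∀ R : Finset X, R.card = 2 → ∃! B, B ∈ 𝓑 ∧ R ⊆ B := by
  have hback : ∀ t x, τ (-t) (τ t x) = x := fun t x => by rw [← τadd, neg_add_cancel, τ0]
  let blk : Fin n × T → Finset X := fun p => univ.image (fun a => τ p.2 (D p.1 a))
  have hblk : ∀ j g x y, x ≠ y → x ∈ blk (j, g) → y ∈ blk (j, g) →
      ∃ c d, c ≠ d ∧ τ g (D j c) = x ∧ τ g (D j d) = y := by
    intro j g x y hxy hx hy
    simp only [blk, mem_image, mem_univ, true_and] at hx hy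
    obtain ⟨c, hc⟩ := hx
    obtain ⟨d, hd⟩ := hy
    refine ⟨c, d, ?_, hc, hd⟩
    rintro rfl
    exact hxy (hc.symm.trans hd)
  refine ⟨univ.image blk ∪ ({H} : Finset (Finset X)).filter (fun B => B.card = k), ?_, ?_⟩
  · intro B hB
    rcases mem_union.1 hB with hB | hB
    · obtain ⟨p, -, rfl⟩ := mem_image.1 hB
      rw [card_image_of_injective _ ?_, card_univ, Fintype.card_fin]
      intro a b hab
      by_contra hne
      apply (H0 p.1 a b hne).1
      have := congrArg (τ (-p.2)) hab
      simpa [hback] using this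
    · exact (mem_filter.1 hB).2
  · intro R hR
    obtain ⟨x, y, hxy, rfl⟩ := card_eq_two.1 hR
    by_cases h2 : x ∈ H ∧ y ∈ H
    · have hk : H.card = k := by
        rcases hc with hc | hc
        · exact hc
        · exact absurd (card_le_one.1 hc x h2.1 y h2.2) hxy
      refine ⟨H, ⟨mem_union_right _ (mem_filter.2 ⟨mem_singleton_self _, hk⟩), ?_⟩, ?_⟩
      · intro z hz
        simp only [mem_insert, mem_singleton] at hz
        rcases hz with rfl | rfl
        · exact h2.1
        · exact h2.2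
      · rintro B ⟨hB, hsub⟩
        rcases mem_union.1 hB with hB | hB
        · obtain ⟨⟨j, g⟩, -, rfl⟩ := mem_image.1 hB
          obtain ⟨c, d, hcd, hc', hd⟩ := hblk j g x y hxy (hsub (by simp)) (hsub (by simp))
          exfalso
          apply (H0 j c d hcd).2
          have e1 : D j c = x := by rw [← hback g (D j c), hc', hH _ _ h2.1]
          have e2 : D j d = y := by rw [← hback g (D j d), hd, hH _ _ h2.2]
          rw [e1, e2]; exact h2
        · exact mem_singleton.1 (mem_filter.1 hB).1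
    · obtain ⟨i, a, b, hab, hd⟩ := H2 x y hxy h2
      obtain ⟨t, ht1, ht2⟩ := sep _ _ _ _ (H0 i a b hab) ⟨hxy, h2⟩ hd
      refine ⟨blk (i, t), ⟨mem_union_left _ (mem_image_of_mem _ (mem_univ _)), ?_⟩, ?_⟩
      · intro z hz
        simp only [mem_insert, mem_singleton] at hz
        simp only [blk, mem_image, mem_univ, true_and]
        rcases hz with rfl | rfl
        · exact ⟨a, ht1⟩
        · exact ⟨b, ht2⟩
      · rintro B ⟨hB, hsub⟩
        rcases mem_union.1 hB with hB | hB
        · obtain ⟨⟨j, g⟩, -, rfl⟩ := mem_image.1 hB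
          obtain ⟨c, d, hcd, hc', hd'⟩ := hblk j g x y hxy (hsub (by simp)) (hsub (by simp))
          have h : κ (D i a) (D i b) = κ (D j c) (D j d) := by
            rw [hd, ← hc', ← hd', inv]
          obtain ⟨rfl, rfl, rfl⟩ := H1 i a b j c d hab hcd h
          have h0 : -t + g = 0 := by
            refine free _ _ _ (H0 i a b hab).2 ?_ ?_
            · rw [τadd, hc', ← ht1, hback]
            · rw [τadd, hd', ← ht2, hback]
          have : g = t := by rw [← neg_add_eq_zero.1 h0]
          rw [this]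
        · have := mem_singleton.1 (mem_filter.1 hB).1
          subst this
          exact absurd ⟨hsub (by simp), hsub (by simp)⟩ h2

/-- code of the orbit of an ordered pair of coded points -/
def pcode (c p f z w : ℕ) : ℕ :=
  if z < c * p then
    if w < c * p then (z / p * c + w / p) * p + (z % p + (p - w % p)) % p
    else if w - c * p < f then c * c * p + (z / p * f + (w - c * p))
    else c * c * p + 2 * (c * f)
  else if w < c * p then
    if z - c * p < f then c * c * p + c * f + (w / p * f + (z - c * p))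
    else c * c * p + 2 * (c * f)
  else c * c * p + 2 * (c * f)

/-- mask of forbidden codes -/
def badMask (c p f : ℕ) : ℕ → ℕ
  | 0 => 2 ^ (c * c * p + 2 * (c * f))
  | i + 1 => badMask c p f i ||| 2 ^ ((i * c + i) * p)

lemma badMask_spec (c p f : ℕ) : ∀ n y, (badMask c p f n).testBit y = true ↔
    y = c * c * p + 2 * (c * f) ∨ ∃ i < n, y = (i * c + i) * p
  | 0, y => by
    simp only [badMask, Nat.testBit_two_pow, decide_eq_true_eq, Nat.not_lt_zero, false_and,
      exists_false, or_false]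
    exact eq_comm
  | n + 1, y => by
    simp only [badMask, Nat.testBit_or, Bool.or_eq_true, badMask_spec c p f n y,
      Nat.testBit_two_pow, decide_eq_true_eq]
    constructor
    · rintro ((h | ⟨i, hi, h⟩) | h)
      · exact Or.inl h
      · exact Or.inr ⟨i, by omega, h⟩
      · exact Or.inr ⟨n, by omega, h.symm⟩
    · rintro (h | ⟨i, hi, h⟩)
      · exact Or.inl (Or.inl h)
      · rcases Nat.lt_succ_iff_lt_or_eq.1 hi with hi | rfl
        · exact Or.inl (Or.inr ⟨i, hi, h⟩)
        · exact Or.inr h.symm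

def checkO (c p f n k : ℕ) (L : List (List ℕ)) : Bool :=
  go ((triples n k).map fun q => pcode c p f (pt L q.1 q.2.1) (pt L q.1 q.2.2))
    (badMask c p f c) (2 ^ (c * c * p + 2 * (c * f) + 1) - 1)

lemma radix_inj {m a b a' b' : ℕ} (hb : b < m) (hb' : b' < m) (h : a * m + b = a' * m + b') :
    a = a' ∧ b = b' := by
  have h2 : b = b' := by
    have := congrArg (· % m) h
    simpa [Nat.add_mod, Nat.mod_eq_of_lt hb, Nat.mod_eq_of_lt hb'] using this
  subst h2
  exact ⟨Nat.eq_of_mul_eq_mul_right (by omega) (Nat.add_right_cancel h), rfl⟩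

lemma radix_lt {m n a b : ℕ} (ha : a < n) (hb : b < m) : a * m + b < n * m :=
  calc a * m + b < a * m + m := by omega
    _ = (a + 1) * m := by ring
    _ ≤ n * m := Nat.mul_le_mul_right _ ha

theorem steiner_of_checkO (c p f n k : ℕ) [NeZero c] [NeZero p] (hf : f = k ∨ f ≤ 1)
    (L : List (List ℕ)) (h : checkO c p f n k L = true) :
    ∃ 𝓒 : Finset (Finset (Fin (c * p + f))), IsSteiner (c * p + f) k 2 𝓒 := by
  have hp : 0 < p := Nat.pos_of_ne_zero (NeZero.ne p)
  let τ : ZMod p → (Fin c × ZMod p) ⊕ Fin f → (Fin c × ZMod p) ⊕ Fin f := fun t x =>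
    match x with
    | Sum.inl u => Sum.inl (u.1, u.2 + t)
    | Sum.inr s => Sum.inr s
  let κ : (Fin c × ZMod p) ⊕ Fin f → (Fin c × ZMod p) ⊕ Fin f → ℕ := fun x y =>
    match x, y with
    | Sum.inl u, Sum.inl w => (u.1.val * c + w.1.val) * p + (u.2 - w.2).val
    | Sum.inl u, Sum.inr s => c * c * p + (u.1.val * f + s.val)
    | Sum.inr s, Sum.inl w => c * c * p + c * f + (w.1.val * f + s.val)
    | Sum.inr _, Sum.inr _ => c * c * p + 2 * (c * f)
  let H : Finset ((Fin c × ZMod p) ⊕ Fin f) := univ.image Sum.inr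
  have hHl : ∀ u, Sum.inl u ∉ H := by simp [H]
  have hHr : ∀ s, Sum.inr s ∈ H := by simp [H]
  let dec : ℕ → (Fin c × ZMod p) ⊕ Fin f := fun z =>
    if h : z < c * p then Sum.inl (⟨z / p, (Nat.div_lt_iff_lt_mul hp).2 h⟩, (z : ZMod p))
    else if h2 : z - c * p < f then Sum.inr ⟨_, h2⟩ else Sum.inl (0, 0)
  have hdec : ∀ z w, pcode c p f z w ≠ c * c * p + 2 * (c * f) →
      κ (dec z) (dec w) = pcode c p f z w := by
    intro z w hne
    unfold pcode at hne ⊢
    by_cases hz : z < c * p <;> by_cases hw : w < c * p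
    · simp only [dec, hz, hw, dif_pos, if_pos, κ, val_sub_cast]
    · by_cases h2 : w - c * p < f
      · simp only [dec, hz, hw, h2, dif_pos, if_pos, κ, dif_neg, if_neg, not_false_eq_true]
      · simp [hz, hw, h2] at hne
    · by_cases h2 : z - c * p < f
      · simp only [dec, hz, hw, h2, dif_pos, if_pos, κ, dif_neg, if_neg, not_false_eq_true]
      · simp [hz, hw, h2] at hne
    · simp [hz, hw] at hne
  have b1 : ∀ (u w : Fin c × ZMod p), (u.1.val * c + w.1.val) * p + (u.2 - w.2).val < c * c * p :=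
    fun u w => radix_lt (radix_lt u.1.2 w.1.2) (ZMod.val_lt _)
  have b2 : ∀ (i : Fin c) (s : Fin f), i.val * f + s.val < c * f := fun i s => radix_lt i.2 s.2
  obtain ⟨h1, h2, h3⟩ := go_spec _ _ _ h
  let D : Fin n → Fin k → (Fin c × ZMod p) ⊕ Fin f := fun i a => dec (pt L i a)
  have hgood : ∀ (i : Fin n) (a b : Fin k), a ≠ b →
      ¬ (pcode c p f (pt L i a) (pt L i b) = c * c * p + 2 * (c * f) ∨
        ∃ j < c, pcode c p f (pt L i a) (pt L i b) = (j * c + j) * p) := by
    intro i a b hab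
    rw [← badMask_spec]
    have := h2 _ (List.mem_map_of_mem ((mem_triples (i, a, b)).2 hab))
    simpa using this
  have hD : ∀ (i : Fin n) (a b : Fin k), a ≠ b →
      κ (D i a) (D i b) = pcode c p f (pt L i a) (pt L i b) :=
    fun i a b hab => hdec _ _ (fun h => hgood i a b hab (Or.inl h))
  suffices hs : ∃ 𝓑 : Finset (Finset ((Fin c × ZMod p) ⊕ Fin f)), (∀ B ∈ 𝓑, B.card = k) ∧
      ∀ R : Finset ((Fin c × ZMod p) ⊕ Fin f), R.card = 2 → ∃! B, B ∈ 𝓑 ∧ R ⊆ B by
    obtain ⟨𝓑, hB1, hB2⟩ := hs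
    exact transfer (by simp [ZMod.card]) 𝓑 hB1 hB2
  refine of_orbits τ ?_ ?_ H ?_ κ ?_ ?_ ?_ D ?_ ?_ ?_ ?_
  · rintro (u | s) <;> simp [τ]
  · rintro s t (u | r)
    · simp only [τ, Sum.inl.injEq, Prod.mk.injEq, true_and]; abel
    · rfl
  · rintro t (u | s) hx
    · exact absurd hx (hHl u)
    · rfl
  · rintro t (u | s) (w | r)
    · simp only [τ, κ, add_sub_add_right_eq_sub]
    · rfl
    · rfl
    · rfl
  · rintro (u | s) (w | r) (u' | s') (w' | r') hg hg' hk <;> simp only [κ] at hk
    · obtain ⟨e1, e2⟩ := radix_inj (ZMod.val_lt _) (ZMod.val_lt _) hk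
      obtain ⟨e3, e4⟩ := radix_inj w.1.2 w'.1.2 e1
      have e5 := ZMod.val_injective _ e2
      refine ⟨u'.2 - u.2, ?_, ?_⟩
      · simp only [τ, Sum.inl.injEq]
        exact Prod.ext (Fin.ext e3) (by simp)
      · simp only [τ, Sum.inl.injEq]
        refine Prod.ext (Fin.ext e4) ?_
        simp only
        linear_combination (-1 : ZMod p) * e5
    · have := b1 u w; omega
    · have := b1 u w; omega
    · exact absurd ⟨hHr _, hHr _⟩ hg'.2
    · have := b1 u' w'; omega
    · obtain ⟨e1, e2⟩ := radix_inj r.2 r'.2 (Nat.add_left_cancel hk)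
      refine ⟨u'.2 - u.2, ?_, ?_⟩
      · simp only [τ, Sum.inl.injEq]
        exact Prod.ext (Fin.ext e1) (by simp)
      · simp only [τ, Sum.inr.injEq]
        exact Fin.ext e2
    · have := b2 u.1 r; omega
    · exact absurd ⟨hHr _, hHr _⟩ hg'.2
    · have := b1 u' w'; omega
    · have := b2 u'.1 r'; omega
    · obtain ⟨e1, e2⟩ := radix_inj s.2 s'.2 (Nat.add_left_cancel hk)
      refine ⟨w'.2 - w.2, ?_, ?_⟩
      · simp only [τ, Sum.inr.injEq]
        exact Fin.ext e2
      · simp only [τ, Sum.inl.injEq]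
        exact Prod.ext (Fin.ext e1) (by simp)
    · exact absurd ⟨hHr _, hHr _⟩ hg'.2
    · exact absurd ⟨hHr _, hHr _⟩ hg.2
    · exact absurd ⟨hHr _, hHr _⟩ hg.2
    · exact absurd ⟨hHr _, hHr _⟩ hg.2
    · exact absurd ⟨hHr _, hHr _⟩ hg.2
  · rintro t (u | s) (w | r) hg hx hy
    · simpa [τ, Prod.ext_iff] using hx
    · simpa [τ, Prod.ext_iff] using hx
    · simpa [τ, Prod.ext_iff] using hy
    · exact absurd ⟨hHr _, hHr _⟩ hg
  · intro i a b hab
    have h4 := hgood i a b hab
    rw [← hD i a b hab] at h4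
    generalize D i a = x at h4 ⊢
    generalize D i b = y at h4 ⊢
    constructor
    · rintro rfl
      rcases x with u | s
      · exact h4 (Or.inr ⟨u.1.val, u.1.2, by simp [κ]⟩)
      · exact h4 (Or.inl rfl)
    · rintro ⟨hx, hy⟩
      rcases x with u | s
      · exact hHl _ hx
      · rcases y with w | r
        · exact hHl _ hy
        · exact h4 (Or.inl rfl)
  · intro i a b j c' d hab hcd hh
    have := List.inj_on_of_nodup_map h1 ((mem_triples (i, a, b)).2 hab)
      ((mem_triples (j, c', d)).2 hcd) (by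
        simp only
        rw [← hD i a b hab, ← hD j c' d hcd, hh])
    simpa using this
  · intro x y hxy hg
    have hlt : κ x y < c * c * p + 2 * (c * f) := by
      rcases x with u | s <;> rcases y with w | r <;> simp only [κ]
      · have := b1 u w; omega
      · have := b2 u.1 r; omega
      · have := b2 w.1 s; omega
      · exact absurd ⟨hHr _, hHr _⟩ hg
    rcases h3 (κ x y) (by rw [Nat.testBit_two_pow_sub_one]; simp only [decide_eq_true_eq]; omega)
      with h4 | h4
    · exfalso
      rw [badMask_spec] at h4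
      rcases h4 with h4 | ⟨j, hj, h4⟩
      · omega
      · have hjb : (j * c + j) * p + 0 < c * c * p := radix_lt (radix_lt hj hj) hp
        rcases x with u | s <;> rcases y with w | r <;> simp only [κ] at h4
        · obtain ⟨e1, e2⟩ := radix_inj (ZMod.val_lt _) hp (h4.trans (Nat.add_zero _).symm)
          obtain ⟨e3, e4⟩ := radix_inj w.1.2 hj e1
          apply hxy
          rw [ZMod.val_eq_zero, sub_eq_zero] at e2
          exact congrArg Sum.inl (Prod.ext (Fin.ext (e3.trans e4.symm)) e2)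
        · omega
        · omega
        · omega
    · obtain ⟨⟨i, a, b⟩, hq, hc⟩ := List.mem_map.1 h4
      have hab := (mem_triples _).1 hq
      exact ⟨i, a, b, hab, (hD i a b hab).trans hc⟩
  · have : H.card = f := by
      simp only [H]
      rw [card_image_of_injective _ Sum.inr_injective, card_univ, Fintype.card_fin]
    rw [this]; exact hf

end Pool.Agent.H19.DiffFam
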