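import Mathlib
import Pool.Agent.H19.DiffFam3

/-! A faster form of the orbit check, iterating over the base blocks directly. -/

namespace Pool.Agent.H19.DiffFam

def pairsK (k : ℕ) : List (Fin k × Fin k) :=
  (List.finRange k).flatMap fun a => ((List.finRange k).filter (fun b => b != a)).map fun b => (a, b)

def checkF (c p f k : ℕ) (L : List (List ℕ)) : Bool :=
  go (L.flatMap fun B => (pairsK k).map fun q => pcode c p f (B.getD q.1 0) (B.getD q.2 0))
    (badMask c p f c) (2 ^ (c * c * p + 2 * (c * f) + 1) - 1)

lemma codes_eq (g : ℕ → ℕ → ℕ) (k : ℕ) (L : List (List ℕ)) :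
    ((triples L.length k).map fun q => g (pt L q.1 q.2.1) (pt L q.1 q.2.2)) =
      L.flatMap fun B => (pairsK k).map fun q => g (B.getD q.1 0) (B.getD q.2 0) := by
  conv_rhs => rw [← List.map_get_finRange L]
  simp only [triples, pairsK, List.map_flatMap, List.flatMap_map, List.map_map]
  congr 1
  funext i
  congr 1
  funext a
  congr 1
  funext b
  simp [pt]

theorem steiner_of_checkF (c p f k : ℕ) [NeZero c] [NeZero p] (hf : f = k ∨ f ≤ 1)
    (L : List (List ℕ)) (h : checkF c p f k L = true) :
    ∃ 𝓒 : Finset (Finset (Fin (c * p + f))), IsSteiner (c * p + f) k 2 𝓒 :=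
  steiner_of_checkO c p f L.length k hf L (by
    unfold checkO
    rw [codes_eq (pcode c p f) k L]
    exact h)

end Pool.Agent.H19.DiffFam
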