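import Mathlib

set_option maxHeartbeats 400000
open Set Cardinal Topology Filter Function

namespace Pool.Agent.H19.Dt

/-- Transfinite selection. -/
theorem sel {T C : Type} (κ : Cardinal) (hκ : ℵ₀ ≤ κ) (hT : #T ≤ κ) (R : T → Set (C × C))
    (hR : ∀ t, ∀ A : Set C, #A < κ → ∃ p ∈ R t, p.1 ∉ A ∧ p.2 ∉ A ∧ p.1 ≠ p.2) :
    ∃ z : T → C × C, (∀ t, z t ∈ R t) ∧ (∀ s t, (z s).1 ≠ (z t).2) ∧
      Injective (fun t => (z t).1) := by
  classical
  obtain ⟨r, wo, hr⟩ := Cardinal.exists_ord_eq T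
  have small : ∀ (t : T) (f : ∀ s, r s t → C × C),
      #(↥(range (fun s : {s // r s t} => (f s.1 s.2).1) ∪
        range (fun s : {s // r s t} => (f s.1 s.2).2))) < κ := by
    intro t f
    have h1 : #{s // r s t} < κ := by
      have := Cardinal.card_typein_lt (r := r) t hr
      rw [Ordinal.card_typein] at this
      exact this.trans_le hT
    exact (mk_union_le _ _).trans_lt
      (add_lt_of_lt hκ (mk_range_le.trans_lt h1) (mk_range_le.trans_lt h1))
  let G : ∀ t, (∀ s, r s t → C × C) → C × C := fun t f => (hR t _ (small t f)).choose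
  let z : T → C × C := wo.wf.fix G
  have hz : ∀ t, z t = G t (fun s _ => z s) := fun t => wo.wf.fix_eq G t
  have key : ∀ t, z t ∈ R t ∧ (∀ s, r s t → (z t).1 ≠ (z s).1 ∧ (z t).1 ≠ (z s).2 ∧
      (z t).2 ≠ (z s).1) ∧ (z t).1 ≠ (z t).2 := by
    intro t
    have h := (hR t _ (small t (fun s _ => z s))).choose_spec
    have e : (hR t _ (small t (fun s _ => z s))).choose = z t := (hz t).symm
    rw [e] at h
    obtain ⟨h1, h2, h3, h4⟩ := h
    refine ⟨h1, fun s hs => ⟨fun h => h2 (Or.inl ⟨⟨s, hs⟩, h.symm⟩),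
      fun h => h2 (Or.inr ⟨⟨s, hs⟩, h.symm⟩), fun h => h3 (Or.inl ⟨⟨s, hs⟩, h.symm⟩)⟩, h4⟩
  refine ⟨z, fun t => (key t).1, fun s t => ?_, fun s t h => ?_⟩
  · rcases trichotomous_of r s t with h | h | h
    · exact fun e => ((key t).2.1 s h).2.2 e.symm
    · subst h; exact (key s).2.2
    · exact ((key s).2.1 t h).2.1
  · rcases trichotomous_of r s t with h' | h' | h'
    · exact absurd h.symm ((key t).2.1 s h').1
    · exact h'
    · exact absurd h ((key s).2.1 t h').1

theorem card_closed (X : Type) [TopologicalSpace X] [SecondCountableTopology X] :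
    #{Γ : Set X // IsClosed Γ} ≤ 𝔠 := by
  classical
  obtain ⟨B, hBc, -, hB⟩ := TopologicalSpace.exists_countable_basis X
  haveI := hBc.to_subtype
  have h1 : #(Set B) ≤ 𝔠 := by
    rw [mk_set]
    exact (power_le_power_left two_ne_zero mk_le_aleph0).trans_eq two_power_aleph0
  refine le_trans ?_ h1
  refine mk_le_of_injective (f := fun Γ : {Γ : Set X // IsClosed Γ} =>
    {b : B | (b : Set X) ⊆ Γ.1ᶜ}) ?_
  have aux : ∀ Γ Δ : {Γ : Set X // IsClosed Γ},
      {b : B | (b : Set X) ⊆ Γ.1ᶜ} = {b : B | (b : Set X) ⊆ Δ.1ᶜ} → Δ.1 ⊆ Γ.1 := by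
    intro Γ Δ h x hx
    by_contra hn
    obtain ⟨b, hb, hxb, hsub⟩ := hB.exists_subset_of_mem_open (u := Γ.1ᶜ) hn Γ.2.isOpen_compl
    have : (⟨b, hb⟩ : B) ∈ {b : B | (b : Set X) ⊆ Δ.1ᶜ} := h ▸ hsub
    exact this hxb hx
  intro Γ Δ h
  exact Subtype.ext (Subset.antisymm (aux Δ Γ h.symm) (aux Γ Δ h))

abbrev Cn := ℕ → Bool

def o : Cn := fun _ => false

theorem card_Cn : #Cn = 𝔠 := by simp [Cn]

/-- Every nonempty open subset of the Cantor space contains a closed set of size continuum. -/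
theorem big_open {V : Set Cn} (hV : IsOpen V) {x : Cn} (hx : x ∈ V) :
    ∃ W : Set Cn, IsClosed W ∧ W ⊆ V ∧ 𝔠 ≤ #W := by
  classical
  obtain ⟨I, u, hu, hsub⟩ := isOpen_pi_iff.1 hV x hx
  obtain ⟨n, hn⟩ := I.bddAbove
  let f : Cn → Cn := fun y k => if k ≤ n then x k else y (k - (n + 1))
  have hf : Continuous f := by
    refine continuous_pi fun k => ?_
    by_cases h : k ≤ n
    · simp only [f, h, if_true]; exact continuous_const
    · simp only [f, h, if_false]; exact continuous_apply _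
  have hi : Injective f := by
    intro y y' h
    funext k
    have := congrFun h (k + (n + 1))
    simpa [f, show ¬ (k + (n + 1) ≤ n) by omega] using this
  refine ⟨range f, (isCompact_range hf).isClosed, ?_, ?_⟩
  · rintro _ ⟨y, rfl⟩
    refine hsub fun k hk => ?_
    have : k ≤ n := hn hk
    simp only [f, this, if_true]
    exact (hu k hk).2
  · rw [mk_range_eq _ hi, card_Cn]

/-- A rigid dense subset of the Cantor space. -/
theorem exists_rigid : ∃ E : Set Cn, o ∉ E ∧ Dense E ∧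
    ∀ U : Set Cn, IsClopen U → ∀ g : Cn → Cn, ContinuousOn g (E ∩ U) →
      MapsTo g (E ∩ U) (insert o E) → (∀ y, {e | e ∈ E ∩ U ∧ g e = y}.Countable) →
      ∀ e ∈ E ∩ U, g e = e := by
  classical
  let good : Set (Cn × Cn) → Prop := fun Γ => ∀ A : Set Cn, #A < 𝔠 →
    ∃ p ∈ Γ, p.1 ∉ A ∧ p.2 ∉ A ∧ p.1 ≠ p.2
  let T := {Γ : Set (Cn × Cn) // IsClosed Γ ∧ good Γ} × Cn
  have hT : #T ≤ 𝔠 := by
    have h1 : #{Γ : Set (Cn × Cn) // IsClosed Γ ∧ good Γ} ≤ 𝔠 :=
      le_trans (mk_subtype_le_of_subset fun Γ h => h.1) (card_closed _)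
    simp only [T, mk_prod, lift_id, card_Cn]
    exact (mul_le_mul_left h1 _).trans_eq continuum_mul_self
  obtain ⟨z, hz1, hz2, hz3⟩ := sel 𝔠 aleph0_le_continuum hT
    (fun t => {p | p ∈ t.1.1 ∧ p.1 ≠ o ∧ p.2 ≠ o}) (by
      intro t A hA
      have : #(insert o A : Set Cn) < 𝔠 :=
        mk_insert_le.trans_lt (add_lt_of_lt aleph0_le_continuum hA
          (one_lt_aleph0.trans_le aleph0_le_continuum))
      obtain ⟨p, hp, h1, h2, h3⟩ := t.1.2.2 _ this
      simp only [mem_insert_iff, not_or] at h1 h2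
      exact ⟨p, ⟨hp, h1.1, h2.1⟩, h1.2, h2.2, h3⟩)
  let E : Set Cn := range fun t => (z t).1
  have big : ∀ V : Set Cn, IsOpen V → ∀ x ∈ V, 𝔠 ≤ #(E ∩ V : Set Cn) := by
    intro V hV x hx
    obtain ⟨W, hW, hWV, hc⟩ := big_open hV hx
    have hg : good (W ×ˢ Set.univ) := by
      intro A hA
      obtain ⟨a, haW, haA⟩ : ∃ a ∈ W, a ∉ A := by
        by_contra h
        push Not at h
        exact absurd (hc.trans (mk_le_mk_of_subset h)) hA.not_ge
      have : #(insert a A : Set Cn) < 𝔠 :=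
        mk_insert_le.trans_lt (add_lt_of_lt aleph0_le_continuum hA
          (one_lt_aleph0.trans_le aleph0_le_continuum))
      obtain ⟨b, hb⟩ : ∃ b, b ∉ (insert a A : Set Cn) := by
        by_contra h
        push Not at h
        have h2 : (Set.univ : Set Cn) ⊆ insert a A := fun b _ => h b
        have := mk_le_mk_of_subset h2
        rw [mk_univ, card_Cn] at this
        order
      simp only [mem_insert_iff, not_or] at hb
      exact ⟨(a, b), ⟨haW, trivial⟩, haA, hb.2, fun h => hb.1 h.symm⟩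
    let t : Cn → T := fun r => (⟨W ×ˢ Set.univ, hW.prod isClosed_univ, hg⟩, r)
    rw [← card_Cn]
    refine mk_le_of_injective (f := fun r => (⟨(z (t r)).1, ⟨t r, rfl⟩,
      hWV (hz1 (t r)).1.1⟩ : (E ∩ V : Set Cn))) ?_
    intro r s h
    have := hz3 (congrArg Subtype.val h)
    exact congrArg Prod.snd this
  refine ⟨E, ?_, ?_, ?_⟩
  · rintro ⟨t, ht⟩
    exact (hz1 t).2.1 ht
  · rw [dense_iff_inter_open]
    rintro V hV ⟨x, hx⟩
    have := big V hV x hx
    by_contra h
    rw [not_nonempty_iff_eq_empty, inter_comm] at h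
    rw [h, mk_emptyCollection] at this
    exact absurd this (not_le.2 continuum_pos)
  · intro U hU g hg hm hc e he
    by_contra hne
    -- the relatively open set where `g` moves points
    have hev : ∀ᶠ y in 𝓝[E ∩ U] e, g y ≠ y := by
      have h1 : ContinuousWithinAt (fun y => (g y, y)) (E ∩ U) e :=
        (hg e he).prodMk continuousWithinAt_id
      exact h1 (isClosed_diagonal.isOpen_compl.mem_nhds hne)
    obtain ⟨V, hV, heV, hVs⟩ := mem_nhdsWithin.1 hev
    have hbig := big (V ∩ U) (hV.inter hU.isOpen) e ⟨heV, he.2⟩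
    let Γ := closure ((fun y => (y, g y)) '' (E ∩ U))
    have hgood : good Γ := by
      intro A hA
      have hs : #(A ∪ ⋃ y : A, {e | e ∈ E ∩ U ∧ g e = y} : Set Cn) < 𝔠 := by
        refine (mk_union_le _ _).trans_lt (add_lt_of_lt aleph0_le_continuum hA ?_)
        refine (mk_iUnion_le _).trans_lt (mul_lt_of_lt aleph0_le_continuum hA ?_)
        refine lt_of_le_of_lt (ciSup_le' fun y => ?_) aleph0_lt_continuum
        exact le_aleph0_iff_set_countable.2 (hc y)
      obtain ⟨a, ha, haA⟩ : ∃ a ∈ E ∩ (V ∩ U),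
          a ∉ (A ∪ ⋃ y : A, {e | e ∈ E ∩ U ∧ g e = y} : Set Cn) := by
        by_contra h
        push Not at h
        exact absurd (hbig.trans (mk_le_mk_of_subset h)) hs.not_ge
      simp only [mem_union, mem_iUnion, not_or, not_exists] at haA
      refine ⟨(a, g a), subset_closure ⟨a, ⟨ha.1, ha.2.2⟩, rfl⟩, haA.1,
        fun h => haA.2 ⟨g a, h⟩ ⟨⟨ha.1, ha.2.2⟩, rfl⟩, ?_⟩
      exact fun h => hVs ⟨ha.2.1, ha.1, ha.2.2⟩ h.symm
    let t : T := (⟨Γ, isClosed_closure, hgood⟩, o)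
    obtain ⟨hp, -, hp2⟩ := hz1 t
    have hU1 : (z t).1 ∈ U := by
      have : Γ ⊆ Prod.fst ⁻¹' U :=
        closure_minimal (by rintro _ ⟨y, hy, rfl⟩; exact hy.2)
          (hU.isClosed.preimage continuous_fst)
      exact this hp
    have hE1 : (z t).1 ∈ E ∩ U := ⟨⟨t, rfl⟩, hU1⟩
    have heq : g (z t).1 = (z t).2 := by
      obtain ⟨u, hu, hlim⟩ := mem_closure_iff_seq_limit.1 hp
      choose y hy hyu using hu
      have h1 : Tendsto y atTop (𝓝 (z t).1) := by
        have := (continuous_fst.tendsto _).comp hlim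
        refine this.congr fun n => ?_
        simp [← hyu n]
      have h2 : Tendsto (fun n => g (y n)) atTop (𝓝 (z t).2) := by
        have := (continuous_snd.tendsto _).comp hlim
        refine this.congr fun n => ?_
        simp [← hyu n]
      have h3 : Tendsto (fun n => g (y n)) atTop (𝓝 (g (z t).1)) :=
        (hg _ hE1).tendsto.comp (tendsto_nhdsWithin_iff.2 ⟨h1, .of_forall hy⟩)
      exact tendsto_nhds_unique h3 h2
    rcases hm hE1 with h | ⟨s, hs⟩
    · exact hp2 (heq ▸ h)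
    · exact hz2 s t (hs.trans heq)

end Pool.Agent.H19.Dt
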