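import Pool.Agent.H19.DtA

set_option maxHeartbeats 400000
open Set Topology Filter Function

namespace Pool.Agent.H19.Dt

/-- The colour of a point: its first `true` coordinate. -/
noncomputable def c (e : Cn) : ℕ := sInf {k | e k = true}

theorem c_spec {e : Cn} (h : e ≠ o) : e (c e) = true := by
  have : {k | e k = true}.Nonempty := by
    by_contra hn
    refine h (funext fun k => ?_)
    by_contra hk
    exact hn ⟨k, by simpa [o] using hk⟩
  exact Nat.sInf_mem this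

theorem c_lt {e : Cn} {k : ℕ} (h : k < c e) : e k = false := by
  have := Nat.notMem_of_lt_sInf h
  simpa using this

def D (i : ℕ) : Set Cn := {e | e ≠ o ∧ c e = i}

theorem D_eq (i : ℕ) : D i = {e | e i = true} ∩ ⋂ k ∈ Finset.range i, {e | e k = false} := by
  ext e
  simp only [D, mem_setOf_eq, mem_inter_iff, mem_iInter, Finset.mem_range]
  constructor
  · rintro ⟨h, rfl⟩
    exact ⟨c_spec h, fun k hk => c_lt hk⟩
  · rintro ⟨h1, h2⟩
    have hne : e ≠ o := by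
      rintro rfl
      simp [o] at h1
    refine ⟨hne, le_antisymm (Nat.sInf_le h1) ?_⟩
    by_contra hlt
    have := h2 _ (not_le.1 hlt)
    rw [c_spec hne] at this
    exact absurd this (by simp)

theorem D_clopen (i : ℕ) : IsClopen (D i) := by
  rw [D_eq]
  have h : ∀ (k : ℕ) (b : Bool), IsClopen {e : Cn | e k = b} := fun k b =>
    (isClopen_discrete {b}).preimage (continuous_apply k)
  exact (h _ _).inter (isClopen_biInter_finset fun k _ => h k _)

theorem D_ne (i : ℕ) : (D i).Nonempty := by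
  refine ⟨fun k => decide (k = i), ?_⟩
  rw [D_eq]
  simp only [mem_inter_iff, mem_setOf_eq, decide_true, mem_iInter, Finset.mem_range,
    decide_eq_false_iff_not, true_and]
  intro k hk
  omega

theorem up (n : ℕ) : ∀ᶠ y in 𝓝 o, y ≠ o → n ≤ c y := by
  have : ∀ᶠ y : Cn in 𝓝 o, ∀ k ∈ Finset.range n, y k = false := by
    rw [eventually_all_finset]
    intro k _
    exact IsOpen.mem_nhds (s := (fun p : Cn => p k) ⁻¹' {false})
      ((isOpen_discrete {false}).preimage (continuous_apply k)) rfl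
  filter_upwards [this] with y hy hne
  by_contra hlt
  have := hy _ (Finset.mem_range.2 (not_le.1 hlt))
  rw [c_spec hne] at this
  exact absurd this (by simp)

theorem down {V : Set Cn} (hV : V ∈ 𝓝 o) : ∃ n, ∀ y, n ≤ c y → y ∈ V := by
  obtain ⟨W, hWV, hW, ho⟩ := mem_nhds_iff.1 hV
  obtain ⟨I, u, hu, hsub⟩ := isOpen_pi_iff.1 hW o ho
  obtain ⟨n, hn⟩ := I.bddAbove
  refine ⟨n + 1, fun y hy => hWV (hsub fun k hk => ?_)⟩
  have : k ≤ n := hn hk
  rw [c_lt (show k < c y by omega)]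
  exact (hu k hk).2

abbrev K := ℕ∞ × Cn

def slot (a : ℕ → Set ℕ) (i j : ℕ) : Prop := j ≤ i ∧ i ∈ a j

/-- The model spaces. -/
def X (a : ℕ → Set ℕ) (E : Set Cn) (F : Set ℕ) : Set K :=
  {x | x = (⊤, o) ∨ (∃ j : ℕ, j ∉ F ∧ x = ((j : ℕ∞), o)) ∨
    ∃ j : ℕ, ∃ e ∈ E, slot a (c e) j ∧ x = ((j : ℕ∞), e)}

variable {a : ℕ → Set ℕ} {E : Set Cn}

theorem top_mem (F : Set ℕ) : ((⊤, o) : K) ∈ X a E F := Or.inl rfl

theorem col_mem {F : Set ℕ} {j : ℕ} (h : j ∉ F) : (((j : ℕ∞), o) : K) ∈ X a E F :=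
  Or.inr (Or.inl ⟨j, h, rfl⟩)

theorem atom_mem {F : Set ℕ} {j : ℕ} {e : Cn} (he : e ∈ E) (h : slot a (c e) j) :
    (((j : ℕ∞), e) : K) ∈ X a E F :=
  Or.inr (Or.inr ⟨j, e, he, h, rfl⟩)

theorem X_anti {F G : Set ℕ} (h : F ⊆ G) : X a E G ⊆ X a E F := by
  rintro x (rfl | ⟨j, hj, rfl⟩ | ⟨j, e, he, hs, rfl⟩)
  · exact top_mem _
  · exact col_mem fun hF => hj (h hF)
  · exact atom_mem he hs

theorem col_mem_iff (ho : o ∉ E) {F : Set ℕ} {j : ℕ} :
    (((j : ℕ∞), o) : K) ∈ X a E F ↔ j ∉ F := by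
  refine ⟨?_, col_mem⟩
  rintro (h | ⟨k, hk, h⟩ | ⟨k, e, he, -, h⟩)
  · simp at h
  · simp only [Prod.mk.injEq, Nat.cast_inj, and_true] at h
    exact h ▸ hk
  · simp only [Prod.mk.injEq] at h
    exact absurd (h.2 ▸ he) ho

theorem nhds_top_enat {p : ℕ∞ → Prop} (h : ∀ᶠ y in 𝓝 (⊤ : ℕ∞), p y) :
    ∃ m : ℕ, ∀ y : ℕ∞, (m : ℕ∞) < y → p y := by
  obtain ⟨l, hl, hs⟩ := (nhds_top_basis (α := ℕ∞)).mem_iff.1 h
  lift l to ℕ using hl.ne
  exact ⟨l, fun y hy => hs hy⟩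

theorem topc {F : Set ℕ} {h : K → K} (hc : ContinuousOn h (X a E F)) {W : Set K}
    (hW : W ∈ 𝓝 (h (⊤, o))) : ∃ m : ℕ, ∀ x ∈ X a E F, (m : ℕ∞) < x.1 → h x ∈ W := by
  have h1 : ∀ᶠ x in 𝓝[X a E F] ((⊤, o) : K), h x ∈ W := hc _ (top_mem F) hW
  rw [eventually_nhdsWithin_iff, nhds_prod_eq, eventually_prod_iff] at h1
  obtain ⟨pa, hpa, pb, hpb, hp⟩ := h1
  obtain ⟨m1, hm1⟩ := nhds_top_enat hpa
  obtain ⟨m2, hm2⟩ := down hpb
  refine ⟨max m1 m2, fun x hx hlt => ?_⟩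
  have h1 : pa x.1 := hm1 _ (lt_of_le_of_lt (Nat.cast_le.2 (le_max_left _ _)) hlt)
  have h2 : pb x.2 := by
    rcases hx with rfl | ⟨j, -, rfl⟩ | ⟨j, e, -, hs, rfl⟩
    · exact hpb.self_of_nhds
    · exact hpb.self_of_nhds
    · have : max m1 m2 < j := Nat.cast_lt.1 hlt
      have := hs.1
      exact hm2 e (by omega)
  exact hp h1 h2 hx

theorem colc {F : Set ℕ} {h : K → K} (hc : ContinuousOn h (X a E F)) {j : ℕ} (hj : j ∉ F)
    {W : Set K} (hW : W ∈ 𝓝 (h (j, o))) :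
    ∃ i : ℕ, ∀ e ∈ E, slot a (c e) j → i ≤ c e → h (j, e) ∈ W := by
  have h1 : ∀ᶠ x in 𝓝[X a E F] (((j : ℕ∞), o) : K), h x ∈ W := hc _ (col_mem hj) hW
  rw [eventually_nhdsWithin_iff, nhds_prod_eq, eventually_prod_iff] at h1
  obtain ⟨pa, hpa, pb, hpb, hp⟩ := h1
  obtain ⟨m2, hm2⟩ := down hpb
  exact ⟨m2, fun e he hs hi => hp hpa.self_of_nhds (hm2 e hi) (atom_mem he hs)⟩

/-- Colour-preserving continuous maps between model spaces. -/
structure Good (a : ℕ → Set ℕ) (E : Set Cn) (F G : Set ℕ) (h : K → K) : Prop where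
  cont : ContinuousOn h (X a E F)
  maps : MapsTo h (X a E F) (X a E G)
  top : h (⊤, o) = (⊤, o)
  snd : ∀ x ∈ X a E F, (h x).2 = x.2
  surj : ∀ k : ℕ, ∀ e ∈ E, slot a (c e) k → ∃ j : ℕ, slot a (c e) j ∧ h (j, e) = ((k : ℕ∞), e)

theorem Good.topn {F G : Set ℕ} {h : K → K} (H : Good a E F G h) (n : ℕ) :
    ∃ m : ℕ, ∀ x ∈ X a E F, (m : ℕ∞) < x.1 → (n : ℕ∞) < (h x).1 := by
  refine topc H.cont (W := {y | (n : ℕ∞) < y.1}) ?_
  rw [H.top]
  exact (isOpen_Ioi.preimage continuous_fst).mem_nhds (ENat.coe_lt_top n)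

theorem Good.pull (ho : o ∉ E) {F G : Set ℕ} {h : K → K} (H : Good a E F G h) {k : ℕ}
    (hk : k ∈ G) : ∃ i : ℕ, ∀ j : ℕ, ∀ e ∈ E, slot a (c e) j → i ≤ c e →
      h (j, e) = ((k : ℕ∞), e) → j ∈ F := by
  obtain ⟨m, hm⟩ := H.topn k
  have h1 : ∀ j : ℕ, ∃ i : ℕ, j ∉ F → ∀ e ∈ E, slot a (c e) j → i ≤ c e →
      (h (j, e)).1 ≠ k := by
    intro j
    by_cases hj : j ∈ F
    · exact ⟨0, fun h => absurd hj h⟩
    have hne : (h (j, o)).1 ≠ k := by
      intro h0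
      have h2 := H.maps (col_mem hj)
      have h3 : h (j, o) = ((k : ℕ∞), o) := Prod.ext h0 (H.snd _ (col_mem hj))
      rw [h3, col_mem_iff ho] at h2
      exact h2 hk
    obtain ⟨i, hi⟩ := colc H.cont hj (W := {y | y.1 ≠ (k : ℕ∞)})
      ((isOpen_ne.preimage continuous_fst).mem_nhds hne)
    exact ⟨i, fun _ => hi⟩
  choose I hI using h1
  refine ⟨(Finset.range (m + 1)).sup I, fun j e he hs hi hh => ?_⟩
  by_contra hj
  by_cases hjm : m < j
  · have := hm _ (atom_mem he hs) (Nat.cast_lt.2 hjm)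
    rw [hh] at this
    exact lt_irrefl _ this
  · refine hI j hj e he hs (le_trans ?_ hi) (by rw [hh])
    exact Finset.le_sup (f := I) (Finset.mem_range.2 (by omega))

open Classical in
/-- The number of columns of `F` using colour `i`. -/
noncomputable def lam (a : ℕ → Set ℕ) (F : Finset ℕ) (i : ℕ) : ℕ :=
  (F.filter fun j => i ∈ a j).card

theorem exE (hd : Dense E) (i : ℕ) : ∃ e ∈ E, c e = i := by
  obtain ⟨e, h1, h2⟩ := hd.inter_open_nonempty _ (D_clopen i).isOpen (D_ne i)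
  exact ⟨e, h2, h1.2⟩

theorem Good.cnt (ho : o ∉ E) (hd : Dense E) {F G : Finset ℕ} {h : K → K}
    (H : Good a E F G h) : ∀ᶠ i in atTop, lam a G i ≤ lam a F i := by
  classical
  have h1 : ∀ᶠ i in atTop, ∀ k ∈ G, k ≤ i ∧ ∀ j : ℕ, ∀ e ∈ E, slot a (c e) j → i ≤ c e →
      h (j, e) = ((k : ℕ∞), e) → j ∈ F := by
    rw [eventually_all_finset]
    intro k hk
    obtain ⟨i, hi⟩ := H.pull ho (Finset.mem_coe.2 hk)
    filter_upwards [eventually_ge_atTop k, eventually_ge_atTop i] with n h1 h2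
    exact ⟨h1, fun j e he hs hn hh => hi j e he hs (h2.trans hn) hh⟩
  filter_upwards [h1] with i hi
  obtain ⟨e, he, rfl⟩ := exE hd i
  have h2 : ∀ k : ℕ, ∃ j : ℕ, slot a (c e) k → slot a (c e) j ∧ h (j, e) = ((k : ℕ∞), e) := by
    intro k
    by_cases hk : slot a (c e) k
    · obtain ⟨j, hj⟩ := H.surj k e he hk
      exact ⟨j, fun _ => hj⟩
    · exact ⟨0, fun h => absurd h hk⟩
  choose u hu using h2
  unfold lam
  refine Finset.card_le_card_of_injOn u ?_ ?_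
  · intro k hk
    simp only [Finset.coe_filter, mem_setOf_eq] at hk ⊢
    have := hu k ⟨(hi k hk.1).1, hk.2⟩
    exact ⟨(hi k hk.1).2 _ e he this.1 le_rfl this.2, this.1.2⟩
  · intro k hk k' hk' hkk
    simp only [Finset.coe_filter, mem_setOf_eq] at hk hk'
    have h1 := (hu k ⟨(hi k hk.1).1, hk.2⟩).2
    have h2 := (hu k' ⟨(hi k' hk'.1).1, hk'.2⟩).2
    rw [hkk, h2] at h1
    simpa using h1.symm

def Rigid (E : Set Cn) : Prop :=
  ∀ U : Set Cn, IsClopen U → ∀ g : Cn → Cn, ContinuousOn g (E ∩ U) →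
    MapsTo g (E ∩ U) (insert o E) → (∀ y, {e | e ∈ E ∩ U ∧ g e = y}.Countable) →
    ∀ e ∈ E ∩ U, g e = e

theorem exbig (ha : ∀ j, (a j).Infinite) (j n : ℕ) : ∃ i ∈ a j, n ≤ i := by
  obtain ⟨i, hi, h⟩ := (ha j).exists_gt n
  exact ⟨i, hi, h.le⟩

theorem thmA' (ho : o ∉ E) (hd : Dense E) (hr : Rigid E) (ha : ∀ j, (a j).Infinite)
    (hrep : ∀ j n, ∃ j', n < j' ∧ a j' = a j) (F : Finset ℕ) {h h' : K → K}
    (hc : ContinuousOn h (X a E F)) (hc' : ContinuousOn h' (h '' X a E F))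
    (hl : ∀ x ∈ X a E F, h' (h x) = x) (hm : MapsTo h (X a E F) (X a E ∅)) :
    ∃ G : Finset ℕ, h '' X a E F = X a E G ∧ ∀ᶠ i in atTop, lam a G i = lam a F i := by
  classical
  have inj : ∀ x ∈ X a E F, ∀ y ∈ X a E F, h x = h y → x = y := fun x hx y hy e => by
    rw [← hl x hx, e, hl y hy]
  have s1 : ∀ j : ℕ, ∀ e ∈ E, slot a (c e) j → (h (j, e)).2 = e := by
    intro j e he hs
    have mem : ∀ y ∈ E ∩ D (c e), (((j : ℕ∞), y) : K) ∈ X a E F := fun y hy =>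
      atom_mem hy.1 (by rw [hy.2.2]; exact hs)
    refine hr (D (c e)) (D_clopen _) (fun y => (h (j, y)).2) ?_ ?_ ?_ e
      ⟨he, fun h => ho (h ▸ he), rfl⟩
    · exact continuous_snd.comp_continuousOn
        (hc.comp (Continuous.prodMk_right _).continuousOn mem)
    · intro y hy
      rcases hm (mem y hy) with h1 | ⟨k, -, h1⟩ | ⟨k, e', he', -, h1⟩
      · exact Or.inl (by simp only [h1])
      · exact Or.inl (by simp only [h1])
      · exact Or.inr (by simpa only [h1] using he')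
    · intro y
      refine MapsTo.countable_of_injOn (f := fun z => (h (j, z)).1) (mapsTo_univ _ _) ?_
        countable_univ
      intro z hz z' hz' hzz
      have := inj _ (mem z hz.1) _ (mem z' hz'.1) (Prod.ext hzz (hz.2.trans hz'.2.symm))
      exact (Prod.ext_iff.1 this).2
  have s2 : ∀ j : ℕ, ∀ e ∈ E, slot a (c e) j → ∃ k : ℕ, slot a (c e) k ∧ h (j, e) = ((k : ℕ∞), e) := by
    intro j e he hs
    have h0 := s1 j e he hs
    rcases hm (atom_mem he hs) with h1 | ⟨k, -, h1⟩ | ⟨k, e', he', hs', h1⟩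
    · rw [h1] at h0; exact absurd ((show o = e from h0) ▸ he) ho
    · rw [h1] at h0; exact absurd ((show o = e from h0) ▸ he) ho
    · rw [h1] at h0
      obtain rfl : e' = e := h0
      exact ⟨k, hs', h1⟩
  have s3 : ∀ k : ℕ, ∀ e ∈ E, slot a (c e) k → ∃ j : ℕ, slot a (c e) j ∧ h (j, e) = ((k : ℕ∞), e) := by
    intro k e he hs
    haveI : Finite {j // slot a (c e) j} :=
      ((finite_le_nat (c e)).subset fun j (hj : slot a (c e) j) => hj.1).to_subtype
    choose σ hσ using fun j : {j // slot a (c e) j} => s2 j.1 e he j.2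
    let τ : {j // slot a (c e) j} → {j // slot a (c e) j} := fun j => ⟨σ j, (hσ j).1⟩
    have hτ : Injective τ := by
      intro j j' hjj
      have h1 : σ j = σ j' := congrArg Subtype.val hjj
      have := inj _ (atom_mem he j.2) _ (atom_mem he j'.2)
        (by rw [(hσ j).2, (hσ j').2, h1])
      exact Subtype.ext (by simpa using this)
    obtain ⟨j, hj⟩ := Finite.surjective_of_injective hτ ⟨k, hs⟩
    refine ⟨j.1, j.2, ?_⟩
    rw [(hσ j).2]
    have : σ j = k := congrArg Subtype.val hj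
    rw [this]
  have s4 : ∀ x ∈ X a E F, (h x).2 = x.2 := by
    have : ∀ x ∈ X a E F, x.2 = o → (h x).2 = o := by
      intro x hx hxo
      rcases hm hx with h1 | ⟨k, -, h1⟩ | ⟨k, e, he, hs, h1⟩
      · rw [h1]
      · rw [h1]
      · obtain ⟨j, hj, h2⟩ := s3 k e he hs
        have := inj _ hx _ (atom_mem he hj) (h1.trans h2.symm)
        rw [this] at hxo
        exact absurd ((show e = o from hxo) ▸ he) ho
    intro x hx
    rcases hx with rfl | ⟨k, hk, rfl⟩ | ⟨k, e, he, hs, rfl⟩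
    · exact this _ (top_mem _) rfl
    · exact this _ (col_mem hk) rfl
    · exact s1 k e he hs
  have s5 : h (⊤, o) = (⊤, o) := by
    refine Prod.ext ?_ (s4 _ (top_mem _))
    by_contra hne
    obtain ⟨m, hm'⟩ := topc hc (W := {y | y.1 = (h (⊤, o)).1})
      (((ENat.isOpen_singleton hne).preimage continuous_fst).mem_nhds rfl)
    obtain ⟨j', hj', hjj⟩ := hrep (m + 1) (m + 1)
    obtain ⟨i, hi, hij⟩ := exbig ha (m + 1) j'
    obtain ⟨e, he, rfl⟩ := exE hd i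
    have a1 : slot a (c e) (m + 1) := ⟨by omega, hi⟩
    have a2 : slot a (c e) j' := ⟨hij, hjj ▸ hi⟩
    have b1 := hm' _ (atom_mem he a1) (Nat.cast_lt.2 (by omega))
    have b2 := hm' _ (atom_mem he a2) (Nat.cast_lt.2 (by omega))
    have := inj _ (atom_mem he a1) _ (atom_mem he a2)
      (Prod.ext (b1.trans b2.symm) ((s1 _ e he a1).trans (s1 _ e he a2).symm))
    simp only [Prod.mk.injEq, Nat.cast_inj, and_true] at this
    omega
  let G0 : Set ℕ := {k | (((k : ℕ∞), o) : K) ∉ h '' X a E F}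
  have s6 : h '' X a E F = X a E G0 := by
    apply Subset.antisymm
    · rintro _ ⟨x, hx, rfl⟩
      rcases hm hx with h1 | ⟨k, -, h1⟩ | ⟨k, e, he, hs, h1⟩
      · exact Or.inl h1
      · exact Or.inr (Or.inl ⟨k, fun hk => hk ⟨x, hx, h1⟩, h1⟩)
      · exact Or.inr (Or.inr ⟨k, e, he, hs, h1⟩)
    · rintro y (rfl | ⟨k, hk, rfl⟩ | ⟨k, e, he, hs, rfl⟩)
      · exact ⟨_, top_mem _, s5⟩
      · exact not_not.1 hk
      · obtain ⟨j, hj, h2⟩ := s3 k e he hs
        exact ⟨_, atom_mem he hj, h2⟩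
  have H : Good a E F G0 h := ⟨hc, fun x hx => s6 ▸ mem_image_of_mem h hx, s5, s4, s3⟩
  have H' : Good a E G0 F h' := by
    refine ⟨s6 ▸ hc', ?_, ?_, ?_, ?_⟩
    · rw [← s6]
      rintro _ ⟨x, hx, rfl⟩
      rw [hl x hx]; exact hx
    · have := hl _ (top_mem _)
      rwa [s5] at this
    · rw [← s6]
      rintro _ ⟨x, hx, rfl⟩
      rw [hl x hx, s4 x hx]
    · intro j e he hs
      obtain ⟨k, hk, h1⟩ := s2 j e he hs
      exact ⟨k, hk, by rw [← h1, hl _ (atom_mem he hs)]⟩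
  have s7 : G0.Finite := by
    obtain ⟨n, hn⟩ := H'.topn (F.sup id)
    refine (finite_le_nat n).subset fun k hk => ?_
    obtain ⟨i0, hi0⟩ := H.pull ho hk
    obtain ⟨i, hi, hik⟩ := exbig ha k (max i0 k)
    obtain ⟨e, he, rfl⟩ := exE hd i
    have a1 : slot a (c e) k := ⟨by omega, hi⟩
    obtain ⟨j, hj, h1⟩ := s3 k e he a1
    have hjF := hi0 j e he hj (by omega) h1
    by_contra hlt
    have := hn _ (atom_mem he a1) (Nat.cast_lt.2 (not_le.1 hlt))
    rw [← h1, hl _ (atom_mem he hj)] at this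
    exact absurd (Nat.cast_lt.1 this) (not_lt.2 (Finset.le_sup (f := id) hjF))
  obtain ⟨G, hG⟩ := s7.exists_finset_coe
  rw [← hG] at s6 H H'
  refine ⟨G, s6, ?_⟩
  filter_upwards [H.cnt ho hd, H'.cnt ho hd] with i h1 h2 using le_antisymm h1 h2

end Pool.Agent.H19.Dt
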