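import Pool.Agent.H19.DtB

set_option maxHeartbeats 400000
open Set Topology Filter Function

namespace Pool.Agent.H19.Dt

variable {a : ℕ → Set ℕ} {E : Set Cn}

theorem perm_ext (S A : Finset ℕ) (hA : A ⊆ S) (u : ℕ → ℕ) (hu : InjOn u A)
    (hm : ∀ j ∈ A, u j ∈ S) : ∃ p p' : ℕ → ℕ, (∀ j ∈ S, p j ∈ S ∧ p' (p j) = j) ∧
      (∀ k ∈ S, p' k ∈ S ∧ p (p' k) = k) ∧ ∀ j ∈ A, p j = u j := by
  classical
  obtain ⟨σ, hσ⟩ := Equiv.Perm.exists_extending_pair (α := A) (β := S)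
    (f := fun j => ⟨j.1, hA j.2⟩) (g := fun j => ⟨u j.1, hm _ j.2⟩)
    (fun j j' h => Subtype.ext (by simpa using h))
    (fun j j' h => Subtype.ext (hu j.2 j'.2 (congrArg Subtype.val h)))
  refine ⟨fun j => if h : j ∈ S then σ ⟨j, h⟩ else j,
    fun j => if h : j ∈ S then σ.symm ⟨j, h⟩ else j, ?_, ?_, ?_⟩
  · intro j hj
    simp [hj]
  · intro j hj
    simp [hj]
  · intro j hj
    have := congrArg Subtype.val (hσ ⟨j, hj⟩)
    simpa [hA hj] using this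

/-- Rearranging data. -/
structure Mv (a : ℕ → Set ℕ) (F G : Set ℕ) (b : ℕ → ℕ) (p : ℕ → ℕ → ℕ) : Prop where
  col : ∀ j, j ∉ F → b j ∉ G
  slt : ∀ i j, slot a i j → slot a i (p i j)
  ev : ∀ j, j ∉ F → ∃ i0, ∀ i, i0 ≤ i → slot a i j → p i j = b j
  top : ∀ n, ∃ m, (∀ j, j ∉ F → m < j → n < b j) ∧ ∀ i j, slot a i j → m < j → n < p i j

open Classical in
noncomputable def mv (b : ℕ → ℕ) (p : ℕ → ℕ → ℕ) (x : K) : K :=
  (ENat.map (if x.2 = o then b else p (c x.2)) x.1, x.2)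

theorem mv_top (b : ℕ → ℕ) (p : ℕ → ℕ → ℕ) : mv b p (⊤, o) = (⊤, o) := rfl

theorem mv_col (b : ℕ → ℕ) (p : ℕ → ℕ → ℕ) (j : ℕ) : mv b p (j, o) = ((b j : ℕ∞), o) := by
  unfold mv
  rw [if_pos rfl]
  rfl

theorem mv_atom (b : ℕ → ℕ) (p : ℕ → ℕ → ℕ) (j : ℕ) {e : Cn} (he : e ≠ o) :
    mv b p (j, e) = ((p (c e) j : ℕ∞), e) := by
  unfold mv
  rw [if_neg he]
  rfl

theorem Mv.maps (ho : o ∉ E) {F G : Set ℕ} {b : ℕ → ℕ} {p : ℕ → ℕ → ℕ} (H : Mv a F G b p) :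
    MapsTo (mv b p) (X a E F) (X a E G) := by
  rintro x (rfl | ⟨j, hj, rfl⟩ | ⟨j, e, he, hs, rfl⟩)
  · rw [mv_top]; exact top_mem _
  · rw [mv_col]; exact col_mem (H.col j hj)
  · rw [mv_atom b p j (fun h => ho (h ▸ he))]; exact atom_mem he (H.slt _ _ hs)

theorem Mv.cont (ho : o ∉ E) {F G : Set ℕ} {b : ℕ → ℕ} {p : ℕ → ℕ → ℕ} (H : Mv a F G b p) :
    ContinuousOn (mv b p) (X a E F) := by
  have ne : ∀ e ∈ E, e ≠ o := fun e he h => ho (h ▸ he)
  suffices h : ContinuousOn (fun x => (mv b p x).1) (X a E F) from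
    h.prodMk continuous_snd.continuousOn
  have loc : ∀ x ∈ X a E F, (∀ᶠ y in 𝓝 x, y ∈ X a E F → (mv b p y).1 = (mv b p x).1) →
      ContinuousWithinAt (fun x => (mv b p x).1) (X a E F) x := by
    intro x _ h
    exact tendsto_const_nhds.congr' ((eventually_nhdsWithin_iff.2 h).mono fun y hy => hy.symm)
  have fstj : ∀ (j : ℕ) (e : Cn), ∀ᶠ y in 𝓝 (((j : ℕ∞), e) : K), y.1 = (j : ℕ∞) := fun j e =>
    IsOpen.mem_nhds (s := Prod.fst ⁻¹' {(j : ℕ∞)})
      ((ENat.isOpen_singleton (ENat.coe_ne_top j)).preimage continuous_fst) rfl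
  intro x hx
  rcases hx with rfl | ⟨j, hj, rfl⟩ | ⟨j, e, he, hs, rfl⟩
  · refine ENat.tendsto_nhds_top_iff_natCast_lt.2 ?_
    intro n
    obtain ⟨m, hm1, hm2⟩ := H.top n
    rw [eventually_nhdsWithin_iff]
    have : ∀ᶠ y in 𝓝 ((⊤, o) : K), (m : ℕ∞) < y.1 :=
      IsOpen.mem_nhds (s := Prod.fst ⁻¹' Ioi (m : ℕ∞))
        (isOpen_Ioi.preimage continuous_fst) (ENat.coe_lt_top m)
    filter_upwards [this] with y hy hyX
    rcases hyX with rfl | ⟨j, hj, rfl⟩ | ⟨j, e, he, hs, rfl⟩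
    · rw [mv_top]; exact ENat.coe_lt_top n
    · rw [mv_col]; exact Nat.cast_lt.2 (hm1 j hj (Nat.cast_lt.1 hy))
    · rw [mv_atom b p j (ne e he)]; exact Nat.cast_lt.2 (hm2 _ j hs (Nat.cast_lt.1 hy))
  · refine loc _ (col_mem hj) ?_
    obtain ⟨i0, hi0⟩ := H.ev j hj
    have : ∀ᶠ y in 𝓝 (((j : ℕ∞), o) : K), y.2 ≠ o → i0 ≤ c y.2 :=
      (continuous_snd.tendsto (((j : ℕ∞), o) : K)).eventually (up i0)
    filter_upwards [this, fstj j o] with y h1 h2 hyX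
    rcases hyX with rfl | ⟨k, hk, rfl⟩ | ⟨k, e, he, hs, rfl⟩
    · simp at h2
    · obtain rfl : k = j := Nat.cast_injective h2
      rfl
    · obtain rfl : k = j := Nat.cast_injective h2
      rw [mv_atom b p k (ne e he), mv_col, hi0 _ (h1 (ne e he)) hs]
  · refine loc _ (atom_mem he hs) ?_
    have : ∀ᶠ y in 𝓝 (((j : ℕ∞), e) : K), y.2 ∈ D (c e) :=
      continuous_snd.continuousAt.eventually ((D_clopen _).isOpen.mem_nhds ⟨ne e he, rfl⟩)
    filter_upwards [this, fstj j e] with y h1 h2 _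
    obtain ⟨y1, y2⟩ := y
    obtain rfl : y1 = j := h2
    rw [mv_atom b p j h1.1, mv_atom b p j (ne e he), show c y2 = c e from h1.2]

theorem mk_mv {F G : Finset ℕ} {b b' : ℕ → ℕ} {p p' : ℕ → ℕ → ℕ} (i0 : ℕ)
    (hb : ∀ j, j ∉ F → b j ∉ G ∧ b' (b j) = j)
    (hA : ∀ i j, slot a i j → slot a i (p i j) ∧ p' i (p i j) = j)
    (hB : ∀ i, i0 ≤ i → ∀ j, slot a i j → j ∉ F → p i j ∉ G)
    (hC : ∀ i, i0 ≤ i → ∀ j, slot a i j → j ∉ F → b j ≤ i → p i j = b j)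
    (hC' : ∀ i, i0 ≤ i → ∀ k, slot a i k → k ∉ G → b' k ≤ i → p' i k = b' k) :
    Mv a F G b p := by
  refine ⟨fun j hj => (hb j hj).1, fun i j h => (hA i j h).1, fun j hj => ?_, fun n => ?_⟩
  · exact ⟨max i0 (b j), fun i hi hs => hC i (by omega) j hs hj (by omega)⟩
  · have key : ∀ k, k ≤ n → b' k ≤ (Finset.range (n + 1)).sup b' := fun k hk =>
      Finset.le_sup (f := b') (Finset.mem_range.2 (by omega))
    refine ⟨max (max i0 (F.sup id)) ((Finset.range (n + 1)).sup b'), fun j hj hm => ?_,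
      fun i j hs hm => ?_⟩
    · by_contra hlt
      have := key _ (not_lt.1 hlt)
      rw [(hb j hj).2] at this
      omega
    · by_contra hlt
      have h1 := key _ (not_lt.1 hlt)
      have h2 := hs.1
      have hj : j ∉ F := fun h => by
        have : j ≤ F.sup id := Finset.le_sup (f := id) h
        omega
      have h3 := hC' i (by omega) _ (hA i j hs).1 (hB i (by omega) j hs hj) (by omega)
      rw [(hA i j hs).2] at h3
      omega

theorem exb (hrep : ∀ j n, ∃ j', n < j' ∧ a j' = a j) (F G : Finset ℕ) :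
    ∃ b b' : ℕ → ℕ, (∀ j, j ∉ F → b j ∉ G ∧ a (b j) = a j ∧ b' (b j) = j) ∧
      (∀ j, j ∉ G → b' j ∉ F ∧ a (b' j) = a j ∧ b (b' j) = j) := by
  classical
  have inf : ∀ (F : Finset ℕ) (j : ℕ), Infinite {x : {k // k ∉ F} // a x.1 = a j} := by
    intro F j
    rw [← not_finite_iff_infinite]
    intro hfin
    obtain ⟨n, hn⟩ := (finite_range fun x : {x : {k // k ∉ F} // a x.1 = a j} => x.1.1).bddAbove
    obtain ⟨j', h1, h2⟩ := hrep j (max n (F.sup id))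
    have hj : j' ∉ F := fun h => by
      have : j' ≤ F.sup id := Finset.le_sup (f := id) h
      omega
    have : j' ≤ n := hn ⟨⟨⟨j', hj⟩, h2⟩, rfl⟩
    omega
  have e : ∀ s : Set ℕ, Nonempty ({x : {k // k ∉ F} // a x.1 = s} ≃
      {x : {k // k ∉ G} // a x.1 = s}) := by
    intro s
    by_cases h : ∃ j, a j = s
    · obtain ⟨j, rfl⟩ := h
      haveI := inf F j
      haveI := inf G j
      exact nonempty_equiv_of_countable
    · haveI : IsEmpty {x : {k // k ∉ F} // a x.1 = s} := ⟨fun x => h ⟨_, x.2⟩⟩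
      haveI : IsEmpty {x : {k // k ∉ G} // a x.1 = s} := ⟨fun x => h ⟨_, x.2⟩⟩
      exact ⟨Equiv.equivOfIsEmpty _ _⟩
  let β : {k // k ∉ F} ≃ {k // k ∉ G} :=
    Equiv.ofFiberEquiv (f := fun x => a x.1) (g := fun x => a x.1) fun s => (e s).some
  have hβ : ∀ x, a (β x).1 = a x.1 := fun x =>
    Equiv.ofFiberEquiv_map (f := fun x : {k // k ∉ F} => a x.1)
      (g := fun x : {k // k ∉ G} => a x.1) (fun s => (e s).some) x
  refine ⟨fun j => if h : j ∉ F then β ⟨j, h⟩ else 0,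
    fun j => if h : j ∉ G then β.symm ⟨j, h⟩ else 0, fun j hj => ?_, fun j hj => ?_⟩
  · have := (β ⟨j, hj⟩).2
    simp [hj, this, hβ]
  · have := (β.symm ⟨j, hj⟩).2
    have h2 := hβ (β.symm ⟨j, hj⟩)
    rw [Equiv.apply_symm_apply] at h2
    simp [hj, this, ← h2]

theorem exp {F G : Finset ℕ} {b b' : ℕ → ℕ}
    (hb : ∀ j, j ∉ F → b j ∉ G ∧ a (b j) = a j ∧ b' (b j) = j)
    (hb' : ∀ j, j ∉ G → b' j ∉ F ∧ a (b' j) = a j ∧ b (b' j) = j) (i : ℕ)
    (hF : F.sup id ≤ i) (hG : G.sup id ≤ i) (hl : lam a F i = lam a G i) :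
    ∃ p p' : ℕ → ℕ, (∀ j, slot a i j → slot a i (p j) ∧ p' (p j) = j) ∧
      (∀ j, slot a i j → slot a i (p' j) ∧ p (p' j) = j) ∧
      (∀ j, slot a i j → j ∉ F → p j ∉ G) ∧ (∀ j, slot a i j → j ∉ G → p' j ∉ F) ∧
      (∀ j, slot a i j → j ∉ F → b j ≤ i → p j = b j) ∧
      (∀ j, slot a i j → j ∉ G → b' j ≤ i → p' j = b' j) := by
  classical
  let S : Finset ℕ := (Finset.range (i + 1)).filter fun j => i ∈ a j
  have hS : ∀ j, j ∈ S ↔ slot a i j := fun j => by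
    simp [S, slot, Nat.lt_succ_iff]
  obtain ⟨v, hv⟩ : ∃ v : ℕ → ℕ, BijOn v {j | j ∈ F ∧ i ∈ a j} {j | j ∈ G ∧ i ∈ a j} := by
    refine Set.Finite.exists_bijOn_of_encard_eq (F.finite_toSet.subset fun j h => h.1) ?_
    have h1 : ∀ F : Finset ℕ, {j | j ∈ F ∧ i ∈ a j}.encard = lam a F i := by
      intro F
      rw [lam, ← encard_coe_eq_coe_finsetCard, Finset.coe_filter]
    rw [h1, h1, hl]
  have sF : ∀ j ∈ F, i ∈ a j → slot a i j := fun j hj h =>
    ⟨(Finset.le_sup (f := id) hj).trans hF, h⟩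
  have sG : ∀ j ∈ G, i ∈ a j → slot a i j := fun j hj h =>
    ⟨(Finset.le_sup (f := id) hj).trans hG, h⟩
  obtain ⟨p, p', h1, h2, h3⟩ := perm_ext S (S.filter fun j => j ∈ F ∨ b j ≤ i)
    (Finset.filter_subset _ _) (fun j => if j ∈ F then v j else b j) (by
      intro j hj k hk hjk
      simp only [Finset.coe_filter, mem_setOf_eq, hS] at hj hk
      by_cases hjF : j ∈ F <;> by_cases hkF : k ∈ F <;> simp only [hjF, hkF, if_true, if_false] at hjk
      · exact hv.injOn ⟨hjF, hj.1.2⟩ ⟨hkF, hk.1.2⟩ hjk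
      · exact absurd (hjk ▸ (hv.mapsTo ⟨hjF, hj.1.2⟩).1) (hb k hkF).1
      · exact absurd (hjk ▸ (hv.mapsTo ⟨hkF, hk.1.2⟩).1) (hb j hjF).1
      · rw [← (hb j hjF).2.2, hjk, (hb k hkF).2.2]) (by
      intro j hj
      simp only [Finset.mem_filter, hS] at hj ⊢
      by_cases hjF : j ∈ F <;> simp only [hjF, if_true, if_false]
      · have := hv.mapsTo ⟨hjF, hj.1.2⟩
        exact sG _ this.1 this.2
      · exact ⟨hj.2.resolve_left hjF, (hb j hjF).2.1 ▸ hj.1.2⟩)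
  simp only [Finset.mem_filter, hS] at h1 h2 h3
  have pF : ∀ j ∈ F, slot a i j → p j = v j := fun j hj hs => by
    rw [h3 j ⟨hs, Or.inl hj⟩, if_pos hj]
  have pb : ∀ j, slot a i j → j ∉ F → b j ≤ i → p j = b j := fun j hs hj hi => by
    rw [h3 j ⟨hs, Or.inr hi⟩, if_neg hj]
  refine ⟨p, p', h1, h2, fun j hs hj hG' => ?_, fun k hs hk hF' => ?_, pb, fun k hs hk hi => ?_⟩
  · obtain ⟨j', hj', h4⟩ := hv.surjOn ⟨hG', (h1 j hs).1.2⟩
    have s' := sF j' hj'.1 hj'.2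
    have : j' = j := by rw [← (h1 j' s').2, pF j' hj'.1 s', h4, (h1 j hs).2]
    exact hj (this ▸ hj'.1)
  · have h4 := pF _ hF' (h2 k hs).1
    rw [(h2 k hs).2] at h4
    exact hk (h4 ▸ (hv.mapsTo ⟨hF', (h2 k hs).1.2⟩).1)
  · have s' : slot a i (b' k) := ⟨hi, (hb' k hk).2.1 ▸ hs.2⟩
    have h4 := pb _ s' (hb' k hk).1 (by rw [(hb' k hk).2.2]; exact hs.1)
    rw [(hb' k hk).2.2] at h4
    rw [← (h1 _ s').2, h4]

/-- Embeddability of subsets. -/
def Le {α β : Type} [TopologicalSpace α] [TopologicalSpace β] (A : Set α) (B : Set β) : Prop :=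
  ∃ f : A → B, IsEmbedding f

theorem Le.trans {α β γ : Type} [TopologicalSpace α] [TopologicalSpace β] [TopologicalSpace γ]
    {A : Set α} {B : Set β} {C : Set γ} (h1 : Le A B) (h2 : Le B C) : Le A C := by
  obtain ⟨f, hf⟩ := h1
  obtain ⟨g, hg⟩ := h2
  exact ⟨g ∘ f, hg.comp hf⟩

theorem Le.of_subset {α : Type} [TopologicalSpace α] {A B : Set α} (h : A ⊆ B) : Le A B :=
  ⟨inclusion h, IsEmbedding.inclusion h⟩

theorem emb_of {α β : Type} [TopologicalSpace α] [TopologicalSpace β] {A : Set α} {B : Set β}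
    {h : α → β} {h' : β → α} (hc : ContinuousOn h A) (hm : MapsTo h A B)
    (hc' : ContinuousOn h' B) (hl : ∀ x ∈ A, h' (h x) = x) : Le A B := by
  refine ⟨hm.restrict, IsEmbedding.of_comp (g := B.restrict h') (hc.mapsToRestrict hm)
    hc'.restrict ?_⟩
  have : B.restrict h' ∘ hm.restrict = Subtype.val := funext fun x => hl x.1 x.2
  rw [this]
  exact IsEmbedding.subtypeVal

theorem thmB (ho : o ∉ E) (hrep : ∀ j n, ∃ j', n < j' ∧ a j' = a j) {F G : Finset ℕ}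
    (hl : ∀ᶠ i in atTop, lam a F i = lam a G i) : Le (X a E F) (X a E G) := by
  obtain ⟨b, b', hb, hb'⟩ := exb hrep F G
  obtain ⟨i1, hi1⟩ := eventually_atTop.1 hl
  let i0 := max i1 (max (F.sup id) (G.sup id))
  have : ∀ i, ∃ p p' : ℕ → ℕ, (∀ j, slot a i j → slot a i (p j) ∧ p' (p j) = j) ∧
      (∀ j, slot a i j → slot a i (p' j) ∧ p (p' j) = j) ∧ (i0 ≤ i →
      (∀ j, slot a i j → j ∉ F → p j ∉ G) ∧ (∀ j, slot a i j → j ∉ G → p' j ∉ F) ∧
      (∀ j, slot a i j → j ∉ F → b j ≤ i → p j = b j) ∧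
      (∀ j, slot a i j → j ∉ G → b' j ≤ i → p' j = b' j)) := by
    intro i
    by_cases hi : i0 ≤ i
    · obtain ⟨p, p', h1, h2, h3⟩ := exp hb hb' i (by omega) (by omega) (hi1 i (by omega))
      exact ⟨p, p', h1, h2, fun _ => h3⟩
    · exact ⟨id, id, fun j h => ⟨h, rfl⟩, fun j h => ⟨h, rfl⟩, fun h => absurd h hi⟩
  choose p p' h1 h2 h3 using this
  have M : Mv a F G b p := mk_mv i0 (fun j hj => ⟨(hb j hj).1, (hb j hj).2.2⟩) h1
    (fun i hi => (h3 i hi).1) (fun i hi => (h3 i hi).2.2.1) (fun i hi => (h3 i hi).2.2.2)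
  have M' : Mv a G F b' p' := mk_mv i0 (fun j hj => ⟨(hb' j hj).1, (hb' j hj).2.2⟩) h2
    (fun i hi => (h3 i hi).2.1) (fun i hi => (h3 i hi).2.2.2) (fun i hi => (h3 i hi).2.2.1)
  refine emb_of (M.cont ho) (M.maps ho) (M'.cont ho) ?_
  rintro x (rfl | ⟨j, hj, rfl⟩ | ⟨j, e, he, hs, rfl⟩)
  · rw [mv_top, mv_top]
  · rw [mv_col, mv_col, (hb j hj).2.2]
  · have : e ≠ o := fun h => ho (h ▸ he)
    rw [mv_atom _ _ _ this, mv_atom _ _ _ this, (h1 _ _ hs).2]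

theorem thmA (ho : o ∉ E) (hd : Dense E) (hr : Rigid E) (ha : ∀ j, (a j).Infinite)
    (hrep : ∀ j n, ∃ j', n < j' ∧ a j' = a j) (F : Finset ℕ) {f : X a E F → K}
    (hf : IsEmbedding f) (hm : range f ⊆ X a E ∅) :
    ∃ G : Finset ℕ, range f = X a E G ∧ ∀ᶠ i in atTop, lam a G i = lam a F i := by
  classical
  let h : K → K := fun x => if hx : x ∈ X a E F then f ⟨x, hx⟩ else x
  let h' : K → K := fun y => if hy : y ∈ range f then (hf.toHomeomorph.symm ⟨y, hy⟩).1 else y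
  have hh : ∀ x : X a E F, h x = f x := fun x => dif_pos x.2
  have him : h '' X a E F = range f := by
    ext y
    constructor
    · rintro ⟨x, hx, rfl⟩
      exact ⟨⟨x, hx⟩, (hh ⟨x, hx⟩).symm⟩
    · rintro ⟨x, rfl⟩
      exact ⟨x, x.2, hh x⟩
  rw [← him]
  refine thmA' (h' := h') ho hd hr ha hrep F ?_ ?_ ?_ ?_
  · rw [continuousOn_iff_continuous_restrict]
    exact hf.continuous.congr fun x => (hh x).symm
  · rw [him, continuousOn_iff_continuous_restrict]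
    exact (continuous_subtype_val.comp hf.toHomeomorph.symm.continuous).congr
      fun y => by
        show _ = h' y
        simp only [h', dif_pos y.2]
        rfl
  · intro x hx
    have h1 : h x = f ⟨x, hx⟩ := hh ⟨x, hx⟩
    have h2 : f ⟨x, hx⟩ ∈ range f := mem_range_self _
    rw [h1]
    simp only [h', dif_pos h2]
    rw [hf.toHomeomorph_symm_apply]
  · intro x hx
    exact hm (him ▸ mem_image_of_mem h hx)

end Pool.Agent.H19.Dt
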