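import Pool.Agent.H19.DtC

set_option maxHeartbeats 400000
open Set Topology Filter Function

namespace Pool.Agent.H19.Dt

theorem exists_iota : ∃ ι : K → ℝ, IsEmbedding ι := by
  classical
  let φ : K → Cn := fun x n => if n % 2 = 0 then x.2 (n / 2) else decide (((n / 2 : ℕ) : ℕ∞) < x.1)
  have hφ : Continuous φ := by
    refine continuous_pi fun n => ?_
    by_cases h : n % 2 = 0
    · simp only [φ, h, if_true]
      exact (continuous_apply _).comp continuous_snd
    · simp only [φ, h, if_false]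
      have hcl : IsClopen (Ioi ((n / 2 : ℕ) : ℕ∞)) := by
        refine ⟨?_, isOpen_Ioi⟩
        have : Ioi ((n / 2 : ℕ) : ℕ∞) = Ici (((n / 2 : ℕ) : ℕ∞) + 1) := by
          ext y
          simp only [mem_Ioi, mem_Ici]
          exact (ENat.add_one_le_iff (ENat.coe_ne_top _)).symm
        rw [this]
        exact isClosed_Ici
      have : Continuous fun y : ℕ∞ => decide (((n / 2 : ℕ) : ℕ∞) < y) := by
        rw [continuous_bool_rng true]
        convert hcl using 1
        ext y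
        simp
      exact this.comp continuous_fst
  have hi : Injective φ := by
    intro x y h
    refine Prod.ext ?_ (funext fun k => ?_)
    · have : ∀ k : ℕ, (k : ℕ∞) < x.1 ↔ (k : ℕ∞) < y.1 := by
        intro k
        have := congrFun h (2 * k + 1)
        have e1 : (2 * k + 1) % 2 = 1 := by omega
        have e2 : (2 * k + 1) / 2 = k := by omega
        simpa [φ, e1, e2] using this
      have aux : ∀ u v : ℕ∞, (∀ k : ℕ, (k : ℕ∞) < u → (k : ℕ∞) < v) → u ≤ v := by
        intro u v huv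
        by_contra hlt
        have hlt := not_le.1 hlt
        lift v to ℕ using hlt.ne_top
        exact lt_irrefl _ (huv v hlt)
      exact le_antisymm (aux _ _ fun k hk => (this k).1 hk) (aux _ _ fun k hk => (this k).2 hk)
    · have := congrFun h (2 * k)
      simpa [φ] using this
  exact ⟨_, (IsEmbedding.subtypeVal.comp cantorSetHomeomorphNatToBool.symm.isEmbedding).comp
    (hφ.isClosedEmbedding hi).isEmbedding⟩

theorem le_range {α β : Type} [TopologicalSpace α] [TopologicalSpace β] {A : Set α} {f : A → β}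
    (hf : IsEmbedding f) : Le A (range f) ∧ Le (range f) A :=
  ⟨⟨_, hf.toHomeomorph.isEmbedding⟩, ⟨_, hf.toHomeomorph.symm.isEmbedding⟩⟩

theorem le_image {α β : Type} [TopologicalSpace α] [TopologicalSpace β] (A : Set α) {f : α → β}
    (hf : IsEmbedding f) : Le A (f '' A) ∧ Le (f '' A) A := by
  have := le_range (hf.comp (IsEmbedding.subtypeVal (p := (· ∈ A))))
  rwa [range_comp, Subtype.range_coe] at this

variable {a : ℕ → Set ℕ} {E : Set Cn}

theorem sub_of_X (ho : o ∉ E) {F G : Set ℕ} (h : X a E G ⊆ X a E F) : F ⊆ G := by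
  intro j hj
  by_contra hn
  exact (col_mem_iff ho).1 (h (col_mem hn)) hj

theorem diff_X {F G : Set ℕ} {y : K} (h1 : y ∈ X a E F) (h2 : y ∉ X a E G) :
    ∃ k : ℕ, k ∉ F ∧ k ∈ G ∧ y = ((k : ℕ∞), o) := by
  rcases h1 with rfl | ⟨k, hk, rfl⟩ | ⟨k, e, he, hs, rfl⟩
  · exact absurd (top_mem _) h2
  · exact ⟨k, hk, by_contra fun h => h2 (col_mem h), rfl⟩
  · exact absurd (atom_mem he hs) h2

theorem lam_sdiff {F G : Finset ℕ} (h : F ⊆ G) (i : ℕ) :
    lam a G i = lam a F i + lam a (G \ F) i := by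
  classical
  unfold lam
  rw [← Finset.card_union_of_disjoint, ← Finset.filter_union, Finset.union_sdiff_of_subset h]
  exact Finset.disjoint_filter_filter Finset.disjoint_sdiff

theorem thmA2 (ho : o ∉ E) (hd : Dense E) (hr : Rigid E) (ha : ∀ j, (a j).Infinite)
    (hrep : ∀ j n, ∃ j', n < j' ∧ a j' = a j) {F F' : Finset ℕ} (h : Le (X a E F) (X a E F')) :
    ∀ᶠ i in atTop, lam a F' i ≤ lam a F i := by
  obtain ⟨f, hf⟩ := h
  have hsub : range (Subtype.val ∘ f) ⊆ X a E F' := by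
    rintro _ ⟨x, rfl⟩
    exact (f x).2
  obtain ⟨G, hG, hl⟩ := thmA ho hd hr ha hrep F (IsEmbedding.subtypeVal.comp hf)
    (hsub.trans (X_anti (empty_subset _)))
  rw [hG] at hsub
  have hFG : F' ⊆ G := Finset.coe_subset.1 (sub_of_X ho hsub)
  filter_upwards [hl] with i hi
  rw [← hi, lam_sdiff hFG]
  omega

theorem freq {A : Set ℕ} (hA : A.Infinite) {p : ℕ → Prop} (hp : ∀ᶠ i in atTop, p i) :
    ∃ i ∈ A, p i := by
  obtain ⟨n, hn⟩ := eventually_atTop.1 hp
  obtain ⟨i, hi, h⟩ := hA.exists_gt n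
  exact ⟨i, hi, hn i h.le⟩

open Classical in
theorem coverK (ho : o ∉ E) (hd : Dense E) (hr : Rigid E) (ha : ∀ j, (a j).Infinite)
    (hrep : ∀ j n, ∃ j', n < j' ∧ a j' = a j) {F F' : Finset ℕ} {j0 : ℕ}
    (hl : ∀ᶠ i in atTop, lam a F i = lam a F' i + if i ∈ a j0 then 1 else 0)
    (hat : ∀ j j', (a j \ a j0).Finite → (a j' \ a j0).Finite → (a j ∩ a j').Infinite) :
    Le (X a E F) (X a E F') ∧ ¬ Le (X a E F') (X a E F) ∧
      ∀ Z : Set ℝ, Le (X a E F) Z → Le Z (X a E F') → Le Z (X a E F) ∨ Le (X a E F') Z := by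
  refine ⟨?_, fun h => ?_, ?_⟩
  · obtain ⟨j1, h1, h2⟩ := hrep j0 (F'.sup id)
    have hj : j1 ∉ F' := fun h => by
      have : j1 ≤ F'.sup id := Finset.le_sup (f := id) h
      omega
    refine (thmB (G := insert j1 F') ho hrep ?_).trans (Le.of_subset (X_anti (by simp)))
    filter_upwards [hl] with i hi
    rw [hi]
    unfold lam
    rw [Finset.filter_insert, h2]
    split_ifs
    · rw [Finset.card_insert_of_notMem (fun h => hj (Finset.mem_filter.1 h).1)]
    · rfl
  · obtain ⟨i, hi, h1, h2⟩ := freq (ha j0) ((thmA2 ho hd hr ha hrep h).and hl)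
    rw [if_pos hi] at h2
    omega
  · rintro Z ⟨f, hf⟩ ⟨g, hg⟩
    have hg' := IsEmbedding.subtypeVal.comp hg
    have s1 : range (Subtype.val ∘ g) ⊆ X a E F' := by
      rintro _ ⟨x, rfl⟩
      exact (g x).2
    have s2 : range ((Subtype.val ∘ g) ∘ f) ⊆ range (Subtype.val ∘ g) := range_comp_subset_range _ _
    obtain ⟨G, hG, hG2⟩ := thmA ho hd hr ha hrep F (hg'.comp hf)
      ((s2.trans s1).trans (X_anti (empty_subset _)))
    rw [hG] at s2
    have hFG : F' ⊆ G := Finset.coe_subset.1 (sub_of_X ho (s2.trans s1))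
    have hH : ∀ᶠ i in atTop, lam a (G \ F') i = if i ∈ a j0 then 1 else 0 := by
      filter_upwards [hl, hG2] with i h1 h2
      rw [lam_sdiff hFG] at h2
      omega
    have fin : ∀ j ∈ G \ F', (a j \ a j0).Finite := by
      intro j hj
      by_contra hinf
      obtain ⟨i, hi, h1⟩ := freq hinf hH
      rw [if_neg hi.2] at h1
      exact Finset.card_ne_zero_of_mem (Finset.mem_filter.2 ⟨hj, hi.1⟩) h1
    have uniq : ∀ j ∈ G \ F', ∀ j' ∈ G \ F', j = j' := by
      intro j hj j' hj'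
      obtain ⟨i, hi, h1⟩ := freq (hat j j' (fin j hj) (fin j' hj')) hH
      have : lam a (G \ F') i ≤ 1 := by
        rw [h1]
        split_ifs <;> omega
      exact Finset.card_le_one.1 this j (Finset.mem_filter.2 ⟨hj, hi.1⟩) j'
        (Finset.mem_filter.2 ⟨hj', hi.2⟩)
    by_cases hc : X a E F' ⊆ range (Subtype.val ∘ g)
    · exact Or.inr ((Le.of_subset hc).trans (le_range hg').2)
    · left
      obtain ⟨y, hy1, hy2⟩ := not_subset.1 hc
      obtain ⟨k, hk1, hk2, rfl⟩ := diff_X hy1 fun h => hy2 (s2 h)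
      have s3 : range (Subtype.val ∘ g) ⊆ X a E G := by
        intro z hz
        by_contra hn
        obtain ⟨k', hk1', hk2', rfl⟩ := diff_X (s1 hz) hn
        have := uniq k (Finset.mem_sdiff.2 ⟨hk2, hk1⟩) k' (Finset.mem_sdiff.2 ⟨hk2', hk1'⟩)
        exact hy2 (this ▸ hz)
      exact ((le_range hg').1.trans (Le.of_subset s3)).trans (thmB ho hrep hG2)

/-- Immediate predecessor. -/
def Cov (A B : Set ℝ) : Prop :=
  (Le A B ∧ ¬ Le B A) ∧ ¬ ∃ Z : Set ℝ, (Le A Z ∧ ¬ Le Z A) ∧ (Le Z B ∧ ¬ Le B Z)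

open Classical in
noncomputable def mu {Cl : Type} (s : Cl → Set ℕ) (F : Finset Cl) (i : ℕ) : ℕ :=
  (F.filter fun u => i ∈ s u).card

open Classical in
theorem main (Cl : Type) [Countable Cl] [Nonempty Cl] (s : Cl → Set ℕ)
    (hs : ∀ u, (s u).Infinite) : ∃ Φ : Finset Cl → Set ℝ,
      (∀ F, F.Nonempty → Le (Φ F) (Φ ∅) ∧ ¬ Le (Φ ∅) (Φ F)) ∧
      ∀ F G u, (∀ i, mu s F i = mu s G i + if i ∈ s u then 1 else 0) →
        (∀ v w, (s v \ s u).Finite → (s w \ s u).Finite → (s v ∩ s w).Infinite) →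
        Cov (Φ F) (Φ G) := by
  obtain ⟨E, ho, hd, hr⟩ := exists_rigid
  obtain ⟨ι, hι⟩ := exists_iota
  obtain ⟨q⟩ : Nonempty (ℕ ≃ Cl × ℕ) := nonempty_equiv_of_countable
  let a : ℕ → Set ℕ := fun j => s (q j).1
  have ha : ∀ j, (a j).Infinite := fun j => hs _
  have hrep : ∀ j n, ∃ j', n < j' ∧ a j' = a j := by
    intro j n
    have : (range fun m : ℕ => q.symm ((q j).1, m)).Infinite :=
      infinite_range_of_injective fun m m' h => by simpa using h
    obtain ⟨_, ⟨m, rfl⟩, h⟩ := this.exists_gt n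
    exact ⟨_, h, by simp [a]⟩
  let r : Cl ↪ ℕ := ⟨fun u => q.symm (u, 0), fun u v h => by simpa using h⟩
  have har : ∀ u, a (r u) = s u := fun u => by simp [a, r]
  have hlam : ∀ F i, lam a (Finset.map r F) i = mu s F i := by
    intro F i
    unfold lam mu
    rw [Finset.filter_map, Finset.card_map]
    congr 1
    ext u
    simp [har]
  let Y : Finset Cl → Set K := fun F => X a E (Finset.map r F)
  have t1 : ∀ F, Le (Y F) (ι '' Y F) := fun F => (le_image _ hι).1
  have t2 : ∀ F, Le (ι '' Y F) (Y F) := fun F => (le_image _ hι).2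
  refine ⟨fun F => ι '' Y F, fun F hF => ⟨?_, fun h => ?_⟩, fun F G u h1 h2 => ?_⟩
  · exact Le.of_subset (image_mono (X_anti (by simp)))
  · obtain ⟨u, hu⟩ := hF
    obtain ⟨i, hi, h1⟩ := freq (hs u) (thmA2 ho hd hr ha hrep (((t1 _).trans h).trans (t2 _)))
    rw [hlam, hlam] at h1
    have h2 : mu s ∅ i = 0 := by simp [mu]
    exact Finset.card_ne_zero_of_mem (Finset.mem_filter.2 ⟨hu, hi⟩) (Nat.le_zero.1 (h2 ▸ h1))
  · obtain ⟨c1, c2, c3⟩ := coverK (F := F.map r) (F' := G.map r) (j0 := r u) ho hd hr ha hrep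
      (.of_forall fun i => by rw [hlam, hlam, har, h1]) (fun j j' => by rw [har]; exact h2 _ _)
    refine ⟨⟨((t2 _).trans c1).trans (t1 _), fun h => c2 (((t1 _).trans h).trans (t2 _))⟩, ?_⟩
    rintro ⟨Z, ⟨z1, z2⟩, z3, z4⟩
    rcases c3 Z ((t1 _).trans z1) (z3.trans (t2 _)) with h | h
    · exact z2 (h.trans (t1 _))
    · exact z4 ((t2 _).trans h)

end Pool.Agent.H19.Dt
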