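import Pool.Agent.H19.DtD

set_option maxHeartbeats 400000
open Set Topology Filter Function

namespace Pool.Agent.H19.Dt

theorem exblk : ∃ (blk : ℕ → ℕ) (par : ℕ → Bool), ∀ k ε (A : Set ℕ),
    (∀ i, blk i = k → par i = ε → i ∈ A) → A.Infinite := by
  obtain ⟨r⟩ : Nonempty (ℕ ≃ ℕ × Bool × ℕ) := nonempty_equiv_of_countable
  refine ⟨fun i => (r i).1, fun i => (r i).2.1, fun k ε A h => ?_⟩
  refine infinite_of_injective_forall_mem (f := fun n : ℕ => r.symm (k, ε, n))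
    (fun m m' h => by simpa using h) fun n => h _ (by simp) (by simp)

open Classical in
theorem mu_pair {Cl : Type} [DecidableEq Cl] (s : Cl → Set ℕ) {u v : Cl} (h : u ≠ v) (i : ℕ) :
    mu s {u, v} i = (if i ∈ s u then 1 else 0) + if i ∈ s v then 1 else 0 := by
  unfold mu
  rw [Finset.card_filter, Finset.sum_pair h]

open Classical in
theorem mu_one {Cl : Type} (s : Cl → Set ℕ) (u : Cl) (i : ℕ) :
    mu s {u} i = if i ∈ s u then 1 else 0 := by
  unfold mu
  rw [Finset.card_filter, Finset.sum_singleton]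

theorem mu_empty {Cl : Type} (s : Cl → Set ℕ) (i : ℕ) : mu s ∅ i = 0 := by simp [mu]

open Classical in
theorem chain_inf : ∃ (A B C : Set ℝ) (S : ℕ → Set ℝ), Cov A B ∧ Cov B C ∧ Cov A (S 0) ∧
    (∀ n, Cov (S n) (S (n + 1))) ∧ ∀ n, Le (S n) C ∧ ¬ Le C (S n) := by
  obtain ⟨blk, par, hb⟩ := exblk
  have hb' : ∀ k ε (A B : Set ℕ), (A \ B).Finite →
      (∀ i, blk i = k → par i = ε → i ∈ A ∧ i ∉ B) → False := fun k ε A B h h' => hb k ε _ h' h
  let s : ℕ ⊕ (ℕ × Bool) → Set ℕ := Sum.elim (fun k => {i | blk i = k})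
    fun p => {i | p.1 ≤ blk i ∧ par i = p.2}
  have hs : ∀ u, (s u).Infinite := by
    rintro (k | ⟨n, ε⟩)
    · exact hb k true _ fun i h _ => h
    · exact hb n ε _ fun i h1 h2 => ⟨h1.ge, h2⟩
  obtain ⟨Φ, h1, h2⟩ := main _ s hs
  let T : ℕ → Finset (ℕ ⊕ (ℕ × Bool)) := fun n => {Sum.inr (n, false), Sum.inr (n, true)}
  have at1 : ∀ k v, (s v \ s (Sum.inl k)).Finite → v = Sum.inl k := by
    rintro k (m | ⟨n, ε⟩) h
    · by_contra hne
      refine hb' m true _ _ h (fun i h1 _ => ⟨h1, fun h2 => hne ?_⟩)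
      rw [← h1, show blk i = k from h2]
    · refine (hb' (n + k + 1) ε _ _ h (fun i h1 h2 => ⟨⟨?_, h2⟩, fun h3 => ?_⟩)).elim
      · show n ≤ blk i
        omega
      · have : blk i = k := h3
        omega
  have at2 : ∀ ε v, (s v \ s (Sum.inr (0, ε))).Finite → ∃ n, v = Sum.inr (n, ε) := by
    rintro ε (m | ⟨n, δ⟩) h
    · refine (hb' m (!ε) _ _ h (fun i h1 h2 => ⟨h1, fun h3 => ?_⟩)).elim
      have : par i = ε := h3.2
      simp [this] at h2
    · by_contra hne
      refine hb' n δ _ _ h (fun i h1 h2 => ⟨⟨h1.ge, h2⟩, fun h3 => hne ⟨n, ?_⟩⟩)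
      rw [← h2, show par i = ε from h3.2]
  have A1 : ∀ k v w, (s v \ s (Sum.inl k)).Finite → (s w \ s (Sum.inl k)).Finite →
      (s v ∩ s w).Infinite := by
    intro k v w hv hw
    rw [at1 k v hv, at1 k w hw, inter_self]
    exact hs _
  have A2 : ∀ ε v w, (s v \ s (Sum.inr (0, ε))).Finite → (s w \ s (Sum.inr (0, ε))).Finite →
      (s v ∩ s w).Infinite := by
    intro ε v w hv hw
    obtain ⟨n, rfl⟩ := at2 ε v hv
    obtain ⟨m, rfl⟩ := at2 ε w hw
    refine hb (n + m) ε _ fun i h1 h2 => ⟨⟨?_, h2⟩, ⟨?_, h2⟩⟩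
    · show n ≤ blk i
      omega
    · show m ≤ blk i
      omega
  have step : ∀ n, Cov (Φ (T n)) (Φ (T (n + 1))) := by
    intro n
    refine h2 _ _ (Sum.inl n) (fun i => ?_) (A1 n)
    simp only [T]
    rw [mu_pair s (by simp), mu_pair s (by simp)]
    simp only [s, Sum.elim_inr, Sum.elim_inl, mem_setOf_eq]
    cases par i <;> simp <;> split_ifs <;> omega
  refine ⟨Φ (T 0), Φ {Sum.inr (0, true)}, Φ ∅, fun n => Φ (T (n + 1)), ?_, ?_, step 0,
    fun n => step (n + 1), fun n => h1 _ (by simp [T])⟩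
  · refine h2 _ _ (Sum.inr (0, false)) (fun i => ?_) (A2 _)
    simp only [T]
    rw [mu_pair s (by simp), mu_one, add_comm]
  · refine h2 _ _ (Sum.inr (0, true)) (fun i => ?_) (A2 _)
    rw [mu_one, mu_empty, zero_add]

open Classical in
theorem chain_fin (N : ℕ) (hN : 1 < N) : ∃ (A B C : Set ℝ) (S : ℕ → Set ℝ), Cov A B ∧ Cov B C ∧
    Cov A (S 1) ∧ (∀ i, 1 ≤ i → i < N → Cov (S i) (S (i + 1))) ∧ Cov (S N) C := by
  obtain ⟨blk, par, hb⟩ := exblk
  have hb' : ∀ k ε (A B : Set ℕ), (A \ B).Finite →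
      (∀ i, blk i = k → par i = ε → i ∈ A ∧ i ∉ B) → False := fun k ε A B h h' => hb k ε _ h' h
  let s : ℕ ⊕ Bool → Set ℕ := Sum.elim (fun k => {i | blk i = k})
    fun ε => {i | blk i ≤ N ∧ par i = ε}
  have hs : ∀ u, (s u).Infinite := by
    rintro (k | ε)
    · exact hb k true _ fun i h _ => h
    · exact hb N ε _ fun i h1 h2 => ⟨h1.le, h2⟩
  obtain ⟨Φ, -, h2⟩ := main _ s hs
  let T : ℕ → Finset (ℕ ⊕ Bool) := fun n => (Finset.Icc n N).map Embedding.inl
  have hT : ∀ n i, mu s (T n) i = if n ≤ blk i ∧ blk i ≤ N then 1 else 0 := by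
    intro n i
    unfold mu
    simp only [T]
    rw [Finset.filter_map, Finset.card_map]
    have : (Finset.filter ((fun u => i ∈ s u) ∘ (Embedding.inl : ℕ ↪ ℕ ⊕ Bool)) (Finset.Icc n N)) =
        Finset.filter (fun k => k = blk i) (Finset.Icc n N) := by
      ext k
      simp [s, eq_comm]
    rw [this, Finset.filter_eq']
    simp only [Finset.mem_Icc]
    split_ifs <;> simp
  have at1 : ∀ k v, (s v \ s (Sum.inl k)).Finite → v = Sum.inl k := by
    rintro k (m | ε) h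
    · by_contra hne
      refine hb' m true _ _ h (fun i h1 _ => ⟨h1, fun h2 => hne ?_⟩)
      rw [← h1, show blk i = k from h2]
    · refine (hb' (if k = 0 then 1 else 0) ε _ _ h
        (fun i h1 h2 => ⟨⟨?_, h2⟩, fun h3 => ?_⟩)).elim
      · show blk i ≤ N
        split_ifs at h1 <;> omega
      · have : blk i = k := h3
        split_ifs at h1 <;> omega
  have at2 : ∀ ε v, (s v \ s (Sum.inr ε)).Finite → v = Sum.inr ε := by
    rintro ε (m | δ) h
    · refine (hb' m (!ε) _ _ h (fun i h1 h2 => ⟨h1, fun h3 => ?_⟩)).elim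
      have : par i = ε := h3.2
      simp [this] at h2
    · by_contra hne
      refine hb' N δ _ _ h (fun i h1 h2 => ⟨⟨h1.le, h2⟩, fun h3 => hne ?_⟩)
      rw [← h2, show par i = ε from h3.2]
  have A1 : ∀ k v w, (s v \ s (Sum.inl k)).Finite → (s w \ s (Sum.inl k)).Finite →
      (s v ∩ s w).Infinite := by
    intro k v w hv hw
    rw [at1 k v hv, at1 k w hw, inter_self]
    exact hs _
  have A2 : ∀ ε v w, (s v \ s (Sum.inr ε)).Finite → (s w \ s (Sum.inr ε)).Finite →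
      (s v ∩ s w).Infinite := by
    intro k v w hv hw
    rw [at2 k v hv, at2 k w hw, inter_self]
    exact hs _
  refine ⟨Φ {Sum.inr false, Sum.inr true}, Φ {Sum.inr true}, Φ ∅, fun n => Φ (T n), ?_, ?_, ?_,
    fun n _ hn => ?_, ?_⟩
  · refine h2 _ _ (Sum.inr false) (fun i => ?_) (A2 _)
    rw [mu_pair s (by simp), mu_one, add_comm]
  · refine h2 _ _ (Sum.inr true) (fun i => ?_) (A2 _)
    rw [mu_one, mu_empty, zero_add]
  · refine h2 _ _ (Sum.inl 0) (fun i => ?_) (A1 _)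
    rw [mu_pair s (by simp), hT]
    simp only [s, Sum.elim_inr, Sum.elim_inl, mem_setOf_eq]
    cases par i <;> simp <;> split_ifs <;> omega
  · refine h2 _ _ (Sum.inl n) (fun i => ?_) (A1 _)
    rw [hT, hT]
    simp only [s, Sum.elim_inl, mem_setOf_eq]
    split_ifs <;> omega
  · refine h2 _ _ (Sum.inl N) (fun i => ?_) (A1 _)
    rw [hT, mu_empty]
    simp only [s, Sum.elim_inl, mem_setOf_eq]
    split_ifs <;> omega

end Pool.Agent.H19.Dt
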