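import Pool.Agent.H19.LsA

/-! The Alexandroff duplicate of a countably compact space is `l`-equivalent to a wedge. -/

namespace Pool.Agent.H19.Dup

open Set Filter Topology OnePoint Pool.Agent.H19.Ls

/-- A discrete copy. -/
@[ext] structure Dd (R : Type) where
  pt : R

instance (R : Type) : TopologicalSpace (Dd R) := ⊥
instance (R : Type) : DiscreteTopology (Dd R) := ⟨rfl⟩

variable {R : Type} [TopologicalSpace R]

/-- The wedge of the one-point compactification of the discrete copy and `R`. -/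
abbrev Wd (x0 : R) := {z : OnePoint (Dd R) × R // z.1 = ∞ ∨ z.2 = x0}

/-- The Alexandroff duplicate. -/
abbrev AD (R : Type) [TopologicalSpace R] :=
  {z : OnePoint (Dd R) × R // z.1 = ∞ ∨ z.1 = ((⟨z.2⟩ : Dd R) : OnePoint (Dd R))}

/-- The jump of a function on the duplicate. -/
noncomputable def jump (g : C(AD R, ℝ)) (t : OnePoint (Dd R)) : ℝ :=
  t.elim 0 fun γ => g ⟨(γ, γ.pt), Or.inr rfl⟩ - g ⟨(∞, γ.pt), Or.inl rfl⟩

lemma jump_cont (hR : ∀ a : ℕ → R, ∃ x, Tendsto a (hyperfilter ℕ) (𝓝 x)) (g : C(AD R, ℝ)) :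
    Continuous (jump g) := by
  rw [continuous_iff_from_discrete, Metric.tendsto_nhds]
  intro ε hε
  by_contra h
  rw [eventually_cofinite] at h
  set a := Set.Infinite.natEmbedding _ h with ha
  obtain ⟨x, hx⟩ := hR fun n => (a n).1.pt
  have h1 : Tendsto (fun n => (((a n).1 : Dd R) : OnePoint (Dd R))) (hyperfilter ℕ) (𝓝 ∞) := by
    refine tendsto_coe_infty.comp ?_
    rw [coclosedCompact_eq_cocompact, cocompact_eq_cofinite]
    exact ((Subtype.val_injective.comp a.injective).tendsto_cofinite).mono_left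
      hyperfilter_le_cofinite
  have h2 : Tendsto (fun n => (⟨((a n).1, (a n).1.pt), Or.inr rfl⟩ : AD R)) (hyperfilter ℕ)
      (𝓝 ⟨(∞, x), Or.inl rfl⟩) := tendsto_subtype_rng.2 (h1.prodMk_nhds hx)
  have h3 : Tendsto (fun n => (⟨(∞, (a n).1.pt), Or.inl rfl⟩ : AD R)) (hyperfilter ℕ)
      (𝓝 ⟨(∞, x), Or.inl rfl⟩) := tendsto_subtype_rng.2 (tendsto_const_nhds.prodMk_nhds hx)
  have h4 := ((g.continuous.tendsto _).comp h2).sub ((g.continuous.tendsto _).comp h3)
  rw [sub_self, Metric.tendsto_nhds] at h4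
  obtain ⟨n, hn⟩ := (h4 ε hε).exists
  exact (a n).2 hn

theorem lequiv (hR : ∀ a : ℕ → R, ∃ x, Tendsto a (hyperfilter ℕ) (𝓝 x)) (x0 : R) :
    ∃ T : C(Wd x0, ℝ) ≃ₗ[ℝ] C(AD R, ℝ), PC T ∧ PC T.symm := by
  set a : C(AD R, Wd x0) := ⟨fun z => ⟨(∞, z.1.2), Or.inl rfl⟩, by fun_prop⟩ with ha
  set b : C(AD R, Wd x0) := ⟨fun _ => ⟨(∞, x0), Or.inl rfl⟩, by fun_prop⟩ with hb
  set c : C(AD R, Wd x0) := ⟨fun z => ⟨(z.1.1, x0), Or.inr rfl⟩, by fun_prop⟩ with hc
  set S : C(AD R, ℝ) →ₗ[ℝ] C(Wd x0, ℝ) :=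
    { toFun := fun g => ⟨fun z => g ⟨(∞, z.1.2), Or.inl rfl⟩ + jump g z.1.1,
        (g.continuous.comp (by fun_prop)).add ((jump_cont hR g).comp (by fun_prop))⟩
      map_add' := fun f g => by
        ext ⟨⟨t, x⟩, h⟩
        induction t using OnePoint.rec with
        | infty => simp [jump]
        | coe γ => simp [jump]; ring
      map_smul' := fun r g => by
        ext ⟨⟨t, x⟩, h⟩
        induction t using OnePoint.rec with
        | infty => simp [jump]
        | coe γ => simp [jump]; ring } with hS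
  refine ⟨LinearEquiv.ofLinear (comb a b c) S ?_ ?_, pc_comb _ _ _, ?_⟩
  · refine LinearMap.ext fun g => ?_
    ext ⟨⟨t, x⟩, h⟩
    induction t using OnePoint.rec with
    | infty => simp [comb, hS, ha, hb, hc, jump]
    | coe γ =>
      have h1 : γ = ⟨x⟩ := by simpa using h
      subst h1
      simp [comb, hS, ha, hb, hc, jump]
      ring
  · refine LinearMap.ext fun f => ?_
    ext ⟨⟨t, x⟩, h⟩
    induction t using OnePoint.rec with
    | infty => simp [comb, hS, ha, hb, hc, jump]
    | coe γ =>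
      have h1 : x = x0 := by simpa using h
      subst h1
      simp [comb, hS, ha, hb, hc, jump]
      ring
  · letI : TopologicalSpace C(AD R, ℝ) :=
      TopologicalSpace.induced (fun f : C(AD R, ℝ) => (f : AD R → ℝ)) inferInstance
    have h : ∀ x, Continuous fun f : C(AD R, ℝ) => f x := fun x =>
      (continuous_apply x).comp continuous_induced_dom
    refine continuous_induced_rng.2 (continuous_pi ?_)
    rintro ⟨⟨t, x⟩, h'⟩
    induction t using OnePoint.rec with
    | infty => exact (h _).add continuous_const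
    | coe γ => exact (h _).add ((h _).sub (h _))

lemma sigma_of_AD {S : Set (AD R)} (hd : Dense S) (hs : IsSigmaCompact S) :
    IsSigmaCompact (univ : Set R) := by
  have h1 : (fun z : AD R => z.1.2) '' S = univ := by
    refine eq_univ_of_forall fun x => ?_
    have h2 : IsOpen {z : AD R | z.1.1 = ((⟨x⟩ : Dd R) : OnePoint (Dd R))} := by
      have h3 : IsOpen ({((⟨x⟩ : Dd R) : OnePoint (Dd R))} : Set (OnePoint (Dd R))) := by
        rw [← image_singleton]
        exact isOpen_image_coe.2 (isOpen_discrete _)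
      exact h3.preimage (f := fun z : AD R => z.1.1) (by fun_prop)
    obtain ⟨z, hz, hzS⟩ := hd.inter_open_nonempty _ h2 ⟨⟨(_, x), Or.inr rfl⟩, rfl⟩
    refine ⟨z, hzS, ?_⟩
    have h3 := z.2
    rw [show z.1.1 = _ from hz] at h3
    have h4 : x = z.1.2 := by simpa using h3
    exact h4.symm
  rw [← h1]
  exact hs.image (by fun_prop)

lemma ksep_wedge (x0 : R) {S : Set R} (hd : Dense S) (hs : IsSigmaCompact S) :
    ∃ S' : Set (Wd x0), Dense S' ∧ IsSigmaCompact S' := by
  set i : R → Wd x0 := fun x => ⟨(∞, x), Or.inl rfl⟩ with hi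
  set j : OnePoint (Dd R) → Wd x0 := fun t => ⟨(t, x0), Or.inr rfl⟩ with hj
  have hic : Continuous i := by fun_prop
  have hjc : Continuous j := by fun_prop
  refine ⟨i '' S ∪ range j, ?_, ?_⟩
  · rintro ⟨⟨t, x⟩, h⟩
    rcases id h with h1 | h1
    · obtain rfl : t = ∞ := h1
      exact closure_mono subset_union_left
        (image_closure_subset_closure_image hic (mem_image_of_mem i (hd x)))
    · obtain rfl : x = x0 := h1
      exact subset_closure (Or.inr ⟨t, rfl⟩)
  · rw [union_eq_iUnion]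
    refine isSigmaCompact_iUnion _ fun b => ?_
    cases b
    · exact (isCompact_range hjc).isSigmaCompact
    · exact hs.image hic

/-- The `Σ`-product. -/
abbrev Sg := {x : ℝ → Bool // {r | x r = true}.Countable}

lemma Sg_cc (a : ℕ → Sg) : ∃ x, Tendsto a (hyperfilter ℕ) (𝓝 x) := by
  obtain ⟨y, -, hy⟩ := isCompact_univ.ultrafilter_le_nhds
    ((hyperfilter ℕ).map fun n => (a n).1) (by simp)
  have hy' : Tendsto (fun n => (a n).1) (hyperfilter ℕ) (𝓝 y) := hy
  refine ⟨⟨y, (countable_iUnion fun n => (a n).2).mono fun r hr => ?_⟩, tendsto_subtype_rng.2 hy'⟩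
  have h1 := tendsto_pi_nhds.1 hy' r
  rw [nhds_discrete, tendsto_pure] at h1
  obtain ⟨n, hn⟩ := h1.exists
  exact mem_iUnion.2 ⟨n, hn.trans hr⟩

lemma Sg_not_sigma : ¬ IsSigmaCompact (univ : Set Sg) := by
  classical
  rintro ⟨K, hK, hKu⟩
  have h1 : ∀ n, ∃ F : Set ℝ, F.Finite ∧ ∀ x ∈ K n, ∃ r ∈ F, x.1 r ≠ true := by
    intro n
    have h2 : (Subtype.val '' K n)ᶜ ∈ 𝓝 (fun _ : ℝ => true) := by
      refine ((hK n).image continuous_subtype_val).isClosed.isOpen_compl.mem_nhds ?_
      rintro ⟨x, -, hx⟩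
      have := x.2
      rw [hx] at this
      exact not_countable_univ (by simpa using this)
    rw [nhds_pi, Filter.mem_pi] at h2
    obtain ⟨F, hF, W, hW, hWV⟩ := h2
    refine ⟨F, hF, fun x hx => ?_⟩
    by_contra h3
    push Not at h3
    exact hWV (fun r hr => by rw [h3 r hr]; exact mem_of_mem_nhds (hW r)) ⟨x, hx, rfl⟩
  choose F hF hF' using h1
  obtain ⟨n, hn⟩ := mem_iUnion.1 (hKu.ge (mem_univ (⟨fun r => decide (r ∈ ⋃ n, F n),
    (countable_iUnion fun n => (hF n).countable).mono fun r hr => of_decide_eq_true hr⟩ : Sg)))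
  obtain ⟨r, hr, h⟩ := hF' n _ hn
  exact h (decide_eq_true (mem_iUnion.2 ⟨n, hr⟩))

lemma Sg_ksep : ∃ S : Set Sg, Dense S ∧ IsSigmaCompact S := by
  classical
  refine ⟨⋃ n : ℕ, {x | ∀ t : Fin (n + 1) → ℝ, (∀ i, x.1 (t i) = true) → ¬ Function.Injective t},
    fun x => ?_, ⟨_, fun n => ?_, rfl⟩⟩
  · refine mem_closure_of_tendsto (b := atTop) (f := fun E : Finset ℝ =>
      (⟨fun r => decide (r ∈ E) && x.1 r, E.countable_toSet.mono fun r hr => by
        simp only [mem_setOf_eq, Bool.and_eq_true, decide_eq_true_eq] at hr; exact hr.1⟩ : Sg))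
      ?_ (Eventually.of_forall fun E => mem_iUnion.2 ⟨E.card, fun t ht hi => ?_⟩)
    · rw [tendsto_subtype_rng, tendsto_pi_nhds]
      intro r
      refine tendsto_const_nhds.congr' ((eventually_ge_atTop {r}).mono fun E hE => ?_)
      have : r ∈ E := by simpa using hE
      simp [this]
    · have h1 := Finset.card_le_card_of_injOn (s := Finset.univ) (t := E) t
        (fun i _ => by
          have := ht i
          simp only [Bool.and_eq_true, decide_eq_true_eq] at this
          exact this.1) hi.injOn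
      simp at h1
  · rw [Subtype.isCompact_iff]
    apply IsClosed.isCompact
    have : Subtype.val '' {x : Sg | ∀ t : Fin (n + 1) → ℝ, (∀ i, x.1 (t i) = true) →
        ¬ Function.Injective t} = ⋂ t : Fin (n + 1) → ℝ, (fun (x : ℝ → Bool) i => x (t i)) ⁻¹'
          {y | (∀ i, y i = true) → ¬ Function.Injective t} := by
      ext x
      simp only [mem_image, mem_setOf_eq, mem_iInter, mem_preimage]
      constructor
      · rintro ⟨y, hy, rfl⟩; exact hy
      · intro h
        refine ⟨⟨x, Set.Finite.countable ?_⟩, h, rfl⟩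
        by_contra h1
        set a := Set.Infinite.natEmbedding _ h1
        exact h (fun i => (a i).1) (fun i => (a i).2)
          ((Subtype.val_injective.comp a.injective).comp Fin.val_injective)
    rw [this]
    exact isClosed_iInter fun t => (isClosed_discrete _).preimage (by fun_prop)

end Pool.Agent.H19.Dup
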