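import Mathlib

/-! The tree of well ordered sets of rationals under end extension. -/

namespace Pool.Agent.H19.Eb

open Set Filter

/-- Well ordered sets of rationals. -/
@[ext] structure Nd where
  s : Set ℚ
  wo : ∀ A ⊆ s, A.Nonempty → ∃ m ∈ A, ∀ x ∈ A, m ≤ x

/-- End extension. -/
def Ext (a b : Nd) : Prop := a.s ⊆ b.s ∧ ∀ x ∈ b.s, ∀ y ∈ a.s, x ≤ y → x ∈ a.s

lemma Ext.refl (a : Nd) : Ext a a := ⟨Subset.rfl, fun _ hx _ _ _ => hx⟩

lemma Ext.trans {a b c : Nd} (h : Ext a b) (h' : Ext b c) : Ext a c :=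
  ⟨h.1.trans h'.1, fun x hx y hy hxy => h.2 x (h'.2 x hx y (h.1 hy) hxy) y hy hxy⟩

lemma Ext.total {a b u : Nd} (h : Ext a u) (h' : Ext b u) : Ext a b ∨ Ext b a := by
  by_cases hab : a.s ⊆ b.s
  · exact Or.inl ⟨hab, fun x hx y hy hxy => h.2 x (h'.1 hx) y hy hxy⟩
  · obtain ⟨y, hy, hyb⟩ := not_subset.1 hab
    refine Or.inr ⟨fun x hx => ?_, fun x hx y hy hxy => h'.2 x (h.1 hx) y hy hxy⟩
    rcases le_total y x with h1 | h1
    · exact absurd (h'.2 y (h.1 hy) x hx h1) hyb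
    · exact h.2 x (h'.1 hx) y hy h1

/-- The initial segment below `x`. -/
def cut (u : Nd) (x : ℚ) : Nd :=
  ⟨{y | y ∈ u.s ∧ y < x}, fun A hA hne => u.wo A (fun _ hy => (hA hy).1) hne⟩

lemma exists_cut {a u : Nd} (h : Ext a u) (hne : a ≠ u) : ∃ x ∈ u.s, a = cut u x := by
  have : (u.s \ a.s).Nonempty := by
    by_contra h1
    rw [not_nonempty_iff_eq_empty, diff_eq_empty] at h1
    exact hne (Nd.ext (h.1.antisymm h1))
  obtain ⟨x, hx, hmin⟩ := u.wo _ diff_subset this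
  refine ⟨x, hx.1, Nd.ext ?_⟩
  ext y
  constructor
  · intro hy
    refine ⟨h.1 hy, ?_⟩
    by_contra h1
    exact hx.2 (h.2 x hx.1 y hy (not_lt.1 h1))
  · rintro ⟨hy, hyx⟩
    by_contra h1
    exact absurd (hmin y ⟨hy, h1⟩) (not_le.2 hyx)

lemma cut_eq {a u : Nd} (h : Ext a u) {x : ℚ} (hx : x ∈ a.s) : cut a x = cut u x := by
  apply Nd.ext
  ext y
  exact ⟨fun hy => ⟨h.1 hy.1, hy.2⟩, fun hy => ⟨h.2 y hy.1 x hx hy.2.le, hy.2⟩⟩

lemma exists_sup (C : Set Nd) (hC : ∀ a ∈ C, ∀ b ∈ C, Ext a b ∨ Ext b a) :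
    ∃ u : Nd, (∀ a ∈ C, Ext a u) ∧ ∀ x ∈ u.s, ∃ a ∈ C, x ∈ a.s := by
  refine ⟨⟨{x | ∃ a ∈ C, x ∈ a.s}, ?_⟩, ?_, fun x hx => hx⟩
  · rintro A hA ⟨y, hy⟩
    obtain ⟨a, ha, hya⟩ := hA hy
    obtain ⟨m, hm, hmin⟩ := a.wo (A ∩ a.s) inter_subset_right ⟨y, hy, hya⟩
    refine ⟨m, hm.1, fun x hx => ?_⟩
    obtain ⟨b, hb, hxb⟩ := hA hx
    rcases le_total m x with h1 | h1
    · exact h1
    · rcases hC a ha b hb with h2 | h2
      · exact hmin x ⟨hx, h2.2 x hxb m hm.2 h1⟩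
      · exact hmin x ⟨hx, h2.1 hxb⟩
  · intro a ha
    refine ⟨fun x hx => ⟨a, ha, hx⟩, ?_⟩
    rintro x ⟨b, hb, hxb⟩ y hy hxy
    rcases hC a ha b hb with h2 | h2
    · exact h2.2 x hxb y hy hxy
    · exact h2.1 hxb

lemma exists_fiber {ι κ : Type*} [Countable κ] {J : Set ι} (hJ : ¬ J.Countable) (f : ι → κ) :
    ∃ k, ¬ {i | i ∈ J ∧ f i = k}.Countable := by
  by_contra h
  push Not at h
  apply hJ
  refine (countable_iUnion h).mono fun i hi => ?_
  exact mem_iUnion.2 ⟨f i, hi, rfl⟩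

lemma antichain {ι : Type*} {J : Set ι} (hJ : ¬ J.Countable) (t : ι → Nd) (ht : InjOn t J) :
    ∃ J' ⊆ J, ¬ J'.Countable ∧ ∀ u, {i | i ∈ J' ∧ Ext (t i) u}.Subsingleton := by
  by_cases hM : {i | i ∈ J ∧ ∀ j ∈ J, Ext (t i) (t j) → j = i}.Countable
  · have h1 : ¬ (J \ {i | i ∈ J ∧ ∀ j ∈ J, Ext (t i) (t j) → j = i}).Countable := by
      intro h
      apply hJ
      refine (h.union hM).mono fun i hi => ?_
      by_cases h2 : i ∈ {i | i ∈ J ∧ ∀ j ∈ J, Ext (t i) (t j) → j = i}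
      · exact Or.inr h2
      · exact Or.inl ⟨hi, h2⟩
    set J1 := J \ {i | i ∈ J ∧ ∀ j ∈ J, Ext (t i) (t j) → j = i} with hJ1
    have h2 : ∀ i, ∃ p : ι × ℚ, i ∈ J1 → p.1 ∈ J ∧ p.2 ∈ (t p.1).s ∧ t i = cut (t p.1) p.2 := by
      intro i
      by_cases hi : i ∈ J1
      · have h3 := hi.2
        simp only [mem_setOf_eq, not_and, not_forall] at h3
        obtain ⟨j, hj, h4, h5⟩ := h3 hi.1
        obtain ⟨x, hx, h6⟩ := exists_cut h4 (fun h => h5 (ht hi.1 hj h).symm)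
        exact ⟨(j, x), fun _ => ⟨hj, hx, h6⟩⟩
      · exact ⟨(i, 0), fun h => absurd h hi⟩
    choose p hp using h2
    obtain ⟨x, hx⟩ := exists_fiber h1 (fun i => (p i).2)
    have key : ∀ i ∈ {i | i ∈ J1 ∧ (p i).2 = x}, ∀ j ∈ {i | i ∈ J1 ∧ (p i).2 = x}, ∀ u,
        Ext (t (p i).1) u → Ext (t (p j).1) u → i = j := by
      rintro i ⟨hi, hix⟩ j ⟨hj, hjx⟩ u h3 h4
      apply ht hi.1 hj.1
      rw [(hp i hi).2.2, (hp j hj).2.2, cut_eq h3 (hp i hi).2.1, cut_eq h4 (hp j hj).2.1, hix, hjx]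
    refine ⟨(fun i => (p i).1) '' {i | i ∈ J1 ∧ (p i).2 = x}, ?_, ?_, ?_⟩
    · rintro _ ⟨i, hi, rfl⟩; exact (hp i hi.1).1
    · intro h
      apply hx
      refine countable_of_injective_of_countable_image ?_ h
      intro i hi j hj hij
      exact key i hi j hj _ (Ext.refl _) (by
        have : (p i).1 = (p j).1 := hij
        rw [this]; exact Ext.refl _)
    · rintro u _ ⟨⟨i, hi, rfl⟩, h3⟩ _ ⟨⟨j, hj, rfl⟩, h4⟩
      rw [key i hi j hj u h3 h4]
  · refine ⟨_, fun i hi => hi.1, hM, ?_⟩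
    rintro u i ⟨hi, h3⟩ j ⟨hj, h4⟩
    rcases h3.total h4 with h5 | h5
    · exact (hi.2 j hj.1 h5).symm
    · exact hj.2 i hi.1 h5

lemma thin_extract {ι : Type*} (m : ℕ) : ∀ {J : Set ι} (_ : ¬ J.Countable) (a : ι → Set Nd)
    (_ : J.PairwiseDisjoint a) (_ : ∀ i ∈ J, (a i).encard ≤ m),
    ∃ J' ⊆ J, ¬ J'.Countable ∧ ∀ u, {i | i ∈ J' ∧ ∃ t ∈ a i, Ext t u}.Finite := by
  induction m with
  | zero =>
    intro J hJ a _ hm
    refine ⟨J, Subset.rfl, hJ, fun u => ?_⟩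
    refine finite_empty.subset ?_
    rintro i ⟨hi, t, ht, -⟩
    have := hm i hi
    simp only [CharP.cast_eq_zero, nonpos_iff_eq_zero, encard_eq_zero] at this
    rw [this] at ht; exact ht
  | succ m ih =>
    intro J hJ a hd hm
    by_cases h0 : {i | i ∈ J ∧ a i = ∅}.Countable
    · have h1 : ¬ {i | i ∈ J ∧ (a i).Nonempty}.Countable := by
        intro h
        apply hJ
        refine (h.union h0).mono fun i hi => ?_
        rcases (a i).eq_empty_or_nonempty with h2 | h2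
        · exact Or.inr ⟨hi, h2⟩
        · exact Or.inl ⟨hi, h2⟩
      have h2 : ∀ i, ∃ t : Nd, (a i).Nonempty → t ∈ a i := by
        intro i
        by_cases h : (a i).Nonempty
        · exact ⟨h.some, fun _ => h.some_mem⟩
        · exact ⟨⟨∅, fun A hA hne => absurd (hne.mono hA) not_nonempty_empty⟩, fun h' => absurd h' h⟩
      choose t ht using h2
      obtain ⟨J1, hJ1, hJ1c, h3⟩ := antichain h1 t (by
        intro i hi j hj hij
        by_contra hne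
        exact disjoint_left.1 (hd hi.1 hj.1 hne) (ht i hi.2) (hij ▸ ht j hj.2))
      obtain ⟨J2, hJ2, hJ2c, h4⟩ := ih hJ1c (fun i => a i \ {t i})
        (fun i hi j hj hne => (hd (hJ1 hi).1 (hJ1 hj).1 hne).mono diff_subset diff_subset) (by
          intro i hi
          have h5 := hm i (hJ1 hi).1
          rw [← encard_diff_singleton_add_one (ht i (hJ1 hi).2)] at h5
          push_cast at h5
          exact (ENat.add_le_add_iff_right ENat.one_ne_top).1 h5)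
      refine ⟨J2, fun i hi => (hJ1 (hJ2 hi)).1, hJ2c, fun u => ?_⟩
      refine ((h4 u).union (h3 u).finite).subset ?_
      rintro i ⟨hi, r, hr, hru⟩
      by_cases h5 : r = t i
      · exact Or.inr ⟨hJ2 hi, h5 ▸ hru⟩
      · exact Or.inl ⟨hi, r, ⟨hr, h5⟩, hru⟩
    · refine ⟨_, fun i hi => hi.1, h0, fun u => finite_empty.subset ?_⟩
      rintro i ⟨hi, t, ht, -⟩
      rw [hi.2] at ht; exact ht

lemma free_seq {α : Type*} {J : Set α} (hJ : ¬ J.Countable) (φ : α → Set α)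
    (hφ : ∀ a ∈ J, (φ a).Finite) :
    ∃ s : ℕ → α, Function.Injective s ∧ (∀ n, s n ∈ J) ∧ ∀ m n, m ≠ n → s m ∉ φ (s n) := by
  classical
  obtain ⟨N, hN⟩ := exists_fiber hJ (fun a => (φ a).ncard)
  have hinf : {i | i ∈ J ∧ (φ i).ncard = N}.Infinite := fun h => hN h.countable
  let b := hinf.natEmbedding
  have hbinj : Function.Injective fun n => (b n).1 := Subtype.val_injective.comp b.injective
  have hfin : ∀ n, {m | (b m).1 ∈ φ (b n).1}.Finite := fun n =>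
    (hφ _ (b n).2.1).preimage hbinj.injOn
  have hbad : {m | ∀ᶠ n in (hyperfilter ℕ : Filter ℕ), (b m).1 ∈ φ (b n).1}.Finite := by
    by_contra h
    obtain ⟨F, hF, hc⟩ := Set.Infinite.exists_subset_card_eq h (N + 1)
    obtain ⟨n, hn⟩ := ((eventually_all_finset F).2 fun m hm => hF hm).exists
    have h1 : (F.image fun m => (b m).1 : Set α) ⊆ φ (b n).1 := by
      intro x hx
      simp only [Finset.coe_image, mem_image, Finset.mem_coe] at hx
      obtain ⟨m, hm, rfl⟩ := hx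
      exact hn m hm
    have h2 := ncard_le_ncard h1 (hφ _ (b n).2.1)
    rw [ncard_coe_finset, Finset.card_image_of_injective _ hbinj, hc, (b n).2.2] at h2
    omega
  obtain ⟨f, hf1, hf2⟩ := exists_seq_of_forall_finset_exists
    (fun m => ¬ ∀ᶠ n in (hyperfilter ℕ : Filter ℕ), (b m).1 ∈ φ (b n).1)
    (fun j n => j ≠ n ∧ (b n).1 ∉ φ (b j).1 ∧ (b j).1 ∉ φ (b n).1) (by
      intro P hP
      have h1 : ∀ᶠ m in (hyperfilter ℕ : Filter ℕ),
          ¬ ∀ᶠ n in (hyperfilter ℕ : Filter ℕ), (b m).1 ∈ φ (b n).1 :=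
        hyperfilter_le_cofinite hbad.compl_mem_cofinite
      have h2 : ∀ j ∈ P, ∀ᶠ n in (hyperfilter ℕ : Filter ℕ),
          j ≠ n ∧ (b n).1 ∉ φ (b j).1 ∧ (b j).1 ∉ φ (b n).1 := by
        intro j hj
        refine Eventually.and ?_ (Eventually.and ?_ ?_)
        · exact hyperfilter_le_cofinite (eventually_cofinite_ne j |>.mono fun n hn => hn.symm)
        · exact hyperfilter_le_cofinite (hfin j).compl_mem_cofinite
        · exact Ultrafilter.eventually_not.2 (hP j hj)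
      exact (h1.and ((eventually_all_finset P).2 h2)).exists)
  refine ⟨fun n => (b (f n)).1, ?_, fun n => (b (f n)).2.1, fun m n hmn => ?_⟩
  · intro m n h
    by_contra hmn
    rcases lt_or_gt_of_ne hmn with h1 | h1
    · exact (hf2 m n h1).1 (hbinj h)
    · exact (hf2 n m h1).1 (hbinj h).symm
  · rcases lt_or_gt_of_ne hmn with h1 | h1
    · exact (hf2 m n h1).2.2
    · exact (hf2 n m h1).2.1

lemma exists_meet {α : Type*} (G : Set (Set α)) (hG : ∀ a ∈ G, a.Finite ∧ a.Nonempty)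
    (h : ∀ J ⊆ G, J.PairwiseDisjoint id → J.Countable) :
    ∃ N : Set α, N.Countable ∧ ∀ a ∈ G, (a ∩ N).Nonempty := by
  obtain ⟨M, hM⟩ := zorn_subset {J | J ⊆ G ∧ J.PairwiseDisjoint id} (by
    intro c hc hchain
    refine ⟨⋃₀ c, ⟨sUnion_subset fun J hJ => (hc hJ).1, ?_⟩, fun s hs => subset_sUnion_of_mem hs⟩
    exact (pairwiseDisjoint_sUnion hchain.directedOn).2 fun J hJ => (hc hJ).2)
  refine ⟨⋃₀ M, (h M hM.prop.1 hM.prop.2).sUnion fun a ha => (hG a (hM.prop.1 ha)).1.countable,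
    fun a ha => ?_⟩
  by_contra h1
  rw [not_nonempty_iff_eq_empty, ← disjoint_iff_inter_eq_empty] at h1
  have h2 : insert a M ⊆ M := hM.le_of_ge (y := insert a M)
    ⟨insert_subset ha hM.prop.1, hM.prop.2.insert fun b hb _ =>
      h1.mono_right (subset_sUnion_of_mem hb)⟩ (subset_insert _ _)
  obtain ⟨x, hx⟩ := (hG a ha).2
  exact disjoint_left.1 h1 hx ⟨a, h2 (mem_insert _ _), hx⟩

end Pool.Agent.H19.Eb
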