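import Pool.Agent.H19.EbA

/-! The space of thin sets: compact sets of continuous functions on it are metrizable. -/

namespace Pool.Agent.H19.Eb

open Set Filter Topology

/-- A discrete copy of the power set of the tree. -/
structure Dd where
  s : Set Nd

instance : TopologicalSpace Dd := ⊥
instance : DiscreteTopology Dd := ⟨rfl⟩

/-- Sets meeting every initial segment in a finite set. -/
def Thin (A : Set Nd) : Prop := ∀ u, {t | t ∈ A ∧ Ext t u}.Finite

/-- The space of thin sets. -/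
structure X where
  s : Set Nd
  thin : Thin s

/-- Traces on initial segments. -/
def tr (A : X) (u : Nd) : Dd := ⟨{t | t ∈ A.s ∧ Ext t u}⟩

instance : TopologicalSpace X := TopologicalSpace.induced tr inferInstance

lemma tr_inj : Function.Injective tr := by
  rintro ⟨A, hA⟩ ⟨B, hB⟩ h
  have : A = B := by
    ext t
    have h1 := congrArg Dd.s (congrFun h t)
    have h2 := Set.ext_iff.1 h1 t
    simpa [tr, Ext.refl] using h2
  subst this; rfl

instance : T35Space X := (⟨⟨rfl⟩, tr_inj⟩ : IsEmbedding tr).t35Space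

/-- Agreement below a set of nodes. -/
def Agree (U : Set Nd) (A B : Set Nd) : Prop := ∀ u ∈ U, ∀ t, Ext t u → (t ∈ A ↔ t ∈ B)

lemma agree_nhds (A : X) (u : Nd) : ∀ᶠ B in 𝓝 A, Agree {u} B.s A.s := by
  have h0 : Continuous tr := continuous_induced_dom
  have h1 : Continuous fun B : X => tr B u := (continuous_apply u).comp h0
  have h2 := h1.tendsto A
  rw [nhds_discrete Dd, tendsto_pure] at h2
  refine h2.mono fun B hB v hv t ht => ?_
  rw [mem_singleton_iff] at hv
  subst hv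
  have h3 := Set.ext_iff.1 (congrArg Dd.s hB) t
  simpa [tr, ht] using h3

lemma exists_agree {A : X} {O : Set X} (hO : O ∈ 𝓝 A) :
    ∃ U : Set Nd, U.Finite ∧ ∀ B : X, Agree U B.s A.s → B ∈ O := by
  rw [nhds_induced, mem_comap] at hO
  obtain ⟨V, hV, hVO⟩ := hO
  rw [nhds_pi, Filter.mem_pi] at hV
  obtain ⟨U, hU, W, hW, hWV⟩ := hV
  refine ⟨U, hU, fun B hB => hVO (hWV fun u hu => ?_)⟩
  have : tr B u = tr A u := by
    unfold tr
    congr 1
    ext t
    exact ⟨fun h => ⟨(hB u hu t h.2).1 h.1, h.2⟩, fun h => ⟨(hB u hu t h.2).2 h.1, h.2⟩⟩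
  rw [this]
  exact mem_of_mem_nhds (hW u)

lemma thin_of_finite {A : Set Nd} (h : A.Finite) : Thin A := fun _ => h.subset fun _ ht => ht.1

open Classical in
/-- A thin set as a point of `X`. -/
noncomputable def mk (A : Set Nd) : X := if h : Thin A then ⟨A, h⟩ else ⟨∅, thin_of_finite finite_empty⟩

lemma mk_s {A : Set Nd} (h : Thin A) : (mk A).s = A := by unfold mk; rw [dif_pos h]

lemma no_family {K : Set (X → ℝ)} (hK : IsCompact K) (hc : ∀ f ∈ K, Continuous f)
    {r : Set Nd} (hr : r.Finite) {p q : ℝ} (hpq : p < q) {J : Set (Set Nd)}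
    (hd : J.PairwiseDisjoint id)
    (hJ : ∀ a ∈ J, a.Finite ∧ ∃ f ∈ K, f (mk r) < p ∧ q < f (mk (r ∪ a))) : J.Countable := by
  by_contra hJc
  have h1 : ∀ a, ∃ (f : X → ℝ) (U : Set Nd), a ∈ J → f ∈ K ∧ U.Finite ∧
      (∀ B : X, Agree U B.s r → f B < p) ∧ (∀ B : X, Agree U B.s (r ∪ a) → q < f B) := by
    intro a
    by_cases ha : a ∈ J
    · obtain ⟨haf, f, hf, h2, h3⟩ := hJ a ha
      obtain ⟨U, hU, hU'⟩ := exists_agree (((hc f hf).tendsto _).eventually (gt_mem_nhds h2))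
      obtain ⟨V, hV, hV'⟩ := exists_agree (((hc f hf).tendsto _).eventually (lt_mem_nhds h3))
      rw [mk_s (thin_of_finite hr)] at hU'
      rw [mk_s (thin_of_finite (hr.union haf))] at hV'
      exact ⟨f, U ∪ V, fun _ => ⟨hf, hU.union hV,
        fun B hB => hU' B fun u hu => hB u (Or.inl hu),
        fun B hB => hV' B fun u hu => hB u (Or.inr hu)⟩⟩
    · exact ⟨0, ∅, fun h => absurd h ha⟩
  choose f U hfU using h1
  obtain ⟨m, hm⟩ := exists_fiber hJc (fun a => a.ncard)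
  obtain ⟨J', hJ', hJ'c, hthin⟩ := thin_extract m hm id (hd.subset fun a ha => ha.1) (by
    intro a ha
    rw [id, ← (hJ a ha.1).1.cast_ncard_eq, ha.2])
  have hfin : ∀ V : Set Nd, V.Finite → {a | a ∈ J' ∧ ∃ u ∈ V, ∃ t ∈ a, Ext t u}.Finite := by
    intro V hV
    refine (hV.biUnion fun u _ => hthin u).subset ?_
    rintro a ⟨ha, u, hu, h⟩
    exact mem_biUnion hu ⟨ha, h⟩
  obtain ⟨s, hs, hsJ, hfree⟩ := free_seq hJ'c
    (fun a => {a' | a' ∈ J' ∧ ∃ u ∈ U a, ∃ t ∈ a', Ext t u})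
    (fun a ha => hfin _ (hfU a (hJ' ha).1).2.1)
  have hsJ1 : ∀ n, s n ∈ J := fun n => (hJ' (hsJ n)).1
  have hthinS : ∀ S : Set ℕ, Thin (r ∪ ⋃ n ∈ S, s n) := by
    intro S u
    refine (hr.union ((hthin u).biUnion fun a ha => (hJ a (hJ' ha.1).1).1)).subset ?_
    rintro t ⟨h | h, htu⟩
    · exact Or.inl h
    · simp only [mem_iUnion] at h
      obtain ⟨n, -, hn⟩ := h
      exact Or.inr (mem_biUnion (show s n ∈ {i | i ∈ J' ∧ ∃ t ∈ id i, Ext t u} from
        ⟨hsJ n, t, hn, htu⟩) hn)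
  have hin : ∀ (S : Set ℕ) n, n ∈ S → q < f (s n) ⟨_, hthinS S⟩ := by
    intro S n hn
    apply (hfU _ (hsJ1 n)).2.2.2
    intro u hu t ht
    constructor
    · rintro (h | h)
      · exact Or.inl h
      · simp only [mem_iUnion] at h
        obtain ⟨k, -, hk⟩ := h
        by_cases hkn : k = n
        · exact Or.inr (hkn ▸ hk)
        · exact absurd ⟨hsJ k, u, hu, t, hk, ht⟩ (hfree k n hkn)
    · rintro (h | h)
      · exact Or.inl h
      · exact Or.inr (mem_biUnion hn h)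
  have hout : ∀ (S : Set ℕ) n, n ∉ S → f (s n) ⟨_, hthinS S⟩ < p := by
    intro S n hn
    apply (hfU _ (hsJ1 n)).2.2.1
    intro u hu t ht
    constructor
    · rintro (h | h)
      · exact h
      · simp only [mem_iUnion] at h
        obtain ⟨k, hkS, hk⟩ := h
        exact absurd ⟨hsJ k, u, hu, t, hk, ht⟩ (hfree k n (by rintro rfl; exact hn hkS))
    · exact Or.inl
  obtain ⟨g, hg, hlim⟩ := hK.ultrafilter_le_nhds ((hyperfilter ℕ).map fun n => f (s n))
    (le_principal_iff.2 (mem_map.2 (Eventually.of_forall fun n => (hfU _ (hsJ1 n)).1)))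
  have hlim' : ∀ B : X, Tendsto (fun n => f (s n) B) (hyperfilter ℕ) (𝓝 (g B)) :=
    tendsto_pi_nhds.1 hlim
  have h2 : p < g ⟨_, hthinS univ⟩ :=
    hpq.trans_le (ge_of_tendsto' (hlim' _) fun n => (hin univ n trivial).le)
  obtain ⟨V, hV, hV'⟩ := exists_agree (((hc g hg).tendsto _).eventually (lt_mem_nhds h2))
  have hS : {n | s n ∈ {a | a ∈ J' ∧ ∃ u ∈ V, ∃ t ∈ a, Ext t u}}.Finite :=
    (hfin V hV).preimage hs.injOn
  have h3 : g ⟨_, hthinS {n | s n ∈ {a | a ∈ J' ∧ ∃ u ∈ V, ∃ t ∈ a, Ext t u}}⟩ ≤ p :=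
    le_of_tendsto (hlim' _) ((hyperfilter_le_cofinite hS.compl_mem_cofinite : _ ∈ _) |>
      fun h => mem_of_superset h fun n hn => (hout _ n hn).le)
  refine absurd (hV' _ ?_) (not_lt.2 h3)
  intro u hu t ht
  constructor
  · rintro (h | h)
    · exact Or.inl h
    · simp only [mem_iUnion] at h
      obtain ⟨k, -, hk⟩ := h
      exact Or.inr (mem_biUnion (mem_univ k) hk)
  · rintro (h | h)
    · exact Or.inl h
    · simp only [mem_iUnion] at h
      obtain ⟨k, -, hk⟩ := h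
      exact Or.inr (mem_biUnion (show k ∈ {n | s n ∈ _} from ⟨hsJ k, u, hu, t, hk, ht⟩) hk)

lemma exists_local {K : Set (X → ℝ)} (hK : IsCompact K) (hc : ∀ f ∈ K, Continuous f)
    (r : Set Nd) : ∃ N : Set Nd, N.Countable ∧ (r.Finite → ∀ a : Set Nd, a.Finite →
      Disjoint a N → ∀ f ∈ K, f (mk (r ∪ a)) ≤ f (mk r)) := by
  by_cases hr : r.Finite
  swap
  · exact ⟨∅, countable_empty, fun h => absurd h hr⟩
  have h1 : ∀ pq : ℚ × ℚ, ∃ N : Set Nd, N.Countable ∧ (pq.1 < pq.2 → ∀ a : Set Nd, a.Finite →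
      (∃ f ∈ K, f (mk r) < pq.1 ∧ (pq.2 : ℝ) < f (mk (r ∪ a))) → (a ∩ N).Nonempty) := by
    rintro ⟨p, q⟩
    by_cases hpq : p < q
    · have hpq' : (p : ℝ) < q := by exact_mod_cast hpq
      obtain ⟨N, hN, h2⟩ := exists_meet
        {a : Set Nd | a.Finite ∧ ∃ f ∈ K, f (mk r) < p ∧ (q : ℝ) < f (mk (r ∪ a))} (by
          rintro a ⟨ha, f, -, h3, h4⟩
          refine ⟨ha, nonempty_iff_ne_empty.2 ?_⟩
          rintro rfl
          rw [union_empty] at h4
          linarith) (fun J hJ hd => no_family hK hc hr hpq' hd hJ)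
      exact ⟨N, hN, fun _ a ha h => h2 a ⟨ha, h⟩⟩
    · exact ⟨∅, countable_empty, fun h => absurd h hpq⟩
  choose N hN hN' using h1
  refine ⟨⋃ pq, N pq, countable_iUnion hN, fun _ a ha hd f hf => ?_⟩
  by_contra h
  obtain ⟨p, hp1, hp2⟩ := exists_rat_btwn (not_le.1 h)
  obtain ⟨q, hq1, hq2⟩ := exists_rat_btwn hp2
  obtain ⟨x, hx1, hx2⟩ := hN' (p, q) (by exact_mod_cast hq1) a ha ⟨f, hf, hp1, hq2⟩
  exact disjoint_left.1 hd hx1 (mem_iUnion.2 ⟨_, hx2⟩)

lemma exists_support {K : Set (X → ℝ)} (hK : IsCompact K) (hc : ∀ f ∈ K, Continuous f) :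
    ∃ N : Set Nd, N.Countable ∧ ∀ a : Set Nd, a.Finite → ∀ f ∈ K, f (mk a) = f (mk (a ∩ N)) := by
  choose N1 h1 h1' using exists_local hK hc
  choose N2 h2 h2' using exists_local (K := (fun f => -f) '' K) (hK.image continuous_neg) (by
    rintro _ ⟨f, hf, rfl⟩; exact (hc f hf).neg)
  let M : ℕ → Set Nd := fun k => Nat.rec ∅
    (fun _ M => M ∪ ⋃ r ∈ {r : Set Nd | r.Finite ∧ r ⊆ M}, (N1 r ∪ N2 r)) k
  have hM : ∀ k, M (k + 1) = M k ∪ ⋃ r ∈ {r : Set Nd | r.Finite ∧ r ⊆ M k}, (N1 r ∪ N2 r) :=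
    fun k => rfl
  have hMc : ∀ k, (M k).Countable := by
    intro k
    induction k with
    | zero => exact countable_empty
    | succ k ih =>
      rw [hM]
      exact ih.union ((countable_setOf_finite_subset ih).biUnion fun r _ => (h1 r).union (h2 r))
  have hmono : Monotone M := monotone_nat_of_le_succ fun k => by rw [hM]; exact subset_union_left
  refine ⟨⋃ k, M k, countable_iUnion hMc, fun a ha f hf => ?_⟩
  set N := ⋃ k, M k with hN
  have hr : (a ∩ N).Finite := ha.subset inter_subset_left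
  obtain ⟨k, hk⟩ : ∃ k, a ∩ N ⊆ M k := by
    have h3 : ∀ x ∈ a ∩ N, ∀ᶠ k in atTop, x ∈ M k := by
      intro x hx
      obtain ⟨k, hk⟩ := mem_iUnion.1 hx.2
      exact eventually_atTop.2 ⟨k, fun j hj => hmono hj hk⟩
    exact ((eventually_all_finite hr).2 h3).exists
  have hsub : N1 (a ∩ N) ∪ N2 (a ∩ N) ⊆ N := by
    intro x hx
    refine mem_iUnion.2 ⟨k + 1, ?_⟩
    rw [hM]
    exact Or.inr (mem_biUnion (show a ∩ N ∈ {r : Set Nd | r.Finite ∧ r ⊆ M k} from ⟨hr, hk⟩) hx)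
  have h4 := h1' (a ∩ N) hr (a \ N) (ha.subset diff_subset)
    (disjoint_sdiff_left.mono_right (subset_union_left.trans hsub)) f hf
  have h5 := h2' (a ∩ N) hr (a \ N) (ha.subset diff_subset)
    (disjoint_sdiff_left.mono_right (subset_union_right.trans hsub)) _ ⟨f, hf, rfl⟩
  rw [inter_union_diff] at h4 h5
  simp only [Pi.neg_apply] at h5
  linarith

lemma dense_finite : Dense (mk '' {a : Set Nd | a.Finite}) := by
  intro A
  rw [mem_closure_iff_nhds]
  intro O hO
  obtain ⟨U, hU, hU'⟩ := exists_agree hO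
  have hf : (⋃ u ∈ U, {t | t ∈ A.s ∧ Ext t u}).Finite := hU.biUnion fun u _ => A.thin u
  refine ⟨mk _, hU' _ ?_, _, hf, rfl⟩
  rw [mk_s (thin_of_finite hf)]
  intro u hu t ht
  constructor
  · intro h
    simp only [mem_iUnion] at h
    obtain ⟨v, -, hv⟩ := h
    exact hv.1
  · intro h; exact mem_biUnion hu ⟨h, ht⟩

theorem eberlein (K : Set (X → ℝ)) (hc : ∀ f ∈ K, Continuous f) (hK : IsCompact K) :
    ∃ (E : Type) (_ : NormedAddCommGroup E) (_ : NormedSpace ℝ E) (_ : CompleteSpace E)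
      (e : K → WeakSpace ℝ E), IsEmbedding e := by
  obtain ⟨N, hN, hN'⟩ := exists_support hK hc
  have := (countable_setOf_finite_subset hN).to_subtype
  have : CompactSpace K := isCompact_iff_compactSpace.1 hK
  let j : K → {r : Set Nd | r.Finite ∧ r ⊆ N} → ℝ := fun f r => f.1 (mk r.1)
  have hj : Continuous j := continuous_pi fun r =>
    (continuous_apply _).comp continuous_subtype_val
  have hji : Function.Injective j := by
    intro f g h
    apply Subtype.ext
    refine Continuous.ext_on dense_finite (hc _ f.2) (hc _ g.2) ?_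
    rintro _ ⟨a, ha, rfl⟩
    rw [hN' a ha _ f.2, hN' a ha _ g.2]
    exact congrFun h ⟨a ∩ N, ha.subset inter_subset_left, inter_subset_right⟩
  have hemb := (hj.isClosedEmbedding hji).isEmbedding
  have : TopologicalSpace.MetrizableSpace K := hemb.metrizableSpace
  letI := TopologicalSpace.metrizableSpaceMetric K
  have hk := kuratowskiEmbedding.isometry K
  refine ⟨_, inferInstance, inferInstance, inferInstance,
    fun f => toWeakSpaceCLM ℝ _ (kuratowskiEmbedding K f), ?_⟩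
  exact (((toWeakSpaceCLM ℝ _).continuous.comp hk.continuous).isClosedEmbedding
    (toWeakSpaceCLM_bijective.1.comp hk.injective)).isEmbedding

end Pool.Agent.H19.Eb
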