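import Pool.Agent.H19.EbB

/-! The compact space of chains of the tree is not an Eberlein compact. -/

namespace Pool.Agent.H19.Eb

open Set Filter Topology

/-- Bounded strictly below `q`. -/
def Bdd (t : Nd) (q : ℚ) : Prop := ∃ q' < q, ∀ x ∈ t.s, x < q'

/-- Add one point. -/
def snoc (t : Nd) (x : ℚ) : Nd := ⟨insert x t.s, by
  intro A hA hne
  by_cases h : (A \ {x}).Nonempty
  · obtain ⟨m, hm, hmin⟩ := t.wo (A \ {x}) (fun y hy => (hA hy.1).resolve_left hy.2) h
    by_cases h1 : x ∈ A ∧ x ≤ m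
    · refine ⟨x, h1.1, fun y hy => ?_⟩
      by_cases h2 : y = x
      · exact h2.ge
      · exact h1.2.trans (hmin y ⟨hy, h2⟩)
    · refine ⟨m, hm.1, fun y hy => ?_⟩
      by_cases h2 : y = x
      · subst h2
        exact (not_le.1 fun h3 => h1 ⟨hy, h3⟩).le
      · exact hmin y ⟨hy, h2⟩
  · rw [not_nonempty_iff_eq_empty, diff_eq_empty] at h
    obtain ⟨y, hy⟩ := hne
    exact ⟨y, hy, fun z hz => ((h hy).trans (h hz).symm).le⟩⟩

lemma ext_snoc {t : Nd} {x : ℚ} (h : ∀ y ∈ t.s, y < x) : Ext t (snoc t x) := by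
  refine ⟨subset_insert _ _, ?_⟩
  rintro z (rfl | hz) y hy hzy
  · exact absurd (h y hy) (not_lt.2 hzy)
  · exact hz

lemma kurepa (T : ℕ → Set Nd) (hT : ∀ t, ∃ n, t ∈ T n) :
    ∃ n t0 q, Bdd t0 q ∧ ∀ t', Ext t0 t' → Bdd t' q → ∃ s ∈ T n, Ext t' s ∧ Bdd s q := by
  by_contra h
  push Not at h
  have h1 : ∀ (n : ℕ) (p : {p : Nd × ℚ // Bdd p.1 p.2}), ∃ p' : {p : Nd × ℚ // Bdd p.1 p.2},
      p'.1.2 < p.1.2 ∧ Ext p.1.1 p'.1.1 ∧ ∀ s ∈ T n, Ext p'.1.1 s → ¬ Bdd s p.1.2 := by
    rintro n ⟨⟨t, q⟩, hb⟩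
    obtain ⟨t', h2, ⟨q', h3, h4⟩, h5⟩ := h n t q hb
    exact ⟨⟨(t', (q' + q) / 2), q', by simp only; linarith, h4⟩, by simp only; linarith, h2, h5⟩
  choose step h2 h3 h4 using h1
  let e : Nd := ⟨∅, fun A hA hne => absurd (hne.mono hA) not_nonempty_empty⟩
  let p : ℕ → {p : Nd × ℚ // Bdd p.1 p.2} := fun n =>
    Nat.rec ⟨(e, 1), 0, by norm_num, fun x hx => absurd hx (notMem_empty x)⟩ step n
  have hp : ∀ n, p (n + 1) = step n (p n) := fun n => rfl
  have hq : Antitone fun n => (p n).1.2 := antitone_nat_of_succ_le fun n => (h2 n (p n)).le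
  have hext : ∀ m n, m ≤ n → Ext (p m).1.1 (p n).1.1 := by
    intro m n hmn
    induction n, hmn using Nat.le_induction with
    | base => exact Ext.refl _
    | succ n _ ih => exact ih.trans (h3 n (p n))
  obtain ⟨u, hu, hu'⟩ := exists_sup (range fun n => (p n).1.1) (by
    rintro _ ⟨m, rfl⟩ _ ⟨n, rfl⟩
    rcases le_total m n with h5 | h5
    · exact Or.inl (hext m n h5)
    · exact Or.inr (hext n m h5))
  obtain ⟨n, hn⟩ := hT u
  refine h4 n (p n) u hn (hu _ ⟨n + 1, rfl⟩) ⟨(p (n + 1)).1.2, h2 n (p n), fun x hx => ?_⟩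
  obtain ⟨_, ⟨m, rfl⟩, hxm⟩ := hu' x hx
  obtain ⟨q', h5, h6⟩ := (p (max m (n + 1))).2
  exact ((h6 x ((hext m _ (le_max_left _ _)).1 hxm)).trans h5).trans_le (hq (le_max_right _ _))

/-- Chains of the tree. -/
def Ch : Set (Nd → Bool) := {b | ∀ s t, b s = true → b t = true → Ext s t ∨ Ext t s}

lemma Ch_compact : IsCompact Ch := by
  apply IsClosed.isCompact
  have : Ch = ⋂ s, ⋂ t, (fun b : Nd → Bool => (b s, b t)) ⁻¹'
      {z | z.1 = true → z.2 = true → Ext s t ∨ Ext t s} := by
    ext b; simp [Ch]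
  rw [this]
  exact isClosed_iInter fun s => isClosed_iInter fun t =>
    (isClosed_discrete _).preimage (by fun_prop)

open Classical in
/-- The initial segment below a node. -/
noncomputable def pth (t : Nd) : Ch := ⟨fun s => decide (Ext s t), fun _ _ h h' =>
  (of_decide_eq_true h).total (of_decide_eq_true h')⟩

lemma pth_true {s t : Nd} : (pth t).1 s = true ↔ Ext s t := by simp [pth]

lemma pth_tendsto {s : Nd} {x : ℕ → ℚ} (hx : Function.Injective x) (hs : ∀ j, ∀ y ∈ s.s, y < x j)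
    {g : ℕ → Nd} (hg : ∀ j, Ext (snoc s (x j)) (g j)) :
    Tendsto (fun j => pth (g j)) atTop (𝓝 (pth s)) := by
  rw [tendsto_subtype_rng, tendsto_pi_nhds]
  intro r
  rw [nhds_discrete, tendsto_pure]
  by_cases hr : Ext r s
  · refine Eventually.of_forall fun j => ?_
    rw [pth_true.2 hr, pth_true.2 (hr.trans ((ext_snoc (hs j)).trans (hg j)))]
  · have key : ∀ j, Ext r (g j) → (x j ∈ r.s ∧ x j ∉ s.s) ∧ ∀ z ∈ r.s, z ∉ s.s → x j ≤ z := by
      intro j hj
      have h1 : Ext s r := (hj.total ((ext_snoc (hs j)).trans (hg j))).resolve_left hr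
      refine ⟨⟨?_, fun h => lt_irrefl _ (hs j _ h)⟩, fun z hz hzs => ?_⟩
      · rcases hj.total (hg j) with h2 | h2
        · by_contra h3
          apply hr
          have : r = s := Nd.ext (Subset.antisymm (fun y hy => (h2.1 hy).resolve_left
            (by rintro rfl; exact h3 hy)) h1.1)
          rw [this]; exact Ext.refl _
        · exact h2.1 (mem_insert _ _)
      · by_contra h2
        rcases (hg j).2 z (hj.1 hz) (x j) (mem_insert _ _) (not_le.1 h2).le with h3 | h3
        · exact h2 h3.ge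
        · exact hzs h3
    have hfin : {j | Ext r (g j)}.Finite := by
      apply Set.Subsingleton.finite
      intro i hi j hj
      exact hx (le_antisymm ((key i hi).2 _ (key j hj).1.1 (key j hj).1.2)
        ((key j hj).2 _ (key i hi).1.1 (key i hi).1.2))
    rw [← Nat.cofinite_eq_atTop]
    refine mem_of_superset hfin.compl_mem_cofinite fun j hj => ?_
    have h1 : ¬ (pth (g j)).1 r = true := fun h => hj (pth_true.1 h)
    have h2 : ¬ (pth s).1 r = true := fun h => hr (pth_true.1 h)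
    show (pth (g j)).1 r = (pth s).1 r
    rw [Bool.eq_false_iff.2 h1, Bool.eq_false_iff.2 h2]

theorem not_eberlein {E : Type} [NormedAddCommGroup E] [NormedSpace ℝ E]
    (e : Ch → WeakSpace ℝ E) (he : Continuous e) (hi : Function.Injective e) : False := by
  classical
  have : CompactSpace Ch := isCompact_iff_compactSpace.1 Ch_compact
  let y : Ch → E := fun b => (toWeakSpace ℝ E).symm (e b)
  have hy : ∀ b, toWeakSpace ℝ E (y b) = e b := fun b => rfl
  have hcl : ∀ S : Set E, Convex ℝ S → IsClosed S → IsClosed {b | y b ∈ S} := by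
    intro S h1 h2
    have h3 := h1.toWeakSpace_closure ℝ
    rw [h2.closure_eq] at h3
    have h4 : IsClosed (toWeakSpace ℝ E '' S) := by rw [h3]; exact isClosed_closure
    have h5 := h4.preimage he
    have : {b | y b ∈ S} = e ⁻¹' (toWeakSpace ℝ E '' S) := by
      ext b
      constructor
      · intro h; exact ⟨y b, h, rfl⟩
      · rintro ⟨z, hz, hzb⟩
        have : z = y b := (toWeakSpace ℝ E).injective hzb
        rw [this] at hz; exact hz
    rw [this]; exact h5
  obtain ⟨n, t0, q, hb0, hP⟩ := kurepa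
    (fun n => {t | ∀ s, ¬ Ext t s → 1 / ((n : ℝ) + 1) < dist (y (pth t)) (y (pth s))}) (by
      intro t
      have h00 : Continuous fun b : Nd → Bool => b t := continuous_apply t
      have h0 : Continuous fun b : Ch => b.1 t := h00.comp continuous_subtype_val
      have h1 : IsClosed {b : Ch | b.1 t = false} := (isClosed_discrete {false}).preimage h0
      have h2 := (h1.isCompact.image he).isClosed.preimage (toWeakSpaceCLM ℝ E).continuous
      have h3 : y (pth t) ∈ ((toWeakSpaceCLM ℝ E) ⁻¹' (e '' {b : Ch | b.1 t = false}))ᶜ := by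
        rintro ⟨b, hb, hbe⟩
        have : b = pth t := hi hbe
        rw [this, mem_setOf_eq, pth_true.2 (Ext.refl t)] at hb
        exact absurd hb (by decide)
      obtain ⟨ε, hε, h4⟩ := Metric.isOpen_iff.1 h2.isOpen_compl _ h3
      obtain ⟨n, hn⟩ := exists_nat_one_div_lt hε
      refine ⟨n, fun s hs => hn.trans_le (not_lt.1 fun h5 => ?_)⟩
      refine h4 (show y (pth s) ∈ Metric.ball (y (pth t)) ε by rwa [Metric.mem_ball, dist_comm])
        ⟨pth s, ?_, rfl⟩
      exact Bool.eq_false_iff.2 fun h => hs (pth_true.1 h))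
  have h1 : ∀ (s : Nd) (x : ℚ), ∃ g : Nd, (Ext t0 s ∧ (∀ z ∈ s.s, z < x) ∧ x < q) →
      (∀ s', ¬ Ext g s' → 1 / ((n : ℝ) + 1) < dist (y (pth g)) (y (pth s'))) ∧
        Ext (snoc s x) g ∧ Bdd g q := by
    intro s x
    by_cases h : Ext t0 s ∧ (∀ z ∈ s.s, z < x) ∧ x < q
    · obtain ⟨g, hg⟩ := hP (snoc s x) (h.1.trans (ext_snoc h.2.1)) ⟨(x + q) / 2, by linarith [h.2.2], by
        rintro z (rfl | hz)
        · linarith [h.2.2]
        · linarith [h.2.2, h.2.1 z hz]⟩
      exact ⟨g, fun _ => hg⟩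
    · exact ⟨s, fun h' => absurd h' h⟩
  choose g hg using h1
  let node : List ℚ → Nd := fun l => List.rec t0
    (fun x _ s => if Ext t0 s ∧ (∀ z ∈ s.s, z < x) ∧ x < q then g s x else s) l
  have hnode : ∀ x l, node (x :: l) =
      if Ext t0 (node l) ∧ (∀ z ∈ (node l).s, z < x) ∧ x < q then g (node l) x else node l :=
    fun x l => rfl
  have hinv : ∀ l, Ext t0 (node l) ∧ Bdd (node l) q := by
    intro l
    induction l with
    | nil => exact ⟨Ext.refl _, hb0⟩
    | cons x l ih =>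
      rw [hnode]
      split_ifs with h
      · exact ⟨h.1.trans ((ext_snoc h.2.1).trans (hg _ _ h).2.1), (hg _ _ h).2.2⟩
      · exact ih
  set L : Set Ch := closure (range fun l => pth (node l)) with hL
  have hsep : TopologicalSpace.IsSeparable
      (closure (Submodule.span ℝ (range fun l => y (pth (node l))) : Set E)) :=
    ((countable_range _).isSeparable.span).closure
  have hLs : L ⊆ {b | y b ∈ closure (Submodule.span ℝ (range fun l => y (pth (node l))) : Set E)} := by
    apply closure_minimal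
    · rintro _ ⟨l, rfl⟩
      exact subset_closure (Submodule.subset_span ⟨l, rfl⟩)
    · exact hcl _ (Submodule.convex _).closure isClosed_closure
  obtain ⟨c, hc, hcs⟩ := hsep
  have := hc.to_subtype
  have : CompactSpace L := isCompact_iff_compactSpace.1 isClosed_closure.isCompact
  have : Nonempty L := ⟨⟨pth (node []), subset_closure ⟨[], rfl⟩⟩⟩
  have hr : (0 : ℝ) < 1 / ((n : ℝ) + 1) / 2 := by positivity
  obtain ⟨z, b0, hb0⟩ := nonempty_interior_of_iUnion_of_closed (X := L) (ι := c)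
    (f := fun z => {b : L | y b.1 ∈ Metric.closedBall z.1 (1 / ((n : ℝ) + 1) / 2)})
    (fun z => (hcl _ (convex_closedBall _ _) Metric.isClosed_closedBall).preimage
      continuous_subtype_val) (by
      rw [eq_univ_iff_forall]
      intro b
      obtain ⟨z, hz, hzb⟩ := Metric.mem_closure_iff.1 (hcs (hLs b.2)) _ hr
      exact mem_iUnion.2 ⟨⟨z, hz⟩, hzb.le⟩)
  rw [mem_interior_iff_mem_nhds, nhds_subtype, mem_comap] at hb0
  obtain ⟨W, hW, hWs⟩ := hb0
  obtain ⟨W', hW'W, hW'o, hW'b⟩ := mem_nhds_iff.1 hW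
  obtain ⟨_, hl, l, rfl⟩ := mem_closure_iff.1 b0.2 W' hW'o hW'b
  obtain ⟨hl0, q', hq', hlq⟩ := hinv l
  let x : ℕ → ℚ := fun j => q' + (q - q') / (j + 2)
  have hx1 : ∀ j, q' < x j := fun j => by
    have : 0 < (q - q') / (j + 2) := div_pos (by linarith) (by positivity)
    simp only [x]; linarith
  have hx2 : ∀ j, x j < q := fun j => by
    have : (q - q') / (j + 2) < q - q' := div_lt_self (by linarith) (by
      have : (0 : ℚ) ≤ j := by positivity
      linarith)
    simp only [x]; linarith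
  have hxi : Function.Injective x := by
    intro i j h
    have h2 : (q - q') / (i + 2) = (q - q') / (j + 2) := by simpa [x] using h
    rw [div_eq_div_iff (by positivity) (by positivity)] at h2
    have h3 := mul_left_cancel₀ (sub_pos.2 hq').ne' h2
    exact_mod_cast (add_right_cancel h3).symm
  have hcond : ∀ j, Ext t0 (node l) ∧ (∀ z ∈ (node l).s, z < x j) ∧ x j < q := fun j =>
    ⟨hl0, fun z hz => (hlq z hz).trans (hx1 j), hx2 j⟩
  have ht := pth_tendsto hxi (fun j => (hcond j).2.1) (fun j => (hg _ _ (hcond j)).2.1)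
  obtain ⟨j, hj⟩ := (ht.eventually (hW'o.mem_nhds hl)).exists
  have m1 : pth (node l) ∈ L := subset_closure ⟨l, rfl⟩
  have m2 : pth (g (node l) (x j)) ∈ L := subset_closure ⟨x j :: l, by
    simp only [hnode, if_pos (hcond j)]⟩
  have d1 : dist (y (pth (node l))) z.1 ≤ _ := hWs (show (⟨_, m1⟩ : L) ∈ _ from hW'W hl)
  have d2 : dist (y (pth (g (node l) (x j)))) z.1 ≤ _ := hWs (show (⟨_, m2⟩ : L) ∈ _ from hW'W hj)
  have d3 := (hg _ _ (hcond j)).1 (node l) (fun h =>
    lt_irrefl _ ((hcond j).2.1 _ (h.1 ((hg _ _ (hcond j)).2.1.1 (mem_insert _ _)))))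
  linarith [dist_triangle_right (y (pth (g (node l) (x j)))) (y (pth (node l))) z.1]

instance : TopologicalSpace Nd := ⊥
instance : DiscreteTopology Nd := ⟨rfl⟩

open Classical in
/-- The function attached to a chain. -/
noncomputable def Fb (b : Nd → Bool) (p : X × OnePoint Nd) : ℝ :=
  Option.elim p.2 0 (fun t => if t ∈ p.1.s ∧ b t = true then 1 else 0)

open Classical in
lemma Fb_coe (b : Nd → Bool) (A : X) (t : Nd) :
    Fb b (A, (t : OnePoint Nd)) = if t ∈ A.s ∧ b t = true then 1 else 0 := rfl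

lemma Fb_inf (b : Nd → Bool) (A : X) : Fb b (A, OnePoint.infty) = 0 := rfl

lemma Fb_cont {b : Nd → Bool} (hb : b ∈ Ch) : Continuous (Fb b) := by
  obtain ⟨u, hu, -⟩ := exists_sup {t | b t = true} (fun s hs t ht => hb s t hs ht)
  rw [continuous_iff_continuousAt]
  rintro ⟨A, k⟩
  refine tendsto_const_nhds.congr' ?_
  rw [nhds_prod_eq]
  induction k using OnePoint.rec with
  | infty =>
    have h1 : ∀ᶠ k in 𝓝 (OnePoint.infty : OnePoint Nd),
        k ∉ ((↑) : Nd → OnePoint Nd) '' {t | t ∈ A.s ∧ Ext t u} :=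
      (((A.thin u).image _).isClosed.isOpen_compl.mem_nhds (by simp))
    refine ((agree_nhds A u).prod_mk h1).mono ?_
    rintro ⟨B, k⟩ ⟨h2, h3⟩
    induction k using OnePoint.rec with
    | infty => rfl
    | coe t =>
      show Fb b (A, OnePoint.infty) = _
      rw [Fb_inf, Fb_coe, if_neg]
      rintro ⟨h4, h5⟩
      exact h3 ⟨t, ⟨(h2 u rfl t (hu t h5)).1 h4, hu t h5⟩, rfl⟩
  | coe t =>
    have h1 : ∀ᶠ k : OnePoint Nd in 𝓝 (t : OnePoint Nd), k = (t : OnePoint Nd) := by
      rw [OnePoint.nhds_coe_eq, nhds_discrete Nd]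
      simp
    refine ((agree_nhds A t).prod_mk h1).mono ?_
    rintro ⟨B, k⟩ ⟨h2, h3⟩
    simp only at h2 h3
    subst h3
    show Fb b (A, (t : OnePoint Nd)) = _
    rw [Fb_coe, Fb_coe, h2 t rfl t (Ext.refl t)]

lemma F_cont : Continuous Fb := by
  classical
  refine continuous_pi ?_
  rintro ⟨A, k⟩
  induction k using OnePoint.rec with
  | infty => exact continuous_const
  | coe t =>
    have h0 : Continuous fun b : Nd → Bool => b t := continuous_apply t
    exact (continuous_of_discreteTopology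
      (f := fun z : Bool => if t ∈ A.s ∧ z = true then (1 : ℝ) else 0)).comp h0

lemma F_inj : Function.Injective Fb := by
  intro b b' h
  funext t
  have := congrFun h (⟨{t}, thin_of_finite (finite_singleton t)⟩, (t : OnePoint Nd))
  rw [Fb_coe, Fb_coe] at this
  cases h1 : b t <;> cases h2 : b' t <;> simp_all

end Pool.Agent.H19.Eb
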