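import Mathlib

/-! A gliding hump lemma for hereditary families of finite sets. -/

set_option maxHeartbeats 400000

namespace Pool.Agent.H19.Fo

open Finset Filter

variable {F : Set (Finset ℕ)} {w : ℕ → ℝ}

lemma step (w0 : ∀ i, 0 ≤ w i) (w4 : ∀ (m : ℕ) (C : ℝ), ∃ E ∈ F, (∀ i ∈ E, m ≤ i) ∧ C < ∑ i ∈ E, w i)
    (S : ℕ → ℝ) (m : ℕ) (T η δ : ℝ) (hη : 0 < η) (hδ : 0 < δ) (S0 : ∀ i, 0 ≤ S i)
    (S1 : ∀ i, m ≤ i → S i = 0) (S2 : ∀ B ∈ F, ∑ i ∈ B, S i ≤ T) :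
    ∃ (S' : ℕ → ℝ) (m' : ℕ), m < m' ∧ (∀ i < m, S' i = S i) ∧ (∀ i, m ≤ i → S' i ≤ η * w i) ∧
      (∀ i, 0 ≤ S' i) ∧ (∀ i, m' ≤ i → S' i = 0) ∧ (∀ B ∈ F, ∑ i ∈ B, S' i ≤ T + δ) ∧
      ∃ B ∈ F, T ≤ ∑ i ∈ B, S' i := by
  obtain ⟨E, hE, hm, hC⟩ := w4 m ((T + δ) / η)
  let v : ℕ → ℝ := fun i => if i ∈ E then w i else 0
  have v0 : ∀ i, 0 ≤ v i := fun i => by simp only [v]; split_ifs; exacts [w0 i, le_rfl]
  have v1 : ∀ i, v i ≤ w i := fun i => by simp only [v]; split_ifs; exacts [le_rfl, w0 i]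
  have vE : ∑ i ∈ E, v i = ∑ i ∈ E, w i := sum_congr rfl fun i hi => if_pos hi
  have vB : ∀ B : Finset ℕ, ∑ i ∈ B, v i ≤ ∑ i ∈ E, w i := fun B => by
    rw [sum_ite_mem]
    exact sum_le_sum_of_subset_of_nonneg inter_subset_right fun i _ _ => w0 i
  set M := ∑ i ∈ E, w i with hM
  have M0 : 0 ≤ M := sum_nonneg fun i _ => w0 i
  let Z : Set ℝ := Set.Icc 0 η ∩ ⋂ B ∈ F, {t | ∑ i ∈ B, S i + t * ∑ i ∈ B, v i ≤ T + δ}
  have mZ : ∀ t, t ∈ Z ↔ (0 ≤ t ∧ t ≤ η) ∧ ∀ B ∈ F, ∑ i ∈ B, S i + t * ∑ i ∈ B, v i ≤ T + δ := by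
    intro t
    simp [Z]
  have cZ : IsClosed Z := isClosed_Icc.inter
    (isClosed_biInter fun B _ => isClosed_le (by fun_prop) continuous_const)
  have bZ : BddAbove Z := ⟨η, fun t ht => ((mZ t).1 ht).1.2⟩
  have nZ : Z.Nonempty := ⟨0, (mZ 0).2 ⟨⟨le_rfl, hη.le⟩, fun B hB => by linarith [S2 B hB]⟩⟩
  obtain ⟨⟨c0, c1⟩, c2⟩ := (mZ _).1 (cZ.csSup_mem nZ bZ)
  set c := sSup Z with hc
  have c3 : c < η := by
    refine lt_of_le_of_ne c1 fun e => ?_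
    have := c2 E hE
    rw [e, vE] at this
    rw [div_lt_iff₀ hη] at hC
    linarith [sum_nonneg fun i (_ : i ∈ E) => S0 i]
  have e : ∀ B : Finset ℕ, ∑ i ∈ B, (S i + c * v i) = ∑ i ∈ B, S i + c * ∑ i ∈ B, v i :=
    fun B => by rw [sum_add_distrib, mul_sum]
  refine ⟨fun i => S i + c * v i, max (m + 1) (E.sup id + 1), by omega, fun i hi => ?_,
    fun i hi => ?_, fun i => add_nonneg (S0 i) (mul_nonneg c0 (v0 i)), fun i hi => ?_,
    fun B hB => (e B).trans_le (c2 B hB), ?_⟩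
  · have : i ∉ E := fun h => by have := hm i h; omega
    simp [v, this]
  · show S i + c * v i ≤ _
    rw [S1 i hi, zero_add]
    exact mul_le_mul c1 (v1 i) (v0 i) hη.le
  · have : i ∉ E := fun h => by have : i ≤ E.sup id := le_sup (f := id) h; omega
    simp [v, this, S1 i (by omega)]
  · have p : 0 < δ / (M + 1) := by positivity
    have lt : c < min η (c + δ / (M + 1)) := lt_min c3 (by linarith)
    have nm : min η (c + δ / (M + 1)) ∉ Z := fun h => (le_csSup bZ h).not_gt lt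
    rw [mZ] at nm
    push Not at nm
    obtain ⟨B, hB, h⟩ := nm ⟨by linarith, min_le_left _ _⟩
    refine ⟨B, hB, ?_⟩
    rw [e]
    have b0 : 0 ≤ ∑ i ∈ B, v i := sum_nonneg fun i _ => v0 i
    have b1 := mul_le_mul_of_nonneg_right (min_le_right η (c + δ / (M + 1))) b0
    have b2 : δ / (M + 1) * ∑ i ∈ B, v i ≤ δ := by
      rw [div_mul_eq_mul_div, div_le_iff₀ (by positivity)]
      nlinarith [vB B]
    nlinarith

theorem hump (her : ∀ B ∈ F, ∀ C ⊆ B, C ∈ F)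
    (K : ∀ (u : ℕ → ℝ) (C : ℝ), (∀ i, 0 ≤ u i) → (∀ B ∈ F, ∑ i ∈ B, u i ≤ C) →
      ∀ γ > 0, ∃ m, ∀ B ∈ F, (∀ i ∈ B, m ≤ i) → ∑ i ∈ B, u i ≤ γ)
    (w0 : ∀ i, 0 ≤ w i)
    (w3 : ∀ A : Set ℕ, (∀ B : Finset ℕ, (B : Set ℕ) ⊆ A → B ∈ F) →
      ∃ W : ℝ, ∀ B : Finset ℕ, (B : Set ℕ) ⊆ A → ∑ i ∈ B, w i ≤ W)
    (w4 : ∀ (m : ℕ) (C : ℝ), ∃ E ∈ F, (∀ i ∈ E, m ≤ i) ∧ C < ∑ i ∈ E, w i) : False := by
  let a : ℕ → ℝ := fun n => (1 / 2) ^ n
  have a0 : ∀ n, 0 < a n := fun n => by positivity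
  have a1 : ∀ n, a (n + 1) = a n / 2 := fun n => by simp only [a]; ring
  have a2 : Antitone a := antitone_nat_of_succ_le fun n => by rw [a1]; linarith [a0 n]
  let η : ℕ → ℝ := fun n => a n / (n + 1)
  have η0 : ∀ n, 0 < η n := fun n => div_pos (a0 n) (by positivity)
  have η1 : Antitone η := fun i j h =>
    div_le_div₀ (a0 i).le (a2 h) (by positivity) (by exact_mod_cast Nat.succ_le_succ h)
  let Inv : ℕ → (ℕ → ℝ) × ℕ → Prop := fun n s => (∀ i, 0 ≤ s.1 i) ∧ (∀ i, s.2 ≤ i → s.1 i = 0) ∧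
    ∀ B ∈ F, ∑ i ∈ B, s.1 i ≤ 2 - 2 * a n
  have st : ∀ n (s : {s // Inv n s}), ∃ s' : {s // Inv (n + 1) s}, s.1.2 < s'.1.2 ∧
      (∀ i < s.1.2, s'.1.1 i = s.1.1 i) ∧ (∀ i, s.1.2 ≤ i → s'.1.1 i ≤ η n * w i) ∧
      ∃ B ∈ F, 2 - 2 * a n ≤ ∑ i ∈ B, s'.1.1 i := by
    rintro n ⟨⟨S, m⟩, h0, h1, h2⟩
    obtain ⟨S', m', b1, b2, b3, b4, b5, b6, b7⟩ :=
      step w0 w4 S m _ (η n) (a n) (η0 n) (a0 n) h0 h1 h2
    exact ⟨⟨(S', m'), b4, b5, fun B hB => (b6 B hB).trans (by rw [a1]; linarith)⟩, b1, b2, b3, b7⟩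
  choose f hf using st
  let s : ∀ n, {s // Inv n s} := fun n =>
    Nat.rec ⟨(fun _ => 0, 0), by simp [Inv, a]⟩ (fun n ih => f n ih) n
  let S : ℕ → ℕ → ℝ := fun n => (s n).1.1
  let m : ℕ → ℕ := fun n => (s n).1.2
  have m1 : StrictMono m := strictMono_nat_of_lt_succ fun n => (hf n (s n)).1
  have e1 : ∀ n, ∀ i < m n, S (n + 1) i = S n i := fun n => (hf n (s n)).2.1
  have e2 : ∀ n i, m n ≤ i → S (n + 1) i ≤ η n * w i := fun n => (hf n (s n)).2.2.1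
  have e3 : ∀ n, ∃ B ∈ F, 2 - 2 * a n ≤ ∑ i ∈ B, S (n + 1) i := fun n => (hf n (s n)).2.2.2
  have i0 : ∀ n i, 0 ≤ S n i := fun n => (s n).2.1
  have i1 : ∀ n i, m n ≤ i → S n i = 0 := fun n => (s n).2.2.1
  have i2 : ∀ n, ∀ B ∈ F, ∑ i ∈ B, S n i ≤ 2 - 2 * a n := fun n => (s n).2.2.2
  have stab : ∀ n k, n ≤ k → ∀ i < m n, S k i = S n i := by
    intro n k h i hi
    induction k, h using Nat.le_induction with
    | base => rfl
    | succ k hk ih => rw [e1 k i (hi.trans_le (m1.monotone hk)), ih]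
  have up : ∀ n k, n ≤ k → ∀ i, S k i ≤ S n i + η n * w i := by
    intro n k h i
    have p := mul_nonneg (η0 n).le (w0 i)
    induction k, h using Nat.le_induction with
    | base => linarith
    | succ k hk ih =>
      by_cases hi : i < m k
      · rwa [e1 k i hi]
      · linarith [e2 k i (by omega), mul_le_mul_of_nonneg_right (η1 hk) (w0 i), i0 n i]
  let u : ℕ → ℝ := fun i => S (i + 1) i
  have ue : ∀ i k, i < k → u i = S k i := fun i k h =>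
    (stab (i + 1) k h i (Nat.lt_of_succ_le (m1.le_apply (x := i + 1)))).symm
  have u1 : ∀ n i, S n i ≤ u i := by
    intro n i
    by_cases hi : i < m n
    · rw [ue i (max n (i + 1)) (by omega), stab n _ (le_max_left _ _) i hi]
    · rw [i1 n i (by omega)]
      exact i0 (i + 1) i
  have u2 : ∀ n i, u i ≤ S n i + η n * w i := fun n i => by
    rw [ue i (max n (i + 1)) (by omega)]
    exact up n _ (le_max_left _ _) i
  have u3 : ∀ B ∈ F, ∑ i ∈ B, u i ≤ 2 := by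
    intro B hB
    rw [sum_congr rfl fun i hi => ue i (B.sup id + 1) (Nat.lt_succ_of_le (le_sup (f := id) hi))]
    linarith [i2 (B.sup id + 1) B hB, a0 (B.sup id + 1)]
  choose B hB hB' using e3
  let A : Set ℕ := {i | ∀ᶠ n in hyperfilter ℕ, i ∈ B n}
  obtain ⟨W, hW⟩ := w3 A fun D hD => by
    obtain ⟨n, hn⟩ := ((eventually_all_finset D).2 fun i hi => hD hi).exists
    exact her _ (hB n) _ hn
  obtain ⟨k, hk⟩ := exists_nat_ge W
  obtain ⟨r, hr⟩ := K u 2 (fun i => i0 (i + 1) i) u3 (a k / 4) (by linarith [a0 k])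
  have ev : ∀ᶠ n in hyperfilter ℕ, ∀ i ∈ range r, i ∈ B n → i ∈ A := by
    refine (eventually_all_finset _).2 fun i _ => ?_
    by_cases hi : i ∈ A
    · exact Eventually.of_forall fun _ _ => hi
    · exact (Ultrafilter.eventually_not.2 hi).mono fun n h h' => absurd h' h
  have big : ∀ᶠ n in hyperfilter ℕ, k + 3 ≤ n :=
    hyperfilter_le_cofinite (by rw [Nat.cofinite_eq_atTop]; exact eventually_ge_atTop _)
  obtain ⟨n, n1, n2⟩ := (ev.and big).exists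
  have t1 := (hB' n).trans (sum_le_sum fun i _ => u1 (n + 1) i)
  rw [← sum_filter_add_sum_filter_not (B n) (· < r)] at t1
  have t2 := hr _ (her _ (hB n) _ (filter_subset (fun i => ¬ i < r) _)) fun i hi =>
    not_lt.1 (mem_filter.1 hi).2
  have t3 := sum_le_sum fun i (_ : i ∈ (B n).filter (· < r)) => u2 k i
  rw [sum_add_distrib, ← mul_sum] at t3
  have t4 := i2 k _ (her _ (hB n) _ (filter_subset (· < r) _))
  have t5 := hW ((B n).filter (· < r)) fun i hi =>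
    n1 i (mem_range.2 (mem_filter.1 hi).2) (mem_filter.1 hi).1
  have t6 : η k * ∑ i ∈ (B n).filter (· < r), w i ≤ a k := by
    refine (mul_le_mul_of_nonneg_left (t5.trans (show W ≤ k + 1 by linarith)) (η0 k).le).trans ?_
    simp only [η]
    rw [div_mul_cancel₀ _ (by positivity)]
  have t7 := a2 n2
  rw [a1, a1, a1] at t7
  linarith [a0 k]

end Pool.Agent.H19.Fo
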