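import Pool.Agent.H19.CpC

/-! Grothendieck spaces in the sense of Arhangel'skii: definitions and first lemmas. -/

namespace Pool.Agent.H19.Gr

open Set Filter Topology

/-- `C_p(X)`: continuous real functions with the topology of pointwise convergence. -/
abbrev Cp (X : Type*) [TopologicalSpace X] : Type _ := {f : X → ℝ // Continuous f}

/-- `A` is countably compact in `Z`: every infinite subset of `A` has an accumulation point. -/
def CtblyCompactIn {Z : Type*} [TopologicalSpace Z] (A : Set Z) : Prop :=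
  ∀ B ⊆ A, B.Infinite → ∃ z : Z, AccPt z (𝓟 B)

/-- g-spaces. -/
def GSpace (Z : Type*) [TopologicalSpace Z] : Prop :=
  ∀ A : Set Z, CtblyCompactIn A → IsCompact (closure A)

/-- Hereditarily g-spaces. -/
def HerGSpace (Z : Type*) [TopologicalSpace Z] : Prop := ∀ S : Set Z, GSpace S

/-- Grothendieck spaces. -/
def Grothendieck (X : Type*) [TopologicalSpace X] : Prop := HerGSpace (Cp X)

/-- Weakly Grothendieck spaces. -/
def WeaklyGrothendieck (X : Type*) [TopologicalSpace X] : Prop := GSpace (Cp X)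

section
variable {Z : Type*} [TopologicalSpace Z] {A : Set Z}

lemma exists_cl [T1Space Z] (hA : CtblyCompactIn A) {a : ℕ → Z} (ha : ∀ n, a n ∈ A) :
    ∃ z, MapClusterPt z atTop a := by
  by_cases h : (range a).Infinite
  · obtain ⟨z, hz⟩ := hA _ (range_subset_iff.2 ha) h
    refine ⟨z, mapClusterPt_iff_frequently.2 fun U hU => ?_⟩
    rw [← Nat.cofinite_eq_atTop, frequently_cofinite_iff_infinite]
    have := Set.Infinite.of_accPt (hz.nhds_inter hU)
    exact (this.preimage inter_subset_right).mono fun n hn => hn.1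
  · haveI := (not_infinite.1 h).to_subtype
    obtain ⟨z, hz⟩ := Finite.exists_infinite_fiber (rangeFactorization a)
    refine ⟨z, mapClusterPt_iff_frequently.2 fun U hU => ?_⟩
    rw [← Nat.cofinite_eq_atTop, frequently_cofinite_iff_infinite]
    refine (infinite_coe_iff.1 hz).mono fun n hn => ?_
    have : a n = z := congrArg Subtype.val hn
    show a n ∈ U
    rw [this]; exact mem_of_mem_nhds hU

lemma cc_of_cl (h : ∀ a : ℕ → Z, (∀ n, a n ∈ A) → ∃ z, MapClusterPt z atTop a) :
    CtblyCompactIn A := by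
  intro B hB hBi
  obtain ⟨z, hz⟩ := h (fun n => hBi.natEmbedding B n) fun n => hB (hBi.natEmbedding B n).2
  refine ⟨z, accPt_iff_frequently.2 ?_⟩
  rw [frequently_iff]
  intro U hU
  have h1 := mapClusterPt_iff_frequently.1 hz U hU
  rw [← Nat.cofinite_eq_atTop, frequently_cofinite_iff_infinite] at h1
  have h2 := h1.image (f := fun n => (hBi.natEmbedding B n : Z))
    (Subtype.val_injective.comp (hBi.natEmbedding B).injective).injOn
  obtain ⟨_, ⟨n, hn, rfl⟩, hz'⟩ := h2.exists_notMem_finite (finite_singleton z)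
  exact ⟨_, hn, hz', (hBi.natEmbedding B n).2⟩

lemma mem_of_cl {β : Type*} {l : Filter β} {a : β → Z} {z : Z} (hz : MapClusterPt z l a)
    {C : Set Z} (hC : IsClosed C) (h : ∀ᶠ n in l, a n ∈ C) : z ∈ C :=
  hC.closure_subset (mem_closure_iff_clusterPt.2
    (hz.clusterPt.mono (le_principal_iff.2 (mem_map.2 h))))

lemma exists_lift [T1Space Z] (hA : CtblyCompactIn A) {M : Type*} [TopologicalSpace M]
    [T2Space M] {φ : Z → M} (hφ : Continuous φ) {a : ℕ → Z} (ha : ∀ n, a n ∈ A) {m : M}
    (hm : Tendsto (φ ∘ a) atTop (𝓝 m)) : ∃ z ∈ closure (range a), φ z = m := by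
  obtain ⟨z, hz⟩ := exists_cl hA ha
  exact ⟨z, mem_of_cl hz isClosed_closure (Eventually.of_forall fun n =>
    subset_closure (mem_range_self n)),
    eq_of_nhds_neBot ((hz.continuousAt_comp hφ.continuousAt).clusterPt.mono hm)⟩

lemma exists_lift' [T1Space Z] (hA : CtblyCompactIn A) {M : Type*} [TopologicalSpace M]
    [T2Space M] [FrechetUrysohnSpace M] {φ : Z → M} (hφ : Continuous φ) {m : M}
    (hm : m ∈ closure (φ '' A)) : ∃ z ∈ closure A, φ z = m := by
  obtain ⟨u, hu, hum⟩ := mem_closure_iff_seq_limit.1 hm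
  choose a ha hau using hu
  obtain ⟨z, hz, h⟩ := exists_lift hA hφ ha (m := m) (by rwa [show φ ∘ a = u from funext hau])
  exact ⟨z, closure_mono (range_subset_iff.2 ha) hz, h⟩

lemma bdd [T1Space Z] (hA : CtblyCompactIn A) {φ : Z → ℝ} (hφ : Continuous φ) :
    ∃ c, ∀ a ∈ A, |φ a| ≤ c := by
  by_contra h
  push Not at h
  choose a ha ha' using fun n : ℕ => h n
  obtain ⟨z, hz⟩ := exists_cl hA ha
  have : z ∈ {w | |φ z| + 1 ≤ |φ w|} := by
    refine mem_of_cl hz (isClosed_le continuous_const hφ.abs) ?_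
    obtain ⟨N, hN⟩ := exists_nat_ge (|φ z| + 1)
    refine (eventually_ge_atTop N).mono fun n hn => hN.trans (le_trans ?_ (ha' n).le)
    exact_mod_cast hn
  simp only [mem_setOf_eq] at this
  linarith

lemma cpt_closure [T1Space Z] (hA : CtblyCompactIn A) {X : Type*} {ι : Z → X → ℝ}
    (hι : Continuous ι) : IsCompact (closure (ι '' A)) := by
  choose c hc using fun x => bdd hA ((continuous_apply x).comp hι)
  refine (isCompact_univ_pi fun x => isCompact_Icc (a := -c x) (b := c x)).closure_of_subset ?_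
  rintro _ ⟨a, ha, rfl⟩ x -
  exact abs_le.1 (hc x a ha)

lemma cpt_of_sub {W : Type*} [TopologicalSpace W] {ι : Z → W} (hι : IsInducing ι)
    (h : IsCompact (closure (ι '' A))) (h' : closure (ι '' A) ⊆ range ι) :
    IsCompact (closure A) := by
  rw [hι.closure_eq_preimage_closure_image]
  exact (hι.isCompact_preimage_iff h').2 h

end

lemma wg_of_groth {X : Type*} [TopologicalSpace X] (h : Grothendieck X) : WeaklyGrothendieck X := by
  intro A hA
  have h1 := h univ (Subtype.val ⁻¹' A) (cc_of_cl fun a ha => by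
    obtain ⟨z, hz⟩ := exists_cl hA ha
    exact ⟨⟨z, trivial⟩, IsInducing.subtypeVal.mapClusterPt_iff.1 hz⟩)
  have h2 := h1.image continuous_subtype_val
  rwa [← isClosed_univ.isClosedEmbedding_subtypeVal.closure_image_eq, Subtype.image_preimage_coe,
    univ_inter] at h2

theorem groth_of_sep (Y : Type*) [TopologicalSpace Y] [TopologicalSpace.SeparableSpace Y] :
    Grothendieck Y := by
  intro S A hA
  have hι : IsInducing fun s : S => s.1.1 := IsInducing.subtypeVal.comp IsInducing.subtypeVal
  refine cpt_of_sub hι (cpt_closure hA hι.continuous) fun p hp => ?_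
  obtain ⟨D, hDc, hD⟩ := TopologicalSpace.exists_countable_dense Y
  have h1 : ∀ E : Set Y, E.Countable → ∃ q : S, ∀ y ∈ E, q.1.1 y = p y := by
    intro E hE
    haveI := hE.to_subtype
    have hr : Continuous fun (f : Y → ℝ) (y : E) => f y := by fun_prop
    obtain ⟨q, -, hq⟩ := exists_lift' hA (hr.comp hι.continuous) (m := fun y : E => p y) (by
      rw [image_comp]
      exact image_closure_subset_closure_image hr (mem_image_of_mem _ hp))
    exact ⟨q, fun y hy => congrFun hq ⟨y, hy⟩⟩
  obtain ⟨q, hq⟩ := h1 D hDc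
  refine ⟨q, funext fun y => ?_⟩
  obtain ⟨q', hq'⟩ := h1 _ (hDc.insert y)
  have : q.1.1 = q'.1.1 := Continuous.ext_on hD q.1.2 q'.1.2 fun d hd =>
    (hq d hd).trans (hq' d (mem_insert_of_mem _ hd)).symm
  exact (congrFun this y).trans (hq' y (mem_insert _ _))

end Pool.Agent.H19.Gr
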