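import Pool.Agent.H19.GrA

/-! A separable space with a perfect preimage that is not weakly Grothendieck. -/

namespace Pool.Agent.H19.Gr

open Set Filter Topology TopologicalSpace

abbrev TT : Type := ℕ → Bool
abbrev II : Type := ℕ → TT

lemma sep_pi : SeparableSpace (II → ℝ) := by
  have h1 : DenseRange fun (f : C(II, ℝ)) (i : II) => f i := by
    intro p
    refine mem_closure_of_tendsto (b := atTop) (f := fun E : Finset II => fun i =>
      (ContinuousMap.exists_restrict_eq E.finite_toSet.isClosed
        ⟨fun j => p j, continuous_of_discreteTopology⟩).choose i) ?_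
      (Eventually.of_forall fun E => mem_range_self _)
    rw [tendsto_pi_nhds]
    intro i
    refine tendsto_const_nhds.congr' ((eventually_ge_atTop {i}).mono fun E hE => ?_)
    have := (ContinuousMap.exists_restrict_eq E.finite_toSet.isClosed
        ⟨fun j => p j, continuous_of_discreteTopology⟩).choose_spec
    exact (DFunLike.congr_fun this ⟨i, by simpa using hE⟩).symm
  exact h1.separableSpace (by fun_prop)

open Classical in
/-- The points of the one-point Lindelöfication inside `ℝ ^ II`. -/
noncomputable def xx (α : TT) (b : II) : ℝ := if α ∈ range b ∧ α ≠ default then 1 else 0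

abbrev YY : Type := {z : (II → ℝ) × ℝ // z.1 ∈ range xx ∨ z.2 ≠ 0}
abbrev XX : Type := {z : YY × Bool // z.2 = true → z.1.1.2 = 0}

lemma sep_YY : SeparableSpace YY := by
  haveI := sep_pi
  have hU : IsOpen {z : (II → ℝ) × ℝ | z.2 ≠ 0} := isOpen_ne_fun continuous_snd continuous_const
  have hd : Dense {z : (II → ℝ) × ℝ | z.2 ≠ 0} :=
    (dense_compl_singleton (0 : ℝ)).preimage isOpenMap_snd
  obtain ⟨D, hDc, hD⟩ := exists_countable_dense ((II → ℝ) × ℝ)
  refine ⟨⟨Subtype.val ⁻¹' (D ∩ {z | z.2 ≠ 0}),
    (hDc.mono inter_subset_left).preimage Subtype.val_injective, ?_⟩⟩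
  refine Subtype.dense_iff.2 fun z _ => closure_mono ?_ (hD.inter_of_isOpen_right hd hU z)
  exact fun w hw => ⟨⟨w, Or.inr hw.2⟩, hw, rfl⟩

/-- The copy of the Lindelöfication in `XX`. -/
noncomputable def ee (α : TT) : XX := ⟨(⟨(xx α, 0), Or.inl (mem_range_self α)⟩, true), fun _ => rfl⟩

lemma cases_XX (z : XX) : z.1.2 = false ∨ ∃ α, z = ee α := by
  obtain ⟨⟨⟨⟨x, t⟩, h⟩, c⟩, h'⟩ := z
  cases c
  · exact Or.inl rfl
  · obtain rfl : t = 0 := h' rfl
    obtain ⟨α, rfl⟩ := h.resolve_right (by simp)
    exact Or.inr ⟨α, rfl⟩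

/-- The test functions. -/
noncomputable def gg (b : II) : Cp XX :=
  ⟨fun z => (if z.1.2 then 1 else 0) * z.1.1.1.1 b,
    ((continuous_of_discreteTopology (f := fun c : Bool => if c then (1 : ℝ) else 0)).comp
      (by fun_prop)).mul (by fun_prop)⟩

lemma gg_ee (b : II) (α : TT) : (gg b).1 (ee α) = xx α b := by simp [gg, ee]

lemma gg_false (b : II) {z : XX} (h : z.1.2 = false) : (gg b).1 z = 0 := by simp [gg, h]

lemma cc_gg : CtblyCompactIn (range gg) := by
  refine cc_of_cl fun a ha => ?_
  choose b hb using ha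
  have hK : IsCompact (univ.pi fun _ : XX => ({0, 1} : Set ℝ)) :=
    isCompact_univ_pi fun _ => (toFinite _).isCompact
  obtain ⟨p, hp, hp'⟩ := hK.exists_mapClusterPt (f := atTop) (u := fun n => (a n).1) (by
    refine le_principal_iff.2 (mem_map.2 (Eventually.of_forall fun n z _ => ?_))
    show (a n).1 z ∈ ({0, 1} : Set ℝ)
    rw [← hb]
    rcases cases_XX z with h | ⟨α, rfl⟩
    · simp [gg_false _ h]
    · rw [gg_ee, xx]; split_ifs <;> simp)
  have h0 : ∀ z, (∀ n, (gg (b n)).1 z = 0) → p z = 0 := fun z hz =>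
    mem_of_cl hp' (isClosed_eq (continuous_apply z) continuous_const)
      (Eventually.of_forall fun n => by rw [← hb]; exact hz n)
  have h1 : {α | p (ee α) ≠ 0}.Countable := by
    refine (countable_iUnion fun n => countable_range (b n)).mono fun α hα => ?_
    by_contra h
    refine hα (h0 _ fun n => ?_)
    rw [gg_ee, xx, if_neg]
    exact fun h' => h (mem_iUnion.2 ⟨n, h'.1⟩)
  obtain ⟨c, hc⟩ := (h1.insert default).exists_eq_range (insert_nonempty _ _)
  have h2 : (gg c).1 = p := by
    funext z
    rcases cases_XX z with h | ⟨α, rfl⟩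
    · rw [gg_false _ h, h0 z fun n => gg_false _ h]
    · rw [gg_ee, xx, ← hc]
      split_ifs with h
      · exact ((hp _ (mem_univ _)).resolve_left (h.1.resolve_left h.2)).symm
      · by_contra h3
        refine h ⟨Or.inr (Ne.symm h3), fun h4 => h3 (h0 _ fun n => ?_).symm⟩
        rw [gg_ee, xx, if_neg fun h5 => h5.2 h4]
  refine ⟨gg c, ?_⟩
  rw [← h2] at hp'
  exact IsInducing.subtypeVal.mapClusterPt_iff.1 hp'

lemma not_wg : ¬ WeaklyGrothendieck XX := by
  intro h
  have h1 := h _ cc_gg
  have h2 : ∀ E : Finset TT, ∃ c : II, insert default (E : Set TT) = range c := fun E =>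
    (E.countable_toSet.insert default).exists_eq_range (insert_nonempty _ _)
  choose c hc using h2
  obtain ⟨p, hp, hp'⟩ := h1.exists_mapClusterPt (f := atTop) (u := fun E => gg (c E))
    (le_principal_iff.2 (mem_map.2 (Eventually.of_forall fun E =>
      subset_closure (mem_range_self _))))
  have hc' : ∀ z, Continuous fun q : Cp XX => q.1 z := fun z =>
    (continuous_apply z).comp continuous_subtype_val
  have h3 : p.1 (ee default) = 0 := mem_of_cl hp' (isClosed_eq (hc' _) continuous_const)
    (Eventually.of_forall fun E => by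
      show (gg _).1 _ = 0
      rw [gg_ee, xx, if_neg fun h5 => h5.2 rfl])
  have h4 : ∀ α ≠ default, p.1 (ee α) = 1 := fun α hα =>
    mem_of_cl hp' (isClosed_eq (hc' _) continuous_const) ((eventually_ge_atTop {α}).mono
      fun E hE => by
        show (gg _).1 _ = 1
        rw [gg_ee, xx, if_pos ⟨hc E ▸ Or.inr (by simpa using hE), hα⟩])
  haveI : (cocountable : Filter TT).NeBot := by
    refine ⟨fun h5 => ?_⟩
    have : (∅ : Set TT) ∈ (cocountable : Filter TT) := h5 ▸ mem_bot
    rw [mem_cocountable, compl_empty, countable_univ_iff] at this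
    obtain ⟨f, hf⟩ := exists_surjective_nat TT
    obtain ⟨n, hn⟩ := hf fun n => !f n n
    simpa using congrFun hn n
  have h5 : Tendsto ee cocountable (𝓝 (ee default)) := by
    simp only [tendsto_subtype_rng, Prod.tendsto_iff, tendsto_pi_nhds, ee, tendsto_const_nhds,
      and_true]
    intro b
    refine tendsto_const_nhds.congr' ?_
    refine mem_cocountable.2 ((countable_range b).mono fun α hα => ?_)
    by_contra h6
    refine hα ?_
    show xx _ _ = xx _ _
    rw [xx, xx, if_neg fun h => h.2 rfl, if_neg fun h => h6 h.1]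
  have h6 : Tendsto (p.1 ∘ ee) cocountable (𝓝 1) := by
    refine tendsto_const_nhds.congr' (mem_cocountable.2 ((countable_singleton default).mono
      fun α hα => ?_))
    by_contra h7
    exact hα (h4 α h7).symm
  have := tendsto_nhds_unique ((p.2.tendsto _).comp h5) h6
  rw [h3] at this
  exact zero_ne_one this

lemma closed_XX : IsClosed {z : YY × Bool | z.2 = true → z.1.1.2 = 0} := by
  have : {z : YY × Bool | z.2 = true → z.1.1.2 = 0} = {z | z.2 = false} ∪ {z | z.1.1.2 = 0} := by
    ext ⟨y, c⟩; cases c <;> simp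
  rw [this]
  exact (isClosed_eq continuous_snd continuous_const).union
    (isClosed_eq (by fun_prop) continuous_const)

end Pool.Agent.H19.Gr
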