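import Pool.Agent.H19.GrA

/-! The product of a Grothendieck space and a compact space is Grothendieck. -/

namespace Pool.Agent.H19.Gr

open Set Filter Topology Pool.Agent.H19.Cp

variable {X K Z : Type*} [TopologicalSpace X] [TopologicalSpace K] [TopologicalSpace Z]
  [T1Space Z] {A : Set Z}

lemma g_one (hX : Grothendieck X) (hA : CtblyCompactIn A) {φ : Z → X → ℝ} (hφ : Continuous φ)
    (hφ' : ∀ z, Continuous (φ z)) : closure (φ '' A) ⊆ range φ := by
  have hι : IsInducing fun s : {f : Cp X | f.1 ∈ range φ} => s.1.1 :=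
    IsInducing.subtypeVal.comp IsInducing.subtypeVal
  have h1 := hX {f : Cp X | f.1 ∈ range φ} {s | s.1.1 ∈ φ '' A} (cc_of_cl fun u hu => by
    choose a ha hau using hu
    obtain ⟨z, hz⟩ := exists_cl hA ha
    refine ⟨⟨⟨φ z, hφ' z⟩, mem_range_self z⟩, hι.mapClusterPt_iff.1 ?_⟩
    have := hz.continuousAt_comp hφ.continuousAt
    rwa [show φ ∘ a = (fun s : {f : Cp X | f.1 ∈ range φ} => s.1.1) ∘ u from funext hau] at this)
  refine (closure_minimal ?_ (h1.image hι.continuous).isClosed).trans ?_
  · rintro _ ⟨a, ha, rfl⟩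
    exact ⟨⟨⟨φ a, hφ' a⟩, mem_range_self a⟩, subset_closure (mem_image_of_mem φ ha), rfl⟩
  · rintro _ ⟨s, -, rfl⟩
    exact s.2

lemma g_two (hX : Grothendieck X) (T : Set (X → ℝ)) (hT : ∀ g ∈ T, Continuous g)
    (hT' : IsCompact T) : FrechetUrysohnSpace T := by
  haveI := isCompact_iff_compactSpace.1 hT'
  refine ⟨fun B p hp => ?_⟩
  by_cases hpB : p ∈ B
  · exact subset_seqClosure hpB
  have h1 : ¬ CtblyCompactIn (Z := ({p}ᶜ : Set T)) (Subtype.val ⁻¹' B) := by
    intro h
    obtain ⟨z, hz⟩ := g_one hX h (φ := fun z => z.1.1) (by fun_prop) (fun z => hT _ z.1.2)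
      (a := p.1) (closure_mono (by
        rintro _ ⟨b, hb, rfl⟩
        exact ⟨⟨b, fun h => hpB (h ▸ hb)⟩, hb, rfl⟩) (closure_subtype.1 hp))
    exact z.2 (Subtype.ext hz)
  have h2 := mt cc_of_cl h1
  push Not at h2
  obtain ⟨a, ha, ha'⟩ := h2
  refine ⟨fun n => a n, ha, tendsto_nhds_of_unique_mapClusterPt fun q hq => ?_⟩
  by_contra h
  exact ha' ⟨q, h⟩ (IsInducing.subtypeVal.mapClusterPt_iff.1 hq)

/-- Grothendieck's theorem for compact spaces. -/
lemma g_cpt [CompactSpace K] (hA : CtblyCompactIn A) {φ : Z → K → ℝ} (hφ : Continuous φ)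
    (hφ' : ∀ z, Continuous (φ z)) {g : K → ℝ} (hg : g ∈ closure (φ '' A)) : Continuous g := by
  classical
  refine continuous_iff_isClosed.2 fun N' hN' => isClosed_of_closure_subset fun k0 hk0 => ?_
  have h1 : ∀ E : Finset K, ∃ C ⊆ A, C.Countable ∧ ∃ q ∈ closure C,
      (∀ l ∈ E, φ q l = g l) ∧ φ q k0 = g k0 := by
    intro E
    have hr : Continuous fun f : K → ℝ => (fun l : E => f l, f k0) := by fun_prop
    obtain ⟨u, hu, hum⟩ := mem_closure_iff_seq_limit.1
      (image_closure_subset_closure_image hr (mem_image_of_mem _ hg))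
    simp only [image_image] at hu
    choose a ha hau using hu
    obtain ⟨q, hq, h⟩ := exists_lift hA (hr.comp hφ) ha (m := (fun l : E => g l, g k0))
      (hum.congr fun n => (hau n).symm)
    exact ⟨range a, range_subset_iff.2 ha, countable_range a, q, hq,
      fun l hl => congrFun (congrArg Prod.fst h) ⟨l, hl⟩, congrArg Prod.snd h⟩
  choose C hCA hCc q hq hqE hq0 using h1
  choose W hWN hWc hW using fun E : Finset K => exists_ctble
    (U := (fun z => (⟨φ z, hφ' z⟩ : C(K, ℝ))) '' ⋃ E' ∈ E.powerset, C E')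
    ((E.powerset.countable_toSet.biUnion fun E' _ => hCc E').image _) (g ⁻¹' N')
  set L := cls W ∅ with hL
  have hLc : L.Countable := cls_countable W hWc countable_empty
  have hLN : L ⊆ g ⁻¹' N' := cls_min W (empty_subset _) fun E _ => hWN E
  obtain ⟨k, hk, hk'⟩ := exists_all L (D := closure L) isClosed_closure
    (fun E => {k | ∀ E' ⊆ E, ∀ z ∈ C E', φ z k = φ z k0})
    (fun E => by
      simp only [setOf_forall]
      exact isClosed_iInter fun _ => isClosed_iInter fun _ => isClosed_iInter fun z =>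
        isClosed_iInter fun _ => isClosed_eq (hφ' z) continuous_const)
    (fun E F hEF k hk E' hE' => hk E' (hE'.trans hEF))
    (fun E hE => by
      obtain ⟨k, hk, hk'⟩ := hW E k0 hk0
      exact ⟨k, closure_mono (cls_closed W E hE) hk, fun E' hE' z hz =>
        hk' _ (mem_image_of_mem _ (mem_biUnion (Finset.mem_powerset.2 hE') hz))⟩)
  haveI := hLc.to_subtype
  have hr : Continuous fun z => (fun l : L => φ z l, φ z k0) := by fun_prop
  set D := ⋃ E : Finset L, C (E.map (Function.Embedding.subtype _)) with hD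
  obtain ⟨z, hz, h⟩ := exists_lift' (A := D)
    (fun B hB => hA B (hB.trans (iUnion_subset fun E => hCA _))) hr
    (m := (fun l : L => g l, g k0)) (by
      refine isClosed_closure.mem_of_tendsto (b := atTop) (f := fun E : Finset L =>
        (fun l : L => φ (q (E.map (Function.Embedding.subtype _))) l,
          φ (q (E.map (Function.Embedding.subtype _))) k0)) ?_ (Eventually.of_forall fun E =>
        image_closure_subset_closure_image hr (mem_image_of_mem _
          (closure_mono (subset_iUnion _ E) (hq _))))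
      simp only [hq0]
      refine (tendsto_pi_nhds.2 fun l => ?_).prodMk_nhds tendsto_const_nhds
      refine tendsto_const_nhds.congr' ((eventually_ge_atTop {l}).mono fun E hE => ?_)
      exact (hqE _ l.1 (Finset.mem_map.2 ⟨l, by simpa using hE, rfl⟩)).symm)
  have h2 : φ z k = φ z k0 := by
    refine closure_minimal (t := {z | φ z k = φ z k0}) (iUnion_subset fun E w hw => ?_)
      (isClosed_eq (by fun_prop) (by fun_prop)) hz
    refine hk' _ (fun l hl => ?_) _ Subset.rfl w hw
    obtain ⟨l', -, rfl⟩ := Finset.mem_map.1 hl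
    exact l'.2
  have h3 : k ∈ φ z ⁻¹' N' := closure_minimal (fun l hl => by
    show φ z l ∈ N'
    rw [show φ z l = g l from congrFun (congrArg Prod.fst h) ⟨l, hl⟩]
    exact hLN hl) (hN'.preimage (hφ' z)) hk
  show g k0 ∈ N'
  rw [← show φ z k0 = g k0 from congrArg Prod.snd h, ← h2]
  exact h3

lemma g_weak (hX : WeaklyGrothendieck X) (hA : CtblyCompactIn A) {φ : Z → X → ℝ}
    (hφ : Continuous φ) (hφ' : ∀ z, Continuous (φ z)) {g : X → ℝ} (hg : g ∈ closure (φ '' A)) :
    Continuous g := by
  have h1 := hX {s | s.1 ∈ φ '' A} (cc_of_cl fun u hu => by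
    choose a ha hau using hu
    obtain ⟨z, hz⟩ := exists_cl hA ha
    refine ⟨⟨φ z, hφ' z⟩, IsInducing.subtypeVal.mapClusterPt_iff.1 ?_⟩
    have := hz.continuousAt_comp hφ.continuousAt
    rwa [show φ ∘ a = Subtype.val ∘ u from funext hau] at this)
  obtain ⟨s, -, rfl⟩ := closure_minimal (t := Subtype.val '' closure {s : Cp X | s.1 ∈ φ '' A}) (by
    rintro _ ⟨a, ha, rfl⟩
    exact ⟨⟨φ a, hφ' a⟩, subset_closure (mem_image_of_mem φ ha), rfl⟩)
    (h1.image continuous_subtype_val).isClosed hg
  exact s.2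

lemma cont_sup {Y : Type*} [TopologicalSpace Y] {b : ℕ → Y → ℝ} {G : Y → ℝ}
    (hb : ∀ n, Continuous (b n)) (hb0 : ∀ n y, 0 ≤ b n y) (hb1 : ∀ n y, b n y ≤ 1)
    (hG : Continuous G) (hG0 : ∀ y, 0 ≤ G y) (h : ∀ y0, G y0 = 0 → ∀ ε > 0, ∀ᶠ y in 𝓝 y0,
      ∀ n, b n y - 2 ^ n * G y ≤ b n y0 + ε) :
    Continuous fun y => ⨆ n, max 0 (b n y - 2 ^ n * G y) := by
  have hc : ∀ n, Continuous fun y => max 0 (b n y - 2 ^ n * G y) := fun n => by fun_prop
  have hB : ∀ y, BddAbove (range fun n => max 0 (b n y - 2 ^ n * G y)) := fun y => ⟨1, by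
    rintro _ ⟨n, rfl⟩
    have := mul_nonneg (pow_nonneg zero_le_two n) (hG0 y)
    exact max_le zero_le_one (by linarith [hb1 n y])⟩
  have h1 : ∀ y0, ∀ ε > 0, ∀ᶠ y in 𝓝 y0, ∀ n,
      max 0 (b n y - 2 ^ n * G y) ≤ max 0 (b n y0 - 2 ^ n * G y0) + ε := by
    intro y0 ε hε
    rcases (hG0 y0).eq_or_lt with h0 | h0
    · refine (h y0 h0.symm ε hε).mono fun y hy n => max_le (by positivity) ((hy n).trans ?_)
      rw [← h0, mul_zero, sub_zero, max_eq_right (hb0 n y0)]
    · obtain ⟨N, hN⟩ := pow_unbounded_of_one_lt (2 / G y0) (one_lt_two (α := ℝ))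
      have h2 : ∀ᶠ y in 𝓝 y0, ∀ n ∈ Finset.range N,
          max 0 (b n y - 2 ^ n * G y) < max 0 (b n y0 - 2 ^ n * G y0) + ε :=
        (eventually_all_finset _).2 fun n _ => (hc n).continuousAt.eventually_lt
          continuousAt_const (by linarith)
      filter_upwards [h2, continuousAt_const.eventually_lt hG.continuousAt (half_lt_self h0)]
        with y hy hy' n
      rcases lt_or_ge n N with hn | hn
      · exact (hy n (Finset.mem_range.2 hn)).le
      · have h3 : (2 : ℝ) ^ N ≤ 2 ^ n := pow_le_pow_right₀ one_le_two hn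
        rw [div_lt_iff₀ h0] at hN
        have h4 : (0 : ℝ) < 2 ^ N := by positivity
        rw [max_eq_left (by nlinarith [hb1 n y])]
        positivity
  refine continuous_iff_lower_upperSemicontinuous.2 ⟨lowerSemicontinuous_ciSup hB
    fun n => (hc n).lowerSemicontinuous, fun y0 t ht => ?_⟩
  obtain ⟨ε, hε, hε'⟩ := exists_pos_add_of_lt' ht
  refine (h1 y0 (ε / 2) (half_pos hε)).mono fun y hy => ?_
  refine (ciSup_le fun n => (hy n).trans (add_le_add_left (le_ciSup (hB y0) n) _)).trans_lt ?_
  rw [← hε']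
  linarith

lemma equi_ctble [CompactSpace K] (hX : WeaklyGrothendieck X) (hA : CtblyCompactIn A)
    {ι : Z → X × K → ℝ} (hι : Continuous ι) (hι' : ∀ z, Continuous (ι z)) {p : X × K → ℝ}
    (hp : p ∈ closure (ι '' A)) (hp' : ∀ k, Continuous fun x => p (x, k)) (l : ℕ → K) (x0 : X)
    {ε : ℝ} (hε : 0 < ε) : ∀ᶠ x in 𝓝 x0, ∀ n, min 1 |p (x, l n) - p (x0, l n)| ≤ ε := by
  set a : ℕ → (X × K → ℝ) → X → ℝ :=
    fun n q x => (1 / 2) ^ n * min 1 |q (x, l n) - p (x, l n)| with ha
  have ha0 : ∀ n q x, 0 ≤ a n q x := fun n q x => by rw [ha]; positivity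
  have ha1 : ∀ n q x, ‖a n q x‖ ≤ (1 / 2) ^ n := fun n q x => by
    rw [Real.norm_of_nonneg (ha0 n q x)]
    exact mul_le_of_le_one_right (by positivity) (min_le_left _ _)
  set G : (X × K → ℝ) → X → ℝ := fun q x => ∑' n, a n q x with hG
  have hG0 : ∀ q x, 0 ≤ G q x := fun q x => tsum_nonneg fun n => ha0 n q x
  have hG1 : ∀ n q x, min 1 |q (x, l n) - p (x, l n)| ≤ 2 ^ n * G q x := fun n q x => by
    have h3 : a n q x ≤ G q x := (Summable.of_norm_bounded summable_geometric_two
      fun n => ha1 n q x).le_tsum n fun m _ => ha0 m q x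
    refine le_trans (le_of_eq ?_) (mul_le_mul_of_nonneg_left h3 (by positivity))
    simp only [ha]
    rw [← mul_assoc, ← mul_pow]
    norm_num
  have hGp : ∀ x, G p x = 0 := fun x => by simp [hG, ha]
  set b : ℕ → (X × K → ℝ) → X → ℝ := fun n q x => min 1 |q (x, l n) - p (x0, l n)| with hb
  have hb0 : ∀ n q x, 0 ≤ b n q x := fun n q x => by rw [hb]; positivity
  have hb1 : ∀ n q x, b n q x ≤ 1 := fun n q x => min_le_left _ _
  have hb2 : ∀ n q x q' x', b n q x ≤ b n q' x' + min 1 |q (x, l n) - q' (x', l n)| := by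
    intro n q x q' x'
    have h1 := abs_sub_le (q (x, l n)) (q' (x', l n)) (p (x0, l n))
    have h2 := abs_nonneg (q (x, l n) - q' (x', l n))
    have h3 := abs_nonneg (q' (x', l n) - p (x0, l n))
    simp only [hb, min_def]
    split_ifs <;> linarith
  have h1 : Continuous fun q x => ⨆ n, max 0 (b n q x - 2 ^ n * G q x) := by
    refine continuous_pi fun x => cont_sup (b := fun n q => b n q x) (G := fun q => G q x)
      (fun n => by rw [hb]; fun_prop) (fun n q => hb0 n q x) (fun n q => hb1 n q x)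
      (continuous_tsum (fun n => by rw [ha]; fun_prop) summable_geometric_two
        fun n q => ha1 n q x) (fun q => hG0 q x) fun q0 h0 δ hδ =>
      Eventually.of_forall fun q n => ?_
    have h2 := hb2 n q x p x
    have h3 := hb2 n p x q0 x
    have h4 := hG1 n q x
    have h5 := hG1 n q0 x
    rw [abs_sub_comm, h0, mul_zero] at h5
    linarith
  have h2 : Continuous fun x => ⨆ n, max 0 (b n p x - 2 ^ n * G p x) := by
    refine g_weak hX hA (h1.comp hι) (fun z => ?_) (by
      rw [image_comp]
      exact image_closure_subset_closure_image h1 (mem_image_of_mem _ hp))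
    have h3 : ∀ k, Continuous fun x => ι z (x, k) := fun k => (hι' z).comp (by fun_prop)
    refine cont_sup (b := fun n => b n (ι z)) (fun n => ?_) (fun n => hb0 n _) (fun n => hb1 n _)
      (continuous_tsum (fun n => ?_) summable_geometric_two fun n => ha1 n _) (hG0 _)
      fun x1 _ δ hδ => ?_
    · exact continuous_const.min ((h3 _).sub continuous_const).abs
    · exact continuous_const.mul (continuous_const.min ((h3 _).sub (hp' _)).abs)
    · set c := (⟨ι z, hι' z⟩ : C(X × K, ℝ)).curry
      refine (Metric.tendsto_nhds.1 (c.continuous.tendsto x1) δ hδ).mono fun x hx n => ?_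
      have h4 := hb2 n (ι z) x (ι z) x1
      have h5 : |ι z (x, l n) - ι z (x1, l n)| ≤ dist (c x) (c x1) :=
        ContinuousMap.dist_apply_le_dist (f := c x) (g := c x1) (l n)
      have h6 := mul_nonneg (pow_nonneg zero_le_two n) (hG0 (ι z) x)
      linarith [min_le_right 1 |ι z (x, l n) - ι z (x1, l n)|]
  simp only [hGp, mul_zero, sub_zero, max_eq_right (hb0 _ _ _)] at h2
  refine (h2.continuousAt.eventually_lt continuousAt_const (x₀ := x0) (g := fun _ => ε)
    (by simpa [hb] using hε)).mono fun x hx n => le_trans ?_ hx.le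
  exact le_ciSup (f := fun n => b n p x) ⟨1, by rintro _ ⟨n, rfl⟩; exact hb1 _ _ _⟩ n

omit [TopologicalSpace K] in
lemma unif (hX : WeaklyGrothendieck X) {p : X × K → ℝ} (hp : ∀ k, Continuous fun x => p (x, k))
    (hq : ∀ L : Set K, L.Countable → ∀ y, ∀ ε > 0, ∀ᶠ x in 𝓝 y,
      ∀ l ∈ L, dist (p (x, l)) (p (y, l)) ≤ ε) (x0 : X) :
    ∃ v : X → ℝ, Continuous v ∧ v x0 = 0 ∧ ∀ x k, min 1 (dist (p (x, k)) (p (x0, k))) ≤ v x := by
  set u : Finset K → Cp X := fun E =>
    ⟨fun x => min 1 (dist (fun l : E => p (x, l)) fun l => p (x0, l)),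
      continuous_const.min ((continuous_pi fun l : E => hp l).dist continuous_const)⟩ with hu
  have h1 : CtblyCompactIn (range u) := by
    refine cc_of_cl fun a ha => ?_
    choose E hE using ha
    obtain ⟨v, -, hv⟩ := (isCompact_univ_pi fun _ : X => isCompact_Icc (a := (0 : ℝ))
      (b := 1)).exists_mapClusterPt (f := atTop)
      (u := fun n => (a n).1) (le_principal_iff.2 (mem_map.2 (Eventually.of_forall fun n x _ => by
        show (a n).1 x ∈ Icc _ _
        exact hE n ▸ ⟨le_min zero_le_one dist_nonneg, min_le_left _ _⟩)))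
    have h4 : Continuous v := by
      refine continuous_iff_continuousAt.2 fun y => Metric.tendsto_nhds.2 fun ε hε => ?_
      refine (hq _ (countable_iUnion fun n => (E n).countable_toSet) y _ (half_pos hε)).mono
        fun x hx => lt_of_le_of_lt ?_ (half_lt_self hε)
      refine mem_of_cl hv (C := {w | dist (w x) (w y) ≤ ε / 2})
        (isClosed_le (by fun_prop) continuous_const) (Eventually.of_forall fun n => ?_)
      have h2 : dist (fun l : E n => p (x, l)) (fun l => p (y, l)) ≤ ε / 2 :=
        (dist_pi_le_iff (half_pos hε).le).2 fun l => hx l (mem_iUnion.2 ⟨n, l.2⟩)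
      rw [← hE n]
      refine (abs_min_sub_min_le_max (1 : ℝ) _ 1 _).trans
        (max_le (by simpa using (half_pos hε).le) ?_)
      exact (abs_dist_sub_le _ _ _).trans h2
    exact ⟨⟨v, h4⟩, IsInducing.subtypeVal.mapClusterPt_iff.1 hv⟩
  obtain ⟨v, -, hv⟩ := (hX _ h1).exists_mapClusterPt (f := atTop) (u := u)
    (le_principal_iff.2 (mem_map.2 (Eventually.of_forall fun E =>
      subset_closure (mem_range_self _))))
  have hc : ∀ z, Continuous fun q : Cp X => q.1 z := fun z =>
    (continuous_apply z).comp continuous_subtype_val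
  refine ⟨v.1, v.2, mem_of_cl hv (isClosed_eq (hc _) continuous_const)
    (Eventually.of_forall fun E => by simp [hu]), fun x k => mem_of_cl hv
    (isClosed_le continuous_const (hc x)) ((eventually_ge_atTop {k}).mono fun E hE => ?_)⟩
  exact min_le_min_left _
    (dist_le_pi_dist (fun l : E => p (x, l)) (fun l => p (x0, l)) ⟨k, by simpa using hE⟩)

lemma joint [CompactSpace K] (hX : WeaklyGrothendieck X) (hA : CtblyCompactIn A)
    {ι : Z → X × K → ℝ} (hι : Continuous ι) (hι' : ∀ z, Continuous (ι z)) {p : X × K → ℝ}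
    (hp : p ∈ closure (ι '' A)) : Continuous p := by
  have h1 : ∀ k, Continuous fun x => p (x, k) := by
    intro k
    have hG : Continuous fun (f : X × K → ℝ) x => f (x, k) := by fun_prop
    exact g_weak hX hA (hG.comp hι) (fun z => (hι' z).comp (by fun_prop)) (by
      rw [image_comp]
      exact image_closure_subset_closure_image hG (mem_image_of_mem _ hp))
  refine continuous_iff_continuousAt.2 fun ⟨x0, k0⟩ => ?_
  obtain ⟨v, hv, hv0, hv'⟩ := unif hX h1 (fun L hL y ε hε => by
    obtain ⟨l, hl⟩ := (hL.insert k0).exists_eq_range (insert_nonempty _ _)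
    refine (equi_ctble hX hA hι hι' hp h1 l y (lt_min hε one_half_pos)).mono fun x hx k hk => ?_
    obtain ⟨n, rfl⟩ : k ∈ range l := hl ▸ mem_insert_of_mem _ hk
    rcases min_le_iff.1 (hx n) with h | h
    · linarith [min_le_right ε (1 / 2)]
    · exact h.trans (min_le_left _ _)) x0
  have hG : Continuous fun (f : X × K → ℝ) k => f (x0, k) := by fun_prop
  have h3 : Continuous fun k => p (x0, k) := g_cpt hA (hG.comp hι)
    (fun z => (hι' z).comp (by fun_prop)) (by
      rw [image_comp]
      exact image_closure_subset_closure_image hG (mem_image_of_mem _ hp))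
  refine tendsto_iff_dist_tendsto_zero.2 (squeeze_zero' (Eventually.of_forall fun _ => dist_nonneg)
    (g := fun z => v z.1 + dist (p (x0, z.2)) (p (x0, k0))) ?_ ?_)
  · refine ((hv.comp continuous_fst).continuousAt.eventually_lt continuousAt_const
      (g := fun _ => 1) (by simp [hv0])).mono fun z hz => ?_
    refine (dist_triangle _ (p (x0, z.2)) _).trans (add_le_add_left ?_ _)
    exact (min_le_iff.1 (hv' z.1 z.2)).resolve_left (not_le.2 hz)
  · exact Continuous.tendsto' ((hv.comp continuous_fst).add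
      ((h3.comp continuous_snd).dist continuous_const)) _ _ (by simp [hv0])

theorem wgroth_prod [CompactSpace K] (hX : WeaklyGrothendieck X) : WeaklyGrothendieck (X × K) :=
  fun _ hA => cpt_of_sub IsInducing.subtypeVal (cpt_closure hA continuous_subtype_val)
    fun p hp => ⟨⟨p, joint hX hA continuous_subtype_val (fun z => z.2) hp⟩, rfl⟩

theorem groth_prod [CompactSpace K] (hX : Grothendieck X) : Grothendieck (X × K) := by
  intro S A hA
  have hι : IsInducing fun s : S => s.1.1 := IsInducing.subtypeVal.comp IsInducing.subtypeVal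
  have hc := hι.continuous
  have hT := cpt_closure hA hc
  refine cpt_of_sub hι hT ?_
  set T := closure ((fun s : S => s.1.1) '' A) with hTdef
  have h2 : ∀ p ∈ T, Continuous p := fun p hp =>
    joint (wg_of_groth hX) hA hc (fun z => z.1.2) hp
  intro p hp
  haveI := isCompact_iff_compactSpace.1 hT
  haveI := frechet (Y := T) (g_two hX) (F := Subtype.val) (fun s => h2 _ s.2)
    continuous_subtype_val Subtype.val_injective
  obtain ⟨u, hu, hup⟩ := mem_closure_iff_seq_limit.1 (show (⟨p, hp⟩ : T) ∈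
      closure (Subtype.val ⁻¹' ((fun s : S => s.1.1) '' A)) by
    rw [closure_subtype, Subtype.image_preimage_coe, inter_eq_right.2 subset_closure]; exact hp)
  choose a ha hau using hu
  obtain ⟨z, -, hz⟩ := exists_lift hA hc ha (m := p) (by
    rw [show (fun s : S => s.1.1) ∘ a = Subtype.val ∘ u from funext hau]
    exact (continuous_subtype_val.tendsto _).comp hup)
  exact ⟨z, hz⟩

end Pool.Agent.H19.Gr
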