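import Pool.Agent.H19.GrC

/-! The product of a Grothendieck space and a separable space is Grothendieck. -/

namespace Pool.Agent.H19.Gr

open Set Filter Topology Pool.Agent.H19.Cp

variable {X Y : Type*} [TopologicalSpace X] [TopologicalSpace Y]

omit [TopologicalSpace Y] in
lemma exists_G' {p : X × Y → ℝ} (hp : ∀ k, Continuous fun x => p (x, k)) {L : Set Y}
    (hL : L.Countable) : ∃ G : (X × Y → ℝ) → X → ℝ, Continuous G ∧
      (∀ s, (∀ k, Continuous fun x => s (x, k)) → Continuous (G s)) ∧ G p = 0 ∧
      ∀ q, G q = 0 → ∀ l ∈ L, ∀ x, q (x, l) = p (x, l) := by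
  rcases L.eq_empty_or_nonempty with rfl | hne
  · exact ⟨0, continuous_const, fun _ _ => continuous_const, rfl, by simp⟩
  obtain ⟨l, rfl⟩ := hL.exists_eq_range hne
  set a : ℕ → (X × Y → ℝ) → X → ℝ :=
    fun n q x => (1 / 2) ^ n * min 1 |q (x, l n) - p (x, l n)| with ha
  have ha0 : ∀ n q x, 0 ≤ a n q x := fun n q x => by rw [ha]; positivity
  have ha1 : ∀ n q x, ‖a n q x‖ ≤ (1 / 2) ^ n := fun n q x => by
    rw [Real.norm_of_nonneg (ha0 n q x)]
    exact mul_le_of_le_one_right (by positivity) (min_le_left _ _)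
  refine ⟨fun q x => ∑' n, a n q x, continuous_pi fun x => continuous_tsum (fun n => ?_)
    summable_geometric_two fun n q => ha1 n q x, fun q hq => continuous_tsum (fun n => ?_)
    summable_geometric_two fun n x => ha1 n q x, ?_, fun q h => ?_⟩
  · exact continuous_const.mul (continuous_const.min
      ((continuous_apply _).sub continuous_const).abs)
  · exact continuous_const.mul (continuous_const.min ((hq _).sub (hp _)).abs)
  · funext x
    simp [ha]
  · rintro _ ⟨n, rfl⟩ x
    have h3 : Summable fun n => a n q x :=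
      Summable.of_norm_bounded summable_geometric_two fun n => ha1 n q x
    have h4 : a n q x ≤ 0 := (h3.le_tsum n fun m _ => ha0 m q x).trans (congrFun h x).le
    have h5 : min 1 |q (x, l n) - p (x, l n)| ≤ 0 :=
      nonpos_of_mul_nonpos_right h4 (by positivity)
    rcases min_le_iff.1 h5 with h6 | h6
    · linarith
    · exact sub_eq_zero.1 (abs_nonpos_iff.1 h6)

theorem groth_prod_sep [TopologicalSpace.SeparableSpace Y] (hX : Grothendieck X) :
    Grothendieck (X × Y) := by
  intro S A hA
  have hι : IsInducing fun s : S => s.1.1 := IsInducing.subtypeVal.comp IsInducing.subtypeVal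
  have hc := hι.continuous
  refine cpt_of_sub hι (cpt_closure hA hc) fun p hp => ?_
  have h1 : ∀ k, Continuous fun x => p (x, k) := by
    intro k
    have hG : Continuous fun (f : X × Y → ℝ) x => f (x, k) := by fun_prop
    exact g_weak (wg_of_groth hX) hA (hG.comp hc) (fun z => z.1.2.comp (by fun_prop)) (by
      rw [image_comp]
      exact image_closure_subset_closure_image hG (mem_image_of_mem _ hp))
  have h2 : ∀ L : Set Y, L.Countable → ∃ q : S, ∀ l ∈ L, ∀ x, q.1.1 (x, l) = p (x, l) := by
    intro L hL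
    obtain ⟨G, hG, hG', hG0, hG1⟩ := exists_G' h1 hL
    obtain ⟨z, hz⟩ := g_one hX hA (hG.comp hc) (fun z => hG' _ fun k => z.1.2.comp (by fun_prop))
      (a := G p) (by
        rw [image_comp]
        exact image_closure_subset_closure_image hG (mem_image_of_mem _ hp))
    exact ⟨z, hG1 _ (hz.trans hG0)⟩
  obtain ⟨D, hDc, hD⟩ := TopologicalSpace.exists_countable_dense Y
  obtain ⟨q, hq⟩ := h2 D hDc
  refine ⟨q, funext fun ⟨x, y⟩ => ?_⟩
  obtain ⟨q', hq'⟩ := h2 _ (hDc.insert y)
  have : (fun k => q.1.1 (x, k)) = fun k => q'.1.1 (x, k) :=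
    Continuous.ext_on hD (q.1.2.comp (by fun_prop)) (q'.1.2.comp (by fun_prop)) fun d hd =>
      (hq d hd x).trans (hq' d (mem_insert_of_mem _ hd) x).symm
  exact (congrFun this y).trans (hq' y (mem_insert _ _) x)

end Pool.Agent.H19.Gr
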