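import Pool.Agent.H19.GrB
import Pool.Agent.H19.GrC

/-! Two Grothendieck spaces whose product is not weakly Grothendieck. -/

namespace Pool.Agent.H19.Gr

open Set Filter Topology Pool.Agent.H19.Cp

lemma mem_cl_pi {ι : Type*} {B : Set (ι → ℝ)} {m : ι → ℝ} :
    m ∈ closure B ↔ ∀ F : Finset ι, ∀ ε > 0, ∃ b ∈ B, ∀ i ∈ F, |b i - m i| < ε := by
  refine ⟨fun h F ε hε => ?_, fun h => mem_closure_iff_nhds.2 fun U hU => ?_⟩
  · obtain ⟨b, hb, hb'⟩ := mem_closure_iff_nhds.1 h {b | ∀ i ∈ F, |b i - m i| < ε}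
      ((eventually_all_finset F).2 fun i _ => ((continuous_apply i).sub
        continuous_const).abs.continuousAt.eventually_lt continuousAt_const (by simpa using hε))
    exact ⟨b, hb', hb⟩
  · rw [nhds_pi, Filter.mem_pi'] at hU
    obtain ⟨F, t, ht, htU⟩ := hU
    have h1 : ∀ᶠ ε in 𝓝[>] (0 : ℝ), ∀ i ∈ F, Metric.ball (m i) ε ⊆ t i :=
      (eventually_all_finset F).2 fun i _ => (eventually_ball_subset (ht i)).filter_mono nhdsWithin_le_nhds
    obtain ⟨ε, hε, hε'⟩ := (h1.and self_mem_nhdsWithin).exists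
    obtain ⟨b, hb, hb'⟩ := h F ε hε'
    exact ⟨b, htU fun i hi => hε i hi (hb' i hi), hb⟩

lemma approx {X : Type*} {T : Set (X → ℝ)} (hT : T.Countable) (D : Set X) :
    ∃ L ⊆ D, L.Countable ∧ ∀ d ∈ D, ∀ F : Finset (X → ℝ), (F : Set (X → ℝ)) ⊆ T → ∀ ε > 0,
      ∃ l ∈ L, ∀ t ∈ F, |t l - t d| < ε := by
  classical
  haveI := hT.to_subtype
  obtain ⟨t, ht, htc, hts⟩ := (TopologicalSpace.IsSeparable.of_separableSpace
    ((fun x (t : T) => t.1 x) '' D)).exists_countable_dense_subset
  obtain ⟨L, hL, hLc, rfl⟩ := lift_ctble ht htc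
  refine ⟨L, hL, hLc, fun d hd F hF ε hε => ?_⟩
  obtain ⟨_, ⟨l, hl, rfl⟩, h⟩ := mem_cl_pi.1 (hts (mem_image_of_mem _ hd)) (F.subtype _) ε hε
  exact ⟨l, hl, fun t ht => h ⟨t, hF ht⟩ (Finset.mem_subtype.2 ht)⟩

theorem groth_of_dense {X : Type*} [TopologicalSpace X] [T1Space X] {D : Set X} (hD : Dense D)
    (hD' : CtblyCompactIn D) : Grothendieck X := by
  classical
  intro S A hA
  have hι : IsInducing fun s : S => s.1.1 := IsInducing.subtypeVal.comp IsInducing.subtypeVal
  have hc := hι.continuous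
  refine cpt_of_sub hι (cpt_closure hA hc) fun p hp => ?_
  have h1 : ∀ x0, ∃ q : S, q.1.1 x0 = p x0 ∧ ∀ d ∈ D, q.1.1 d = p d := by
    intro x0
    have h2 := fun (E : Finset X) (n : ℕ) =>
      mem_cl_pi.1 hp E _ (Nat.one_div_pos_of_nat (α := ℝ) (n := n))
    simp only [exists_mem_image] at h2
    choose z hzA hz using h2
    choose W hWD hWc hW using fun E : Finset X => approx
      (T := insert p (⋃ E' ∈ E.powerset, range fun n => (z E' n).1.1))
      ((E.powerset.countable_toSet.biUnion fun E' _ => countable_range _).insert p) D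
    set L := cls W {x0} with hL
    have hLc : L.Countable := cls_countable W hWc (countable_singleton _)
    haveI := hLc.to_subtype
    haveI : Countable {E : Finset X // (E : Set X) ⊆ L} :=
      Cardinal.mk_le_aleph0_iff.1 (card_fin le_rfl (Cardinal.le_aleph0_iff_set_countable.2 hLc))
    set C := range fun j : {E : Finset X // (E : Set X) ⊆ L} × ℕ => z j.1.1 j.2 with hC
    obtain ⟨q, hq, hqp⟩ := exists_lift' (A := C)
      (fun B hB => hA B (hB.trans (range_subset_iff.2 fun j => hzA _ _)))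
      (φ := fun s (l : L) => s.1.1 l) (continuous_pi fun l => (continuous_apply _).comp hc)
      (m := fun l : L => p l) (mem_cl_pi.2 fun F ε hε => by
        obtain ⟨n, hn⟩ := exists_nat_one_div_lt hε
        refine ⟨_, mem_image_of_mem _ ⟨(⟨F.image Subtype.val, fun x hx => ?_⟩, n), rfl⟩,
          fun l hl => (hz _ n _ (Finset.mem_image_of_mem _ hl)).trans hn⟩
        obtain ⟨l, -, rfl⟩ := Finset.mem_image.1 hx
        exact l.2)
    have hqL : ∀ l ∈ L, q.1.1 l = p l := fun l hl => congrFun hqp ⟨l, hl⟩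
    refine ⟨q, hqL _ (subset_cls W _ rfl), fun d hd => ?_⟩
    set t : Option ({E : Finset X // (E : Set X) ⊆ L} × ℕ) → X → ℝ :=
      fun j => j.elim p fun j => (z j.1.1 j.2).1.1 with ht
    obtain ⟨y, -, hy⟩ := exists_lift' (A := L ∩ D) (fun B hB => hD' B (hB.trans inter_subset_right))
      (φ := fun x (j : Option ({E : Finset X // (E : Set X) ⊆ L} × ℕ)) =>
        j.elim (q.1.1 x) fun j => (z j.1.1 j.2).1.1 x)
      (continuous_pi fun j => by
        cases j with
        | none => exact q.1.2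
        | some j => exact (z _ _).1.2)
      (m := fun j => t j d) (mem_cl_pi.2 fun F ε hε => by
        set E := F.biUnion fun j => j.elim ∅ fun j => j.1.1 with hE
        have hEL : (E : Set X) ⊆ L := by
          intro x hx
          obtain ⟨j, -, hj⟩ := Finset.mem_biUnion.1 hx
          cases j with
          | none => simp at hj
          | some j => exact j.1.2 hj
        obtain ⟨l, hl, hl'⟩ := hW E d hd (F.image t) (by
          intro f hf
          obtain ⟨j, hj, rfl⟩ := Finset.mem_image.1 hf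
          cases j with
          | none => exact mem_insert _ _
          | some j => exact Or.inr (mem_biUnion (Finset.mem_powerset.2
              (Finset.subset_biUnion_of_mem _ hj)) (mem_range_self j.2))) ε hε
        have hlL := cls_closed W E hEL hl
        refine ⟨_, mem_image_of_mem _ ⟨hlL, hWD E hl⟩, fun j hj => ?_⟩
        have := hl' _ (Finset.mem_image_of_mem t hj)
        cases j with
        | none => simpa [ht, hqL l hlL] using this
        | some j => exact this)
    have h3 : q.1.1 y = q.1.1 d := closure_minimal (t := {s : S | s.1.1 y = s.1.1 d})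
      (range_subset_iff.2 fun j => congrFun hy (some j))
      (isClosed_eq ((continuous_apply _).comp hc) ((continuous_apply _).comp hc)) hq
    exact h3.symm.trans (congrFun hy none)
  choose q hq hq' using h1
  rcases isEmpty_or_nonempty X with h | ⟨⟨x0⟩⟩
  · obtain ⟨_, s, -, -⟩ := closure_nonempty_iff.1 ⟨p, hp⟩
    exact ⟨s, Subsingleton.elim _ _⟩
  refine ⟨q x0, funext fun x => ?_⟩
  have : (q x0).1.1 = (q x).1.1 := Continuous.ext_on hD (q x0).1.2 (q x).1.2 fun d hd =>
    (hq' x0 d hd).trans (hq' x d hd).symm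
  exact (congrFun this x).trans (hq x)

lemma not_wg_gen {W T : Type*} [TopologicalSpace W] {e : T → W} (he : Function.Injective e)
    (hc : ∀ B : Set T, B.Countable → IsClopen (e '' B)) {w : W} (hw : w ∉ range e)
    (hw' : w ∈ closure (range e)) : ¬ WeaklyGrothendieck W := by
  classical
  intro h
  have hA : CtblyCompactIn {f : Cp W | ∃ B : Set T, B.Countable ∧ f.1 = (e '' B).indicator 1} := by
    refine cc_of_cl fun a ha => ?_
    choose B hB hb using ha
    obtain ⟨p, hp, hp'⟩ := (isCompact_univ_pi fun _ : W =>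
      (toFinite ({0, 1} : Set ℝ)).isCompact).exists_mapClusterPt (f := atTop) (u := fun n => (a n).1)
      (le_principal_iff.2 (mem_map.2 (Eventually.of_forall fun n z _ => by
        show (a n).1 z ∈ ({0, 1} : Set ℝ)
        rw [hb]
        by_cases hz : z ∈ e '' B n <;> simp [hz])))
    have h0 : ∀ z, p z ≠ 0 → ∃ n, z ∈ e '' B n := fun z hz => by
      by_contra h1
      exact hz (mem_of_cl hp' (isClosed_eq (continuous_apply z) continuous_const)
        (Eventually.of_forall fun n => by
          show (a n).1 z = 0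
          rw [hb, indicator_of_notMem fun h2 => h1 ⟨n, h2⟩]))
    have h1 : {α | p (e α) ≠ 0}.Countable := (countable_iUnion hB).mono fun α hα => by
      obtain ⟨n, hn⟩ := h0 _ hα
      exact mem_iUnion.2 ⟨n, (he.mem_set_image).1 hn⟩
    have h2 : p = (e '' {α | p (e α) ≠ 0}).indicator 1 := by
      funext z
      by_cases hz : p z = 0
      · rw [hz, indicator_of_notMem]
        rintro ⟨α, hα, rfl⟩
        exact hα hz
      · obtain ⟨n, α, -, rfl⟩ := h0 z hz
        rw [indicator_of_mem (mem_image_of_mem _ hz)]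
        exact (hp _ (mem_univ _)).resolve_left hz
    exact ⟨⟨p, h2 ▸ (hc _ h1).continuous_indicator continuous_const⟩,
      IsInducing.subtypeVal.mapClusterPt_iff.1 hp'⟩
  have h1 : Continuous ((range e).indicator (1 : W → ℝ)) := by
    refine g_weak h hA continuous_subtype_val (fun z => z.2) (mem_cl_pi.2 fun F ε hε => ?_)
    have h2 : (e ⁻¹' F).Countable := F.countable_toSet.preimage he
    refine ⟨_, ⟨⟨_, (hc _ h2).continuous_indicator continuous_const⟩, ⟨_, h2, rfl⟩, rfl⟩,
      fun z hz => ?_⟩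
    show |(e '' (e ⁻¹' F)).indicator (1 : W → ℝ) z - (range e).indicator 1 z| < ε
    by_cases h3 : z ∈ range e <;> simpa [image_preimage_eq_inter_range, h3, hz] using hε
  have h2 := closure_minimal (t := {z | (range e).indicator (1 : W → ℝ) z = 1})
    (fun z hz => indicator_of_mem hz _) (isClosed_eq h1 continuous_const) hw'
  simp [hw] at h2

lemma exists_ultra (U : Ultrafilter ℕ) :
    ∃ V : Ultrafilter ℕ, (V : Filter ℕ) ≤ cofinite ∧ ∀ h : ℕ → ℕ, V ≠ U.map h := by
  by_contra h
  push Not at h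
  have h1 : ∀ V : Ultrafilter ℕ, ∃ h : ℕ → ℕ, V = U.map h := fun V => by
    rcases V.le_cofinite_or_eq_pure with h2 | ⟨n, rfl⟩
    · exact h V h2
    · exact ⟨fun _ => n, Ultrafilter.coe_injective map_const.symm⟩
  haveI := sep_pi
  obtain ⟨d, hd⟩ := TopologicalSpace.exists_dense_seq (II → ℝ)
  set e : II → ℕ → ℕ := fun b n => sInf {m | b n m = true} with he
  set x : II → ℝ := fun b => limUnder (U.map (e b) : Filter ℕ) d b + 1 with hx
  have h2 : MapClusterPt x ⊤ d := by
    have := mem_closure_iff_clusterPt.1 (hd x)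
    rwa [← image_univ, ← map_principal, principal_univ] at this
  obtain ⟨V, -, hV⟩ := mapClusterPt_iff_ultrafilter.1 h2
  obtain ⟨k, rfl⟩ := h1 V
  have h3 : e (fun n m => decide (m = k n)) = k := funext fun n => by simp [he]
  have h4 := congrFun hV.limUnder_eq fun n m => decide (m = k n)
  simp only [hx, h3] at h4
  linarith

/-- Principal ultrafilters, injective images of `V`, and `p`. -/
abbrev Sp (V : Ultrafilter ℕ) (p : Ultrafilter ℝ) : Type :=
  {U : Ultrafilter ℝ // U ∈ range pure ∨ (∃ s : ℕ → ℝ, s.Injective ∧ U = V.map s) ∨ U = p}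

/-- The isolated points. -/
def pt (V : Ultrafilter ℕ) (p : Ultrafilter ℝ) (d : ℝ) : Sp V p := ⟨pure d, Or.inl ⟨d, rfl⟩⟩

lemma groth_Sp {V : Ultrafilter ℕ} (hV : (V : Filter ℕ) ≤ cofinite) (p : Ultrafilter ℝ) :
    Grothendieck (Sp V p) := by
  refine groth_of_dense (D := range (pt V p)) (Subtype.dense_iff.2 fun U _ =>
    closure_mono ?_ (denseRange_pure U)) fun B hB hBi => ?_
  · rintro _ ⟨d, rfl⟩
    exact ⟨_, mem_range_self d, rfl⟩
  choose s hs using fun n => hB (hBi.natEmbedding B n).2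
  have h1 : Function.Injective (pt V p ∘ s) := by
    rw [show pt V p ∘ s = _ from funext hs]
    exact Subtype.val_injective.comp (hBi.natEmbedding B).injective
  refine ⟨⟨V.map s, Or.inr (Or.inl ⟨s, h1.of_comp, rfl⟩)⟩, accPt_iff_frequently.2 ?_⟩
  refine Tendsto.frequently (f := pt V p ∘ s) (l₁ := V) (tendsto_subtype_rng.2
    ((Ultrafilter.tendsto_pure_self (V.map s)).comp tendsto_map)) (Eventually.frequently ?_)
  refine Eventually.and (hV (h1.tendsto_cofinite.eventually (eventually_cofinite_ne _)))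
    (Eventually.of_forall fun n => ?_)
  exact mem_of_eq_of_mem (hs n) (hBi.natEmbedding B n).2

lemma not_wg_Sp {U V : Ultrafilter ℕ} (h : ∀ k : ℕ → ℕ, V ≠ U.map k)
    (hU : (U : Filter ℕ) ≤ cofinite) (hV : (V : Filter ℕ) ≤ cofinite) {p : Ultrafilter ℝ}
    (hp : ∀ B : Set ℝ, B.Countable → B ∉ p) : ¬ WeaklyGrothendieck (Sp U p × Sp V p) := by
  have h0 : ∀ {W : Ultrafilter ℕ}, (W : Filter ℕ) ≤ cofinite → ∀ s : ℕ → ℝ, s.Injective →
      ∀ d, W.map s ≠ pure d := fun {W} hW s hs d h1 => by
    have h2 : s ⁻¹' {d} ∈ W := Ultrafilter.mem_map.1 (h1 ▸ Ultrafilter.mem_pure.2 rfl)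
    exact (Ultrafilter.compl_mem_iff_notMem.1
      (hW ((finite_singleton d).preimage hs.injOn).compl_mem_cofinite)) h2
  refine not_wg_gen (e := fun d => (pt U p d, pt V p d)) (fun a b hab => ?_) (fun B hB => ⟨?_, ?_⟩)
    (w := (⟨p, Or.inr (Or.inr rfl)⟩, ⟨p, Or.inr (Or.inr rfl)⟩)) ?_ ?_
  · exact Ultrafilter.pure_injective (congrArg (fun z => z.1.1) hab)
  · have : (fun d => (pt U p d, pt V p d)) '' B = {z | z.1.1 = z.2.1} ∩ {z | B ∈ z.1.1} := by
      refine Subset.antisymm ?_ ?_
      · rintro _ ⟨d, hd, rfl⟩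
        exact ⟨rfl, hd⟩
      · rintro ⟨⟨x, hx⟩, ⟨y, hy⟩⟩ ⟨rfl : x = y, hB' : B ∈ x⟩
        have h1 : x ≠ p := fun h2 => hp B hB (h2 ▸ hB')
        rcases hx with ⟨d, rfl⟩ | ⟨s, hs, rfl⟩ | h2
        · exact ⟨d, hB', rfl⟩
        · rcases hy with ⟨d, hd⟩ | ⟨t, ht, h3⟩ | h2
          · exact absurd hd.symm (h0 hU s hs d)
          · refine absurd ?_ (h (Function.invFun t ∘ s))
            rw [← Ultrafilter.map_map, h3, Ultrafilter.map_map, Function.invFun_comp ht,
              Ultrafilter.map_id]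
          · exact absurd h2 h1
        · exact absurd h2 h1
    rw [this]
    exact (isClosed_eq (by fun_prop) (by fun_prop)).inter
      ((ultrafilter_isClosed_basic B).preimage (f := fun z : Sp U p × Sp V p => z.1.1) (by fun_prop))
  · have : (fun d => (pt U p d, pt V p d)) '' B =
        ⋃ d ∈ B, {z | {d} ∈ z.1.1} ∩ {z | {d} ∈ z.2.1} := by
      refine Subset.antisymm ?_ (iUnion₂_subset fun d hd z hz => ⟨d, hd, Prod.ext
        (Subtype.ext (Ultrafilter.eq_of_le (le_pure_iff.2 hz.1)).symm)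
        (Subtype.ext (Ultrafilter.eq_of_le (le_pure_iff.2 hz.2)).symm)⟩)
      rintro _ ⟨d, hd, rfl⟩
      exact mem_biUnion hd ⟨rfl, rfl⟩
    rw [this]
    exact isOpen_biUnion fun d _ =>
      ((ultrafilter_isOpen_basic {d}).preimage (f := fun z : Sp U p × Sp V p => z.1.1)
        (by fun_prop)).inter ((ultrafilter_isOpen_basic {d}).preimage
        (f := fun z : Sp U p × Sp V p => z.2.1) (by fun_prop))
  · rintro ⟨d, hd⟩
    exact hp {d} (countable_singleton d) (by
      rw [← show pure d = p from congrArg (fun z => z.1.1) hd]; exact rfl)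
  · refine mem_closure_of_tendsto (b := (p : Filter ℝ)) (Tendsto.prodMk_nhds ?_ ?_)
      (Eventually.of_forall mem_range_self) <;>
    exact tendsto_subtype_rng.2 (Ultrafilter.tendsto_pure_self p)

end Pool.Agent.H19.Gr
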