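import Mathlib

set_option maxHeartbeats 400000
open Set FirstOrder FirstOrder.Language

namespace Pool.Agent.H19.Hom1

abbrev LL : Language := Language.mk (fun _ => Unit) (fun _ => Empty)

variable {G : Type} [Group G]

/-- Nested squares. -/
def W (b : ℕ → G) (u : G) : ℕ → ℕ → G
  | 0, _ => u
  | n + 1, i => b i * W b u n (i + 1) * W b u n (i + 1)

def T : ℕ → ℕ → LL.Term ((Unit ⊕ ℕ) ⊕ Fin 1)
  | 0, _ => Term.var (Sum.inr 0)
  | n + 1, i => Term.func (l := 3) () ![Term.var (Sum.inl (Sum.inr i)), T n (i + 1), T n (i + 1)]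

theorem T_real [LL.Structure G]
    (hS : ∀ (n : ℕ) (f : LL.Functions n) (xs : Fin n → G),
      Structure.funMap f xs = (List.ofFn xs).prod) (c : G) (b : ℕ → G) (v : Fin 1 → G) :
    ∀ n i, (T n i).realize (Sum.elim (Sum.elim (fun _ => c) b) v) = W b (v 0) n i := by
  intro n
  induction n with
  | zero => intro i; simp [T, W]
  | succ n ih =>
    intro i
    simp [T, W, hS, List.ofFn_succ, ih, mul_assoc]

def psi (n : ℕ) : LL.Formula (Unit ⊕ ℕ) :=
  BoundedFormula.ex (Term.bdEqual (Term.var (Sum.inl (Sum.inl ()))) (T n 0))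

theorem psi_real [LL.Structure G]
    (hS : ∀ (n : ℕ) (f : LL.Functions n) (xs : Fin n → G),
      Structure.funMap f xs = (List.ofFn xs).prod) (c : G) (b : ℕ → G) (n : ℕ) :
    (psi n).Realize (Sum.elim (fun _ => c) b) ↔ ∃ u, c = W b u n 0 := by
  unfold psi Formula.Realize
  rw [BoundedFormula.realize_ex]
  refine exists_congr fun u => ?_
  rw [BoundedFormula.realize_bdEqual, T_real hS]
  simp [Fin.snoc]

theorem real_aut [LL.Structure G]
    (hS : ∀ (n : ℕ) (f : LL.Functions n) (xs : Fin n → G),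
      Structure.funMap f xs = (List.ofFn xs).prod) (a b : ℕ → G)
    (h : ∀ n, ∃ θ : G ≃* G, ∀ i < n, θ (b i) = a i) (φ : LL.Formula ℕ) :
    φ.Realize a ↔ φ.Realize b := by
  obtain ⟨n, hn⟩ := φ.freeVarFinset.bddAbove
  obtain ⟨θ, hθ⟩ := h (n + 1)
  let e : LL.Equiv G G :=
    { toEquiv := θ.toEquiv
      map_fun' := fun {m} f xs => by
        rw [hS, hS]
        show θ _ = _
        rw [map_list_prod, List.map_ofFn]
        rfl
      map_rel' := fun r => r.elim }
  rw [← StrongHomClass.realize_formula e φ (v := b)]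
  unfold Formula.Realize
  rw [← BoundedFormula.realize_restrictFreeVar' (φ := φ) (s := φ.freeVarFinset) subset_rfl,
    ← BoundedFormula.realize_restrictFreeVar' (φ := φ) (s := φ.freeVarFinset) subset_rfl
      (v := e ∘ b)]
  have : (a ∘ Subtype.val : ↥((φ.freeVarFinset : Finset ℕ) : Set ℕ) → G) = (e ∘ b) ∘ Subtype.val := by
    funext i
    exact (hθ i (Nat.lt_succ_of_le (hn i.2))).symm
  rw [this]

theorem exaut {X : Set G} (hX : Subgroup.closure X = ⊤)
    (hf : ∀ f : X → G, ∃ φ : G →* G, ∀ x : X, φ x = f x) (x : ℕ → X)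
    (hx : Function.Injective x) (n : ℕ) :
    ∃ θ : G ≃* G, ∀ i < n, θ (x i) = x i * (x (i + 1) : G)⁻¹ * (x (i + 1) : G)⁻¹ := by
  classical
  obtain ⟨r, hr⟩ := hx.hasLeftInverse
  let y : ℕ → G := fun i => W (fun j => (x j : G)) (x n) (n - i) i
  have hy : ∀ i < n, y i = x i * y (i + 1) * y (i + 1) := by
    intro i hi
    have : n - i = (n - (i + 1)) + 1 := by omega
    simp only [y]
    rw [this]
    rfl
  have hyn : y n = x n := by simp [y, W]
  obtain ⟨φ, hφ⟩ := hf fun z => if x (r z) = z ∧ r z < n then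
    (z : G) * (x (r z + 1) : G)⁻¹ * (x (r z + 1) : G)⁻¹ else z
  obtain ⟨ψ, hψ⟩ := hf fun z => if x (r z) = z ∧ r z < n then y (r z) else z
  have φ1 : ∀ i < n, φ (x i) = x i * (x (i + 1) : G)⁻¹ * (x (i + 1) : G)⁻¹ := fun i hi => by
    rw [hφ, hr i, if_pos ⟨rfl, hi⟩]
  have ψ1 : ∀ i ≤ n, ψ (x i) = y i := fun i hi => by
    rw [hψ, hr i]
    split_ifs with h
    · rfl
    · obtain rfl : i = n := by
        by_contra hne
        exact h ⟨rfl, by omega⟩
      exact hyn.symm
  have φ2 : ∀ k i, i + k = n → φ (y i) = x i := by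
    intro k
    induction k with
    | zero =>
      intro i hi
      obtain rfl : i = n := hi
      rw [hyn, hφ, hr i, if_neg (fun h => lt_irrefl _ h.2)]
    | succ k ih =>
      intro i hi
      rw [hy i (by omega), map_mul, map_mul, ih (i + 1) (by omega), φ1 i (by omega)]
      group
  refine ⟨MonoidHom.toMulEquiv φ ψ ?_ ?_, φ1⟩
  · refine MonoidHom.eq_of_eqOn_dense hX fun z hz => ?_
    by_cases h : x (r ⟨z, hz⟩) = ⟨z, hz⟩ ∧ r ⟨z, hz⟩ < n
    · have hz' : z = x (r ⟨z, hz⟩) := (congrArg Subtype.val h.1).symm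
      generalize r ⟨z, hz⟩ = i at h hz'
      subst hz'
      simp only [MonoidHom.comp_apply, MonoidHom.id_apply]
      rw [φ1 i h.2, map_mul, map_mul, map_inv, ψ1 i h.2.le, ψ1 (i + 1) h.2, hy i h.2]
      group
    · have h1 := hφ ⟨z, hz⟩
      have h2 := hψ ⟨z, hz⟩
      rw [if_neg h] at h1 h2
      simp only [MonoidHom.comp_apply, MonoidHom.id_apply]
      rw [h1, h2]
  · refine MonoidHom.eq_of_eqOn_dense hX fun z hz => ?_
    by_cases h : x (r ⟨z, hz⟩) = ⟨z, hz⟩ ∧ r ⟨z, hz⟩ < n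
    · have hz' : z = x (r ⟨z, hz⟩) := (congrArg Subtype.val h.1).symm
      generalize r ⟨z, hz⟩ = i at h hz'
      subst hz'
      simp only [MonoidHom.comp_apply, MonoidHom.id_apply]
      rw [ψ1 i h.2.le, φ2 (n - i) i (by omega)]
    · have h1 := hφ ⟨z, hz⟩
      have h2 := hψ ⟨z, hz⟩
      rw [if_neg h] at h1 h2
      simp only [MonoidHom.comp_apply, MonoidHom.id_apply]
      rw [h2, h1]

theorem W_a (x : ℕ → G) (n i : ℕ) :
    W (fun j => x j * (x (j + 1))⁻¹ * (x (j + 1))⁻¹) (x (i + n)) n i = x i := by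
  induction n generalizing i with
  | zero => rfl
  | succ n ih =>
    have := ih (i + 1)
    rw [show i + 1 + n = i + (n + 1) by omega] at this
    simp only [W, this]
    group

theorem W_pi (π : G →* G) (g : G) (b : ℕ → G) (u : G) (m : ℤ) (hu : π u = g ^ m) (n i : ℕ)
    (h1 : ∀ j < i + n, π (b j) = 1) (h2 : π (b (i + n)) = g) :
    π (W b u (n + 1) i) = g ^ (2 ^ n * (1 + 2 * m)) := by
  induction n generalizing i with
  | zero =>
    simp only [W, map_mul, hu]
    rw [add_zero] at h2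
    rw [h2]
    group
  | succ n ih =>
    have := ih (i + 1) (fun j hj => h1 j (by omega)) (by rw [← h2]; congr 2; omega)
    rw [W, map_mul, map_mul, this, h1 i (by omega), one_mul, ← zpow_add]
    congr 1
    ring

theorem main (htf : ∀ g : G, ∀ n : ℕ, 0 < n → g ^ n = 1 → g = 1) {X : Set G} (hXi : X.Infinite)
    (hX : Subgroup.closure X = ⊤) (hf : ∀ f : X → G, ∃ φ : G →* G, ∀ x : X, φ x = f x)
    [LL.Structure G]
    (hS : ∀ (n : ℕ) (f : LL.Functions n) (xs : Fin n → G),
      Structure.funMap f xs = (List.ofFn xs).prod) :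
    ¬ ∀ a b : ℕ → G, (∀ φ : LL.Formula ℕ, φ.Realize a ↔ φ.Realize b) →
      ∀ c : G, ∃ d : G, ∀ ψ : LL.Formula (Unit ⊕ ℕ),
        ψ.Realize (Sum.elim (fun _ => c) a) ↔ ψ.Realize (Sum.elim (fun _ => d) b) := by
  classical
  intro H
  let x : ℕ → X := hXi.natEmbedding
  have hx : Function.Injective x := hXi.natEmbedding.injective
  obtain ⟨d, hd⟩ := H (fun j => x j * (x (j + 1) : G)⁻¹ * (x (j + 1) : G)⁻¹) (fun j => x j)
    (real_aut hS _ _ (exaut hX hf x hx)) (x 0)
  obtain ⟨g, -, hg⟩ := hXi.exists_notMem_finset {1}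
  have hg : g ≠ 1 := by simpa using hg
  choose π hπ using fun k : ℕ => hf fun z => if z = x k then g else 1
  have hev : ∀ z : G, ∀ᶠ k in Filter.cofinite, π k z = 1 := by
    intro z
    have hz : z ∈ Subgroup.closure X := hX ▸ Subgroup.mem_top z
    induction hz using Subgroup.closure_induction with
    | mem w hw =>
      refine Set.Finite.subset (Set.Subsingleton.finite (s := {k | (⟨w, hw⟩ : X) = x k})
        fun k hk k' hk' => hx (hk.symm.trans hk')) fun k hk => ?_
      by_contra hn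
      exact hk ((hπ k ⟨w, hw⟩).trans (if_neg hn))
    | one => exact .of_forall fun k => map_one _
    | mul _ _ _ _ h1 h2 => filter_upwards [h1, h2] with k h1 h2 using by rw [map_mul, h1, h2, one_mul]
    | inv _ _ h1 => filter_upwards [h1] with k h1 using by rw [map_inv, h1, inv_one]
  obtain ⟨k, hk⟩ := (hev d).exists
  have hz : ∀ z : G, π k z ∈ Subgroup.zpowers g := by
    intro z
    have hz : z ∈ Subgroup.closure X := hX ▸ Subgroup.mem_top z
    induction hz using Subgroup.closure_induction with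
    | mem w hw =>
      rw [hπ k ⟨w, hw⟩]
      split_ifs
      · exact Subgroup.mem_zpowers g
      · exact one_mem _
    | one => rw [map_one]; exact one_mem _
    | mul _ _ _ _ h1 h2 => rw [map_mul]; exact mul_mem h1 h2
    | inv _ _ h1 => rw [map_inv]; exact inv_mem h1
  obtain ⟨u, hu⟩ := (psi_real hS _ _ (k + 1)).1 ((hd (psi (k + 1))).1
    ((psi_real hS _ _ _).2 ⟨x (0 + (k + 1)), (W_a (fun j => (x j : G)) (k + 1) 0).symm⟩))
  obtain ⟨m, hm⟩ := hz u
  have := W_pi (π k) g (fun j => (x j : G)) u m hm.symm k 0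
    (fun j hj => (hπ k (x j)).trans (if_neg fun h => by have := hx h; omega))
    ((hπ k (x (0 + k))).trans (if_pos (by rw [zero_add])))
  rw [← hu, hk] at this
  have hne : (2 ^ k * (1 + 2 * m) : ℤ) ≠ 0 := mul_ne_zero (by positivity) (by omega)
  refine hg (htf g (2 ^ k * (1 + 2 * m) : ℤ).natAbs (Int.natAbs_pos.2 hne) ?_)
  rw [pow_natAbs_eq_one]
  exact this.symm

end Pool.Agent.H19.Hom1
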