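import Mathlib

/-! Spanning paths of vertex sets, and a spanning path of a triangular grid. -/

set_option maxHeartbeats 400000

namespace Pool.Agent.H19.Hp

open SimpleGraph

variable {α β : Type*}

def HP (G : SimpleGraph α) (S : Set α) (x y : α) : Prop :=
  ∃ p : G.Walk x y, p.support.Nodup ∧ ∀ a, a ∈ p.support ↔ a ∈ S

variable {G : SimpleGraph α} {G' : SimpleGraph β} {S T : Set α} {x y x' y' : α}

lemma HP.single (G : SimpleGraph α) (x : α) : HP G {x} x x := ⟨.nil, by simp, by simp⟩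

lemma HP.congr (h : HP G S x y) (e : ∀ a, a ∈ S ↔ a ∈ T) : HP G T x y := by
  obtain ⟨p, h1, h2⟩ := h
  exact ⟨p, h1, fun a => (h2 a).trans (e a)⟩

lemma HP.symm (h : HP G S x y) : HP G S y x := by
  obtain ⟨p, h1, h2⟩ := h
  exact ⟨p.reverse, by simpa using h1, by simpa using h2⟩

lemma HP.append (h1 : HP G S x y) (h2 : HP G T x' y') (h : G.Adj y x') (d : ∀ a ∈ S, a ∉ T) :
    HP G (S ∪ T) x y' := by
  obtain ⟨p, a1, a2⟩ := h1
  obtain ⟨q, b1, b2⟩ := h2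
  have e : (p.append (.cons h q)).support = p.support ++ q.support := by
    simp [Walk.support_append]
  refine ⟨p.append (.cons h q), ?_, ?_⟩
  · rw [e]
    refine List.nodup_append.2 ⟨a1, b1, fun a ha b hb hab => ?_⟩
    exact d a ((a2 a).1 ha) (hab ▸ (b2 b).1 hb)
  · intro a
    rw [e, List.mem_append, a2, b2]
    rfl

lemma walk_map (f : α → β) (S : Set α)
    (adj : ∀ a ∈ S, ∀ b ∈ S, G.Adj a b → G'.Adj (f a) (f b)) {x y : α} (p : G.Walk x y)
    (hp : ∀ a ∈ p.support, a ∈ S) : ∃ q : G'.Walk (f x) (f y), q.support = p.support.map f := by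
  induction p with
  | nil => exact ⟨.nil, by simp⟩
  | cons h p ih =>
    obtain ⟨q, hq⟩ := ih fun a ha => hp a (by simp [ha])
    exact ⟨.cons (adj _ (hp _ (by simp)) _ (hp _ (by simp)) h) q, by simp [hq]⟩

lemma HP.map (f : α → β) (h : HP G S x y) (inj : Set.InjOn f S)
    (adj : ∀ a ∈ S, ∀ b ∈ S, G.Adj a b → G'.Adj (f a) (f b)) : HP G' (f '' S) (f x) (f y) := by
  obtain ⟨p, h1, h2⟩ := h
  obtain ⟨q, hq⟩ := walk_map f S adj p fun a ha => (h2 a).1 ha
  refine ⟨q, ?_, ?_⟩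
  · rw [hq]
    exact h1.map_on fun a ha b hb => inj ((h2 a).1 ha) ((h2 b).1 hb)
  · intro b
    simp [hq, h2]

lemma walk_bind (S : Set α) (F : α → Set β) (g : α → Bool → β)
    (hF : ∀ a ∈ S, ∀ s, HP G' (F a) (g a s) (g a (!s)))
    (hadj : ∀ a ∈ S, ∀ b ∈ S, G.Adj a b → ∀ s, G'.Adj (g a s) (g b s))
    (hd : ∀ a ∈ S, ∀ b ∈ S, a ≠ b → ∀ c ∈ F a, c ∉ F b) {x y : α} (p : G.Walk x y)
    (hn : p.support.Nodup) (hp : ∀ a ∈ p.support, a ∈ S) (s : Bool) :
    ∃ s', HP G' {c | ∃ a ∈ p.support, c ∈ F a} (g x s) (g y s') := by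
  induction p generalizing s with
  | nil => exact ⟨!s, (hF _ (hp _ (by simp)) s).congr (by simp)⟩
  | @cons u v w h p ih =>
    simp only [Walk.support_cons, List.nodup_cons] at hn
    obtain ⟨s', h'⟩ := ih hn.2 (fun a ha => hp a (by simp [ha])) (!s)
    have hu := hp u (by simp)
    refine ⟨s', ((hF u hu s).append h' (hadj u hu v (hp v (by simp)) h _) ?_).congr (by simp)⟩
    rintro c hc ⟨a, ha, hca⟩
    exact hd u hu a (hp a (by simp [ha])) (fun e => hn.1 (e ▸ ha)) c hc hca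

lemma HP.bind (h : HP G S x y) (F : α → Set β) (g : α → Bool → β)
    (hF : ∀ a ∈ S, ∀ s, HP G' (F a) (g a s) (g a (!s)))
    (hadj : ∀ a ∈ S, ∀ b ∈ S, G.Adj a b → ∀ s, G'.Adj (g a s) (g b s))
    (hd : ∀ a ∈ S, ∀ b ∈ S, a ≠ b → ∀ c ∈ F a, c ∉ F b) (s : Bool) :
    ∃ s', HP G' {c | ∃ a ∈ S, c ∈ F a} (g x s) (g y s') := by
  obtain ⟨p, h1, h2⟩ := h
  obtain ⟨s', h'⟩ := walk_bind S F g hF hadj hd p h1 (fun a ha => (h2 a).1 ha) s
  exact ⟨s', h'.congr (by simp [h2])⟩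

lemma HP.ham [Fintype α] [DecidableEq α] (h : HP G Set.univ x y) (a : G.Adj y x)
    (h3 : 2 < Fintype.card α) : G.IsHamiltonian := by
  obtain ⟨p, h1, h2⟩ := h
  have hp : p.IsPath := (Walk.isPath_def p).2 h1
  have hh := (hp.isHamiltonian_of_mem fun w => (h2 w).2 trivial).length_eq
  refine fun _ => ⟨y, .cons a p, Walk.isHamiltonianCycle_iff_isCycle_and_length_eq.2 ⟨?_, ?_⟩⟩
  · refine Walk.isCycle_iff_isPath_tail_and_le_length.2 ⟨by simpa using hp, ?_⟩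
    simp only [Walk.length_cons]
    omega
  · simp only [Walk.length_cons]
    omega

/-- The triangular grid. -/
def Tg : SimpleGraph (ℕ × ℕ) where
  Adj u v := (v.1 = u.1 + 1 ∧ v.2 = u.2) ∨ (u.1 = v.1 + 1 ∧ v.2 = u.2) ∨
    (v.1 = u.1 ∧ v.2 = u.2 + 1) ∨ (v.1 = u.1 ∧ u.2 = v.2 + 1) ∨
    (v.1 = u.1 + 1 ∧ u.2 = v.2 + 1) ∨ (u.1 = v.1 + 1 ∧ v.2 = u.2 + 1)
  symm := ⟨fun u v h => by omega⟩
  loopless := ⟨fun u h => by omega⟩

lemma column (j : ℕ) : HP Tg {u | u.1 = 0 ∧ 1 ≤ u.2 ∧ u.2 ≤ j + 1} (0, 1) (0, j + 1) := by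
  induction j with
  | zero =>
    refine (HP.single Tg (0, 1)).congr ?_
    rintro ⟨a, b⟩
    simp only [Set.mem_singleton_iff, Prod.mk.injEq, Set.mem_setOf_eq]
    omega
  | succ j ih =>
    refine (ih.append (HP.single Tg (0, j + 1 + 1)) (by simp [Tg]) ?_).congr ?_
    · rintro ⟨a, b⟩
      simp only [Set.mem_singleton_iff, Prod.mk.injEq, Set.mem_setOf_eq]
      omega
    · rintro ⟨a, b⟩
      simp only [Set.mem_union, Set.mem_singleton_iff, Prod.mk.injEq, Set.mem_setOf_eq]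
      omega

lemma tri (j : ℕ) : HP Tg {u | 1 ≤ u.1 + u.2 ∧ u.1 + u.2 ≤ j + 1} (1, 0) (0, 1) ∧
    HP Tg {u | 1 ≤ u.1 + u.2 ∧ u.1 + u.2 ≤ j + 1} (1, 0) (0, j + 1) := by
  induction j with
  | zero =>
    rw [zero_add, and_self]
    refine ((HP.single Tg (1, 0)).append (HP.single Tg (0, 1)) (by simp [Tg]) (by simp)).congr ?_
    rintro ⟨a, b⟩
    simp only [Set.mem_union, Set.mem_singleton_iff, Prod.mk.injEq, Set.mem_setOf_eq]
    omega
  | succ j ih =>
    have key : ∀ e, HP Tg {u | 1 ≤ u.1 + u.2 ∧ u.1 + u.2 ≤ j + 1} (1, 0) (0, e) →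
        HP Tg {u | 1 ≤ u.1 ∧ u.1 + u.2 ≤ j + 2} (1, 0) (1, e) := by
      intro e h
      have h1 := h.map (G' := Tg) (fun u => (u.1 + 1, u.2))
        (by rintro ⟨a, b⟩ - ⟨c, d⟩ - h; simp only [Prod.mk.injEq] at h ⊢; omega)
        (by rintro ⟨a, b⟩ - ⟨c, d⟩ - h; simp only [Tg] at h ⊢; omega)
      have h2 := h1.congr (T := {u | 1 ≤ u.1 ∧ 2 ≤ u.1 + u.2 ∧ u.1 + u.2 ≤ j + 2}) (by
        rintro ⟨a, b⟩
        simp only [Set.mem_image, Set.mem_setOf_eq, Prod.mk.injEq, Prod.exists]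
        constructor
        · rintro ⟨c, d, h1, h2⟩; omega
        · intro h; exact ⟨a - 1, b, by omega, by omega⟩)
      refine ((HP.single Tg (1, 0)).append h2 (by simp [Tg]) (by simp)).congr ?_
      rintro ⟨a, b⟩
      simp only [Set.mem_union, Set.mem_singleton_iff, Prod.mk.injEq, Set.mem_setOf_eq]
      omega
    constructor
    · refine ((key _ ih.2).append (column (j + 1)).symm (by simp [Tg]) ?_).congr ?_
      · rintro ⟨a, b⟩
        simp only [Set.mem_setOf_eq]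
        omega
      · rintro ⟨a, b⟩
        simp only [Set.mem_union, Set.mem_setOf_eq]
        omega
    · refine ((key _ ih.1).append (column (j + 1)) (by simp [Tg]) ?_).congr ?_
      · rintro ⟨a, b⟩
        simp only [Set.mem_setOf_eq]
        omega
      · rintro ⟨a, b⟩
        simp only [Set.mem_union, Set.mem_setOf_eq]
        omega

end Pool.Agent.H19.Hp
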