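import Pool.Agent.H19.HpA

/-! Spanning paths for multisets of bounded size over disjoint pairs. -/

set_option maxHeartbeats 400000

namespace Pool.Agent.H19.Hp

open SimpleGraph Multiset

variable {K : ℕ}

abbrev W (K : ℕ) := Fin K × Bool

def R (K : ℕ) : SimpleGraph (Multiset (W K)) where
  Adj A B := (∃ v, B = v ::ₘ A) ∨ (∃ v, A = v ::ₘ B) ∨
    ∃ u v C, u ≠ v ∧ u.1 = v.1 ∧ A = u ::ₘ C ∧ B = v ::ₘ C
  symm := ⟨fun A B h => by
    rcases h with h | h | ⟨u, v, C, h1, h2, h3, h4⟩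
    · exact Or.inr (Or.inl h)
    · exact Or.inl h
    · exact Or.inr (Or.inr ⟨v, u, C, h1.symm, h2.symm, h4, h3⟩)⟩
  loopless := ⟨fun A h => by
    rcases h with ⟨v, h⟩ | ⟨v, h⟩ | ⟨u, v, C, h1, h2, h3, h4⟩
    · simpa using congrArg card h
    · simpa using congrArg card h
    · exact h1 ((cons_inj_left C).1 (h3.symm.trans h4))⟩

def St (K t k : ℕ) : Set (Multiset (W K)) := {A | (∀ w ∈ A, w.1.val < t) ∧ card A ≤ k}

def ph (i : Fin K) (y : Multiset (W K)) (u : ℕ × ℕ) : Multiset (W K) :=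
  y + (replicate u.1 (i, false) + replicate u.2 (i, true))

lemma R_add {a b : Multiset (W K)} (h : (R K).Adj a b) (d : Multiset (W K)) :
    (R K).Adj (a + d) (b + d) := by
  rcases h with ⟨v, rfl⟩ | ⟨v, rfl⟩ | ⟨u, v, C, h1, h2, rfl, rfl⟩
  · exact Or.inl ⟨v, by simp⟩
  · exact Or.inr (Or.inl ⟨v, by simp⟩)
  · exact Or.inr (Or.inr ⟨u, v, C + d, h1, h2, by simp, by simp⟩)

lemma ph_left (i : Fin K) (y : Multiset (W K)) (a b : ℕ) :
    ph i y (a + 1, b) = (i, false) ::ₘ ph i y (a, b) := by simp [ph, replicate_succ]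

lemma ph_right (i : Fin K) (y : Multiset (W K)) (a b : ℕ) :
    ph i y (a, b + 1) = (i, true) ::ₘ ph i y (a, b) := by simp [ph, replicate_succ]

lemma ph_adj (i : Fin K) (y : Multiset (W K)) (u v : ℕ × ℕ) (h : Tg.Adj u v) :
    (R K).Adj (ph i y u) (ph i y v) := by
  obtain ⟨a, b⟩ := u
  obtain ⟨c, d⟩ := v
  simp only [Tg] at h
  rcases h with ⟨rfl, rfl⟩ | ⟨rfl, rfl⟩ | ⟨rfl, rfl⟩ | ⟨rfl, rfl⟩ | ⟨rfl, rfl⟩ | ⟨rfl, rfl⟩
  · exact Or.inl ⟨_, ph_left ..⟩
  · exact Or.inr (Or.inl ⟨_, ph_left ..⟩)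
  · exact Or.inl ⟨_, ph_right ..⟩
  · exact Or.inr (Or.inl ⟨_, ph_right ..⟩)
  · exact Or.inr (Or.inr ⟨(i, true), (i, false), _, by simp, rfl, ph_right .., ph_left ..⟩)
  · exact Or.inr (Or.inr ⟨(i, false), (i, true), _, by simp, rfl, ph_left .., ph_right ..⟩)

lemma ph_inj (i : Fin K) (y : Multiset (W K)) (u v : ℕ × ℕ) (h : ph i y u = ph i y v) : u = v := by
  have h' := add_left_cancel h
  have h1 := congrArg (count (i, false)) h'
  have h2 := congrArg (count (i, true)) h'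
  simp [count_replicate] at h1 h2
  exact Prod.ext h1 h2

lemma ph_card (i : Fin K) (y : Multiset (W K)) (u : ℕ × ℕ) :
    card (ph i y u) = card y + (u.1 + u.2) := by simp [ph]

lemma ph_filter (i : Fin K) (y : Multiset (W K)) (u : ℕ × ℕ) (hy : ∀ w ∈ y, w.1.val < i.val) :
    filter (fun w : W K => w.1.val < i.val) (ph i y u) = y := by
  rw [ph, filter_add, filter_eq_self.2 hy, filter_eq_nil.2, add_zero]
  intro w hw
  simp only [mem_add, mem_replicate] at hw
  rcases hw with ⟨-, rfl⟩ | ⟨-, rfl⟩ <;> simp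

lemma ph_surj (i : Fin K) (A : Multiset (W K)) (hA : ∀ w ∈ A, w.1.val < i.val + 1) :
    ∃ y u, (∀ w ∈ y, w.1.val < i.val) ∧ A = ph i y u := by
  induction A using Multiset.induction_on with
  | empty => exact ⟨0, (0, 0), by simp, by simp [ph]⟩
  | cons w A ih =>
    obtain ⟨y, ⟨a, b⟩, h1, rfl⟩ := ih fun v hv => hA v (mem_cons_of_mem hv)
    have hw := hA w (mem_cons_self _ _)
    by_cases h : w.1.val < i.val
    · refine ⟨w ::ₘ y, (a, b), ?_, by simp [ph]⟩
      intro v hv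
      rcases mem_cons.1 hv with rfl | hv
      exacts [h, h1 v hv]
    · obtain ⟨w1, w2⟩ := w
      obtain rfl : w1 = i := Fin.ext (by simp only at h hw; omega)
      cases w2
      · exact ⟨y, (a + 1, b), h1, (ph_left ..).symm⟩
      · exact ⟨y, (a, b + 1), h1, (ph_right ..).symm⟩

lemma step (i : Fin K) (k : ℕ) (z : Multiset (W K)) (h1 : HP (R K) (St K i (k + 1)) 0 z)
    (h2 : HP (R K) (St K i k) 0 z) : HP (R K) (St K (i + 1) (k + 1)) 0 {(i, false)} := by
  let F : Multiset (W K) → Set (Multiset (W K)) := fun y =>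
    ph i y '' {u | 1 ≤ u.1 + u.2 ∧ u.1 + u.2 ≤ (k - card y) + 1}
  let g : Multiset (W K) → Bool → Multiset (W K) := fun y s => y + {(i, s)}
  have hF : ∀ y, HP (R K) (F y) (g y false) (g y true) := by
    intro y
    have := (tri (k - card y)).1.map (G' := R K) (ph i y) (fun u _ v _ h => ph_inj i y u v h)
      (fun u _ v _ h => ph_adj i y u v h)
    simpa [ph, g, F] using this
  obtain ⟨s', h3⟩ := h2.bind (G' := R K) F g
    (fun y _ s => by cases s; exacts [hF y, (hF y).symm])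
    (fun a _ b _ h s => R_add h _)
    (by
      rintro a ha b hb hab c ⟨u, -, rfl⟩ ⟨v, -, h⟩
      apply hab
      rw [← ph_filter i a u ha.1, ← h, ph_filter i b v hb.1]) false
  have h4 := h1.append h3.symm (Or.inl ⟨(i, s'), by simp [g, add_comm z, singleton_add]⟩) (by
    rintro A hA ⟨y, hy, u, hu, rfl⟩
    have e1 := ph_filter i y u hy.1
    rw [filter_eq_self.2 hA.1] at e1
    have e2 := congrArg card e1
    rw [ph_card] at e2
    have := hu.1
    omega)
  have e0 : g 0 false = {(i, false)} := by simp [g]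
  rw [e0] at h4
  refine h4.congr fun A => ⟨?_, ?_⟩
  · rintro (hA | ⟨y, hy, u, hu, rfl⟩)
    · exact ⟨fun w hw => (hA.1 w hw).trans (by omega), hA.2⟩
    · refine ⟨fun w hw => ?_, ?_⟩
      · simp only [ph, mem_add, mem_replicate] at hw
        rcases hw with hw | ⟨-, rfl⟩ | ⟨-, rfl⟩
        · exact (hy.1 w hw).trans (by omega)
        · simp
        · simp
      · have := hy.2
        have := hu.2
        rw [ph_card]
        omega
  · intro hA
    obtain ⟨y, u, hy, rfl⟩ := ph_surj i A hA.1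
    have hc := hA.2
    rw [ph_card] at hc
    by_cases h0 : u.1 + u.2 = 0
    · left
      refine ⟨fun w hw => ?_, hA.2⟩
      have a1 : u.1 = 0 := by omega
      have a2 : u.2 = 0 := by omega
      simp only [ph, a1, a2, replicate_zero, add_zero] at hw
      exact hy w hw
    · exact Or.inr ⟨y, ⟨hy, by omega⟩, u, ⟨by omega, by omega⟩, rfl⟩

lemma all (t : ℕ) (ht : t ≤ K) : ∃ z : Multiset (W K), (t ≠ 0 → card z = 1) ∧
    ∀ k, t ≤ k → HP (R K) (St K t k) 0 z := by
  induction t with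
  | zero =>
    refine ⟨0, by simp, fun k _ => (HP.single _ 0).congr fun A => ⟨?_, ?_⟩⟩
    · rintro rfl
      exact ⟨by simp, by simp⟩
    · intro h
      exact eq_zero_of_forall_notMem fun w hw => by simpa using h.1 w hw
  | succ t ih =>
    obtain ⟨z, -, hz⟩ := ih (by omega)
    refine ⟨{(⟨t, ht⟩, false)}, by simp, fun k hk => ?_⟩
    obtain ⟨k, rfl⟩ : ∃ j, k = j + 1 := ⟨k - 1, by omega⟩
    exact step ⟨t, ht⟩ k z (hz _ (by omega)) (hz _ (by omega))

end Pool.Agent.H19.Hp
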