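import Mathlib

set_option autoImplicit false
open Cardinal Set

universe u

namespace Pool.Agent.H19.IA

theorem exists_opt {X N : Type u} (S : Set X) (h : #S ≤ #N) :
    ∃ g : N → Option X, ∀ x, (∃ n, g n = some x) ↔ x ∈ S := by
  classical
  obtain ⟨e⟩ := (Cardinal.le_def _ _).1 h
  refine ⟨fun n => if h : ∃ x, e x = n then some h.choose.1 else none, fun x => ⟨?_, ?_⟩⟩
  · rintro ⟨n, hn⟩
    by_cases h : ∃ x, e x = n
    · simp only [dif_pos h, Option.some.injEq] at hn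
      rw [← hn]
      exact h.choose.2
    · simp only [dif_neg h] at hn
      exact absurd hn (by simp)
  · intro hx
    have h : ∃ y, e y = e ⟨x, hx⟩ := ⟨_, rfl⟩
    refine ⟨e ⟨x, hx⟩, ?_⟩
    simp only [dif_pos h]
    rw [e.injective h.choose_spec]

theorem pow_pow_self {θ : Cardinal.{u}} (hθ : ℵ₀ ≤ θ) : ((2 : Cardinal.{u}) ^ θ) ^ θ = 2 ^ θ := by
  rw [← power_mul, mul_eq_self hθ]

theorem aleph0_le_pow {θ : Cardinal.{u}} (hθ : ℵ₀ ≤ θ) : ℵ₀ ≤ (2 : Cardinal.{u}) ^ θ :=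
  hθ.trans (cantor θ).le

def ar (N K : Type u) : Option N → Type u
  | none => PEmpty
  | some _ => K

theorem closure {X : Type u} (θ : Cardinal.{u}) (hθ : ℵ₀ ≤ θ) (F : Set X → Set X)
    (hF : ∀ S : Set X, #S ≤ θ → #(F S) ≤ 2 ^ θ) :
    ∃ M : Set X, #M ≤ 2 ^ θ ∧ ∀ S ⊆ M, #S ≤ θ → F S ⊆ M := by
  classical
  have h1 : ∀ S : Set X, ∃ g : ((2 : Cardinal.{u}) ^ θ).out → Option X,
      #S ≤ θ → ∀ x ∈ F S, ∃ n, g n = some x := by
    intro S
    by_cases hS : #S ≤ θ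
    · obtain ⟨g, hg⟩ := exists_opt (N := ((2 : Cardinal.{u}) ^ θ).out) (F S)
        (by rw [mk_out]; exact hF S hS)
      exact ⟨g, fun _ x hx => (hg x).2 hx⟩
    · exact ⟨fun _ => none, fun h => absurd h hS⟩
  choose g hg using h1
  let st : (Σ a : Option ((2 : Cardinal.{u}) ^ θ).out,
      ar ((2 : Cardinal.{u}) ^ θ).out θ.out a → Option X) → Option X := fun p =>
    match p with
    | ⟨none, _⟩ => none
    | ⟨some n, f⟩ => g {x | ∃ k, f k = some x} n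
  let ev : WType (ar ((2 : Cardinal.{u}) ^ θ).out θ.out) → Option X := WType.elim _ st
  have hW : #(WType (ar ((2 : Cardinal.{u}) ^ θ).out θ.out)) ≤ 2 ^ θ := by
    apply WType.cardinalMk_le_of_le
    have h2 : ∀ a, ((2 : Cardinal.{u}) ^ θ) ^ #(ar ((2 : Cardinal.{u}) ^ θ).out θ.out a)
        ≤ 2 ^ θ := by
      rintro (_ | n)
      · simp only [ar, mk_eq_zero, power_zero]
        exact one_le_aleph0.trans (aleph0_le_pow hθ)
      · simp only [ar, mk_out]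
        exact (pow_pow_self hθ).le
    refine (sum_le_sum _ _ h2).trans ?_
    rw [sum_const', mk_option, mk_out, add_one_eq (aleph0_le_pow hθ),
      mul_eq_self (aleph0_le_pow hθ)]
  refine ⟨{x | ∃ w, ev w = some x}, ?_, ?_⟩
  · refine le_trans ?_ hW
    have h2 : ∀ x : {x | ∃ w, ev w = some x}, ∃ w, ev w = some x.1 := fun x => x.2
    choose w hw using h2
    refine mk_le_of_injective (f := w) fun a b hab => Subtype.ext ?_
    have := hw a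
    rw [hab, hw b] at this
    exact (Option.some.inj this).symm
  · intro S hS hc x hx
    obtain ⟨n, hn⟩ := hg S hc x hx
    obtain ⟨g', hg'⟩ := exists_opt (N := θ.out) S (by rw [mk_out]; exact hc)
    have h2 : ∀ k, ∃ w, ev w = g' k := by
      intro k
      rcases h : g' k with _ | y
      · exact ⟨WType.mk none (fun e => PEmpty.elim e), rfl⟩
      · exact hS ((hg' y).1 ⟨k, h⟩)
    choose w hw using h2
    refine ⟨WType.mk (some n) w, ?_⟩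
    have h3 : {x | ∃ k, ev (w k) = some x} = S := by
      ext y
      simp only [mem_ofPred_eq, hw]
      exact hg' y
    rw [← hn, ← h3]
    rfl

theorem zorn_pw {X : Type u} (M : Set X) (r : X → X → Prop) :
    ∃ T ⊆ M, T.Pairwise r ∧ ∀ s ∈ M, (∀ t ∈ T, r s t ∧ r t s) → s ∈ T := by
  obtain ⟨T, hT⟩ := zorn_subset {T | T ⊆ M ∧ T.Pairwise r} (by
    intro c hc hch
    refine ⟨⋃₀ c, ⟨?_, ?_⟩, fun s hs => subset_sUnion_of_mem hs⟩
    · exact sUnion_subset fun s hs => (hc hs).1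
    · rintro a ⟨s, hs, ha⟩ b ⟨t, ht, hb⟩ hab
      rcases hch.total hs ht with h | h
      · exact (hc ht).2 (h ha) hb hab
      · exact (hc hs).2 ha (h hb) hab)
  refine ⟨T, hT.prop.1, hT.prop.2, fun s hs h => ?_⟩
  have h1 : insert s T ∈ {T | T ⊆ M ∧ T.Pairwise r} := by
    refine ⟨insert_subset hs hT.prop.1, ?_⟩
    rw [pairwise_insert]
    exact ⟨hT.prop.2, fun t ht _ => h t ht⟩
  exact hT.le_of_ge h1 (subset_insert _ _) (mem_insert _ _)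

/-- Erdos-Rado for pairs -/
theorem erdos_rado {X Θ : Type u} (θ : Cardinal.{u}) (hθ : ℵ₀ ≤ θ) (hΘ : #Θ ≤ θ)
    (hX : 2 ^ θ < #X) (c : X → X → Θ) (hc : ∀ a b, c a b = c b a) :
    ∃ i, ∃ H : Set X, θ < #H ∧ H.Pairwise (fun a b => c a b = i) := by
  classical
  obtain ⟨M, hM, hcl⟩ := closure θ hθ (fun S : Set X =>
    range (fun p : {p : S → Θ // ∃ x, x ∉ S ∧ ∀ s : S, c s x = p s} => p.2.choose)) (by
      intro S hS
      refine mk_range_le.trans ((mk_subtype_le _).trans ?_)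
      rw [← power_def]
      calc #Θ ^ #S ≤ (2 ^ θ) ^ #S := power_le_power_right (hΘ.trans (cantor θ).le)
        _ ≤ (2 ^ θ) ^ θ := power_le_power_left (power_ne_zero _ two_ne_zero) hS
        _ = 2 ^ θ := pow_pow_self hθ)
  obtain ⟨a, ha⟩ : ∃ a, a ∉ M := by
    by_contra h
    push Not at h
    rw [eq_univ_of_forall h, mk_univ] at hM
    exact absurd hX (not_lt.2 hM)
  have h1 := fun i => zorn_pw {m | m ∈ M ∧ c m a = i} (fun a b => c a b = i)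
  choose H hH1 hH2 hH3 using h1
  by_contra hcon
  push Not at hcon
  have h2 : ∀ i, #(H i) ≤ θ := fun i => not_lt.1 fun h => hcon i (H i) h (hH2 i)
  have h3 : #(⋃ i, H i) ≤ θ := by
    refine mk_iUnion_le_sum_mk.trans ((sum_le_sum _ _ h2).trans ?_)
    rw [sum_const']
    exact (mul_le_mul_left hΘ θ).trans (mul_eq_self hθ).le
  have h4 : (⋃ i, H i) ⊆ M := iUnion_subset fun i m hm => (hH1 i hm).1
  have h5 : ∃ x, x ∉ (⋃ i, H i) ∧ ∀ s : (⋃ i, H i), c s x = c s a :=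
    ⟨a, fun h => ha (h4 h), fun _ => rfl⟩
  have h6 : h5.choose ∈ M := hcl _ h4 h3 ⟨⟨fun s => c s a, h5⟩, rfl⟩
  obtain ⟨h7, h8⟩ := h5.choose_spec
  apply h7
  refine mem_iUnion.2 ⟨c h5.choose a, hH3 _ _ ⟨h6, rfl⟩ fun t ht => ?_⟩
  have h9 := h8 ⟨t, mem_iUnion.2 ⟨_, ht⟩⟩
  have h10 := (hH1 _ ht).2
  simp only at h9
  exact ⟨by rw [hc, h9, h10], by rw [h9, h10]⟩

theorem pieces {P : Type u} [PartialOrder P] (κ : Cardinal.{u}) (hκ : ℵ₀ ≤ κ)
    (hP : ∀ A : Set P, IsAntichain (· ≤ ·) A → #A ≤ κ) (J : Order.Ideal P) :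
    ∃ f : P → ((2 : Cardinal.{u}) ^ κ).out, ∀ ξ, ∀ S : Set P, (∀ s ∈ S, s ∈ J ∧ f s = ξ) →
      #S ≤ κ → ∃ y ∈ J, ∀ s ∈ S, s ≤ y := by
  classical
  let Bdd : Set P → Prop := fun A => ∀ S ⊆ A, #S ≤ κ → ∃ y ∈ J, ∀ s ∈ S, s ≤ y
  let A : Set P → Set P := fun T => {a | a ∈ J ∧ ∀ t ∈ T, ¬ a ≤ t ∧ ¬ t ≤ a}
  have h1 : ∀ T, ∃ S ⊆ A T, #S ≤ κ ∧ (¬ Bdd (A T) → ∀ y ∈ J, ∃ s ∈ S, ¬ s ≤ y) := by
    intro T
    by_cases h : Bdd (A T)
    · exact ⟨∅, empty_subset _, by simp, fun h' => absurd h h'⟩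
    · simp only [Bdd] at h
      push Not at h
      obtain ⟨S, h1, h2, h3⟩ := h
      exact ⟨S, h1, h2, fun _ => h3⟩
  choose F hF1 hF2 hF3 using h1
  obtain ⟨M, hM, hcl⟩ := closure κ hκ F (fun S _ => (hF2 S).trans (cantor κ).le)
  let pc : ({T : Set P // T ⊆ M ∧ #T ≤ κ} ⊕ M) → Set P :=
    Sum.elim (fun T => A T.1) (fun m => {a | a ≤ m.1})
  have hI : #({T : Set P // T ⊆ M ∧ #T ≤ κ} ⊕ M) ≤ #((2 : Cardinal.{u}) ^ κ).out := by
    rw [mk_out, mk_sum, lift_id, lift_id]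
    have h2 : #{T : Set P // T ⊆ M ∧ #T ≤ κ} ≤ 2 ^ κ := by
      refine (mk_bounded_subset_le M κ).trans ?_
      rw [← pow_pow_self hκ]
      exact power_le_power_right (max_le hM (aleph0_le_pow hκ))
    exact (add_le_add h2 hM).trans (add_eq_self (aleph0_le_pow hκ)).le
  obtain ⟨e⟩ := (Cardinal.le_def _ _).1 hI
  have h2 : ∀ x, ∃ i, x ∈ J → x ∈ pc i ∧ Bdd (pc i) := by
    intro x
    by_cases hx : x ∈ J
    swap
    · exact ⟨Sum.inl ⟨∅, by simp⟩, fun h => absurd h hx⟩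
    by_cases hm : ∃ m ∈ M, m ∈ J ∧ x ≤ m
    · obtain ⟨m, h1, h2, h3⟩ := hm
      exact ⟨Sum.inr ⟨m, h1⟩, fun _ => ⟨h3, fun S hS _ => ⟨m, h2, fun s hs => hS hs⟩⟩⟩
    push Not at hm
    obtain ⟨T, hT1, hT2, hT3⟩ := zorn_pw {m | m ∈ M ∧ ¬ x ≤ m ∧ ¬ m ≤ x} (fun a b => ¬ a ≤ b)
    have hTM : T ⊆ M := fun t ht => (hT1 ht).1
    have hTc : #T ≤ κ := hP T hT2
    refine ⟨Sum.inl ⟨T, hTM, hTc⟩, fun _ => ⟨⟨hx, fun t ht => (hT1 ht).2⟩, ?_⟩⟩
    by_contra hb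
    obtain ⟨s, hs, hsx⟩ := hF3 T hb x hx
    have hsM : s ∈ M := hcl T hTM hTc hs
    have hsA := hF1 T hs
    have hsT : s ∈ T := hT3 s ⟨hsM, hm s hsM hsA.1, hsx⟩ hsA.2
    exact (hsA.2 s hsT).1 le_rfl
  choose idx hidx using h2
  refine ⟨fun x => e (idx x), fun ξ S hS hc => ?_⟩
  rcases S.eq_empty_or_nonempty with rfl | ⟨s0, hs0⟩
  · obtain ⟨y, hy⟩ := J.nonempty
    exact ⟨y, hy, by simp⟩
  · refine (hidx s0 (hS s0 hs0).1).2 S (fun s hs => ?_) hc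
    have : idx s0 = idx s := e.injective ((hS s0 hs0).2.trans (hS s hs).2.symm)
    rw [this]
    exact (hidx s (hS s hs).1).1

theorem main (μ : Cardinal.{u}) (P : Type u) [PartialOrder P]
    (hP : ∀ A : Set P, IsAntichain (· ≤ ·) A → #A ≠ μ) (B : Set (Order.Ideal P))
    (hB : IsAntichain (· ≤ ·) B) : #B ≤ 2 ^ ((2 : Cardinal.{u}) ^ (max μ ℵ₀)) := by
  classical
  by_contra hlt
  push Not at hlt
  set κ := max μ ℵ₀ with hκ
  have hκ0 : ℵ₀ ≤ κ := le_max_right _ _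
  have hμκ : μ ≤ κ := le_max_left _ _
  have hP' : ∀ A : Set P, IsAntichain (· ≤ ·) A → #A ≤ κ := by
    intro A hA
    by_contra h
    obtain ⟨A', h1, h2⟩ := le_mk_iff_exists_subset.1 (hμκ.trans (not_le.1 h).le)
    exact hP A' (hA.subset h1) h2
  choose f hf using pieces κ hκ0 hP'
  have h1 : ∀ a b : B, ∃ x, x ∈ a.1 ∧ (a ≠ b → x ∉ b.1) := by
    intro a b
    by_cases hab : a = b
    · obtain ⟨y, hy⟩ := a.1.nonempty
      exact ⟨y, hy, fun h => absurd hab h⟩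
    · have := hB a.2 b.2 (fun e => hab (Subtype.ext e))
      have h2 : ¬ (a.1 : Set P) ⊆ b.1 := this
      obtain ⟨x, h3, h4⟩ := not_subset.1 h2
      exact ⟨x, h3, fun _ => h4⟩
  choose x hx1 hx2 using h1
  obtain ⟨i, H, hH1, hH2⟩ := erdos_rado (X := B) (Θ := Sym2 ((2 : Cardinal.{u}) ^ κ).out)
    (2 ^ κ) (aleph0_le_pow hκ0) (by
      have : #(Sym2 ((2 : Cardinal.{u}) ^ κ).out) ≤
          #(((2 : Cardinal.{u}) ^ κ).out × ((2 : Cardinal.{u}) ^ κ).out) := by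
        refine mk_le_of_surjective (f := fun p => s(p.1, p.2)) ?_
        intro z
        induction z using Sym2.ind with
        | h a b => exact ⟨(a, b), rfl⟩
      rwa [mk_prod, lift_id, mk_out, mul_eq_self (aleph0_le_pow hκ0)] at this)
    hlt (fun a b => s(f a.1 (x a b), f b.1 (x b a))) (fun a b => Sym2.eq_swap)
  obtain ⟨H', hH3, hH4⟩ := le_mk_iff_exists_subset.1
    (hμκ.trans ((cantor κ).le.trans hH1.le))
  induction i using Sym2.ind with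
  | h ξ η =>
  have h2 : ∀ (a : B) (ζ : ((2 : Cardinal.{u}) ^ κ).out), ∃ y ∈ a.1, ∀ b ∈ H',
      f a.1 (x a b) = ζ → x a b ≤ y := by
    intro a ζ
    obtain ⟨y, hy, h⟩ := hf a.1 ζ (x a '' {b | b ∈ H' ∧ f a.1 (x a b) = ζ}) (by
      rintro _ ⟨b, hb, rfl⟩
      exact ⟨hx1 a b, hb.2⟩) (by
      refine mk_image_le.trans ((mk_le_mk_of_subset (fun b hb => hb.1)).trans ?_)
      rw [hH4]
      exact hμκ)
    exact ⟨y, hy, fun b hb e => h _ ⟨b, ⟨hb, e⟩, rfl⟩⟩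
  have h3 : ∀ a : B, ∃ y ∈ a.1, a ∈ H' → ∀ b ∈ H', a ≠ b → y ∉ b.1 := by
    intro a
    obtain ⟨y1, hy1, h1⟩ := h2 a ξ
    obtain ⟨y2, hy2, h2⟩ := h2 a η
    obtain ⟨y, hy, h3, h4⟩ := a.1.directed y1 hy1 y2 hy2
    refine ⟨y, hy, fun ha b hb hab hyb => hx2 a b hab ?_⟩
    have h5 := hH2 (hH3 ha) (hH3 hb) hab
    simp only [Sym2.eq_iff] at h5
    rcases h5 with h5 | h5
    · exact b.1.lower ((h1 b hb h5.1).trans h3) hyb
    · exact b.1.lower ((h2 b hb h5.1).trans h4) hyb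
  choose y hy1 hy2 using h3
  have h4 : ∀ a ∈ H', ∀ b ∈ H', y a ≤ y b → a = b := by
    intro a ha b hb h
    by_contra hab
    exact hy2 a ha b hb hab (b.1.lower h (hy1 b))
  apply hP (y '' H')
  · rintro _ ⟨a, ha, rfl⟩ _ ⟨b, hb, rfl⟩ hne h
    exact hne (by rw [h4 a ha b hb h])
  · rw [mk_image_eq_of_injOn _ _ (fun a ha b hb h => h4 a ha b hb h.le), hH4]

end Pool.Agent.H19.IA
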