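import Mathlib

set_option autoImplicit false
open Matrix

namespace Pool.Agent.H19

theorem quad_eq_sum {V : Type} [Fintype V] [DecidableEq V] (A : Matrix V V ℝ) (hA : A.IsHermitian)
    (x : V → ℝ) : x ⬝ᵥ (A *ᵥ x) =
      ∑ i, hA.eigenvalues i * ((star (hA.eigenvectorUnitary : Matrix V V ℝ) *ᵥ x) i) ^ 2 := by
  conv_lhs => rw [hA.spectral_theorem, Unitary.conjStarAlgAut_apply]
  rw [← mulVec_mulVec, ← mulVec_mulVec, dotProduct_mulVec]
  have : x ᵥ* (hA.eigenvectorUnitary : Matrix V V ℝ)
      = star (hA.eigenvectorUnitary : Matrix V V ℝ) *ᵥ x := by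
    rw [star_eq_conjTranspose, conjTranspose_eq_transpose_of_trivial, mulVec_transpose]
  rw [this]
  simp only [dotProduct, mulVec_diagonal, Function.comp_apply, RCLike.ofReal_real_eq_id, id]
  refine Finset.sum_congr rfl fun i _ => ?_
  ring

/-- A `k`-dimensional family on which the form is positive definite forces `k` positive
eigenvalues. -/
theorem le_card_pos {V : Type} [Fintype V] [DecidableEq V] (A : Matrix V V ℝ) (hA : A.IsHermitian)
    (k : ℕ) (P : Matrix V (Fin k) ℝ)
    (hP : ∀ c : Fin k → ℝ, c ≠ 0 → 0 < (P *ᵥ c) ⬝ᵥ (A *ᵥ (P *ᵥ c))) :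
    k ≤ Multiset.card (A.charpoly.roots.filter (fun x => 0 < x)) := by
  classical
  have h1 : Multiset.card (A.charpoly.roots.filter (fun x => 0 < x))
      = Fintype.card {i // 0 < hA.eigenvalues i} := by
    rw [hA.roots_charpoly_eq_eigenvalues, Multiset.filter_map, Multiset.card_map,
      Fintype.card_subtype]
    simp only [Function.comp_apply, RCLike.ofReal_real_eq_id, id]
    rfl
  rw [h1]
  by_contra hlt
  push Not at hlt
  let L : (Fin k → ℝ) →ₗ[ℝ] ({i // 0 < hA.eigenvalues i} → ℝ) :=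
    (LinearMap.funLeft ℝ ℝ Subtype.val).comp
      (Matrix.mulVecLin (star (hA.eigenvectorUnitary : Matrix V V ℝ) * P))
  have hk : LinearMap.ker L ≠ ⊥ := by
    apply LinearMap.ker_ne_bot_of_finrank_lt
    simpa using hlt
  obtain ⟨c, hc, hc0⟩ := Submodule.exists_mem_ne_zero_of_ne_bot hk
  have h2 := hP c hc0
  rw [quad_eq_sum A hA] at h2
  have h3 : ∑ i, hA.eigenvalues i *
      ((star (hA.eigenvectorUnitary : Matrix V V ℝ) *ᵥ (P *ᵥ c)) i) ^ 2 ≤ 0 := by
    apply Finset.sum_nonpos
    intro i _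
    by_cases hi : 0 < hA.eigenvalues i
    · have := congrFun (LinearMap.mem_ker.1 hc) ⟨i, hi⟩
      simp only [L, LinearMap.comp_apply, LinearMap.funLeft_apply, mulVecLin_apply,
        Pi.zero_apply] at this
      rw [mulVec_mulVec, this]
      simp
    · push Not at hi
      exact mul_nonpos_of_nonpos_of_nonneg hi (sq_nonneg _)
  linarith

end Pool.Agent.H19
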