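import Mathlib

set_option autoImplicit false

namespace Pool.Agent.H19.Irr

def P (A : Fin 18 → Fin 18 → Prop) (T : Finset (Fin 18)) : Prop :=
  ∀ v ∈ T, ∃ w : Fin 18, (w = v ∨ A v w) ∧ ∀ u ∈ T, u ≠ v → ¬ (w = u ∨ A u w)

def U (N : ℕ → ℕ) (v : ℕ) : List ℕ → ℕ
  | [] => 0
  | u :: L => if u = v then U N v L else N u ||| U N v L

theorem U_bit (N : ℕ → ℕ) (v w : ℕ) (L : List ℕ) :
    (U N v L).testBit w = true ↔ ∃ u ∈ L, u ≠ v ∧ (N u).testBit w = true := by
  induction L with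
  | nil => simp [U]
  | cons u L ih =>
    rw [U]
    split_ifs with h
    · simp [ih, h]
    · simp [Nat.testBit_or, ih, h]

theorem or_ne (a b : ℕ) : (a ||| b ≠ b) ↔ ∃ w, a.testBit w = true ∧ ¬ b.testBit w = true := by
  constructor
  · intro h
    by_contra hc
    push Not at hc
    apply h
    apply Nat.eq_of_testBit_eq
    intro w
    rw [Nat.testBit_or]
    cases ha : a.testBit w
    · simp
    · simp [hc w ha]
  · rintro ⟨w, h1, h2⟩ h
    rw [← h, Nat.testBit_or, h1] at h2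
    simp at h2

def irrB (N : ℕ → ℕ) (L : List ℕ) : Bool := L.all fun v => N v ||| U N v L != U N v L

def toF (L : List ℕ) : Finset (Fin 18) := Finset.univ.filter fun v => v.val ∈ L

theorem mem_toF (L : List ℕ) (v : Fin 18) : v ∈ toF L ↔ v.val ∈ L := by simp [toF]

structure Good (A : Fin 18 → Fin 18 → Prop) (N : ℕ → ℕ) : Prop where
  h1 : ∀ v w : Fin 18, (w = v ∨ A v w) ↔ (N v).testBit w = true
  h2 : ∀ v : Fin 18, N v < 2 ^ 18

theorem irr_iff {A : Fin 18 → Fin 18 → Prop} {N : ℕ → ℕ} (g : Good A N) (L : List ℕ)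
    (hL : ∀ u ∈ L, u < 18) : irrB N L = true ↔ P A (toF L) := by
  simp only [irrB, List.all_eq_true, bne_iff_ne, or_ne, U_bit, P, mem_toF]
  constructor
  · intro h v hv
    obtain ⟨w, h1, h2⟩ := h v hv
    have hw : w < 18 := by
      by_contra hc
      rw [Nat.testBit_lt_two_pow ((g.h2 v).trans_le (Nat.pow_le_pow_right (by norm_num)
        (by omega)))] at h1
      simp at h1
    refine ⟨⟨w, hw⟩, (g.h1 v ⟨w, hw⟩).2 h1, fun u hu huv h3 => h2 ⟨u, hu, ?_, (g.h1 u _).1 h3⟩⟩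
    exact fun e => huv (Fin.ext e)
  · intro h v hv
    obtain ⟨w, h1, h2⟩ := h ⟨v, hL v hv⟩ hv
    refine ⟨w, (g.h1 _ _).1 h1, ?_⟩
    rintro ⟨u, hu, huv, h3⟩
    exact h2 ⟨u, hL u hu⟩ hu (fun e => huv (by simpa using e)) ((g.h1 _ _).2 h3)

theorem P_mono {A : Fin 18 → Fin 18 → Prop} {S T : Finset (Fin 18)} (h : S ⊆ T) (hT : P A T) :
    P A S := by
  intro v hv
  obtain ⟨w, h1, h2⟩ := hT v (h hv)
  exact ⟨w, h1, fun u hu => h2 u (h hu)⟩

def maxB (N : ℕ → ℕ) (L : List ℕ) : Bool :=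
  irrB N L && (List.range 18).all fun v => L.elem v || !irrB N (v :: L)

theorem toF_cons (L : List ℕ) (v : Fin 18) : toF (v.val :: L) = insert v (toF L) := by
  ext u
  simp [mem_toF, Fin.ext_iff]

theorem max_iff {A : Fin 18 → Fin 18 → Prop} {N : ℕ → ℕ} (g : Good A N) (L : List ℕ)
    (hL : ∀ u ∈ L, u < 18) : maxB N L = true ↔ Maximal (P A) (toF L) := by
  have hc : ∀ v : Fin 18, irrB N (v.val :: L) = true ↔ P A (insert v (toF L)) := by
    intro v
    rw [irr_iff g _ (by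
      intro u hu
      rcases List.mem_cons.1 hu with rfl | hu
      · exact v.2
      · exact hL u hu), toF_cons]
  simp only [maxB, Bool.and_eq_true, irr_iff g L hL, List.all_eq_true, List.mem_range,
    Bool.or_eq_true, List.elem_eq_mem, decide_eq_true_eq, Bool.not_eq_true', Maximal]
  refine and_congr_right fun _ => ⟨?_, ?_⟩
  · intro h T hT hle v hv
    rcases h v.val v.2 with h1 | h1
    · exact (mem_toF L v).2 h1
    · have := (hc v).2 (P_mono (Finset.insert_subset hv hle) hT)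
      rw [this] at h1
      exact absurd h1 (by simp)
  · intro h v hv
    by_cases h1 : irrB N (v :: L) = true
    · left
      exact (mem_toF L ⟨v, hv⟩).1
        (h ((hc ⟨v, hv⟩).1 h1) (Finset.subset_insert _ _) (Finset.mem_insert_self _ _))
    · right
      simpa using h1

theorem ex_list (S : Finset (Fin 18)) :
    ∃ L ∈ List.sublistsLen S.card (List.range 18), toF L = S ∧ ∀ u ∈ L, u < 18 := by
  refine ⟨(List.range 18).filter (fun u => u ∈ S.map Fin.valEmbedding), ?_, ?_, ?_⟩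
  · rw [List.mem_sublistsLen]
    refine ⟨List.filter_sublist, ?_⟩
    rw [← List.toFinset_card_of_nodup (List.nodup_range.filter _), ← Finset.card_map Fin.valEmbedding]
    congr 1
    ext u
    simp only [List.mem_toFinset, List.mem_filter, List.mem_range, decide_eq_true_eq,
      and_iff_right_iff_imp, Finset.mem_map, Fin.valEmbedding_apply]
    rintro ⟨a, -, rfl⟩
    exact a.2
  · ext v
    simp [mem_toF, Fin.val_inj]
  · intro u hu
    exact List.mem_range.1 (List.mem_filter.1 hu).1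

def N0 (v : ℕ) : ℕ :=
  (26710389799541888758047600057233893048591924858943253156977954612867370444672772009801646174912769
    >>> (18 * v)) % 262144

def G : SimpleGraph (Fin 18) where
  Adj u v := u ≠ v ∧ (N0 u).testBit v = true
  symm := ⟨by decide +kernel⟩
  loopless := ⟨fun _ h => h.1 rfl⟩

instance : DecidableRel G.Adj := fun u v =>
  inferInstanceAs (Decidable (u ≠ v ∧ (N0 u).testBit v = true))

theorem good0 : Good G.Adj N0 := ⟨by decide +kernel, by decide +kernel⟩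

theorem low0 : (List.range 5).all
    (fun k => (List.sublistsLen k (List.range 18)).all fun L => !maxB N0 L) = true := by
  decide +kernel

theorem low5 : (List.sublistsLen 5 (List.range 18)).all (fun L => !maxB N0 L) = true := by
  decide +kernel

theorem lower (S : Finset (Fin 18)) (h : Maximal (P G.Adj) S) : 6 ≤ S.card := by
  by_contra hc
  obtain ⟨L, hL, rfl, h2⟩ := ex_list S
  rw [← max_iff good0 L h2] at h
  have h0 := low0
  have h5 := low5
  simp only [List.all_eq_true, List.mem_range, Bool.not_eq_true'] at h0 h5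
  by_cases e : (toF L).card = 5
  · rw [e] at hL
    rw [h5 L hL] at h
    exact absurd h (by simp)
  · rw [h0 _ (by omega) L hL] at h
    exact absurd h (by simp)

theorem ex0 : Maximal (P G.Adj) (toF [0, 1, 2, 3, 4, 5]) :=
  (max_iff good0 _ (by decide)).1 (by decide +kernel)

def N1 (a b : Fin 18) (v : ℕ) : ℕ :=
  if v = a.val then N0 v - 2 ^ b.val else if v = b.val then N0 v - 2 ^ a.val else N0 v

def W : List (ℕ × ℕ × List ℕ) :=
  [(0, 8, [6, 10, 11, 15, 16]), (0, 14, [9, 11, 13, 16, 17]), (1, 10, [6, 8, 11, 12, 14]),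
   (1, 15, [6, 7, 9, 12, 17]), (2, 7, [6, 9, 12, 15, 17]), (2, 13, [6, 9, 10, 12, 17]),
   (3, 11, [6, 8, 10, 12, 14]), (3, 16, [6, 8, 12, 14, 15]), (4, 9, [7, 8, 11, 13, 14]),
   (4, 17, [6, 7, 10, 13, 15]), (5, 6, [7, 10, 13, 15, 17]), (5, 12, [7, 9, 10, 13, 15]),
   (6, 8, [6, 10, 12, 14, 15]), (6, 10, [6, 8, 12, 14, 15]), (6, 17, [6, 9, 10, 12, 15]),
   (7, 8, [7, 9, 13, 14, 17]), (7, 9, [6, 9, 12, 13, 17]), (7, 15, [6, 10, 12, 13, 15]),
   (8, 11, [6, 8, 12, 14, 16]), (9, 11, [7, 9, 13, 16, 17]), (9, 12, [6, 7, 9, 13, 17]),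
   (10, 11, [6, 10, 12, 15, 16]), (10, 13, [6, 7, 10, 12, 15]), (12, 14, [6, 8, 10, 12, 15]),
   (12, 15, [6, 7, 10, 13, 15]), (13, 14, [7, 8, 9, 13, 17]), (13, 17, [6, 7, 9, 12, 17]),
   (14, 16, [6, 8, 11, 12, 14]), (15, 16, [6, 10, 11, 12, 15]), (16, 17, [7, 9, 11, 13, 17])]

theorem up1 : ∀ a b : Fin 18, a < b → G.Adj a b →
    (∀ v w : Fin 18, (w = v ∨ (G.Adj v w ∧ ¬ ((v = a ∧ w = b) ∨ (v = b ∧ w = a)))) ↔
      (N1 a b v).testBit w = true) ∧ (∀ v : Fin 18, N1 a b v < 2 ^ 18) ∧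
    ∃ t ∈ W, t.1 = a.val ∧ t.2.1 = b.val ∧ (∀ u ∈ t.2.2, u < 18) ∧ (toF t.2.2).card = 5 ∧
      maxB (N1 a b) t.2.2 = true := by
  decide +kernel

theorem upper (e : Sym2 (Fin 18)) (he : e ∈ G.edgeSet) :
    ∃ S : Finset (Fin 18), Maximal (P (G.deleteEdges {e}).Adj) S ∧ S.card = 5 := by
  have key : ∀ a b : Fin 18, a < b → G.Adj a b →
      ∃ S : Finset (Fin 18), Maximal (P (G.deleteEdges {s(a, b)}).Adj) S ∧ S.card = 5 := by
    intro a b hab h
    obtain ⟨h1, h2, t, -, -, -, h3, h4, h5⟩ := up1 a b hab h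
    refine ⟨toF t.2.2, (max_iff (N := N1 a b) ⟨fun v w => ?_, h2⟩ _ h3).1 h5, h4⟩
    rw [← h1 v w, SimpleGraph.deleteEdges_adj]
    simp
  induction e using Sym2.ind with
  | h a b =>
    have h : G.Adj a b := he
    rcases lt_or_gt_of_ne h.ne with hab | hab
    · exact key a b hab h
    · rw [Sym2.eq_swap]
      exact key b a hab h.symm

end Pool.Agent.H19.Irr
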