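import Mathlib

set_option autoImplicit false
open Matrix Polynomial Finset

namespace Pool.Agent.H19.Jor

/-- a polynomial vector `ψ` with `(M - μ - X) ψ` divisible by `X ^ (k+1)` gives a Jordan chain -/
theorem chain {ι : Type} [Fintype ι] [DecidableEq ι] (M : Matrix ι ι ℂ) (μ : ℂ) (k : ℕ)
    (ψ : ι → ℂ[X]) (h : ∀ e, X ^ (k + 1) ∣ ∑ e', C (M e e') * ψ e' - (C μ + X) * ψ e)
    (h0 : ∃ e, (ψ e).coeff 0 ≠ 0) :
    ∃ v : ι → ℂ, (M - μ • 1) ^ (k + 1) *ᵥ v = 0 ∧ (M - μ • 1) ^ k *ᵥ v ≠ 0 := by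
  let w : ℕ → ι → ℂ := fun j e => (ψ e).coeff j
  have hA : ∀ j e, ((M - μ • 1) *ᵥ w j) e
      = (∑ e', C (M e e') * ψ e' - (C μ + X) * ψ e).coeff j + (X * ψ e).coeff j := by
    intro j e
    rw [sub_mulVec, smul_mulVec, one_mulVec]
    simp only [Pi.sub_apply, Pi.smul_apply, smul_eq_mul, coeff_sub, finsetSum_coeff, coeff_C_mul,
      add_mul, coeff_add, mulVec, dotProduct, w]
    ring
  have hz : (M - μ • 1) *ᵥ w 0 = 0 := by
    funext e
    rw [hA, X_pow_dvd_iff.1 (h e) 0 (by omega)]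
    simp
  have hs : ∀ j, j + 1 ≤ k → (M - μ • 1) *ᵥ w (j + 1) = w j := by
    intro j hj
    funext e
    rw [hA, X_pow_dvd_iff.1 (h e) (j + 1) (by omega)]
    simp [w]
  have hp : ∀ j, j ≤ k → (M - μ • 1) ^ j *ᵥ w j = w 0 := by
    intro j
    induction j with
    | zero => simp
    | succ j ih =>
      intro hj
      rw [pow_succ, ← mulVec_mulVec, hs j hj, ih (by omega)]
  refine ⟨w k, ?_, ?_⟩
  · rw [pow_succ', ← mulVec_mulVec, hp k le_rfl, hz]
  · rw [hp k le_rfl]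
    obtain ⟨e, he⟩ := h0
    intro h1
    exact he (congrFun h1 e)

open Classical in
theorem sum_dart {V R : Type} [Fintype V] [AddCommMonoid R] (G : SimpleGraph V) (g : V × V → R) :
    ∑ d : G.Dart, g d.toProd = ∑ p : V × V, if G.Adj p.1 p.2 then g p else 0 := by
  rw [← sum_filter]
  refine sum_bij (fun d _ => d.toProd) ?_ ?_ ?_ ?_
  · intro d _
    simp [d.adj]
  · intro a _ b _ h
    exact SimpleGraph.Dart.ext _ _ h
  · intro p hp
    simp only [mem_filter, mem_univ, true_and] at hp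
    exact ⟨⟨p, hp⟩, mem_univ _, rfl⟩
  · intro d _
    rfl

open Classical in
theorem nb_apply {V : Type} [Fintype V] [DecidableEq V] (G : SimpleGraph V) (x : V → ℂ[X]) (L : ℂ[X])
    (d : G.Dart) :
    ∑ d' : G.Dart, C (if d.snd = d'.fst ∧ d.fst ≠ d'.snd then (1 : ℂ) else 0) *
        (x d'.fst - L * x d'.snd) - L * (x d.fst - L * x d.snd)
      = (∑ w, if G.Adj d.snd w then x d.snd - L * x w else 0) - x d.snd + L ^ 2 * x d.snd := by
  have h1 := sum_dart G (fun p => C (if d.snd = p.1 ∧ d.fst ≠ p.2 then (1 : ℂ) else 0) *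
        (x p.1 - L * x p.2))
  rw [h1, Fintype.sum_prod_type, sum_eq_single d.snd]
  · have h2 : ∀ w, (if G.Adj d.snd w then x d.snd - L * x w else 0)
        = (if G.Adj d.snd w then C (if d.snd = d.snd ∧ d.fst ≠ w then (1 : ℂ) else 0) *
          (x d.snd - L * x w) else 0) + (if d.fst = w then x d.snd - L * x w else 0) := by
      intro w
      by_cases e : d.fst = w
      · subst e
        simp [d.adj.symm]
      · simp [e]
    simp only [h2]
    rw [sum_add_distrib, sum_ite_eq]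
    simp only [mem_univ, if_true]
    ring
  · intro b _ hb
    apply sum_eq_zero
    intro w _
    simp [hb.symm]
  · simp

theorem exists_part {P : Type} [Fintype P] (sz : P → ℕ) :
    ∃ (n : ℕ) (part : Fin n → P), ∀ {R : Type} [AddCommMonoid R] (f : P → R),
      ∑ v, f (part v) = ∑ p, sz p • f p := by
  classical
  let e := (Fintype.equivFin (Σ p, Fin (sz p))).symm
  refine ⟨_, fun v => (e v).1, fun f => ?_⟩
  rw [Equiv.sum_comp e (fun a => f a.1), Fintype.sum_sigma]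
  simp

theorem exists_scale (ν : ℕ → ℚ) (hν : ∀ j, 0 < ν j) (K R : ℕ) :
    ∃ T : ℕ, R < T ∧ ∃ N : ℕ → ℕ, ∀ j < K, (N j : ℚ) = T * ν j := by
  let T0 := ∏ j ∈ range K, (ν j).den
  have hT0 : 0 < T0 := prod_pos fun j _ => (ν j).den_pos
  refine ⟨(R + 1) * T0, by nlinarith, fun j => (R + 1) * (T0 / (ν j).den) * (ν j).num.toNat, ?_⟩
  intro j hj
  obtain ⟨q, hq⟩ : (ν j).den ∣ T0 := dvd_prod_of_mem _ (mem_range.2 hj)
  have h1 : T0 / (ν j).den = q := by rw [hq, Nat.mul_div_cancel_left _ (ν j).den_pos]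
  have h2 : (((ν j).num.toNat : ℕ) : ℚ) = ((ν j).num : ℚ) := by
    have : (0 : ℤ) ≤ (ν j).num := Rat.num_nonneg.2 (hν j).le
    exact_mod_cast Int.toNat_of_nonneg this
  have h3 : ((ν j).num : ℚ) = ν j * (ν j).den := (Rat.mul_den_eq_num _).symm
  simp only [h1]
  rw [hq]
  push_cast
  rw [h2, h3]
  ring

theorem exists_sizes (k : ℕ) : ∃ T : ℕ, 0 < T ∧ ∃ N : ℕ → ℕ, (∀ j ≤ k, 0 < N j) ∧
    ∀ j < k, (j + 1) * (N j * N (j + 1)) = T ^ 2 * (k - j) ∧ N j + N (j + 2) ≤ N j * N (j + 1) := by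
  let e : ℕ → ℚ := fun j => if j < k then ((k - j : ℕ) : ℚ) / (j + 1) else 1
  have he : ∀ j, 0 < e j := by
    intro j
    simp only [e]
    split_ifs with h
    · have : 0 < k - j := by omega
      positivity
    · norm_num
  let ν : ℕ → ℚ := fun j => Nat.rec 1 (fun i a => e i / a) j
  have hν : ∀ j, 0 < ν j := by
    intro j
    induction j with
    | zero => simp [ν]
    | succ j ih => exact div_pos (he j) ih
  have hν2 : ∀ j, ν j * ν (j + 1) = e j := by
    intro j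
    have := (hν j).ne'
    show ν j * (e j / ν j) = e j
    field_simp
  obtain ⟨T, hT, N, hN⟩ := exists_scale ν hν (k + 2) (∑ j ∈ range k, ⌈(ν j + ν (j + 2)) / e j⌉₊)
  have hT0 : 0 < T := by omega
  have hTq : (0 : ℚ) < T := by exact_mod_cast hT0
  refine ⟨T, hT0, N, ?_, ?_⟩
  · intro j hj
    have : (0 : ℚ) < N j := by rw [hN j (by omega)]; exact mul_pos hTq (hν j)
    exact_mod_cast this
  · intro j hj
    have h1 : (N j : ℚ) * N (j + 1) = T ^ 2 * e j := by
      rw [hN j (by omega), hN (j + 1) (by omega), ← hν2]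
      ring
    constructor
    · have h2 : ((j : ℚ) + 1) * (N j * N (j + 1)) = T ^ 2 * ((k - j : ℕ) : ℚ) := by
        rw [h1]
        simp only [e, if_pos hj]
        field_simp
      exact_mod_cast h2
    · have h2 : ⌈(ν j + ν (j + 2)) / e j⌉₊ ≤ ∑ j ∈ range k, ⌈(ν j + ν (j + 2)) / e j⌉₊ :=
        single_le_sum (f := fun j => ⌈(ν j + ν (j + 2)) / e j⌉₊) (fun _ _ => Nat.zero_le _)
          (mem_range.2 hj)
      have h3 : (ν j + ν (j + 2)) / e j ≤ T := Nat.ceil_le.1 (by omega)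
      rw [div_le_iff₀ (he j)] at h3
      have h4 : (N j : ℚ) + N (j + 2) ≤ N j * N (j + 1) := by
        rw [h1, hN j (by omega), hN (j + 2) (by omega)]
        nlinarith
      exact_mod_cast h4

/-- the partial binomial sums -/
noncomputable def pp (k : ℕ) (c : ℂ) (s : ℂ[X]) : ℕ → ℂ[X]
  | 0 => 1
  | j + 1 => s * pp k c s j + C ((k.choose (j + 1) : ℂ) * c ^ (j + 1))

theorem pp_eq (k : ℕ) (c : ℂ) (s : ℂ[X]) (j : ℕ) :
    pp k c s j = ∑ i ∈ range (j + 1), C c ^ i * s ^ (j - i) * (k.choose i : ℂ[X]) := by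
  induction j with
  | zero => simp [pp]
  | succ j ih =>
    rw [pp, ih, sum_range_succ _ (j + 1), mul_sum]
    congr 1
    · refine sum_congr rfl fun i hi => ?_
      have : j + 1 - i = (j - i) + 1 := by have := mem_range.1 hi; omega
      rw [this, pow_succ]
      ring
    · simp [mul_comm]

theorem pp_top (k : ℕ) (c : ℂ) (s : ℂ[X]) : pp k c s k = (C c + s) ^ k := by
  rw [pp_eq, add_pow]

theorem pp_rec0 (k : ℕ) (c D : ℂ) (s : ℂ[X]) (hD : D = c * k) :
    pp k c s 1 = (s + C D) * pp k c s 0 := by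
  simp [pp, hD, mul_comm]

theorem pp_rec (k j : ℕ) (c D : ℂ) (s : ℂ[X])
    (hD : ((j + 1 + 1 : ℕ) : ℂ) * D = c * ((k - (j + 1) : ℕ) : ℂ)) :
    pp k c s (j + 2) = (s + C D) * pp k c s (j + 1) - C D * s * pp k c s j := by
  have h1 : (k.choose (j + 2) : ℂ) * c ^ (j + 2) = D * ((k.choose (j + 1) : ℂ) * c ^ (j + 1)) := by
    have h2 : (k.choose (j + 1 + 1) : ℂ) * ((j + 1 + 1 : ℕ) : ℂ)
        = (k.choose (j + 1) : ℂ) * ((k - (j + 1) : ℕ) : ℂ) := by
      exact_mod_cast Nat.choose_succ_right_eq k (j + 1)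
    have h3 : ((j + 1 + 1 : ℕ) : ℂ) ≠ 0 := Nat.cast_ne_zero.2 (by omega)
    apply mul_left_cancel₀ h3
    calc _ = ((k.choose (j + 1 + 1) : ℂ) * ((j + 1 + 1 : ℕ) : ℂ)) * c ^ (j + 2) := by ring
      _ = (k.choose (j + 1) : ℂ) * c ^ (j + 1) * (c * ((k - (j + 1) : ℕ) : ℂ)) := by
        rw [h2]; ring
      _ = _ := by rw [← hD]; ring
  have h4 : pp k c s (j + 1) = s * pp k c s j + C ((k.choose (j + 1) : ℂ) * c ^ (j + 1)) := rfl
  have h5 : pp k c s (j + 2)
      = s * pp k c s (j + 1) + C ((k.choose (j + 2) : ℂ) * c ^ (j + 2)) := rfl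
  rw [h5, h1, C_mul]
  have h6 : C ((k.choose (j + 1) : ℂ) * c ^ (j + 1)) = pp k c s (j + 1) - s * pp k c s j := by
    rw [h4]; ring
  rw [h6]
  ring

noncomputable def rho (N : ℕ → ℕ) (j : ℕ) : ℂ := (∏ i ∈ range j, (N (i + 2) : ℂ))⁻¹

noncomputable def xl (K : ℕ) (c : ℂ) (L : ℂ[X]) (N : ℕ → ℕ) (j : ℕ) : ℂ[X] :=
  L ^ (K - 1 - j) * pp K c (L ^ 2) j * C (rho N j)

theorem rho_succ (N : ℕ → ℕ) (j : ℕ) (h : 0 < N (j + 2)) :
    C (rho N j) = (N (j + 2) : ℂ[X]) * C (rho N (j + 1)) := by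
  have h1 : (N (j + 2) : ℂ) ≠ 0 := Nat.cast_ne_zero.2 (by omega)
  rw [← C_eq_natCast, ← C_mul]
  congr 1
  rw [rho, rho, prod_range_succ, mul_inv, mul_comm, mul_assoc, inv_mul_cancel₀ h1, mul_one]

theorem row (K T : ℕ) (μ : ℂ) (hμ : μ ^ 2 = -(T : ℂ) ^ 2) (N : ℕ → ℕ) (hN : ∀ j ≤ K, 0 < N j)
    (hD : ∀ j < K, (j + 1) * (N j * N (j + 1)) = T ^ 2 * (K - j)) (j : ℕ) (hj : j < K) :
    X ^ K ∣ ((C μ + X) ^ 2 + ((N j * N (j + 1) : ℕ) : ℂ[X])) * xl K (T ^ 2) (C μ + X) N j
      - (if 0 < j then (N j : ℂ[X]) * ((C μ + X) * xl K (T ^ 2) (C μ + X) N (j - 1)) else 0)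
      - (if j + 1 < K then (N (j + 2) : ℂ[X]) * ((C μ + X) * xl K (T ^ 2) (C μ + X) N (j + 1))
          else 0) := by
  set L : ℂ[X] := C μ + X with hL
  have h1 : (L ^ 2 + ((N j * N (j + 1) : ℕ) : ℂ[X])) * xl K (T ^ 2) L N j
      - (if 0 < j then (N j : ℂ[X]) * (L * xl K (T ^ 2) L N (j - 1)) else 0)
      = L ^ (K - 1 - j) * pp K (T ^ 2) (L ^ 2) (j + 1) * C (rho N j) := by
    rcases j with _ | j
    · have h2 : ((N 0 * N (0 + 1) : ℕ) : ℂ) = (T : ℂ) ^ 2 * K := by
        have := hD 0 hj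
        simp only [zero_add, one_mul, Nat.sub_zero] at this
        exact_mod_cast this
      rw [if_neg (by omega), pp_rec0 K _ _ _ h2, xl, C_eq_natCast]
      ring
    · have h2 : ((j + 1 + 1 : ℕ) : ℂ) * ((N (j + 1) * N (j + 1 + 1) : ℕ) : ℂ)
          = (T : ℂ) ^ 2 * ((K - (j + 1) : ℕ) : ℂ) := by
        exact_mod_cast hD (j + 1) hj
      rw [if_pos (by omega), pp_rec K j _ _ _ h2, xl, xl, C_eq_natCast, Nat.add_sub_cancel,
        rho_succ N j (hN _ (by omega))]
      have h3 : K - 1 - j = (K - 1 - (j + 1)) + 1 := by omega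
      rw [h3]
      push_cast
      ring
  rw [h1]
  split_ifs with h
  · rw [xl, rho_succ N j (hN _ (by omega))]
    have h3 : K - 1 - j = (K - 1 - (j + 1)) + 1 := by omega
    rw [h3]
    exact ⟨0, by ring⟩
  · have h3 : j + 1 = K := by omega
    rw [h3, pp_top, sub_zero]
    have h4 : C ((T : ℂ) ^ 2) + L ^ 2 = X * (X + C (2 * μ)) := by
      have : (C μ : ℂ[X]) ^ 2 = - C ((T : ℂ) ^ 2) := by rw [← C_pow, hμ, C_neg]
      rw [hL, C_mul, add_sq, this]
      simp only [map_ofNat]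
      ring
    rw [h4, mul_pow]
    exact Dvd.dvd.mul_right (Dvd.dvd.mul_left (dvd_mul_right _ _) _) _

/-- adjacency between parts -/
def adjP {K : ℕ} : Fin K × Option Bool → Fin K × Option Bool → Prop
  | (j, some a), (j', some b) => a = b ∧ (j.1 + 1 = j'.1 ∨ j'.1 + 1 = j.1)
  | (j, some _), (j', none) => j = j'
  | (j, none), (j', some _) => j = j'
  | (_, none), (_, none) => False

theorem adjP_symm {K : ℕ} (p q : Fin K × Option Bool) (h : adjP p q) : adjP q p := by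
  obtain ⟨j, _ | a⟩ := p <;> obtain ⟨j', _ | b⟩ := q <;> simp only [adjP] at h ⊢ <;> tauto

theorem adjP_irr {K : ℕ} (p : Fin K × Option Bool) : ¬ adjP p p := by
  obtain ⟨j, _ | a⟩ := p <;> simp [adjP]

def zz (K : ℕ) (N : ℕ → ℕ) (j : ℕ) : ℕ :=
  N j * N (j + 1) + 1 - (if 0 < j then N j else 0) - (if j + 1 < K then N (j + 2) else 0)

def sz {K : ℕ} (N : ℕ → ℕ) : Fin K × Option Bool → ℕ
  | (j, some _) => N (j.1 + 1)
  | (j, none) => zz K N j.1

theorem sum_path {R : Type} [AddCommMonoid R] (K : ℕ) (j : Fin K) (g : ℕ → R) :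
    ∑ j' : Fin K, (if j.1 + 1 = j'.1 ∨ j'.1 + 1 = j.1 then g j'.1 else 0)
      = (if 0 < j.1 then g (j.1 - 1) else 0) + (if j.1 + 1 < K then g (j.1 + 1) else 0) := by
  rw [Fin.sum_univ_eq_sum_range (fun i => if j.1 + 1 = i ∨ i + 1 = j.1 then g i else 0) K]
  have h1 : ∀ i, (if j.1 + 1 = i ∨ i + 1 = j.1 then g i else 0)
      = (if 0 < j.1 then (if j.1 - 1 = i then g i else 0) else 0)
        + (if j.1 + 1 = i then g i else 0) := by
    intro i
    split_ifs <;> first | omega | simp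
  simp only [h1]
  rw [sum_add_distrib, sum_ite_eq]
  congr 1
  · split_ifs with h
    · rw [sum_ite_eq, if_pos (mem_range.2 (by omega))]
    · simp
  · simp

open Classical in
theorem sum_some {R : Type} [AddCommMonoid R] {K : ℕ} (N : ℕ → ℕ) (j : Fin K) (a : Bool)
    (f : Fin K × Option Bool → R) (g : ℕ → R) (hg : ∀ j' : Fin K, f (j', some a) = g j'.1) :
    ∑ q, sz N q • (if adjP (j, some a) q then f q else 0)
      = zz K N j.1 • f (j, none) + ((if 0 < j.1 then N j.1 • g (j.1 - 1) else 0)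
        + (if j.1 + 1 < K then N (j.1 + 2) • g (j.1 + 1) else 0)) := by
  rw [Fintype.sum_prod_type]
  simp only [Fintype.sum_option, sum_add_distrib]
  congr 1
  · rw [sum_eq_single j]
    · simp [adjP, sz]
    · intro b _ hb
      simp [adjP, hb.symm]
    · simp
  · have h1 : ∀ j' : Fin K, ∑ b : Bool, sz N (j', some b) •
        (if adjP (j, some a) (j', some b) then f (j', some b) else 0)
        = if j.1 + 1 = j'.1 ∨ j'.1 + 1 = j.1 then N (j'.1 + 1) • g j'.1 else 0 := by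
      intro j'
      rw [sum_eq_single a]
      · simp [adjP, sz, hg]
      · intro b _ hb
        simp [adjP, hb.symm]
      · simp
    simp only [h1]
    rw [sum_path K j (fun i => N (i + 1) • g i)]
    congr 1
    split_ifs with h
    · rw [Nat.sub_add_cancel h]
    · rfl

open Classical in
theorem sum_none {R : Type} [AddCommMonoid R] {K : ℕ} (N : ℕ → ℕ) (j : Fin K)
    (f : Fin K × Option Bool → R) :
    ∑ q, sz N q • (if adjP (j, none) q then f q else 0)
      = N (j.1 + 1) • f (j, some true) + N (j.1 + 1) • f (j, some false) := by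
  rw [Fintype.sum_prod_type, sum_eq_single j]
  · simp [Fintype.sum_option, adjP, sz]
  · intro b _ hb
    simp [Fintype.sum_option, adjP, hb.symm]
  · simp

noncomputable def xP {K : ℕ} (x : ℕ → ℂ[X]) : Fin K × Option Bool → ℂ[X]
  | (j, some true) => x j.1
  | (j, some false) => - x j.1
  | (_, none) => 0

open Classical in
theorem main (k : ℕ) : ∃ (n : ℕ) (G : SimpleGraph (Fin n)), (∀ v, G.degree v ≠ 1) ∧
    ∃ (μ : ℂ) (v : G.Dart → ℂ),
      ((Matrix.of fun d d' : G.Dart => if d.snd = d'.fst ∧ d.fst ≠ d'.snd then (1 : ℂ) else 0)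
        - μ • 1) ^ (k + 1) *ᵥ v = 0 ∧
      ((Matrix.of fun d d' : G.Dart => if d.snd = d'.fst ∧ d.fst ≠ d'.snd then (1 : ℂ) else 0)
        - μ • 1) ^ k *ᵥ v ≠ 0 := by
  obtain ⟨T, hT, N, hN, hD⟩ := exists_sizes (k + 1)
  obtain ⟨n, part, hsum⟩ := exists_part (sz (K := k + 1) N)
  let G : SimpleGraph (Fin n) :=
    ⟨fun u v => adjP (part u) (part v), ⟨fun _ _ h => adjP_symm _ _ h⟩, ⟨fun _ => adjP_irr _⟩⟩
  have hG : ∀ u v, G.Adj u v ↔ adjP (part u) (part v) := fun _ _ => Iff.rfl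
  have hz : ∀ j < k + 1, 0 < zz (k + 1) N j ∧ zz (k + 1) N j + ((if 0 < j then N j else 0)
      + (if j + 1 < k + 1 then N (j + 2) else 0)) = N j * N (j + 1) + 1 := by
    intro j hj
    have := (hD j hj).2
    unfold zz
    split_ifs <;> omega
  have hsurj : ∀ p, 0 < sz N p → ∃ v, part v = p := by
    intro p hp
    by_contra hc
    push Not at hc
    have h1 := hsum (fun q => if q = p then (1 : ℕ) else 0)
    simp [hc] at h1
    omega
  let μ : ℂ := T * Complex.I
  have hμ : μ ^ 2 = -(T : ℂ) ^ 2 := by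
    simp only [μ, mul_pow, Complex.I_sq]
    ring
  let x : Fin n → ℂ[X] := fun v => xP (xl (k + 1) (T ^ 2) (C μ + X) N) (part v)
  refine ⟨n, G, ?_, μ, chain _ μ k (fun d => x d.fst - (C μ + X) * x d.snd) ?_ ?_⟩
  · intro v
    have h1 : G.degree v = ∑ w, if adjP (part v) (part w) then 1 else 0 := by
      rw [← SimpleGraph.card_neighborFinset_eq_degree, SimpleGraph.neighborFinset_eq_filter,
        card_filter]
    rw [h1, hsum (fun q => if adjP (part v) q then 1 else 0)]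
    obtain ⟨j, _ | a⟩ := part v
    · rw [sum_none N j (fun _ => 1)]
      simp only [smul_eq_mul, mul_one]
      omega
    · rw [sum_some N j a (fun _ => 1) (fun _ => 1) (fun _ => rfl)]
      simp only [smul_eq_mul, mul_one]
      rw [(hz j.1 j.2).2]
      have := Nat.mul_pos (hN j.1 (by omega)) (hN (j.1 + 1) (by omega))
      omega
  · intro d
    simp only [of_apply]
    rw [nb_apply G x (C μ + X) d]
    have h1 : (∑ w, if G.Adj d.snd w then x d.snd - (C μ + X) * x w else 0)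
        = ∑ w, if adjP (part d.snd) (part w) then x d.snd - (C μ + X) * x w else 0 :=
      sum_congr rfl fun w _ => if_congr (hG _ w) rfl rfl
    rw [h1]
    simp only [x]
    rw [hsum (fun q => if adjP (part d.snd) q then
      xP (xl (k + 1) (T ^ 2) (C μ + X) N) (part d.snd)
        - (C μ + X) * xP (xl (k + 1) (T ^ 2) (C μ + X) N) q else 0)]
    obtain ⟨j, _ | a⟩ := part d.snd
    · rw [sum_none N j]
      simp [xP]
    · have h2 := row (k + 1) T μ hμ N hN (fun j hj => (hD j hj).1) j.1 j.2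
      have h3 : ((N j.1 * N (j.1 + 1) : ℕ) : ℂ[X]) = zz (k + 1) N j.1
          + ((if 0 < j.1 then (N j.1 : ℂ[X]) else 0)
          + (if j.1 + 1 < k + 1 then (N (j.1 + 2) : ℂ[X]) else 0)) - 1 := by
        have := congrArg (fun m : ℕ => (m : ℂ[X])) (hz j.1 j.2).2
        push_cast at this ⊢
        rw [this]
        ring
      rw [h3] at h2
      generalize xl (k + 1) (T ^ 2) (C μ + X) N = y at h2 ⊢
      cases a
      · rw [sum_some N j false _ (fun i => - y j.1 - (C μ + X) * (- y i)) (fun _ => rfl)]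
        rw [← dvd_neg] at h2
        convert h2 using 1
        simp only [xP, nsmul_eq_mul]
        split_ifs <;> ring
      · rw [sum_some N j true _ (fun i => y j.1 - (C μ + X) * y i) (fun _ => rfl)]
        convert h2 using 1
        simp only [xP, nsmul_eq_mul]
        split_ifs <;> ring
  · obtain ⟨u, hu⟩ := hsurj (0, some true) (hN _ (by simp))
    obtain ⟨v, hv⟩ := hsurj (0, none) (hz 0 (by omega)).1
    refine ⟨⟨(u, v), by rw [hG, hu, hv]; simp [adjP]⟩, ?_⟩
    have hT' : (T : ℂ) ≠ 0 := Nat.cast_ne_zero.2 (by omega)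
    simp [x, hu, hv, xP, xl, pp, rho, coeff_zero_eq_eval_zero, μ, hT']

end Pool.Agent.H19.Jor
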