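import Mathlib

/-! Real binomial coefficients and the clique form of the Lovasz bound (Keevash's argument). -/

set_option maxHeartbeats 400000

namespace Pool.Agent.H19.Kk

open Finset

/-- `y (y-1) ... (y-k+1) / k!`. -/
noncomputable def rch (y : ℝ) (k : ℕ) : ℝ := (∏ j ∈ range k, (y - j)) / (k.factorial : ℝ)

lemma rch_zero (y : ℝ) : rch y 0 = 1 := by simp [rch]

lemma rch_succ (y : ℝ) (k : ℕ) : rch y (k + 1) * (k + 1) = rch y k * (y - k) := by
  unfold rch
  rw [prod_range_succ, Nat.factorial_succ]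
  push_cast
  have : (k.factorial : ℝ) ≠ 0 := by positivity
  field_simp

lemma rch_succ' (y : ℝ) (k : ℕ) : rch y (k + 1) * (k + 1) = y * rch (y - 1) k := by
  unfold rch
  rw [prod_range_succ', Nat.factorial_succ]
  push_cast
  have : (k.factorial : ℝ) ≠ 0 := by positivity
  have h : ∏ j ∈ range k, (y - ((j : ℝ) + 1)) = ∏ j ∈ range k, (y - 1 - j) :=
    prod_congr rfl fun j _ => by ring
  rw [h]
  field_simp
  ring

lemma fac_nonneg {y : ℝ} {k : ℕ} (h : (k : ℝ) - 1 ≤ y) : ∀ j ∈ range k, 0 ≤ y - j := by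
  intro j hj
  have : (j : ℝ) + 1 ≤ k := by exact_mod_cast mem_range.1 hj
  linarith

lemma rch_nonneg {y : ℝ} {k : ℕ} (h : (k : ℝ) - 1 ≤ y) : 0 ≤ rch y k :=
  div_nonneg (prod_nonneg (fac_nonneg h)) (by positivity)

lemma rch_pos {y : ℝ} {k : ℕ} (h : (k : ℝ) - 1 < y) : 0 < rch y k := by
  refine div_pos (prod_pos fun j hj => ?_) (by positivity)
  have : (j : ℝ) + 1 ≤ k := by exact_mod_cast mem_range.1 hj
  linarith

lemma rch_mono {y z : ℝ} {k : ℕ} (h : (k : ℝ) - 1 ≤ y) (hz : y ≤ z) : rch y k ≤ rch z k :=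
  div_le_div_of_nonneg_right (prod_le_prod (fac_nonneg h) fun j _ => by linarith) (by positivity)

lemma rch_strict {y z : ℝ} {k : ℕ} (h : (k : ℝ) ≤ y) (hz : y < z) :
    rch y (k + 1) < rch z (k + 1) := by
  have h1 := rch_succ y k
  have h2 := rch_succ z k
  have h3 : rch y k ≤ rch z k := rch_mono (by linarith) hz.le
  have h4 : 0 < rch y k := rch_pos (by linarith)
  have h5 : rch y k * (y - k) < rch z k * (z - k) := by nlinarith
  have h6 : (0 : ℝ) < k + 1 := by positivity
  rw [← h1, ← h2] at h5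
  exact lt_of_mul_lt_mul_right h5 h6.le

lemma rch_nat (n k : ℕ) : rch n k = n.choose k := by
  induction k with
  | zero => simp [rch]
  | succ k ih =>
    have h1 := rch_succ n k
    have h6 : (k : ℝ) + 1 ≠ 0 := by positivity
    apply mul_right_cancel₀ h6
    rw [h1, ih]
    have h2 := Nat.choose_succ_right_eq n k
    rcases le_or_gt k n with h | h
    · have : ((n.choose (k + 1) * (k + 1) : ℕ) : ℝ) = ((n.choose k * (n - k) : ℕ) : ℝ) := by rw [h2]
      push_cast [h] at this
      exact this.symm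
    · rw [Nat.choose_eq_zero_of_lt h, Nat.choose_eq_zero_of_lt (by omega)]; simp

lemma rch_add (y : ℝ) (a b : ℕ) :
    rch y (a + b) * ((a + b).choose a) = rch y a * rch (y - a) b := by
  unfold rch
  rw [prod_range_add]
  have h : ∏ j ∈ range b, (y - ((a + j : ℕ) : ℝ)) = ∏ j ∈ range b, (y - a - j) :=
    prod_congr rfl fun j _ => by push_cast; ring
  rw [h]
  have h2 : (((a + b).choose a * a.factorial * b.factorial : ℕ) : ℝ) = ((a + b).factorial : ℝ) := by
    have := Nat.add_choose_mul_factorial_mul_factorial b a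
    rw [add_comm b a] at this
    rw [← this]; push_cast; ring
  push_cast at h2
  have h3 : (a.factorial : ℝ) ≠ 0 := by positivity
  have h4 : (b.factorial : ℝ) ≠ 0 := by positivity
  have h5 : ((a + b).choose a : ℝ) ≠ 0 := by
    have := Nat.choose_pos (show a ≤ a + b by omega)
    positivity
  rw [← h2]
  field_simp

lemma rch_root (k : ℕ) (d : ℕ) : ∃ y : ℝ, (k : ℝ) ≤ y ∧ rch y (k + 1) = d := by
  have hc : Continuous fun y : ℝ => rch y (k + 1) := by unfold rch; fun_prop
  have h0 : rch (k : ℝ) (k + 1) ≤ d := by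
    rw [rch_nat, Nat.choose_eq_zero_of_lt (by omega)]; simp
  have h1 : (d : ℝ) ≤ rch ((k + d : ℕ) : ℝ) (k + 1) := by
    rw [rch_nat]
    have : ∀ d : ℕ, d ≤ (k + d).choose (k + 1) := by
      intro d
      induction d with
      | zero => simp
      | succ d ih =>
        rw [← add_assoc, Nat.choose_succ_succ']
        have := Nat.choose_pos (show k ≤ k + d by omega)
        omega
    exact_mod_cast this d
  obtain ⟨y, hy, hy2⟩ := intermediate_value_Icc (show (k : ℝ) ≤ ((k + d : ℕ) : ℝ) by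
    push_cast; linarith [Nat.cast_nonneg (α := ℝ) d]) hc.continuousOn ⟨h0, h1⟩
  exact ⟨y, hy.1, hy2⟩

variable {V : Type*} [Fintype V] [DecidableEq V]

/-- The `j`-sets all of whose `k`-subsets lie in `G`. -/
def cl (G : Finset (Finset V)) (k j : ℕ) : Finset (Finset V) :=
  (powersetCard j univ).filter fun T => powersetCard k T ⊆ G

lemma mem_cl {G : Finset (Finset V)} {k j : ℕ} {T : Finset V} :
    T ∈ cl G k j ↔ T.card = j ∧ ∀ S, S ⊆ T → S.card = k → S ∈ G := by
  simp only [cl, mem_filter, mem_powersetCard, subset_univ, true_and]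
  refine and_congr_right fun _ => ⟨fun h S h1 h2 => h (mem_powersetCard.2 ⟨h1, h2⟩), fun h S hS => ?_⟩
  exact h S (mem_powersetCard.1 hS).1 (mem_powersetCard.1 hS).2

lemma count (F : Finset (Finset V)) (r i : ℕ) (hF : ∀ S ∈ F, S.card = r) :
    ∑ I ∈ powersetCard i (univ : Finset V), ((F.filter fun S => I ⊆ S).card : ℝ)
      = F.card * r.choose i := by
  have : ∑ I ∈ powersetCard i (univ : Finset V), (F.filter fun S => I ⊆ S).card
      = ∑ S ∈ F, ((powersetCard i (univ : Finset V)).filter fun I => I ⊆ S).card :=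
    sum_card_bipartiteAbove_eq_sum_card_bipartiteBelow (fun (I S : Finset V) => I ⊆ S)
  rw [← Nat.cast_sum, this, sum_congr rfl (g := fun _ => r.choose i)]
  · simp
  · intro S hS
    rw [← hF S hS, ← card_powersetCard]
    congr 1
    ext I
    simp [mem_powersetCard, and_comm]

/-- The link of `I`. -/
def link (G : Finset (Finset V)) (I : Finset V) : Finset (Finset V) :=
  (G.filter fun S => I ⊆ S).image fun S => S \ I

lemma card_link (G : Finset (Finset V)) (I : Finset V) :
    (link G I).card = (G.filter fun S => I ⊆ S).card := by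
  refine card_image_of_injOn fun S hS T hT h => ?_
  have h1 := (mem_filter.1 hS).2
  have h2 := (mem_filter.1 hT).2
  rw [← sdiff_union_of_subset h1, ← sdiff_union_of_subset h2]
  exact congrArg (· ∪ I) h

lemma link_unif {G : Finset (Finset V)} {r : ℕ} (hG : ∀ S ∈ G, S.card = r) (I : Finset V) :
    ∀ S ∈ link G I, S.card = r - I.card := by
  intro S hS
  obtain ⟨T, hT, rfl⟩ := mem_image.1 hS
  rw [card_sdiff_of_subset (mem_filter.1 hT).2, hG T (mem_filter.1 hT).1]

lemma link_cl (G : Finset (Finset V)) (k j : ℕ) (I : Finset V) (hk : I.card ≤ k) :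
    link (cl G k j) I ⊆ cl (link G I) (k - I.card) (j - I.card) := by
  intro S hS
  obtain ⟨T, hT, rfl⟩ := mem_image.1 hS
  obtain ⟨hT1, hT2⟩ := mem_filter.1 hT
  obtain ⟨hT3, hT4⟩ := mem_cl.1 hT1
  refine mem_cl.2 ⟨by rw [card_sdiff_of_subset hT2, hT3], fun S h1 h2 => ?_⟩
  have hd : Disjoint S I := disjoint_of_subset_left h1 sdiff_disjoint
  refine mem_image.2 ⟨S ∪ I, mem_filter.2 ⟨hT4 _ (union_subset (h1.trans sdiff_subset) hT2) ?_,
    subset_union_right⟩, union_sdiff_cancel_right hd⟩
  rw [card_union_of_disjoint hd]; omega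

lemma step (r : ℕ)
    (ih : ∀ (x : ℝ) (G : Finset (Finset V)), (r : ℝ) ≤ x → (∀ S ∈ G, S.card = r) →
      (G.card : ℝ) < rch x r → ((cl G r (r + 1)).card : ℝ) * (r + 1) ≤ G.card * (x - r))
    (x : ℝ) (G : Finset (Finset V)) (hx : (r : ℝ) + 1 ≤ x) (hG : ∀ S ∈ G, S.card = r + 1)
    (hc : (G.card : ℝ) ≤ rch x (r + 1)) :
    ((cl G (r + 1) (r + 2)).card : ℝ) * (r + 2) ≤ G.card * (x - (r + 1)) := by
  have key : ∀ I ∈ powersetCard 1 (univ : Finset V),
      (((cl G (r + 1) (r + 2)).filter fun S => I ⊆ S).card : ℝ) * (r + 1)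
        ≤ ((G.filter fun S => I ⊆ S).card : ℝ) * (x - (r + 1)) := by
    intro I hI
    have hI1 : I.card = 1 := (mem_powersetCard.1 hI).2
    rw [← card_link, ← card_link]
    rcases lt_or_ge ((link G I).card : ℝ) (rch (x - 1) r) with h | h
    · have h1 := ih (x - 1) (link G I) (by linarith) (by simpa [hI1] using link_unif hG I) h
      have h2 := link_cl G (r + 1) (r + 2) I (by omega)
      rw [hI1] at h2
      have h3 : ((link (cl G (r + 1) (r + 2)) I).card : ℝ) ≤ (cl (link G I) r (r + 1)).card := by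
        exact_mod_cast card_le_card h2
      have h4 : (0 : ℝ) ≤ r + 1 := by positivity
      nlinarith
    · have h1 : link (cl G (r + 1) (r + 2)) I ⊆ G.filter fun S => ¬ I ⊆ S := by
        intro S hS
        obtain ⟨T, hT, rfl⟩ := mem_image.1 hS
        obtain ⟨hT1, hT2⟩ := mem_filter.1 hT
        obtain ⟨hT3, hT4⟩ := mem_cl.1 hT1
        refine mem_filter.2 ⟨hT4 _ sdiff_subset (by rw [card_sdiff_of_subset hT2, hT3, hI1]; rfl),
          fun h5 => ?_⟩
        obtain ⟨v, rfl⟩ := card_eq_one.1 hI1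
        simpa using h5
      have h2 : ((link (cl G (r + 1) (r + 2)) I).card : ℝ) + (link G I).card ≤ G.card := by
        have h3 := card_le_card h1
        have h4 := card_filter_add_card_filter_not (s := G) (fun S => I ⊆ S)
        rw [card_link G]
        exact_mod_cast (by omega : (link (cl G (r + 1) (r + 2)) I).card
          + (G.filter fun S => I ⊆ S).card ≤ G.card)
      have h3 := rch_succ' x r
      have h4 : (0 : ℝ) ≤ r + 1 := by positivity
      have h5 : x * rch (x - 1) r ≤ x * (link G I).card :=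
        mul_le_mul_of_nonneg_left h (by linarith)
      nlinarith
  have h1 := sum_le_sum key
  rw [← sum_mul, ← sum_mul, count _ (r + 2) 1 (fun S hS => (mem_cl.1 hS).1),
    count _ (r + 1) 1 hG] at h1
  simp only [Nat.choose_one_right] at h1
  push_cast at h1
  have h4 : (0 : ℝ) < r + 1 := by positivity
  nlinarith

lemma keevash' (r : ℕ) : ∀ (x : ℝ) (G : Finset (Finset V)), (r : ℝ) ≤ x → (∀ S ∈ G, S.card = r) →
    (G.card : ℝ) < rch x r → ((cl G r (r + 1)).card : ℝ) * (r + 1) ≤ G.card * (x - r) := by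
  induction r with
  | zero =>
    intro x G _ _ h
    rw [rch_zero] at h
    have h1 : G = ∅ := card_eq_zero.1 (by exact_mod_cast Nat.lt_one_iff.1 (by exact_mod_cast h))
    have h2 : cl G 0 (0 + 1) = ∅ := by
      refine eq_empty_of_forall_notMem fun T hT => ?_
      simpa [h1] using (mem_cl.1 hT).2 ∅ (empty_subset _) rfl
    rw [h2, h1]; simp
  | succ r ih =>
    intro x G h1 h2 h3
    push_cast at h1 ⊢
    have := step r ih x G h1 h2 h3.le
    convert this using 2
    ring

lemma lovasz (k : ℕ) (G : Finset (Finset V)) (x : ℝ) (hc : (G.card : ℝ) ≤ rch x (k + 1))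
    (j : ℕ) (hj : (k : ℝ) + j ≤ x) : ((cl G (k + 1) (k + 1 + j)).card : ℝ) ≤ rch x (k + 1 + j) := by
  induction j with
  | zero =>
    refine le_trans ?_ hc
    exact_mod_cast card_le_card fun T hT => (mem_cl.1 hT).2 T subset_rfl (mem_cl.1 hT).1
  | succ j ih =>
    push_cast at hj
    have h1 := ih (by linarith)
    have e : k + 1 + j = k + j + 1 := by ring
    rw [e] at h1
    have h2 := step (k + j) (keevash' (k + j)) x (cl G (k + 1) (k + j + 1)) (by push_cast; linarith)
      (fun S hS => (mem_cl.1 hS).1) h1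
    have h3 : cl G (k + 1) (k + j + 2) ⊆ cl (cl G (k + 1) (k + j + 1)) (k + j + 1) (k + j + 2) := by
      intro T hT
      obtain ⟨h4, h5⟩ := mem_cl.1 hT
      exact mem_cl.2 ⟨h4, fun S h6 h7 => mem_cl.2 ⟨h7, fun R h8 h9 => h5 R (h8.trans h6) h9⟩⟩
    have h4 : ((cl G (k + 1) (k + j + 2)).card : ℝ)
        ≤ (cl (cl G (k + 1) (k + j + 1)) (k + j + 1) (k + j + 2)).card := by
      exact_mod_cast card_le_card h3
    have h5 := rch_succ x (k + j + 1)
    have e2 : k + 1 + (j + 1) = k + j + 2 := by ring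
    rw [e2]
    push_cast at h2 h5
    have h6 : (0 : ℝ) < k + j + 2 := by positivity
    have h7 : ((cl G (k + 1) (k + j + 1)).card : ℝ) * (x - (k + j + 1))
        ≤ rch x (k + j + 1) * (x - (k + j + 1)) := mul_le_mul_of_nonneg_right h1 (by linarith)
    have h8 : ((cl G (k + 1) (k + j + 2)).card : ℝ) * (k + j + 2) ≤ rch x (k + j + 2) * (k + j + 2) := by
      nlinarith
    exact le_of_mul_le_mul_right h8 h6

end Pool.Agent.H19.Kk
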