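import Mathlib

set_option autoImplicit false
open Filter Topology Metric

namespace Pool.Agent.H19.LAtom

lemma step (U : Set ℂ) (hU : IsOpen U) (hunb : ∀ R : ℝ, ∃ u ∈ U, R ≤ ‖u‖)
    (S : ℂ → ℂ) (hS : Differentiable ℂ S) (R : ℝ) (hR : 0 ≤ R) (k : ℕ) :
    ∃ (P : ℂ → ℂ) (u : ℂ) (δ : ℝ), Differentiable ℂ P ∧ 0 < δ ∧ δ ≤ 1 ∧ closedBall u δ ⊆ U ∧
      R ≤ ‖u‖ ∧ (∀ w, ‖w‖ ≤ R → ‖P w‖ ≤ (1/2 : ℝ) ^ (k + 1)) ∧ P u = 0 ∧
      ∀ w ∈ sphere u δ, 2 * k + 2 * ‖S u‖ + 4 ≤ ‖(S w + P w) - S u‖ := by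
  obtain ⟨u, huU, hu⟩ := hunb (2 * R + 8)
  obtain ⟨r, hr, hball⟩ := Metric.isOpen_iff.1 hU u huU
  set δ := min (r / 2) 1 with hδ
  have hδ0 : 0 < δ := lt_min (by linarith) one_pos
  have hδ1 : δ ≤ 1 := min_le_right _ _
  obtain ⟨B, hB⟩ := (isCompact_closedBall u 1).exists_bound_of_continuousOn
    (hS.continuous.continuousOn)
  have hu0 : 0 < ‖u‖ := by linarith
  set ρ : ℝ := 3 / 4 * ‖u‖ with hρ
  have hρ0 : 0 < ρ := by positivity
  have h1 : ∀ᶠ N : ℕ in atTop, 2 * ‖u‖ * (2 / 3 : ℝ) ^ N ≤ (1/2 : ℝ) ^ (k + 1) := by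
    have : Tendsto (fun N : ℕ => 2 * ‖u‖ * (2 / 3 : ℝ) ^ N) atTop (𝓝 (2 * ‖u‖ * 0)) :=
      (tendsto_pow_atTop_nhds_zero_of_lt_one (by norm_num) (by norm_num)).const_mul _
    rw [mul_zero] at this
    exact this.eventually (ge_mem_nhds (by positivity))
  have h2 : ∀ᶠ N : ℕ in atTop, 2 * k + 4 * B + 4 ≤ δ * (7 / 6 : ℝ) ^ N := by
    have : Tendsto (fun N : ℕ => δ * (7 / 6 : ℝ) ^ N) atTop atTop :=
      (tendsto_pow_atTop_atTop_of_one_lt (by norm_num)).const_mul_atTop hδ0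
    exact this.eventually (eventually_ge_atTop _)
  obtain ⟨N, hN1, hN2⟩ := (h1.and h2).exists
  refine ⟨fun w => (w - u) * (w / (ρ : ℂ)) ^ N, u, δ, by fun_prop, hδ0, hδ1, ?_, by linarith, ?_,
    by simp, ?_⟩
  · intro w hw
    apply hball
    rw [mem_closedBall] at hw
    rw [mem_ball]
    have : δ ≤ r / 2 := min_le_left _ _
    linarith
  · intro w hw
    rw [norm_mul, norm_pow, norm_div, Complex.norm_real, Real.norm_of_nonneg hρ0.le]
    have a1 : ‖w - u‖ ≤ 2 * ‖u‖ := by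
      have := norm_sub_le w u
      linarith
    have a2 : ‖w‖ / ρ ≤ 2 / 3 := by
      rw [div_le_iff₀ hρ0]; linarith
    calc ‖w - u‖ * (‖w‖ / ρ) ^ N ≤ 2 * ‖u‖ * (2 / 3 : ℝ) ^ N := by gcongr
      _ ≤ _ := hN1
  · intro w hw
    rw [mem_sphere_iff_norm] at hw
    have b1 : ‖S w‖ ≤ B := hB w (by rw [mem_closedBall_iff_norm]; linarith)
    have b2 : ‖S u‖ ≤ B := hB u (by simp)
    have a2 : 7 / 6 ≤ ‖w‖ / ρ := by
      rw [le_div_iff₀ hρ0]
      have := norm_sub_norm_le u w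
      rw [norm_sub_rev] at this
      linarith
    have a3 : δ * (7 / 6 : ℝ) ^ N ≤ ‖(w - u) * (w / (ρ : ℂ)) ^ N‖ := by
      rw [norm_mul, norm_pow, norm_div, Complex.norm_real, Real.norm_of_nonneg hρ0.le, hw]
      gcongr
    have a4 : ‖(w - u) * (w / (ρ : ℂ)) ^ N‖ ≤
        ‖(S w + (w - u) * (w / (ρ : ℂ)) ^ N) - S u‖ + ‖S u‖ + ‖S w‖ := by
      have e : (w - u) * (w / (ρ : ℂ)) ^ N =
          ((S w + (w - u) * (w / (ρ : ℂ)) ^ N) - S u) + S u - S w := by ring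
      calc _ = ‖((S w + (w - u) * (w / (ρ : ℂ)) ^ N) - S u) + S u - S w‖ := by rw [← e]
        _ ≤ ‖((S w + (w - u) * (w / (ρ : ℂ)) ^ N) - S u) + S u‖ + ‖S w‖ := norm_sub_le _ _
        _ ≤ _ := by gcongr; exact norm_add_le _ _
    linarith

lemma tail_bound (a : ℕ → ℂ) (h : ∀ i, ‖a i‖ ≤ (1/2 : ℝ) ^ (i + 1)) : ‖∑' i, a i‖ ≤ 1 := by
  have hs : HasSum (fun i : ℕ => (1/2 : ℝ) ^ (i + 1)) 1 := by
    have := hasSum_geometric_two.mul_right (1/2 : ℝ)
    simpa [pow_succ] using this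
  exact tsum_of_norm_bounded hs h

theorem entire_onto (U : Set ℂ) (hU : IsOpen U) (hunb : ∀ R : ℝ, ∃ u ∈ U, R ≤ ‖u‖)
    (p q : ℂ) (hpq : p ≠ q) :
    ∃ E : ℂ → ℂ, Differentiable ℂ E ∧ (∀ w, ∃ u ∈ U, E u = w) ∧ E p ≠ E q := by
  choose P u δ hP hδ0 hδ1 hsub hRu hsmall hPu hbig using step U hU hunb
  set C : ℂ := 3 / (p - q) with hC
  let T := {x : (ℂ → ℂ) × ℝ // Differentiable ℂ x.1 ∧ 0 ≤ x.2}
  let s0 : T := ⟨(fun w => C * w, ‖p‖ + ‖q‖), by fun_prop, by positivity⟩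
  let nx : ℕ → T → T := fun k t =>
    ⟨(fun w => t.1.1 w + P t.1.1 t.2.1 t.1.2 t.2.2 k w, ‖u t.1.1 t.2.1 t.1.2 t.2.2 k‖ + 1),
      t.2.1.add (hP _ _ _ _ _), by positivity⟩
  let s : ℕ → T := fun n => Nat.rec s0 nx n
  let Q : ℕ → ℂ → ℂ := fun k => P (s k).1.1 (s k).2.1 (s k).1.2 (s k).2.2 k
  let v : ℕ → ℂ := fun k => u (s k).1.1 (s k).2.1 (s k).1.2 (s k).2.2 k
  let d : ℕ → ℝ := fun k => δ (s k).1.1 (s k).2.1 (s k).1.2 (s k).2.2 k
  let R : ℕ → ℝ := fun k => (s k).1.2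
  have hS : ∀ n w, (s n).1.1 w = C * w + ∑ i ∈ Finset.range n, Q i w := by
    intro n w
    induction n with
    | zero => simp [s, s0]
    | succ n ih =>
      rw [Finset.sum_range_succ, ← add_assoc, ← ih]
  have hR : ∀ k, R (k + 1) = ‖v k‖ + 1 := fun k => rfl
  have hRv : ∀ k, R k ≤ ‖v k‖ := fun k => hRu _ _ _ _ _
  have hRmono : Monotone R := monotone_nat_of_le_succ fun k => by
    rw [hR]; linarith [hRv k]
  have hRk : ∀ k : ℕ, (k : ℝ) ≤ R k := by
    intro k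
    induction k with
    | zero => simpa using (s 0).2.2
    | succ k ih => rw [hR]; push_cast; linarith [hRv k]
  have hQ : ∀ k w, ‖w‖ ≤ R k → ‖Q k w‖ ≤ (1/2 : ℝ) ^ (k + 1) := fun k => hsmall _ _ _ _ _
  have hQd : ∀ k, Differentiable ℂ (Q k) := fun k => hP _ _ _ _ _
  have hgeo : Summable (fun i : ℕ => (1/2 : ℝ) ^ (i + 1)) := by
    simpa [pow_succ] using summable_geometric_two.mul_right (1/2 : ℝ)
  have hsum : ∀ w, Summable (fun i => Q i w) := by
    intro w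
    refine Summable.of_norm_bounded_eventually_nat hgeo ?_
    obtain ⟨n, hn⟩ := exists_nat_ge ‖w‖
    filter_upwards [eventually_ge_atTop n] with i hi
    exact hQ i w (hn.trans ((hRk n).trans (hRmono hi)))
  have hsplit : ∀ n w, ∑' i, Q i w = ∑ i ∈ Finset.range n, Q i w + ∑' i, Q (i + n) w :=
    fun n w => ((hsum w).sum_add_tsum_nat_add n).symm
  have htail : ∀ n w, ‖w‖ ≤ R n → ‖∑' i, Q (i + n) w‖ ≤ 1 := by
    intro n w hw
    apply tail_bound
    intro i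
    refine (hQ _ w (hw.trans (hRmono (Nat.le_add_left n i)))).trans ?_
    exact pow_le_pow_of_le_one (by norm_num) (by norm_num) (by omega)
  have hEd : Differentiable ℂ (fun w => C * w + ∑' i, Q i w) := by
    intro w
    obtain ⟨n, hn⟩ := exists_nat_gt ‖w‖
    have h1 : DifferentiableOn ℂ (fun w => ∑' i, Q (i + n) w) (ball 0 n) := by
      refine Complex.differentiableOn_tsum_of_summable_norm hgeo
        (fun i => (hQd _).differentiableOn) isOpen_ball ?_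
      intro i z hz
      rw [mem_ball_zero_iff] at hz
      refine (hQ _ z (hz.le.trans ((hRk n).trans (hRmono (Nat.le_add_left n i))))).trans ?_
      exact pow_le_pow_of_le_one (by norm_num) (by norm_num) (by omega)
    have h2 := h1.differentiableAt (isOpen_ball.mem_nhds (mem_ball_zero_iff.2 hn))
    have e : (fun w => C * w + ∑' i, Q i w) =
        fun w => C * w + (∑ i ∈ Finset.range n, Q i w + ∑' i, Q (i + n) w) := by
      funext z; rw [hsplit n z]
    rw [e]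
    refine (by fun_prop : DifferentiableAt ℂ (fun w => C * w) w).add (DifferentiableAt.add ?_ h2)
    exact DifferentiableAt.fun_sum fun i _ => hQd i w
  have hne : C * p + ∑' i, Q i p ≠ C * q + ∑' i, Q i q := by
    intro h
    have hp : ‖∑' i, Q i p‖ ≤ 1 := by
      simpa using htail 0 p (by show ‖p‖ ≤ ‖p‖ + ‖q‖; linarith [norm_nonneg q])
    have hq : ‖∑' i, Q i q‖ ≤ 1 := by
      simpa using htail 0 q (by show ‖q‖ ≤ ‖p‖ + ‖q‖; linarith [norm_nonneg p])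
    have e : (3 : ℂ) = ∑' i, Q i q - ∑' i, Q i p := by
      have : C * (p - q) = 3 := by rw [hC]; field_simp [sub_ne_zero.2 hpq]
      rw [← this]; linear_combination h
    have := norm_sub_le (∑' i, Q i q) (∑' i, Q i p)
    rw [← e] at this
    norm_num at this
    linarith
  refine ⟨fun w => C * w + ∑' i, Q i w, hEd, ?_, hne⟩
  intro w
  obtain ⟨k, hk⟩ := exists_nat_gt ‖w‖
  set E : ℂ → ℂ := fun w => C * w + ∑' i, Q i w with hE
  have hE' : ∀ z, E z = ((s k).1.1 z + Q k z) + ∑' i, Q (i + (k + 1)) z := by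
    intro z
    rw [hS, hE]
    simp only []
    rw [hsplit (k + 1) z, Finset.sum_range_succ]; ring
  have hQv : Q k (v k) = 0 := hPu _ _ _ _ _
  have t1 : ‖∑' i, Q (i + (k + 1)) (v k)‖ ≤ 1 := htail (k + 1) (v k) (by rw [hR]; linarith)
  have hball := DiffContOnCl.ball_subset_image_closedBall (f := E) (z₀ := v k) (r := d k)
    (ε := 2 * k + 2 * ‖(s k).1.1 (v k)‖ + 2) hEd.diffContOnCl (hδ0 _ _ _ _ _) (by
      intro z hz
      have hb : 2 * k + 2 * ‖(s k).1.1 (v k)‖ + 4 ≤ ‖((s k).1.1 z + Q k z) - (s k).1.1 (v k)‖ :=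
        hbig _ _ _ _ _ z hz
      have hd1 : d k ≤ 1 := hδ1 _ _ _ _ _
      rw [mem_sphere_iff_norm] at hz
      have t2 : ‖∑' i, Q (i + (k + 1)) z‖ ≤ 1 := htail (k + 1) z (by
        rw [hR]; have := norm_sub_norm_le z (v k); linarith)
      have e : ((s k).1.1 z + Q k z) - (s k).1.1 (v k) =
          (E z - E (v k)) + ∑' i, Q (i + (k + 1)) (v k) - ∑' i, Q (i + (k + 1)) z := by
        rw [hE' z, hE' (v k), hQv]; ring
      rw [e] at hb
      have := norm_sub_le ((E z - E (v k)) + ∑' i, Q (i + (k + 1)) (v k)) (∑' i, Q (i + (k + 1)) z)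
      have := norm_add_le (E z - E (v k)) (∑' i, Q (i + (k + 1)) (v k))
      linarith) (by
      by_contra hcon
      rw [not_frequently] at hcon
      have han : AnalyticOnNhd ℂ E Set.univ := fun z _ => hEd.analyticAt z
      have := han.eq_of_eventuallyEq (g := fun _ => E (v k)) analyticOnNhd_const (z₀ := v k)
        (hcon.mono fun z hz => by simpa using hz)
      exact hne ((congrFun this p).trans (congrFun this q).symm))
  have hw : w ∈ ball (E (v k)) ((2 * k + 2 * ‖(s k).1.1 (v k)‖ + 2) / 2) := by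
    rw [mem_ball_iff_norm]
    have := norm_sub_le w (E (v k))
    have h3 : ‖E (v k)‖ ≤ ‖(s k).1.1 (v k)‖ + 1 := by
      rw [hE', hQv, add_zero]
      exact (norm_add_le _ _).trans (by linarith)
    linarith
  obtain ⟨z, hz, hzw⟩ := hball hw
  exact ⟨z, hsub _ _ _ _ _ hz, hzw⟩

theorem inv_analytic (α : ℂ → ℂ) (D : Set ℂ) (hD : IsOpen D) (hα : AnalyticOnNhd ℂ α D)
    (hinj : Set.InjOn α D) : AnalyticOnNhd ℂ (Function.invFunOn α D) (α '' D) := by
  set ψ := Function.invFunOn α D with hψ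
  have hl : ∀ z ∈ D, ψ (α z) = z := fun z hz => hinj.leftInvOn_invFunOn hz
  have hnc : ∀ z ∈ D, ¬ ∀ᶠ y in 𝓝 z, α y = α z := by
    intro z hz h
    have h2 : ∀ᶠ y in 𝓝[≠] z, False := by
      filter_upwards [nhdsWithin_le_nhds h, nhdsWithin_le_nhds (hD.mem_nhds hz),
        self_mem_nhdsWithin] with y h1 h2 h3
      exact h3 (hinj h2 hz h1)
    exact h2.exists.elim fun _ h => h
  have hop : ∀ z ∈ D, 𝓝 (α z) ≤ map α (𝓝 z) := fun z hz =>
    (hα z hz).eventually_constant_or_nhds_le_map_nhds.resolve_left (hnc z hz)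
  have hcont : ∀ z ∈ D, Tendsto ψ (𝓝 (α z)) (𝓝 z) := by
    intro z hz
    refine (map_mono (hop z hz)).trans ?_
    rw [map_map]
    have : (ψ ∘ α) =ᶠ[𝓝 z] id := by
      filter_upwards [hD.mem_nhds hz] with y hy using hl y hy
    rw [map_congr this, map_id]
  have hmem : ∀ z ∈ D, α '' D ∈ 𝓝 (α z) := fun z hz =>
    hop z hz (image_mem_map (hD.mem_nhds hz))
  have hcont' : ∀ z ∈ D, ContinuousAt ψ (α z) := fun z hz => by
    rw [ContinuousAt, hl z hz]; exact hcont z hz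
  have hr : ∀ w ∈ α '' D, α (ψ w) = w := by
    rintro _ ⟨z, hz, rfl⟩; rw [hl z hz]
  have hdiff : ∀ z ∈ D, deriv α z ≠ 0 → DifferentiableAt ℂ ψ (α z) := by
    intro z hz hd
    refine (HasDerivAt.of_local_left_inverse (f := α) (f' := deriv α z) (hcont' z hz) ?_ hd ?_).differentiableAt
    · rw [hl z hz]; exact (hα z hz).differentiableAt.hasDerivAt
    · filter_upwards [hmem z hz] with w hw using hr w hw
  rintro _ ⟨z, hz, rfl⟩
  refine Complex.analyticAt_of_differentiable_on_punctured_nhds_of_continuousAt ?_ (hcont' z hz)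
  have hd : ∀ᶠ y in 𝓝[≠] z, deriv α y ≠ 0 := by
    refine (hα z hz).deriv.eventually_eq_zero_or_eventually_ne_zero.resolve_left ?_
    intro h
    apply hnc z hz
    obtain ⟨r, hr0, hb⟩ := Metric.eventually_nhds_iff_ball.1 (h.and (hD.mem_nhds hz))
    filter_upwards [ball_mem_nhds z hr0] with y hy
    refine IsOpen.is_const_of_deriv_eq_zero (𝕜 := ℂ) isOpen_ball (convex_ball z r).isPreconnected
      (fun x hx => (hα x (hb x hx).2).differentiableAt.differentiableWithinAt)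
      (fun x hx => (hb x hx).1) hy (mem_ball_self hr0)
  have ht : Tendsto ψ (𝓝[≠] (α z)) (𝓝[≠] z) := by
    refine tendsto_nhdsWithin_iff.2 ⟨(hcont z hz).mono_left nhdsWithin_le_nhds, ?_⟩
    filter_upwards [nhdsWithin_le_nhds (hmem z hz), self_mem_nhdsWithin] with w hw hne
    intro h
    apply hne
    rw [Set.mem_singleton_iff] at h
    rw [Set.mem_singleton_iff, ← hr w hw, h]
  filter_upwards [ht.eventually hd, nhdsWithin_le_nhds (hmem z hz)] with w h1 h2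
  obtain ⟨y, hy, rfl⟩ := h2
  rw [hl y hy] at h1
  exact hdiff y hy h1

end Pool.Agent.H19.LAtom
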