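import Mathlib

/-! If `C_p(X,[0,1])` is Lindelöf Σ, the closure of the non-isolated points in `υX` is too. -/

set_option maxHeartbeats 400000

namespace Pool.Agent.H19.LSig

open Set Filter Topology BoundedContinuousFunction

/-- Lindelöf Σ: a countable network modulo a compact cover. -/
def LS (Z : Type*) [TopologicalSpace Z] : Prop :=
  ∃ 𝓕 : Set (Set Z), 𝓕.Countable ∧ ∀ g : Z, ∃ C : Set Z, IsCompact C ∧ g ∈ C ∧
    ∀ U : Set Z, IsOpen U → C ⊆ U → ∃ F ∈ 𝓕, C ⊆ F ∧ F ⊆ U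

/-- A closed subset of a power of the line with enough closed, coordinatewise bounded sets. -/
lemma ls_of_closed {ι : Type*} {W : Set (ι → ℝ)} (hW : IsClosed W) (𝓐 : Set (Set (ι → ℝ)))
    (hc : 𝓐.Countable) (hcl : ∀ A ∈ 𝓐, IsClosed A)
    (hb : ∀ p ∈ W, ∀ i, ∃ A ∈ 𝓐, p ∈ A ∧ ∃ b : ℝ, ∀ q ∈ A, |q i| ≤ b) : LS W := by
  refine ⟨(fun s : Set (Set (ι → ℝ)) => (Subtype.val ⁻¹' ⋂₀ s : Set W)) ''
    {s | s.Finite ∧ s ⊆ 𝓐}, (countable_setOf_finite_subset hc).image _, fun p => ?_⟩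
  set S : Set (Set (ι → ℝ)) := {A | A ∈ 𝓐 ∧ p.1 ∈ A} with hS
  choose A hA hpA b hb using hb p.1 p.2
  have hK : IsCompact (pi univ fun i => Icc (-b i) (b i)) :=
    isCompact_univ_pi fun i => isCompact_Icc
  have hSc : IsClosed (⋂₀ S) := isClosed_sInter fun B hB => hcl B hB.1
  refine ⟨Subtype.val ⁻¹' ⋂₀ S, ?_, fun B hB => hB.2, fun U hU hCU => ?_⟩
  · refine hW.isClosedEmbedding_subtypeVal.isCompact_preimage
      (hK.of_isClosed_subset hSc fun q hq i _ => abs_le.1 (hb i q (hq _ ⟨hA i, hpA i⟩)))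
  by_contra hcon
  push Not at hcon
  set T : Set (ι → ℝ) := Subtype.val '' Uᶜ with hT
  have hTc : IsClosed T := hW.isClosedEmbedding_subtypeVal.isClosedMap _ hU.isClosed_compl
  have hne : (generate S ⊓ 𝓟 T).NeBot := by
    rw [inf_principal_neBot_iff]
    intro V hV
    obtain ⟨t, htS, ht, htV⟩ := mem_generate_iff.1 hV
    have := hcon _ ⟨t, ⟨ht, fun B hB => (htS hB).1⟩, rfl⟩
      (fun q hq => sInter_subset_sInter htS hq)
    obtain ⟨q, hq, hqU⟩ := not_subset.1 this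
    exact ⟨q.1, htV hq, q, hqU, rfl⟩
  obtain ⟨u, hu⟩ := Ultrafilter.exists_le (generate S ⊓ 𝓟 T)
  have huS : ∀ B ∈ S, B ∈ u := fun B hB => hu (mem_inf_of_left (mem_generate_of_mem hB))
  have huT : T ∈ u := hu (mem_inf_of_right (mem_principal_self _))
  have hl : ∀ i, ∃ c, Tendsto (fun q : ι → ℝ => q i) u (𝓝 c) := by
    intro i
    obtain ⟨c, -, hc⟩ := (isCompact_Icc (a := -b i) (b := b i)).ultrafilter_le_nhds
      (u.map fun q => q i) (by
        rw [le_principal_iff]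
        exact mem_map.2 (mem_of_superset (huS (A i) ⟨hA i, hpA i⟩)
          fun q hq => abs_le.1 (hb i q hq)))
    exact ⟨c, hc⟩
  choose c hcq using hl
  have hlim : (u : Filter (ι → ℝ)) ≤ 𝓝 c := tendsto_pi_nhds.2 hcq
  obtain ⟨q, hqU, hqc⟩ : c ∈ T := hTc.mem_of_tendsto (f := id) hlim huT
  refine hqU (hCU fun B hB => ?_)
  rw [hqc]
  exact (hcl B hB.1).mem_of_tendsto (f := id) hlim (huS B hB)

variable {X : Type*} [TopologicalSpace X]

/-- The functions into the unit interval. -/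
abbrev ZI (X : Type*) [TopologicalSpace X] := {f : X → Icc (0:ℝ) 1 // Continuous f}

/-- The value at `x` is nearly determined, on `N`, by finitely many other values. -/
def Det (N : Set (ZI X)) (x : X) : Prop :=
  ∃ E : Finset X, x ∉ E ∧ ∀ f ∈ N, ∀ f' ∈ N, (∀ e ∈ E, f.1 e = f'.1 e) →
    |(f.1 x : ℝ) - f'.1 x| < 1

lemma cont_ev (x : X) : Continuous fun f : ZI X => f.1 x :=
  (continuous_apply x).comp continuous_subtype_val

lemma exists_det {y : X} (hy : ¬ IsOpen ({y} : Set X)) {C : Set (ZI X)} (hC : IsCompact C) :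
    ∃ O : Set (ZI X), IsOpen O ∧ C ⊆ O ∧ Det (closure O) y := by
  classical
  set W : Finset X → Set (ZI X × ZI X) := fun E =>
    {z | (∃ e ∈ E, e ≠ y ∧ z.1.1 e ≠ z.2.1 e) ∨ |(z.1.1 y : ℝ) - z.2.1 y| < 1} with hW
  have hWo : ∀ E, IsOpen (W E) := by
    intro E
    have h1 : IsOpen {z : ZI X × ZI X | ∃ e ∈ E, e ≠ y ∧ z.1.1 e ≠ z.2.1 e} := by
      have : {z : ZI X × ZI X | ∃ e ∈ E, e ≠ y ∧ z.1.1 e ≠ z.2.1 e} =
          ⋃ e ∈ E, ⋃ (_ : e ≠ y), {z : ZI X × ZI X | z.1.1 e ≠ z.2.1 e} := by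
        ext z; simp only [mem_setOf_eq, mem_iUnion, exists_prop]
      rw [this]
      exact isOpen_biUnion fun e _ => isOpen_iUnion fun _ =>
        isOpen_ne_fun ((cont_ev e).comp continuous_fst) ((cont_ev e).comp continuous_snd)
    exact h1.union (isOpen_lt (((continuous_subtype_val.comp ((cont_ev y).comp continuous_fst)).sub
      (continuous_subtype_val.comp ((cont_ev y).comp continuous_snd))).abs) continuous_const)
  have hcov : C ×ˢ C ⊆ ⋃ E, W E := by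
    intro z _
    by_cases h : z.1.1 y = z.2.1 y
    · exact mem_iUnion.2 ⟨∅, Or.inr (by simp [h])⟩
    · have ho : IsOpen {x | z.1.1 x ≠ z.2.1 x} := isOpen_ne_fun z.1.2 z.2.2
      by_contra hcon
      refine hy ?_
      convert ho using 1
      ext x
      refine ⟨fun hx => by rw [hx]; exact h, fun hx => ?_⟩
      by_contra hxy
      exact hcon (mem_iUnion.2 ⟨{x}, Or.inl ⟨x, by simp, hxy, hx⟩⟩)
  obtain ⟨E, hE⟩ := (hC.prod hC).elim_directed_cover W hWo hcov (by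
    refine directed_of_isDirected_le fun E E' hEE' z hz => ?_
    rcases hz with ⟨e, he, h⟩ | h
    · exact Or.inl ⟨e, hEE' he, h⟩
    · exact Or.inr h)
  obtain ⟨U, V, hU, hV, hCU, hCV, hUV⟩ := generalized_tube_lemma hC hC (hWo E) hE
  obtain ⟨O, hO, hCO, hOU⟩ := hC.exists_isOpen_closure_subset
    ((hU.inter hV).mem_nhdsSet.2 (subset_inter hCU hCV))
  refine ⟨O, hO, hCO, E.erase y, by simp, fun f hf f' hf' h => ?_⟩
  rcases hUV (show (f, f') ∈ U ×ˢ V from ⟨(hOU hf).1, (hOU hf').2⟩) with ⟨e, he, hey, h'⟩ | h'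
  · exact absurd (h e (by simp [he, hey])) h'
  · exact h'

lemma Det.mono {N N' : Set (ZI X)} {x : X} (h : Det N x) (hN : N' ⊆ N) : Det N' x :=
  let ⟨E, hx, hE⟩ := h
  ⟨E, hx, fun f hf f' hf' => hE f (hN hf) f' (hN hf')⟩

/-- An oscillating function into the unit interval. -/
noncomputable def osc (r : ℝ) : Icc (0:ℝ) 1 :=
  ⟨(1 + Real.cos r) / 2, by linarith [Real.neg_one_le_cos r], by linarith [Real.cos_le_one r]⟩

lemma osc_cont : Continuous osc := Continuous.subtype_mk (by fun_prop) _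

lemma bdd_of_baire [T35Space X] {𝓕 : Set (Set (ZI X))} (hc : 𝓕.Countable)
    (hcl : ∀ N ∈ 𝓕, IsClosed N) (hcov : ∀ f, ∃ N ∈ 𝓕, f ∈ N) (g : C(X, ℝ)) :
    ∃ N ∈ 𝓕, ∃ b : ℝ, ∀ x, Det N x → |g x| ≤ b := by
  set Φ : (X →ᵇ ℝ) → ZI X := fun φ => ⟨fun x => osc (φ x * g x), osc_cont.comp (by fun_prop)⟩
    with hΦ
  have hΦc : Continuous Φ := Continuous.subtype_mk (continuous_pi fun x =>
    osc_cont.comp ((continuous_eval_const x).mul continuous_const)) _
  haveI := hc.to_subtype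
  obtain ⟨N, φ, hφ⟩ := nonempty_interior_of_iUnion_of_closed (f := fun N : 𝓕 => Φ ⁻¹' N.1)
    (fun N => (hcl N.1 N.2).preimage hΦc) (eq_univ_of_forall fun φ =>
      let ⟨N, hN, h⟩ := hcov (Φ φ); mem_iUnion.2 ⟨⟨N, hN⟩, h⟩)
  obtain ⟨η, hη, hb⟩ := Metric.mem_nhds_iff.1 (mem_interior_iff_mem_nhds.1 hφ)
  refine ⟨N.1, N.2, 3 * Real.pi / η, fun x ⟨E, hx, hE⟩ => ?_⟩
  by_contra hcon
  push Not at hcon
  have hpi := Real.pi_pos
  have hg : 0 < |g x| := lt_trans (by positivity) hcon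
  have hg0 : g x ≠ 0 := abs_pos.1 hg
  obtain ⟨u, hu, hux, huE⟩ := CompletelyRegularSpace.completely_regular x (E : Set X)
    E.finite_toSet.isClosed (by simpa using hx)
  set v : X →ᵇ ℝ := BoundedContinuousFunction.mkOfBound ⟨fun z => 1 - (u z : ℝ), by fun_prop⟩ 1
    (fun a b => by
      have := (u a).2.1; have := (u a).2.2; have := (u b).2.1; have := (u b).2.2
      rw [Real.dist_eq, abs_le]; constructor <;> simp <;> linarith) with hv
  have hv1 : ‖v‖ ≤ 1 := (norm_le zero_le_one).2 fun z => by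
    have := (u z).2.1; have := (u z).2.2
    simp only [hv, mkOfBound_coe, ContinuousMap.coe_mk, Real.norm_eq_abs, abs_le]
    constructor <;> linarith
  have key : ∀ r : ℝ, |r - φ x * g x| ≤ 3 * Real.pi → ∃ f ∈ N.1, f.1 x = osc r ∧
      ∀ e ∈ E, f.1 e = (Φ φ).1 e := by
    intro r hr
    refine ⟨Φ (φ + ((r - φ x * g x) / g x) • v), hb ?_, ?_, fun e he => ?_⟩
    · rw [mem_ball_iff_norm, add_sub_cancel_left, norm_smul, Real.norm_eq_abs, abs_div]
      rw [div_lt_iff₀ hη] at hcon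
      calc _ ≤ |r - φ x * g x| / |g x| * 1 := by gcongr
        _ < η := by rw [mul_one, div_lt_iff₀ hg]; linarith
    · simp only [hΦ, hv]
      congr 1
      simp [hux]
      field_simp
      ring
    · have : u e = 1 := huE (by simpa using he)
      simp only [hΦ, hv]
      congr 1
      simp [this]
  set n : ℤ := ⌈φ x * g x / (2 * Real.pi)⌉ with hn
  have h1 : φ x * g x ≤ n * (2 * Real.pi) := by
    have := Int.le_ceil (φ x * g x / (2 * Real.pi))
    rwa [div_le_iff₀ (by positivity)] at this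
  have h2 : n * (2 * Real.pi) < φ x * g x + 2 * Real.pi := by
    have := Int.ceil_lt_add_one (φ x * g x / (2 * Real.pi))
    rw [← sub_lt_iff_lt_add, lt_div_iff₀ (by positivity)] at this
    linarith
  obtain ⟨f, hf, hfx, hfE⟩ := key (n * (2 * Real.pi)) (abs_le.2 ⟨by linarith, by linarith⟩)
  obtain ⟨f', hf', hfx', hfE'⟩ := key (n * (2 * Real.pi) + Real.pi)
    (abs_le.2 ⟨by linarith, by linarith⟩)
  have := hE f hf f' hf' fun e he => (hfE e he).trans (hfE' e he).symm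
  rw [hfx, hfx'] at this
  simp [osc, Real.cos_int_mul_two_pi, Real.cos_int_mul_two_pi_add_pi] at this

/-- Evaluation. -/
def ev (x : X) : C(X, ℝ) → ℝ := fun f => f x

lemma ev_cont : Continuous (ev : X → C(X, ℝ) → ℝ) := continuous_pi fun f => f.continuous

lemma mem_cl_of_cover {𝓑 : Set (Set X)} (hc : 𝓑.Countable)
    (hcov : ∀ y, ¬ IsOpen ({y} : Set X) → ∃ B ∈ 𝓑, y ∈ B) {p : C(X, ℝ) → ℝ}
    (hp : p ∈ closure (ev '' {x : X | ¬ IsOpen ({x} : Set X)})) :
    ∃ B ∈ 𝓑, p ∈ closure (ev '' B) := by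
  classical
  by_contra hcon
  push Not at hcon
  haveI := hc.to_subtype
  have h1 : ∀ B : 𝓑, ∃ ψ : (C(X, ℝ) → ℝ) → ℝ, Continuous ψ ∧ ψ p = 0 ∧ ∀ x ∈ B.1, ψ (ev x) = 1 := by
    intro B
    obtain ⟨u, hu, hup, huB⟩ := CompletelyRegularSpace.completely_regular p _ isClosed_closure
      (hcon B.1 B.2)
    refine ⟨fun q => u q, by fun_prop, by simp [hup], fun x hx => ?_⟩
    have : u (ev x) = 1 := huB (subset_closure (mem_image_of_mem _ hx))
    simp [this]
  choose ψ hψ hψp hψB using h1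
  set F : (C(X, ℝ) → ℝ) → 𝓑 → ℝ := fun q B => ψ B q with hF
  have hFc : Continuous F := continuous_pi hψ
  obtain ⟨Ψ, hΨ, hΨp, hΨ0⟩ : ∃ Ψ : (C(X, ℝ) → ℝ) → ℝ, Continuous Ψ ∧ Ψ p = 0 ∧
      ∀ q, Ψ q = 0 → F q = F p := by
    letI : MetricSpace (𝓑 → ℝ) := TopologicalSpace.metrizableSpaceMetric _
    exact ⟨fun q => dist (F q) (F p), hFc.dist continuous_const, dist_self _,
      fun q hq => dist_eq_zero.1 hq⟩
  set u : C(X, ℝ) := ⟨fun x => Ψ (ev x), hΨ.comp ev_cont⟩ with hu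
  have hu0 : ∀ y, ¬ IsOpen ({y} : Set X) → u y ≠ 0 := by
    intro y hy h
    obtain ⟨B, hB, hyB⟩ := hcov y hy
    have := congrFun (hΨ0 _ h) ⟨B, hB⟩
    simp only [hF, hψp, hψB ⟨B, hB⟩ y hyB] at this
    exact one_ne_zero this
  have hclo : IsClopen {x | u x = 0} := by
    refine ⟨isClosed_eq u.continuous continuous_const, isOpen_iff_forall_mem_open.2 fun x hx => ?_⟩
    exact ⟨{x}, by simpa using hx, by_contra fun h => hu0 x h hx, rfl⟩
  have hv : Continuous fun x => u x + Set.indicator {x | u x = 0} (fun _ => (1:ℝ)) x :=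
    u.continuous.add (hclo.continuous_indicator continuous_const)
  set w : C(X, ℝ) := ⟨fun x => (u x + Set.indicator {x | u x = 0} (fun _ => (1:ℝ)) x)⁻¹,
    hv.inv₀ fun x => by by_cases h : u x = 0 <;> simp [Set.indicator, h]⟩ with hw
  have h2 : p ∈ {q : C(X, ℝ) → ℝ | Ψ q * q w = 1} := by
    refine closure_minimal ?_ (isClosed_eq (hΨ.mul (continuous_apply w)) continuous_const) hp
    rintro _ ⟨y, hy, rfl⟩
    have h3 := hu0 y hy
    change u y * w y = 1
    simp [hw, Set.indicator, h3]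
  simp [hΨp] at h2

theorem main [T35Space X] (h : LS (ZI X)) :
    LS (closure (ev '' {x : X | ¬ IsOpen ({x} : Set X)})) := by
  obtain ⟨𝓕, hc, h⟩ := h
  refine ls_of_closed isClosed_closure
    ((fun N => closure (ev '' {x | Det (closure N) x})) '' 𝓕) (hc.image _)
    (by rintro _ ⟨N, -, rfl⟩; exact isClosed_closure) fun p hp g => ?_
  obtain ⟨_, ⟨N, ⟨hN, b, hb⟩, rfl⟩, hpN⟩ := mem_cl_of_cover
    (𝓑 := (fun N => {x | Det (closure N) x}) ''
      {N | N ∈ 𝓕 ∧ ∃ b : ℝ, ∀ x, Det (closure N) x → |g x| ≤ b})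
    ((hc.mono fun N hN => hN.1).image _) (fun y hy => by
      obtain ⟨_, ⟨N, ⟨hN, hy⟩, rfl⟩, b, hb⟩ := bdd_of_baire
        (𝓕 := closure '' {N | N ∈ 𝓕 ∧ Det (closure N) y}) ((hc.mono fun N hN => hN.1).image _)
        (by rintro _ ⟨N, -, rfl⟩; exact isClosed_closure) (fun f => by
          obtain ⟨C, hC, hfC, hnet⟩ := h f
          obtain ⟨O, hO, hCO, hD⟩ := exists_det hy hC
          obtain ⟨N, hN, hCN, hNO⟩ := hnet O hO hCO
          exact ⟨_, ⟨N, ⟨hN, hD.mono (closure_mono hNO)⟩, rfl⟩, subset_closure (hCN hfC)⟩) g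
      exact ⟨_, ⟨N, ⟨hN, b, hb⟩, rfl⟩, hy⟩) hp
  refine ⟨_, ⟨N, hN, rfl⟩, hpN, b, fun q hq => ?_⟩
  refine closure_minimal (t := {q : C(X, ℝ) → ℝ | |q g| ≤ b}) ?_
    (isClosed_le (continuous_apply g).abs continuous_const) hq
  rintro _ ⟨x, hx, rfl⟩
  exact hb x hx

end Pool.Agent.H19.LSig
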