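import Mathlib

set_option autoImplicit false
open Filter Topology Set
open scoped ENNReal

namespace Pool.Agent.H19.LinDim

/-! The index set: the first uncountable ordinal. -/

def I : Type := (Cardinal.ord (Cardinal.aleph 1)).ToType

noncomputable instance : LinearOrder I :=
  inferInstanceAs (LinearOrder (Cardinal.ord (Cardinal.aleph 1)).ToType)

lemma cIic (a : I) : (Iic a).Countable := by
  have h0 := Cardinal.mk_Iio_toType_ord_lt (c := Cardinal.aleph 1) a
  have h : (Iio a).Countable := by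
    rw [← Cardinal.le_aleph0_iff_set_countable, ← Order.lt_succ_iff, Cardinal.succ_aleph0]
    exact h0
  have : Iic a = insert a (Iio a) := by ext x; simp [le_iff_eq_or_lt]
  rw [this]
  exact h.insert a

instance : Uncountable I := by
  rw [← Cardinal.aleph0_lt_mk_iff]
  have : Cardinal.mk I = Cardinal.aleph 1 := Cardinal.mk_ord_toType _
  rw [this]
  exact Cardinal.aleph0_lt_aleph_one

lemma bdd_of_countable {S : Set I} (hS : S.Countable) : ∃ b, ∀ s ∈ S, s < b := by
  have h : (⋃ s ∈ S, Iic s).Countable := hS.biUnion fun s _ => cIic s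
  by_contra hc
  push Not at hc
  apply Set.not_countable_univ (α := I)
  refine h.mono fun b _ => ?_
  obtain ⟨s, hs, hb⟩ := hc b
  exact mem_biUnion hs hb

instance : NoMaxOrder I := ⟨fun a => by
  obtain ⟨b, hb⟩ := bdd_of_countable (countable_singleton a)
  exact ⟨b, hb a rfl⟩⟩

instance : CountableInterFilter (atTop : Filter I) := ⟨fun S hS h => by
  have : ∀ s : S, ∃ a, ∀ b ≥ a, b ∈ (s : Set I) := fun s => mem_atTop_sets.1 (h s s.2)
  choose a ha using this
  haveI := hS.to_subtype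
  obtain ⟨b, hb⟩ := bdd_of_countable (countable_range a)
  refine mem_atTop_sets.2 ⟨b, fun c hc s hs => ha ⟨s, hs⟩ c ((hb _ ⟨_, rfl⟩).le.trans hc)⟩⟩

/-! Alternating sums. -/

def alt {G : Type*} [AddCommGroup G] (M : ℕ) (u : ℕ → G) : G :=
  ∑ i ∈ Finset.range M, (u (2 * i + 1) - u (2 * i))

lemma map_alt {G H F : Type*} [AddCommGroup G] [AddCommGroup H] [FunLike F G H]
    [AddMonoidHomClass F G H] (L : F) (M : ℕ) (u : ℕ → G) :
    L (alt M u) = alt M (fun n => L (u n)) := by
  simp [alt, map_sum, map_sub]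

lemma alt_apply {α G : Type*} [AddCommGroup G] (M : ℕ) (u : ℕ → α → G) (a : α) :
    alt M u a = alt M (fun n => u n a) := by
  simp [alt]

lemma alt_add {G : Type*} [AddCommGroup G] (M : ℕ) (u v : ℕ → G) :
    alt M (fun n => u n + v n) = alt M u + alt M v := by
  simp only [alt, ← Finset.sum_add_distrib]
  exact Finset.sum_congr rfl fun i _ => by abel

lemma alt_sub {G : Type*} [AddCommGroup G] (M : ℕ) (u v : ℕ → G) :
    alt M (fun n => u n - v n) = alt M u - alt M v := by
  simp only [alt, ← Finset.sum_sub_distrib]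
  exact Finset.sum_congr rfl fun i _ => by abel

lemma alt_const {G : Type*} [AddCommGroup G] (M : ℕ) (c : G) : alt M (fun _ => c) = 0 := by
  simp [alt]

lemma alt_smul {V : Type*} [AddCommGroup V] [Module ℝ V] (M : ℕ) (u : ℕ → ℝ) (v : V) :
    alt M (fun n => u n • v) = alt M u • v := by
  simp [alt, Finset.sum_smul, sub_smul]

lemma alt_comm {G : Type*} [AddCommGroup G] (M K : ℕ) (u : ℕ → ℕ → G) :
    alt K (fun n => alt M (fun q => u q n)) = alt M (fun q => alt K (u q)) := by
  simp only [alt, ← Finset.sum_sub_distrib]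
  rw [Finset.sum_comm]
  exact Finset.sum_congr rfl fun i _ => Finset.sum_congr rfl fun j _ => by abel

lemma alt_mono {u : ℕ → ℝ} (hu : Monotone u) (M : ℕ) :
    0 ≤ alt M u ∧ alt M u ≤ u (2 * M) - u 0 := by
  induction M with
  | zero => simp [alt]
  | succ M ih =>
    have h1 := hu (show 2 * M ≤ 2 * M + 1 by omega)
    have h2 := hu (show 2 * M + 1 ≤ 2 * (M + 1) by omega)
    simp only [alt, Finset.sum_range_succ] at ih ⊢
    constructor <;> linarith [ih.1, ih.2]

lemma alt_anti {u : ℕ → ℝ} (hu : Antitone u) (h0 : ∀ n, 0 ≤ u n) (h1 : ∀ n, u n ≤ 1) (M : ℕ) :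
    -1 ≤ alt M u ∧ alt M u ≤ 0 := by
  have := alt_mono (u := fun n => - u n) (fun a b h => neg_le_neg (hu h)) M
  have e : alt M (fun n => - u n) = - alt M u := by
    simp only [alt, ← Finset.sum_neg_distrib]
    exact Finset.sum_congr rfl fun i _ => by ring
  rw [e] at this
  constructor <;> linarith [this.1, this.2, h0 (2 * M), h1 0]

lemma abs_alt_le {u : ℕ → ℝ} {c : ℝ} (M : ℕ) (h : ∀ i, |u (2 * i + 1) - u (2 * i)| ≤ c) :
    |alt M u| ≤ M * c := by
  refine (Finset.abs_sum_le_sum_abs _ _).trans ?_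
  simpa using Finset.sum_le_card_nsmul (Finset.range M) _ c fun i _ => h i

lemma norm_alt_le {V : Type*} [NormedAddCommGroup V] {u : ℕ → V} {c : ℝ} (M : ℕ)
    (h : ∀ i, ‖u i‖ ≤ c) : ‖alt M u‖ ≤ M * (2 * c) := by
  refine (norm_sum_le _ _).trans ?_
  simpa using Finset.sum_le_card_nsmul (Finset.range M) _ (2 * c) fun i _ =>
    (norm_sub_le _ _).trans (by linarith [h (2 * i + 1), h (2 * i)])

/-! Eventual constancy. -/

lemma ec_real (h : I → ℝ) (C : ℝ) (hb : ∀ β, |h β| ≤ C)
    (H : ∀ δ > 0, ∃ M : ℕ, ∀ β : ℕ → I, Monotone β → |alt M (fun n => h (β n))| < δ * M) :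
    ∃ c, ∀ᶠ β in atTop, h β = c := by
  obtain ⟨c, hc⟩ : ∃ c, Tendsto h atTop (𝓝 c) := by
    refine tendsto_of_no_upcrossings (s := univ) dense_univ ?_
      ⟨C, eventually_map.2 (Eventually.of_forall fun β => (abs_le.1 (hb β)).2)⟩
      ⟨-C, eventually_map.2 (Eventually.of_forall fun β => (abs_le.1 (hb β)).1)⟩
    rintro a - b - hab ⟨h1, h2⟩
    rw [frequently_atTop] at h1 h2
    choose A hA using h1
    choose B hB using h2
    let β : ℕ → I := fun n => Nat.rec (A (Classical.arbitrary I))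
      (fun k x => if Even k then B x else A x) n
    have hs : ∀ n, β (n + 1) = if Even n then B (β n) else A (β n) := fun n => rfl
    have hm : Monotone β := monotone_nat_of_le_succ fun n => by
      rw [hs]; split_ifs
      · exact (hB _).1
      · exact (hA _).1
    have he : ∀ i, h (β (2 * i)) < a := by
      intro i
      cases i with
      | zero => exact (hA _).2
      | succ i =>
        rw [show 2 * (i + 1) = (2 * i + 1) + 1 by ring, hs, if_neg (by simp [parity_simps])]
        exact (hA _).2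
    have ho : ∀ i, b < h (β (2 * i + 1)) := by
      intro i
      rw [hs, if_pos (by simp [parity_simps])]
      exact (hB _).2
    obtain ⟨M, hM⟩ := H (b - a) (by linarith)
    have h3 := hM β hm
    have h4 : (b - a) * M ≤ alt M (fun n => h (β n)) := by
      have := Finset.card_nsmul_le_sum (Finset.range M)
        (fun i => h (β (2 * i + 1)) - h (β (2 * i))) (b - a) fun i _ => by linarith [he i, ho i]
      simpa [alt, mul_comm] using this
    linarith [le_abs_self (alt M (fun n => h (β n)))]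
  refine ⟨c, ?_⟩
  have : ∀ n : ℕ, ∀ᶠ β in atTop, dist (h β) c < 1 / ((n : ℝ) + 1) := fun n =>
    Metric.tendsto_nhds.1 hc _ (by positivity)
  filter_upwards [eventually_countable_forall.2 this] with β hβ
  by_contra hne
  obtain ⟨n, hn⟩ := exists_nat_one_div_lt (dist_pos.2 hne)
  linarith [hβ n]

lemma ec_vec {V : Type*} [NormedAddCommGroup V] [NormedSpace ℝ V] [FiniteDimensional ℝ V]
    (h : I → V) (C : ℝ) (hb : ∀ β, ‖h β‖ ≤ C)
    (H : ∀ δ > 0, ∃ M : ℕ, ∀ β : ℕ → I, Monotone β → ‖alt M (fun n => h (β n))‖ < δ * M) :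
    ∃ c, ∀ᶠ β in atTop, h β = c := by
  let b := Module.finBasis ℝ V
  have : ∀ i, ∃ c, ∀ᶠ β in atTop, b.coord i (h β) = c := by
    intro i
    let ℓ := LinearMap.toContinuousLinearMap (b.coord i)
    refine ec_real (fun β => ℓ (h β)) (‖ℓ‖ * C) (fun β => (ℓ.le_opNorm _).trans (by
      gcongr; exact hb β)) fun δ hδ => ?_
    obtain ⟨M, hM⟩ := H (δ / (‖ℓ‖ + 1)) (by positivity)
    refine ⟨M, fun β hβ => ?_⟩
    rw [← map_alt ℓ M (fun n => h (β n))]
    have h1 := hM β hβ
    have h2 := ℓ.le_opNorm (alt M (fun n => h (β n)))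
    rw [div_mul_eq_mul_div, lt_div_iff₀ (by positivity)] at h1
    rw [Real.norm_eq_abs] at h2
    nlinarith [norm_nonneg (alt M (fun n => h (β n)))]
  choose c hc using this
  refine ⟨∑ i, c i • b i, ?_⟩
  filter_upwards [eventually_all.2 hc] with β hβ
  rw [← b.sum_repr (h β)]
  exact Finset.sum_congr rfl fun i _ => by rw [← hβ i]; rfl

/-! Steps and bumps. -/

structure IsStep (σ : I → ℝ) : Prop where
  anti : Antitone σ
  nonneg : ∀ γ, 0 ≤ σ γ
  le_one : ∀ γ, σ γ ≤ 1
  ev0 : ∀ᶠ γ in atTop, σ γ = 0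

structure Good (ρ : I → ℝ) (M : ℕ) : Prop where
  nonneg : ∀ γ, 0 ≤ ρ γ
  le_one : ∀ γ, ρ γ ≤ 1
  ev0 : ∀ᶠ γ in atTop, ρ γ = 0
  var : ∀ K (γ : ℕ → I), Monotone γ → |alt K (fun n => ρ (γ n))| ≤ M

lemma IsStep.alt_mem {σ : I → ℝ} (h : IsStep σ) (K : ℕ) {γ : ℕ → I} (hγ : Monotone γ) :
    -1 ≤ alt K (fun n => σ (γ n)) ∧ alt K (fun n => σ (γ n)) ≤ 0 :=
  alt_anti (h.anti.comp_monotone hγ) (fun _ => h.nonneg _) (fun _ => h.le_one _) K

lemma IsStep.good {σ : I → ℝ} (h : IsStep σ) : Good σ 1 :=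
  ⟨h.nonneg, h.le_one, h.ev0, fun K γ hγ => by
    have := h.alt_mem K hγ
    rw [abs_le]; constructor <;> push_cast <;> linarith [this.1, this.2]⟩

lemma good_bump {σ : ℕ → I → ℝ} (h : ∀ q, IsStep (σ q)) (hm : ∀ γ, Monotone fun q => σ q γ)
    (M : ℕ) : Good (alt M σ) M := by
  refine ⟨fun γ => ?_, fun γ => ?_, ?_, fun K γ hγ => ?_⟩
  · rw [alt_apply]; exact (alt_mono (hm γ) M).1
  · rw [alt_apply]
    linarith [(alt_mono (hm γ) M).2, (h (2 * M)).le_one γ, (h 0).nonneg γ]
  · filter_upwards [eventually_countable_forall.2 fun q => (h q).ev0] with γ hγ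
    rw [alt_apply]; simp [alt, hγ]
  · simp only [alt_apply]
    rw [alt_comm M K (fun q n => σ q (γ n))]
    have := abs_alt_le (u := fun q => alt K (fun n => σ q (γ n))) (c := 1) M fun i => by
      have h1 := (h (2 * i + 1)).alt_mem K hγ
      have h2 := (h (2 * i)).alt_mem K hγ
      rw [abs_le]; constructor <;> linarith [h1.1, h1.2, h2.1, h2.2]
    simpa using this

lemma Good.var' {ρ : I → ℝ} {M : ℕ} (h : Good ρ M) (K : ℕ) (γ : ℕ → I) :
    |alt K (fun n => ρ (γ n))| ≤ K := by
  have := abs_alt_le (u := fun n => ρ (γ n)) (c := 1) K fun i => by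
    rw [abs_le]; constructor <;>
      linarith [h.nonneg (γ (2 * i + 1)), h.le_one (γ (2 * i + 1)), h.nonneg (γ (2 * i)),
        h.le_one (γ (2 * i))]
  simpa using this

noncomputable def ind (β : I) : I → ℝ := fun γ => if γ ≤ β then 1 else 0

lemma ind_step (β : I) : IsStep (ind β) := by
  refine ⟨fun a b hab => ?_, fun γ => ?_, fun γ => ?_, ?_⟩
  · unfold ind; split_ifs with h1 h2 <;> first | exact absurd (hab.trans h1) h2 | norm_num
  · unfold ind; split_ifs <;> norm_num
  · unfold ind; split_ifs <;> norm_num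
  · filter_upwards [eventually_gt_atTop β] with γ hγ
    simp [ind, hγ]

lemma ind_mono {β : ℕ → I} (hβ : Monotone β) (γ : I) : Monotone fun q => ind (β q) γ := by
  intro a b hab
  simp only [ind]
  split_ifs with h1 h2 <;> first | exact absurd (h1.trans (hβ hab)) h2 | norm_num

end Pool.Agent.H19.LinDim
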