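import Pool.Agent.H19.LinDim1

set_option autoImplicit false
open Filter Topology Set
open scoped ENNReal

namespace Pool.Agent.H19.LinDim

def w (j : ℕ) : ℕ := j.factorial
def m (j : ℕ) : ℕ := w j * w j

lemma w_pos (j : ℕ) : (0 : ℝ) < w j := by exact_mod_cast Nat.factorial_pos j
lemma one_le_w (j : ℕ) : (1 : ℝ) ≤ w j := by exact_mod_cast Nat.factorial_pos j
lemma le_w (j : ℕ) : (j : ℝ) ≤ w j := by exact_mod_cast Nat.self_le_factorial j
lemma m_eq (j : ℕ) : (m j : ℝ) = w j * w j := by simp [m]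
lemma w_lt {k j : ℕ} (h : k < j) : (w k : ℝ) * j ≤ w j := by
  obtain ⟨j, rfl⟩ : ∃ i, j = i + 1 := ⟨j - 1, by omega⟩
  have : k.factorial * (j + 1) ≤ (j + 1).factorial := by
    rw [Nat.factorial_succ, mul_comm]
    exact Nat.mul_le_mul_left _ (Nat.factorial_le (by omega))
  exact_mod_cast this

abbrev Λ : Type := I ⊕ (ℕ × {γ : ℕ → I // Monotone γ})

variable {V : Type} [NormedAddCommGroup V] [NormedSpace ℝ V]

noncomputable def comp (P : ℕ → V →L[ℝ] V) (f : I → V) : Λ → V :=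
  Sum.elim f fun p => (w p.1 : ℝ)⁻¹ • P p.1 (alt (m p.1) fun n => f (p.2.1 n))

noncomputable def X (P : ℕ → V →L[ℝ] V) : Submodule ℝ (lp (fun _ : Λ => V) ∞) where
  carrier := {x | (∀ l, x l = comp P (fun γ => x (Sum.inl γ)) l) ∧
    ∀ᶠ γ in atTop, x (Sum.inl γ) = 0}
  add_mem' := by
    rintro x y ⟨hx, hx0⟩ ⟨hy, hy0⟩
    refine ⟨fun l => ?_, ?_⟩
    · rcases l with γ | p
      · rfl
      · have h1 := hx (Sum.inr p)
        have h2 := hy (Sum.inr p)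
        simp only [comp, Sum.elim_inr, lp.coeFn_add, Pi.add_apply] at h1 h2 ⊢
        rw [h1, h2, alt_add, map_add, smul_add]
    · filter_upwards [hx0, hy0] with γ h1 h2
      simp [h1, h2]
  zero_mem' := by
    refine ⟨fun l => ?_, by simp⟩
    rcases l with γ | p
    · rfl
    · simp [comp, alt]
  smul_mem' := by
    rintro c x ⟨hx, hx0⟩
    refine ⟨fun l => ?_, ?_⟩
    · rcases l with γ | p
      · rfl
      · have h1 := hx (Sum.inr p)
        simp only [comp, Sum.elim_inr, lp.coeFn_smul, Pi.smul_apply] at h1 ⊢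
        rw [h1, smul_comm, ← map_smul]
        congr 2
        exact map_alt (DistribSMul.toAddMonoidHom V c) _ _
    · filter_upwards [hx0] with γ h1
      simp [h1]

variable (P : ℕ → V →L[ℝ] V)

lemma isClosed_X : IsClosed (X P : Set (lp (fun _ : Λ => V) ∞)) := by
  have hc : ∀ l, Continuous fun x : lp (fun _ : Λ => V) ∞ => x l := fun l =>
    (lp.lipschitzWith_one_eval ∞ l).continuous
  refine IsClosed.inter (s₁ := {x : lp (fun _ : Λ => V) ∞ |
    ∀ l, x l = comp P (fun γ => x (Sum.inl γ)) l}) ?_ ?_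
  · simp only [setOf_forall]
    refine isClosed_iInter fun l => isClosed_eq (hc l) ?_
    rcases l with γ | p
    · exact hc _
    · simp only [comp, Sum.elim_inr, alt]
      exact ((P p.1).continuous.comp
        (continuous_finsetSum _ fun i _ => (hc _).sub (hc _))).const_smul _
  · refine IsSeqClosed.isClosed fun x y hx hxy => ?_
    have : ∀ᶠ γ in atTop, ∀ n, x n (Sum.inl γ) = 0 := eventually_countable_forall.2 hx
    filter_upwards [this] with γ hγ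
    have h1 := ((hc (Sum.inl γ)).tendsto y).comp hxy
    have h2 : ((fun x : lp (fun _ : Λ => V) ∞ => x (Sum.inl γ)) ∘ x) = fun _ => 0 := funext hγ
    rw [h2] at h1
    exact (tendsto_const_nhds_iff.1 h1).symm

instance [CompleteSpace V] : CompleteSpace (X P) := (isClosed_X P).completeSpace_coe

variable {P}

noncomputable def ev (γ : I) : X P →L[ℝ] V :=
  (lp.evalCLM ℝ (fun _ : Λ => V) ∞ (Sum.inl γ)).comp (X P).subtypeL

lemma ev_def (γ : I) (x : X P) : ev γ x = x.1 (Sum.inl γ) := rfl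

lemma ev0 (x : X P) : ∀ᶠ γ in atTop, ev γ x = 0 := x.2.2

lemma X_ext {x y : X P} (h : ∀ γ, ev γ x = ev γ y) : x = y := by
  ext l
  rw [x.2.1 l, y.2.1 l]
  congr 1
  funext γ
  exact h γ

lemma norm_ev_le (γ : I) (x : X P) : ‖ev γ x‖ ≤ ‖x‖ :=
  lp.norm_apply_le_norm (by simp) x.1 (Sum.inl γ)

lemma norm_alt_ev (x : X P) (j : ℕ) {γ : ℕ → I} (hγ : Monotone γ) :
    ‖P j (alt (m j) fun n => ev (γ n) x)‖ ≤ w j * ‖x‖ := by
  have h := lp.norm_apply_le_norm (p := ∞) (by simp) x.1 (Sum.inr (j, ⟨γ, hγ⟩))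
  rw [x.2.1] at h
  simp only [comp, Sum.elim_inr, norm_smul, norm_inv, Real.norm_natCast] at h
  rwa [inv_mul_le_iff₀ (w_pos j)] at h

lemma comp_le {f : I → V} {C : ℝ} (h1 : ∀ γ, ‖f γ‖ ≤ C)
    (h2 : ∀ j (γ : ℕ → I), Monotone γ → ‖P j (alt (m j) fun n => f (γ n))‖ ≤ w j * C) (l : Λ) :
    ‖comp P f l‖ ≤ C := by
  rcases l with γ | p
  · exact h1 γ
  · simp only [comp, Sum.elim_inr, norm_smul, norm_inv, Real.norm_natCast]
    rw [inv_mul_le_iff₀ (w_pos _)]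
    exact h2 _ _ p.2.2

lemma norm_X_le (x : X P) {C : ℝ} (h1 : ∀ γ, ‖ev γ x‖ ≤ C)
    (h2 : ∀ j (γ : ℕ → I), Monotone γ → ‖P j (alt (m j) fun n => ev (γ n) x)‖ ≤ w j * C) :
    ‖x‖ ≤ C :=
  lp.norm_le_of_forall_le' (f := x.1) C fun l => by rw [x.2.1 l]; exact comp_le h1 h2 l

lemma exists_X {f : I → V} {C : ℝ} (h0 : ∀ᶠ γ in atTop, f γ = 0) (h1 : ∀ γ, ‖f γ‖ ≤ C)
    (h2 : ∀ j (γ : ℕ → I), Monotone γ → ‖P j (alt (m j) fun n => f (γ n))‖ ≤ w j * C) :
    ∃ x : X P, ∀ γ, ev γ x = f γ :=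
  ⟨⟨⟨comp P f, memℓp_infty ⟨C, by rintro _ ⟨l, rfl⟩; exact comp_le h1 h2 l⟩⟩, fun _ => rfl, h0⟩,
    fun _ => rfl⟩

open Classical in
noncomputable def el (P : ℕ → V →L[ℝ] V) (f : I → V) : X P :=
  if h : ∃ x : X P, ∀ γ, ev γ x = f γ then h.choose else 0

lemma ev_el {f : I → V} (h : ∃ x : X P, ∀ γ, ev γ x = f γ) (γ : I) : ev γ (el P f) = f γ := by
  rw [el, dif_pos h]; exact h.choose_spec γ

lemma good_bound (hP : ∀ j v, ‖P j v‖ ≤ ‖v‖) {ρ : I → ℝ} {M : ℕ} (h : Good ρ M) (v : V) {C : ℝ}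
    (h2 : ∀ k, min (m k : ℝ) M * ‖P k v‖ ≤ w k * C) (j : ℕ) (γ : ℕ → I) (hγ : Monotone γ) :
    ‖P j (alt (m j) fun n => ρ (γ n) • v)‖ ≤ w j * C := by
  rw [alt_smul, map_smul, norm_smul, Real.norm_eq_abs]
  refine le_trans ?_ (h2 j)
  gcongr
  exact le_min (h.var' _ _) (h.var _ _ hγ)

lemma good_sup {ρ : I → ℝ} {M : ℕ} (h : Good ρ M) (v : V) (γ : I) : ‖ρ γ • v‖ ≤ ‖v‖ := by
  rw [norm_smul, Real.norm_of_nonneg (h.nonneg γ)]
  nlinarith [h.le_one γ, norm_nonneg v]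

lemma good_ex (hP : ∀ j v, ‖P j v‖ ≤ ‖v‖) {ρ : I → ℝ} {M : ℕ} (h : Good ρ M) (v : V) :
    ∃ x : X P, ∀ γ, ev γ x = ρ γ • v := by
  refine exists_X (C := (M + 1) * ‖v‖) (h.ev0.mono fun γ hγ => by simp [hγ])
    (fun γ => (good_sup h v γ).trans (by nlinarith [norm_nonneg v, Nat.cast_nonneg (α := ℝ) M]))
    (good_bound hP h v fun k => ?_)
  have h1 := min_le_right (m k : ℝ) M
  have h2 := hP k v
  have h3 := one_le_w k
  have h4 : (0 : ℝ) ≤ M := Nat.cast_nonneg M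
  calc _ ≤ (M : ℝ) * ‖v‖ := by gcongr
    _ ≤ 1 * ((M + 1) * ‖v‖) := by nlinarith [norm_nonneg v]
    _ ≤ _ := by gcongr

lemma good_norm (hP : ∀ j v, ‖P j v‖ ≤ ‖v‖) {ρ : I → ℝ} {M : ℕ} (h : Good ρ M) {v : V} {x : X P}
    (hx : ∀ γ, ev γ x = ρ γ • v) {C : ℝ} (h1 : ‖v‖ ≤ C)
    (h2 : ∀ k, min (m k : ℝ) M * ‖P k v‖ ≤ w k * C) : ‖x‖ ≤ C := by
  refine norm_X_le x (fun γ => by rw [hx]; exact (good_sup h v γ).trans h1) fun j γ hγ => ?_
  simp only [hx]
  exact good_bound hP h v h2 j γ hγ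

lemma norm_one (hP : ∀ j v, ‖P j v‖ ≤ ‖v‖) {ρ : I → ℝ} (h : Good ρ 1) {v : V} {x : X P}
    (hx : ∀ γ, ev γ x = ρ γ • v) : ‖x‖ ≤ ‖v‖ := by
  refine good_norm hP h hx le_rfl fun k => ?_
  have h1 := min_le_right (m k : ℝ) (1 : ℕ)
  have h2 := hP k v
  have h3 := one_le_w k
  push_cast at h1 ⊢
  gcongr
  linarith

lemma norm_crude (hP : ∀ j v, ‖P j v‖ ≤ ‖v‖) {ρ : I → ℝ} {j : ℕ} (h : Good ρ (m j)) {v : V}
    {x : X P} (hx : ∀ γ, ev γ x = ρ γ • v) : ‖x‖ ≤ w j * ‖v‖ := by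
  refine good_norm hP h hx (by nlinarith [one_le_w j, norm_nonneg v]) fun k => ?_
  have h1 : min (m k : ℝ) (m j) ≤ w k * w j := by
    rcases le_total (w k : ℝ) (w j) with h | h
    · exact (min_le_left _ _).trans (by rw [m_eq]; gcongr)
    · exact (min_le_right _ _).trans (by rw [m_eq]; gcongr)
  rw [← mul_assoc]
  have := hP k v
  have := w_pos k
  have := w_pos j
  gcongr

lemma norm_fine (hP : ∀ j v, ‖P j v‖ ≤ ‖v‖) {ρ : I → ℝ} {j : ℕ} (hj : 0 < j) (h : Good ρ (m j))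
    {v : V} {x : X P} (hx : ∀ γ, ev γ x = ρ γ • v) : ‖x‖ ≤ w j * (‖P j v‖ + ‖v‖ / j) := by
  have hj' : (0 : ℝ) < j := by exact_mod_cast hj
  have hw := w_pos j
  have e : ‖v‖ = j * (‖v‖ / j) := by field_simp
  have hv : 0 ≤ ‖v‖ / j := by positivity
  refine good_norm hP h hx ?_ fun k => ?_
  · nlinarith [le_w j, norm_nonneg (P j v)]
  · have hk := w_pos k
    rcases lt_trichotomy k j with hkj | rfl | hkj
    · have h1 := w_lt hkj
      calc _ ≤ (m k : ℝ) * ‖v‖ := by gcongr; exacts [min_le_left _ _, hP k v]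
        _ = w k * ((w k * j) * (‖v‖ / j)) := by rw [m_eq]; field_simp
        _ ≤ w k * (w j * (‖v‖ / j)) := by gcongr
        _ ≤ _ := by gcongr; linarith [norm_nonneg (P j v)]
    · rw [min_self, m_eq, mul_assoc]
      gcongr; linarith
    · have h1 := w_lt hkj
      have h2 : (j : ℝ) ≤ k := by exact_mod_cast hkj.le
      calc _ ≤ (m j : ℝ) * ‖v‖ := by gcongr; exacts [min_le_right _ _, hP k v]
        _ = (w j * j) * (w j * (‖v‖ / j)) := by rw [m_eq]; field_simp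
        _ ≤ w k * (w j * (‖v‖ / j)) := by gcongr; nlinarith
        _ ≤ _ := by gcongr; linarith [norm_nonneg (P j v)]

lemma kill1 (x : X P) {d d' : I} (h : ev d x = 0) :
    ∃ y : X P, ‖y‖ ≤ ‖x‖ ∧ ∀ γ, ev γ y = if d < γ ∧ γ < d' then 0 else ev γ x := by
  classical
  let r : I → I := fun γ => if d < γ ∧ γ < d' then d else γ
  have hr : Monotone r := by
    intro a b hab
    simp only [r]
    split_ifs with h1 h2 h2
    · exact le_rfl
    · exact h1.1.le.trans hab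
    · by_contra hc
      exact h1 ⟨not_le.1 hc, hab.trans_lt h2.2⟩
    · exact hab
  have e : ∀ γ, ev (r γ) x = if d < γ ∧ γ < d' then 0 else ev γ x := by
    intro γ; simp only [r]; split_ifs <;> simp [h]
  obtain ⟨y, hy⟩ := exists_X (P := P) (f := fun γ => ev (r γ) x) (C := ‖x‖)
    ((ev0 x).mono fun γ hγ => by rw [e]; simp [hγ]) (fun γ => norm_ev_le _ _)
    (fun j γ hγ => norm_alt_ev x j (hr.comp hγ))
  refine ⟨y, norm_X_le y (fun γ => by rw [hy]; exact norm_ev_le _ _) fun j γ hγ => ?_,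
    fun γ => by rw [hy, e]⟩
  simp only [hy]
  exact norm_alt_ev x j (hr.comp hγ)

open Classical in
lemma kill (x : X P) (d : ℕ → I) (h : ∀ n, ev (d n) x = 0) (S : Finset ℕ) :
    ∃ y : X P, ‖y‖ ≤ ‖x‖ ∧
      ∀ γ, ev γ y = if ∃ n ∈ S, d n < γ ∧ γ < d (n + 1) then 0 else ev γ x := by
  induction S using Finset.induction_on with
  | empty => exact ⟨x, le_rfl, by simp⟩
  | insert a S _ ih =>
    obtain ⟨y, hy, hy'⟩ := ih
    obtain ⟨z, hz, hz'⟩ := kill1 y (d := d a) (d' := d (a + 1)) (by rw [hy']; simp [h])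
    refine ⟨z, hz.trans hy, fun γ => ?_⟩
    rw [hz', hy']
    simp only [Finset.mem_insert, exists_eq_or_imp]
    by_cases h1 : d a < γ ∧ γ < d (a + 1) <;> simp [h1]

end Pool.Agent.H19.LinDim
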