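import Pool.Agent.H19.LinDim2

set_option autoImplicit false
open Filter Topology Set
open scoped ENNReal

namespace Pool.Agent.H19.LinDim

variable {V : Type} [NormedAddCommGroup V] [NormedSpace ℝ V] {P : ℕ → V →L[ℝ] V}
variable {V' : Type} [NormedAddCommGroup V'] [NormedSpace ℝ V'] {P' : ℕ → V' →L[ℝ] V'}

noncomputable def st (P : ℕ → V →L[ℝ] V) (σ : I → ℝ) (v : V) : X P := el P fun γ => σ γ • v

lemma ev_st (hP : ∀ j v, ‖P j v‖ ≤ ‖v‖) {σ : I → ℝ} (h : IsStep σ) (v : V) (γ : I) :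
    ev γ (st P σ v) = σ γ • v := ev_el (good_ex hP h.good v) γ

lemma ev_alt_st (hP : ∀ j v, ‖P j v‖ ≤ ‖v‖) {σ : ℕ → I → ℝ} (h : ∀ q, IsStep (σ q)) (v : V)
    (M : ℕ) (γ : I) : ev γ (alt M fun q => st P (σ q) v) = alt M σ γ • v := by
  rw [map_alt, alt_apply, ← alt_smul]
  simp only [ev_st hP (h _)]

lemma norm_alt_ind (hP : ∀ j v, ‖P j v‖ ≤ ‖v‖) {β : ℕ → I} (hβ : Monotone β) (v : V) (j : ℕ) :
    ‖alt (m j) fun q => st P (ind (β q)) v‖ ≤ w j * ‖v‖ :=
  norm_crude hP (good_bump (fun q => ind_step (β q)) (ind_mono hβ) (m j))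
    (ev_alt_st hP (fun q => ind_step (β q)) v _)

lemma small_scale (C δ : ℝ) (hδ : 0 < δ) : ∀ᶠ j in atTop, (w j : ℝ) * C < δ * m j := by
  obtain ⟨n, hn⟩ := exists_nat_gt (C / δ)
  filter_upwards [eventually_ge_atTop n] with j hj
  have h1 : (n : ℝ) ≤ j := by exact_mod_cast hj
  rw [div_lt_iff₀ hδ] at hn
  rw [m_eq]
  have := le_w j
  have := w_pos j
  have h2 : C < w j * δ := by nlinarith
  nlinarith

lemma exists_phi [FiniteDimensional ℝ V'] (hP : ∀ j v, ‖P j v‖ ≤ ‖v‖) (T : X P →L[ℝ] X P')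
    (v : V) (γ : I) : ∃ c, ∀ᶠ β in atTop, ev γ (T (st P (ind β) v)) = c := by
  refine ec_vec _ (‖T‖ * ‖v‖) (fun β => (norm_ev_le _ _).trans ((T.le_opNorm _).trans ?_))
    fun δ hδ => ?_
  · gcongr
    exact norm_one hP (ind_step β).good (ev_st hP (ind_step β) v)
  · obtain ⟨j, hj⟩ := (small_scale (‖T‖ * ‖v‖) δ hδ).exists
    refine ⟨m j, fun β hβ => lt_of_le_of_lt ?_ hj⟩
    rw [← map_alt (ev γ), ← map_alt T]
    refine (norm_ev_le _ _).trans ((T.le_opNorm _).trans ?_)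
    have := norm_alt_ind hP hβ v j
    calc _ ≤ ‖T‖ * (w j * ‖v‖) := by gcongr
      _ = _ := by ring

lemma exists_lim [FiniteDimensional ℝ V'] (hP : ∀ j v, ‖P j v‖ ≤ ‖v‖)
    (hid : ∃ᶠ j in atTop, ∀ v, P' j v = v) (T : X P →L[ℝ] X P') (v : V) (φ : I → V')
    (hφ : ∀ γ, ∀ᶠ β in atTop, ev γ (T (st P (ind β) v)) = φ γ) :
    ∃ a, ∀ᶠ γ in atTop, φ γ = a := by
  have hn : ∀ β, ‖T (st P (ind β) v)‖ ≤ ‖T‖ * ‖v‖ := fun β => (T.le_opNorm _).trans (by
    gcongr; exact norm_one hP (ind_step β).good (ev_st hP (ind_step β) v))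
  refine ec_vec _ (‖T‖ * ‖v‖) (fun γ => ?_) fun δ hδ => ?_
  · obtain ⟨β, hβ⟩ := (hφ γ).exists
    rw [← hβ]; exact (norm_ev_le _ _).trans (hn β)
  · obtain ⟨j, hj1, hj⟩ := (hid.and_eventually (small_scale (‖T‖ * ‖v‖) δ hδ)).exists
    refine ⟨m j, fun γ hγ => lt_of_le_of_lt ?_ hj⟩
    obtain ⟨β, hβ⟩ := (eventually_countable_forall.2 fun n => hφ (γ n)).exists
    have := norm_alt_ev (T (st P (ind β) v)) j hγ
    rw [hj1] at this
    simp only [hβ] at this
    refine this.trans ?_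
    have := w_pos j
    gcongr
    exact hn β

lemma avg_step {σ : ℕ → I → ℝ} (h : ∀ i, IsStep (σ i)) {L : ℕ} (hL : 0 < L) :
    IsStep fun γ => (L : ℝ)⁻¹ * ∑ i ∈ Finset.range L, σ i γ := by
  have hL' : (0 : ℝ) < L := by exact_mod_cast hL
  refine ⟨fun a b hab => ?_, fun γ => ?_, fun γ => ?_, ?_⟩
  · exact mul_le_mul_of_nonneg_left (Finset.sum_le_sum fun i _ => (h i).anti hab) (by positivity)
  · exact mul_nonneg (by positivity) (Finset.sum_nonneg fun i _ => (h i).nonneg γ)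
  · rw [inv_mul_le_iff₀ hL']
    simpa using Finset.sum_le_card_nsmul (Finset.range L) _ 1 fun i _ => (h i).le_one γ
  · filter_upwards [eventually_countable_forall.2 fun q => (h q).ev0] with γ hγ
    simp [hγ]

lemma avg (hP : ∀ j v, ‖P j v‖ ≤ ‖v‖) (hP' : ∀ j v, ‖P' j v‖ ≤ ‖v‖) (T : X P →L[ℝ] X P') (v : V)
    (φ : I → V') (hφ : ∀ γ, ∀ᶠ β in atTop, ev γ (T (st P (ind β) v)) = φ γ) (a : V')
    (ha : ∀ᶠ γ in atTop, φ γ = a) (ε : ℝ) (hε : 0 < ε) (δ : I) :
    ∃ (δ' : I) (σ σ' : I → ℝ) (y : X P'), δ ≤ δ' ∧ IsStep σ ∧ IsStep σ' ∧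
      (∀ γ ≤ δ, σ γ = 1 ∧ σ' γ = 1) ∧ (∀ γ, δ' ≤ γ → σ γ = 0 ∧ σ' γ = 0) ∧ ‖y‖ ≤ ε ∧
      ∀ γ, ev γ (T (st P σ v)) = (φ γ - a) + σ' γ • a + ev γ y := by
  classical
  obtain ⟨γ0, hγ0⟩ := eventually_atTop.1 ha
  have hseq : ∀ d : I, ∃ b d', d ≤ b ∧ b < d' ∧ (∀ γ ≤ d, ev γ (T (st P (ind b) v)) = φ γ) ∧
      ∀ γ, d' ≤ γ → ev γ (T (st P (ind b) v)) = 0 := by
    intro d
    obtain ⟨b, hb1, hb2⟩ := ((eventually_ge_atTop d).and
      ((eventually_countable_ball (cIic d)).2 fun γ _ => hφ γ)).exists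
    obtain ⟨c, hc⟩ := eventually_atTop.1 (ev0 (T (st P (ind b) v)))
    obtain ⟨c', hc'⟩ := exists_gt b
    exact ⟨b, max c c', hb1, lt_max_of_lt_right hc', hb2, fun γ hγ => hc γ ((le_max_left _ _).trans hγ)⟩
  choose B N hB hN h1 h2 using hseq
  let d : ℕ → I := fun n => N^[n] (max δ γ0)
  have hds : ∀ n, d (n + 1) = N (d n) := fun n => Function.iterate_succ_apply' _ _ _
  let b : ℕ → I := fun n => B (d n)
  have hbd : ∀ n, b n < d (n + 1) := fun n => by rw [hds]; exact hN _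
  have hdb : ∀ n, d n ≤ b n := fun n => hB _
  have hd : StrictMono d := strictMono_nat_of_lt_succ fun n => (hdb n).trans_lt (hbd n)
  have hb : Monotone b := monotone_nat_of_le_succ fun n => (hbd n).le.trans (hdb _)
  have hd0 : ∀ n, max δ γ0 ≤ d n := fun n => hd.monotone (Nat.zero_le n)
  let e : ℕ → I → V' := fun n γ => ev γ (T (st P (ind (b n)) v)) - ind (d n) γ • a - (φ γ - a)
  have he : ∀ n γ, ¬ (d n < γ ∧ γ < d (n + 1)) → e n γ = 0 := by
    intro n γ h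
    rcases le_or_gt γ (d n) with h3 | h3
    · simp [e, b, h1 _ γ h3, ind, h3]
    · have h4 : d (n + 1) ≤ γ := not_lt.1 fun h5 => h ⟨h3, h5⟩
      have h5 : φ γ = a := hγ0 γ (((le_max_right _ _).trans (hd0 n)).trans h3.le)
      simp [e, b, h2 _ γ (hds n ▸ h4), ind, not_le.2 h3, h5]
  obtain ⟨J, hJ⟩ := (small_scale (‖T‖ * ‖v‖ + ‖a‖) ε hε).exists
  have hL : 0 < m J := Nat.mul_pos (Nat.factorial_pos J) (Nat.factorial_pos J)
  have hL' : (0 : ℝ) < m J := by exact_mod_cast hL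
  let D : X P' := T (alt (m J) fun n => st P (ind (b n)) v) - alt (m J) fun n => st P' (ind (d n)) a
  have hD : ‖D‖ ≤ w J * (‖T‖ * ‖v‖ + ‖a‖) := by
    refine (norm_sub_le _ _).trans ?_
    have h3 := norm_alt_ind hP hb v J
    have h4 := norm_alt_ind hP' hd.monotone a J
    have h5 := T.le_opNorm (alt (m J) fun n => st P (ind (b n)) v)
    have h6 := mul_le_mul_of_nonneg_left h3 (norm_nonneg T)
    nlinarith
  have hDe : ∀ γ, ev γ D = alt (m J) fun n => e n γ := by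
    intro γ
    simp only [D, e, map_sub, map_alt T, map_alt (ev γ), alt_sub, alt_const, sub_zero,
      ev_st hP' (ind_step _)]
  obtain ⟨y0, hy0, hy0'⟩ := kill D d (fun n => by
    rw [hDe]
    have : (fun k => e k (d n)) = fun _ => 0 := funext fun k => he k _ fun h => by
      have := hd.lt_iff_lt.1 h.1
      have := hd.lt_iff_lt.1 h.2
      omega
    rw [this, alt_const]) ((Finset.range (m J)).image fun i => 2 * i)
  have hy : ∀ γ, ev γ y0 = ∑ i ∈ Finset.range (m J), e (2 * i + 1) γ := by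
    intro γ
    rw [hy0']
    split_ifs with h
    · obtain ⟨n, hn, h3, h4⟩ := h
      obtain ⟨k, -, rfl⟩ := Finset.mem_image.1 hn
      refine (Finset.sum_eq_zero fun i _ => he _ _ fun h => ?_).symm
      have := hd.lt_iff_lt.1 (h.1.trans h4)
      have := hd.lt_iff_lt.1 (h3.trans h.2)
      omega
    · rw [hDe, alt]
      refine Finset.sum_congr rfl fun i hi => ?_
      rw [he (2 * i) γ fun h' => h ⟨2 * i, Finset.mem_image_of_mem _ hi, h'⟩, sub_zero]
  have hs1 := avg_step (σ := fun i => ind (b (2 * i + 1))) (fun i => ind_step _) hL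
  have hs2 := avg_step (σ := fun i => ind (d (2 * i + 1))) (fun i => ind_step _) hL
  refine ⟨d (2 * m J), _, _, (m J : ℝ)⁻¹ • y0, (le_max_left _ _).trans (hd0 _), hs1, hs2,
    fun γ hγ => ?_, fun γ hγ => ?_, ?_, fun γ => ?_⟩
  · have h3 : ∀ n, γ ≤ d n := fun n => hγ.trans ((le_max_left _ _).trans (hd0 n))
    have h4 : ∀ n, γ ≤ b n := fun n => (h3 n).trans (hdb n)
    simp [ind, h3, h4, hL.ne']
  · have h3 : ∀ i ∈ Finset.range (m J), b (2 * i + 1) < γ := fun i hi =>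
      (hbd _).trans_le ((hd.monotone (by have := Finset.mem_range.1 hi; omega)).trans hγ)
    constructor
    · rw [Finset.sum_eq_zero fun i hi => by simp [ind, h3 i hi], mul_zero]
    · rw [Finset.sum_eq_zero fun i hi => by simp [ind, (hdb _).trans_lt (h3 i hi)], mul_zero]
  · rw [norm_smul, norm_inv, Real.norm_natCast, inv_mul_le_iff₀ hL']
    linarith
  · have e1 : st P (fun γ => (m J : ℝ)⁻¹ * ∑ i ∈ Finset.range (m J), ind (b (2 * i + 1)) γ) v =
        (m J : ℝ)⁻¹ • ∑ i ∈ Finset.range (m J), st P (ind (b (2 * i + 1))) v := by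
      refine X_ext fun γ => ?_
      rw [ev_st hP hs1]
      simp only [map_smul, map_sum, ev_st hP (ind_step _), mul_smul, Finset.sum_smul]
    rw [e1]
    simp only [map_smul, map_sum, hy, e, Finset.sum_sub_distrib, Finset.sum_const,
      Finset.card_range, mul_smul, Finset.sum_smul, smul_sub, ← Nat.cast_smul_eq_nsmul ℝ,
      smul_smul, inv_mul_cancel₀ hL'.ne', one_smul]
    abel

lemma alt_ind_nat (M q : ℕ) :
    alt M (fun n => if n ≤ q then (1 : ℝ) else 0) = if Even q ∧ q < 2 * M then -1 else 0 := by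
  induction M with
  | zero => simp [alt]
  | succ M ih =>
    simp only [alt, Finset.sum_range_succ] at ih ⊢
    rw [ih]
    simp only [Nat.even_iff]
    split_ifs <;> first | omega | norm_num

theorem main [FiniteDimensional ℝ V'] (hP : ∀ j v, ‖P j v‖ ≤ ‖v‖) (hP' : ∀ j v, ‖P' j v‖ ≤ ‖v‖)
    (hid : ∃ᶠ j in atTop, ∀ v, P' j v = v) (T : X P →L[ℝ] X P') (C : ℝ)
    (hT : ∀ x, ‖x‖ ≤ C * ‖T x‖) :
    ∃ A : V →ₗ[ℝ] V', ∀ v, ∀ ε > 0, ∀ᶠ j in atTop, ‖P j v‖ ≤ |C| * ‖P' j (A v)‖ + ε := by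
  choose φ hφ using exists_phi hP T
  choose A hA using fun v => exists_lim hP hid T v (φ v) (hφ v)
  have hadd : ∀ u v, A (u + v) = A u + A v := by
    intro u v
    obtain ⟨γ, h1, h2, h3⟩ := ((hA u).and ((hA v).and (hA (u + v)))).exists
    obtain ⟨β, h4, h5, h6⟩ := ((hφ u γ).and ((hφ v γ).and (hφ (u + v) γ))).exists
    have : st P (ind β) (u + v) = st P (ind β) u + st P (ind β) v :=
      X_ext fun γ => by simp [ev_st hP (ind_step _)]
    rw [← h1, ← h2, ← h3, ← h4, ← h5, ← h6, this, map_add, map_add]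
  have hsmul : ∀ (c : ℝ) v, A (c • v) = c • A v := by
    intro c v
    obtain ⟨γ, h1, h2⟩ := ((hA v).and (hA (c • v))).exists
    obtain ⟨β, h4, h5⟩ := ((hφ v γ).and (hφ (c • v) γ)).exists
    have : st P (ind β) (c • v) = c • st P (ind β) v :=
      X_ext fun γ => by simp [ev_st hP (ind_step _), smul_comm c]
    rw [← h1, ← h2, ← h4, ← h5, this, map_smul, map_smul]
  refine ⟨⟨⟨A, hadd⟩, hsmul⟩, fun v ε hε => ?_⟩
  obtain ⟨n, hn⟩ := exists_nat_gt (|C| * ‖A v‖ / (ε / 2))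
  filter_upwards [eventually_ge_atTop n, eventually_gt_atTop 0] with j hj hj0
  show ‖P j v‖ ≤ |C| * ‖P' j (A v)‖ + ε
  have hw := w_pos j
  have hj' : (0 : ℝ) < j := by exact_mod_cast hj0
  set ε' : ℝ := ε / (4 * (|C| + 1) * w j) with hε'
  choose N σ σ' y h1 h2 h3 h4 h5 h6 h7 using
    avg hP hP' T v (φ v) (hφ v) (A v) (hA v) ε' (by positivity)
  let d : ℕ → I := fun n => N^[n] (Classical.arbitrary I)
  have hds : ∀ n, d (n + 1) = N (d n) := fun n => Function.iterate_succ_apply' _ _ _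
  have hd : Monotone d := monotone_nat_of_le_succ fun n => by rw [hds]; exact h1 _
  have hm' : ∀ γ, Monotone fun q => σ' (d q) γ := fun γ => monotone_nat_of_le_succ fun q => by
    rcases le_total γ (d (q + 1)) with h | h
    · rw [(h4 _ γ h).2]; exact (h3 _).le_one γ
    · rw [(h5 _ γ (hds q ▸ h)).2]; exact (h3 _).nonneg γ
  let x : X P := alt (m j) fun q => st P (σ (d q)) v
  have hTx : T x = (alt (m j) fun q => st P' (σ' (d q)) (A v)) + alt (m j) fun q => y (d q) := by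
    refine X_ext fun γ => ?_
    simp only [x, map_add, map_alt T, map_alt (ev γ), h7, alt_add, alt_const, zero_add,
      ev_st hP' (h3 _)]
  have hup : ‖T x‖ ≤ w j * (‖P' j (A v)‖ + ‖A v‖ / j) + m j * (2 * ε') := by
    rw [hTx]
    refine (norm_add_le _ _).trans (add_le_add ?_ (norm_alt_le _ fun i => h6 _))
    exact norm_fine hP' hj0 (good_bump (fun q => h3 (d q)) hm' (m j))
      (ev_alt_st hP' (fun q => h3 (d q)) _ _)
  have hlow := norm_alt_ev x j hd
  have hval : (alt (m j) fun n => ev (d n) x) = (m j : ℝ) • v := by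
    simp only [x, ev_alt_st hP (fun q => h2 (d q)), alt_smul, alt_apply]
    congr 1
    rw [alt_comm (m j) (m j) (fun q n => σ (d q) (d n))]
    have : ∀ q, (fun n => σ (d q) (d n)) = fun n => if n ≤ q then (1 : ℝ) else 0 := by
      intro q; funext n
      split_ifs with h
      · exact (h4 _ _ (hd h)).1
      · exact (h5 _ _ (hds q ▸ hd (by omega))).1
    simp only [this, alt_ind_nat]
    rw [alt, Finset.sum_congr rfl (g := fun _ => (1 : ℝ))]
    · simp
    · intro i hi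
      have := Finset.mem_range.1 hi
      rw [if_neg (by simp [parity_simps]), if_pos ⟨by simp, by omega⟩]
      norm_num
  rw [hval, map_smul, norm_smul, Real.norm_natCast, m_eq, mul_assoc] at hlow
  have hlow' := le_of_mul_le_mul_left hlow hw
  have h8 : ‖x‖ ≤ |C| * ‖T x‖ := (hT x).trans (by gcongr; exact le_abs_self C)
  have h9 : |C| * (‖A v‖ / j) ≤ ε / 2 := by
    have : (n : ℝ) ≤ j := by exact_mod_cast hj
    rw [div_lt_iff₀ (by positivity)] at hn
    rw [← mul_div_assoc, div_le_iff₀ hj']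
    nlinarith
  have h10 : |C| * (w j * (2 * ε')) ≤ ε / 2 := by
    have : |C| * (w j * (2 * ε')) = ε / 2 * (|C| / (|C| + 1)) := by
      rw [hε']; field_simp; ring
    rw [this]
    have : |C| / (|C| + 1) ≤ 1 := by rw [div_le_one (by positivity)]; linarith
    nlinarith
  have h11 : (w j : ℝ) * ‖P j v‖ ≤
      w j * (|C| * ‖P' j (A v)‖ + |C| * (‖A v‖ / j) + |C| * (w j * (2 * ε'))) := by
    refine hlow'.trans (h8.trans ?_)
    rw [m_eq] at hup
    calc _ ≤ |C| * (w j * (‖P' j (A v)‖ + ‖A v‖ / j) + w j * w j * (2 * ε')) := by gcongr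
      _ = _ := by ring
  have := le_of_mul_le_mul_left h11 hw
  linarith

end Pool.Agent.H19.LinDim
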