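import Mathlib

/-! The Stone-Cech compactification of a countable discrete space is `l`-stable. -/

namespace Pool.Agent.H19.Ls

open Set Filter Topology

/-- Continuity for the topologies of pointwise convergence. -/
def PC {A B : Type*} [TopologicalSpace A] [TopologicalSpace B] (T : C(A, ℝ) → C(B, ℝ)) : Prop :=
  @Continuous _ _ (TopologicalSpace.induced (fun f : C(A, ℝ) => (f : A → ℝ)) inferInstance)
    (TopologicalSpace.induced (fun f : C(B, ℝ) => (f : B → ℝ)) inferInstance) T

section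
variable {A B : Type*} [TopologicalSpace A] [TopologicalSpace B]

lemma fin_supp {φ : C(A, ℝ) →ₗ[ℝ] C(B, ℝ)} (h : PC φ) (x : B) :
    ∃ F : Set A, F.Finite ∧ ∀ f : C(A, ℝ), (∀ a ∈ F, f a = 0) → φ f x = 0 := by
  letI : TopologicalSpace C(A, ℝ) :=
    TopologicalSpace.induced (fun f : C(A, ℝ) => (f : A → ℝ)) inferInstance
  have h1 : Continuous fun f : C(A, ℝ) => φ f x :=
    (continuous_apply x).comp (continuous_induced_rng.1 h)
  have h2 : (fun f : C(A, ℝ) => φ f x) ⁻¹' Ioo (-1) 1 ∈ 𝓝 (0 : C(A, ℝ)) :=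
    h1.continuousAt (Ioo_mem_nhds (by simp) (by simp))
  rw [nhds_induced, mem_comap] at h2
  obtain ⟨V, hV, hVO⟩ := h2
  rw [nhds_pi, Filter.mem_pi] at hV
  obtain ⟨F, hF, W, hW, hWV⟩ := hV
  refine ⟨F, hF, fun f hf => ?_⟩
  by_contra h3
  have h4 := (hVO (a := (φ f x)⁻¹ • f) (hWV fun a ha => by
    have := mem_of_mem_nhds (hW a)
    simpa [hf a ha] using this)).2
  simp [inv_mul_cancel₀ h3] at h4

lemma pc_comb (a b c : C(B, A)) :
    PC fun f : C(A, ℝ) => f.comp a - f.comp b + f.comp c := by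
  letI : TopologicalSpace C(A, ℝ) :=
    TopologicalSpace.induced (fun f : C(A, ℝ) => (f : A → ℝ)) inferInstance
  have h : ∀ x, Continuous fun f : C(A, ℝ) => f x := fun x =>
    (continuous_apply x).comp continuous_induced_dom
  exact continuous_induced_rng.2 (continuous_pi fun y => ((h _).sub (h _)).add (h _))

lemma sep_cover [RegularSpace A] {P Q : Set A} (hP : P.Countable) (h : Disjoint P (closure Q)) :
    HasSeparatingCover P Q := by
  rcases P.eq_empty_or_nonempty with rfl | hne
  · exact hasSeparatingCover_empty_left _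
  obtain ⟨p, rfl⟩ := hP.exists_eq_range hne
  have : ∀ n, ∃ u : Set A, p n ∈ u ∧ IsOpen u ∧ Disjoint (closure u) Q := by
    intro n
    obtain ⟨t, ht, htc, hts⟩ := exists_mem_nhds_isClosed_subset
      (isClosed_closure.isOpen_compl.mem_nhds (disjoint_left.1 h (mem_range_self n)))
    refine ⟨interior t, mem_interior_iff_mem_nhds.2 ht, isOpen_interior, ?_⟩
    exact disjoint_left.2 fun x hx hx' =>
      hts (closure_minimal interior_subset htc hx) (subset_closure hx')
  choose u hu hu' using this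
  exact ⟨u, range_subset_iff.2 fun n => mem_iUnion.2 ⟨n, hu n⟩, hu'⟩

lemma ed_of_sep [RegularSpace B] [ExtremallyDisconnected B] {i : A → B}
    (hi : IsClosedEmbedding i) {D : Set A} (hD : Dense D) (hDc : D.Countable) :
    ExtremallyDisconnected A := by
  refine ⟨fun U hU => ?_⟩
  have h1 : closure U = closure (U ∩ D) := (closure_minimal (hD.open_subset_closure_inter hU)
    isClosed_closure).antisymm (closure_mono inter_subset_left)
  have h2 : (closure U)ᶜ ⊆ closure ((closure U)ᶜ ∩ D) :=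
    hD.open_subset_closure_inter isClosed_closure.isOpen_compl
  obtain ⟨V, W, hV, hW, hPV, hQW, hVW⟩ :
      SeparatedNhds (i '' (U ∩ D)) (i '' ((closure U)ᶜ ∩ D)) := by
    refine hasSeparatingCovers_iff_separatedNhds.1 ⟨sep_cover ((hDc.mono inter_subset_right).image _) ?_,
      sep_cover ((hDc.mono inter_subset_right).image _) ?_⟩
    · rw [hi.closure_image_eq, disjoint_image_iff hi.injective]
      refine Disjoint.closure_right ?_ hU |>.mono_left inter_subset_left
      exact disjoint_left.2 fun x hx hx' => hx'.1 (subset_closure hx)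
    · rw [hi.closure_image_eq, disjoint_image_iff hi.injective, ← h1]
      exact disjoint_left.2 fun x hx hx' => hx.1 hx'
  have h3 := (ExtremallyDisconnected.disjoint_closure_of_disjoint_isOpen hVW hV hW).mono
    (closure_mono hPV) (closure_mono hQW)
  rw [hi.closure_image_eq, hi.closure_image_eq, disjoint_image_iff hi.injective, ← h1] at h3
  have h4 : (closure U)ᶜ = closure ((closure U)ᶜ ∩ D) :=
    h2.antisymm fun x hx hx' => disjoint_left.1 h3 hx' hx
  rw [← isClosed_compl_iff, h4]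
  exact isClosed_closure

end

lemma ed_ultra (α : Type) : ExtremallyDisconnected (Ultrafilter α) := by
  apply CompactT2.Projective.extremallyDisconnected
  intro Y Z _ _ _ _ _ _ f g hf hg g_sur
  choose s hs using g_sur
  refine ⟨Ultrafilter.extend fun a => s (f (pure a)), continuous_ultrafilter_extend _,
    denseRange_pure.equalizer (hg.comp (continuous_ultrafilter_extend _)) hf ?_⟩
  funext a
  simp [hs]

/-- The extension of a map to the space of ultrafilters. -/
noncomputable def ex {α γ : Type*} [TopologicalSpace γ] [T2Space γ] [CompactSpace γ] (f : α → γ) :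
    C(Ultrafilter α, γ) := ⟨Ultrafilter.extend f, continuous_ultrafilter_extend f⟩

@[simp] lemma ex_pure {α γ : Type*} [TopologicalSpace γ] [T2Space γ] [CompactSpace γ] (f : α → γ)
    (a : α) : ex f (pure a) = f a := ultrafilter_extend_pure f a

lemma uext {α γ : Type*} [TopologicalSpace γ] [T2Space γ] {f g : C(Ultrafilter α, γ)}
    (h : ∀ a, f (pure a) = g (pure a)) : f = g :=
  ContinuousMap.coe_injective (denseRange_pure.equalizer f.continuous g.continuous (funext h))

lemma uext' {α γ : Type*} [TopologicalSpace γ] [T2Space γ] (f g : C(Ultrafilter α, γ))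
    (h : ∀ a, f (pure a) = g (pure a)) (x : Ultrafilter α) : f x = g x := by rw [uext h]

/-- The linear map attached to three continuous maps. -/
def comb {A B : Type*} [TopologicalSpace A] [TopologicalSpace B] (a b c : C(B, A)) :
    C(A, ℝ) →ₗ[ℝ] C(B, ℝ) where
  toFun f := f.comp a - f.comp b + f.comp c
  map_add' f g := by ext x; simp; ring
  map_smul' t f := by ext x; simp; ring

lemma shift {A : Type} [TopologicalSpace A] [CompactSpace A] [T2Space A]
    (r : C(Ultrafilter ℕ, A)) (j : C(A, Ultrafilter ℕ)) (hrj : ∀ a, r (j a) = a) :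
    ∃ e : C(Ultrafilter (ℕ × ℕ), ℝ) ≃ₗ[ℝ] C(Ultrafilter (ℕ × ℕ) ⊕ A, ℝ), PC e ∧ PC e.symm := by
  set i : ℕ → C(Ultrafilter ℕ, Ultrafilter (ℕ × ℕ)) := fun n => ex fun m => pure (n, m) with hi
  set π : C(Ultrafilter (ℕ × ℕ), Ultrafilter (ℕ × ℕ)) :=
    ex fun z => i z.1 (j (r (pure z.2))) with hπ
  set σ : C(Ultrafilter (ℕ × ℕ), Ultrafilter (ℕ × ℕ)) :=
    ex fun z => i (z.1 + 1) (j (r (pure z.2))) with hσ
  set τ : C(Ultrafilter (ℕ × ℕ), Ultrafilter (ℕ × ℕ) ⊕ A) := ex fun z =>
    Nat.casesOn z.1 (Sum.inr (r (pure z.2))) fun n => Sum.inl (i n (j (r (pure z.2)))) with hτ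
  set inl : C(Ultrafilter (ℕ × ℕ), Ultrafilter (ℕ × ℕ) ⊕ A) := ⟨Sum.inl, continuous_inl⟩ with hinl
  set inr : C(A, Ultrafilter (ℕ × ℕ) ⊕ A) := ⟨Sum.inr, continuous_inr⟩ with hinr
  have π1 : ∀ n u, π (i n u) = i n (j (r u)) := fun n =>
    uext' (π.comp (i n)) ((i n).comp (j.comp r)) fun m => by simp [hπ, hi]
  have σ1 : ∀ n u, σ (i n u) = i (n + 1) (j (r u)) := fun n =>
    uext' (σ.comp (i n)) ((i (n + 1)).comp (j.comp r)) fun m => by simp [hσ, hi]
  have τ0 : ∀ u, τ (i 0 u) = Sum.inr (r u) :=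
    uext' (τ.comp (i 0)) (inr.comp r) fun m => by simp [hτ, hi, hinr]
  have τ1 : ∀ n u, τ (i (n + 1) u) = Sum.inl (i n (j (r u))) := fun n =>
    uext' (τ.comp (i (n + 1))) (inl.comp ((i n).comp (j.comp r))) fun m => by simp [hτ, hi, hinl]
  have ip : ∀ n m, (pure (n, m) : Ultrafilter (ℕ × ℕ)) = i n (pure m) := fun n m => by simp [hi]
  set el : C(Ultrafilter (ℕ × ℕ), Ultrafilter (ℕ × ℕ)) →
      C(Ultrafilter (ℕ × ℕ) ⊕ A, Ultrafilter (ℕ × ℕ)) := fun g =>
    ⟨Sum.elim g fun a => i 0 (j a), g.continuous.sumElim (by fun_prop)⟩ with hel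
  refine ⟨LinearEquiv.ofLinear (comb (el (ContinuousMap.id _)) (el π) (el σ))
    (comb inl (inl.comp π) τ) ?_ ?_, pc_comb _ _ _, pc_comb _ _ _⟩
  · refine LinearMap.ext fun G => ?_
    have h1 : (comb (el (ContinuousMap.id _)) (el π) (el σ) (comb inl (inl.comp π) τ G)).comp inl
        = G.comp inl := by
      refine uext fun ⟨n, m⟩ => ?_
      rw [ip]
      rcases n with _ | n
      · simp [comb, hel, hinl, π1, σ1, τ0, τ1, hrj]
      · simp [comb, hel, hinl, π1, σ1, τ0, τ1, hrj]
    ext x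
    rcases x with x | a
    · exact DFunLike.congr_fun h1 x
    · simp [comb, hel, hinl, π1, τ0, hrj]
  · refine LinearMap.ext fun f => uext fun ⟨n, m⟩ => ?_
    rw [ip]
    rcases n with _ | n
    · simp [comb, hel, hinl, π1, σ1, τ0, hrj]
    · simp [comb, hel, hinl, π1, σ1, τ1, hrj]

theorem lstable (A : Set (Ultrafilter (ℕ × ℕ)))
    (φ : C(A, ℝ) →ₗ[ℝ] C(Ultrafilter (ℕ × ℕ), ℝ)) (hφ : PC φ)
    (hφ' : ∀ f : C(A, ℝ), ∀ a : A, φ f a = f a) :
    ∃ e : C(Ultrafilter (ℕ × ℕ), ℝ) ≃ₗ[ℝ] C(Ultrafilter (ℕ × ℕ) ⊕ A, ℝ), PC e ∧ PC e.symm := by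
  choose F hF hF' using fin_supp hφ
  set v : C(A, Ultrafilter (ℕ × ℕ)) := ⟨Subtype.val, continuous_subtype_val⟩ with hv
  have hA : IsClosed A := by
    refine isClosed_of_closure_subset fun x hx => ?_
    by_contra hxA
    obtain ⟨f, hf0, hf1, -⟩ := exists_continuous_zero_one_of_isClosed
      (((hF x).image Subtype.val).isClosed) (isClosed_singleton (x := x))
      (disjoint_left.2 (by rintro _ ⟨a, -, rfl⟩ rfl; exact hxA a.2))
    have h1 : φ (f.comp v) x = 0 := hF' x _ fun a ha => hf0 (mem_image_of_mem _ ha)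
    have h2 : φ (f.comp v) x = f x := closure_minimal (s := A) (t := {y | φ (f.comp v) y = f y})
      (fun a ha => hφ' _ ⟨a, ha⟩) (isClosed_eq (map_continuous _) f.continuous) hx
    have h3 : f x = 1 := hf1 rfl
    linarith
  haveI : CompactSpace A := isCompact_iff_compactSpace.1 hA.isCompact
  have hDc : (⋃ z : ℕ × ℕ, F (pure z)).Countable := countable_iUnion fun z => (hF _).countable
  have hD : Dense (⋃ z : ℕ × ℕ, F (pure z)) := by
    intro a
    by_contra ha
    obtain ⟨f, hf0, hf1, -⟩ := exists_continuous_zero_one_of_isClosed isClosed_closure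
      (isClosed_singleton (x := a)) (disjoint_singleton_right.2 ha)
    have h1 : φ f = 0 := uext fun z => hF' _ f fun b hb =>
      hf0 (subset_closure (mem_iUnion.2 ⟨z, hb⟩))
    have h2 := hφ' f a
    have h3 : f a = 1 := hf1 rfl
    rw [h1, h3] at h2
    simp at h2
  rcases isEmpty_or_nonempty A with hE | hne
  · set inl : C(Ultrafilter (ℕ × ℕ), Ultrafilter (ℕ × ℕ) ⊕ A) := ⟨Sum.inl, continuous_inl⟩ with hinl
    set el : C(Ultrafilter (ℕ × ℕ) ⊕ A, Ultrafilter (ℕ × ℕ)) :=
      ⟨Sum.elim id Subtype.val, continuous_id.sumElim continuous_subtype_val⟩ with hel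
    refine ⟨LinearEquiv.ofLinear (comb el el el) (comb inl inl inl) ?_ ?_, pc_comb _ _ _,
      pc_comb _ _ _⟩
    · refine LinearMap.ext fun G => ?_
      ext x
      rcases x with x | a
      · simp [comb, hel, hinl]
      · exact hE.elim a
    · refine LinearMap.ext fun G => ?_
      ext x
      simp [comb, hel, hinl]
  haveI := ed_ultra (ℕ × ℕ)
  haveI := ed_of_sep hA.isClosedEmbedding_subtypeVal hD hDc
  obtain ⟨d, hd⟩ := hDc.exists_eq_range hD.nonempty
  have hs : Function.Surjective (ex d) := by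
    rw [← range_eq_univ]
    refine eq_univ_of_univ_subset (hD.closure_eq.ge.trans (closure_minimal ?_
      (isCompact_range (ex d).continuous).isClosed))
    rw [hd]
    rintro _ ⟨n, rfl⟩
    exact ⟨pure n, ex_pure d n⟩
  obtain ⟨j, hj, hj'⟩ := CompactT2.ExtremallyDisconnected.projective (A := A) continuous_id
    (ex d).continuous hs
  exact shift (ex d) ⟨j, hj⟩ fun a => congrFun hj' a

end Pool.Agent.H19.Ls
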