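import Pool.Agent.H19.LsA

/-! The Stone-Cech compactification of a discrete space is not `S`-stable. -/

namespace Pool.Agent.H19.Ls

open Set Filter Topology BoundedContinuousFunction

lemma pc_bound {A B : Type*} [TopologicalSpace A] [TopologicalSpace B] [CompactSpace A]
    [CompactSpace B] {T : C(A, ℝ) →ₗ[ℝ] C(B, ℝ)} (h : PC T) :
    ∃ C : ℝ, 0 ≤ C ∧ ∀ f, ‖T f‖ ≤ C * ‖f‖ := by
  have h1 : Continuous fun f : C(A, ℝ) => (T f : B → ℝ) := by
    have h2 := continuous_induced_rng.1 h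
    exact @Continuous.comp _ _ _ _
      (TopologicalSpace.induced (fun f : C(A, ℝ) => (f : A → ℝ)) inferInstance) _ id _ h2
      (continuous_induced_rng.2 continuous_coeFun)
  have h2 : Continuous T := T.continuous_of_seq_closed_graph fun u x y hu hy =>
    ContinuousMap.coe_injective (tendsto_nhds_unique
      ((continuous_coeFun.tendsto y).comp hy) ((h1.tendsto x).comp hu))
  exact ⟨‖(⟨T, h2⟩ : C(A, ℝ) →L[ℝ] C(B, ℝ))‖, ContinuousLinearMap.opNorm_nonneg _,
    (⟨T, h2⟩ : C(A, ℝ) →L[ℝ] C(B, ℝ)).le_opNorm⟩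

lemma whitley {ι : Type*} (Φ : (ℕ →ᵇ ℝ) →ₗ[ℝ] ℝ) {C : ℝ} (hC0 : 0 ≤ C)
    (hC : ∀ a, |Φ a| ≤ C * ‖a‖) (h0 : ∀ a : ℕ →ᵇ ℝ, {n | a n ≠ 0}.Finite → Φ a = 0)
    (χ : ι → ℕ →ᵇ ℝ) (h1 : ∀ i n, |χ i n| ≤ 1)
    (had : ∀ i j, i ≠ j → {n | χ i n ≠ 0 ∧ χ j n ≠ 0}.Finite) : {i | Φ (χ i) ≠ 0}.Countable := by
  classical
  have key : ∀ s : Finset ι, ∑ i ∈ s, |Φ (χ i)| ≤ C := by
    intro s
    set a : ℕ →ᵇ ℝ := ∑ i ∈ s, (SignType.sign (Φ (χ i)) : ℝ) • χ i with ha
    set F : Set ℕ := ⋃ i ∈ s, ⋃ j ∈ s.erase i, {n | χ i n ≠ 0 ∧ χ j n ≠ 0} with hF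
    have hFf : F.Finite := s.finite_toSet.biUnion fun i _ => (s.erase i).finite_toSet.biUnion
      fun j hj => had i j (Finset.ne_of_mem_erase hj).symm
    set b : ℕ →ᵇ ℝ := ofNormedAddCommGroupDiscrete (F.indicator a) ‖a‖ fun n =>
      (norm_indicator_le_norm_self _ n).trans (a.norm_coe_le_norm n) with hb
    have hb0 : Φ b = 0 := h0 b (hFf.subset fun n hn => by
      by_contra h2
      exact hn (indicator_of_notMem h2 _))
    have hab : ‖a - b‖ ≤ 1 := by
      rw [BoundedContinuousFunction.norm_le zero_le_one]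
      intro n
      by_cases hn : n ∈ F
      · simp [hb, hn]
      · have h2 : (a - b) n = ∑ i ∈ s, (SignType.sign (Φ (χ i)) : ℝ) * χ i n := by
          simp [hb, hn, ha]
        rw [h2]
        by_cases h3 : ∃ i ∈ s, χ i n ≠ 0
        · obtain ⟨i, hi, h3⟩ := h3
          rw [Finset.sum_eq_single i (fun j hj hji => ?_) (fun h => absurd hi h), Real.norm_eq_abs,
            abs_mul]
          · refine mul_le_one₀ ?_ (abs_nonneg _) (h1 i n)
            rcases SignType.sign (Φ (χ i)) with _ | _ | _ <;> simp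
          · by_contra h4
            exact hn (mem_biUnion hi (mem_biUnion (Finset.mem_erase.2 ⟨hji, hj⟩)
              ⟨h3, right_ne_zero_of_mul h4⟩))
        · push Not at h3
          rw [Finset.sum_eq_zero fun i hi => by rw [h3 i hi, mul_zero]]
          simp
    have h2 : Φ (a - b) = ∑ i ∈ s, |Φ (χ i)| := by
      rw [map_sub, hb0, sub_zero, ha, map_sum]
      exact Finset.sum_congr rfl fun i _ => by rw [map_smul, smul_eq_mul, sign_mul_self]
    rw [← h2]
    exact ((le_abs_self _).trans (hC _)).trans (mul_le_of_le_one_right hC0 hab)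
  have h2 : Summable fun i => |Φ (χ i)| := summable_of_sum_le (fun _ => abs_nonneg _) key
  exact h2.countable_support.mono fun i hi => abs_ne_zero.2 hi

lemma exists_ad : ∃ A : ℝ → Set ℕ, (∀ r, (A r).Infinite) ∧
    ∀ r s, r ≠ s → (A r ∩ A s).Finite := by
  refine ⟨fun r => range fun n : ℕ => Encodable.encode (n, ⌊r * n⌋), fun r =>
    infinite_range_of_injective fun n m h => (Prod.ext_iff.1 (Encodable.encode_injective h)).1,
    fun r s hrs => ?_⟩
  obtain ⟨N, hN⟩ := exists_nat_ge (1 / |r - s|)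
  have hpos : 0 < |r - s| := abs_pos.2 (sub_ne_zero.2 hrs)
  refine ((finite_Iio N).image fun n : ℕ => Encodable.encode (n, ⌊r * n⌋)).subset ?_
  rintro _ ⟨⟨n, rfl⟩, m, hm⟩
  obtain ⟨h1, h2⟩ := Prod.ext_iff.1 (Encodable.encode_injective hm)
  simp only at h1 h2
  subst h1
  refine ⟨m, ?_, rfl⟩
  have h3 := Int.abs_sub_lt_one_of_floor_eq_floor h2
  rw [← sub_mul, abs_mul, abs_sub_comm, Nat.abs_cast] at h3
  have h4 : (m : ℝ) < 1 / |r - s| := by rw [lt_div_iff₀ hpos]; linarith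
  exact_mod_cast h4.trans_le hN

lemma exists_bext {α : Type*} (g : α → ℝ) {C : ℝ} (h : ∀ a, |g a| ≤ C) :
    ∃ G : C(Ultrafilter α, ℝ), ∀ a, G (pure a) = g a :=
  ⟨(⟨Subtype.val, continuous_subtype_val⟩ : C(Icc (-C) C, ℝ)).comp
    (ex fun a => ⟨g a, abs_le.1 (h a)⟩), fun a => by simp⟩

lemma norm_le_pure {α : Type*} (G : C(Ultrafilter α, ℝ)) {C : ℝ} (hC : 0 ≤ C)
    (h : ∀ a, |G (pure a)| ≤ C) : ‖G‖ ≤ C := by
  rw [ContinuousMap.norm_le _ hC]
  exact fun x => denseRange_pure.induction_on x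
    (isClosed_le G.continuous.norm continuous_const) h

theorem not_sstable {α : Type} [Nonempty α]
    (e : C(Ultrafilter α × OnePoint ℕ, ℝ) ≃ₗ[ℝ] C(Ultrafilter α, ℝ)) (he : PC e)
    (he' : PC e.symm) : False := by
  classical
  obtain ⟨C, hC0, hC⟩ := pc_bound (T := e.toLinearMap) he
  obtain ⟨C', hC0', hC'⟩ := pc_bound (T := e.symm.toLinearMap) he'
  choose F hF hF' using fin_supp (φ := e.toLinearMap) he
  have hu : ∀ n : ℕ, Continuous fun t : OnePoint ℕ => if t = n then (1 : ℝ) else 0 := by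
    intro n
    rw [OnePoint.continuous_iff_from_nat]
    simp only [OnePoint.infty_ne_coe, if_false, OnePoint.coe_eq_coe]
    exact tendsto_const_nhds.congr' ((eventually_gt_atTop n).mono fun m hm => by simp [hm.ne'])
  set u : ℕ → C(Ultrafilter α × OnePoint ℕ, ℝ) := fun n =>
    ⟨fun z => if z.2 = n then 1 else 0, (hu n).comp continuous_snd⟩ with hud
  have hN : ∀ m : α, {n | e (u n) (pure m) ≠ 0}.Finite := by
    intro m
    refine (((hF (pure m)).image Prod.snd).preimage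
      (f := fun n : ℕ => (n : OnePoint ℕ)) OnePoint.coe_injective.injOn).subset fun n hn => ?_
    by_contra h
    refine hn (hF' _ _ fun z hz => ?_)
    show (if z.2 = n then (1 : ℝ) else 0) = 0
    rw [if_neg]
    exact fun h1 => h ⟨z, hz, h1⟩
  have hs : ∀ (a : ℕ → ℝ) (s : Finset ℕ) (x : Ultrafilter α) (k : ℕ),
      (∑ n ∈ s, a n • u n) (x, (k : OnePoint ℕ)) = if k ∈ s then a k else 0 := by
    intro a s x k
    simp [hud, ContinuousMap.coe_sum]
  have hs' : ∀ (a : ℕ → ℝ) (s : Finset ℕ) (x : Ultrafilter α),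
      (∑ n ∈ s, a n • u n) (x, OnePoint.infty) = 0 := by
    intro a s x
    simp [hud, ContinuousMap.coe_sum]
  have he1 : ∀ (a : ℕ → ℝ) (s : Finset ℕ) (x : Ultrafilter α),
      e (∑ n ∈ s, a n • u n) x = ∑ n ∈ s, a n * e (u n) x := by
    intro a s x
    simp [map_sum, ContinuousMap.coe_sum]
  have hb : ∀ (a : ℕ →ᵇ ℝ) (m : α),
      |∑ n ∈ (hN m).toFinset, a n * e (u n) (pure m)| ≤ C * ‖a‖ := by
    intro a m
    rw [← he1]
    refine ((ContinuousMap.norm_coe_le_norm _ _).trans (hC _)).trans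
      (mul_le_mul_of_nonneg_left ?_ hC0)
    rw [ContinuousMap.norm_le _ (norm_nonneg _)]
    rintro ⟨x, t⟩
    induction t using OnePoint.rec with
    | infty => rw [hs']; simp
    | coe k =>
      rw [hs]
      split_ifs
      · exact a.norm_coe_le_norm k
      · simp
  choose W hW using fun a : ℕ →ᵇ ℝ => exists_bext _ (hb a)
  have hWn : ∀ a, ‖W a‖ ≤ C * ‖a‖ := fun a =>
    norm_le_pure _ (by positivity) fun m => by rw [hW]; exact hb a m
  have hWa : ∀ a b, W (a + b) = W a + W b := fun a b => uext fun m => by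
    simp [hW, add_mul, Finset.sum_add_distrib]
  have hWs : ∀ (t : ℝ) a, W (t • a) = t • W a := fun t a => uext fun m => by
    simp [hW, Finset.mul_sum, mul_assoc]
  set x0 : Ultrafilter α := pure (Classical.arbitrary α)
  set Φ : ℕ → (ℕ →ᵇ ℝ) →ₗ[ℝ] ℝ := fun k =>
    { toFun := fun a => e.symm (W a) (x0, (k : OnePoint ℕ)) - e.symm (W a) (x0, OnePoint.infty) - a k
      map_add' := fun a b => by simp [hWa]; ring
      map_smul' := fun t a => by simp [hWs]; ring } with hΦ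
  have hΦb : ∀ k a, |Φ k a| ≤ (2 * (C' * C) + 1) * ‖a‖ := by
    intro k a
    have h1 : ∀ z, |e.symm (W a) z| ≤ C' * (C * ‖a‖) := fun z =>
      ((ContinuousMap.norm_coe_le_norm _ _).trans (hC' _)).trans
        (mul_le_mul_of_nonneg_left (hWn a) hC0')
    have h2 : |a k| ≤ ‖a‖ := a.norm_coe_le_norm k
    have h3 := abs_le.1 (h1 (x0, (k : OnePoint ℕ)))
    have h4 := abs_le.1 (h1 (x0, OnePoint.infty))
    have h5 := abs_le.1 h2
    show |e.symm (W a) (x0, (k : OnePoint ℕ)) - e.symm (W a) (x0, OnePoint.infty) - a k| ≤ _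
    rw [abs_le]
    constructor <;> linarith [h3.1, h3.2, h4.1, h4.2, h5.1, h5.2]
  have hΦ0 : ∀ k (a : ℕ →ᵇ ℝ), {n | a n ≠ 0}.Finite → Φ k a = 0 := by
    intro k a ha
    have h1 : W a = e (∑ n ∈ ha.toFinset, a n • u n) := uext fun m => by
      rw [hW, he1]
      refine Finset.sum_subset_zero_on_sdiff (s₁ := (hN m).toFinset ∩ ha.toFinset)
        Finset.inter_subset_left (fun n hn => ?_) (fun _ _ => rfl) |>.symm.trans
        (Finset.sum_subset_zero_on_sdiff Finset.inter_subset_right (fun n hn => ?_) fun _ _ => rfl)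
      · have : a n = 0 := by
          by_contra h
          simp only [Finset.mem_sdiff, Finset.mem_inter, Finite.mem_toFinset, mem_setOf_eq] at hn
          exact hn.2 ⟨hn.1, h⟩
        rw [this, zero_mul]
      · have : e (u n) (pure m) = 0 := by
          by_contra h
          simp only [Finset.mem_sdiff, Finset.mem_inter, Finite.mem_toFinset, mem_setOf_eq] at hn
          exact hn.2 ⟨h, hn.1⟩
        rw [this, mul_zero]
    show e.symm (W a) (x0, (k : OnePoint ℕ)) - e.symm (W a) (x0, OnePoint.infty) - a k = 0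
    rw [h1, e.symm_apply_apply, hs, hs']
    split_ifs with h
    · ring
    · have : a k = 0 := by simpa using h
      rw [this]; ring
  obtain ⟨A, hA, had⟩ := exists_ad
  have hχ1 : ∀ r n, |(A r).indicator (1 : ℕ → ℝ) n| ≤ 1 := fun r n => by
    by_cases h : n ∈ A r <;> simp [h]
  set χ : ℝ → ℕ →ᵇ ℝ := fun r => ofNormedAddCommGroupDiscrete ((A r).indicator 1) 1 (hχ1 r) with hχ
  have h1 : (⋃ k, {r | Φ k (χ r) ≠ 0}).Countable := countable_iUnion fun k =>
    whitley (Φ k) (by positivity) (hΦb k) (hΦ0 k) χ hχ1 fun r s hrs => (had r s hrs).subset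
      fun n hn => ⟨mem_of_indicator_ne_zero hn.1, mem_of_indicator_ne_zero hn.2⟩
  obtain ⟨r, hr⟩ : ∃ r, r ∉ ⋃ k, {r | Φ k (χ r) ≠ 0} := by
    by_contra h
    push Not at h
    exact not_countable_univ (h1.mono fun r _ => h r)
  simp only [mem_iUnion, mem_setOf_eq, not_exists, not_not] at hr
  have h2 : Tendsto (fun k : ℕ => e.symm (W (χ r)) (x0, (k : OnePoint ℕ))) atTop
      (𝓝 (e.symm (W (χ r)) (x0, OnePoint.infty))) :=
    (OnePoint.continuous_iff_from_nat fun t => e.symm (W (χ r)) (x0, t)).1 (by fun_prop)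
  obtain ⟨N, hN'⟩ := eventually_atTop.1 (h2.eventually (gt_mem_nhds (lt_add_one _)))
  obtain ⟨k, hk, hNk⟩ := (hA r).exists_gt N
  have h3 : e.symm (W (χ r)) (x0, (k : OnePoint ℕ)) - e.symm (W (χ r)) (x0, OnePoint.infty)
    - (A r).indicator (1 : ℕ → ℝ) k = 0 := hr k
  have h4 := hN' k hNk.le
  rw [indicator_of_mem hk, Pi.one_apply] at h3
  linarith

end Pool.Agent.H19.Ls
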