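import Mathlib

/-! Monotonically monolithic ccc compact spaces are metrizable. -/

set_option maxHeartbeats 400000

namespace Pool.Agent.H19.Mono

open Set Filter Topology

variable {X : Type} [TopologicalSpace X] [T2Space X] [CompactSpace X]

lemma exists_fam
    (hc : ∀ F : Set (Set X), (∀ U ∈ F, IsOpen U ∧ U.Nonempty) → F.PairwiseDisjoint id → F.Countable)
    (N : Set X) : ∃ V : Set (Set X), V.Countable ∧ Dense (⋃₀ V) ∧
      ∀ W ∈ V, IsOpen W ∧ (Disjoint (closure W) N ∨ W ⊆ closure N) := by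
  obtain ⟨V, hV⟩ := zorn_subset {F : Set (Set X) | (∀ W ∈ F, (IsOpen W ∧ W.Nonempty) ∧
      (Disjoint (closure W) N ∨ W ⊆ closure N)) ∧ F.PairwiseDisjoint id} (by
    intro c hcS hch
    refine ⟨⋃₀ c, ⟨fun W ⟨F, hF, hW⟩ => (hcS hF).1 W hW, ?_⟩, fun s hs => subset_sUnion_of_mem hs⟩
    exact (pairwise_sUnion hch.directedOn).2 fun F hF => (hcS hF).2)
  refine ⟨V, hc V (fun U hU => (hV.1.1 U hU).1) hV.1.2, ?_,
    fun W hW => ⟨(hV.1.1 W hW).1.1, (hV.1.1 W hW).2⟩⟩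
  rw [dense_iff_inter_open]
  intro U hU hne
  by_contra hcon
  obtain ⟨W, hW, hWne, hWU, hWN⟩ : ∃ W, IsOpen W ∧ W.Nonempty ∧ W ⊆ U ∧
      (Disjoint (closure W) N ∨ W ⊆ closure N) := by
    by_cases h : U ⊆ closure N
    · exact ⟨U, hU, hne, subset_rfl, Or.inr h⟩
    · obtain ⟨x, hx, hxN⟩ := not_subset.1 h
      obtain ⟨t, ht, htc, hts⟩ := exists_mem_nhds_isClosed_subset
        ((hU.inter isClosed_closure.isOpen_compl).mem_nhds ⟨hx, hxN⟩)
      exact ⟨interior t, isOpen_interior, ⟨x, mem_interior_iff_mem_nhds.2 ht⟩,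
        fun z hz => (hts (interior_subset hz)).1, Or.inl (disjoint_left.2 fun z hz hzN =>
          (hts (closure_minimal interior_subset htc hz)).2 (subset_closure hzN))⟩
  have h1 : insert W V ⊆ V := hV.2 ⟨by
      rintro _ (rfl | h)
      · exact ⟨⟨hW, hWne⟩, hWN⟩
      · exact hV.1.1 _ h,
    hV.1.2.insert fun W' hW' _ => disjoint_left.2 fun z hz hz' =>
      hcon ⟨z, hWU hz, W', hW', hz'⟩⟩ (subset_insert _ _)
  obtain ⟨z, hz⟩ := hWne
  exact hcon ⟨z, hWU hz, W, h1 (mem_insert _ _), hz⟩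

lemma metr_of_net {𝓝' : Set (Set X)} (hc : 𝓝'.Countable)
    (h : ∀ x, ∀ U, IsOpen U → x ∈ U → ∃ N ∈ 𝓝', x ∈ N ∧ N ⊆ U) :
    TopologicalSpace.MetrizableSpace X := by
  set P := {z : Set X × Set X | z ∈ 𝓝' ×ˢ 𝓝' ∧ Disjoint (closure z.1) (closure z.2)}
  haveI : Countable P := ((hc.prod hc).mono fun z hz => hz.1).to_subtype
  have h1 : ∀ z : P, ∃ f : C(X, ℝ), EqOn f 0 (closure z.1.1) ∧ EqOn f 1 (closure z.1.2) := fun z =>
    let ⟨f, h0, h1, _⟩ := exists_continuous_zero_one_of_isClosed isClosed_closure isClosed_closure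
      z.2.2
    ⟨f, h0, h1⟩
  choose f h0 h1 using h1
  have hF : Continuous fun x (z : P) => f z x := continuous_pi fun z => (f z).continuous
  refine (hF.isClosedEmbedding fun x y hxy => ?_).isEmbedding.metrizableSpace
  by_contra hne
  obtain ⟨U, hU, V, hV, hUc, hVc, hUV⟩ : ∃ U ∈ 𝓝 x, ∃ V ∈ 𝓝 y, IsClosed U ∧ IsClosed V ∧
      Disjoint U V := by
    obtain ⟨U, V, hU, hV, hx, hy, hUV⟩ := t2_separation hne
    obtain ⟨U', hU', hUc, hUU⟩ := exists_mem_nhds_isClosed_subset (hU.mem_nhds hx)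
    obtain ⟨V', hV', hVc, hVV⟩ := exists_mem_nhds_isClosed_subset (hV.mem_nhds hy)
    exact ⟨U', hU', V', hV', hUc, hVc, hUV.mono hUU hVV⟩
  obtain ⟨N, hN, hxN, hNU⟩ := h x _ isOpen_interior (mem_interior_iff_mem_nhds.2 hU)
  obtain ⟨M, hM, hyM, hMV⟩ := h y _ isOpen_interior (mem_interior_iff_mem_nhds.2 hV)
  set z : P := ⟨(N, M), ⟨hN, hM⟩, hUV.mono (closure_minimal (hNU.trans interior_subset) hUc)
    (closure_minimal (hMV.trans interior_subset) hVc)⟩
  have : f z x = f z y := congrFun hxy z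
  rw [h0 z (subset_closure hxN), h1 z (subset_closure hyM)] at this
  simp at this

theorem main
    (hc : ∀ F : Set (Set X), (∀ U ∈ F, IsOpen U ∧ U.Nonempty) → F.PairwiseDisjoint id → F.Countable)
    (O : Set X → Set (Set X)) (hO : ∀ A : Set X, A.Countable → (O A).Countable)
    (hn : ∀ A : Set X, ∀ x ∈ closure A, ∀ U : Set X, IsOpen U → x ∈ U → ∃ N ∈ O A, x ∈ N ∧ N ⊆ U)
    (hm : ∀ A B : Set X, A ⊆ B → O A ⊆ O B)
    (hu : ∀ A : ℕ → Set X, Monotone A → O (⋃ i, A i) = ⋃ i, O (A i)) :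
    TopologicalSpace.MetrizableSpace X := by
  classical
  choose V hVc hVd hV using exists_fam hc
  set 𝓦 : Set X → Set (Set X) := fun A => ⋃ N ∈ O A, V N with h𝓦
  have h𝓦c : ∀ A, A.Countable → (𝓦 A).Countable := fun A hA => (hO A hA).biUnion fun N _ => hVc N
  have hst : ∀ A : Set X, ∃ B : Set X, A ⊆ B ∧ (A.Countable → B.Countable) ∧
      ∀ s : Set (Set X), s.Finite → s ⊆ 𝓦 A → (⋂₀ s).Nonempty → (⋂₀ s ∩ B).Nonempty := by
    intro A
    set T := {s : Set (Set X) | (s.Finite ∧ s ⊆ 𝓦 A) ∧ (⋂₀ s).Nonempty}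
    refine ⟨A ∪ range fun s : T => s.2.2.some, subset_union_left, fun hA => ?_,
      fun s h1 h2 h3 => ⟨_, h3.some_mem, Or.inr ⟨⟨s, ⟨h1, h2⟩, h3⟩, rfl⟩⟩⟩
    haveI : Countable T :=
      ((countable_setOf_finite_subset (h𝓦c A hA)).mono fun s hs => hs.1).to_subtype
    exact hA.union (countable_range _)
  choose st h1 h2 h3 using hst
  set A : ℕ → Set X := fun n => st^[n] ∅ with hA
  have hAs : ∀ n, A (n + 1) = st (A n) := fun n => Function.iterate_succ_apply' _ _ _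
  have hAm : Monotone A := monotone_nat_of_le_succ fun n => hAs n ▸ h1 _
  have hAc : ∀ n, (A n).Countable := fun n => by
    induction n with
    | zero => exact countable_empty
    | succ n ih => exact hAs n ▸ h2 _ ih
  set D := ⋃ n, A n with hD
  have hDc : D.Countable := countable_iUnion hAc
  have hcl : ∀ s : Set (Set X), s.Finite → s ⊆ 𝓦 D → (⋂₀ s).Nonempty → (⋂₀ s ∩ D).Nonempty := by
    intro s hs hsD hne
    have h4 : 𝓦 D = ⋃ n, 𝓦 (A n) := by simp only [h𝓦, hD, hu A hAm, biUnion_iUnion]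
    have h5 : Monotone fun n => 𝓦 (A n) := fun a b hab =>
      biUnion_subset_biUnion_left (hm _ _ (hAm hab))
    obtain ⟨n, hn⟩ := h5.directed_le.exists_mem_subset_of_finset_subset_biUnion
      (s := hs.toFinset) (by rw [← h4]; simpa using hsD)
    exact (h3 (A n) s hs (by simpa using hn) hne).mono
      (inter_subset_inter_right _ (hAs n ▸ subset_iUnion A (n + 1)))
  refine metr_of_net (hO D hDc) fun x => hn D x ?_
  by_contra hx
  have hG : Dense (⋂ N ∈ O D, ⋃₀ V N) := dense_biInter_of_isOpen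
    (fun N _ => isOpen_sUnion fun W hW => (hV N W hW).1) (hO D hDc) fun N _ => hVd N
  obtain ⟨y, hyD, hyG⟩ := hG.inter_open_nonempty _ isClosed_closure.isOpen_compl ⟨x, hx⟩
  have hne : (generate {W | W ∈ 𝓦 D ∧ y ∈ W} ⊓ 𝓟 D).NeBot := by
    rw [inf_principal_neBot_iff]
    intro U hU
    obtain ⟨t, htS, ht, htU⟩ := mem_generate_iff.1 hU
    exact (hcl t ht (fun W hW => (htS hW).1) ⟨y, fun W hW => (htS hW).2⟩).mono
      (inter_subset_inter_left _ htU)
  obtain ⟨p, hp⟩ := exists_clusterPt_of_compactSpace (generate {W | W ∈ 𝓦 D ∧ y ∈ W} ⊓ 𝓟 D)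
  rw [clusterPt_iff_forall_mem_closure] at hp
  have hpD : p ∈ closure D := hp _ (mem_inf_of_right (mem_principal_self _))
  have hpy : p ≠ y := fun h => hyD (h ▸ hpD)
  obtain ⟨t, ht, htc, hts⟩ := exists_mem_nhds_isClosed_subset (isOpen_ne.mem_nhds hpy)
  obtain ⟨N, hN, hpN, hNt⟩ := hn D p hpD _ isOpen_interior (mem_interior_iff_mem_nhds.2 ht)
  obtain ⟨W, hW, hyW⟩ := mem_iInter₂.1 hyG N hN
  have hpW : p ∈ closure W :=
    hp _ (mem_inf_of_left (mem_generate_of_mem ⟨mem_biUnion hN hW, hyW⟩))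
  rcases (hV N W hW).2 with h | h
  · exact disjoint_left.1 h hpW hpN
  · exact hts (closure_minimal (hNt.trans interior_subset) htc (h hyW)) rfl

end Pool.Agent.H19.Mono
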