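import Mathlib

set_option maxHeartbeats 400000

namespace Pool.Agent.H19.Newt

open Polynomial Filter Topology Set Metric Bornology

noncomputable def NM (P D : ℂ[X]) (z : ℂ) : ℂ := z - P.eval z / D.eval z

noncomputable def ND (P D : ℂ[X]) (z : ℂ) : ℂ :=
  1 - (P.derivative.eval z * D.eval z - P.eval z * D.derivative.eval z) / (D.eval z) ^ 2

theorem NM_strict (P D : ℂ[X]) {z : ℂ} (hz : D.eval z ≠ 0) :
    HasStrictDerivAt (NM P D) (ND P D z) z :=
  (hasStrictDerivAt_id z).sub ((P.hasStrictDerivAt z).div (D.hasStrictDerivAt z) hz)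

theorem cover (P D : ℂ[X]) (hco : ∀ z, D.eval z = 0 → P.eval z ≠ 0)
    (hb : ∃ R C : ℝ, ∀ z : ℂ, R ≤ ‖z‖ → ‖P.eval z / D.eval z‖ ≤ C)
    (hcrit : ∀ z, D.eval z ≠ 0 → ND P D z = 0 → P.eval z = 0) :
    IsCoveringMapOn (fun z : {z : ℂ // D.eval z ≠ 0} => NM P D z.1) {w | P.eval w ≠ 0} := by
  have hopen : IsOpen {z : ℂ | D.eval z ≠ 0} := isOpen_ne_fun D.continuous continuous_const
  have hcont : Continuous (fun z : {z : ℂ // D.eval z ≠ 0} => NM P D z.1) := by
    refine continuous_iff_continuousAt.2 fun z => ?_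
    exact (NM_strict P D z.2).hasDerivAt.continuousAt.comp continuous_subtype_val.continuousAt
  have hprop : IsProperMap (fun z : {z : ℂ // D.eval z ≠ 0} => NM P D z.1) := by
    rw [isProperMap_iff_isCompact_preimage]
    refine ⟨hcont, fun K hK => ?_⟩
    rw [Subtype.isCompact_iff]
    have hS : Subtype.val '' ((fun z : {z : ℂ // D.eval z ≠ 0} => NM P D z.1) ⁻¹' K)
        = {z : ℂ | ∃ w ∈ K, z * D.eval z - P.eval z = w * D.eval z} := by
      ext z
      constructor
      · rintro ⟨⟨y, hy⟩, hyK, rfl⟩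
        refine ⟨_, hyK, ?_⟩
        simp only [NM]
        field_simp
      · rintro ⟨w, hw, hzw⟩
        have hD : D.eval z ≠ 0 := by
          intro h0
          apply hco z h0
          rw [h0] at hzw
          simpa using hzw
        refine ⟨⟨z, hD⟩, ?_, rfl⟩
        have : NM P D z = w := by
          simp only [NM]
          field_simp
          linear_combination hzw
        simpa [this] using hw
    rw [hS]
    obtain ⟨R, C, hRC⟩ := hb
    obtain ⟨M, hM⟩ := hK.isBounded.subset_closedBall (0 : ℂ)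
    refine Metric.isCompact_of_isClosed_isBounded ?_ ?_
    · refine IsSeqClosed.isClosed ?_
      intro x z hx hlim
      choose w hwK hw using hx
      obtain ⟨v, hvK, φ, hφ, hv⟩ := hK.tendsto_subseq hwK
      refine ⟨v, hvK, ?_⟩
      have hl := hlim.comp hφ.tendsto_atTop
      have h1 : Tendsto (fun n => x (φ n) * D.eval (x (φ n)) - P.eval (x (φ n))) atTop
          (𝓝 (z * D.eval z - P.eval z)) :=
        (hl.mul ((D.continuous.tendsto z).comp hl)).sub ((P.continuous.tendsto z).comp hl)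
      have h2 : Tendsto (fun n => w (φ n) * D.eval (x (φ n))) atTop (𝓝 (v * D.eval z)) :=
        hv.mul ((D.continuous.tendsto z).comp hl)
      exact tendsto_nhds_unique h1 (h2.congr fun n => (hw (φ n)).symm)
    · rw [← hS]
      refine (isBounded_closedBall (x := (0 : ℂ)) (r := max R (M + C))).subset ?_
      rintro _ ⟨⟨y, hy⟩, hyK, rfl⟩
      have h1 : ‖NM P D y‖ ≤ M := by simpa using hM hyK
      simp only [mem_closedBall, dist_zero_right]
      by_cases hR : R ≤ ‖y‖
      · have h2 := hRC y hR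
        have h3 : y = NM P D y + P.eval y / D.eval y := by simp [NM]
        have h4 : ‖y‖ ≤ M + C := by
          calc ‖y‖ = ‖NM P D y + P.eval y / D.eval y‖ := by rw [← h3]
            _ ≤ _ := (norm_add_le _ _).trans (add_le_add h1 h2)
        exact h4.trans (le_max_right _ _)
      · exact (le_of_not_ge hR).trans (le_max_left _ _)
  have hloc : IsLocalHomeomorphOn (fun z : {z : ℂ // D.eval z ≠ 0} => NM P D z.1)
      ((fun z : {z : ℂ // D.eval z ≠ 0} => NM P D z.1) ⁻¹' {w | P.eval w ≠ 0}) := by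
    have h1 : IsLocalHomeomorphOn (NM P D) {z | D.eval z ≠ 0 ∧ ND P D z ≠ 0} :=
      fun x hx => ⟨_, ((NM_strict P D hx.1).hasStrictFDerivAt_equiv
        hx.2).mem_toOpenPartialHomeomorph_source, by simp⟩
    have h2 : IsLocalHomeomorph (Subtype.val : {z : ℂ // D.eval z ≠ 0} → ℂ) :=
      hopen.isOpenEmbedding_subtypeVal.isLocalHomeomorph
    refine h1.comp h2.isLocalHomeomorphOn ?_
    intro z hz
    refine ⟨z.2, fun h0 => ?_⟩
    have hP := hcrit z.1 z.2 h0
    apply hz
    simp [NM, hP]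
  intro x hx
  have h : ∀ e ∈ (fun z : {z : ℂ // D.eval z ≠ 0} => NM P D z.1) ⁻¹' {x},
      ∃ φ : OpenPartialHomeomorph {z : ℂ // D.eval z ≠ 0} ℂ, e ∈ φ.source ∧
        φ = (fun z : {z : ℂ // D.eval z ≠ 0} => NM P D z.1) := by
    intro e he
    have he' : NM P D e.1 = x := he
    obtain ⟨φ, hφ, h2⟩ := hloc e (by simpa [he'] using hx)
    exact ⟨φ, hφ, h2.symm⟩
  exact hprop.isClosedMap.isEvenlyCovered_of_openPartialHomeomorph
    ((hprop.isCompact_preimage isCompact_singleton).finite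
      (.of_openPartialHomeomorph _ subset_rfl h)) h

theorem lift (P D : ℂ[X])
    (hcov : IsCoveringMapOn (fun z : {z : ℂ // D.eval z ≠ 0} => NM P D z.1) {w | P.eval w ≠ 0})
    (hcrit : ∀ z, D.eval z ≠ 0 → ND P D z = 0 → P.eval z = 0)
    (φ : ℂ → ℂ) (hφ : DifferentiableOn ℂ φ (ball 0 1)) (hφs : ∀ t ∈ ball (0 : ℂ) 1, P.eval (φ t) ≠ 0)
    (z : ℂ) (hz : D.eval z ≠ 0) (hzφ : NM P D z = φ 0) :
    ∃ ψ : ℂ → ℂ, DifferentiableOn ℂ ψ (ball 0 1) ∧ ψ 0 = z ∧
      ∀ t ∈ ball (0 : ℂ) 1, D.eval (ψ t) ≠ 0 ∧ NM P D (ψ t) = φ t := by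
  classical
  haveI : ContractibleSpace (ball (0 : ℂ) 1) :=
    (convex_ball (0 : ℂ) 1).contractibleSpace ⟨0, by simp⟩
  haveI : LocallyPathConnectedSpace (ball (0 : ℂ) 1) := isOpen_ball.locallyPathConnectedSpace
  let f : C(ball (0 : ℂ) 1, ℂ) := ⟨fun t => φ t.1, hφ.continuousOn.restrict⟩
  obtain ⟨F, ⟨hF0, hF⟩, -⟩ := hcov.existsUnique_continuousMap_lifts f
    (a₀ := ⟨0, by simp⟩) (e₀ := ⟨z, hz⟩) hzφ (fun a => hφs a.1 a.2)
  let ψ : ℂ → ℂ := fun t => if h : t ∈ ball (0 : ℂ) 1 then (F ⟨t, h⟩).1 else 0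
  have hψ : ∀ t (h : t ∈ ball (0 : ℂ) 1), ψ t = (F ⟨t, h⟩).1 := fun t h => by simp only [ψ, dif_pos h]
  have hprop : ∀ t ∈ ball (0 : ℂ) 1, D.eval (ψ t) ≠ 0 ∧ NM P D (ψ t) = φ t := by
    intro t ht
    rw [hψ t ht]
    exact ⟨(F ⟨t, ht⟩).2, congr_fun hF ⟨t, ht⟩⟩
  have hc : ContinuousOn ψ (ball 0 1) := by
    rw [continuousOn_iff_continuous_restrict]
    exact (continuous_subtype_val.comp F.continuous).congr fun a => (hψ a.1 a.2).symm
  refine ⟨ψ, ?_, ?_, hprop⟩
  · intro t ht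
    have hn : ball (0 : ℂ) 1 ∈ 𝓝 t := isOpen_ball.mem_nhds ht
    have hct : ContinuousAt ψ t := hc.continuousAt hn
    have hD := (hprop t ht).1
    have hne : ND P D (ψ t) ≠ 0 := by
      intro h0
      have hP := hcrit _ hD h0
      apply hφs t ht
      rw [← (hprop t ht).2]
      simp [NM, hP]
    have hs := NM_strict P D hD
    have hinv := hs.to_localInverse hne
    have hleft := (hs.hasStrictFDerivAt_equiv hne).eventually_left_inverse
    have h1 : ∀ᶠ y in 𝓝 t, ψ y = hs.localInverse (NM P D) _ _ hne (φ y) := by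
      filter_upwards [hct.eventually hleft, hn] with y hy hyb
      rw [← (hprop y hyb).2]
      exact hy.symm
    have h2 : DifferentiableAt ℂ (fun y => hs.localInverse (NM P D) _ _ hne (φ y)) t := by
      refine DifferentiableAt.comp t ?_ (hφ.differentiableAt hn)
      rw [← (hprop t ht).2]
      exact hinv.hasDerivAt.differentiableAt
    exact (h2.congr_of_eventuallyEq h1).differentiableWithinAt
  · rw [hψ 0 (by simp), hF0]

end Pool.Agent.H19.Newt
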