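import Pool.Agent.H19.NewtA

set_option maxHeartbeats 400000

namespace Pool.Agent.H19.Newt

open Polynomial Filter Topology Set Metric Bornology

def Good (P : ℂ[X]) (p : ℂ) (δ : ℝ) (z : ℂ) (r : ℝ) : Prop :=
  ∃ ψ : ℂ → ℂ, DifferentiableOn ℂ ψ (ball 0 1) ∧ ψ 0 = z ∧
    (∀ t ∈ ball (0 : ℂ) 1, P.eval (ψ t) ≠ 0 ∧ δ ≤ ‖ψ t - p‖) ∧ r ≤ ‖deriv ψ 0‖

theorem good_bound {P : ℂ[X]} {p : ℂ} {δ : ℝ} (hδ : 0 < δ) {z : ℂ} {r : ℝ}
    (h : Good P p δ z r) : r ≤ 2 / δ * ‖z - p‖ ^ 2 := by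
  obtain ⟨ψ, hd, h0, hav, hr⟩ := h
  have hne : ∀ t ∈ ball (0 : ℂ) 1, ψ t - p ≠ 0 := by
    intro t ht h
    have := (hav t ht).2
    rw [h, norm_zero] at this
    linarith
  have hb : ∀ t ∈ ball (0 : ℂ) 1, ‖(ψ t - p)⁻¹‖ ≤ 1 / δ := by
    intro t ht
    rw [norm_inv, one_div]
    exact inv_anti₀ hδ (hav t ht).2
  have hd2 : DifferentiableOn ℂ (fun t => (ψ t - p)⁻¹) (ball 0 1) :=
    (hd.sub_const p).inv hne
  have hm : MapsTo (fun t => (ψ t - p)⁻¹) (ball 0 1) (closedBall ((ψ 0 - p)⁻¹) (2 / δ)) := by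
    intro t ht
    rw [mem_closedBall, dist_eq_norm]
    have h1 := hb t ht
    have h2 := hb 0 (by simp)
    calc _ ≤ ‖(ψ t - p)⁻¹‖ + ‖(ψ 0 - p)⁻¹‖ := norm_sub_le _ _
      _ ≤ 1 / δ + 1 / δ := add_le_add h1 h2
      _ = 2 / δ := by ring
  have hS := Complex.norm_deriv_le_div_of_mapsTo_ball hd2 hm one_pos
  have hψ : HasDerivAt ψ (deriv ψ 0) 0 :=
    (hd.differentiableAt (isOpen_ball.mem_nhds (by simp))).hasDerivAt
  have h3 : HasDerivAt (fun t => (ψ t - p)⁻¹) (-(deriv ψ 0) / (ψ 0 - p) ^ 2) 0 :=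
    (hψ.sub_const p).inv (hne 0 (by simp))
  rw [h3.deriv, norm_div, norm_neg, norm_pow, h0, div_one] at hS
  have hz : 0 < ‖z - p‖ ^ 2 := by
    have := hne 0 (by simp)
    rw [h0] at this
    positivity
  rw [div_le_iff₀ hz] at hS
  exact hr.trans hS

theorem good_far {P : ℂ[X]} {p : ℂ} {δ R0 : ℝ} (hP : ∀ z, P.eval z = 0 → ‖z‖ ≤ R0)
    (hp : ‖p‖ + δ ≤ R0) {z : ℂ} {r : ℝ} (hr : 0 ≤ r) (hz : R0 + r < ‖z‖) :
    Good P p δ z r := by
  refine ⟨fun t => z + r * t, by fun_prop, by simp, ?_, ?_⟩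
  · intro t ht
    have ht1 : ‖t‖ < 1 := by simpa using ht
    have h1 : ‖(r : ℂ) * t‖ ≤ r := by
      rw [norm_mul, Complex.norm_real, Real.norm_of_nonneg hr]
      nlinarith [norm_nonneg t]
    have h2 : ‖z‖ ≤ ‖z + r * t‖ + ‖(r : ℂ) * t‖ := by
      simpa using norm_sub_le (z + r * t) (r * t)
    have h3 : ‖z + r * t‖ ≤ ‖z + r * t - p‖ + ‖p‖ := by
      simpa using norm_add_le (z + r * t - p) p
    refine ⟨fun h => ?_, by linarith⟩
    have := hP _ h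
    linarith
  · have : HasDerivAt (fun t : ℂ => z + r * t) r 0 := by
      simpa using ((hasDerivAt_id (0 : ℂ)).const_mul (r : ℂ)).const_add z
    rw [this.deriv, Complex.norm_real, Real.norm_of_nonneg hr]

theorem good_step (P D : ℂ[X])
    (hcov : IsCoveringMapOn (fun z : {z : ℂ // D.eval z ≠ 0} => NM P D z.1) {w | P.eval w ≠ 0})
    (hcrit : ∀ z, D.eval z ≠ 0 → ND P D z = 0 → P.eval z = 0) {p : ℂ} {δ : ℝ}
    (hB : ∀ z, ‖z - p‖ < δ → ‖NM P D z - p‖ < δ)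
    {z : ℂ} (hz : D.eval z ≠ 0) {r β : ℝ} (hβ : 0 < β) (hN : ‖ND P D z‖ ≤ β)
    (h : Good P p δ (NM P D z) r) : Good P p δ z (r / β) := by
  obtain ⟨φ, hd, h0, hav, hr⟩ := h
  obtain ⟨ψ, hψ, hψ0, hl⟩ := lift P D hcov hcrit φ hd (fun t ht => (hav t ht).1) z hz h0.symm
  refine ⟨ψ, hψ, hψ0, ?_, ?_⟩
  · intro t ht
    refine ⟨fun h => (hav t ht).1 ?_, ?_⟩
    · rw [← (hl t ht).2]
      simp [NM, h]
    · by_contra hc
      have := hB _ (lt_of_not_ge hc)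
      rw [(hl t ht).2] at this
      linarith [(hav t ht).2]
  · have hn : ball (0 : ℂ) 1 ∈ 𝓝 0 := isOpen_ball.mem_nhds (by simp)
    have h1 : HasDerivAt ψ (deriv ψ 0) 0 := (hψ.differentiableAt hn).hasDerivAt
    have h2 : HasDerivAt (NM P D) (ND P D z) (ψ 0) := by
      rw [hψ0]; exact (NM_strict P D hz).hasDerivAt
    have h3 := h2.comp 0 h1
    have h4 : φ =ᶠ[𝓝 0] (NM P D ∘ ψ) := by
      filter_upwards [hn] with t ht using (hl t ht).2.symm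
    have h5 := (h3.congr_of_eventuallyEq h4).deriv
    rw [h5, norm_mul] at hr
    rw [div_le_iff₀ hβ]
    nlinarith [norm_nonneg (deriv ψ 0)]

theorem attract (P D : ℂ[X]) {p : ℂ} (hp : P.eval p = 0) (hD : D.eval p ≠ 0)
    (hD2 : D.eval p = P.derivative.eval p) :
    ∃ δ > 0, ∀ z, ‖z - p‖ < δ → ‖NM P D z - p‖ < δ := by
  have h0 : ND P D p = 0 := by
    simp only [ND, hp, ← hD2]
    field_simp
    ring
  have h1 := (NM_strict P D hD).hasDerivAt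
  rw [h0, hasDerivAt_iff_isLittleO] at h1
  have h2 := h1.def (c := 1 / 2) (by norm_num)
  obtain ⟨δ, hδ, hb⟩ := Metric.eventually_nhds_iff.1 h2
  refine ⟨δ, hδ, fun z hz => ?_⟩
  have h3 := hb (y := z) (by rwa [dist_eq_norm])
  have h4 : NM P D p = p := by simp [NM, hp]
  simp only [h4, smul_zero, sub_zero] at h3
  linarith [norm_nonneg (z - p)]

/-- abstract contradiction -/
theorem core (P D : ℂ[X]) (hP0 : P ≠ 0) (hco : ∀ z, D.eval z = 0 → P.eval z ≠ 0)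
    (hb : ∃ R C : ℝ, ∀ z : ℂ, R ≤ ‖z‖ → ‖P.eval z / D.eval z‖ ≤ C)
    (hcrit : ∀ z, D.eval z ≠ 0 → ND P D z = 0 → P.eval z = 0)
    {p : ℂ} (hp : P.eval p = 0) (hD2 : D.eval p = P.derivative.eval p)
    (n : ℕ) (hn : 0 < n) (A : ℝ) (hA : 0 < A) (x : ℂ → ℝ) (hx : ∀ z, x z ≤ A * ‖z‖ ^ n) (T : ℝ)
    (hT : 1 ≤ T) (w0 : ℂ) (hw0 : T ≤ x w0)
    (hstep : ∀ z, T ≤ x z → D.eval z ≠ 0 ∧ x z + 1 / 2 ≤ x (NM P D z) ∧
      ∃ β, 0 < β ∧ ‖ND P D z‖ ≤ β ∧ β ^ (2 * n) * x z ≤ x (NM P D z)) : False := by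
  have hcov := cover P D hco hb hcrit
  obtain ⟨δ, hδ, hB⟩ := attract P D hp (fun h => hco p h hp) hD2
  obtain ⟨R1, hR1⟩ := (P.roots.toFinset.finite_toSet.isBounded).subset_closedBall (0 : ℂ)
  set R0 := max (max R1 (‖p‖ + δ)) 1 with hR0
  have hPR : ∀ z, P.eval z = 0 → ‖z‖ ≤ R0 := by
    intro z hz
    have : z ∈ closedBall (0 : ℂ) R1 := hR1 (by simp [hP0, hz])
    exact (by simpa using this : ‖z‖ ≤ R1).trans ((le_max_left _ _).trans (le_max_left _ _))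
  have hpR : ‖p‖ + δ ≤ R0 := (le_max_right _ _).trans (le_max_left _ _)
  have hR01 : 1 ≤ R0 := le_max_right _ _
  have key : ∀ k : ℕ, ∀ z, T ≤ x z → x z + k / 2 ≤ x ((NM P D)^[k] z) ∧
      ∃ B, 0 < B ∧ B ^ (2 * n) * x z ≤ x ((NM P D)^[k] z) ∧
        ∀ r, Good P p δ ((NM P D)^[k] z) r → Good P p δ z (r / B) := by
    intro k
    induction k with
    | zero => intro z _; exact ⟨by simp, 1, one_pos, by simp, fun r h => by simpa using h⟩
    | succ k ih =>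
      intro z hz
      obtain ⟨hD, h1, β, hβ, hN, h2⟩ := hstep z hz
      obtain ⟨h3, B, hB0, h4, h5⟩ := ih (NM P D z) (by linarith)
      rw [Function.iterate_succ_apply]
      refine ⟨by push_cast; linarith, B * β, by positivity, ?_, fun r h => ?_⟩
      · rw [mul_pow, mul_assoc]
        exact (mul_le_mul_of_nonneg_left h2 (by positivity)).trans h4
      · rw [← div_div]
        exact good_step P D hcov hcrit hB hD hβ hN (h5 r h)
  set M := 2 / δ * ‖w0 - p‖ ^ 2 with hM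
  have hM0 : 0 ≤ M := by positivity
  obtain ⟨k, hk⟩ := exists_nat_gt (2 * (A * (3 * R0) ^ n + A * (A * (2 * M) ^ (2 * n))))
  obtain ⟨h3, B, hB0, h4, h5⟩ := key k w0 hw0
  set w := (NM P D)^[k] w0
  set ρ := ‖w‖ with hρ
  have hρ0 : 0 ≤ ρ := norm_nonneg _
  have hxw := hx w
  have hc1 : 0 ≤ A * (3 * R0) ^ n := by positivity
  have hc2 : 0 ≤ A * (A * (2 * M) ^ (2 * n)) := by positivity
  have hbig : 3 * R0 < ρ := by
    by_contra hc
    have : ρ ^ n ≤ (3 * R0) ^ n := pow_le_pow_left₀ hρ0 (le_of_not_gt hc) n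
    have := mul_le_mul_of_nonneg_left this hA.le
    linarith
  have hg : Good P p δ w (ρ / 2) := good_far hPR hpR (by positivity) (by linarith)
  have h6 := good_bound hδ (h5 _ hg)
  rw [← hM, div_le_iff₀ hB0] at h6
  have h7 : ρ ≤ 2 * M * B := by linarith
  have h8 : ρ ^ (2 * n) ≤ (2 * M) ^ (2 * n) * B ^ (2 * n) := by
    rw [← mul_pow]; exact pow_le_pow_left₀ hρ0 h7 _
  have h9 : B ^ (2 * n) ≤ A * ρ ^ n := by
    have : B ^ (2 * n) * 1 ≤ B ^ (2 * n) * x w0 :=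
      mul_le_mul_of_nonneg_left (by linarith) (by positivity)
    linarith
  have hρp : 0 < ρ ^ n := pow_pos (by linarith) n
  have h10 : ρ ^ n * ρ ^ n ≤ (A * (2 * M) ^ (2 * n)) * ρ ^ n := by
    calc ρ ^ n * ρ ^ n = ρ ^ (2 * n) := by ring
      _ ≤ (2 * M) ^ (2 * n) * (A * ρ ^ n) :=
        h8.trans (mul_le_mul_of_nonneg_left h9 (by positivity))
      _ = _ := by ring
  have h11 : ρ ^ n ≤ A * (2 * M) ^ (2 * n) := le_of_mul_le_mul_right h10 hρp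
  have h12 := mul_le_mul_of_nonneg_left h11 hA.le
  linarith

end Pool.Agent.H19.Newt
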