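import Pool.Agent.H19.NewtB

set_option maxHeartbeats 400000

namespace Pool.Agent.H19.Newt

open Polynomial Filter Topology Set Metric Bornology

theorem ev_ne : ∀ᶠ z : ℂ in cobounded ℂ, z ≠ 0 := by
  have h : Tendsto (fun z : ℂ => ‖z‖) (cobounded ℂ) atTop := tendsto_norm_cobounded_atTop
  filter_upwards [h.eventually_gt_atTop 0] with z hz using norm_pos_iff.1 hz

theorem lim1 (F : ℂ[X]) (n : ℕ) (h : F.natDegree ≤ n) :
    Tendsto (fun z : ℂ => F.eval z / z ^ n) (cobounded ℂ) (𝓝 (F.coeff n)) := by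
  have hinv : Tendsto (fun z : ℂ => z⁻¹) (cobounded ℂ) (𝓝 0) := tendsto_inv₀_cobounded
  have h1 : Tendsto (fun z : ℂ => ∑ i ∈ Finset.range (n + 1), F.coeff i * (z⁻¹) ^ (n - i))
      (cobounded ℂ) (𝓝 (∑ i ∈ Finset.range (n + 1), F.coeff i * (0 : ℂ) ^ (n - i))) :=
    tendsto_finset_sum _ fun i _ => (hinv.pow _).const_mul _
  have h2 : ∑ i ∈ Finset.range (n + 1), F.coeff i * (0 : ℂ) ^ (n - i) = F.coeff n := by
    rw [Finset.sum_range_succ, Finset.sum_eq_zero]
    · simp
    · intro i hi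
      have : n - i ≠ 0 := by have := Finset.mem_range.1 hi; omega
      simp [this]
  rw [h2] at h1
  refine h1.congr' ?_
  filter_upwards [ev_ne] with z hz
  rw [eval_eq_sum_range' (n := n + 1) (by omega), Finset.sum_div]
  refine Finset.sum_congr rfl fun i hi => ?_
  obtain ⟨j, rfl⟩ : ∃ j, n = i + j := ⟨n - i, by have := Finset.mem_range.1 hi; omega⟩
  simp only [Nat.add_sub_cancel_left, pow_add, inv_pow]
  field_simp

theorem lim2 (F : ℂ[X]) (n : ℕ) (h : F.natDegree ≤ n) :
    Tendsto (fun z : ℂ => z * F.derivative.eval z / z ^ n) (cobounded ℂ) (𝓝 (n * F.coeff n)) := by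
  have hd : (X * F.derivative).natDegree ≤ n := by
    rw [natDegree_le_iff_coeff_eq_zero]
    intro N hN
    obtain ⟨j, rfl⟩ : ∃ j, N = j + 1 := ⟨N - 1, by omega⟩
    rw [coeff_X_mul, coeff_derivative, coeff_eq_zero_of_natDegree_lt (by omega), zero_mul]
  have h1 := lim1 _ n hd
  have h2 : (X * F.derivative).coeff n = n * F.coeff n := by
    cases n with
    | zero => simp
    | succ j => rw [coeff_X_mul, coeff_derivative]; push_cast; ring
  rw [h2] at h1
  simpa using h1

theorem pow_bound (L : ℕ) (y : ℝ) (hy : 0 ≤ y) (h : L * y ≤ 1) : (1 + y) ^ L ≤ 1 + 2 * (L * y) := by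
  have h1 : (1 + y) ^ L ≤ Real.exp (L * y) := by
    rw [Real.exp_nat_mul]
    exact pow_le_pow_left₀ (by linarith) (by linarith [Real.add_one_le_exp y]) L
  have h0 : 0 ≤ (L : ℝ) * y := by positivity
  have h2 := Real.abs_exp_sub_one_le (x := L * y) (by rwa [abs_of_nonneg h0])
  rw [abs_of_nonneg h0] at h2
  linarith [le_abs_self (Real.exp (L * y) - 1)]

theorem main (P Q : ℂ[X]) (hQ : Q ≠ 0) (hs : ∀ z, P.eval z = 0 → P.derivative.eval z ≠ 0)
    {p : ℂ} (hp : P.eval p = 0)
    (hcrit : ∀ z, (Q * P + P.derivative).eval z ≠ 0 → ND P (Q * P + P.derivative) z = 0 →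
      P.eval z = 0) : False := by
  set D := Q * P + P.derivative with hD
  have hP0 : P ≠ 0 := by rintro rfl; simpa using hs 0
  have hco : ∀ z, D.eval z = 0 → P.eval z ≠ 0 := by
    intro z h1 h2
    apply hs z h2
    simpa [hD, h2] using h1
  set m := Q.natDegree
  set k := P.natDegree
  set a := Q.leadingCoeff with ha
  set c := P.leadingCoeff with hc
  have ha0 : a ≠ 0 := leadingCoeff_ne_zero.2 hQ
  have hc0 : c ≠ 0 := leadingCoeff_ne_zero.2 hP0
  have hDdeg : D.natDegree ≤ m + k := by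
    refine (natDegree_add_le _ _).trans (max_le natDegree_mul_le ?_)
    have := natDegree_derivative_le P
    omega
  have hDc : D.coeff (m + k) = a * c := by
    rw [hD, coeff_add, coeff_mul_degree_add_degree, coeff_derivative,
      coeff_eq_zero_of_natDegree_lt (by omega), zero_mul, add_zero]
  have T1 := lim1 P k le_rfl
  have T2 := lim2 P k le_rfl
  have T3 := lim1 D _ hDdeg
  have T4 := lim2 D _ hDdeg
  rw [hDc] at T3 T4
  have hck : P.coeff k = c := rfl
  rw [hck] at T1 T2
  have hac : a * c ≠ 0 := mul_ne_zero ha0 hc0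
  have eD : ∀ᶠ z : ℂ in cobounded ℂ, D.eval z ≠ 0 := by
    filter_upwards [T3.eventually_ne hac] with z hz h0
    exact hz (by simp [h0])
  have G : Tendsto (fun z : ℂ => a * z ^ m * (P.eval z / D.eval z)) (cobounded ℂ) (𝓝 1) := by
    have := (T1.const_mul a).div T3 hac
    rw [div_self hac] at this
    refine this.congr' ?_
    filter_upwards [ev_ne, eD] with z hz hz2
    simp only [Pi.div_apply, pow_add]
    field_simp
  have G2 : Tendsto (fun z : ℂ => a * z ^ (m + 1) * (1 - ND P D z)) (cobounded ℂ) (𝓝 (-m)) := by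
    have := (((T2.mul T3).sub (T1.mul T4)).const_mul a).div (T3.pow 2) (pow_ne_zero 2 hac)
    have e : a * (k * c * (a * c) - c * (((m + k : ℕ) : ℂ) * (a * c))) / (a * c) ^ 2 = -m := by
      push_cast; field_simp; ring
    rw [e] at this
    refine this.congr' ?_
    filter_upwards [ev_ne, eD] with z hz hz2
    simp only [Pi.div_apply, pow_add, ND]
    field_simp
    ring
  have U : Tendsto (fun z : ℂ => P.eval z / D.eval z / z) (cobounded ℂ) (𝓝 0) := by
    have hinv : Tendsto (fun z : ℂ => z⁻¹) (cobounded ℂ) (𝓝 0) := tendsto_inv₀_cobounded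
    have := G.mul ((hinv.pow (m + 1)).const_mul a⁻¹)
    simp only [ne_eq, Nat.add_eq_zero_iff, one_ne_zero, and_false, not_false_eq_true, zero_pow,
      mul_zero] at this
    refine this.congr' ?_
    filter_upwards [ev_ne, eD] with z hz hz2
    simp only [inv_pow, pow_succ]
    field_simp
  have G3 : Tendsto (fun z : ℂ => a * (NM P D z) ^ (m + 1) - a * z ^ (m + 1)) (cobounded ℂ)
      (𝓝 (-((m : ℂ) + 1))) := by
    have h1 : Tendsto (fun z : ℂ => ∑ i ∈ Finset.range (m + 1), (1 - P.eval z / D.eval z / z) ^ i)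
        (cobounded ℂ) (𝓝 (∑ i ∈ Finset.range (m + 1), (1 - 0 : ℂ) ^ i)) :=
      tendsto_finset_sum _ fun i _ => (U.const_sub 1).pow i
    have := (G.mul h1).neg
    simp only [sub_zero, one_pow, Finset.sum_const, Finset.card_range, nsmul_eq_mul, mul_one,
      one_mul, Nat.cast_add, Nat.cast_one] at this
    refine this.congr' ?_
    filter_upwards [ev_ne, eD] with z hz hz2
    have h2 := geom_sum_mul (1 - P.eval z / D.eval z / z) (m + 1)
    have h3 : NM P D z = z * (1 - P.eval z / D.eval z / z) := by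
      simp only [NM]; field_simp
    have h4 : P.eval z / D.eval z = z * (P.eval z / D.eval z / z) := by field_simp
    rw [h3, mul_pow]
    generalize P.eval z / D.eval z / z = u at *
    rw [h4]
    linear_combination (a * z ^ (m + 1)) * h2
  set ε : ℝ := 1 / (8 * ((m : ℝ) + 1)) with hε
  have hε0 : 0 < ε := by positivity
  have hn : Tendsto (fun z : ℂ => ‖z‖) (cobounded ℂ) atTop := tendsto_norm_cobounded_atTop
  have E := (((eD.and (hn.eventually_ge_atTop 1)).and (G.norm.eventually_le_const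
    (show ‖(1 : ℂ)‖ < 2 by simp))).and (Metric.tendsto_nhds.1 G2 ε hε0)).and
    (Metric.tendsto_nhds.1 G3 (1 / 2) (by norm_num))
  rw [← comap_norm_atTop, eventually_comap, eventually_atTop] at E
  obtain ⟨R, hR⟩ := E
  have hR' := fun z : ℂ => fun h : max R 0 ≤ ‖z‖ => hR _ ((le_max_left _ _).trans h) z rfl
  have hA : 0 < ‖a‖ := norm_pos_iff.2 ha0
  set T : ℝ := max (max 1 m) (‖a‖ * (max R 0) ^ (m + 1)) with hT
  have hT1 : 1 ≤ T := (le_max_left _ _).trans (le_max_left _ _)
  have hTm : (m : ℝ) ≤ T := (le_max_right _ _).trans (le_max_left _ _)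
  have hx : ∀ z : ℂ, -(a * z ^ (m + 1)).re ≤ ‖a‖ * ‖z‖ ^ (m + 1) := by
    intro z
    rw [← norm_pow, ← norm_mul]
    exact (neg_le_abs _).trans (Complex.abs_re_le_norm _)
  obtain ⟨w0, hw0⟩ := IsAlgClosed.exists_pow_nat_eq (-(T : ℂ) / a) (n := m + 1) (by omega)
  refine core P D hP0 hco ⟨max R 0, 2 / ‖a‖, fun z hz => ?_⟩ hcrit hp (by simp [hD, hp])
    (m + 1) (by omega) ‖a‖ hA (fun z => -(a * z ^ (m + 1)).re) hx T hT1 w0 ?_ ?_
  · obtain ⟨⟨⟨⟨-, h1⟩, h2⟩, -⟩, -⟩ := hR' z hz
    rw [norm_mul, norm_mul, norm_pow] at h2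
    rw [le_div_iff₀ hA]
    have h3 : 1 ≤ ‖z‖ ^ m := one_le_pow₀ h1
    have h4 : 0 ≤ ‖a‖ * ‖P.eval z / D.eval z‖ := by positivity
    nlinarith
  · have : a * w0 ^ (m + 1) = -(T : ℂ) := by rw [hw0]; field_simp
    simp [this]
  · intro z hz
    have hzR : max R 0 ≤ ‖z‖ := by
      have h1 : ‖a‖ * (max R 0) ^ (m + 1) ≤ ‖a‖ * ‖z‖ ^ (m + 1) :=
        ((le_max_right _ _).trans hz).trans (hx z)
      exact le_of_pow_le_pow_left₀ (by omega) (norm_nonneg _) (le_of_mul_le_mul_left h1 hA)
    obtain ⟨⟨⟨⟨h0, -⟩, -⟩, h2⟩, h3⟩ := hR' z hzR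
    rw [dist_eq_norm] at h2 h3
    set τ := a * z ^ (m + 1) with hτ
    set x := -τ.re with hxd
    have hx1 : 1 ≤ x := hT1.trans hz
    have hxm : (m : ℝ) ≤ x := hTm.trans hz
    have hs1 : x + 1 / 2 ≤ -(a * NM P D z ^ (m + 1)).re := by
      have := (Complex.re_le_norm _).trans h3.le
      simp only [Complex.sub_re, Complex.neg_re, Complex.add_re, Complex.natCast_re,
        Complex.one_re] at this
      have hm0 : (0 : ℝ) ≤ m := Nat.cast_nonneg m
      linarith
    have hτx : x ≤ ‖τ‖ := (neg_le_abs _).trans (Complex.abs_re_le_norm _)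
    have hτ0 : τ ≠ 0 := norm_pos_iff.1 (by linarith)
    refine ⟨h0, hs1, 1 + ε / x, by positivity, ?_, ?_⟩
    · have e : ND P D z = (τ + m) / τ - (τ * (1 - ND P D z) - -m) / τ := by
        field_simp; ring
      have h4 : ‖τ + m‖ ≤ ‖τ‖ := by
        refine le_of_sq_le_sq ?_ (norm_nonneg _)
        rw [Complex.sq_norm, Complex.sq_norm, Complex.normSq_apply, Complex.normSq_apply]
        simp only [Complex.add_re, Complex.natCast_re, Complex.add_im, Complex.natCast_im,
          add_zero]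
        have hm0 : (0 : ℝ) ≤ m := Nat.cast_nonneg m
        nlinarith
      rw [e]
      refine (norm_sub_le _ _).trans (add_le_add ?_ ?_)
      · rw [norm_div]; exact div_le_one_of_le₀ h4 (norm_nonneg _)
      · rw [norm_div]
        exact div_le_div₀ hε0.le h2.le (by linarith) hτx
    · have hL : ((2 * (m + 1) : ℕ) : ℝ) * (ε / x) = 1 / (4 * x) := by
        rw [hε]; push_cast; field_simp; ring
      have h5 := pow_bound (2 * (m + 1)) (ε / x) (by positivity) (by
        rw [hL, div_le_one (by linarith)]; linarith)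
      rw [hL] at h5
      have h6 : (1 + 2 * (1 / (4 * x))) * x = x + 1 / 2 := by field_simp; ring
      have h7 := mul_le_mul_of_nonneg_right h5 (show 0 ≤ x by linarith)
      linarith

theorem const_case (Q : ℂ[X]) (hQ : 0 < Q.natDegree)
    (h : ∀ z, Q.eval z ≠ 0 → (Q.derivative + Q ^ 2).eval z ≠ 0) : False := by
  classical
  have hQ0 : Q ≠ 0 := by rintro rfl; simp at hQ
  have hdeg : (Q.derivative + Q ^ 2).natDegree = 2 * Q.natDegree := by
    have := natDegree_derivative_le Q
    rw [natDegree_add_eq_right_of_natDegree_lt (by rw [natDegree_pow]; omega), natDegree_pow]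
  have hW0 : Q.derivative + Q ^ 2 ≠ 0 := by
    intro h0; rw [h0] at hdeg; simp at hdeg; omega
  have hd0 : Q.derivative ≠ 0 := by
    intro h0
    have := natDegree_eq_zero_of_derivative_eq_zero h0
    omega
  have hle : (Q.derivative + Q ^ 2).roots ≤ Q.roots := by
    rw [Multiset.le_iff_count]
    intro s
    rw [count_roots, count_roots]
    by_cases hs : Q.eval s = 0
    · by_contra hc
      have hk : 0 < rootMultiplicity s Q := (rootMultiplicity_pos hQ0).2 hs
      have h1 : (X - C s) ^ (rootMultiplicity s Q + 1) ∣ Q.derivative + Q ^ 2 :=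
        (le_rootMultiplicity_iff hW0).1 (by omega)
      have h2 : (X - C s) ^ (rootMultiplicity s Q + 1) ∣ Q ^ 2 := by
        refine (pow_dvd_pow _ (show rootMultiplicity s Q + 1 ≤ rootMultiplicity s Q * 2 by
          omega)).trans ?_
        rw [pow_mul]
        exact pow_dvd_pow_of_dvd (pow_rootMultiplicity_dvd Q s) 2
      have h3 := (le_rootMultiplicity_iff hd0).2 ((dvd_add_left h2).1 h1)
      have h4 := derivative_rootMultiplicity_of_root (p := Q) (t := s) hs
      omega
    · rw [rootMultiplicity_eq_zero (h s hs)]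
      exact Nat.zero_le _
  have h1 := Multiset.card_le_card hle
  rw [← (IsAlgClosed.splits (Q.derivative + Q ^ 2)).natDegree_eq_card_roots, hdeg] at h1
  have h2 := card_roots' Q
  omega

end Pool.Agent.H19.Newt
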