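import Mathlib

/-! `C_p` of the irrationals and its iterate do not embed into analytic spaces. -/

namespace Pool.Agent.H19.NoAn

open Set Filter Topology Function

set_option maxHeartbeats 400000

lemma seq_dc {α : Type*} [Nonempty α] (P : ℕ → (ℕ → α) → Prop)
    (hl : ∀ n f g, (∀ i < n, f i = g i) → P n f → P n g) (h0 : ∀ f, P 0 f)
    (hs : ∀ n f, P n f → ∃ a, P (n + 1) (update f n a)) : ∃ f, ∀ n, P n f := by
  choose! a ha using hs
  let F : ℕ → ℕ → α := fun n => Nat.rec (fun _ => Classical.arbitrary α)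
    (fun n f => update f n (a n f)) n
  have hF : ∀ n, F (n + 1) = update (F n) n (a n (F n)) := fun n => rfl
  have h1 : ∀ n, P n (F n) := fun n => Nat.rec (h0 _) (fun n ih => ha n _ ih) n
  have h2 : ∀ n, ∀ i < n, F n i = F (i + 1) i := by
    intro n
    induction n with
    | zero => simp
    | succ n ih =>
      intro i hi
      rcases (Nat.lt_succ_iff.1 hi).eq_or_lt with rfl | h
      · rfl
      · rw [hF, update_of_ne h.ne, ih i h]
  exact ⟨fun i => F (i + 1) i, fun n => hl n _ _ (h2 n) (h1 n)⟩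

/-- Shrinking boxes around integer sequences. -/
def U (n : ℕ) (b : ℕ → ℕ) : Set (ℕ → ℝ) := {z | ∀ i < n, |z i - b i| < 1 / (n + 1)}

lemma U_open (n : ℕ) (b : ℕ → ℕ) : IsOpen (U n b) := by
  simp only [U, setOf_forall]
  exact (finite_lt_nat n).isOpen_biInter fun i _ => isOpen_lt (by fun_prop) continuous_const

lemma U_congr {n : ℕ} {b c : ℕ → ℕ} (h : ∀ i < n, b i = c i) : U n b = U n c := by
  ext z
  exact forall₂_congr fun i hi => by rw [h i hi]

lemma U_succ {n j : ℕ} {b : ℕ → ℕ} {z : ℕ → ℝ} (h : z ∈ U (n + 1) (update b n j)) :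
    z ∈ U n b ∧ |z n - j| < 1 / 2 := by
  have h1 : (1 : ℝ) / ((n + 1 : ℕ) + 1) ≤ 1 / (n + 1) := by
    gcongr; simp
  have h2 : (1 : ℝ) / ((n + 1 : ℕ) + 1) ≤ 1 / 2 := by
    gcongr; push_cast; linarith [Nat.cast_nonneg (α := ℝ) n]
  refine ⟨fun i hi => ?_, ?_⟩
  · have := h i (by omega)
    rw [update_of_ne hi.ne] at this
    exact this.trans_le h1
  · have := h n (by omega)
    rw [update_self] at this
    exact this.trans_le h2

/-- Fullness of a set of codes on a box. -/
def Full (R : (ℕ → ℕ) → C(ℕ → ℝ, ℝ) → Prop) (k n : ℕ) (b : ℕ → ℕ) (N : Set (ℕ → ℕ)) : Prop :=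
  ∀ g : C(ℕ → ℝ, ℝ), (∀ z ∉ U n b, g z = 0) → ∃ s ∈ N, ∃ f : C(ℕ → ℝ, ℝ),
    (∀ z ∉ U k b, f z = 0) ∧ R s f ∧ ∀ z ∈ U n b, f z = g z

variable {R : (ℕ → ℕ) → C(ℕ → ℝ, ℝ) → Prop}

lemma step {k n : ℕ} {b : ℕ → ℕ} {N : Set (ℕ → ℕ)} (h : Full R k n b N) (hk : k ≤ n) (m : ℕ) :
    ∃ i, ∀ᶠ j in atTop, Full R k (n + 1) (update b n j) (N ∩ {s | s m = i}) := by
  by_contra h1
  simp only [not_exists, not_eventually] at h1
  obtain ⟨j, hj, h2⟩ := extraction_forall_of_frequently h1
  simp only [Full, not_forall] at h2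
  choose g hg hg' using h2
  have h3 : ∀ i z, g i z ≠ 0 → z ∈ U (n + 1) (update b n (j i)) := fun i z hz =>
    not_not.1 fun h => hz (hg i z h)
  have h4 : Continuous fun z => ∑ᶠ i, g i z := by
    refine continuous_finsum (fun i => (g i).continuous) fun z => ⟨{w | w n < z n + 1},
      (isOpen_lt (continuous_apply n) continuous_const).mem_nhds (lt_add_one (z n)),
      ((finite_lt_nat ⌈z n + 2⌉₊).preimage hj.injective.injOn).subset ?_⟩
    rintro i ⟨w, hw, hw'⟩
    have h5 := abs_lt.1 (U_succ (h3 i w hw)).2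
    exact Nat.lt_ceil.2 (by linarith [show w n < z n + 1 from hw'])
  obtain ⟨s, hs, f, hf, hR, hf'⟩ := h ⟨_, h4⟩ fun z hz => finsum_eq_zero_of_forall_eq_zero
    fun i => not_not.1 fun h => hz (U_succ (h3 i z h)).1
  refine hg' (s m) ⟨s, ⟨hs, rfl⟩, f, ?_, hR, fun z hz => (hf' z (U_succ hz).1).trans ?_⟩
  · rwa [U_congr (c := b) fun i hi => update_of_ne (by omega) _ _]
  · refine finsum_eq_single _ (s m) fun i hi => not_not.1 fun h => hi (hj.injective ?_)
    have h5 := abs_lt.1 (U_succ (h3 i z h)).2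
    have h6 := abs_lt.1 (U_succ hz).2
    have h7 : (j i : ℝ) < j (s m) + 1 := by linarith
    have h8 : (j (s m) : ℝ) < j i + 1 := by linarith
    norm_cast at h7 h8
    omega

lemma play (hR : ∀ f, ∃ s, R s f) : ∃ (b : ℕ → ℕ) (S : ℕ → ℕ → ℕ), ∀ k n, k ≤ n →
    Full R k n b {s | ∀ i, k + i < n → s i = S k i} := by
  have h0 : ∀ k b N, (∀ s, s ∈ N) → Full R k k b N := fun k b N hN g hg =>
    (hR g).imp fun s hs => ⟨hN s, g, hg, hs, fun _ _ => rfl⟩
  obtain ⟨f, hf⟩ := seq_dc (fun n (f : ℕ → ℕ × (ℕ → ℕ)) => ∀ k ≤ n,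
    Full R k n (fun i => (f i).1) {s | ∀ i, k + i < n → s i = (f (k + i)).2 k})
    (fun n f g h hf k hk => by
      have h1 : ∀ m ≤ n, U m (fun i => (g i).1) = U m fun i => (f i).1 := fun m hm =>
        U_congr fun i hi => by rw [h i (by omega)]
      intro u hu
      rw [h1 n le_rfl] at hu
      rw [h1 n le_rfl, h1 k hk]
      obtain ⟨s, hs, h2⟩ := hf k hk u hu
      exact ⟨s, fun i hi => h _ hi ▸ hs i hi, h2⟩)
    (fun f k hk => by
      obtain rfl : k = 0 := by omega
      exact h0 _ _ _ fun s i hi => by omega)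
    (fun n f hf => by
      choose! c hc using fun k (hk : k ≤ n) => step (hf k hk) hk (n - k)
      obtain ⟨j, hj⟩ := (((finite_le_nat n).eventually_all (l := atTop)).2 hc).exists
      refine ⟨(j, c), fun k hk => ?_⟩
      rcases hk.eq_or_lt with rfl | hk
      · exact h0 _ _ _ fun s i hi => by omega
      have h1 : (fun i => (update f n (j, c) i).1) = update (fun i => (f i).1) n j := by
        funext i
        by_cases h : i = n
        · simp [h]
        · simp [h]
      rw [h1]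
      intro u hu
      obtain ⟨s, hs, h2⟩ := hj k (Nat.lt_succ_iff.1 hk) u hu
      refine ⟨s, fun i hi => ?_, h2⟩
      by_cases h : k + i = n
      · rw [h, update_self, show i = n - k by omega]
        exact hs.2
      · rw [update_of_ne h]
        exact hs.1 i (by omega))
  exact ⟨_, fun k i => (f (k + i)).2 k, fun k n hk => hf n k hk⟩

theorem main {Z A : Type*} [TopologicalSpace Z] [TopologicalSpace A] [RegularSpace A]
    {q : Z → ℕ → ℝ} (hq : Continuous q) (hq' : ∀ b : ℕ → ℕ, ∃ z, q z = fun i => (b i : ℝ))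
    {G : (ℕ → ℕ) → A} (hG : Continuous G) (hG' : Surjective G)
    {e : {f : Z → ℝ // Continuous f} → A} (he : IsInducing e) : False := by
  obtain ⟨b, S, h⟩ := play (R := fun s f => G s = e ⟨f ∘ q, f.continuous.comp hq⟩) fun f => hG' _
  obtain ⟨z, hz⟩ := hq' b
  have hb : ∀ n, q z ∈ U n b := fun n i _ => by
    simpa [hz] using Nat.cast_add_one_pos (α := ℝ) n
  have h1 : e ⟨0, continuous_const⟩ ∉ closure (e '' {h | h.1 z = 1}) := by
    rw [← mem_preimage, ← he.closure_eq_preimage_closure_image]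
    exact fun h0 => zero_ne_one ((isClosed_eq ((continuous_apply z).comp continuous_subtype_val)
      continuous_const).closure_subset h0)
  obtain ⟨t, ht, htc, hts⟩ := exists_mem_nhds_isClosed_subset
    (isClosed_closure.isOpen_compl.mem_nhds h1)
  have h2 := he.continuous.continuousAt ht
  rw [mem_map, nhds_subtype, mem_comap, nhds_pi] at h2
  obtain ⟨V, hV, hVt⟩ := h2
  obtain ⟨F, W, hW, hWV⟩ := Filter.mem_pi'.1 hV
  have h3 : ∀ᶠ k in atTop, ∀ y ∈ F, q y ∈ U k b → q y = q z := by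
    refine (eventually_all_finset F).2 fun y _ => ?_
    by_cases hy : q y = q z
    · exact Eventually.of_forall fun _ _ => hy
    obtain ⟨i, hi⟩ := ne_iff.1 hy
    rw [hz] at hi
    filter_upwards [eventually_gt_atTop i, tendsto_one_div_add_atTop_nhds_zero_nat.eventually_lt_const
      (abs_pos.2 (sub_ne_zero.2 hi))] with k hk hk' h
    exact absurd (h i hk) hk'.not_gt
  obtain ⟨k, hk⟩ := h3.exists
  have h4 : ∀ C : Set A, IsClosed C → (∀ n, ∃ s, (∀ i < n, s i = S k i) ∧ G s ∈ C) →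
      G (S k) ∈ C := by
    intro C hC hs
    choose s hs hs' using hs
    refine hC.mem_of_tendsto (b := atTop) ((hG.tendsto _).comp (tendsto_pi_nhds.2 fun i => ?_))
      (Eventually.of_forall hs')
    exact tendsto_const_nhds.congr' ((eventually_gt_atTop i).mono fun n hn => (hs n i hn).symm)
  refine hts (h4 t htc fun n => ?_) (h4 _ isClosed_closure fun n => ?_)
  · obtain ⟨s, hs, f, hf, hR, hf'⟩ := h k (k + n) (by omega) 0 fun _ _ => rfl
    refine ⟨s, fun i hi => hs i (by omega), hR ▸ hVt (hWV fun y hy => ?_)⟩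
    have : f (q y) = 0 := by
      by_cases h5 : q y ∈ U k b
      · rw [hk y hy h5]; exact hf' _ (hb _)
      · exact hf _ h5
    exact mem_of_eq_of_mem this (mem_of_mem_nhds (hW y))
  · obtain ⟨g, hg0, hg1, -⟩ := exists_continuous_zero_one_of_isClosed
      (U_open (k + n) b).isClosed_compl (isClosed_singleton (x := q z))
      (disjoint_singleton_right.2 fun h => h (hb _))
    obtain ⟨s, hs, f, -, hR, hf'⟩ := h k (k + n) (by omega) g fun z hz => hg0 hz
    exact ⟨s, fun i hi => hs i (by omega), hR ▸ subset_closure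
      (mem_image_of_mem _ ((hf' _ (hb _)).trans (hg1 rfl)))⟩

/-- The irrationals. -/
abbrev Irr : Type := {x : ℝ // Irrational x}

lemma q_iter : ∃ q : {f : Irr → ℝ // Continuous f} → ℕ → ℝ, Continuous q ∧
    ∀ b : ℕ → ℕ, ∃ z, q z = fun i => (b i : ℝ) := by
  refine ⟨fun f n => f.1 ⟨√2 + n, irrational_sqrt_two.add_natCast n⟩, continuous_pi fun n =>
    (continuous_apply _).comp continuous_subtype_val, fun b => ?_⟩
  obtain ⟨g, hg⟩ := ContinuousMap.exists_extension Nat.isClosedEmbedding_coe_real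
    (⟨fun i => (b i : ℝ), continuous_of_discreteTopology⟩ : C(ℕ, ℝ))
  exact ⟨⟨fun x => g (x.1 - √2), by fun_prop⟩, funext fun n => by
    simpa using DFunLike.congr_fun hg n⟩

/-- The Gauss map. -/
noncomputable def gauss (x : Irr) : Irr :=
  ⟨Int.fract x.1⁻¹, x.2.inv.sub_intCast _⟩

lemma gauss_cont : Continuous gauss := by
  refine Continuous.subtype_mk (continuous_iff_continuousAt.2 fun x => ?_) _
  exact (continuousAt_fract (x.2.inv.ne_int _)).comp (f := fun x : Irr => x.1⁻¹)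
    (continuous_subtype_val.continuousAt.inv₀ x.2.ne_zero)

lemma exists_cf (b : ℕ → ℕ) : ∃ x : ℕ → ℝ, ∀ n, x n ∈ Icc (0 : ℝ) 1 ∧
    x n * (b n + 1 + x (n + 1)) = 1 := by
  have h1 : ∀ N, ∀ b : ℕ → ℕ, ∃ x : ℕ → ℝ, (∀ n, x n ∈ Icc (0 : ℝ) 1) ∧
      ∀ n < N, x n * (b n + 1 + x (n + 1)) = 1 := by
    intro N
    induction N with
    | zero => exact fun _ => ⟨0, by simp, by simp⟩
    | succ N ih =>
      intro b
      obtain ⟨x, hx, hx'⟩ := ih fun n => b (n + 1)
      have h2 : (1 : ℝ) ≤ b 0 + 1 + x 0 := by linarith [(hx 0).1, Nat.cast_nonneg (α := ℝ) (b 0)]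
      refine ⟨fun n => Nat.casesOn n (b 0 + 1 + x 0)⁻¹ x, fun n => ?_, fun n hn => ?_⟩
      · cases n with
        | zero => exact ⟨inv_nonneg.2 (zero_le_one.trans h2), inv_le_one_of_one_le₀ h2⟩
        | succ n => exact hx n
      · cases n with
        | zero => exact inv_mul_cancel₀ (by linarith)
        | succ n => exact hx' n (by omega)
  choose x hx hx' using fun N => h1 N b
  obtain ⟨y, hy, hy'⟩ := (isCompact_univ_pi fun _ : ℕ => isCompact_Icc (a := (0 : ℝ))
    (b := 1)).exists_mapClusterPt (f := atTop) (u := x)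
    (le_principal_iff.2 (mem_map.2 (Eventually.of_forall fun N n _ => hx N n)))
  refine ⟨y, fun n => ⟨hy n trivial, ?_⟩⟩
  exact (isClosed_eq (f := fun y : ℕ → ℝ => y n * (b n + 1 + y (n + 1))) (by fun_prop)
    continuous_const).closure_subset (mem_closure_iff_clusterPt.2 (hy'.clusterPt.mono
      (le_principal_iff.2 (mem_map.2 ((eventually_gt_atTop n).mono fun N hN => hx' N n hN)))))

lemma q_irr : ∃ q : Irr → ℕ → ℝ, Continuous q ∧ ∀ b : ℕ → ℕ, ∃ z, q z = fun i => (b i : ℝ) := by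
  refine ⟨fun x n => (gauss^[n] x).1⁻¹ - (gauss^[n + 1] x).1 - 1, continuous_pi fun n =>
    (((continuous_subtype_val.comp (gauss_cont.iterate n)).inv₀ fun x => (gauss^[n] x).2.ne_zero).sub
      (continuous_subtype_val.comp (gauss_cont.iterate (n + 1)))).sub continuous_const, fun b => ?_⟩
  obtain ⟨x, hx⟩ := exists_cf b
  have h0 : ∀ n, 0 < x n := fun n => (hx n).1.1.lt_of_ne fun h => by simpa [← h] using (hx n).2
  have h1 : ∀ n, (x n)⁻¹ = b n + 1 + x (n + 1) := fun n => inv_eq_of_mul_eq_one_right (hx n).2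
  have h2 : ∀ n, x n < 1 := fun n => (one_lt_inv₀ (h0 n)).1 (by
    rw [h1]; linarith [h0 (n + 1), Nat.cast_nonneg (α := ℝ) (b n)])
  have h3 : ∀ (d : ℕ) (r : ℚ) (n : ℕ), r.den ≤ d → (r : ℝ) ≠ x n := by
    intro d
    induction d with
    | zero => exact fun r n h => absurd r.den_pos (by omega)
    | succ d ih =>
      intro r n hr h
      have h4 : 0 < r := by exact_mod_cast h ▸ h0 n
      have h5 : r < 1 := by exact_mod_cast h ▸ h2 n
      refine ih (r⁻¹ - (b n + 1 : ℕ)) (n + 1) ?_ (by push_cast; rw [h, h1]; ring)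
      rw [Rat.sub_natCast_den, Rat.den_inv, if_neg (Rat.num_pos.2 h4).ne']
      have h6 := Rat.num_lt_denom_iff.2 h5
      have h7 := Rat.num_pos.2 h4
      omega
  have h4 : ∀ n, Irrational (x n) := fun n ⟨r, hr⟩ => h3 _ r n le_rfl hr
  have h5 : ∀ n, gauss^[n] ⟨x 0, h4 0⟩ = ⟨x n, h4 n⟩ := by
    intro n
    induction n with
    | zero => rfl
    | succ n ih =>
      rw [iterate_succ_apply', ih]
      refine Subtype.ext ?_
      show Int.fract (x n)⁻¹ = x (n + 1)
      rw [h1, ← Nat.cast_succ, Int.fract_natCast_add, Int.fract_eq_self.2 ⟨(h0 _).le, h2 _⟩]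
  exact ⟨⟨x 0, h4 0⟩, funext fun n => by simp only [h5, h1]; ring⟩

lemma irr_an : ∃ f : (ℕ → ℕ) → Irr, Continuous f ∧ Surjective f := by
  have h := IsGδ.setOf_irrational.measurableSet.analyticSet
  rw [MeasureTheory.AnalyticSet] at h
  rcases h with h | ⟨f, hf, h⟩
  · exact absurd (h.le irrational_sqrt_two) id
  · exact ⟨fun s => ⟨f s, h.le (mem_range_self s)⟩, hf.subtype_mk _, fun x =>
      (h.ge x.2).imp fun s hs => Subtype.ext hs⟩

end Pool.Agent.H19.NoAn
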