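import Pool.Agent.H19.LsA

/-! A space with a retraction is `l`-equivalent to a wedge; generalized Mrowka spaces. -/

namespace Pool.Agent.H19.Oku

open Set Filter Topology Pool.Agent.H19.Ls

universe u

section Okunev
variable {Z : Type u} [TopologicalSpace Z] (r : C(Z, Z))

/-- Functions vanishing on the retract. -/
abbrev Vn := {f : C(Z, ℝ) // ∀ z, f (r z) = 0}

/-- Evaluation. -/
def ev (z : Z) : Vn r → ℝ := fun f => f.1 z

lemma ev_cont : Continuous (ev r) := continuous_pi fun f => f.1.continuous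

lemma ev_r (z : Z) : ev r (r z) = 0 := funext fun f => f.2 z

/-- The wedge of the quotient and the retract. -/
abbrev Wg (x0 : Z) :=
  {p : (Vn r → ℝ) × Z // (p.1 = 0 ∧ r p.2 = p.2) ∨ (p.1 ∈ range (ev r) ∧ p.2 = r x0)}

/-- The map onto the quotient part of the wedge. -/
def qt (x0 : Z) : C(Z, Wg r x0) :=
  ⟨fun z => ⟨(ev r z, r x0), Or.inr ⟨mem_range_self z, rfl⟩⟩,
    ((ev_cont r).prodMk continuous_const).subtype_mk _⟩

theorem okunev (hr : ∀ z, r (r z) = r z) (x0 : Z) :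
    ∃ T : C(Z, ℝ) ≃ₗ[ℝ] C(Wg r x0, ℝ), PC T ∧ PC T.symm := by
  set a : C(Z, Wg r x0) := ⟨fun z => ⟨(0, r z), Or.inl ⟨rfl, hr z⟩⟩, by fun_prop⟩ with ha
  set b : C(Z, Wg r x0) := ⟨fun _ => ⟨(0, r x0), Or.inl ⟨rfl, hr x0⟩⟩, by fun_prop⟩ with hb
  set d : C(Z, ℝ) → Vn r := fun f => ⟨f - f.comp r, fun z => by simp [hr]⟩ with hd
  have hq : ∀ p : Wg r x0, ∃ z, p.1.1 = ev r z := by
    rintro ⟨p, h | h⟩
    · exact ⟨r x0, h.1.trans (ev_r r x0).symm⟩
    · obtain ⟨z, hz⟩ := h.1; exact ⟨z, hz.symm⟩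
  set S : C(Z, ℝ) →ₗ[ℝ] C(Wg r x0, ℝ) :=
    { toFun := fun f => ⟨fun p => f p.1.2 + p.1.1 (d f), by fun_prop⟩
      map_add' := fun f g => by
        ext p
        obtain ⟨z, hz⟩ := hq p
        simp [hz, hd, ev]; ring
      map_smul' := fun t g => by
        ext p
        obtain ⟨z, hz⟩ := hq p
        simp [hz, hd, ev]; ring } with hS
  have hqr : ∀ z, qt r x0 (r z) = ⟨(0, r x0), Or.inl ⟨rfl, hr x0⟩⟩ := fun z =>
    Subtype.ext (Prod.ext (ev_r r z) rfl)
  refine ⟨LinearEquiv.ofLinear S (comb a b (qt r x0)) ?_ ?_, ?_, pc_comb _ _ _⟩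
  · refine LinearMap.ext fun g => ?_
    ext ⟨⟨q, x⟩, h⟩
    rcases id h with ⟨h1, h2⟩ | ⟨⟨z, h1⟩, h2⟩
    · obtain rfl : q = 0 := h1
      have h3 : r x = x := h2
      have h4 := hqr x
      rw [h3] at h4
      simp [comb, hS, ha, hb, h3, h4]
    · obtain rfl : ev r z = q := h1
      obtain rfl : x = r x0 := h2
      have h4 : g ⟨(ev r z, r x0), h⟩ = g (qt r x0 z) := rfl
      show comb a b (qt r x0) g (r x0) + (comb a b (qt r x0) g z - comb a b (qt r x0) g (r z)) =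
        g ⟨(ev r z, r x0), h⟩
      rw [h4]
      simp [comb, ha, hb, hqr, hr]
      ring
  · refine LinearMap.ext fun f => ?_
    ext z
    simp [comb, hS, ha, hb, hd, qt, ev]
    ring
  · letI : TopologicalSpace C(Z, ℝ) :=
      TopologicalSpace.induced (fun f : C(Z, ℝ) => (f : Z → ℝ)) inferInstance
    have h : ∀ x, Continuous fun f : C(Z, ℝ) => f x := fun x =>
      (continuous_apply x).comp continuous_induced_dom
    refine continuous_induced_rng.2 (continuous_pi fun p => ?_)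
    obtain ⟨z, hz⟩ := hq p
    show Continuous fun f : C(Z, ℝ) => f p.1.2 + p.1.1 (d f)
    rw [hz]
    exact (h _).add ((h _).sub (h _))

end Okunev

section Conv
variable {A B : Type*} [TopologicalSpace A] [TopologicalSpace B]

lemma pc_sub {T : C(A, ℝ) → C(B, ℝ)} (h : PC T) :
    Continuous fun f : {f : A → ℝ // Continuous f} =>
      (⟨T ⟨f.1, f.2⟩, map_continuous _⟩ : {g : B → ℝ // Continuous g}) := by
  have h2 := continuous_induced_rng.1 h
  refine Continuous.subtype_mk ?_ _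
  exact @Continuous.comp _ _ _ _
    (TopologicalSpace.induced (fun f : C(A, ℝ) => (f : A → ℝ)) inferInstance) _
    (fun f : {f : A → ℝ // Continuous f} => (⟨f.1, f.2⟩ : C(A, ℝ))) _ h2
    (continuous_induced_rng.2 continuous_subtype_val)

/-- The homeomorphism of function spaces given by a linear equivalence. -/
def toHomeo (T : C(A, ℝ) ≃ₗ[ℝ] C(B, ℝ)) (h : PC T) (h' : PC T.symm) :
    {f : A → ℝ // Continuous f} ≃ₜ {g : B → ℝ // Continuous g} where
  toFun f := ⟨T ⟨f.1, f.2⟩, map_continuous _⟩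
  invFun f := ⟨T.symm ⟨f.1, f.2⟩, map_continuous _⟩
  left_inv f := Subtype.ext (congrArg DFunLike.coe (T.symm_apply_apply ⟨f.1, f.2⟩))
  right_inv f := Subtype.ext (congrArg DFunLike.coe (T.apply_symm_apply ⟨f.1, f.2⟩))
  continuous_toFun := pc_sub h
  continuous_invFun := pc_sub h'

lemma pc_unif {T : C(A, ℝ) →ₗ[ℝ] C(B, ℝ)} (h : PC T) (E : Finset B) (ε : ℝ) (hε : 0 < ε) :
    ∃ G : Finset A, ∃ δ : ℝ, 0 < δ ∧ ∀ f g : C(A, ℝ), (∀ x ∈ G, |f x - g x| < δ) →
      ∀ y ∈ E, |T f y - T g y| < ε := by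
  letI : TopologicalSpace C(A, ℝ) :=
    TopologicalSpace.induced (fun f : C(A, ℝ) => (f : A → ℝ)) inferInstance
  have h1 : ∀ y, Continuous fun f : C(A, ℝ) => T f y := fun y =>
    (continuous_apply y).comp (continuous_induced_rng.1 h)
  have h2 : ∀ᶠ f in 𝓝 (0 : C(A, ℝ)), ∀ y ∈ E, |T f y| < ε :=
    (eventually_all_finset E).2 fun y _ => (h1 y).abs.continuousAt.eventually_lt
      continuousAt_const (by simpa using hε)
  rw [nhds_induced, Filter.Eventually, mem_comap] at h2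
  obtain ⟨V, hV, hVO⟩ := h2
  rw [nhds_pi, Filter.mem_pi] at hV
  obtain ⟨F, hF, W, hW, hWV⟩ := hV
  have h3 : (⋂ a ∈ F, W a) ∈ 𝓝 (0 : ℝ) := (biInter_mem hF).2 fun a _ => hW a
  obtain ⟨δ, hδ, hδ'⟩ := Metric.mem_nhds_iff.1 h3
  refine ⟨hF.toFinset, δ, hδ, fun f g hfg y hy => ?_⟩
  have h4 := hVO (a := f - g) (hWV fun a ha => mem_iInter₂.1 (hδ' (by
    simpa using hfg a (hF.mem_toFinset.2 ha))) a ha) y hy
  simpa using h4

end Conv

/-- Data of a generalized Mrowka space. -/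
structure PData (N J : Type u) where
  F : J → Filter N
  B : J → Set N
  hB : ∀ j, B j ∈ F j
  hBB : ∀ j k, j ≠ k → (B j)ᶜ ∈ F k
  hfree : ∀ j n, {n}ᶜ ∈ F j

variable {N J : Type u} (D : PData N J)

/-- The generalized Mrowka space. -/
def PData.Sp (_ : PData N J) : Type u := N ⊕ J

/-- Isolated points. -/
def PData.l (n : N) : D.Sp := Sum.inl n

/-- Limit points. -/
def PData.k (j : J) : D.Sp := Sum.inr j

instance : TopologicalSpace D.Sp where
  IsOpen U := ∀ j, D.k j ∈ U → D.l ⁻¹' U ∈ D.F j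
  isOpen_univ := fun _ _ => univ_mem
  isOpen_inter := fun _ _ h h' j hj => inter_mem (h j hj.1) (h' j hj.2)
  isOpen_sUnion := fun _ h j ⟨t, ht, hj⟩ =>
    mem_of_superset (h t ht j hj) fun _ hn => ⟨t, ht, hn⟩

lemma PData.isOpen_iff {U : Set D.Sp} : IsOpen U ↔ ∀ j, D.k j ∈ U → D.l ⁻¹' U ∈ D.F j := Iff.rfl

lemma PData.cases (x : D.Sp) : (∃ n, x = D.l n) ∨ ∃ j, x = D.k j := by
  rcases x with n | j
  · exact Or.inl ⟨n, rfl⟩
  · exact Or.inr ⟨j, rfl⟩

lemma PData.l_ne_k (n : N) (j : J) : D.l n ≠ D.k j := Sum.inl_ne_inr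
lemma PData.l_inj : Function.Injective D.l := Sum.inl_injective
lemma PData.k_inj : Function.Injective D.k := Sum.inr_injective

lemma PData.tendsto (j : J) : Tendsto D.l (D.F j) (𝓝 (D.k j)) :=
  tendsto_nhds.2 fun _ hU hj => hU j hj

lemma PData.cont {Y : Type*} [TopologicalSpace Y] {f : D.Sp → Y}
    (h : ∀ j, Tendsto (fun n => f (D.l n)) (D.F j) (𝓝 (f (D.k j)))) : Continuous f :=
  ⟨fun _ hU j hj => h j (hU.mem_nhds hj)⟩

lemma PData.clopen (j : J) {S : Set N} (hS : S ∈ D.F j) (hSB : S ⊆ D.B j) :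
    IsClopen (insert (D.k j) (D.l '' S)) := by
  refine ⟨isOpen_compl_iff.1 fun i hi => mem_of_superset (D.hBB j i ?_) ?_, fun i hi => ?_⟩
  · rintro rfl; exact hi (mem_insert _ _)
  · rintro n hn (h | ⟨m, hm, h⟩)
    · exact D.l_ne_k _ _ h
    · exact hn (D.l_inj h ▸ hSB hm)
  · rcases hi with h | ⟨m, -, h⟩
    · rw [D.k_inj h]; exact mem_of_superset hS fun n hn => Or.inr ⟨n, hn, rfl⟩
    · exact absurd h (D.l_ne_k _ _)

lemma PData.exists_clopen (x : D.Sp) {O : Set D.Sp} (hO : IsOpen O) (hx : x ∈ O) :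
    ∃ U, IsClopen U ∧ x ∈ U ∧ U ⊆ O := by
  rcases D.cases x with ⟨n, rfl⟩ | ⟨j, rfl⟩
  · refine ⟨{D.l n}, ⟨isOpen_compl_iff.1 fun i _ => mem_of_superset (D.hfree i n)
      fun m hm h => hm (D.l_inj h), fun i hi => absurd hi.symm (D.l_ne_k _ _)⟩, rfl,
      singleton_subset_iff.2 hx⟩
  · refine ⟨_, D.clopen j (inter_mem (D.hB j) (hO j hx)) inter_subset_left, mem_insert _ _, ?_⟩
    rintro _ (rfl | ⟨m, hm, rfl⟩)
    · exact hx
    · exact hm.2

instance : T1Space D.Sp := ⟨fun x => isOpen_compl_iff.1 fun j _ => by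
  rcases D.cases x with ⟨n, rfl⟩ | ⟨i, rfl⟩
  · exact mem_of_superset (D.hfree j n) fun m hm h => hm (D.l_inj h)
  · exact univ_mem' fun m h => D.l_ne_k _ _ h⟩

instance : CompletelyRegularSpace D.Sp := ⟨fun x K hK hx => by
  classical
  obtain ⟨U, hU, hxU, hUK⟩ := D.exists_clopen x hK.isOpen_compl hx
  refine ⟨fun y => if y ∈ U then 0 else 1, ?_, if_pos hxU, fun y hy => if_neg fun h => hUK h hy⟩
  exact continuous_const.if (by simp [hU.frontier_eq]) continuous_const⟩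

instance : T35Space D.Sp := {}

lemma PData.bump (j : J) : ∃ f : C(D.Sp, ℝ), f (D.k j) = 1 ∧ (∀ i, i ≠ j → f (D.k i) = 0) ∧
    ∀ n, n ∉ D.B j → f (D.l n) = 0 := by
  classical
  have hU := D.clopen j (D.hB j) Subset.rfl
  refine ⟨⟨fun y => if y ∈ insert (D.k j) (D.l '' D.B j) then 1 else 0,
    continuous_const.if (by simp only [setOf_mem_eq, hU.frontier_eq]; simp) continuous_const⟩,
    if_pos (mem_insert _ _), fun i hi => if_neg ?_, fun n hn => if_neg ?_⟩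
  · rintro (h | ⟨m, -, h⟩)
    · exact hi (D.k_inj h)
    · exact D.l_ne_k _ _ h
  · rintro (h | ⟨m, hm, h⟩)
    · exact D.l_ne_k _ _ h
    · exact hn (D.l_inj h ▸ hm)

end Pool.Agent.H19.Oku
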