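import Pool.Agent.H19.Oku
import Pool.Agent.H19.LsB

/-! Perfectness is not preserved by `l`-equivalence. -/

namespace Pool.Agent.H19.Oku

open Set Filter Topology Pool.Agent.H19.Ls

lemma of_gdelta {Z : Type*} [TopologicalSpace Z] (r : C(Z, Z)) (x0 : Z)
    (h : IsGδ {p : Wg r x0 | p.1.1 = 0}) :
    ∃ c : ℕ → Vn r, ∀ z, (∀ n, (c n).1 z = 0) → ev r z = 0 := by
  obtain ⟨U, hU, hUe⟩ := isGδ_iff_eq_iInter_nat.1 h
  have h1 : ∀ n, ∃ F : Set (Vn r), F.Finite ∧ ∀ z, (∀ f ∈ F, f.1 z = 0) → qt r x0 z ∈ U n := by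
    intro n
    obtain ⟨O, hO, hOU⟩ := isOpen_induced_iff.1 (hU n)
    have h2 : qt r x0 (r x0) ∈ U n := mem_iInter.1 (hUe.le (ev_r r x0)) n
    have h3 : {q : Vn r → ℝ | (q, r x0) ∈ O} ∈ 𝓝 (0 : Vn r → ℝ) := by
      refine (hO.preimage (f := fun q : Vn r → ℝ => (q, r x0)) (by fun_prop)).mem_nhds ?_
      rw [← hOU] at h2
      rw [← ev_r r x0]
      exact h2
    rw [nhds_pi, Filter.mem_pi] at h3
    obtain ⟨F, hF, W, hW, hWV⟩ := h3
    refine ⟨F, hF, fun z hz => ?_⟩
    rw [← hOU]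
    exact hWV (a := ev r z) fun f hf => by
      rw [show ev r z f = 0 from hz f hf]; exact mem_of_mem_nhds (hW f)
  choose F hF hF' using h1
  obtain ⟨c, hc⟩ := ((countable_iUnion fun n => (hF n).countable).insert
    ⟨0, fun _ => rfl⟩).exists_eq_range (insert_nonempty _ _)
  refine ⟨c, fun z hz => ?_⟩
  suffices h1 : qt r x0 z ∈ ⋂ n, U n from hUe.ge h1
  refine mem_iInter.2 fun n => hF' n z fun f hf => ?_
  obtain ⟨m, rfl⟩ := hc.le (Or.inr (mem_iUnion.2 ⟨n, hf⟩))
  exact hz m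

lemma split {B : Set ℕ} (hB : B.Infinite) (E : ℕ → Set ℕ) :
    ∃ B0 ⊆ B, B0.Infinite ∧ ∀ k, (B ∩ E k).Infinite → ((B \ B0) ∩ E k).Infinite := by
  choose h hh hh' using hB.exists_gt
  have : ∀ k n, ∃ m, (B ∩ E k).Infinite → m ∈ B ∩ E k ∧ n < m := by
    intro k n
    by_cases h1 : (B ∩ E k).Infinite
    · obtain ⟨m, hm⟩ := h1.exists_gt n
      exact ⟨m, fun _ => hm⟩
    · exact ⟨0, fun h2 => absurd h2 h1⟩
  choose g hg using this
  set s : ℕ → ℕ := fun m => Nat.rec (h 0)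
    (fun m x => h (max x ((Finset.range (m + 1)).sup fun k => g k x))) m with hs
  have hs1 : ∀ m, s (m + 1) = h (max (s m) ((Finset.range (m + 1)).sup fun k => g k (s m))) :=
    fun m => rfl
  have hmono : StrictMono s := strictMono_nat_of_lt_succ fun m => by
    rw [hs1]; exact (le_max_left _ _).trans_lt (hh' _)
  refine ⟨range s, ?_, infinite_range_of_injective hmono.injective, fun k hk => ?_⟩
  · rintro _ ⟨m, rfl⟩
    rcases m with _ | m
    · exact hh 0
    · exact hh _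
  · refine infinite_of_forall_exists_gt fun n => ?_
    obtain ⟨h1, h2⟩ := hg k (s (max k n)) hk
    refine ⟨_, ⟨⟨h1.1, ?_⟩, h1.2⟩, ((le_max_right k n).trans (hmono.id_le _)).trans_lt h2⟩
    rintro ⟨m, hm⟩
    have h3 : g k (s (max k n)) < s (max k n + 1) := by
      rw [hs1]
      exact ((Finset.le_sup (f := fun k' => g k' (s (max k n)))
        (Finset.mem_range.2 (Nat.lt_succ_of_le (le_max_left k n)))).trans
        (le_max_right _ _)).trans_lt (hh' _)
    rw [← hm] at h2 h3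
    have h4 := hmono.lt_iff_lt.1 h2
    have h5 : m < max k n + 1 := (hmono.lt_iff_lt (a := m) (b := max k n + 1)).1 h3
    omega

theorem perfect_example : ∃ (X Y : Type) (_ : TopologicalSpace X) (_ : TopologicalSpace Y),
    T35Space X ∧ T35Space Y ∧ (∃ T : C(X, ℝ) ≃ₗ[ℝ] C(Y, ℝ), PC T ∧ PC T.symm) ∧
    (∀ s : Set X, IsGδ s) ∧ ¬ ∀ s : Set Y, IsClosed s → IsGδ s := by
  obtain ⟨A, hA, had⟩ := exists_ad
  obtain ⟨ι⟩ : Nonempty ((ℕ → Set ℕ) ↪ ℝ) := Cardinal.le_def _ _ |>.1 (by simp [Cardinal.mk_real])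
  choose B0 hB0 hB0i hB0E using fun i : ℕ → Set ℕ => split (hA (ι i)) i
  set P : (ℕ → Set ℕ) × Bool → Set (ℕ × Bool) := fun j =>
    {n | n.1 ∈ A (ι j.1) ∧ if j.2 then (n.2 = true ∨ n.1 ∉ B0 j.1)
      else (n.2 = false ∧ n.1 ∈ B0 j.1)} with hP
  have hPP : ∀ j k, j ≠ k → (P j ∩ P k).Finite := by
    rintro ⟨i, b⟩ ⟨i', b'⟩ h
    by_cases hi : i = i'
    · subst hi
      refine finite_empty.subset ?_
      rintro ⟨n, c⟩ ⟨h1, h2⟩
      cases b <;> cases b' <;> cases c <;> simp_all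
    · refine ((had _ _ (ι.injective.ne hi)).prod (toFinite (univ : Set Bool))).subset ?_
      exact fun n hn => ⟨⟨hn.1.1, hn.2.1⟩, trivial⟩
  set D : PData (ℕ × Bool) ((ℕ → Set ℕ) × Bool) :=
    { F := fun j => cofinite ⊓ 𝓟 (P j)
      B := P
      hB := fun j => mem_inf_of_right (mem_principal_self _)
      hBB := fun j k h => mem_inf_principal.2 ((hPP j k h).subset fun n hn => by
        simp only [mem_compl_iff, mem_setOf_eq, Classical.not_imp, not_not] at hn
        exact ⟨hn.2, hn.1⟩)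
      hfree := fun j n => mem_inf_of_left (finite_singleton n).compl_mem_cofinite } with hD
  set r0 : D.Sp → D.Sp := Sum.elim (fun n => D.l (n.1, true)) (fun j => D.k (j.1, true)) with hr0
  have hr : Continuous r0 := by
    refine D.cont fun j => (D.tendsto (j.1, true)).comp (f := fun n : ℕ × Bool => (n.1, true)) ?_
    refine tendsto_inf.2 ⟨(Tendsto.cofinite_of_finite_preimage_singleton fun m => ?_).mono_left
      inf_le_left, tendsto_principal.2 (mem_inf_of_right fun n hn => ⟨hn.1, by simp⟩)⟩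
    exact ((finite_singleton m.1).prod (toFinite (univ : Set Bool))).subset
      fun n hn => ⟨(Prod.ext_iff.1 (show (n.1, true) = m from hn)).1, trivial⟩
  set r : C(D.Sp, D.Sp) := ⟨_, hr⟩ with hrd
  have hrr : ∀ z, r (r z) = r z := by rintro (n | j) <;> rfl
  refine ⟨D.Sp, Wg r (D.l (0, true)), inferInstance, inferInstance, inferInstance, inferInstance,
    okunev r hrr _, fun s => ?_, fun h => ?_⟩
  · have : s = (s ∪ range D.l) ∩ ⋂ n ∈ {n | D.l n ∉ s}, {D.l n}ᶜ := by
      ext x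
      simp only [mem_inter_iff, mem_union, mem_range, mem_setOf_eq, mem_iInter, mem_compl_iff,
        mem_singleton_iff]
      constructor
      · exact fun hx => ⟨Or.inl hx, fun n hn h => hn (h ▸ hx)⟩
      · rintro ⟨hx | ⟨n, rfl⟩, h⟩
        · exact hx
        · by_contra h1; exact h n h1 rfl
    rw [this]
    have h1 : IsOpen (s ∪ range D.l) := fun j _ => univ_mem' fun n => Or.inr (mem_range_self n)
    exact h1.isGδ.inter
      (IsGδ.biInter (to_countable _) fun n _ => isOpen_compl_singleton.isGδ)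
  obtain ⟨c, hc⟩ := of_gdelta r _ (h _ (isClosed_eq (by fun_prop) continuous_const))
  set i : ℕ → Set ℕ := fun k =>
    {n | (1 : ℝ) / ((Nat.unpair k).2 + 1) < |(c (Nat.unpair k).1).1 (D.l (n, false))|} with hi
  obtain ⟨j, hj⟩ : ∃ j, (c j).1 (D.k (i, false)) ≠ 0 := by
    by_contra h1
    push Not at h1
    obtain ⟨f, hf, hf1, hf2⟩ := D.bump (i, false)
    have h2 : ∀ z, f (r z) = 0 := by
      rintro (n | j)
      · exact hf2 _ fun h => by simpa using h.2
      · exact hf1 _ (by simp)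
    have h3 : f (D.k (i, false)) = 0 := congrFun (hc _ h1) ⟨f, h2⟩
    linarith
  obtain ⟨m, hm⟩ := exists_nat_one_div_lt (abs_pos.2 hj)
  have h1 := (((c j).1.continuous.abs.tendsto _).comp (D.tendsto (i, false))).eventually
    (lt_mem_nhds hm)
  have h2 := (((c j).1.continuous.abs.tendsto _).comp (D.tendsto (i, true))).eventually
    (gt_mem_nhds (a := (1 : ℝ) / (m + 1)) (by
      rw [show (c j).1 (D.k (i, true)) = 0 from (c j).2 (D.k (i, true)), abs_zero]
      exact Nat.one_div_pos_of_nat))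
  have h3 : (A (ι i) ∩ i (Nat.pair j m)).Infinite := by
    intro h3
    refine hB0i i ((h3.union ((mem_inf_principal.1 h1).image Prod.fst)).subset fun n hn => ?_)
    by_cases h4 : n ∈ i (Nat.pair j m)
    · exact Or.inl ⟨hB0 i hn, h4⟩
    · refine Or.inr ⟨(n, false), fun h5 => h4 ?_, rfl⟩
      simpa [hi] using h5 ⟨hB0 i hn, by simpa using hn⟩
  refine hB0E i _ h3 (((mem_inf_principal.1 h2).image Prod.fst).subset fun n hn => ?_)
  refine ⟨(n, false), fun h5 => ?_, rfl⟩
  have h6 := h5 ⟨hn.1.1, by simpa using hn.1.2⟩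
  have h7 := hn.2
  simp only [hi, Nat.unpair_pair, mem_setOf_eq] at h7
  exact lt_asymm h6 h7

end Pool.Agent.H19.Oku
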