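import Pool.Agent.H19.Oku

/-! Closedness of countable subsets is not preserved by `l`-equivalence. -/

namespace Pool.Agent.H19.Oku

open Set Filter Topology Pool.Agent.H19.Ls

universe u

theorem ctble_example : ∃ (X Y : Type u) (_ : TopologicalSpace X) (_ : TopologicalSpace Y),
    T35Space X ∧ T35Space Y ∧ (∃ T : C(X, ℝ) ≃ₗ[ℝ] C(Y, ℝ), PC T ∧ PC T.symm) ∧
    (∀ s : Set X, s.Countable → IsClosed s) ∧ ¬ ∀ s : Set Y, s.Countable → IsClosed s := by
  set Ω := ULift.{u} ℝ with hΩ
  set c : Filter Ω := cocountable with hc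
  have hc1 : ∀ {p : Ω → Prop}, (∀ᶠ x in c, p x) ↔ {x | ¬ p x}.Countable := mem_cocountable
  have hne : ∀ {p : Ω → Prop}, (∀ᶠ x in c, p x) → ∃ x, p x := fun {p} h => by
    by_contra h1
    push Not at h1
    exact not_countable_univ ((hc1.1 h).mono fun x _ => h1 x)
  have hne' : ∀ x : Ω, ∀ᶠ y in c, y ≠ x := fun x => hc1.2 (by simp)
  set F : Ω ⊕ (ℕ × Bool) → Filter (Ω × Ω × ℕ × Bool) := Sum.elim
    (fun s => map (fun p : ℕ × Ω × Bool => (s, p.2.1, p.1, p.2.2)) (atTop.curry (c.curry ⊤)))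
    (fun z => map (fun p : Ω × Ω => (p.1, p.2, z)) (c.curry c)) with hF
  have hF1 : ∀ s S, S ∈ F (Sum.inl s) ↔ ∀ᶠ n in atTop, ∀ᶠ t in c, ∀ b, (s, t, n, b) ∈ S :=
    fun s S => Iff.rfl
  have hF2 : ∀ z S, S ∈ F (Sum.inr z) ↔ ∀ᶠ s in c, ∀ᶠ t in c, (s, t, z) ∈ S :=
    fun s S => Iff.rfl
  clear_value F c
  have hsm : ∀ j (C : Set (Ω × Ω × ℕ × Bool)), C.Countable → Cᶜ ∈ F j := by
    intro j C hC
    have h1 : ∀ᶠ t in c, t ∉ (fun x => x.2.1) '' C := hc1.2 ((hC.image _).mono fun t ht => not_not.1 ht)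
    rcases j with s | z
    · exact (hF1 _ _).2 (Eventually.of_forall fun n => h1.mono fun t ht b h => ht ⟨_, h, rfl⟩)
    · exact (hF2 _ _).2 (Eventually.of_forall fun n => h1.mono fun t ht h => ht ⟨_, h, rfl⟩)
  set D : PData (Ω × Ω × ℕ × Bool) (Ω ⊕ (ℕ × Bool)) :=
    { F := F
      B := Sum.elim (fun s => {x | x.1 = s}) fun z => {x | x.2.2 = z}
      hB := by
        rintro (s | z)
        · exact (hF1 _ _).2 (Eventually.of_forall fun n => Eventually.of_forall fun t b => rfl)
        · exact (hF2 _ _).2 (Eventually.of_forall fun n => Eventually.of_forall fun t => rfl)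
      hBB := by
        rintro (s | z) (s' | z') h
        · exact (hF1 _ _).2 (Eventually.of_forall fun n => Eventually.of_forall fun t b h1 =>
            h (congrArg _ (Eq.symm h1)))
        · exact (hF2 _ _).2 ((hne' s).mono fun n hn => Eventually.of_forall fun t => hn)
        · exact (hF1 _ _).2 ((eventually_gt_atTop z.1).mono fun n hn =>
            Eventually.of_forall fun t b h1 => hn.ne' (congrArg Prod.fst h1))
        · exact (hF2 _ _).2 (Eventually.of_forall fun n => Eventually.of_forall fun t h1 =>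
            h (congrArg _ (Eq.symm h1)))
      hfree := fun j n => hsm j _ (countable_singleton n) } with hD
  set r0 : D.Sp → D.Sp := Sum.elim (fun x => D.l (x.1, x.2.1, x.2.2.1, true))
    (Sum.elim (fun s => D.k (Sum.inl s)) fun z => D.k (Sum.inr (z.1, true))) with hr0
  have hr : Continuous r0 := by
    refine D.cont ?_
    rintro (s | z)
    · have t2 : Tendsto (fun x : Ω × Ω × ℕ × Bool => (x.1, x.2.1, x.2.2.1, true)) (F (Sum.inl s))
          (F (Sum.inl s)) := fun S hS =>
        (hF1 s _).2 (((hF1 s S).1 hS).mono fun n hn => hn.mono fun t ht b => ht true)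
      have t3 := (D.tendsto (Sum.inl s)).comp t2
      exact t3
    · have t2 : Tendsto (fun x : Ω × Ω × ℕ × Bool => (x.1, x.2.1, x.2.2.1, true)) (F (Sum.inr z))
          (F (Sum.inr (z.1, true))) := fun S hS =>
        (hF2 z _).2 (((hF2 (z.1, true) S).1 hS).mono fun s hs => hs.mono fun t ht => ht)
      have t3 := (D.tendsto (Sum.inr (z.1, true))).comp t2
      exact t3
  set r : C(D.Sp, D.Sp) := ⟨_, hr⟩ with hrd
  have hrr : ∀ z, r (r z) = r z := by rintro (n | j | j) <;> rfl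
  set x0 : D.Sp := D.k (Sum.inr (0, true))
  refine ⟨D.Sp, Wg r x0, inferInstance, inferInstance, inferInstance, inferInstance,
    okunev r hrr _, fun s hs => isOpen_compl_iff.1 fun j _ => hsm j _ (hs.preimage D.l_inj),
    fun h => ?_⟩
  have h1 : Tendsto (fun n => qt r x0 (D.k (Sum.inr (n, false)))) atTop (𝓝 (qt r x0 (r x0))) := by
    refine tendsto_subtype_rng.2 (Tendsto.prodMk_nhds (tendsto_pi_nhds.2 fun f => ?_)
      tendsto_const_nhds)
    rw [Metric.tendsto_nhds]
    intro ε hε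
    have h2 : ∀ n, ∀ᶠ s in c, ∀ᶠ t in c,
        dist (f.1 (D.l (s, t, n, false))) (f.1 (D.k (Sum.inr (n, false)))) < ε / 2 := fun n =>
      (hF2 (n, false) _).1 (Metric.tendsto_nhds.1 ((f.1.continuous.tendsto _).comp
        (D.tendsto (Sum.inr (n, false)))) _ (half_pos hε))
    obtain ⟨s, hs⟩ := hne (hc1.2 ((countable_iUnion fun n => hc1.1 (h2 n)).mono fun s hs =>
      mem_iUnion.2 (not_forall.1 hs)))
    have h3 : ∀ᶠ n in atTop, ∀ᶠ t in c, ∀ b,
        dist (f.1 (D.l (s, t, n, b))) (f.1 (D.k (Sum.inl s))) < ε / 2 :=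
      (hF1 s _).1 (Metric.tendsto_nhds.1 ((f.1.continuous.tendsto _).comp
        (D.tendsto (Sum.inl s))) _ (half_pos hε))
    refine h3.mono fun n hn => ?_
    obtain ⟨t, h4, h5⟩ := hne ((hs n).and hn)
    have h6 : f.1 (D.k (Sum.inl s)) = f.1 (r x0) := (f.2 (D.k (Sum.inl s))).trans (f.2 x0).symm
    have h7 := h5 false
    rw [h6] at h7
    have h8 := dist_triangle_left (f.1 (D.k (Sum.inr (n, false)))) (f.1 (r x0))
      (f.1 (D.l (s, t, n, false)))
    exact h8.trans_lt (by linarith)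
  obtain ⟨n, hn⟩ := (h _ (countable_range _)).mem_of_tendsto h1
    (Eventually.of_forall mem_range_self)
  obtain ⟨f, hf, hf1, hf2⟩ := D.bump (Sum.inr (n, false))
  have h2 : ∀ z, f (r z) = 0 := by
    rintro (x | j | j)
    · exact hf2 _ fun h => by simpa using congrArg Prod.snd h
    · exact hf1 _ (by simp)
    · exact hf1 _ (by simp)
  have h3 : f (D.k (Sum.inr (n, false))) = f (r x0) :=
    congrFun (congrArg (fun p : Wg r x0 => p.1.1) hn) ⟨f, h2⟩
  rw [h2, hf] at h3
  exact one_ne_zero h3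

end Pool.Agent.H19.Oku
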