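import Mathlib

/-! The first uncountable ordinal: pressing down, Ulam splitting, an Aronszajn tree. -/

namespace Pool.Agent.H19.Om

open Set Filter

/-- The first uncountable ordinal as a type. -/
def W1 : Type := (Cardinal.ord (Cardinal.aleph 1)).ToType

noncomputable instance : LinearOrder W1 :=
  inferInstanceAs (LinearOrder (Cardinal.ord (Cardinal.aleph 1)).ToType)

instance : WellFoundedLT W1 :=
  inferInstanceAs (WellFoundedLT (Cardinal.ord (Cardinal.aleph 1)).ToType)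

lemma cIio (a : W1) : (Iio a).Countable := by
  rw [← Cardinal.le_aleph0_iff_set_countable, ← Order.lt_succ_iff, Cardinal.succ_aleph0]
  exact Cardinal.mk_Iio_toType_ord_lt (c := Cardinal.aleph 1) a

lemma cIic (a : W1) : (Iic a).Countable := by
  rw [← Iio_insert]
  exact (cIio a).insert a

instance : Uncountable W1 := by
  rw [← Cardinal.aleph0_lt_mk_iff]
  have : Cardinal.mk W1 = Cardinal.aleph 1 := Cardinal.mk_ord_toType _
  rw [this]
  exact Cardinal.aleph0_lt_aleph_one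

lemma bdd {S : Set W1} (hS : S.Countable) : ∃ b, ∀ s ∈ S, s < b := by
  have h : (⋃ s ∈ S, Iic s).Countable := hS.biUnion fun s _ => cIic s
  by_contra hc
  push Not at hc
  refine not_countable_univ (h.mono fun b _ => ?_)
  obtain ⟨s, hs, hb⟩ := hc b
  exact mem_biUnion hs hb

/-- Stationarity in pressing-down form. -/
def Pos (A : Set W1) : Prop :=
  ∀ f : W1 → W1, (∀ δ ∈ A, (∃ ξ, ξ < δ) → f δ < δ) → ∃ α, ¬ {δ | δ ∈ A ∧ f δ = α}.Countable

lemma pos_univ : Pos univ := by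
  intro f hf
  by_contra h
  push Not at h
  choose g hg using fun α => bdd ((cIic α).insert α |>.union ((cIic α).biUnion fun β _ => h β))
  have a0 : W1 := Classical.arbitrary _
  obtain ⟨b, hb⟩ := bdd (countable_range fun n : ℕ => g^[n] a0)
  have hne : {b | ∀ n : ℕ, g^[n] a0 < b}.Nonempty := ⟨b, fun n => hb _ (mem_range_self n)⟩
  obtain ⟨δ, hδ, hmin⟩ := WellFounded.has_min wellFounded_lt _ hne
  have h1 := hf δ trivial ⟨_, hδ 0⟩
  obtain ⟨n, hn⟩ : ∃ n : ℕ, f δ ≤ g^[n] a0 := by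
    by_contra h2
    push Not at h2
    exact hmin _ h2 h1
  have h2 := hg (g^[n] a0) δ (Or.inr (mem_biUnion hn ⟨trivial, rfl⟩))
  have h3 := hδ (n + 1)
  rw [Function.iterate_succ_apply'] at h3
  exact lt_asymm h2 h3

lemma Pos.iUnion {ι : Type*} [Countable ι] {A : Set W1} (h : Pos A) {B : ι → Set W1}
    (hB : A ⊆ ⋃ i, B i) : ∃ i, Pos (B i) := by
  classical
  by_contra h1
  simp only [Pos, not_exists, not_forall, not_not, exists_prop] at h1
  choose f hf hf' using h1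
  have h2 := fun δ (hδ : δ ∈ A) => mem_iUnion.1 (hB hδ)
  choose i hi using h2
  obtain ⟨α, hα⟩ := h (fun δ => if hδ : δ ∈ A then f (i δ hδ) δ else δ) fun δ hδ hξ => by
    rw [dif_pos hδ]; exact hf _ δ (hi δ hδ) hξ
  refine hα ((countable_iUnion fun j => hf' j α).mono fun δ hδ => ?_)
  have h3 := hδ.2
  rw [dif_pos hδ.1] at h3
  exact mem_iUnion.2 ⟨_, hi δ hδ.1, h3⟩

lemma Pos.not_countable {A : Set W1} (h : Pos A) : ¬ A.Countable := by
  classical
  obtain ⟨α, hα⟩ := h (fun δ => if hδ : ∃ ξ, ξ < δ then hδ.choose else δ) fun δ _ hξ => by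
    rw [dif_pos hξ]; exact hξ.choose_spec
  exact fun h1 => hα (h1.mono fun δ hδ => hδ.1)

lemma exists_fiber {α β : Type*} {S : Set α} (hS : ¬ S.Countable) (f : α → β)
    (hf : (f '' S).Countable) : ∃ b, ¬ {a | a ∈ S ∧ f a = b}.Countable := by
  by_contra h
  push Not at h
  refine hS ((hf.biUnion fun b _ => h b).mono fun a ha => ?_)
  exact mem_biUnion (mem_image_of_mem f ha) ⟨ha, rfl⟩

theorem exists_split : ∃ A B : Set W1, Pos A ∧ Pos B ∧ Disjoint A B := by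
  choose j hj using fun α => countable_iff_exists_injOn.1 (cIio α)
  have h1 : ∀ ξ, ∃ n, Pos {α | ξ < α ∧ j α ξ = n} := by
    intro ξ
    obtain ⟨o, ho⟩ := pos_univ.iUnion
      (B := fun o : Option ℕ => o.elim (Iic ξ) fun n => {α | ξ < α ∧ j α ξ = n}) fun α _ => by
        rcases le_or_gt α ξ with h | h
        · exact mem_iUnion.2 ⟨none, h⟩
        · exact mem_iUnion.2 ⟨some _, h, rfl⟩
    cases o with
    | none => exact absurd (cIic ξ) ho.not_countable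
    | some n => exact ⟨n, ho⟩
  choose n hn using h1
  obtain ⟨ξ, η, hne, h⟩ : ∃ ξ η, ξ ≠ η ∧ n ξ = n η := by
    by_contra h
    push Not at h
    exact not_countable (α := W1) (Function.Injective.countable (f := n) fun a b hab =>
      not_not.1 fun h' => h a b h' hab)
  exact ⟨_, _, hn ξ, hn η, disjoint_left.2 fun α h1 h2 =>
    hne (hj α h1.1 h2.1 (h1.2.trans (h.trans h2.2.symm)))⟩

theorem exists_coh : ∃ e : W1 → W1 → ℕ, (∀ α k, {ξ | ξ < α ∧ e α ξ ≤ k}.Finite) ∧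
    ∀ β α, β < α → {ξ | ξ < β ∧ e β ξ ≠ e α ξ}.Finite := by
  classical
  have h0 : ∀ α : W1, ∃ b : ℕ → W1, Iio α ⊆ range b := fun α =>
    countable_iff_exists_subset_range.1 (cIio α)
  choose b hb using h0
  set n : W1 → W1 → ℕ := fun α ξ => sInf {m | ξ ≤ b α m ∧ b α m < α} with hn
  have hn1 : ∀ α ξ β m, ξ ≤ β → β < α → b α m = β →
      (ξ ≤ b α (n α ξ) ∧ b α (n α ξ) < α) ∧ n α ξ ≤ m := by
    rintro α ξ _ m h1 h2 rfl
    exact ⟨Nat.sInf_mem (s := {m | ξ ≤ b α m ∧ b α m < α}) ⟨m, h1, h2⟩, Nat.sInf_le ⟨h1, h2⟩⟩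
  set e : W1 → W1 → ℕ := wellFounded_lt.fix fun α r ξ =>
    max (n α ξ) (if h : b α (n α ξ) < α then r _ h ξ else 0) with he
  have he1 : ∀ α ξ, b α (n α ξ) < α → e α ξ = max (n α ξ) (e (b α (n α ξ)) ξ) := by
    intro α ξ h
    rw [he, WellFounded.fix_eq]
    simp only [dif_pos h]
  have hf : ∀ α k, {ξ | ξ < α ∧ e α ξ ≤ k}.Finite := by
    intro α
    induction α using WellFoundedLT.induction with
    | ind α ih =>
      intro k
      refine ((finite_Iic k).biUnion fun m _ => (show {ξ | b α m < α ∧ ξ < b α m ∧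
        e (b α m) ξ ≤ k}.Finite from ?_).insert (b α m)).subset fun ξ hξ => ?_
      · by_cases h : b α m < α
        · exact (ih _ h k).subset fun ξ hξ => hξ.2
        · simp [h]
      · obtain ⟨m, hm⟩ := hb α hξ.1
        obtain ⟨⟨h1, h2⟩, -⟩ := hn1 α ξ ξ m le_rfl hξ.1 hm
        have h3 := hξ.2
        rw [he1 α ξ h2, max_le_iff] at h3
        exact mem_biUnion h3.1 (h1.eq_or_lt.imp id fun h => ⟨h2, h, h3.2⟩)
  refine ⟨e, hf, fun β α => ?_⟩
  induction α using WellFoundedLT.induction generalizing β with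
  | ind α ih =>
    intro hβ
    obtain ⟨m, hm⟩ := hb α hβ
    have h1 : ∀ γ < α, {ξ | ξ < β ∧ ξ < γ ∧ e β ξ ≠ e γ ξ}.Finite := by
      intro γ hγ
      rcases lt_trichotomy β γ with h | rfl | h
      · exact (ih γ hγ β h).subset fun ξ hξ => ⟨hξ.1, hξ.2.2⟩
      · simp
      · exact (ih β hβ γ h).subset fun ξ hξ => ⟨hξ.2.1, hξ.2.2.symm⟩
    refine ((hf β m).union ((finite_Iic m).biUnion fun l _ => (show {ξ | b α l < α ∧ ξ < β ∧
      ξ < b α l ∧ e β ξ ≠ e (b α l) ξ}.Finite from ?_).insert (b α l))).subset fun ξ hξ => ?_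
    · by_cases h : b α l < α
      · exact (h1 _ h).subset fun ξ hξ => hξ.2
      · simp [h]
    · obtain ⟨⟨h2, h3⟩, h4⟩ := hn1 α ξ β m hξ.1.le hβ hm
      by_cases h5 : e β ξ ≤ m
      · exact Or.inl ⟨hξ.1, h5⟩
      refine Or.inr (mem_biUnion h4 (h2.eq_or_lt.imp id fun h => ⟨h3, hξ.1, h, fun h6 => hξ.2 ?_⟩))
      rw [he1 α ξ h3, ← h6, max_eq_right (by omega)]

/-- An Aronszajn tree. -/
structure ATree where
  /-- nodes -/
  N : Type
  /-- height -/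
  ht : N → W1
  /-- strict order -/
  lt : N → N → Prop
  lev : ∀ α, {s | ht s = α}.Countable
  ne : ∀ α, ∃ s, ht s = α
  pred : ∀ t α, α < ht t → ∃ s, ht s = α ∧ lt s t
  ht_lt : ∀ {s t}, lt s t → ht s < ht t
  trans : ∀ {s t u}, lt s t → lt t u → lt s u
  cmp : ∀ {s s' t}, lt s t → lt s' t → ht s ≤ ht s' → s = s' ∨ lt s s'
  nochain : ∀ s : W1 → N, ∀ A : Set W1, (∀ δ ∈ A, δ ≤ ht (s δ)) →
    (∀ δ ∈ A, ∀ δ' ∈ A, ∃ t, lt (s δ) t ∧ lt (s δ') t) → A.Countable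

theorem exists_tree : Nonempty ATree := by
  classical
  obtain ⟨e, hf, hc⟩ := exists_coh
  refine ⟨⟨{s : W1 × (W1 → ℕ) // (∀ ξ, s.1 ≤ ξ → s.2 ξ = 0) ∧
    {ξ | ξ < s.1 ∧ s.2 ξ ≠ e s.1 ξ}.Finite}, fun s => s.1.1,
    fun s t => s.1.1 < t.1.1 ∧ ∀ ξ < s.1.1, s.1.2 ξ = t.1.2 ξ, fun α => ?_, fun α => ?_,
    fun t α h => ?_, fun h => h.1, fun h h' => ⟨h.1.trans h'.1, fun ξ hξ =>
      (h.2 ξ hξ).trans (h'.2 ξ (hξ.trans h.1))⟩, fun {s s' t} h h' hle => ?_,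
    fun s A hA h => ?_⟩⟩
  · refine MapsTo.countable_of_injOn
      (f := fun s => (fun ξ => (ξ, s.1.2 ξ)) '' {ξ | ξ < s.1.1 ∧ s.1.2 ξ ≠ e s.1.1 ξ})
      (t := {t | t.Finite ∧ t ⊆ Iio α ×ˢ univ})
      (fun s hs => ⟨s.2.2.image _, ?_⟩) (fun s hs t ht hst => ?_)
      (countable_setOf_finite_subset ((cIio α).prod (countable_univ (α := ℕ))))
    · rintro _ ⟨ξ, hξ, rfl⟩
      exact ⟨hs ▸ hξ.1, trivial⟩
    · have h1 : s.1.1 = t.1.1 := hs.trans ht.symm
      refine Subtype.ext (Prod.ext h1 (funext fun ξ => ?_))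
      rcases le_or_gt s.1.1 ξ with h | h
      · rw [s.2.1 ξ h, t.2.1 ξ (h1 ▸ h)]
      by_cases h2 : s.1.2 ξ = e s.1.1 ξ
      · by_contra h3
        obtain ⟨ξ', hξ', h4⟩ := hst.ge (mem_image_of_mem _
          (show ξ < t.1.1 ∧ t.1.2 ξ ≠ e t.1.1 ξ from ⟨h1 ▸ h, fun h5 => h3 (by rw [h2, h5, h1])⟩))
        obtain rfl : ξ' = ξ := congrArg Prod.fst h4
        exact hξ'.2 h2
      · obtain ⟨ξ', -, h4⟩ := hst.le (mem_image_of_mem _ ⟨h, h2⟩)
        obtain rfl : ξ' = ξ := congrArg Prod.fst h4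
        exact (congrArg Prod.snd h4).symm
  · exact ⟨⟨(α, fun ξ => if ξ < α then e α ξ else 0), fun ξ h => if_neg (not_lt.2 h),
      finite_empty.subset fun ξ hξ => hξ.2 (if_pos hξ.1)⟩, rfl⟩
  · refine ⟨⟨(α, fun ξ => if ξ < α then t.1.2 ξ else 0), fun ξ h => if_neg (not_lt.2 h),
      (t.2.2.union (hc α _ h)).subset fun ξ hξ => ?_⟩, rfl, h, fun ξ hξ => if_pos hξ⟩
    have h1 := hξ.2
    simp only [if_pos hξ.1] at h1
    by_cases h2 : t.1.2 ξ = e t.1.1 ξ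
    · exact Or.inr ⟨hξ.1, fun h3 => h1 (h2.trans h3.symm)⟩
    · exact Or.inl ⟨hξ.1.trans h, h2⟩
  · have h1 : ∀ ξ < s.1.1, s.1.2 ξ = s'.1.2 ξ := fun ξ hξ =>
      (h.2 ξ hξ).trans (h'.2 ξ (hξ.trans_le hle)).symm
    refine hle.eq_or_lt.imp (fun h2 => Subtype.ext (Prod.ext h2 (funext fun ξ => ?_))) fun h2 =>
      ⟨h2, h1⟩
    rcases le_or_gt s.1.1 ξ with h3 | h3
    · rw [s.2.1 ξ h3, s'.2.1 ξ (h2 ▸ h3)]
    · exact h1 ξ h3
  · by_contra hA'
    have h1 : ∀ ξ, ∃ δ ∈ A, ξ < δ := fun ξ => by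
      by_contra h2
      push Not at h2
      exact hA' ((cIic ξ).mono h2)
    choose d hd hd' using h1
    obtain ⟨k, hk⟩ := exists_fiber not_countable_univ (fun ξ => (s (d ξ)).1.2 ξ) (to_countable _)
    obtain ⟨S, hS, hSc, hSi⟩ := Set.Infinite.exists_subset_countable_infinite
      fun h2 => hk h2.countable
    obtain ⟨γ, hγ⟩ := bdd hSc
    refine hSi (((s (d γ)).2.2.union (hf (s (d γ)).1.1 k)).subset fun ξ hξ => ?_)
    have h2 : ξ < (s (d γ)).1.1 := (hγ ξ hξ).trans ((hd' γ).trans_le (hA _ (hd γ)))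
    obtain ⟨t, h3, h4⟩ := h _ (hd ξ) _ (hd γ)
    have h5 : (s (d γ)).1.2 ξ = k := (h4.2 ξ h2).trans
      ((h3.2 ξ ((hd' ξ).trans_le (hA _ (hd ξ)))).symm.trans (hS hξ).2)
    by_cases h6 : (s (d γ)).1.2 ξ = e (s (d γ)).1.1 ξ
    · exact Or.inr ⟨h2, (h6.symm.trans h5).le⟩
    · exact Or.inl ⟨h2, h6⟩

end Pool.Agent.H19.Om
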