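import Mathlib

set_option autoImplicit false
set_option maxHeartbeats 400000

namespace Pool.Agent.H19.Os

structure P where
  h : Fin 5
  t : Fin 5
  e : Bool
  m1 : Bool
  m2 : Bool
deriving DecidableEq, Fintype

structure A where
  t : Fin 5
  e : Bool
  p : P
deriving DecidableEq, Fintype

def need (t : Fin 5) (e : Bool) : Bool := if e then decide (t ≠ 2) else decide (t = 2)

def tick (b : Bool) (p : P) : P :=
  ⟨p.h + 1, if p.h = 4 then p.t + 1 else p.t, p.e,
    if p.h = 0 ∨ p.h = 3 then xor p.m1 (b && need p.t p.e) else p.m1,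
    if p.h = 1 ∨ p.h = 4 then xor p.m2 (b && need p.t p.e) else p.m2⟩

def untick (b : Bool) (p : P) : P :=
  ⟨p.h - 1, if p.h = 0 then p.t - 1 else p.t, p.e,
    if p.h = 1 ∨ p.h = 4 then xor p.m1 (b && need p.t p.e) else p.m1,
    if p.h = 2 then xor p.m2 (b && need p.t p.e) else
      if p.h = 0 then xor p.m2 (b && need (p.t - 1) p.e) else p.m2⟩

def beta (t : Fin 5) (u : Bool × Bool) : Bool :=
  if t = 0 ∨ t = 3 then u.1 else if t = 1 ∨ t = 4 then u.2 else false

def s (p : P) : Bool × Bool :=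
  if p.e then (true, beta p.t (p.m1, p.m2)) else if p.t = 2 then (p.m1, p.m2) else (false, false)

def act (u : Bool × Bool) (p : P) : P := if u.1 then tick u.2 p else p

def unact (u : Bool × Bool) (p : P) : P := if u.1 then untick u.2 p else p

theorem untick_tick : ∀ (b : Bool) (p : P), untick b (tick b p) = p := by
  rintro b ⟨h, t, e, m1, m2⟩
  revert b h t e m1 m2
  decide +kernel

theorem tick_untick : ∀ (b : Bool) (p : P), tick b (untick b p) = p := by
  rintro b ⟨h, t, e, m1, m2⟩
  revert b h t e m1 m2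
  decide +kernel

theorem tick_inj {b : Bool} {p q : P} (h : tick b p = tick b q) : p = q := by
  rw [← untick_tick b p, h, untick_tick]

theorem act_unact (u : Bool × Bool) (p : P) : act u (unact u p) = p := by
  unfold act unact
  split_ifs
  · exact tick_untick _ _
  · rfl

theorem act_inj {u : Bool × Bool} {p q : P} (h : act u p = act u q) : p = q := by
  unfold act at h
  split_ifs at h
  · exact tick_inj h
  · exact h

theorem s_tick (b : Bool) (p : P) (h : p.h = 2) : s (tick b p) = s p := by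
  obtain ⟨h', t, e, m1, m2⟩ := p
  simp only at h
  subst h
  rfl

theorem beta_two (u : Bool × Bool) : beta 2 u = false := rfl

theorem five (t : Fin 5) (e : Bool) (u u' v : Bool × Bool) (h : need t e = true → u' = u) :
    tick (beta 4 u') (tick (beta 3 u') (tick (beta 2 v) (tick (beta 1 u) (tick (beta 0 u)
      ⟨0, t, e, false, false⟩)))) = ⟨0, t + 1, e, false, false⟩ := by
  rw [beta_two]
  obtain ⟨a, b⟩ := u
  obtain ⟨c, d⟩ := u'
  revert t e a b c d
  decide +kernel

theorem two (t : Fin 5) (e : Bool) (u : Bool × Bool) :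
    s (tick (beta 1 u) (tick (beta 0 u) ⟨0, t, e, false, false⟩)) =
      if e then (true, beta t u) else if t = 2 then u else (false, false) := by
  obtain ⟨a, b⟩ := u
  revert t e a b
  decide +kernel

def phi (a b : A) : A :=
  ⟨a.t + 1, a.e, if a.e then tick (beta a.t (s b.p)) a.p else
    if a.t = 2 then act (s b.p) a.p else a.p⟩

def psi (a b : A) : A :=
  ⟨a.t - 1, a.e, if a.e then untick (beta (a.t - 1) (s b.p)) a.p else
    if a.t - 1 = 2 then unact (s b.p) a.p else a.p⟩

def f (x : ℕ → A) : ℕ → A := fun i => phi (x i) (x (i + 1))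

def g (x : ℕ → A) : ℕ → A := fun i => psi (x i) (x (i + 1))

def sh (x : ℕ → A) : ℕ → A := fun i => x (i + 1)

def Om : Set (ℕ → A) :=
  {x | ∀ i, (x (i + 1)).t = (x i).t ∧ (x (i + 1)).e = !(x i).e ∧
    ((x i).e = true → (x i).p.h = (x i).t)}

theorem f_sh (x : ℕ → A) : f (sh x) = sh (f x) := rfl

theorem fn_sh (n : ℕ) (x : ℕ → A) : f^[n] (sh x) = sh (f^[n] x) := by
  induction n generalizing x with
  | zero => rfl
  | succ n ih => rw [Function.iterate_succ_apply, f_sh, ih, Function.iterate_succ_apply]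

theorem sh_Om {x : ℕ → A} (hx : x ∈ Om) : sh x ∈ Om := fun i => hx (i + 1)

theorem f_Om {x : ℕ → A} (hx : x ∈ Om) : f x ∈ Om := by
  intro i
  obtain ⟨h1, h2, h3⟩ := hx i
  refine ⟨?_, h2, fun he => ?_⟩
  · show (x (i + 1)).t + 1 = (x i).t + 1
    rw [h1]
  · have he' : (x i).e = true := he
    show (phi (x i) (x (i + 1))).p.h = (x i).t + 1
    simp only [phi, he', if_true, tick, h3 he']

theorem fn_Om (n : ℕ) {x : ℕ → A} (hx : x ∈ Om) : f^[n] x ∈ Om := by
  induction n generalizing x with
  | zero => exact hx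
  | succ n ih => exact ih (f_Om hx)

theorem g_Om {x : ℕ → A} (hx : x ∈ Om) : g x ∈ Om := by
  intro i
  obtain ⟨h1, h2, h3⟩ := hx i
  refine ⟨?_, h2, fun he => ?_⟩
  · show (x (i + 1)).t - 1 = (x i).t - 1
    rw [h1]
  · have he' : (x i).e = true := he
    show (psi (x i) (x (i + 1))).p.h = (x i).t - 1
    simp only [psi, he', if_true, untick, h3 he']

theorem A_ext {a b : A} (h1 : a.t = b.t) (h2 : a.e = b.e) (h3 : a.p = b.p) : a = b := by
  cases a; cases b; simp_all

theorem f_g {x : ℕ → A} (hx : x ∈ Om) : f (g x) = x := by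
  funext i
  obtain ⟨h1, h2, h3⟩ := hx i
  have h4 := (g_Om hx (i + 1)).2.2
  apply A_ext
  · show (x i).t - 1 + 1 = (x i).t
    simp
  · rfl
  · show (phi (psi (x i) (x (i + 1))) (psi (x (i + 1)) (x (i + 1 + 1)))).p = (x i).p
    cases he : (x i).e
    · rw [he] at h2
      by_cases ht : (x i).t - 1 = 2
      · have e1 : s (psi (x (i + 1)) (x (i + 1 + 1))).p = s (x (i + 1)).p := by
          have h5 : (psi (x (i + 1)) (x (i + 1 + 1))).p.h = 2 := by
            have := h4 h2
            rw [← ht, ← h1]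
            exact this
          rw [← s_tick (beta ((x (i + 1)).t - 1) (s (x (i + 1 + 1)).p)) _ h5]
          have h2' : (x (i + 1)).e = true := h2
          simp only [psi, h2', if_true, tick_untick]
        simp only [phi, e1]
        simp only [psi, he, ht, if_true, Bool.false_eq_true, if_false, act_unact]
      · simp only [phi, psi, he, ht, Bool.false_eq_true, if_false]
    · rw [he] at h2
      have h2' : (x (i + 1)).e = false := h2
      by_cases ht : (x i).t - 1 = 2
      · simp only [phi, psi, he, ht, if_true, beta_two, tick_untick]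
      · simp only [phi, psi, he, h2', h1, ht, if_true, Bool.false_eq_true, if_false, tick_untick]

theorem loc_inj {x y : ℕ → A} (hx : x ∈ Om) (hy : y ∈ Om) (i : ℕ) (e1 : f x i = f y i)
    (e2 : f x (i + 1) = f y (i + 1)) : x i = y i := by
  obtain ⟨h1, h2, -⟩ := hx i
  obtain ⟨k1, k2, -⟩ := hy i
  have h3 := (hx (i + 1)).2.2
  have k3 := (hy (i + 1)).2.2
  have et : (x i).t = (y i).t := by
    have := congrArg A.t e1
    exact add_right_cancel this
  have ee : (x i).e = (y i).e := by
    have := congrArg A.e e1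
    exact this
  have p1 := congrArg A.p e1
  have p2 := congrArg A.p e2
  refine A_ext et ee ?_
  simp only [f, phi] at p1 p2
  rw [← et] at p1 k1
  rw [← ee] at p1 k2
  rw [h1, h2, k1, k2] at p2
  cases he : (x i).e
  · rw [he] at p1 p2 h2 k2
    by_cases ht : (x i).t = 2
    · have a1 := s_tick false _ ((h3 h2).trans (h1.trans ht))
      have a2 := s_tick false _ ((k3 k2).trans (k1.trans ht))
      simp only [ht, beta_two, Bool.not_false, if_true, Bool.false_eq_true, if_false] at p1 p2
      rw [← a1, p2, a2] at p1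
      exact act_inj p1
    · simpa only [ht, Bool.false_eq_true, if_false] using p1
  · rw [he] at p1 p2
    by_cases ht : (x i).t = 2
    · simp only [ht, beta_two, if_true] at p1
      exact tick_inj p1
    · simp only [ht, Bool.not_true, if_true, Bool.false_eq_true, if_false] at p1 p2
      rw [p2] at p1
      exact tick_inj p1

def cfg (t : Fin 5) (U V : ℕ → P) : ℕ → A := fun k =>
  if k % 2 = 0 then ⟨t, false, U (k / 2)⟩ else ⟨t, true, V (k / 2)⟩

theorem cfg_even (t : Fin 5) (U V : ℕ → P) (i : ℕ) : cfg t U V (2 * i) = ⟨t, false, U i⟩ := by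
  simp [cfg]

theorem cfg_odd (t : Fin 5) (U V : ℕ → P) (i : ℕ) : cfg t U V (2 * i + 1) = ⟨t, true, V i⟩ := by
  have h1 : (2 * i + 1) % 2 = 1 := by omega
  have h2 : (2 * i + 1) / 2 = i := by omega
  simp [cfg, h1, h2]

theorem f_cfg (t : Fin 5) (U V : ℕ → P) :
    f (cfg t U V) = cfg (t + 1) (fun i => if t = 2 then act (s (V i)) (U i) else U i)
      (fun i => tick (beta t (s (U (i + 1)))) (V i)) := by
  funext k
  obtain ⟨i, rfl | rfl⟩ := Nat.even_or_odd' k
  · simp only [f, cfg_even, cfg_odd, phi, Bool.false_eq_true, if_false]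
  · have e : 2 * i + 1 + 1 = 2 * (i + 1) := by ring
    simp only [f, e, cfg_even, cfg_odd, phi, if_true]

def io (y : ℕ → A) : ℕ → A :=
  cfg 0 (fun i => (y i).p) (fun i => ⟨0, (y i).t, (y i).e, false, false⟩)

theorem io_Om (y : ℕ → A) : io y ∈ Om := by
  intro k
  obtain ⟨i, rfl | rfl⟩ := Nat.even_or_odd' k
  · simp [io, cfg_even, cfg_odd]
  · have e : 2 * i + 1 + 1 = 2 * (i + 1) := by ring
    simp [io, e, cfg_even, cfg_odd]

theorem sh_sh_io (y : ℕ → A) : sh (sh (io y)) = io (sh y) := by
  funext k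
  obtain ⟨i, rfl | rfl⟩ := Nat.even_or_odd' k
  · have e : 2 * i + 1 + 1 = 2 * (i + 1) := by ring
    simp only [sh, io, e, cfg_even]
  · have e : 2 * i + 1 + 1 + 1 = 2 * (i + 1) + 1 := by ring
    simp only [sh, io, e, cfg_odd]

theorem f5_io {y : ℕ → A} (hy : y ∈ Om) : f^[5] (io y) = io (f y) := by
  have hA : ∀ i, act (s (tick (beta 1 (s (y (i + 1)).p)) (tick (beta 0 (s (y (i + 1)).p))
      ⟨0, (y i).t, (y i).e, false, false⟩))) (y i).p = (f y i).p := by
    intro i
    rw [two]
    simp only [f, phi]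
    split_ifs <;> simp [act]
  have hB : ∀ i, need (y i).t (y i).e = true → s (f y (i + 1)).p = s (y (i + 1)).p := by
    intro i hn
    obtain ⟨h1, h2, -⟩ := hy i
    have h3 := (hy (i + 1)).2.2
    simp only [f, phi, h1, h2]
    cases he : (y i).e
    · rw [he] at hn h2
      have ht : (y i).t = 2 := by simpa [need] using hn
      simp only [Bool.not_false, if_true]
      exact s_tick _ _ ((h3 h2).trans (h1.trans ht))
    · rw [he] at hn
      have ht : (y i).t ≠ 2 := by simpa [need] using hn
      simp [ht]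
  have c0 : (0 : Fin 5) + 1 = 1 := rfl
  have c1 : (1 : Fin 5) + 1 = 2 := rfl
  have c2 : (2 : Fin 5) + 1 = 3 := rfl
  have c3 : (3 : Fin 5) + 1 = 4 := rfl
  have c4 : (4 : Fin 5) + 1 = 0 := rfl
  have d0 : (0 : Fin 5) ≠ 2 := by decide
  have d1 : (1 : Fin 5) ≠ 2 := by decide
  have d3 : (3 : Fin 5) ≠ 2 := by decide
  have d4 : (4 : Fin 5) ≠ 2 := by decide
  show f (f (f (f (f (io y))))) = io (f y)
  simp only [io, f_cfg, c0, c1, c2, c3, c4, d0, d1, d3, d4, if_false, if_true, hA]
  congr 1
  funext i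
  exact five _ _ _ _ _ (hB i)

end Pool.Agent.H19.Os
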