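import Pool.Agent.H19.OsA

set_option autoImplicit false
set_option maxHeartbeats 400000

namespace Pool.Agent.H19.Os

def Xs : ℕ → Set (ℕ → A)
  | 0 => Om
  | j + 1 => {x | ∃ y ∈ Xs j, ∃ τ : ℕ, τ < 5 ∧ (x = f^[τ] (io y) ∨ x = sh (f^[τ] (io y)))}

theorem Xs_Om {j : ℕ} {x : ℕ → A} (hx : x ∈ Xs j) : x ∈ Om := by
  cases j with
  | zero => exact hx
  | succ j =>
    obtain ⟨y, -, τ, -, rfl | rfl⟩ := hx
    · exact fn_Om _ (io_Om y)
    · exact sh_Om (fn_Om _ (io_Om y))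

theorem sh_sh_fn (τ : ℕ) (y : ℕ → A) : sh (sh (f^[τ] (io y))) = f^[τ] (io (sh y)) := by
  rw [← fn_sh, ← fn_sh, sh_sh_io]

theorem Xs_sh {j : ℕ} {x : ℕ → A} (hx : x ∈ Xs j) : sh x ∈ Xs j := by
  induction j generalizing x with
  | zero => exact sh_Om hx
  | succ j ih =>
    obtain ⟨y, hy, τ, hτ, rfl | rfl⟩ := hx
    · exact ⟨y, hy, τ, hτ, Or.inr rfl⟩
    · exact ⟨sh y, ih hy, τ, hτ, Or.inl (sh_sh_fn τ y)⟩

theorem Xs_f {j : ℕ} {x : ℕ → A} (hx : x ∈ Xs j) : f x ∈ Xs j := by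
  induction j generalizing x with
  | zero => exact f_Om hx
  | succ j ih =>
    obtain ⟨y, hy, τ, hτ, hx⟩ := hx
    have key : ∃ y' ∈ Xs j, ∃ τ' : ℕ, τ' < 5 ∧ f (f^[τ] (io y)) = f^[τ'] (io y') := by
      by_cases h4 : τ = 4
      · subst h4
        refine ⟨f y, ih hy, 0, by norm_num, ?_⟩
        rw [← Function.iterate_succ_apply' f 4]
        exact f5_io (Xs_Om hy)
      · exact ⟨y, hy, τ + 1, by omega, (Function.iterate_succ_apply' f τ _).symm⟩
    obtain ⟨y', hy', τ', hτ', e⟩ := key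
    rcases hx with rfl | rfl
    · exact ⟨y', hy', τ', hτ', Or.inl e⟩
    · exact ⟨y', hy', τ', hτ', Or.inr (by rw [f_sh, e])⟩

theorem Xs_fn {j : ℕ} (n : ℕ) {x : ℕ → A} (hx : x ∈ Xs j) : f^[n] x ∈ Xs j := by
  induction n generalizing x with
  | zero => exact hx
  | succ n ih => exact ih (Xs_f hx)

theorem f_inj {x y : ℕ → A} (hx : x ∈ Om) (hy : y ∈ Om) (e : f x = f y) : x = y :=
  funext fun i => loc_inj hx hy i (congrFun e i) (congrFun e (i + 1))

theorem Xs_surj {j : ℕ} {x : ℕ → A} (hx : x ∈ Xs j) : ∃ z ∈ Xs j, f z = x := by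
  induction j generalizing x with
  | zero => exact ⟨g x, g_Om hx, f_g hx⟩
  | succ j ih =>
    obtain ⟨y, hy, τ, hτ, hx⟩ := hx
    have key : ∃ y' ∈ Xs j, ∃ τ' : ℕ, τ' < 5 ∧ f (f^[τ'] (io y')) = f^[τ] (io y) := by
      cases τ with
      | zero =>
        obtain ⟨z, hz, rfl⟩ := ih hy
        refine ⟨z, hz, 4, by norm_num, ?_⟩
        rw [← Function.iterate_succ_apply' f 4]
        exact f5_io (Xs_Om hz)
      | succ τ => exact ⟨y, hy, τ, by omega, (Function.iterate_succ_apply' f τ _).symm⟩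
    obtain ⟨y', hy', τ', hτ', e⟩ := key
    rcases hx with rfl | rfl
    · exact ⟨_, ⟨y', hy', τ', hτ', Or.inl rfl⟩, e⟩
    · exact ⟨_, ⟨y', hy', τ', hτ', Or.inr rfl⟩, by rw [f_sh, e]⟩

theorem Xs_g {j : ℕ} {x : ℕ → A} (hx : x ∈ Xs j) : g x ∈ Xs j := by
  obtain ⟨z, hz, e⟩ := Xs_surj hx
  have : z = g x := f_inj (Xs_Om hz) (g_Om (Xs_Om hx)) (by rw [e, f_g (Xs_Om hx)])
  exact this ▸ hz

theorem Xs_anti (j : ℕ) : Xs (j + 1) ⊆ Xs j := by
  induction j with
  | zero => exact fun x hx => Xs_Om hx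
  | succ j ih =>
    rintro x ⟨y, hy, τ, hτ, hx⟩
    exact ⟨y, ih hy, τ, hτ, hx⟩

theorem Xs_ne (j : ℕ) : (Xs j).Nonempty := by
  induction j with
  | zero => exact ⟨_, io_Om fun _ => ⟨0, false, ⟨0, 0, false, false, false⟩⟩⟩
  | succ j ih =>
    obtain ⟨y, hy⟩ := ih
    exact ⟨io y, y, hy, 0, by norm_num, Or.inl rfl⟩

theorem Xs_pre {j : ℕ} {x : ℕ → A} (hx : x ∈ Xs j) : ∃ z ∈ Xs j, sh z = x := by
  induction j generalizing x with
  | zero =>
    refine ⟨fun i => Nat.casesOn i ⟨(x 0).t, !(x 0).e, ⟨(x 0).t, 0, false, false, false⟩⟩ x,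
      fun i => ?_, rfl⟩
    cases i with
    | zero => simp
    | succ i => exact hx i
  | succ j ih =>
    obtain ⟨y, hy, τ, hτ, rfl | rfl⟩ := hx
    · obtain ⟨z, hz, rfl⟩ := ih hy
      exact ⟨_, ⟨z, hz, τ, hτ, Or.inr rfl⟩, sh_sh_fn τ z⟩
    · exact ⟨_, ⟨y, hy, τ, hτ, Or.inl rfl⟩, rfl⟩

instance : TopologicalSpace A := ⊥

instance : DiscreteTopology A := ⟨rfl⟩

theorem cont2 (F : A → A → A) (a b : ℕ) : Continuous fun x : ℕ → A => F (x a) (x b) := by
  have h : Continuous fun x : ℕ → A => (x a, x b) :=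
    (continuous_apply a).prodMk (continuous_apply b)
  exact (continuous_of_discreteTopology (f := fun p : A × A => F p.1 p.2)).comp h

theorem f_cont : Continuous f := continuous_pi fun i => cont2 phi i (i + 1)

theorem sh_cont : Continuous sh := continuous_pi fun i => continuous_apply (i + 1)

theorem io_cont : Continuous io := by
  refine continuous_pi fun k => ?_
  obtain ⟨i, rfl | rfl⟩ := Nat.even_or_odd' k
  · simp only [io, cfg_even]
    exact cont2 (fun a _ => ⟨0, false, a.p⟩) i i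
  · simp only [io, cfg_odd]
    exact cont2 (fun a _ => ⟨0, true, ⟨0, a.t, a.e, false, false⟩⟩) i i

theorem Om_closed : IsClosed Om := by
  have : Om = ⋂ i : ℕ, (fun x : ℕ → A => (x i, x (i + 1))) ⁻¹'
      {p : A × A | p.2.t = p.1.t ∧ p.2.e = !p.1.e ∧ (p.1.e = true → p.1.p.h = p.1.t)} := by
    ext x
    simp only [Om, Set.mem_setOf_eq, Set.mem_iInter, Set.mem_preimage]
  rw [this]
  exact isClosed_iInter fun i => (isClosed_discrete _).preimage
    ((continuous_apply i).prodMk (continuous_apply (i + 1)))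

theorem Xs_closed (j : ℕ) : IsClosed (Xs j) := by
  induction j with
  | zero => exact Om_closed
  | succ j ih =>
    have : Xs (j + 1) = ⋃ τ : Fin 5, ((fun y => f^[τ] (io y)) '' Xs j ∪
        (fun y => sh (f^[τ] (io y))) '' Xs j) := by
      ext x
      simp only [Xs, Set.mem_setOf_eq, Set.mem_iUnion, Set.mem_union, Set.mem_image]
      constructor
      · rintro ⟨y, hy, τ, hτ, rfl | rfl⟩
        · exact ⟨⟨τ, hτ⟩, Or.inl ⟨y, hy, rfl⟩⟩
        · exact ⟨⟨τ, hτ⟩, Or.inr ⟨y, hy, rfl⟩⟩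
      · rintro ⟨τ, ⟨y, hy, rfl⟩ | ⟨y, hy, rfl⟩⟩
        · exact ⟨y, hy, τ, τ.2, Or.inl rfl⟩
        · exact ⟨y, hy, τ, τ.2, Or.inr rfl⟩
    rw [this]
    refine isClosed_iUnion_of_finite fun τ => IsClosed.union ?_ ?_
    · exact (ih.isCompact.image ((f_cont.iterate τ).comp io_cont)).isClosed
    · exact (ih.isCompact.image (sh_cont.comp ((f_cont.iterate τ).comp io_cont))).isClosed

def X : Set (ℕ → A) := ⋂ j, Xs j

theorem mem_X {x : ℕ → A} : x ∈ X ↔ ∀ j, x ∈ Xs j := Set.mem_iInter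

theorem X_closed : IsClosed X := isClosed_iInter Xs_closed

theorem X_ne : X.Nonempty :=
  IsCompact.nonempty_iInter_of_sequence_nonempty_isCompact_isClosed Xs Xs_anti Xs_ne
    (Xs_closed 0).isCompact Xs_closed

theorem X_Om {x : ℕ → A} (hx : x ∈ X) : x ∈ Om := mem_X.1 hx 0

theorem X_sh {x : ℕ → A} (hx : x ∈ X) : sh x ∈ X := mem_X.2 fun j => Xs_sh (mem_X.1 hx j)

theorem X_f {x : ℕ → A} (hx : x ∈ X) : f x ∈ X := mem_X.2 fun j => Xs_f (mem_X.1 hx j)

theorem X_g {x : ℕ → A} (hx : x ∈ X) : g x ∈ X := mem_X.2 fun j => Xs_g (mem_X.1 hx j)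

theorem X_io {x : ℕ → A} (hx : x ∈ X) : io x ∈ X := by
  refine mem_X.2 fun j => Xs_anti j ?_
  exact ⟨x, mem_X.1 hx j, 0, by norm_num, Or.inl rfl⟩

theorem X_pre {x : ℕ → A} (hx : x ∈ X) : ∃ z ∈ X, sh z = x := by
  have hc : ∀ j, IsClosed (Xs j ∩ sh ⁻¹' {x}) := fun j =>
    (Xs_closed j).inter (isClosed_singleton.preimage sh_cont)
  obtain ⟨z, hz⟩ := IsCompact.nonempty_iInter_of_sequence_nonempty_isCompact_isClosed
    (fun j => Xs j ∩ sh ⁻¹' {x}) (fun j => Set.inter_subset_inter_left _ (Xs_anti j))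
    (fun j => by
      obtain ⟨z, hz, e⟩ := Xs_pre (mem_X.1 hx j)
      exact ⟨z, hz, e⟩) (hc 0).isCompact hc
  rw [Set.mem_iInter] at hz
  exact ⟨z, mem_X.2 fun j => (hz j).1, (hz 0).2⟩

theorem X_lim {x : ℕ → A} (h : ∀ m : ℕ, ∃ y ∈ X, ∀ i < m, y i = x i) : x ∈ X := by
  choose y hy e using h
  refine X_closed.mem_of_tendsto (f := y) (b := Filter.atTop) ?_ (Filter.Eventually.of_forall hy)
  refine tendsto_pi_nhds.2 fun i => tendsto_const_nhds.congr' ?_
  filter_upwards [Filter.eventually_gt_atTop i] with m hm using (e m i hm).symm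

def Ag (r : ℕ) (x y : ℕ → A) : Prop := ∀ i ≤ r, x i = y i

theorem Ag.mono {r r' : ℕ} {x y : ℕ → A} (h : Ag r x y) (hr : r' ≤ r) : Ag r' x y :=
  fun i hi => h i (hi.trans hr)

theorem ag_fn (n : ℕ) {r : ℕ} {x y : ℕ → A} (h : Ag (r + n) x y) : Ag r (f^[n] x) (f^[n] y) := by
  induction n generalizing x y with
  | zero => exact h
  | succ n ih =>
    refine ih fun i hi => ?_
    show phi (x i) (x (i + 1)) = phi (y i) (y (i + 1))
    rw [h i (by omega), h (i + 1) (by omega)]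

theorem ag_back (n : ℕ) {r : ℕ} {x y : ℕ → A} (hx : x ∈ Om) (hy : y ∈ Om)
    (h : Ag (r + n) (f^[n] x) (f^[n] y)) : Ag r x y := by
  induction n generalizing x y r with
  | zero => exact h
  | succ n ih =>
    have := ih (r := r + 1) (f_Om hx) (f_Om hy) (h.mono (by omega))
    exact fun i hi => loc_inj hx hy i (this i (by omega)) (this (i + 1) (by omega))

theorem ag_io {r : ℕ} {u v : ℕ → A} (h : Ag r u v) : Ag (2 * r + 1) (io u) (io v) := by
  intro k hk
  obtain ⟨i, rfl | rfl⟩ := Nat.even_or_odd' k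
  · simp only [io, cfg_even, h i (by omega)]
  · simp only [io, cfg_odd, h i (by omega)]

theorem ag_of_io {r : ℕ} {u v : ℕ → A} (h : Ag (2 * r + 1) (io u) (io v)) : Ag r u v := by
  intro i hi
  have h1 := h (2 * i) (by omega)
  have h2 := h (2 * i + 1) (by omega)
  simp only [io, cfg_even, cfg_odd, A.mk.injEq, P.mk.injEq, true_and, and_true] at h1 h2
  exact A_ext h2.1 h2.2 h1

theorem ag_sh {r : ℕ} {x y : ℕ → A} (h : Ag (r + 1) x y) : Ag r (sh x) (sh y) :=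
  fun i hi => h (i + 1) (by omega)

theorem fn_e (n : ℕ) (x : ℕ → A) (i : ℕ) : (f^[n] x i).e = (x i).e := by
  induction n generalizing x with
  | zero => rfl
  | succ n ih => exact ih (f x)

theorem fn_t (n : ℕ) (x : ℕ → A) (i : ℕ) : ((f^[n] x i).t : ℕ) = ((x i).t + n) % 5 := by
  induction n generalizing x with
  | zero => exact (Nat.mod_eq_of_lt (x i).t.2).symm
  | succ n ih =>
    rw [Function.iterate_succ_apply, ih]
    show ((((x i).t + 1 : Fin 5) : ℕ) + n) % 5 = _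
    rw [Fin.val_add]
    show ((((x i).t : ℕ) + 1) % 5 + n) % 5 = _
    omega

theorem f5n_io (q : ℕ) {y : ℕ → A} (hy : y ∈ Om) : f^[5 * q] (io y) = io (f^[q] y) := by
  induction q generalizing y with
  | zero => rfl
  | succ q ih =>
    rw [Nat.mul_succ, Function.iterate_add_apply, f5_io hy, ih (f_Om hy)]
    rfl

theorem column {x y : ℕ → A} {T : ℕ} (h0 : x 0 = y 0)
    (h1 : ∀ t ≤ T, f^[t] (sh x) 0 = f^[t] (sh y) 0) : ∀ t ≤ T, f^[t] x 0 = f^[t] y 0 := by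
  intro t
  induction t with
  | zero => exact fun _ => h0
  | succ t ih =>
    intro ht
    have h2 := h1 t (by omega)
    rw [fn_sh, fn_sh] at h2
    rw [Function.iterate_succ_apply', Function.iterate_succ_apply']
    show phi (f^[t] x 0) (sh (f^[t] x) 0) = phi (f^[t] y 0) (sh (f^[t] y) 0)
    rw [ih (by omega), h2]

def rad (m : ℕ) : ℕ → ℕ
  | 0 => m
  | j + 1 => 2 * rad m j + 10

theorem rad_eq (m j : ℕ) : rad m j + 10 = 2 ^ j * (m + 10) := by
  induction j with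
  | zero => simp [rad]
  | succ j ih => rw [rad, pow_succ, mul_comm (2 ^ j) 2, mul_assoc, ← ih]; ring

theorem io_zero (y : ℕ → A) : io y 0 = ⟨0, false, (y 0).p⟩ := cfg_even _ _ _ 0

theorem io_one (y : ℕ → A) : io y 1 = ⟨0, true, ⟨0, (y 0).t, (y 0).e, false, false⟩⟩ :=
  cfg_odd _ _ _ 0

theorem radius (m j : ℕ) : ∀ x ∈ Xs j, ∀ y ∈ Xs j, Ag (rad m j) x y →
    ∀ t ≤ 5 ^ j * m, f^[t] x 0 = f^[t] y 0 := by
  induction j with
  | zero =>
    intro x _ y _ h t ht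
    exact ag_fn t (r := 0) (h.mono (by simpa [rad] using ht)) 0 le_rfl
  | succ j ih =>
    have key : ∀ u ∈ Xs j, ∀ v ∈ Xs j, ∀ τ < 5, ∀ τ' < 5,
        Ag (2 * rad m j + 9) (f^[τ] (io u)) (f^[τ'] (io v)) →
        ∀ t ≤ 5 ^ (j + 1) * m, f^[t] (f^[τ] (io u)) 0 = f^[t] (f^[τ'] (io v)) 0 := by
      intro u hu v hv τ hτ τ' hτ' h t ht
      have e : τ = τ' := by
        have h1 := fn_t τ (io u) 0
        have h2 := fn_t τ' (io v) 0
        rw [h 0 (by omega), h2, io_zero, io_zero] at h1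
        simp only [Fin.val_zero] at h1
        omega
      subst e
      have h3 : Ag (rad m j + 2) u v :=
        ag_of_io (ag_back τ (io_Om u) (io_Om v) (h.mono (by omega)))
      have hq : (t + τ) / 5 ≤ 5 ^ j * m := by
        rw [pow_succ, mul_comm (5 ^ j) 5, mul_assoc] at ht
        omega
      have h4 : Ag 2 (f^[(t + τ) / 5] u) (f^[(t + τ) / 5] v) := by
        intro i hi
        have a0 := ih u hu v hv (h3.mono (by omega)) _ hq
        have a1 := ih _ (Xs_sh hu) _ (Xs_sh hv) (ag_sh (h3.mono (by omega))) _ hq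
        have a2 := ih _ (Xs_sh (Xs_sh hu)) _ (Xs_sh (Xs_sh hv)) (ag_sh (ag_sh h3)) _ hq
        simp only [fn_sh] at a1 a2
        interval_cases i
        · exact a0
        · exact a1
        · exact a2
      have e : t + τ = (t + τ) % 5 + 5 * ((t + τ) / 5) := (Nat.mod_add_div _ _).symm
      rw [← Function.iterate_add_apply, ← Function.iterate_add_apply, e,
        Function.iterate_add_apply, Function.iterate_add_apply, f5n_io _ (Xs_Om hu),
        f5n_io _ (Xs_Om hv)]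
      exact ag_fn _ (r := 0) ((ag_io h4).mono (by omega)) 0 le_rfl
    rintro x ⟨u, hu, τ, hτ, hx⟩ y ⟨v, hv, τ', hτ', hy⟩ h
    have h0 := congrArg A.e (h 0 (Nat.zero_le _))
    rcases hx with rfl | rfl <;> rcases hy with rfl | rfl
    · exact key u hu v hv τ hτ τ' hτ' (h.mono (by rw [rad]; omega))
    · exfalso
      simp only [sh, fn_e, zero_add, io_zero, io_one] at h0
      exact Bool.false_ne_true h0
    · exfalso
      simp only [sh, fn_e, zero_add, io_zero, io_one] at h0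
      exact Bool.false_ne_true h0.symm
    · refine column (h 0 (Nat.zero_le _)) ?_
      have h1 := ag_sh (r := 2 * rad m j + 9) h
      rw [sh_sh_fn, sh_sh_fn] at h1 ⊢
      exact key _ (Xs_sh hu) _ (Xs_sh hv) τ hτ τ' hτ' h1

theorem unb (R : ℕ) : ∃ n : ℕ, ∃ x ∈ X, ∃ y ∈ X, Ag R x y ∧ (f^[n] x 0).p ≠ (f^[n] y 0).p := by
  induction R with
  | zero =>
    obtain ⟨c, hc, he⟩ : ∃ c ∈ X, (c 0).e = true := by
      obtain ⟨c, hc⟩ := X_ne
      cases he : (c 0).e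
      · exact ⟨sh c, X_sh hc, by have := (X_Om hc 0).2.1; rw [he] at this; exact this⟩
      · exact ⟨c, hc, he⟩
    have hw := X_io hc
    have h1 : (f (io c) 0).p = (io c 0).p := by
      show (phi (io c 0) (io c 1)).p = _
      rw [io_zero]
      rfl
    have h5 : (f^[5] (io c) 0).p ≠ (f^[0] (io c) 0).p := by
      rw [f5_io (X_Om hc), io_zero]
      show (phi (c 0) (c 1)).p ≠ (io c 0).p
      rw [io_zero]
      intro e
      have := congrArg P.h e
      simp [phi, he, tick] at this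
    obtain ⟨n, hn⟩ : ∃ n, (f^[n] (io c) 0).p ≠ (f^[n + 1] (io c) 0).p := by
      by_contra hcon
      push Not at hcon
      exact h5 (by rw [← hcon 4, ← hcon 3, ← hcon 2, ← hcon 1, ← hcon 0])
    refine ⟨5 * n, _, X_io hw, _, X_io (X_f hw), fun i hi => ?_, ?_⟩
    · obtain rfl : i = 0 := by omega
      rw [io_zero (io c), io_zero (f (io c)), h1]
    · rw [f5n_io _ (X_Om hw), f5n_io _ (X_Om (X_f hw)), io_zero, io_zero]
      exact hn
  | succ R ih =>
    obtain ⟨n, x, hx, y, hy, h, hn⟩ := ih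
    refine ⟨5 * n, _, X_io hx, _, X_io hy, (ag_io h).mono (by omega), ?_⟩
    rw [f5n_io _ (X_Om hx), f5n_io _ (X_Om hy), io_zero, io_zero]
    exact hn

theorem sublin (ε : ℝ) (hε : 0 < ε) : ∃ N : ℕ, ∀ n ≥ N, ∃ r : ℕ, (r : ℝ) ≤ ε * n ∧
    ∀ x ∈ X, ∀ y ∈ X, Ag r x y → f^[n] x 0 = f^[n] y 0 := by
  obtain ⟨j, hj⟩ := exists_pow_lt_of_lt_one (half_pos hε) (by norm_num : (2 / 5 : ℝ) < 1)
  obtain ⟨N, hN⟩ := exists_nat_ge (22 * 2 ^ j / ε : ℝ)
  refine ⟨N, fun n hn => ⟨rad (n / 5 ^ j + 1) j, ?_, fun x hx y hy h => ?_⟩⟩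
  · have h1 : (rad (n / 5 ^ j + 1) j : ℝ) + 10 = 2 ^ j * (((n / 5 ^ j : ℕ) : ℝ) + 1 + 10) := by
      exact_mod_cast rad_eq (n / 5 ^ j + 1) j
    have h2 : ((n / 5 ^ j : ℕ) : ℝ) ≤ n / 5 ^ j := by
      have := @Nat.cast_div_le ℝ _ _ _ n (5 ^ j)
      exact_mod_cast this
    have h3 : (22 * 2 ^ j : ℝ) ≤ ε * n := by
      rw [div_le_iff₀ hε] at hN
      have : (N : ℝ) ≤ n := by exact_mod_cast hn
      nlinarith
    have h4 : (2 : ℝ) ^ j * (n / 5 ^ j) = (2 / 5) ^ j * n := by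
      rw [div_pow]; ring
    have h5 : (2 / 5 : ℝ) ^ j * n ≤ ε / 2 * n := mul_le_mul_of_nonneg_right hj.le (Nat.cast_nonneg n)
    have h6 : (2 : ℝ) ^ j * ((n / 5 ^ j : ℕ) : ℝ) ≤ 2 ^ j * (n / 5 ^ j) :=
      mul_le_mul_of_nonneg_left h2 (by positivity)
    nlinarith
  · refine radius _ j x (mem_X.1 hx j) y (mem_X.1 hy j) h n ?_
    exact (Nat.lt_mul_div_succ n (by positivity)).le

end Pool.Agent.H19.Os
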