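import Pool.Agent.H19.OsB

set_option autoImplicit false
set_option maxHeartbeats 400000

namespace Pool.Agent.H19.Os

def tl (i : ℤ) (x : ℤ → A) : ℕ → A := fun n => x (i + n)

def XZ : Set (ℤ → A) := {x | ∀ i, tl i x ∈ X}

def fZ (x : ℤ → A) : ℤ → A := fun i => phi (x i) (x (i + 1))

def gZ (x : ℤ → A) : ℤ → A := fun i => psi (x i) (x (i + 1))

theorem tl_f (i : ℤ) (x : ℤ → A) : tl i (fZ x) = f (tl i x) := by
  funext n
  simp only [tl, fZ, f, Nat.cast_add, Nat.cast_one, add_assoc]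

theorem tl_g (i : ℤ) (x : ℤ → A) : tl i (gZ x) = g (tl i x) := by
  funext n
  simp only [tl, gZ, g, Nat.cast_add, Nat.cast_one, add_assoc]

theorem tl_fn (n : ℕ) (i : ℤ) (x : ℤ → A) : tl i (fZ^[n] x) = f^[n] (tl i x) := by
  induction n generalizing x with
  | zero => rfl
  | succ n ih => rw [Function.iterate_succ_apply, ih, tl_f, Function.iterate_succ_apply]

theorem tl_zero (i : ℤ) (x : ℤ → A) : tl i x 0 = x i := by simp [tl]

theorem tl_sh (i : ℤ) (x : ℤ → A) : tl i (fun j => x (j + 1)) = tl (i + 1) x := by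
  funext n
  simp only [tl]
  congr 1
  ring

theorem XZ_sh (x : ℤ → A) : x ∈ XZ ↔ (fun j => x (j + 1)) ∈ XZ := by
  constructor
  · intro h i
    rw [tl_sh]
    exact h _
  · intro h i
    have := h (i - 1)
    rwa [tl_sh, sub_add_cancel] at this

theorem XZ_f {x : ℤ → A} (h : x ∈ XZ) : fZ x ∈ XZ := fun i => by rw [tl_f]; exact X_f (h i)

theorem XZ_g {x : ℤ → A} (h : x ∈ XZ) : gZ x ∈ XZ := fun i => by rw [tl_g]; exact X_g (h i)

theorem fZ_gZ {x : ℤ → A} (h : x ∈ XZ) : fZ (gZ x) = x := by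
  funext i
  rw [← tl_zero i (fZ _), tl_f, tl_g, f_g (X_Om (h i)), tl_zero]

theorem gZ_fZ {x : ℤ → A} (h : x ∈ XZ) : gZ (fZ x) = x := by
  funext i
  have h1 := X_Om (h i)
  rw [← tl_zero i (gZ _), tl_g, tl_f, f_inj (g_Om (f_Om h1)) h1 (f_g (f_Om h1)), tl_zero]

theorem XZ_closed : IsClosed XZ := by
  have : XZ = ⋂ i, tl i ⁻¹' X := by
    ext x
    simp only [XZ, Set.mem_setOf_eq, Set.mem_iInter, Set.mem_preimage]
  rw [this]
  exact isClosed_iInter fun i => X_closed.preimage (continuous_pi fun n => continuous_apply _)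

theorem X_shn (m : ℕ) {x : ℕ → A} (hx : x ∈ X) : (fun n => x (m + n)) ∈ X := by
  induction m with
  | zero => simpa using hx
  | succ m ih =>
    have := X_sh ih
    convert this using 2 with n
    simp only [sh]
    congr 1
    ring

theorem XZ_ext {x : ℕ → A} (hx : x ∈ X) : ∃ z ∈ XZ, tl 0 z = x := by
  have h0 : ∀ x : ℕ → A, ∃ z, x ∈ X → z ∈ X ∧ sh z = x := by
    intro x
    by_cases hx : x ∈ X
    · obtain ⟨z, hz⟩ := X_pre hx
      exact ⟨z, fun _ => hz⟩
    · exact ⟨x, fun h => absurd h hx⟩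
  choose pre h0 using h0
  have h1 : ∀ {x}, x ∈ X → pre x ∈ X := fun h => (h0 _ h).1
  have h2 : ∀ {x}, x ∈ X → sh (pre x) = x := fun h => (h0 _ h).2
  have h3 : ∀ m, pre^[m] x ∈ X := by
    intro m
    induction m with
    | zero => exact hx
    | succ m ih => rw [Function.iterate_succ_apply']; exact h1 ih
  have h4 : ∀ m n, pre^[m + 1] x (n + 1) = pre^[m] x n := by
    intro m n
    rw [Function.iterate_succ_apply']
    exact congrFun (h2 (h3 m)) n
  have h5 : ∀ m n k, pre^[m + k] x (n + k) = pre^[m] x n := by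
    intro m n k
    induction k with
    | zero => rfl
    | succ k ih => rw [← add_assoc, ← add_assoc, h4, ih]
  refine ⟨fun i => pre^[(-i).toNat] x i.toNat, fun i => ?_, ?_⟩
  · have := X_shn i.toNat (h3 (-i).toNat)
    convert this using 1
    funext n
    show pre^[(-(i + n)).toNat] x (i + n).toNat = _
    have e1 : (-i).toNat = (-(i + n)).toNat + ((-i).toNat - (-(i + n)).toNat) := by omega
    have e2 : i.toNat + n = (i + n).toNat + ((-i).toNat - (-(i + n)).toNat) := by omega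
    have := h5 (-(i + n)).toNat (i + n).toNat ((-i).toNat - (-(i + n)).toNat)
    rw [← e1, ← e2] at this
    exact this.symm
  · funext n
    simp [tl]

theorem fZ_order (n : ℕ) (hn : 0 < n) : ∃ x ∈ XZ, fZ^[n] x ≠ x := by
  by_contra hcon
  push Not at hcon
  have h1 : ∀ x ∈ X, f^[n] x = x := by
    intro x hx
    obtain ⟨z, hz, rfl⟩ := XZ_ext hx
    rw [← tl_fn, hcon z hz]
  have h2 : ∀ x ∈ X, ∀ m, f^[m] x = f^[m % n] x := by
    intro x hx m
    conv_lhs => rw [← Nat.mod_add_div m n, Function.iterate_add_apply, Function.iterate_mul,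
      Function.iterate_fixed (h1 x hx)]
  obtain ⟨m, x, hx, y, hy, h, hne⟩ := unb n
  apply hne
  rw [h2 x hx, h2 y hy, ag_fn (m % n) (r := 0) (h.mono (by have := Nat.mod_lt m hn; omega)) 0 le_rfl]

theorem sublinZ (ε : ℝ) (hε : 0 < ε) : ∃ N : ℕ, ∀ n ≥ N, ∃ r : ℕ, (r : ℝ) ≤ ε * n ∧
    ∀ x ∈ XZ, ∀ y ∈ XZ, ∀ i : ℤ, (∀ j : ℕ, j ≤ r → x (i + j) = y (i + j)) →
      fZ^[n] x i = fZ^[n] y i := by
  obtain ⟨N, hN⟩ := sublin ε hε
  refine ⟨N, fun n hn => ?_⟩
  obtain ⟨r, hr, h⟩ := hN n hn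
  refine ⟨r, hr, fun x hx y hy i hxy => ?_⟩
  rw [← tl_zero i (fZ^[n] x), ← tl_zero i (fZ^[n] y), tl_fn, tl_fn]
  exact h _ (hx i) _ (hy i) hxy

end Pool.Agent.H19.Os
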