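import Mathlib

/-! Point-finite cellularity of powers of `C_p(X)`. -/

namespace Pool.Agent.H19.Pfc

open Set Filter Topology Cardinal

universe u

/-- Sizes of point-finite families of nonempty open sets. -/
def PF (Z : Type u) [TopologicalSpace Z] : Set Cardinal.{u} :=
  {c | ∃ 𝒰 : Set (Set Z), (∀ U ∈ 𝒰, IsOpen U ∧ U.Nonempty) ∧
    (∀ y : Z, {U | U ∈ 𝒰 ∧ y ∈ U}.Finite) ∧ c = #𝒰}

/-- Indexed point-finite families have size at most `μ`. -/
def Bd (Z : Type u) [TopologicalSpace Z] (μ : Cardinal.{u}) : Prop :=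
  ∀ (J : Type u) (U : J → Set Z), (∀ j, IsOpen (U j) ∧ (U j).Nonempty) →
    (∀ y, {j | y ∈ U j}.Finite) → #J ≤ μ

variable {Z W : Type u} [TopologicalSpace Z] [TopologicalSpace W] {μ : Cardinal.{u}}

lemma bdd : BddAbove (PF Z) := ⟨#(Set Z), by rintro _ ⟨𝒰, -, -, rfl⟩; exact mk_set_le _⟩

lemma le_of_surj {g : Z → W} (hg : Continuous g) (hs : g.Surjective) :
    sSup (PF W) ≤ sSup (PF Z) := by
  refine csSup_le_csSup' bdd ?_
  rintro _ ⟨𝒰, h1, h2, rfl⟩
  refine ⟨preimage g '' 𝒰, ?_, fun y => ?_, (mk_image_eq hs.preimage_injective).symm⟩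
  · rintro _ ⟨U, hU, rfl⟩
    exact ⟨(h1 U hU).1.preimage hg, (h1 U hU).2.preimage hs⟩
  · refine ((h2 (g y)).image (preimage g)).subset ?_
    rintro _ ⟨⟨U, hU, rfl⟩, hy⟩
    exact ⟨U, ⟨hU, hy⟩, rfl⟩

lemma bd_sSup (h : ℵ₀ ≤ sSup (PF Z)) : Bd Z (sSup (PF Z)) := by
  intro J U h1 h2
  have h3 : #(range U) ≤ sSup (PF Z) := le_csSup bdd ⟨range U, forall_mem_range.2 h1, fun y =>
    ((h2 y).image U).subset (by rintro _ ⟨⟨j, rfl⟩, hy⟩; exact ⟨j, hy, rfl⟩), rfl⟩
  refine (mk_le_mk_mul_of_mk_preimage_le (c := ℵ₀) (rangeFactorization U) ?_).trans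
    (mul_le_of_le h h3 h)
  rintro ⟨_, j, rfl⟩
  obtain ⟨y, hy⟩ := (h1 j).2
  refine ((h2 y).subset fun i hi => ?_).lt_aleph0.le
  have : U i = U j := congrArg Subtype.val hi
  show y ∈ U i
  rwa [this]

lemma sSup_le (h : Bd Z μ) : sSup (PF Z) ≤ μ := by
  refine csSup_le' ?_
  rintro _ ⟨𝒰, h1, h2, rfl⟩
  exact h 𝒰 Subtype.val (fun U => h1 U U.2) fun y =>
    ((h2 y).preimage Subtype.val_injective.injOn).subset fun U hU => ⟨U.2, hU⟩

lemma Bd.dense (h : Bd Z μ) {g : Z → W} (hg : Continuous g) (hd : DenseRange g) : Bd W μ :=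
  fun J U h1 h2 => h J (fun j => g ⁻¹' U j) (fun j => ⟨(h1 j).1.preimage hg,
    hd.exists_mem_open (h1 j).1 (h1 j).2⟩) fun y => h2 (g y)

theorem bd_pi {ι : Type u} (hμ : ℵ₀ ≤ μ) (h : ∀ ρ : Finset ι, Bd (ρ → Z) μ) : Bd (ι → Z) μ := by
  classical
  intro J U h1 h2
  choose a ha using fun j => (h1 j).2
  choose F V hV hVU using fun j => isOpen_pi_iff.1 (h1 j).1 (a j) (ha j)
  have hD : ∀ (ρ : Finset ι) (M : Set J), M.PairwiseDisjoint (fun j => F j \ ρ) → #M ≤ μ := by
    intro ρ M hM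
    refine h ρ M (fun j => {y | ∀ i : ρ, i.1 ∈ F j → y i ∈ V j i}) (fun j => ⟨?_,
      fun i => a j i, fun i hi => (hV j i hi).2⟩) fun y => ?_
    · simp only [setOf_forall]
      exact isOpen_iInter_of_finite fun i => isOpen_iInter_of_finite fun hi =>
        (hV j i hi).1.preimage (continuous_apply i)
    · rcases isEmpty_or_nonempty M with hM' | ⟨⟨j0⟩⟩
      · exact toFinite _
      refine ((h2 fun i => if hi : i ∈ ρ then y ⟨i, hi⟩ else
        if hj : ∃ j ∈ M, i ∈ F j then a hj.choose i else a j0 i).preimage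
        Subtype.val_injective.injOn).subset fun j hj => hVU j fun i hi => ?_
      by_cases hiρ : i ∈ ρ
      · simp only [dif_pos hiρ]
        exact hj ⟨i, hiρ⟩ hi
      · have h3 : ∃ j ∈ M, i ∈ F j := ⟨j, j.2, hi⟩
        have h4 : h3.choose = j := hM.elim_finset h3.choose_spec.1 j.2 i
          (Finset.mem_sdiff.2 ⟨h3.choose_spec.2, hiρ⟩) (Finset.mem_sdiff.2 ⟨hi, hiρ⟩)
        simp only [dif_neg hiρ, dif_pos h3, h4]
        exact (hV j i hi).2
  have hP : ∀ (n : ℕ) (ρ : Finset ι), #{j | (F j \ ρ).card < n} ≤ μ := by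
    intro n
    induction n with
    | zero => simp
    | succ n ih =>
      intro ρ
      obtain ⟨M, hM⟩ := zorn_subset {M : Set J | M.PairwiseDisjoint fun j => F j \ ρ}
        fun c hc hch => ⟨⋃₀ c, (pairwise_sUnion hch.directedOn).2 fun a ha => hc ha,
          fun s hs => subset_sUnion_of_mem hs⟩
      have h3 : {j | (F j \ ρ).card < n + 1} ⊆
          M ∪ ⋃ m : M, ⋃ s : F m, {j | (F j \ insert s.1 ρ).card < n} := by
        intro j hj
        by_contra h4
        rw [mem_union, not_or] at h4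
        refine h4.1 (hM.2 (hM.1.insert_of_notMem h4.1 fun m hm => Finset.disjoint_left.2
          fun s hs hs' => h4.2 ?_) (subset_insert _ _) (mem_insert _ _))
        refine mem_iUnion₂.2 ⟨⟨m, hm⟩, ⟨s, (Finset.mem_sdiff.1 hs').1⟩, ?_⟩
        show (F j \ insert s ρ).card < n
        have h5 := Finset.card_erase_of_mem hs
        have h6 := Finset.card_pos.2 ⟨s, hs⟩
        rw [Finset.sdiff_insert]
        simp only [mem_setOf_eq] at hj
        omega
      refine (mk_le_mk_of_subset h3).trans ((mk_union_le _ _).trans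
        (add_le_of_le hμ (hD ρ M hM.1) ((mk_iUnion_le _).trans (mul_le_of_le hμ (hD ρ M hM.1)
          (ciSup_le' fun m => (mk_iUnion_le _).trans (mul_le_of_le hμ
            ((lt_aleph0_of_finite _).le.trans hμ) (ciSup_le' fun s => ih _)))))))
  have h3 := mk_iUnion_le_lift (fun n : ℕ => {j | (F j \ ∅).card < n})
  simp only [lift_uzero, mk_nat, lift_aleph0] at h3
  rw [eq_univ_of_forall (s := ⋃ n : ℕ, {j | (F j \ ∅).card < n})
    (fun j => mem_iUnion.2 ⟨_, Nat.lt_succ_self _⟩), mk_univ] at h3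
  exact h3.trans (mul_le_of_le hμ hμ (ciSup_le' fun n => hP n ∅))

variable {X : Type u} [TopologicalSpace X]

lemma interp [T35Space X] (t : X → ℝ) (E : Finset X) :
    ∃ h : X → ℝ, Continuous h ∧ ∀ x ∈ E, h x = t x := by
  classical
  induction E using Finset.induction_on with
  | empty => exact ⟨0, continuous_const, by simp⟩
  | insert x E hx ih =>
    obtain ⟨h, hc, hE⟩ := ih
    obtain ⟨u, hu, hu0, hu1⟩ := CompletelyRegularSpace.completely_regular x (E : Set X)
      E.finite_toSet.isClosed hx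
    refine ⟨fun y => h y * u y + t x * (1 - u y), by fun_prop, fun y hy => ?_⟩
    rcases Finset.mem_insert.1 hy with rfl | hy
    · simp [hu0]
    · simp [hu1 hy, hE y hy]

lemma exists_dense [T35Space X] (ρ : Type u) [Finite ρ] :
    ∃ g : {f : X → ℝ // Continuous f} → ρ → {f : X → ℝ // Continuous f},
      Continuous g ∧ DenseRange g := by
  obtain ⟨d, hd⟩ := TopologicalSpace.exists_dense_seq (ρ → ℝ)
  obtain ⟨g, hg⟩ := ContinuousMap.exists_extension Nat.isClosedEmbedding_coe_real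
    (⟨d, continuous_of_discreteTopology⟩ : C(ℕ, ρ → ℝ))
  have hg' : ∀ n : ℕ, g n = d n := fun n => DFunLike.congr_fun hg n
  refine ⟨fun h i => ⟨fun x => g (h.1 x) i, (continuous_apply i).comp (g.continuous.comp h.2)⟩,
    continuous_pi fun i => Continuous.subtype_mk (continuous_pi fun x => (continuous_apply i).comp
      (g.continuous.comp ((continuous_apply x).comp continuous_subtype_val))) _, fun p => ?_⟩
  have h1 : DenseRange (Subtype.val : {f : X → ℝ // Continuous f} → X → ℝ) := by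
    intro t
    choose h hc hE using interp t
    refine mem_closure_of_tendsto (b := atTop) (f := h) (tendsto_pi_nhds.2 fun x => ?_)
      (Eventually.of_forall fun E => ⟨⟨_, hc E⟩, rfl⟩)
    exact tendsto_const_nhds.congr' ((eventually_ge_atTop {x}).mono fun E h' =>
      (hE E x (by simpa using h')).symm)
  have h2 : DenseRange g := hd.mono (range_subset_iff.2 fun n : ℕ => ⟨n, hg' n⟩)
  have h3 : DenseRange (Function.swap : (X → ρ → ℝ) → ρ → X → ℝ) :=
    Function.Surjective.denseRange fun f => ⟨Function.swap f, rfl⟩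
  have h4 := (h3.comp (DenseRange.piMap fun _ : X => h2) (by unfold Function.swap; fun_prop)).comp h1
    (by unfold Function.swap Pi.map Function.comp; fun_prop)
  rw [(IsInducing.piMap fun _ : ρ => IsInducing.subtypeVal).closure_eq_preimage_closure_image,
    ← range_comp]
  exact h4 _

theorem main [T35Space X] (ι : Type u) [Nonempty ι] :
    sSup (PF {f : X → ℝ // Continuous f}) = sSup (PF (ι → {f : X → ℝ // Continuous f})) := by
  refine le_antisymm (le_of_surj (continuous_apply (Classical.arbitrary ι))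
    fun f => ⟨fun _ => f, rfl⟩) ?_
  rcases isEmpty_or_nonempty X with hX | ⟨⟨x⟩⟩
  · exact le_of_surj (g := fun f _ => f) (by fun_prop) fun y =>
      ⟨y (Classical.arbitrary ι), Subsingleton.elim _ _⟩
  have h1 : ℵ₀ ≤ sSup (PF {f : X → ℝ // Continuous f}) := by
    refine le_trans ?_ (le_csSup bdd
      ⟨range fun n : ℕ => {f : {f : X → ℝ // Continuous f} | n < f.1 x}, forall_mem_range.2 fun n =>
      ⟨isOpen_lt continuous_const ((continuous_apply x).comp continuous_subtype_val),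
        ⟨fun _ => n + 1, continuous_const⟩, lt_add_one (n : ℝ)⟩, fun y => ?_, rfl⟩)
    · refine infinite_iff.1 (infinite_range_of_injective fun n m h => ?_).to_subtype
      have h2 := fun k : ℕ => Set.ext_iff.1 h ⟨fun _ => k, continuous_const⟩
      simp only [mem_setOf_eq, Nat.cast_lt] at h2
      have h3 := h2 n
      have h4 := h2 m
      omega
    · refine ((finite_Iio ⌈y.1 x⌉₊).image
        fun n : ℕ => {f : {f : X → ℝ // Continuous f} | n < f.1 x}).subset ?_
      rintro _ ⟨⟨n, rfl⟩, hy⟩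
      exact ⟨n, Nat.lt_ceil.2 hy, rfl⟩
  refine sSup_le (bd_pi h1 fun ρ => ?_)
  obtain ⟨g, hg, hd⟩ := exists_dense (X := X) ρ
  exact (bd_sSup h1).dense hg hd

end Pool.Agent.H19.Pfc
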