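import Mathlib

set_option autoImplicit false
open Finset

namespace Pool.Agent.H19.PD

/-- An acyclic orientation is determined by its in-degrees. -/
theorem orient_det {α : Type} [Fintype α] [DecidableEq α] (Γ : α → Finset α)
    (hs : ∀ a b, b ∈ Γ a → a ∈ Γ b) (g g' : α → ℤ) (hg : Function.Injective g)
    (hg' : Function.Injective g')
    (h : ∀ a, ((Γ a).filter (fun x => g x < g a)).card = ((Γ a).filter (fun x => g' x < g' a)).card) :
    ∀ a, ∀ x ∈ Γ a, (g x < g a ↔ g' x < g' a) := by
  classical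
  by_contra hcon
  have hne : (univ.filter (fun a => ∃ x ∈ Γ a, ¬ (g x < g a ↔ g' x < g' a))).Nonempty := by
    push Not at hcon
    obtain ⟨a, x, hx, hh⟩ := hcon
    refine ⟨a, ?_⟩
    simp only [mem_filter, mem_univ, true_and]
    exact ⟨x, hx, by omega⟩
  obtain ⟨a, ha, hmin⟩ := exists_min_image _ g hne
  simp only [mem_filter, mem_univ, true_and] at ha hmin
  have key : ∀ x ∈ Γ a, ¬ (g x < g a ↔ g' x < g' a) → g a ≤ g x := by
    intro x hx hh
    apply hmin x
    refine ⟨a, hs a x hx, ?_⟩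
    have hxa : x ≠ a := by
      rintro rfl
      simp at hh
    have h1 : g x ≠ g a := fun e => hxa (hg e)
    have h2 : g' x ≠ g' a := fun e => hxa (hg' e)
    omega
  obtain ⟨x, hx, hh⟩ := ha
  have hsub : (Γ a).filter (fun x => g x < g a) ⊂ (Γ a).filter (fun x => g' x < g' a) := by
    rw [Finset.ssubset_iff_of_subset]
    · have := key x hx hh
      refine ⟨x, ?_, ?_⟩
      · simp only [mem_filter]
        exact ⟨hx, by omega⟩
      · simp only [mem_filter]
        omega
    · intro y hy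
      simp only [mem_filter] at hy ⊢
      refine ⟨hy.1, ?_⟩
      by_contra hc
      have := key y hy.1 (by tauto)
      omega
  have := card_lt_card hsub
  rw [h a] at this
  exact lt_irrefl _ this

theorem seg_sub {α : Type} [DecidableEq α] (N : Finset α) (g g' : α → ℤ) (t t' : ℤ)
    (ho : ∀ a ∈ N, ∀ x ∈ N, (g x < g a ↔ g' x < g' a))
    (h : (N.filter (fun x => g x < t)).card = (N.filter (fun x => g' x < t')).card) :
    ∀ a ∈ N, g a < t → g' a < t' := by
  intro a ha h1
  by_contra h2
  have hsub : N.filter (fun x => g' x < t') ⊂ N.filter (fun x => g x < t) := by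
    rw [Finset.ssubset_iff_of_subset]
    · refine ⟨a, ?_, ?_⟩
      · simp only [mem_filter]
        exact ⟨ha, h1⟩
      · simp only [mem_filter]
        tauto
    · intro y hy
      simp only [mem_filter] at hy ⊢
      refine ⟨hy.1, ?_⟩
      have := (ho a ha y hy.1).2 (by omega)
      omega
  have := card_lt_card hsub
  rw [h] at this
  exact lt_irrefl _ this

theorem succ_le_mul_pow (x K : ℕ) (hK : 0 < K) : x + 1 ≤ K * 2 ^ (x / K) := by
  have h1 : x / K + 1 ≤ 2 ^ (x / K) := Nat.lt_two_pow_self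
  have h2 : x < K * (x / K + 1) := Nat.lt_mul_div_succ x hK
  calc x + 1 ≤ K * (x / K + 1) := h2
    _ ≤ K * 2 ^ (x / K) := Nat.mul_le_mul_left _ h1

theorem prod_bound {α : Type} [Fintype α] (x : α → ℕ) (K M : ℕ) (hK : 0 < K)
    (hs : ∑ a, x a ≤ K * M) (hc : Fintype.card α ≤ M) : ∏ a, (x a + 1) ≤ (2 * K) ^ M := by
  have h1 : ∏ a, (x a + 1) ≤ ∏ a, (K * 2 ^ (x a / K)) :=
    Finset.prod_le_prod' fun a _ => succ_le_mul_pow _ _ hK
  rw [prod_mul_distrib, prod_const, prod_pow_eq_pow_sum, card_univ] at h1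
  have h2 : ∑ a, x a / K ≤ M := by
    have h3 : K * ∑ a, x a / K ≤ ∑ a, x a := by
      rw [mul_sum]
      exact sum_le_sum fun a _ => Nat.mul_div_le _ _
    exact Nat.le_of_mul_le_mul_left (h3.trans hs) hK
  calc _ ≤ _ := h1
    _ ≤ K ^ M * 2 ^ M := Nat.mul_le_mul (Nat.pow_le_pow_right hK hc)
        (Nat.pow_le_pow_right (by norm_num) h2)
    _ = (2 * K) ^ M := by rw [mul_pow, mul_comm]

theorem key {α β : Type} [Fintype α] [Fintype β] [DecidableEq α] [DecidableEq β] (d D : ℕ)
    (hD : 0 < D) (hnum : (2 * D ^ 2 * (D + 1)) ^ d < 2 ^ D)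
    (hcard : Fintype.card α ≤ Fintype.card β) (hβ : 0 < Fintype.card β)
    (N : β → Finset α) (hN : ∀ b, (N b).card = D)
    (h : ∀ H : β → Finset α, (∀ b, H b ⊆ N b) →
      ∃ (g : Fin d → α → ℤ) (t : Fin d → β → ℤ), (∀ i, Function.Injective (g i)) ∧
        ∀ b a, a ∈ N b → (a ∈ H b ↔ ∀ i, g i a < t i b)) : False := by
  classical
  have h' : ∀ H : β → Finset α, ∃ (g : Fin d → α → ℤ) (t : Fin d → β → ℤ), (∀ b, H b ⊆ N b) →
      (∀ i, Function.Injective (g i)) ∧ ∀ b a, a ∈ N b → (a ∈ H b ↔ ∀ i, g i a < t i b) := by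
    intro H
    by_cases hH : ∀ b, H b ⊆ N b
    · obtain ⟨g, t, hh⟩ := h H hH
      exact ⟨g, t, fun _ => hh⟩
    · exact ⟨0, 0, fun hh => absurd hh hH⟩
  choose g t hgt using h'
  let Γ : α → Finset α := fun a => (univ.filter (fun b => a ∈ N b)).biUnion N
  have hΓ : ∀ a x, x ∈ Γ a ↔ ∃ b, a ∈ N b ∧ x ∈ N b := by
    intro a x
    simp [Γ]
  have hsum : ∑ a, (Γ a).card ≤ D ^ 2 * Fintype.card β := by
    have h1 : ∀ a, (Γ a).card ≤ ∑ b, if a ∈ N b then D else 0 := by
      intro a
      refine card_biUnion_le.trans ?_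
      rw [sum_filter]
      simp [hN]
    refine (sum_le_sum fun a _ => h1 a).trans ?_
    rw [sum_comm]
    have h2 : ∀ b, ∑ a, (if a ∈ N b then D else 0) = D ^ 2 := by
      intro b
      rw [← sum_filter]
      simp [hN, sq]
    simp [h2, mul_comm]
  let X : Finset (β → Finset α) := Fintype.piFinset (fun b => (N b).powerset)
  let Y : Finset (Fin d → (α → ℕ) × (β → ℕ)) := Fintype.piFinset (fun _ =>
    (Fintype.piFinset (fun a => range ((Γ a).card + 1))) ×ˢ
      (Fintype.piFinset (fun _ => range (D + 1))))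
  let code : (β → Finset α) → (Fin d → (α → ℕ) × (β → ℕ)) := fun H i =>
    (fun a => ((Γ a).filter (fun x => g H i x < g H i a)).card,
     fun b => ((N b).filter (fun x => g H i x < t H i b)).card)
  have hX : ∀ H, H ∈ X ↔ ∀ b, H b ⊆ N b := by
    intro H
    simp [X]
  have hmaps : ∀ H ∈ X, code H ∈ Y := by
    intro H _
    simp only [Y, code, Fintype.mem_piFinset, mem_product, mem_range]
    intro i
    refine ⟨fun a => Nat.lt_succ_of_le (card_filter_le _ _), fun b => Nat.lt_succ_of_le ?_⟩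
    rw [← hN b]
    exact card_filter_le _ _
  have hsub : ∀ H ∈ X, ∀ H' ∈ X, code H = code H' → ∀ b, H b ⊆ H' b := by
    intro H hH H' hH' he b a ha
    rw [hX] at hH hH'
    obtain ⟨hi, hr⟩ := hgt H hH
    obtain ⟨hi', hr'⟩ := hgt H' hH'
    have haN := hH b ha
    rw [hr' b a haN]
    rw [hr b a haN] at ha
    intro i
    have e1 := congrFun he i
    simp only [code, Prod.mk.injEq] at e1
    have ho := orient_det Γ (by
      intro a x hx
      rw [hΓ] at hx ⊢
      obtain ⟨b, h1, h2⟩ := hx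
      exact ⟨b, h2, h1⟩) (g H i) (g H' i) (hi i) (hi' i) (fun a => congrFun e1.1 a)
    exact seg_sub (N b) (g H i) (g H' i) (t H i b) (t H' i b)
      (fun a ha x hx => ho a x ((hΓ a x).2 ⟨b, ha, hx⟩)) (congrFun e1.2 b) a haN (ha i)
  have hinj : Set.InjOn code X := by
    intro H hH H' hH' he
    funext b
    exact Subset.antisymm (hsub H hH H' hH' he b) (hsub H' hH' H hH he.symm b)
  have hle : X.card ≤ Y.card := card_le_card_of_injOn code hmaps hinj
  have hXc : X.card = (2 ^ D) ^ Fintype.card β := by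
    simp [X, Fintype.card_piFinset, hN]
  have hYc : Y.card = ((∏ a, ((Γ a).card + 1)) * (D + 1) ^ Fintype.card β) ^ d := by
    simp [Y, Fintype.card_piFinset]
  have hp := prod_bound (fun a => (Γ a).card) (D ^ 2) (Fintype.card β) (by positivity) hsum hcard
  have h3 : Y.card ≤ ((2 * D ^ 2 * (D + 1)) ^ d) ^ Fintype.card β := by
    rw [hYc, ← pow_mul, mul_comm d, pow_mul, mul_pow (2 * D ^ 2)]
    gcongr
  have h4 : ((2 * D ^ 2 * (D + 1)) ^ d) ^ Fintype.card β < (2 ^ D) ^ Fintype.card β :=
    Nat.pow_lt_pow_left hnum (by omega)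
  omega

theorem exists_D (d : ℕ) : ∃ D : ℕ, 0 < D ∧ (2 * D ^ 2 * (D + 1)) ^ d < 2 ^ D := by
  have h := tendsto_pow_const_div_const_pow_of_one_lt (3 * d) (r := 2) (by norm_num)
  have hev := h.eventually (gt_mem_nhds (show (0 : ℝ) < 1 / 4 ^ d by positivity))
  obtain ⟨N, hN⟩ := Filter.eventually_atTop.1 hev
  refine ⟨N + 1, by omega, ?_⟩
  have h1 := hN (N + 1) (by omega)
  rw [div_lt_div_iff₀ (by positivity) (by positivity), one_mul] at h1
  have h2 : (N + 1) ^ (3 * d) * 4 ^ d < 2 ^ (N + 1) := by exact_mod_cast h1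
  refine lt_of_le_of_lt ?_ h2
  rw [pow_mul, ← mul_pow]
  apply Nat.pow_le_pow_left
  nlinarith [Nat.zero_le (N ^ 2), Nat.zero_le (N ^ 3)]

/-- every subrelation of `R` is an intersection of `d` threshold relations -/
def Rep {α β : Type} (d : ℕ) (R : α → β → Prop) : Prop :=
  ∀ R' : α → β → Prop, (∀ a b, R' a b → R a b) →
    ∃ (g : Fin d → α → ℤ) (t : Fin d → β → ℤ), (∀ i, Function.Injective (g i)) ∧
      (∀ i, Function.Injective (t i)) ∧ ∀ a b, (R' a b ↔ ∀ i, g i a < t i b)

theorem Rep.swap {α β : Type} {d : ℕ} {R : α → β → Prop} (h : Rep d R) :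
    Rep d (fun b a => R a b) := by
  intro R' hR'
  obtain ⟨g, t, h1, h2, h3⟩ := h (fun a b => R' b a) (fun a b hh => hR' b a hh)
  refine ⟨fun i b => - t i b, fun i a => - g i a, ?_, ?_, ?_⟩
  · intro i x y hxy
    exact h2 i (neg_injective hxy)
  · intro i x y hxy
    exact h1 i (neg_injective hxy)
  · intro b a
    simp only [neg_lt_neg_iff]
    exact h3 a b

open Classical in
theorem nomin {α β : Type} (d D : ℕ) (hD : 0 < D) (hnum : (2 * D ^ 2 * (D + 1)) ^ d < 2 ^ D)
    (R : α → β → Prop) (hR : Rep d R) (S : Finset α) (T : Finset β) (hST : S.card ≤ T.card)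
    (hT : T.Nonempty) (hdeg : ∀ b ∈ T, D ≤ (S.filter (fun a => R a b)).card) : False := by
  have h1 : ∀ b : T, ∃ N : Finset S, N.card = D ∧ ∀ a ∈ N, R a.1 b.1 := by
    intro b
    have h2 : D ≤ (univ.filter (fun a : S => R a.1 b.1)).card := by
      refine (hdeg b.1 b.2).trans (le_of_eq ?_)
      symm
      refine card_bij (fun a _ => a.1) ?_ ?_ ?_
      · intro a ha
        simp only [mem_filter, mem_univ, true_and] at ha ⊢
        exact ⟨a.2, ha⟩
      · intro a _ b _ h
        exact Subtype.ext h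
      · intro a ha
        simp only [mem_filter] at ha
        exact ⟨⟨a, ha.1⟩, by simpa using ha.2, rfl⟩
    obtain ⟨N, hN1, hN2⟩ := exists_subset_card_eq h2
    refine ⟨N, hN2, fun a ha => ?_⟩
    simpa using hN1 ha
  choose N hN hNR using h1
  refine key d D hD hnum (α := S) (β := T) (by simpa using hST) (by simpa using hT) N hN ?_
  intro H hH
  obtain ⟨g, t, h1, -, h3⟩ := hR (fun a b => ∃ (ha : a ∈ S) (hb : b ∈ T), ⟨a, ha⟩ ∈ H ⟨b, hb⟩) (by
    rintro a b ⟨ha, hb, hh⟩
    exact hNR _ _ (hH _ hh))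
  refine ⟨fun i a => g i a.1, fun i b => t i b.1, fun i x y hxy => Subtype.ext (h1 i hxy), ?_⟩
  intro b a _
  rw [← h3]
  constructor
  · intro hh
    exact ⟨a.2, b.2, hh⟩
  · rintro ⟨_, _, hh⟩
    exact hh

open Classical in
theorem edge_bound {α β : Type} (d D : ℕ) (hD : 0 < D)
    (hnum : (2 * D ^ 2 * (D + 1)) ^ d < 2 ^ D) (R : α → β → Prop) (hR : Rep d R) (k : ℕ) :
    ∀ (S : Finset α) (T : Finset β), S.card + T.card = k →
      ((S ×ˢ T).filter (fun p => R p.1 p.2)).card ≤ D * k := by
  induction k with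
  | zero =>
    intro S T h
    have : S = ∅ := card_eq_zero.1 (by omega)
    simp [this]
  | succ k ih =>
    intro S T h
    by_cases h1 : ∃ a ∈ S, (T.filter (fun b => R a b)).card < D
    · obtain ⟨a, ha, hlt⟩ := h1
      have h2 := ih (S.erase a) T (by rw [card_erase_of_mem ha]; have := card_pos.2 ⟨a, ha⟩; omega)
      have h3 : (S ×ˢ T).filter (fun p => R p.1 p.2) ⊆
          ((S.erase a ×ˢ T).filter (fun p => R p.1 p.2)) ∪
            (T.filter (fun b => R a b)).image (fun b => (a, b)) := by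
        rintro ⟨x, y⟩ hp
        simp only [mem_filter, mem_product, mem_union, mem_erase, mem_image, Prod.mk.injEq] at hp ⊢
        by_cases hx : x = a
        · right
          subst hx
          exact ⟨y, ⟨hp.1.2, hp.2⟩, rfl, rfl⟩
        · left
          tauto
      have h4 := (card_le_card h3).trans (card_union_le _ _)
      have h5 : ((T.filter (fun b => R a b)).image (fun b => (a, b))).card
          ≤ (T.filter (fun b => R a b)).card := card_image_le
      rw [mul_add]
      omega
    by_cases h1' : ∃ b ∈ T, (S.filter (fun a => R a b)).card < D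
    · obtain ⟨b, hb, hlt⟩ := h1'
      have h2 := ih S (T.erase b) (by rw [card_erase_of_mem hb]; have := card_pos.2 ⟨b, hb⟩; omega)
      have h3 : (S ×ˢ T).filter (fun p => R p.1 p.2) ⊆
          ((S ×ˢ T.erase b).filter (fun p => R p.1 p.2)) ∪
            (S.filter (fun a => R a b)).image (fun a => (a, b)) := by
        rintro ⟨x, y⟩ hp
        simp only [mem_filter, mem_product, mem_union, mem_erase, mem_image, Prod.mk.injEq] at hp ⊢
        by_cases hy : y = b
        · right
          subst hy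
          exact ⟨x, ⟨hp.1.1, hp.2⟩, rfl, rfl⟩
        · left
          tauto
      have h4 := (card_le_card h3).trans (card_union_le _ _)
      have h5 : ((S.filter (fun a => R a b)).image (fun a => (a, b))).card
          ≤ (S.filter (fun a => R a b)).card := card_image_le
      rw [mul_add]
      omega
    push Not at h1 h1'
    exfalso
    by_cases hST : S.card ≤ T.card
    · exact nomin d D hD hnum R hR S T hST (card_pos.1 (by omega)) h1'
    · exact nomin d D hD hnum _ hR.swap T S (by omega) (card_pos.1 (by omega)) h1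

end Pool.Agent.H19.PD
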