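import Mathlib

set_option autoImplicit false

namespace Pool.Agent.H19.Psi

inductive T : Type
  | win (c : ℕ) : T
  | br (a b : ℕ) (t1 t2 : T) : T
  | ex (i : ℕ) (t1 t2 : T) : T
  | dg (i a b : ℕ) (t : T) : T
  | fw (a b : ℕ) (t : T) : T
  | cl (c : ℕ) : T

def bit (M i j : ℕ) : Bool := M.testBit (Nat.pair i j)

def add (M i j : ℕ) : ℕ := M ||| 2 ^ (Nat.pair i j) ||| 2 ^ (Nat.pair j i)

theorem bit_add (M a b i j : ℕ) :
    bit (add M a b) i j = true ↔ bit M i j = true ∨ (i = a ∧ j = b) ∨ (i = b ∧ j = a) := by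
  simp only [bit, add, Nat.testBit_or, Bool.or_eq_true, Nat.testBit_two_pow, decide_eq_true_eq,
    Nat.pair_eq_pair]
  tauto

def non (k E N i j : ℕ) : Bool := bit N i j || (List.range k).any (fun w => bit E i w && bit E j w)

def col8 (c u : ℕ) : ℕ := (c >>> (3 * u)) % 8
def col4 (c u : ℕ) : ℕ := (c >>> (2 * u)) % 4

def check : T → ℕ → ℕ → ℕ → ℕ → Bool
  | .win c, k, E, _, _ => (List.range 5).all fun b => (List.range b).all fun a =>
      (List.range k).any fun u => col8 c u == a && (List.range k).any fun v =>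
        col8 c v == b && bit E u v
  | .br a b t1 t2, k, E, N, C => decide (a < k) && decide (b < k) &&
      check t1 k (add E a b) N C && check t2 k E (add N a b) C
  | .ex i t1 t2, k, E, N, C => decide (i < k) &&
      check t1 (k + 1) (add E i k) N C && check t2 k E N (C ||| 2 ^ i)
  | .dg i a b t, k, E, N, C => decide (i < k) &&
      ((List.range k).all fun j => j == i || j == a || j == b || non k E N i j) &&
      check t (k + 1) (add E i k) N C
  | .fw a b t, k, E, N, C => decide (a < k) && decide (b < k) && a != b && non k E N a b &&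
      ((List.range k).all fun w => w == a || non k E N a w || bit E b w) &&
      check t (k + 1) (add E a k) (add N b k) C
  | .cl c, k, E, N, C => decide (0 < k) && (List.range k).all fun i => C.testBit i &&
      decide (col4 c i < 3) &&
      (List.range k).all fun j => j == i || col4 c i != col4 c j || non k E N i j

structure Hyp {V : Type} (A : V → V → Prop) : Prop where
  symm : ∀ a b, A a b → A b a
  irr : ∀ a, ¬ A a a
  tri : ∀ a b w, A a w → A b w → ¬ A a b
  deg : ∀ v a b, ∃ w, A v w ∧ w ≠ a ∧ w ≠ b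
  dom : ∀ u v, u ≠ v → ¬ A u v → ∃ w, A u w ∧ ¬ A v w
  col : ∀ (W : Set V) (c : V → ℕ), W.Nonempty → (∀ v ∈ W, c v < 3) →
    (∀ u ∈ W, ∀ v ∈ W, A u v → c u ≠ c v) → ∃ u ∈ W, ∃ w, w ∉ W ∧ A u w
  nopsi : ∀ c : V → ℕ, ¬ (∀ a b, a < b → b < 5 → ∃ u v, A u v ∧ c u = a ∧ c v = b)

structure Rl {V : Type} (A : V → V → Prop) (k E N C : ℕ) (x : ℕ → V) : Prop where
  inj : ∀ i < k, ∀ j < k, x i = x j → i = j
  hE : ∀ i j, bit E i j = true → i < k ∧ j < k ∧ A (x i) (x j)
  hN : ∀ i j, bit N i j = true → i < k ∧ j < k ∧ ¬ A (x i) (x j)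
  hC : ∀ i, C.testBit i = true → i < k ∧ ∀ w, A (x i) w → ∃ j < k, x j = w

variable {V : Type} {A : V → V → Prop}

theorem non_sound (H : Hyp A) {k E N C : ℕ} {x : ℕ → V} (R : Rl A k E N C x) {i j : ℕ}
    (h : non k E N i j = true) : ¬ A (x i) (x j) := by
  simp only [non, Bool.or_eq_true, List.any_eq_true, Bool.and_eq_true] at h
  rcases h with h | ⟨w, -, h1, h2⟩
  · exact (R.hN _ _ h).2.2
  · exact H.tri _ _ _ (R.hE _ _ h1).2.2 (R.hE _ _ h2).2.2

theorem ex_col {k E N C : ℕ} {x : ℕ → V} (R : Rl A k E N C x) (f : ℕ → ℕ) :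
    ∃ c : V → ℕ, ∀ i < k, c (x i) = f i := by
  classical
  refine ⟨fun v => if h : ∃ i < k, x i = v then f h.choose else 0, fun i hi => ?_⟩
  have h : ∃ j < k, x j = x i := ⟨i, hi, rfl⟩
  simp only [dif_pos h]
  rw [R.inj _ h.choose_spec.1 _ hi h.choose_spec.2]

theorem Rl.addE (H : Hyp A) {k E N C : ℕ} {x : ℕ → V} (R : Rl A k E N C x) {a b : ℕ} (ha : a < k)
    (hb : b < k) (h : A (x a) (x b)) : Rl A k (add E a b) N C x := by
  refine ⟨R.inj, ?_, R.hN, R.hC⟩
  intro i j hh
  rw [bit_add] at hh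
  rcases hh with hh | ⟨rfl, rfl⟩ | ⟨rfl, rfl⟩
  · exact R.hE _ _ hh
  · exact ⟨ha, hb, h⟩
  · exact ⟨hb, ha, H.symm _ _ h⟩

theorem Rl.addN (H : Hyp A) {k E N C : ℕ} {x : ℕ → V} (R : Rl A k E N C x) {a b : ℕ} (ha : a < k)
    (hb : b < k) (h : ¬ A (x a) (x b)) : Rl A k E (add N a b) C x := by
  refine ⟨R.inj, R.hE, ?_, R.hC⟩
  intro i j hh
  rw [bit_add] at hh
  rcases hh with hh | ⟨rfl, rfl⟩ | ⟨rfl, rfl⟩
  · exact R.hN _ _ hh
  · exact ⟨ha, hb, h⟩
  · exact ⟨hb, ha, fun e => h (H.symm _ _ e)⟩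

theorem Rl.new {k E N C : ℕ} {x : ℕ → V} (R : Rl A k E N C x) (w : V)
    (hw : ∀ j < k, x j ≠ w) : Rl A (k + 1) E N C (Function.update x k w) := by
  have hx : ∀ i < k, Function.update x k w i = x i := fun i hi =>
    Function.update_of_ne (by omega) _ _
  refine ⟨?_, ?_, ?_, ?_⟩
  · intro i hi j hj h
    by_cases h1 : i = k <;> by_cases h2 : j = k
    · omega
    · subst h1
      rw [Function.update_self, hx j (by omega)] at h
      exact absurd h.symm (hw j (by omega))
    · subst h2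
      rw [Function.update_self, hx i (by omega)] at h
      exact absurd h (hw i (by omega))
    · rw [hx i (by omega), hx j (by omega)] at h
      exact R.inj i (by omega) j (by omega) h
  · intro i j h
    obtain ⟨h1, h2, h3⟩ := R.hE i j h
    rw [hx i h1, hx j h2]
    exact ⟨by omega, by omega, h3⟩
  · intro i j h
    obtain ⟨h1, h2, h3⟩ := R.hN i j h
    rw [hx i h1, hx j h2]
    exact ⟨by omega, by omega, h3⟩
  · intro i h
    obtain ⟨h1, h2⟩ := R.hC i h
    rw [hx i h1]
    refine ⟨by omega, fun v hv => ?_⟩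
    obtain ⟨j, hj, e⟩ := h2 v hv
    exact ⟨j, by omega, by rw [hx j hj, e]⟩

theorem Rl.newE (H : Hyp A) {k E N C : ℕ} {x : ℕ → V} (R : Rl A k E N C x) (w : V)
    (hw : ∀ j < k, x j ≠ w) {i : ℕ} (hi : i < k) (h : A (x i) w) :
    Rl A (k + 1) (add E i k) N C (Function.update x k w) := by
  refine (R.new w hw).addE H (by omega) (by omega) ?_
  rwa [Function.update_self, Function.update_of_ne (by omega)]

theorem sound (H : Hyp A) (t : T) : ∀ (k E N C : ℕ) (x : ℕ → V), Rl A k E N C x →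
    check t k E N C = true → False := by
  induction t with
  | win c =>
    intro k E N C x R h
    simp only [check, List.all_eq_true, List.any_eq_true, List.mem_range, Bool.and_eq_true,
      beq_iff_eq] at h
    obtain ⟨f, hf⟩ := ex_col R (col8 c)
    apply H.nopsi f
    intro a b hab hb
    obtain ⟨u, hu, h1, v, hv, h2, h3⟩ := h b hb a hab
    exact ⟨x u, x v, (R.hE _ _ h3).2.2, by rw [hf u hu, h1], by rw [hf v hv, h2]⟩
  | br a b t1 t2 ih1 ih2 =>
    intro k E N C x R h
    simp only [check, Bool.and_eq_true, decide_eq_true_eq] at h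
    obtain ⟨⟨⟨ha, hb⟩, h1⟩, h2⟩ := h
    by_cases hA : A (x a) (x b)
    · exact ih1 _ _ _ _ x (R.addE H ha hb hA) h1
    · exact ih2 _ _ _ _ x (R.addN H ha hb hA) h2
  | ex i t1 t2 ih1 ih2 =>
    intro k E N C x R h
    simp only [check, Bool.and_eq_true, decide_eq_true_eq] at h
    obtain ⟨⟨hi, h1⟩, h2⟩ := h
    by_cases hA : ∃ w, A (x i) w ∧ ∀ j < k, x j ≠ w
    · obtain ⟨w, hw1, hw2⟩ := hA
      exact ih1 _ _ _ _ _ (R.newE H w hw2 hi hw1) h1
    · refine ih2 _ _ _ _ x ⟨R.inj, R.hE, R.hN, ?_⟩ h2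
      intro j hj
      rw [Nat.testBit_or, Bool.or_eq_true, Nat.testBit_two_pow, decide_eq_true_eq] at hj
      rcases hj with hj | rfl
      · exact R.hC j hj
      · refine ⟨hi, fun w hw => ?_⟩
        by_contra hc
        push Not at hc
        exact hA ⟨w, hw, hc⟩
  | dg i a b t ih =>
    intro k E N C x R h
    simp only [check, Bool.and_eq_true, decide_eq_true_eq, List.all_eq_true, List.mem_range,
      Bool.or_eq_true, beq_iff_eq] at h
    obtain ⟨⟨hi, h1⟩, h2⟩ := h
    obtain ⟨w, hw, hwa, hwb⟩ := H.deg (x i) (x a) (x b)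
    refine ih _ _ _ _ _ (R.newE H w ?_ hi hw) h2
    rintro j hj rfl
    rcases h1 j hj with ((rfl | rfl) | rfl) | h3
    · exact H.irr _ hw
    · exact hwa rfl
    · exact hwb rfl
    · exact non_sound H R h3 hw
  | fw a b t ih =>
    intro k E N C x R h
    simp only [check, Bool.and_eq_true, decide_eq_true_eq, List.all_eq_true, List.mem_range,
      Bool.or_eq_true, beq_iff_eq, bne_iff_ne] at h
    obtain ⟨⟨⟨⟨⟨ha, hb⟩, hab⟩, h0⟩, h1⟩, h2⟩ := h
    obtain ⟨w, hw, hwb⟩ := H.dom (x a) (x b) (fun e => hab (R.inj a ha b hb e)) (non_sound H R h0)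
    have hnew : ∀ j < k, x j ≠ w := by
      rintro j hj rfl
      rcases h1 j hj with (rfl | h3) | h3
      · exact H.irr _ hw
      · exact non_sound H R h3 hw
      · exact hwb (R.hE _ _ h3).2.2
    refine ih _ _ _ _ _ ((R.newE H w hnew ha hw).addN H (by omega) (by omega) ?_) h2
    rwa [Function.update_self, Function.update_of_ne (by omega)]
  | cl c =>
    intro k E N C x R h
    simp only [check, Bool.and_eq_true, decide_eq_true_eq, List.all_eq_true, List.mem_range,
      Bool.or_eq_true, beq_iff_eq, bne_iff_ne] at h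
    obtain ⟨hk, h⟩ := h
    obtain ⟨f, hf⟩ := ex_col R (col4 c)
    obtain ⟨u, ⟨i, hi, rfl⟩, w, hw, hA⟩ := H.col {v | ∃ i < k, x i = v} f ⟨x 0, 0, hk, rfl⟩
      (by
        rintro _ ⟨i, hi, rfl⟩
        rw [hf i hi]
        exact (h i hi).1.2)
      (by
        rintro _ ⟨i, hi, rfl⟩ _ ⟨j, hj, rfl⟩ hA
        rw [hf i hi, hf j hj]
        rcases (h i hi).2 j hj with (rfl | h3) | h3
        · exact absurd hA (H.irr _)
        · exact h3
        · exact absurd hA (non_sound H R h3))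
    exact hw ((R.hC i (h i hi).1.1).2 w hA)

end Pool.Agent.H19.Psi
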