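import Pool.Agent.H19.PsiTree

set_option autoImplicit false

namespace Pool.Agent.H19.Psi

def Col {V : Type} (G : SimpleGraph V) (S : Finset V) : Prop :=
  ∃ c : V → ℕ, (∀ v ∈ S, c v < 3) ∧ ∀ u ∈ S, ∀ v ∈ S, G.Adj u v → c u ≠ c v

theorem col_extend {V : Type} [DecidableEq V] (G : SimpleGraph V) (S : Finset V) (v : V)
    (c : V → ℕ) (h1 : ∀ u ∈ S.erase v, c u < 3)
    (h2 : ∀ u ∈ S.erase v, ∀ w ∈ S.erase v, G.Adj u w → c u ≠ c w) (t : ℕ) (ht : t < 3)
    (h3 : ∀ w ∈ S, G.Adj v w → c w ≠ t) : Col G S := by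
  refine ⟨Function.update c v t, ?_, ?_⟩
  · intro u hu
    by_cases e : u = v
    · subst e
      simpa using ht
    · rw [Function.update_of_ne e]
      exact h1 u (Finset.mem_erase.2 ⟨e, hu⟩)
  · intro u hu w hw hA
    by_cases e : u = v <;> by_cases e' : w = v
    · subst e
      subst e'
      exact absurd hA (G.irrefl)
    · subst e
      rw [Function.update_self, Function.update_of_ne e']
      exact (h3 w hw hA).symm
    · subst e'
      rw [Function.update_self, Function.update_of_ne e]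
      exact h3 u hu hA.symm
    · rw [Function.update_of_ne e, Function.update_of_ne e']
      exact h2 u (Finset.mem_erase.2 ⟨e, hu⟩) w (Finset.mem_erase.2 ⟨e', hw⟩) hA

/-- A finite triangle-free graph that is not 3-colourable has a complete (not necessarily proper)
5-colouring. -/
theorem complete_five {V : Type} [Fintype V] (G : SimpleGraph V)
    (htri : ∀ a b w, G.Adj a w → G.Adj b w → ¬ G.Adj a b) (hcol : ¬ G.Colorable 3) :
    ∃ f : V → Fin 5, Function.Surjective f ∧
      ∀ i j : Fin 5, i ≠ j → ∃ u v, G.Adj u v ∧ f u = i ∧ f v = j := by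
  classical
  by_contra hno
  have hex : ∃ S : Finset V, ¬ Col G S := by
    refine ⟨Finset.univ, ?_⟩
    rintro ⟨c, h1, h2⟩
    apply hcol
    refine ⟨SimpleGraph.Coloring.mk (fun v => (⟨c v, h1 v (Finset.mem_univ _)⟩ : Fin 3)) ?_⟩
    intro u v hA e
    exact h2 u (Finset.mem_univ _) v (Finset.mem_univ _) hA (by simpa using e)
  obtain ⟨S, hS, hmin⟩ := WellFounded.has_min (InvImage.wf Finset.card wellFounded_lt)
    {S : Finset V | ¬ Col G S} hex
  have hsm : ∀ S' : Finset V, S'.card < S.card → Col G S' := by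
    intro S' h
    by_contra hc
    exact hmin S' hc h
  have hne : S.Nonempty := by
    rw [Finset.nonempty_iff_ne_empty]
    rintro rfl
    exact hS ⟨fun _ => 0, by simp, by simp⟩
  have : Nonempty S := hne.to_subtype
  refine not_hyp (fun a b : S => G.Adj a.1 b.1) ⟨?_, ?_, ?_, ?_, ?_, ?_, ?_⟩
  · intro a b h
    exact h.symm
  · intro a
    exact G.irrefl
  · intro a b w
    exact htri _ _ _
  · intro v a b
    by_contra hc
    push Not at hc
    obtain ⟨c, h1, h2⟩ := hsm (S.erase v.1) (Finset.card_erase_lt_of_mem v.2)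
    obtain ⟨t, ht, hta, htb⟩ : ∃ t < 3, c a.1 ≠ t ∧ c b.1 ≠ t := by
      by_cases e0 : c a.1 ≠ 0 ∧ c b.1 ≠ 0
      · exact ⟨0, by omega, e0⟩
      by_cases e1 : c a.1 ≠ 1 ∧ c b.1 ≠ 1
      · exact ⟨1, by omega, e1⟩
      exact ⟨2, by omega, by omega⟩
    refine hS (col_extend G S v.1 c h1 h2 t ht ?_)
    intro w hw hA
    by_cases e : (⟨w, hw⟩ : S) = a
    · rw [← e] at hta
      exact hta
    · have := hc ⟨w, hw⟩ hA e
      rw [← this] at htb
      exact htb
  · intro u v huv hn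
    by_contra hc
    push Not at hc
    obtain ⟨c, h1, h2⟩ := hsm (S.erase u.1) (Finset.card_erase_lt_of_mem u.2)
    have hv : v.1 ∈ S.erase u.1 := Finset.mem_erase.2 ⟨fun e => huv (Subtype.ext e).symm, v.2⟩
    refine hS (col_extend G S u.1 c h1 h2 (c v.1) (h1 _ hv) ?_)
    intro w hw hA
    exact (h2 _ hv w (Finset.mem_erase.2 ⟨hA.ne.symm, hw⟩) (hc ⟨w, hw⟩ hA)).symm
  · intro W c hW h1 h2
    by_contra hc
    push Not at hc
    let P : V → Prop := fun v => ∃ h : v ∈ S, (⟨v, h⟩ : S) ∈ W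
    have hlt : (S.filter (fun v => ¬ P v)).card < S.card := by
      apply Finset.card_lt_card
      rw [Finset.ssubset_iff_of_subset (Finset.filter_subset _ _)]
      obtain ⟨w, hw⟩ := hW
      refine ⟨w.1, w.2, ?_⟩
      simp only [Finset.mem_filter, not_and, not_not]
      exact fun _ => ⟨w.2, hw⟩
    obtain ⟨c', h3, h4⟩ := hsm _ hlt
    apply hS
    refine ⟨fun v => if h : P v then c ⟨v, h.1⟩ else c' v, ?_, ?_⟩
    · intro v hv
      by_cases h : P v
      · simp only [dif_pos h]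
        exact h1 _ h.2
      · simp only [dif_neg h]
        exact h3 v (Finset.mem_filter.2 ⟨hv, h⟩)
    · intro u hu v hv hA
      by_cases h : P u <;> by_cases h' : P v
      · simp only [dif_pos h, dif_pos h']
        exact h2 _ h.2 _ h'.2 hA
      · exact absurd hA (hc ⟨u, hu⟩ h.2 ⟨v, hv⟩ (fun e => h' ⟨hv, e⟩))
      · exact absurd hA.symm (hc ⟨v, hv⟩ h'.2 ⟨u, hu⟩ (fun e => h ⟨hu, e⟩))
      · simp only [dif_neg h, dif_neg h']
        exact h4 u (Finset.mem_filter.2 ⟨hu, h⟩) v (Finset.mem_filter.2 ⟨hv, h'⟩) hA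
  · intro c hc
    apply hno
    let f : V → Fin 5 := fun v => if h : v ∈ S then ⟨c ⟨v, h⟩ % 5, Nat.mod_lt _ (by norm_num)⟩ else 0
    have hf : ∀ (v : S) (i : Fin 5), c v = i.1 → f v.1 = i := by
      intro v i h
      simp only [f, dif_pos v.2]
      apply Fin.ext
      simp only [Subtype.coe_eta, h]
      exact Nat.mod_eq_of_lt i.2
    have key : ∀ i j : Fin 5, i ≠ j → ∃ u v, G.Adj u v ∧ f u = i ∧ f v = j := by
      intro i j hij
      rcases lt_or_gt_of_ne hij with h | h
      · obtain ⟨u, v, hA, h1, h2⟩ := hc i.1 j.1 h j.2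
        exact ⟨u.1, v.1, hA, hf u i h1, hf v j h2⟩
      · obtain ⟨u, v, hA, h1, h2⟩ := hc j.1 i.1 h i.2
        exact ⟨v.1, u.1, hA.symm, hf v i h2, hf u j h1⟩
    refine ⟨f, ?_, key⟩
    intro i
    obtain ⟨j, hj⟩ := exists_ne i
    obtain ⟨u, -, -, h, -⟩ := key i j hj.symm
    exact ⟨u, h⟩

end Pool.Agent.H19.Psi
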