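import Pool.Agent.H19.PsiCheck

set_option autoImplicit false
set_option maxRecDepth 100000

namespace Pool.Agent.H19.Psi

def tree : T :=
(.dg 0 0 0
(.dg 0 1 0
(.dg 0 1 2
(.dg 1 0 1
(.dg 1 0 4
(.fw 2 1
(.br 3 6
(.br 4 6
(.dg 4 1 6
(.br 2 5
(.br 3 7
(.br 2 7
(.fw 3 2
(.win 74031648))
(.br 7 5
(.ex 0
(.win 73975432)
(.ex 1
(.win 55658049)
(.ex 2
(.win 72173065)
(.ex 3
(.win 74039433)
(.ex 4
(.win 74025097)
(.ex 5
(.win 73942665)
(.ex 6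
(.win 71447641)
(.ex 7
(.win 68264657)
(.cl 41044)))))))))
(.dg 7 3 4
(.ex 0
(.win 562902080)
(.ex 1
(.win 562902080)
(.ex 2
(.win 596451848)
(.ex 3
(.win 445263944)
(.ex 4
(.win 445253185)
(.ex 5
(.win 577062464)
(.ex 6
(.win 427959321)
(.ex 7
(.win 588063497)
(.ex 8
(.win 591742528)
(.cl 131668)))))))))))))
(.fw 3 2
(.br 5 7
(.br 0 7
(.win 40683656)
(.ex 0
(.win 472728640)
(.ex 1
(.win 472728640)
(.ex 2
(.win 560547336)
(.ex 3
(.win 594133129)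
(.ex 4
(.win 577570881)
(.ex 5
(.win 474759809)
(.ex 6
(.win 471999513)
(.ex 7
(.win 474302016)
(.ex 8
(.win 577062464)
(.cl 155732)))))))))))
(.br 5 8
(.br 8 4
(.win 59345033)
(.br 8 7
(.br 7 0
(.win 59295368)
(.br 7 2
(.win 42812937)
(.dg 7 4 8
(.win 444941888))))
(.dg 8 3 5
(.win 577062464))))
(.fw 5 0
(.win 474302016))))))
(.br 2 7
(.br 3 5
(.br 5 7
(.ex 0
(.win 72140424)
(.ex 1
(.win 76362817)
(.ex 2
(.win 74040329)
(.ex 3
(.win 72171721)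
(.ex 4
(.win 59377289)
(.ex 5
(.win 73942217)
(.ex 6
(.win 75576409)
(.ex 7
(.win 68265553)
(.cl 41044)))))))))
(.dg 5 1 3
(.ex 0
(.win 474793024)
(.ex 1
(.win 474793024)
(.ex 2
(.win 592265736)
(.ex 3
(.win 592265288)
(.ex 4
(.win 445253185)
(.ex 5
(.win 592450753)
(.ex 6
(.win 591541257)
(.ex 7
(.win 472499264)
(.ex 8
(.win 577094720)
(.cl 66148))))))))))))
(.fw 3 2
(.ex 0
(.win 558744584)
(.ex 1
(.win 613233729)
(.ex 2
(.win 558744584)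
(.ex 3
(.win 596258953)
(.ex 4
(.win 478807689)
(.ex 5
(.win 327562304)
(.ex 6
(.win 471942169)
(.ex 7
(.win 327562304)
(.ex 8
(.win 558744640)
(.cl 19108))))))))))))
(.dg 2 0 6
(.br 3 5
(.br 5 7
(.ex 0
(.win 474793024)
(.ex 1
(.win 474793024)
(.ex 2
(.win 594134025)
(.ex 3
(.win 560545992)
(.ex 4
(.win 474613313)
(.ex 5
(.win 474760257)
(.ex 6
(.win 589440025)
(.ex 7
(.win 327533632)
(.ex 8
(.win 591774784)
(.cl 155732))))))))))
(.br 5 8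
(.br 8 4
(.win 74057353)
(.br 8 7
(.br 7 0
(.win 42780296)
(.br 7 3
(.win 42811593)
(.dg 7 4 8
(.win 327533632))))
(.dg 8 2 5
(.win 591774784))))
(.dg 5 1 3
(.win 591774784))))
(.br 3 7
(.ex 0
(.win 558743688)
(.ex 1
(.win 613233729)
(.ex 2
(.win 596259849)
(.ex 3
(.win 558743688)
(.ex 4
(.win 478807689)
(.ex 5
(.win 193606720)
(.ex 6
(.win 612447321)
(.ex 7
(.win 193606720)
(.ex 8
(.win 573424704)
(.cl 19092))))))))))
(.fw 3 2
(.win 573424704))))))))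
(.fw 4 0
(.br 4 2
(.br 6 5
(.br 5 7
(.br 7 3
(.ex 0
(.win 74061448)
(.ex 1
(.win 55715393)
(.ex 2
(.win 72230409)
(.ex 3
(.win 74068105)
(.ex 4
(.win 74057353)
(.ex 5
(.win 73939081)
(.ex 6
(.win 71418969)
(.ex 7
(.win 51520209)
(.cl 41044)))))))))
(.dg 7 4 5
(.ex 0
(.win 428681280)
(.ex 1
(.win 428681280)
(.ex 2
(.win 596419592)
(.ex 3
(.win 591799872)
(.ex 4
(.win 445417601)
(.ex 5
(.win 338704001)
(.ex 6
(.win 562144281)
(.ex 7
(.win 588321474)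
(.ex 8
(.win 474327104)
(.cl 149588))))))))))))
(.dg 5 1 6
(.br 3 7
(.br 7 8
(.br 8 0
(.win 74061448)
(.br 8 2
(.win 72230409)
(.dg 8 5 7
(.win 474359360))))
(.dg 7 3 4
(.win 591799872)))
(.br 3 8
(.br 2 8
(.win 76390929)
(.ex 0
(.win 428745792)
(.ex 1
(.win 428745792)
(.ex 2
(.win 577643016)
(.ex 3
(.win 577642568)
(.ex 4
(.win 577799809)
(.ex 5
(.win 577513537)
(.ex 6
(.win 427959321)
(.ex 7
(.win 577119808)
(.ex 8
(.win 327558720)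
(.cl 155732)))))))))))
(.fw 3 2
(.win 577119808))))))
(.br 6 7
(.br 7 5
(.br 3 5
(.br 2 5
(.win 9225746)
(.ex 0
(.win 76125832)
(.ex 1
(.win 72459841)
(.ex 2
(.win 72230409)
(.ex 3
(.win 72171721)
(.ex 4
(.win 59377289)
(.ex 5
(.win 59262153)
(.ex 6
(.win 58803289)
(.ex 7
(.win 51451147)
(.cl 16468))))))))))
(.fw 3 2
(.ex 0
(.win 579184192)
(.ex 1
(.win 579184192)
(.ex 2
(.win 579184136)
(.ex 3
(.win 595931272)
(.ex 4
(.win 479003265)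
(.ex 5
(.win 444999232)
(.ex 6
(.win 471942169)
(.ex 7
(.win 587794633)
(.ex 8
(.win 206448192)
(.cl 147540))))))))))))
(.dg 7 4 6
(.ex 0
(.win 562930752)
(.ex 1
(.win 562930752)
(.ex 2
(.win 562930696)
(.ex 3
(.win 327558720)
(.ex 4
(.win 610896009)
(.ex 5
(.win 294496320)
(.ex 6
(.win 427959321)
(.ex 7
(.win 571349194)
(.ex 8
(.win 342206528)
(.cl 147540))))))))))))
(.dg 6 2 3
(.ex 0
(.win 428746888)
(.ex 1
(.win 579708993)
(.ex 2
(.win 579708937)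
(.ex 3
(.win 175253056)
(.ex 4
(.win 560859274)
(.ex 5
(.win 292431880)
(.ex 6
(.win 591479897)
(.ex 7
(.win 177055808)
(.ex 8
(.win 412168840)
(.cl 147604)))))))))))))
(.br 4 3
(.br 2 5
(.br 6 7
(.br 7 5
(.ex 0
(.win 76068488)
(.ex 1
(.win 72431169)
(.ex 2
(.win 72173065)
(.ex 3
(.win 72229065)
(.ex 4
(.win 59376841)
(.ex 5
(.win 59262601)
(.ex 6
(.win 58860633)
(.ex 7
(.win 51452043)
(.cl 16468)))))))))
(.dg 7 4 6
(.ex 0
(.win 561067072)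
(.ex 1
(.win 561067072)
(.ex 2
(.win 428946440)
(.ex 3
(.win 562929800)
(.ex 4
(.win 445514817)
(.ex 5
(.win 444941888)
(.ex 6
(.win 444740617)
(.ex 7
(.win 570787594)
(.ex 8
(.win 444941888)
(.cl 147540))))))))))))
(.dg 6 2 3
(.ex 0
(.win 590427200)
(.ex 1
(.win 590427200)
(.ex 2
(.win 428946440)
(.ex 3
(.win 579739849)
(.ex 4
(.win 561054913)
(.ex 5
(.win 474302016)
(.ex 6
(.win 589382681)
(.ex 7
(.win 474302016)
(.ex 8
(.win 573392448)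
(.cl 147556))))))))))))
(.br 2 7
(.br 6 5
(.br 5 7
(.ex 0
(.win 72226440)
(.ex 1
(.win 76391489)
(.ex 2
(.win 74069001)
(.ex 3
(.win 72229065)
(.ex 4
(.win 74056905)
(.ex 5
(.win 59262601)
(.ex 6
(.win 75605081)
(.ex 7
(.win 51521105)
(.cl 41044)))))))))
(.dg 5 1 6
(.br 7 8
(.br 8 0
(.win 72226440)
(.br 8 3
(.win 72229065)
(.dg 8 5 7
(.win 342242368))))
(.dg 7 2 4
(.win 577123392)))))
(.dg 6 2 3
(.ex 0
(.win 428946440)
(.ex 1
(.win 613262401)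
(.ex 2
(.win 428946440)
(.ex 3
(.win 579739849)
(.ex 4
(.win 558990529)
(.ex 5
(.win 327562304)
(.ex 6
(.win 589382681)
(.ex 7
(.win 327562304)
(.ex 8
(.win 189936704)
(.cl 147556))))))))))))
(.dg 2 0 6
(.ex 0
(.win 596711048)
(.ex 1
(.win 596718657)
(.ex 2
(.win 445789193)
(.ex 3
(.win 445784265)
(.ex 4
(.win 577897673)
(.ex 5
(.win 439497792)
(.ex 6
(.win 439497792)
(.ex 7
(.win 194065416)
(.ex 8
(.win 185681544)
(.cl 155732)))))))))))))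
(.dg 4 1 7
(.br 2 5
(.ex 0
(.win 609326728)
(.ex 1
(.win 286377601)
(.ex 2
(.win 606713873)
(.ex 3
(.win 570803848)
(.ex 4
(.win 591792330)
(.ex 5
(.win 570803848)
(.ex 6
(.win 72455816)
(.ex 7
(.win 43095688)
(.ex 8
(.win 72455816)
(.cl 163924))))))))))
(.br 2 7
(.br 6 5
(.ex 0
(.win 561095744)
(.ex 1
(.win 561095744)
(.ex 2
(.win 342991368)
(.ex 3
(.win 560579648)
(.ex 4
(.win 577799809)
(.ex 5
(.win 292693568)
(.ex 6
(.win 560055377)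
(.ex 7
(.win 573585032)
(.ex 8
(.win 561095688)
(.cl 84132))))))))))
(.br 6 8
(.ex 0
(.win 561059464)
(.ex 1
(.win 594650177)
(.ex 2
(.win 309470729)
(.ex 3
(.win 544031816)
(.ex 4
(.win 561055361)
(.ex 5
(.win 292693568)
(.ex 6
(.win 595731545)
(.ex 7
(.win 561095688)
(.ex 8
(.win 175253056)
(.cl 98388))))))))))
(.dg 6 2 3
(.win 292693568))))
(.br 2 8
(.br 6 5
(.ex 0
(.win 590455872)
(.ex 1
(.win 590455872)
(.ex 2
(.win 328311304)
(.ex 3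
(.win 589939776)
(.ex 4
(.win 592479873)
(.ex 5
(.win 322053696)
(.ex 6
(.win 589415505)
(.ex 7
(.win 590455816)
(.ex 8
(.win 558904968)
(.cl 19092))))))))))
(.br 6 7
(.ex 0
(.win 590419592)
(.ex 1
(.win 594650177)
(.ex 2
(.win 324150793)
(.ex 3
(.win 588072008)
(.ex 4
(.win 590415489)
(.ex 5
(.win 322053696)
(.ex 6
(.win 610411609)
(.ex 7
(.win 189933120)
(.ex 8
(.win 590455816)
(.cl 147540))))))))))
(.dg 6 2 3
(.win 322053696))))
(.dg 2 0 6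
(.br 3 5
(.win 587548296)
(.br 3 7
(.win 405882504)
(.br 3 8
(.win 420562568)
(.fw 3 2
(.win 4616733760))))))))))))))
(.fw 3 1
(.br 3 4
(.br 4 6
(.br 2 5
(.br 6 7
(.br 7 5
(.ex 0
(.win 76068488)
(.ex 1
(.win 72431169)
(.ex 2
(.win 55657993)
(.ex 3
(.win 59384009)
(.ex 4
(.win 72221897)
(.ex 5
(.win 73942665)
(.ex 6
(.win 73541201)
(.ex 7
(.win 67973905)
(.cl 10324)))))))))
(.dg 7 3 6
(.ex 0
(.win 596193856)
(.ex 1
(.win 596193856)
(.ex 2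
(.win 562902024)
(.ex 3
(.win 445521992)
(.ex 4
(.win 428475585)
(.ex 5
(.win 577062464)
(.ex 6
(.win 444737033)
(.ex 7
(.win 587838225)
(.ex 8
(.win 577062464)
(.cl 139348))))))))))))
(.dg 6 2 4
(.br 5 7
(.br 7 8
(.br 8 0
(.win 76068488)
(.br 8 1
(.win 72431169)
(.dg 8 6 7
(.win 327501376))))
(.dg 7 3 5
(.win 591742528)))
(.br 5 8
(.br 0 8
(.win 57198728)
(.ex 0
(.win 590423616)
(.ex 1
(.win 590423616)
(.ex 2
(.win 428946440)
(.ex 3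
(.win 561062081)
(.ex 4
(.win 428934337)
(.ex 5
(.win 592451201)
(.ex 6
(.win 444737033)
(.ex 7
(.win 591742528)
(.ex 8
(.win 206390848)
(.cl 43092)))))))))))
(.fw 5 0
(.win 591742528))))))
(.br 2 7
(.br 6 5
(.br 7 5
(.ex 0
(.win 74061448)
(.ex 1
(.win 76391489)
(.ex 2
(.win 74069001)
(.ex 3
(.win 74064073)
(.ex 4
(.win 72221897)
(.ex 5
(.win 59259017)
(.ex 6
(.win 58861137)
(.ex 7
(.win 68265049)
(.cl 41044)))))))))
(.dg 7 2 3
(.ex 0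
(.win 445522496)
(.ex 1
(.win 445522496)
(.ex 2
(.win 472986632)
(.ex 3
(.win 445521992)
(.ex 4
(.win 596444225)
(.ex 5
(.win 474362944)
(.ex 6
(.win 444737033)
(.ex 7
(.win 587547673)
(.ex 8
(.win 474362944)
(.cl 135268))))))))))))
(.dg 6 2 4
(.br 7 5
(.br 5 8
(.br 8 0
(.win 74061448)
(.br 8 3
(.win 74064073)
(.dg 8 5 6
(.win 474362944))))
(.dg 5 1 7
(.win 474362944)))
(.br 7 8
(.ex 0
(.win 439497736)
(.ex 1
(.win 596485185)
(.ex 2
(.win 439497736)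
(.ex 3
(.win 558997704)
(.ex 4
(.win 562660545)
(.ex 5
(.win 474362944)
(.ex 6
(.win 444737033)
(.ex 7
(.win 437400585)
(.ex 8
(.win 474362944)
(.cl 131668))))))))))
(.dg 7 2 3
(.win 445002816))))))
(.dg 2 0 6
(.br 6 5
(.br 5 7
(.br 7 8
(.br 8 1
(.win 38942273)
(.br 8 4
(.win 55706825)
(.dg 8 2 7
(.win 577123392))))
(.dg 7 3 5
(.win 445002816)))
(.br 5 8
(.br 4 8
(.win 76317898)
(.ex 0
(.win 445522496)
(.ex 1
(.win 445522496)
(.ex 2
(.win 577643016)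
(.ex 3
(.win 577642568)
(.ex 4
(.win 445678785)
(.ex 5
(.win 591935553)
(.ex 6
(.win 444737033)
(.ex 7
(.win 577123392)
(.ex 8
(.win 294532160)
(.cl 139348)))))))))))
(.fw 5 4
(.win 445002816))))
(.br 6 7
(.br 7 5
(.br 5 8
(.br 8 3
(.win 59384009)
(.br 8 4
(.win 72221897)
(.dg 8 2 5
(.win 474362944))))
(.dg 5 1 7
(.win 474362944)))
(.br 7 8
(.ex 0
(.win 579707456)
(.ex 1
(.win 579707456)
(.ex 2
(.win 579707400)
(.ex 3
(.win 445521992)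
(.ex 4
(.win 562922632)
(.ex 5
(.win 474362944)
(.ex 6
(.win 444737033)
(.ex 7
(.win 571318537)
(.ex 8
(.win 474362944)
(.cl 139348))))))))))
(.dg 7 3 6
(.win 445002816))))
(.dg 6 2 4
(.win 322057280)))))))
(.fw 4 0
(.br 4 2
(.win 36800714)
(.br 2 5
(.br 6 7
(.ex 0
(.win 573359752)
(.ex 1
(.win 609302081)
(.ex 2
(.win 575489545)
(.ex 3
(.win 610934985)
(.ex 4
(.win 596247753)
(.ex 5
(.win 558712384)
(.ex 6
(.win 475076104)
(.ex 7
(.win 558712384)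
(.ex 8
(.win 439436864)
(.cl 147604))))))))))
(.br 6 8
(.dg 6 2 8
(.win 177288712))
(.dg 6 2 6
(.win 541440136))))
(.br 2 7
(.ex 0
(.win 613226120)
(.ex 1
(.win 613233729)
(.ex 2
(.win 478819337)
(.ex 3
(.win 478814409)
(.ex 4
(.win 596247753)
(.ex 5
(.win 428487744)
(.ex 6
(.win 143476360)
(.ex 7
(.win 428487744)
(.ex 8
(.win 210580488)
(.cl 67684))))))))))
(.br 2 8
(.ex 0
(.win 613226120)
(.ex 1
(.win 613233729)
(.ex 2
(.win 478819337)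
(.ex 3
(.win 610934985)
(.ex 4
(.win 478807241)
(.ex 5
(.win 338572352)
(.ex 6
(.win 22136456)
(.ex 7
(.win 210580488)
(.ex 8
(.win 338572352)
(.cl 155796))))))))))
(.dg 2 0 6
(.win 539838088))))))))
(.br 3 5
(.br 5 6
(.br 2 4
(.br 4 7
(.br 6 7
(.ex 0
(.win 76125832)
(.ex 1
(.win 72459841)
(.ex 2
(.win 55715337)
(.ex 3
(.win 59326665)
(.ex 4
(.win 74057353)
(.ex 5
(.win 72107209)
(.ex 6
(.win 73480273)
(.ex 7
(.win 68035281)
(.cl 34900)))))))))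
(.dg 6 2 5
(.br 7 8
(.br 8 0
(.win 76125832)
(.br 8 1
(.win 72459841)
(.dg 8 6 7
(.win 327558720))))
(.dg 7 3 4
(.win 591799872)))))
(.dg 4 1 2
(.ex 0
(.win 589964808)
(.ex 1
(.win 609330753)
(.ex 2
(.win 589964808)
(.ex 3
(.win 577323209)
(.ex 4
(.win 592053897)
(.ex 5
(.win 428360897)
(.ex 6
(.win 474359360)
(.ex 7
(.win 589964864)
(.ex 8
(.win 206448192)
(.cl 73876))))))))))))
(.br 2 7
(.br 6 4
(.br 4 7
(.ex 0
(.win 73975432)
(.ex 1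
(.win 76362817)
(.ex 2
(.win 74040329)
(.ex 3
(.win 74006729)
(.ex 4
(.win 59345033)
(.ex 5
(.win 72107209)
(.ex 6
(.win 75605585)
(.ex 7
(.win 68236377)
(.cl 41044)))))))))
(.dg 4 1 6
(.ex 0
(.win 445465152)
(.ex 1
(.win 445465152)
(.ex 2
(.win 577553416)
(.ex 3
(.win 577585224)
(.ex 4
(.win 592021577)
(.ex 5
(.win 428360897)
(.ex 6
(.win 591505417)
(.ex 7
(.win 591774784)
(.ex 8
(.win 193578048)
(.cl 139348))))))))))))
(.dg 6 2 5
(.br 4 7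
(.br 4 8
(.br 8 0
(.win 73975432)
(.br 8 3
(.win 74006729)
(.dg 8 4 6
(.win 474334272))))
(.dg 4 1 7
(.win 474334272)))
(.br 4 8
(.dg 4 1 8
(.win 444974144))
(.dg 4 1 4
(.win 444974144))))))
(.dg 2 0 6
(.br 6 4
(.br 4 7
(.br 7 8
(.br 8 1
(.win 38913601)
(.br 8 5
(.win 55592137)
(.dg 8 2 7
(.win 577094720))))
(.dg 7 3 4
(.win 444974144)))
(.br 4 8
(.ex 0
(.win 445465152)
(.ex 1
(.win 445465152)
(.ex 2
(.win 577585672)
(.ex 3
(.win 577585224)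
(.ex 4
(.win 592021569)
(.ex 5
(.win 445650113)
(.ex 6
(.win 591505417)
(.ex 7
(.win 577094720)
(.ex 8
(.win 294503488)
(.cl 139348))))))))))
(.dg 4 1 6
(.win 444974144))))
(.br 6 7
(.br 4 7
(.br 4 8
(.br 8 3
(.win 59326665)
(.br 8 5
(.win 72107209)
(.dg 8 2 4
(.win 474334272))))
(.dg 4 1 7
(.win 474334272)))
(.br 4 8
(.dg 4 1 8
(.win 444974144))
(.dg 4 1 4
(.win 444974144))))
(.dg 6 2 5
(.win 322028608)))))))
(.fw 5 0
(.br 5 2
(.win 36714698)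
(.br 2 4
(.br 4 7
(.ex 0
(.win 579966600)
(.ex 1
(.win 579970625)
(.ex 2
(.win 575546889)
(.ex 3
(.win 591741128)
(.ex 4
(.win 424806017)
(.ex 5
(.win 591938761)
(.ex 6
(.win 294528576)
(.ex 7
(.win 558769728)
(.ex 8
(.win 439494208)
(.cl 147604))))))))))
(.br 4 8
(.ex 0
(.win 609326728)
(.ex 1
(.win 609330753)
(.ex 2
(.win 575546889)
(.ex 3
(.win 577323209)
(.ex 4
(.win 424806017)
(.ex 5
(.win 428360897)
(.ex 6
(.win 322053696)
(.ex 7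
(.win 558769728)
(.ex 8
(.win 439494208)
(.cl 98388))))))))))
(.dg 4 1 2
(.win 558769728))))
(.br 2 7
(.ex 0
(.win 613197448)
(.ex 1
(.win 613262401)
(.ex 2
(.win 478790665)
(.ex 3
(.win 478757065)
(.ex 4
(.win 428459072)
(.ex 5
(.win 596133065)
(.ex 6
(.win 143533704)
(.ex 7
(.win 428459072)
(.ex 8
(.win 210609160)
(.cl 66148))))))))))
(.br 2 8
(.ex 0
(.win 613197448)
(.ex 1
(.win 613262401)
(.ex 2
(.win 478790665)
(.ex 3
(.win 610877641)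
(.ex 4
(.win 338543680)
(.ex 5
(.win 478692553)
(.ex 6
(.win 22165128)
(.ex 7
(.win 210609160)
(.ex 8
(.win 338543680)
(.cl 155796))))))))))
(.dg 2 0 6
(.win 539895432))))))))
(.dg 3 0 7
(.br 4 6
(.br 4 7
(.br 6 5
(.ex 0
(.win 577872448)
(.ex 1
(.win 577872448)
(.ex 2
(.win 327562304)
(.ex 3
(.win 577871944)
(.ex 4
(.win 342918337)
(.ex 5
(.win 175252160)
(.ex 6
(.win 560011466)
(.ex 7
(.win 588330056)
(.ex 8
(.win 208773256)
(.cl 6756))))))))))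
(.br 6 8
(.br 2 5
(.br 7 2
(.win 40977929)
(.br 7 5
(.br 8 1
(.win 55658049)
(.br 8 5
(.win 59262601)
(.dg 8 3 6
(.win 589907520))))
(.dg 7 3 4
(.win 175195712))))
(.br 2 7
(.ex 0
(.win 441594376)
(.ex 1
(.win 594650177)
(.ex 2
(.win 441594376)
(.ex 3
(.win 594612360)
(.ex 4
(.win 576817289)
(.ex 5
(.win 322057280)
(.ex 6
(.win 576825353)
(.ex 7
(.win 420619289)
(.ex 8
(.win 439497792)
(.cl 6756))))))))))
(.dg 2 0 6
(.win 428934792))))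
(.dg 6 2 4
(.win 175252160))))
(.br 4 8
(.br 6 5
(.ex 0
(.win 592552512)
(.ex 1
(.win 592552512)
(.ex 2
(.win 342242368)
(.ex 3
(.win 592552008)
(.ex 4
(.win 328238273)
(.ex 5
(.win 189932224)
(.ex 6
(.win 589371594)
(.ex 7
(.win 194093192)
(.ex 8
(.win 544289864)
(.cl 6756))))))))))
(.br 6 7
(.ex 0
(.win 319955656)
(.ex 1
(.win 590456001)
(.ex 2
(.win 472974984)
(.ex 3
(.win 319955145)
(.ex 4
(.win 324142281)
(.ex 5
(.win 189932224)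
(.ex 6
(.win 318904522)
(.ex 7
(.win 322052800)
(.ex 8
(.win 590447752)
(.cl 19092))))))))))
(.dg 6 2 4
(.win 189932224))))
(.dg 4 1 6
(.br 9 0
(.win 606745800)
(.br 9 3
(.win 475144393)
(.br 9 5
(.win 53621896)
(.br 9 7
(.win 59847752)
(.br 9 8
(.win 74527816)
(.fw 9 6
(.win 1548886720))))))))))
(.br 4 7
(.br 4 2
(.br 7 5
(.br 5 6
(.br 6 8
(.br 8 1
(.win 55715393)
(.br 8 4
(.win 59377289)
(.dg 8 3 6
(.win 589964864))))
(.dg 6 2 5
(.win 472524352)))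
(.br 5 8
(.br 4 8
(.win 74483338)
(.ex 0
(.win 443687488)
(.ex 1
(.win 443687488)
(.ex 2
(.win 577643016)
(.ex 3
(.win 577642568)
(.ex 4
(.win 445679233)
(.ex 5
(.win 577513537)
(.ex 6
(.win 573449792)
(.ex 7
(.win 437395657)
(.ex 8
(.win 189933120)
(.cl 163924)))))))))))
(.fw 5 4
(.win 206448192))))
(.br 7 6
(.br 6 5
(.br 5 8
(.br 8 2
(.win 55715337)
(.br 8 4
(.win 74057353)
(.dg 8 3 5
(.win 189933120))))
(.dg 5 1 6
(.win 424814144)))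
(.br 6 8
(.ex 0
(.win 577872448)
(.ex 1
(.win 577872448)
(.ex 2
(.win 443687432)
(.ex 3
(.win 577871944)
(.ex 4
(.win 561087624)
(.ex 5
(.win 439494208)
(.ex 6
(.win 576825353)
(.ex 7
(.win 437395657)
(.ex 8
(.win 189933120)
(.cl 163924))))))))))
(.dg 6 2 7
(.win 424814144))))
(.dg 7 3 4
(.win 177088064))))
(.br 4 8
(.br 5 2
(.ex 0
(.win 591773832)
(.ex 1
(.win 458311233)
(.ex 2
(.win 592266761)
(.ex 3
(.win 591773832)
(.ex 4
(.win 319916169)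
(.ex 5
(.win 570803848)
(.ex 6
(.win 573392448)
(.ex 7
(.win 175195712)
(.ex 8
(.win 189875776)
(.cl 163924))))))))))
(.br 5 6
(.ex 0
(.win 342990920)
(.ex 1
(.win 611426945)
(.ex 2
(.win 342983752)
(.ex 3
(.win 342990920)
(.ex 4
(.win 342918337)
(.ex 5
(.win 342893256)
(.ex 6
(.win 208543880)
(.ex 7
(.win 208543880)
(.ex 8
(.win 193863816)
(.cl 6756))))))))))
(.fw 5 4
(.win 470103304))))
(.dg 4 1 7
(.win 59061512))))
(.br 4 8
(.br 4 2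
(.br 8 5
(.br 7 2
(.win 42870281)
(.br 7 6
(.br 8 6
(.win 9315025)
(.ex 0
(.win 462037568)
(.ex 1
(.win 462037568)
(.ex 2
(.win 458367496)
(.ex 3
(.win 478490760)
(.ex 4
(.win 444991105)
(.ex 5
(.win 424814144)
(.ex 6
(.win 428484160)
(.ex 7
(.win 175253056)
(.ex 8
(.win 408035529)
(.cl 90260)))))))))))
(.fw 7 8
(.win 177088064))))
(.br 8 6
(.br 6 5
(.ex 0
(.win 573679168)
(.ex 1
(.win 573679168)
(.ex 2
(.win 462496264)
(.ex 3
(.win 559001729)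
(.ex 4
(.win 558990977)
(.ex 5
(.win 439494208)
(.ex 6
(.win 591505417)
(.ex 7
(.win 327558720)
(.ex 8
(.win 412164809)
(.cl 137316))))))))))
(.br 6 7
(.ex 0
(.win 592552512)
(.ex 1
(.win 592552512)
(.ex 2
(.win 458367496)
(.ex 3
(.win 592552008)
(.ex 4
(.win 590447752)
(.ex 5
(.win 424814144)
(.ex 6
(.win 591505417)
(.ex 7
(.win 175253056)
(.ex 8
(.win 408035529)
(.cl 163924))))))))))
(.dg 6 2 8
(.win 439494208))))
(.dg 8 3 4
(.win 206448192))))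
(.dg 4 1 8
(.win 73741576)))
(.fw 4 0
(.br 4 2
(.win 53557384)
(.dg 4 1 9
(.win 4368708872))))))))))))))))))

theorem tree_ok : check tree 1 0 0 0 = true := by decide +kernel

theorem not_hyp {V : Type} [Nonempty V] (A : V → V → Prop) : ¬ Hyp A := by
  intro H
  refine sound H tree 1 0 0 0 (fun _ => Classical.arbitrary V) ⟨?_, ?_, ?_, ?_⟩ tree_ok
  · intro i hi j hj _
    omega
  · intro i j h
    simp [bit] at h
  · intro i j h
    simp [bit] at h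
  · intro i h
    simp at h

end Pool.Agent.H19.Psi
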