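import Mathlib

/-! Growth of the sum of `q (q - 1)` over the first primes. -/

set_option maxHeartbeats 400000

namespace Pool.Agent.H19.Pw

open Finset

noncomputable abbrev p (j : ℕ) : ℕ := Nat.nth Nat.Prime j

lemma pp (j : ℕ) : (p j).Prime := Nat.prime_nth_prime j

lemma pmono : StrictMono p := Nat.nth_strictMono Nat.infinite_setOfPred_prime

lemma podd (j : ℕ) : p (j + 1) % 2 = 1 := by
  have h := pmono (show 0 < j + 1 by omega)
  have h0 : p 0 = 2 := Nat.nth_prime_zero_eq_two
  exact ((pp (j + 1)).eq_two_or_odd).resolve_left (by omega)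

lemma plow (j : ℕ) : 2 * j + 1 ≤ p j := by
  induction j with
  | zero => have := (pp 0).two_le; omega
  | succ j ih =>
    have h := pmono (show j < j + 1 by omega)
    have := podd j
    omega

noncomputable def G (k : ℕ) : ℕ := ∑ j ∈ range k, p j * (p j - 1)

lemma Glow (k : ℕ) : 4 * k ^ 3 ≤ 3 * G k + 3 * k ^ 2 + k := by
  induction k with
  | zero => simp
  | succ k ih =>
    rw [G, sum_range_succ, ← G]
    have h := plow k
    have : (2 * k + 1) * (2 * k) ≤ p k * (p k - 1) := Nat.mul_le_mul h (by omega)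
    nlinarith

def g : ℕ → ℕ
  | 0 => 0
  | n + 1 => g n + if n.Prime then n * (n - 1) else 0

lemma G_count (n : ℕ) : G (Nat.count Nat.Prime n) = g n := by
  induction n with
  | zero => simp [G, g]
  | succ n ih =>
    rw [Nat.count_succ, g]
    split_ifs with h
    · rw [G, sum_range_succ, ← G, ih, p, Nat.nth_count h]
    · simpa using ih

lemma G_eq (k : ℕ) : G k = g (p k) := by
  rw [← G_count, p, Nat.count_nth_of_infinite Nat.infinite_setOfPred_prime]

lemma gmono : Monotone g := monotone_nat_of_le_succ fun n => by rw [g]; omega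

lemma pup (k : ℕ) : ∃ t, 2 ^ t ≤ p k ∧ p k ≤ (t + 1) * (k + 2) := by
  have h2 := (pp k).two_le
  set n := p k with hn
  refine ⟨Nat.log 2 n, Nat.pow_log_le_self 2 (by omega), ?_⟩
  have h1 : n < 2 ^ (Nat.log 2 n + 1) := Nat.lt_pow_succ_log_self (by norm_num) n
  have h3 := Chebyshev.two_pow_le_mul_lcmUpto n
  have h4 : Nat.lcmUpto n ≤ n ^ (k + 1) := by
    rw [Nat.lcmUpto_eq_prod_pow_log]
    refine (prod_le_pow_card _ _ n fun q _ => Nat.pow_log_le_self q (by omega)).trans ?_
    rw [Nat.primesLE_card_eq_primeCounting, Nat.primeCounting, Nat.primeCounting',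
      Nat.count_succ, if_pos (pp k), hn, p,
      Nat.count_nth_of_infinite Nat.infinite_setOfPred_prime]
  have h5 : 2 ^ n ≤ 2 ^ ((Nat.log 2 n + 1) * (k + 2)) := by
    calc 2 ^ n ≤ (n + 1) * n ^ (k + 1) := h3.trans (Nat.mul_le_mul_left _ h4)
      _ ≤ 2 ^ (Nat.log 2 n + 1) * (2 ^ (Nat.log 2 n + 1)) ^ (k + 1) :=
        Nat.mul_le_mul h1 (Nat.pow_le_pow_left h1.le _)
      _ = _ := by rw [← pow_mul, ← pow_add]; congr 1; ring
  exact (Nat.pow_le_pow_iff_right (by norm_num)).1 h5

lemma cube (t : ℕ) (ht : 11 ≤ t) : (t + 1) * ((t + 1) ^ 2 + 1) < 2 ^ t := by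
  induction t, ht using Nat.le_induction with
  | base => norm_num
  | succ t ht ih =>
    rw [pow_succ 2]
    nlinarith [Nat.mul_le_mul ht (Nat.mul_le_mul ht ht), Nat.mul_le_mul ht (le_refl (t * t))]

lemma p5 : p 5 = 13 := by
  have h : Nat.count Nat.Prime 13 = 5 := by decide +kernel
  rw [← h]
  exact Nat.nth_count (by norm_num)

lemma p6 : p 6 = 17 := by
  have h : Nat.count Nat.Prime 17 = 6 := by decide +kernel
  rw [← h]
  exact Nat.nth_count (by norm_num)

lemma p7 : p 7 = 19 := by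
  have h : Nat.count Nat.Prime 19 = 7 := by decide +kernel
  rw [← h]
  exact Nat.nth_count (by norm_num)

lemma p120 : p 120 = 661 := by
  have h : Nat.count Nat.Prime 661 = 120 := by decide +kernel
  rw [← h]
  exact Nat.nth_count (by norm_num)

lemma richert (k : ℕ) (hk : 5 ≤ k) : p k * (p k - 1) + 20 ≤ G k := by
  have h13 : 13 ≤ p k := p5 ▸ pmono.monotone hk
  by_cases h : k ≤ 120
  · have h661 : p k ≤ 661 := p120 ▸ pmono.monotone h
    rw [G_eq]
    have hp := pp k
    generalize p k = m at *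
    have s1 : ∀ m < 100, 13 ≤ m → m.Prime → m * (m - 1) + 20 ≤ g m := by decide +kernel
    have s2 : 250 * 250 + 20 ≤ g 100 := by decide +kernel
    have s3 : 661 * 661 + 20 ≤ g 250 := by decide +kernel
    by_cases a1 : m < 100
    · exact s1 m a1 h13 hp
    by_cases a2 : m < 250
    · have := gmono (show 100 ≤ m by omega)
      have : m * (m - 1) ≤ 250 * 250 := Nat.mul_le_mul (by omega) (by omega)
      omega
    · have := gmono (show 250 ≤ m by omega)
      have : m * (m - 1) ≤ 661 * 661 := Nat.mul_le_mul (by omega) (by omega)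
      omega
  · obtain ⟨t, h1, h2⟩ := pup k
    have ht : (t + 1) ^ 2 ≤ k := by
      by_cases h11 : 11 ≤ t
      · by_contra hc
        have := cube t h11
        have : (t + 1) * (k + 2) ≤ (t + 1) * ((t + 1) ^ 2 + 1) := Nat.mul_le_mul_left _ (by omega)
        omega
      · have : (t + 1) ^ 2 ≤ 11 ^ 2 := Nat.pow_le_pow_left (by omega) 2
        omega
    have h3 := Glow k
    have h4 : 2 * k + 1 ≤ p k := plow k
    obtain ⟨m, hm⟩ : ∃ m, p k = m + 1 := ⟨p k - 1, by omega⟩
    rw [hm] at h2 h4 ⊢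
    simp only [Nat.add_sub_cancel]
    have h5 : (m + 1) ^ 2 ≤ k * (k + 2) ^ 2 := by
      calc (m + 1) ^ 2 ≤ ((t + 1) * (k + 2)) ^ 2 := Nat.pow_le_pow_left h2 2
        _ = (t + 1) ^ 2 * (k + 2) ^ 2 := by ring
        _ ≤ _ := Nat.mul_le_mul_right _ ht
    have h6 : 121 ≤ k := by omega
    nlinarith [Nat.mul_le_mul h6 (le_refl (k * k)), Nat.mul_le_mul h6 (le_refl k)]

end Pool.Agent.H19.Pw
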