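import Mathlib
import Pool.Agent.H19.CpA

/-! Finite Borel hierarchy on the Cantor space and a factorization lemma. -/

set_option maxHeartbeats 400000

namespace Pool.Agent.H19.Sc

open Set Filter Topology

/-- The Cantor space. -/
abbrev CC := ℕ → Bool

/-- Clopen sets, open sets, and the additive Borel classes. -/
def S : ℕ → Set (Set CC)
  | 0 => {A | IsClopen A}
  | n + 1 => {A | ∃ B : ℕ → Set CC, (∀ k, B k ∈ S n) ∧ A = ⋃ k, (B k)ᶜ}

lemma S_mk {ι : Type} [Countable ι] [Nonempty ι] {n : ℕ} {B : ι → Set CC} (h : ∀ i, B i ∈ S n) :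
    (⋃ i, (B i)ᶜ) ∈ S (n + 1) := by
  obtain ⟨f, hf⟩ := exists_surjective_nat ι
  exact ⟨B ∘ f, fun k => h _, (hf.iUnion_comp fun i => (B i)ᶜ).symm⟩

lemma S_iUnion {ι : Type} [Countable ι] [Nonempty ι] {n : ℕ} {A : ι → Set CC}
    (h : ∀ i, A i ∈ S (n + 1)) : (⋃ i, A i) ∈ S (n + 1) := by
  choose B hB hA using h
  have := S_mk (ι := ι × ℕ) (B := fun z => B z.1 z.2) fun z => hB _ _
  rwa [iUnion_prod', ← iUnion_congr hA] at this

lemma S_union {n : ℕ} {A B : Set CC} (hA : A ∈ S n) (hB : B ∈ S n) : A ∪ B ∈ S n := by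
  cases n with
  | zero => exact IsClopen.union hA hB
  | succ n =>
    rw [union_eq_iUnion]
    exact S_iUnion fun b => by cases b <;> assumption

lemma S_inter {n : ℕ} {A B : Set CC} (hA : A ∈ S (n + 1)) (hB : B ∈ S (n + 1)) :
    A ∩ B ∈ S (n + 1) := by
  obtain ⟨A', hA, rfl⟩ := hA
  obtain ⟨B', hB, rfl⟩ := hB
  have := S_mk (ι := ℕ × ℕ) (B := fun z => A' z.1 ∪ B' z.2) fun z => S_union (hA _) (hB _)
  convert this using 1
  ext c
  simp

lemma S_triv (n : ℕ) : ∅ ∈ S n ∧ univ ∈ S n := by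
  induction n with
  | zero => exact ⟨isClopen_empty, isClopen_univ⟩
  | succ n ih => exact ⟨⟨fun _ => univ, fun _ => ih.2, by simp⟩,
      ⟨fun _ => ∅, fun _ => ih.1, by simp [iUnion_const]⟩⟩

lemma S_biInter {α : Type} {n : ℕ} (F : Finset α) {A : α → Set CC}
    (h : ∀ i, A i ∈ S (n + 1)) : (⋂ i ∈ F, A i) ∈ S (n + 1) := by
  classical
  induction F using Finset.induction_on with
  | empty => simpa using (S_triv _).2
  | insert a s _ ih => rw [Finset.set_biInter_insert]; exact S_inter (h a) ih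

lemma exists_enum : ∃ b : ℕ → Set CC, range b = {A | IsClopen A} := by
  have h : Countable (TopologicalSpace.Clopens CC) :=
    TopologicalSpace.Clopens.countable_iff_secondCountable.2 inferInstance
  obtain ⟨f, hf⟩ := exists_surjective_nat (TopologicalSpace.Clopens CC)
  refine ⟨fun k => f k, Subset.antisymm (range_subset_iff.2 fun k => (f k).isClopen) fun A hA => ?_⟩
  obtain ⟨k, hk⟩ := hf ⟨A, hA⟩
  exact ⟨k, by simp [hk]⟩

lemma S_open {U : Set CC} (hU : IsOpen U) : U ∈ S 1 := by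
  classical
  obtain ⟨b, hb⟩ := exists_enum
  have hb' : ∀ k, IsClopen (b k) := fun k => (hb ▸ mem_range_self k : b k ∈ {A | IsClopen A})
  refine ⟨fun k => (if b k ⊆ U then b k else ∅)ᶜ, fun k => IsClopen.compl ?_, ?_⟩
  · split_ifs
    exacts [hb' k, isClopen_empty]
  · ext c
    simp only [compl_compl, mem_iUnion]
    refine ⟨fun hc => ?_, fun ⟨k, hk⟩ => ?_⟩
    · obtain ⟨V, hV, hcV, hVU⟩ := isTopologicalBasis_isClopen.exists_subset_of_mem_open hc hU
      obtain ⟨k, rfl⟩ : V ∈ range b := hb ▸ hV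
      exact ⟨k, by rwa [if_pos hVU]⟩
    · split_ifs at hk with h
      exacts [h hk, hk.elim]

/-- Universal sets. -/
def Un (b : ℕ → Set CC) : ℕ → CC → Set CC
  | 0, c => ⋃ j, {z | c j = true ∧ z ∈ b j}
  | n + 1, c => ⋃ k, (Un b n fun j => c (Nat.pair k j))ᶜ

theorem exists_diag (n : ℕ) : ∃ E ∈ S (n + 1), Eᶜ ∉ S (n + 1) := by
  classical
  obtain ⟨b, hb⟩ := exists_enum
  have hb' : ∀ k, IsClopen (b k) := fun k => (hb ▸ mem_range_self k : b k ∈ {A | IsClopen A})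
  have h1 : ∀ n, ∀ π : CC → CC, Continuous π → {z | z ∈ Un b n (π z)} ∈ S (n + 1) := by
    intro n
    induction n with
    | zero =>
      intro π hπ
      refine S_open ?_
      simp only [Un, mem_iUnion, mem_setOf_eq, setOf_exists]
      exact isOpen_iUnion fun j => ((isOpen_discrete {true}).preimage
        ((continuous_apply j).comp hπ)).inter (hb' j).isOpen
    | succ n ih =>
      intro π hπ
      refine ⟨_, fun k => ih (fun z j => π z (Nat.pair k j)) (by fun_prop), ?_⟩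
      ext z
      simp [Un]
  have h2 : ∀ n, ∀ A ∈ S (n + 1), ∃ c, Un b n c = A := by
    intro n
    induction n with
    | zero =>
      rintro _ ⟨B, hB, rfl⟩
      refine ⟨fun j => decide (b j ⊆ ⋃ k, (B k)ᶜ), ?_⟩
      ext z
      simp only [Un, mem_iUnion, mem_setOf_eq, decide_eq_true_eq]
      refine ⟨fun ⟨j, h, hz⟩ => mem_iUnion.1 (h hz), fun ⟨k, hk⟩ => ?_⟩
      obtain ⟨j, hj⟩ : (B k)ᶜ ∈ range b := hb ▸ IsClopen.compl (hB k)
      exact ⟨j, hj ▸ subset_iUnion (fun k => (B k)ᶜ) k, hj ▸ hk⟩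
    | succ n ih =>
      rintro _ ⟨B, hB, rfl⟩
      choose c hc using fun k => ih _ (hB k)
      exact ⟨fun i => c i.unpair.1 i.unpair.2, by simp [Un, hc]⟩
  refine ⟨_, h1 n id continuous_id, fun h => ?_⟩
  obtain ⟨c, hc⟩ := h2 n _ h
  have : c ∈ Un b n c ↔ c ∉ Un b n c := by
    conv_lhs => rw [hc]
    rfl
  tauto

lemma S_lim {n : ℕ} {ψ : ℕ → CC → ℝ} {φ : CC → ℝ}
    (hl : ∀ c, Tendsto (fun k => ψ k c) atTop (𝓝 (φ c)))
    (h : ∀ k V, IsOpen V → ψ k ⁻¹' V ∈ S (n + 1)) {V : Set ℝ} (hV : IsOpen V) :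
    φ ⁻¹' V ∈ S (n + 2) := by
  have := S_mk (ι := ℕ × ℕ)
    (B := fun z => ⋃ k, ψ (k + z.2) ⁻¹' Metric.thickening (1 / ((z.1 : ℝ) + 1)) Vᶜ)
    fun z => S_iUnion fun k => h _ _ Metric.isOpen_thickening
  convert this using 1
  ext c
  simp only [mem_preimage, mem_iUnion, mem_compl_iff, not_exists]
  constructor
  · intro hc
    have h1 : φ c ∉ closure Vᶜ := by rw [hV.isClosed_compl.closure_eq]; exact fun h => h hc
    rw [Metric.closure_eq_iInter_cthickening] at h1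
    simp only [mem_iInter, not_forall] at h1
    obtain ⟨δ, hδ, h1⟩ := h1
    obtain ⟨j, hj⟩ := exists_nat_one_div_lt hδ
    obtain ⟨N, hN⟩ := eventually_atTop.1
      (hl c (Metric.isClosed_cthickening.isOpen_compl.mem_nhds h1))
    exact ⟨(j, N), fun k hk => hN (k + N) (by omega)
      (Metric.thickening_subset_cthickening_of_le hj.le _ hk)⟩
  · rintro ⟨⟨j, N⟩, h1⟩
    have h2 := Metric.isOpen_thickening.isClosed_compl.mem_of_tendsto
      ((tendsto_add_atTop_iff_nat N).2 (hl c)) (Eventually.of_forall h1)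
    by_contra h3
    exact h2 (Metric.self_subset_thickening (by positivity) _ h3)

lemma nbhd {X : Type} {p : (X → ℝ) → Prop} {f : Subtype p} {O : Set (Subtype p)} (hO : O ∈ 𝓝 f) :
    ∃ F : Finset X, ∃ V : X → Set ℝ, (∀ y, V y ∈ 𝓝 (f.1 y)) ∧
      ∀ h : Subtype p, (∀ y ∈ F, h.1 y ∈ V y) → h ∈ O := by
  rw [nhds_subtype, mem_comap] at hO
  obtain ⟨T, hT, hTO⟩ := hO
  rw [nhds_pi, Filter.mem_pi] at hT
  obtain ⟨F, hF, V, hV, hVT⟩ := hT
  exact ⟨hF.toFinset, V, hV, fun h hh => hTO (hVT fun y hy => hh y (by simpa using hy))⟩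

open TopologicalSpace in
lemma fact {X ι : Type} [Countable ι] {p : (X → ℝ) → Prop}
    (hp : ∀ (t : X → ℝ) (E : Finset X), ∃ h : Subtype p, ∀ x ∈ E, h.1 x = t x)
    (Ψ : ι → Subtype p → ℝ) (hΨ : ∀ i, Continuous (Ψ i)) :
    ∃ B : Set X, B.Countable ∧ ∀ F : CC → Subtype p, (∀ b ∈ B, Continuous fun c => (F c).1 b) →
      ∀ i, Continuous fun c => Ψ i (F c) := by
  classical
  have h1 : ∀ (E : Finset X) (z : ι × (E → countableBasis ℝ) × countableBasis ℝ), ∃ E' : Finset X,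
      (∃ g : Subtype p, (∀ x : E, g.1 x ∈ (z.2.1 x).1) ∧ Ψ z.1 g ∈ z.2.2.1) →
      ∃ g : Subtype p, (∀ x : E, g.1 x ∈ (z.2.1 x).1) ∧
        ∀ h : Subtype p, (∀ x ∈ E', h.1 x = g.1 x) → Ψ z.1 h ∈ z.2.2.1 := by
    intro E z
    by_cases h : ∃ g : Subtype p, (∀ x : E, g.1 x ∈ (z.2.1 x).1) ∧ Ψ z.1 g ∈ z.2.2.1
    · obtain ⟨g, hg, hg'⟩ := h
      obtain ⟨F, V, hV, hF⟩ := nbhd ((hΨ z.1).continuousAt
        ((isOpen_of_mem_countableBasis z.2.2.2).mem_nhds hg'))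
      exact ⟨F, fun _ => ⟨g, hg, fun h hh => hF h fun y hy => hh y hy ▸ mem_of_mem_nhds (hV y)⟩⟩
    · exact ⟨∅, fun h' => absurd h' h⟩
  choose W hW using h1
  set B := Cp.cls (fun E => ⋃ z, (W E z : Set X)) ∅ with hB
  refine ⟨B, Cp.cls_countable _ (fun E => countable_iUnion fun z => (W E z).countable_toSet)
    countable_empty, fun F hF i => continuous_iff_continuousAt.2 fun c => ?_⟩
  refine (closed_nhds_basis _).tendsto_right_iff.2 fun O ⟨hO, hOc⟩ => ?_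
  obtain ⟨F0, V, hV, hF0⟩ := nbhd ((hΨ i).continuousAt (x := F c) hO)
  set E := F0.filter (· ∈ B) with hE
  choose R hR hRc hRV using fun x : E => (isBasis_countableBasis ℝ).mem_nhds_iff.1 (hV x)
  have h2 : ∀ᶠ c' in 𝓝 c, ∀ x : E, (F c').1 x ∈ R x := eventually_all.2 fun x =>
    (hF x (Finset.mem_filter.1 x.2).2).continuousAt
      ((isOpen_of_mem_countableBasis (hR x)).mem_nhds (hRc x))
  filter_upwards [h2] with c' hc'
  by_contra hcon
  obtain ⟨J, hJ, hJc, hJO⟩ := (isBasis_countableBasis ℝ).exists_subset_of_mem_open hcon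
    hOc.isOpen_compl
  set z : ι × (E → countableBasis ℝ) × countableBasis ℝ := (i, fun x => ⟨R x, hR x⟩, ⟨J, hJ⟩)
  obtain ⟨g, hg, hg'⟩ := hW E z ⟨F c', hc', hJc⟩
  have h3 : (W E z : Set X) ⊆ B := (subset_iUnion _ z).trans
    (Cp.cls_closed (fun E => ⋃ z, (W E z : Set X)) E fun x hx => (Finset.mem_filter.1 hx).2)
  obtain ⟨h, hh⟩ := hp (fun x => if x ∈ B then g.1 x else (F c).1 x) (F0 ∪ W E z)
  refine hJO (hg' h fun x hx => ?_) (hF0 h fun x hx => ?_)
  · rw [hh x (Finset.mem_union_right _ hx), if_pos (h3 hx)]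
  · rw [hh x (Finset.mem_union_left _ hx)]
    split_ifs with hxB
    · exact hRV ⟨x, Finset.mem_filter.2 ⟨hx, hxB⟩⟩ (hg ⟨x, _⟩)
    · exact mem_of_mem_nhds (hV x)

end Pool.Agent.H19.Sc
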