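import Mathlib
import Pool.Agent.H19.ScA
import Pool.Agent.H19.Pfc

/-! Spaces of separately continuous functions on cubes do not embed in lower ones. -/

set_option maxHeartbeats 400000

namespace Pool.Agent.H19.Sc

open Set Filter Topology Function

/-- A cutoff. -/
noncomputable def mu (k : ℕ) (s : ℝ) : ℝ := max 0 (min 1 (2 - 2 * (k + 1) * s))

lemma mu_cont (k : ℕ) : Continuous (mu k) := by unfold mu; fun_prop

lemma mu_zero {k : ℕ} {s : ℝ} (hs : 0 < s) (h : 1 / s ≤ k) : mu k s = 0 := by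
  rw [div_le_iff₀ hs] at h
  exact max_eq_left ((min_le_right _ _).trans (by nlinarith))

lemma mu_one {k : ℕ} {s : ℝ} (h : 2 * (k + 1) * s ≤ 1) : mu k s = 1 := by
  rw [mu, min_eq_left (by linarith), max_eq_right zero_le_one]

lemma exists_G {α : Type} (n : ℕ) : ∀ E ∈ S n, ∃ G : CC → (ℕ → ℝ) → ℝ,
    (∀ c t, G c t ≤ 1) ∧ (∀ c t, (∀ j, t j = 0) → G c t = indicator E 1 c) ∧
    (∀ t, (∀ j < n, 0 < t j) → Continuous fun c => G c t) ∧
    ∀ c (l : Filter α) (τ : α → ℕ → ℝ) (t : ℕ → ℝ), (∀ j, Tendsto (fun a => τ a j) l (𝓝 (t j))) →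
      (∀ a j, 0 ≤ τ a j) → (∀ j, 0 ≤ t j) → (∀ j, t j = 0 → ∀ j' > j, t j' = 0 ∧ ∀ a, τ a j' = 0) →
      Tendsto (fun a => G c (τ a)) l (𝓝 (G c t)) := by
  classical
  have hle : ∀ (E : Set CC) c, indicator E (1 : CC → ℝ) c ≤ 1 := fun E c => by
    simp only [indicator]
    split_ifs <;> simp
  induction n with
  | zero =>
    exact fun E hE => ⟨fun c _ => indicator E 1 c, fun c _ => hle E c, fun _ _ _ => rfl,
      fun _ _ => IsClopen.continuous_indicator hE continuous_const,
      fun _ _ _ _ _ _ _ _ => tendsto_const_nhds⟩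
  | succ n ih =>
    rintro E ⟨B, hB, hE⟩
    choose G h1 h2 h3 h4 using fun k => ih _ (hB k)
    set A : CC → (ℕ → ℝ) → ℕ → ℝ := fun c t N =>
      ∑ k ∈ Finset.range N, mu k (t 0) * (1 - G k c fun j => t (j + 1)) with hA
    have hAN : ∀ c (t : ℕ → ℝ) (N : ℕ), 0 < t 0 → 1 / t 0 ≤ N → A c t ⌈1 / t 0⌉₊ = A c t N := by
      intro c t N ht hN
      refine Finset.sum_subset (Finset.range_mono (Nat.ceil_le.2 hN)) fun k _ hk => ?_
      rw [mu_zero ht (Nat.ceil_le.1 (by simpa using hk)), zero_mul]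
    refine ⟨fun c t => if t 0 = 0 then indicator E 1 c else min 1 (A c t ⌈1 / t 0⌉₊),
      fun c t => ?_, fun c t ht => if_pos (ht 0), fun t ht => ?_, fun c l τ t hl hτ ht h0 => ?_⟩
    · dsimp only
      split_ifs
      exacts [hle E c, min_le_left _ _]
    · simp only [if_neg (ht 0 n.succ_pos).ne']
      exact continuous_const.min (continuous_finset_sum _ fun k _ => continuous_const.mul
        (continuous_const.sub (h3 k _ fun j hj => ht _ (Nat.succ_lt_succ hj))))
    rcases (ht 0).eq_or_lt with h | h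
    · have h5 : ∀ k a, (G k c fun j => τ a (j + 1)) = indicator (B k) 1 c := fun k a =>
        h2 k c _ fun j => (h0 0 h.symm (j + 1) j.succ_pos).2 a
      simp only [if_pos h.symm]
      refine tendsto_const_nhds.congr' ?_
      by_cases hc : c ∈ E
      · obtain ⟨k, hk⟩ := mem_iUnion.1 (hE ▸ hc)
        have h6 : ∀ᶠ a in l, τ a 0 < 1 / (2 * (k + 1)) :=
          hl 0 (Iio_mem_nhds (by rw [← h]; positivity))
        filter_upwards [h6] with a ha
        split_ifs with h7
        · rfl
        have h8 : 0 < τ a 0 := (hτ a 0).lt_of_ne' h7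
        rw [lt_div_iff₀ (by positivity)] at ha
        rw [indicator_of_mem hc, min_eq_left]
        · rfl
        refine le_trans ?_ (Finset.single_le_sum (a := k)
          (f := fun k => mu k (τ a 0) * (1 - G k c fun j => τ a (j + 1)))
          (fun k _ => mul_nonneg (le_max_left _ _) (sub_nonneg.2 (h1 _ _ _))) ?_)
        · simp only [h5, indicator_of_notMem hk, mu_one (k := k) (s := τ a 0) (by linarith)]
          simp
        · rw [Finset.mem_range, Nat.lt_ceil, lt_div_iff₀ h8]
          nlinarith [(Nat.cast_nonneg k : (0:ℝ) ≤ k)]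
      · refine Eventually.of_forall fun a => ?_
        have h6 : ∀ k, c ∈ B k := fun k => by_contra fun h => hc (hE ▸ mem_iUnion.2 ⟨k, h⟩)
        simp [hA, h5, h6, hc]
    · have h6 : ∀ᶠ a in l, t 0 / 2 < τ a 0 := hl 0 (Ioi_mem_nhds (half_lt_self h))
      have h7 : 1 / (t 0 / 2) ≤ ⌈1 / (t 0 / 2)⌉₊ := Nat.le_ceil _
      simp only [if_neg h.ne']
      rw [hAN c t _ h ((one_div_le_one_div_of_le (half_pos h) (half_le_self h.le)).trans h7)]
      refine Tendsto.congr' ?_ (tendsto_const_nhds.min (tendsto_finset_sum _ fun k _ =>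
        (((mu_cont k).tendsto _).comp (hl 0)).mul (tendsto_const_nhds.sub
          (h4 k c l _ _ (fun j => hl _) (fun a j => hτ a _) (fun j => ht _)
            fun j hj j' hj' => h0 _ hj _ (Nat.succ_lt_succ hj')))))
      filter_upwards [h6] with a ha
      have h8 : 0 < τ a 0 := (half_pos h).trans ha
      rw [if_neg h8.ne', hAN c _ _ h8 ((one_div_le_one_div_of_le (half_pos h) ha.le).trans h7)]
      rfl

/-- The unit interval. -/
abbrev II := Icc (0:ℝ) 1

/-- Separately continuous functions on the cube. -/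
abbrev SC (k : ℕ) := {f : (Fin k → II) → ℝ // ∀ i x, Continuous fun t => f (update x i t)}

lemma baire {n : ℕ} {Q : Set II} (hQ : Dense Q) {g : CC → SC n}
    (hg : ∀ q, (∀ i, q i ∈ Q) → Continuous fun c => (g c).1 q) (j : ℕ) (hj : j ≤ n) :
    ∀ y : Fin n → II, (∀ i : Fin n, j ≤ i → y i ∈ Q) → ∀ V, IsOpen V →
      (fun c => (g c).1 y) ⁻¹' V ∈ S (j + 1) := by
  induction j with
  | zero => exact fun y hy V hV => S_open (hV.preimage (hg y fun i => hy i (Nat.zero_le _)))
  | succ j ih =>
    intro y hy V hV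
    obtain ⟨q, hq, hl⟩ := mem_closure_iff_seq_limit.1 (hQ (y ⟨j, hj⟩))
    refine S_lim (ψ := fun k c => (g c).1 (update y ⟨j, hj⟩ (q k))) (fun c => ?_)
      (fun k => ih (by omega) _ fun i hi => ?_) hV
    · simpa [comp_def] using (((g c).2 ⟨j, hj⟩ y).tendsto _).comp hl
    · by_cases h : i = ⟨j, hj⟩
      · subst h
        simpa using hq k
      · rw [update_of_ne h]
        exact hy i (lt_of_le_of_ne hi fun h' => h (Fin.ext h'.symm))

/-- Elementary symmetric functions of the distances to `x`. -/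
noncomputable def es {m : ℕ} (x z : Fin m → II) (j : ℕ) : ℝ :=
  ∑ s ∈ Finset.powersetCard (j + 1) Finset.univ, ∏ i ∈ s, |(z i : ℝ) - x i|

lemma es_nonneg {m : ℕ} (x z : Fin m → II) (j : ℕ) : 0 ≤ es x z j :=
  Finset.sum_nonneg fun _ _ => Finset.prod_nonneg fun _ _ => abs_nonneg _

lemma es_zero {m : ℕ} {x z : Fin m → II} {j : ℕ} :
    es x z j = 0 ↔ ∀ s : Finset (Fin m), s.card = j + 1 → ∃ i ∈ s, z i = x i := by
  rw [es, Finset.sum_eq_zero_iff_of_nonneg fun _ _ => Finset.prod_nonneg fun _ _ => abs_nonneg _]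
  simp [Finset.prod_eq_zero_iff, sub_eq_zero, Subtype.coe_inj]

lemma es_upd {m : ℕ} {x z : Fin m → II} {j j' : ℕ} {i : Fin m} {a : II}
    (h : es x (update z i a) j = 0) (hj : j < j') (b : II) : es x (update z i b) j' = 0 := by
  rw [es_zero] at h ⊢
  intro s hs
  obtain ⟨s', hs', hc⟩ := Finset.exists_subset_card_eq (s := s.erase i) (n := j + 1)
    (by have := Finset.pred_card_le_card_erase (s := s) (a := i); omega)
  obtain ⟨i', hi', h'⟩ := h s' hc
  have h1 := Finset.mem_erase.1 (hs' hi')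
  rw [update_of_ne h1.1] at h'
  exact ⟨i', h1.2, by rwa [update_of_ne h1.1]⟩

lemma sc_of_cont {m : ℕ} {h : (Fin m → II) → ℝ} (hc : Continuous h) (i : Fin m) (x : Fin m → II) :
    Continuous fun t => h (update x i t) := hc.comp (continuous_const.update i continuous_id)

theorem main {n m : ℕ} (hnm : n < m) (e : SC m → SC n) : ¬ IsEmbedding e := by
  classical
  intro he
  obtain ⟨Q, hQc, hQ⟩ := TopologicalSpace.exists_countable_dense II
  haveI := hQc.to_subtype
  have hev : ∀ y, Continuous fun f => (e f).1 y := fun y =>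
    (continuous_apply y).comp (continuous_subtype_val.comp he.continuous)
  obtain ⟨B, hB, hfact⟩ := fact (ι := Fin n → Q) (fun t E => by
    obtain ⟨h, hc, hE⟩ := Pfc.interp t E
    exact ⟨⟨h, sc_of_cont hc⟩, hE⟩) (fun q f => (e f).1 fun i => q i) fun q => hev _
  have h1 : ∀ i : Fin m, ∃ a : II, ∀ b ∈ B, b i ≠ a := fun i => by
    by_contra hcon
    push Not at hcon
    have h2 : (univ : Set II).Countable := (hB.image fun b => b i).mono fun a _ => hcon a
    have h3 := Cardinal.le_aleph0_iff_set_countable.2 h2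
    rw [Cardinal.mk_univ, Cardinal.mk_Icc_real zero_lt_one] at h3
    exact Cardinal.aleph0_lt_continuum.not_ge h3
  choose x hx using h1
  set o : SC m := ⟨0, fun _ _ => continuous_const⟩ with ho
  have h2 : {f : SC m | |f.1 x| < 1} ∈ 𝓝 o := (isOpen_lt
    ((continuous_apply x).comp continuous_subtype_val).abs continuous_const).mem_nhds (by simp [ho])
  rw [he.nhds_eq_comap, mem_comap] at h2
  obtain ⟨O, hO, hOx⟩ := h2
  obtain ⟨F, V, hV, hF⟩ := nbhd hO
  have h3 : {f : SC m | ∀ y ∈ F, (e f).1 y ∈ interior (V y)} ∈ 𝓝 o :=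
    (eventually_all_finset F).2 fun y _ => (hev y).continuousAt (interior_mem_nhds.2 (hV y))
  obtain ⟨T, W, hW, hT⟩ := nbhd h3
  obtain ⟨w, hw, hwT⟩ := Pfc.interp (fun z => if z = x then (1:ℝ) else 0) (insert x T)
  obtain ⟨E, hE, hE'⟩ := exists_diag n
  obtain ⟨G, -, h4, h5, h6⟩ := exists_G (α := II) (n + 1) E hE
  set f : CC → SC m := fun c => ⟨fun z => w z * G c (es x z), fun i z =>
    (sc_of_cont hw i z).mul (continuous_iff_continuousAt.2 fun a => h6 c (𝓝 a) _ _
      (fun j => (sc_of_cont (h := fun z => es x z j) (by unfold es; fun_prop) i z).tendsto a)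
      (fun _ _ => es_nonneg _ _ _) (es_nonneg _ _)
      fun j hj j' hj' => ⟨es_upd hj hj' a, es_upd hj hj'⟩)⟩ with hf
  have hfx : ∀ c, (f c).1 x = indicator E 1 c := fun c => by
    simp only [hf, hwT x (Finset.mem_insert_self _ _), if_true, one_mul]
    refine h4 c _ fun j => es_zero.2 fun s hs => ?_
    obtain ⟨i, hi⟩ := Finset.card_pos.1 (show 0 < s.card by omega)
    exact ⟨i, hi, rfl⟩
  have h7 := hfact f fun b hb => continuous_const.mul (h5 _ fun j hj =>
    (es_nonneg x b j).lt_of_ne' fun h => by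
      obtain ⟨s, -, hs⟩ := Finset.exists_subset_card_eq (s := (Finset.univ : Finset (Fin m)))
        (n := j + 1) (by simp; omega)
      obtain ⟨i, -, hi⟩ := es_zero.1 h s hs
      exact hx i b hb hi)
  have h8 := S_biInter F fun y => baire (g := fun c => e (f c)) hQ
    (fun q hq => h7 fun i => ⟨q i, hq i⟩) n le_rfl y (fun i hi => absurd i.2 hi.not_gt)
    (interior (V y)) isOpen_interior
  refine hE' ?_
  convert h8 using 1
  ext c
  simp only [mem_iInter, mem_preimage, mem_compl_iff]
  refine ⟨fun hc => hT (f c) fun z hz => ?_, fun h hc => ?_⟩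
  · have : (f c).1 z = 0 := by
      by_cases h : z = x
      · rw [h, hfx, indicator_of_notMem hc]
      · simp [hf, hwT z (Finset.mem_insert_of_mem hz), h]
    rw [this]
    exact mem_of_mem_nhds (hW z)
  · have : |(f c).1 x| < 1 := hOx (hF _ fun y hy => interior_subset (h y hy))
    simp [hfx, hc] at this

end Pool.Agent.H19.Sc
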