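import Mathlib

/-! Schur's theorem for summable sequences, and a large directed cut. -/

set_option maxHeartbeats 400000

namespace Pool.Agent.H19.Sch

open Finset Filter Topology

def sg (b : Bool) : ℝ := if b then 1 else -1

lemma sg_abs (b : Bool) : |sg b| = 1 := by cases b <;> simp [sg]

lemma sg_summable {d : ℕ → ℝ} (h : Summable fun i => |d i|) (ε : ℕ → ℝ) (hε : ∀ i, |ε i| ≤ 1) :
    Summable fun i => ε i * d i :=
  Summable.of_norm_bounded h fun i => by
    rw [Real.norm_eq_abs, abs_mul]
    exact mul_le_of_le_one_left (abs_nonneg _) (hε i)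

theorem schur (d : ℕ → ℕ → ℝ) (hs : ∀ n, Summable fun i => |d n i|)
    (hw : ∀ ε : ℕ → ℝ, (∀ i, |ε i| ≤ 1) → Tendsto (fun n => ∑' i, ε i * d n i) atTop (𝓝 0)) :
    Tendsto (fun n => ∑' i, |d n i|) atTop (𝓝 0) := by
  classical
  have co : ∀ j, Tendsto (fun n => d n j) atTop (𝓝 0) := fun j => by
    have := hw (fun i => if i = j then 1 else 0) fun i => by split_ifs <;> simp
    simpa using this
  have ct : ∀ n, Continuous fun e : ℕ → Bool => ∑' i, sg (e i) * d n i := fun n =>
    continuous_tsum (fun i => by
      have : Continuous sg := continuous_of_discreteTopology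
      fun_prop) (hs n) fun i e => by simp [sg_abs]
  rw [Metric.tendsto_atTop]
  intro δ hδ
  obtain ⟨N, e0, he⟩ := nonempty_interior_of_iUnion_of_closed
    (f := fun N : ℕ => ⋂ n, ⋂ (_ : N ≤ n), {e : ℕ → Bool | ∑' i, sg (e i) * d n i ≤ δ / 2})
    (fun N => isClosed_iInter fun n => isClosed_iInter fun _ => isClosed_le (ct n) continuous_const)
    (by
      refine Set.eq_univ_of_forall fun e => ?_
      obtain ⟨N, hN⟩ := eventually_atTop.1 ((hw (fun i => sg (e i)) fun i => (sg_abs _).le).eventually
        (ge_mem_nhds (show 0 < δ / 2 by linarith)))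
      exact Set.mem_iUnion.2 ⟨N, by simpa using hN⟩)
  rw [mem_interior_iff_mem_nhds, nhds_pi, Filter.mem_pi] at he
  obtain ⟨I, hI, t, ht, hsub⟩ := he
  have head : Tendsto (fun n => ∑ i ∈ hI.toFinset, 2 * |d n i|) atTop (𝓝 0) := by
    have := tendsto_finset_sum hI.toFinset fun i _ => ((co i).abs).const_mul 2
    simpa using this
  obtain ⟨M, hM⟩ := eventually_atTop.1 (head.eventually (gt_mem_nhds (show 0 < δ / 2 by linarith)))
  refine ⟨max N M, fun n hn => ?_⟩
  let e : ℕ → Bool := fun i => if i ∈ I then e0 i else decide (0 ≤ d n i)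
  have h1 : ∑' i, sg (e i) * d n i ≤ δ / 2 := by
    have := hsub (a := e) fun i hi => by simpa [e, hi] using mem_of_mem_nhds (ht i)
    simp only [Set.mem_iInter] at this
    exact this n (le_of_max_le_left hn)
  have h2 := hM n (le_of_max_le_right hn)
  have s2 : HasSum (fun i => if i ∈ hI.toFinset then 2 * |d n i| else 0)
      (∑ i ∈ hI.toFinset, 2 * |d n i|) := by
    have := hasSum_sum_of_ne_finset_zero (s := hI.toFinset) (L := .unconditional ℕ)
      (f := fun i => if i ∈ hI.toFinset then 2 * |d n i| else 0) fun i hi => if_neg hi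
    rwa [sum_congr rfl fun i hi => if_pos hi] at this
  have h3 := hasSum_le (fun i => ?_) (hs n).hasSum
    ((sg_summable (hs n) (fun i => sg (e i)) fun i => (sg_abs _).le).hasSum.add s2)
  · rw [Real.dist_eq, sub_zero, abs_of_nonneg (tsum_nonneg fun i => abs_nonneg _)]
    linarith
  · by_cases hi : i ∈ I
    · have a1 := neg_abs_le (sg (e i) * d n i)
      rw [abs_mul, sg_abs, one_mul] at a1
      simp only [Set.Finite.mem_toFinset, hi, if_true]
      linarith
    · by_cases h0 : 0 ≤ d n i
      · simp [e, hi, h0, sg, abs_of_nonneg h0]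
      · simp [e, hi, h0, sg, abs_of_neg (not_le.1 h0)]

lemma cut (lo hi : ℕ → ℕ) (h : ∀ v, lo v < hi v) (B : Finset ℕ) (t : ℕ → ℝ) (M : ℕ) :
    ∃ S : ℕ → Bool, (∑ v ∈ B, if hi v < M then t v else 0) ≤
      2 * ∑ v ∈ B, if hi v < M ∧ S (lo v) ≠ S (hi v) then t v else 0 := by
  induction M with
  | zero => exact ⟨fun _ => true, by simp⟩
  | succ M ih =>
    obtain ⟨S, hS⟩ := ih
    have key : ∀ v ∈ B, (if hi v < M + 1 ∧ Function.update S M true (lo v) ≠
        Function.update S M true (hi v) then t v else 0) +
        (if hi v < M + 1 ∧ Function.update S M false (lo v) ≠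
        Function.update S M false (hi v) then t v else 0) + (if hi v < M then t v else 0) =
        2 * (if hi v < M ∧ S (lo v) ≠ S (hi v) then t v else 0) +
        (if hi v < M + 1 then t v else 0) := by
      intro v _
      have := h v
      rcases lt_trichotomy (hi v) M with c | c | c
      · have c1 : lo v ≠ M := by omega
        have c2 : hi v < M + 1 := by omega
        simp only [Function.update_of_ne c1, Function.update_of_ne c.ne, c, c2]
        ring
      · have c1 : lo v ≠ M := by omega
        simp only [Function.update_of_ne c1, c, Function.update_self]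
        cases S (lo v) <;> simp
      · have c1 : ¬ hi v < M + 1 := by omega
        have c2 : ¬ hi v < M := by omega
        simp [c1, c2]
    have e := sum_congr rfl key
    simp only [sum_add_distrib, ← mul_sum] at e
    by_contra hc
    push Not at hc
    linarith [hc (Function.update S M true), hc (Function.update S M false)]

end Pool.Agent.H19.Sch
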