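import Pool.Agent.H19.CpA

/-! The `ω`-modification of a scattered compact space is a Sokolov space. -/

namespace Pool.Agent.H19.Sok

open Set Filter Topology Pool.Agent.H19.Cp

universe u
variable {K : Type u} [TopologicalSpace K]

/-- A rank predicate. -/
inductive Rk : Ordinal.{u} → K → Prop
  | mk (α : Ordinal.{u}) (x : K) (U : Set K) (g : K → Ordinal.{u}) : U ∈ 𝓝 x →
      (∀ z ∈ U, z ≠ x → g z < α) → (∀ z ∈ U, z ≠ x → Rk (g z) z) → Rk α x

lemma exists_rank (hs : ∀ S : Set K, S.Nonempty → ∃ x ∈ S, ∃ U : Set K, IsOpen U ∧ U ∩ S = {x}) :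
    ∃ rk : K → Ordinal.{u}, ∀ x, ∃ U ∈ 𝓝 x, ∀ z ∈ U, z ≠ x → rk z < rk x := by
  have h1 : ∀ x : K, ∃ α, Rk α x := by
    by_contra h
    push Not at h
    obtain ⟨x, hx, U, hU, hUx⟩ := hs {x | ∀ α, ¬ Rk α x} h
    have h2 : ∀ z, ∃ α, z ∈ U → z ≠ x → Rk α z := by
      intro z
      by_contra h3
      push Not at h3
      have : z ∈ U ∩ {x | ∀ α, ¬ Rk α x} := ⟨(h3 0).1, fun α => (h3 α).2.2⟩
      rw [hUx] at this
      exact (h3 0).2.1 this
    choose g hg using h2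
    have hxU : x ∈ U := (hUx.ge (mem_singleton x)).1
    exact hx _ (Rk.mk (⨆ z, g z + 1) x U g (hU.mem_nhds hxU)
      (fun z _ _ => Ordinal.lt_iSup_add_one g z) hg)
  refine ⟨fun x => sInf {α | Rk α x}, fun x => ?_⟩
  have h2 : ∀ α (x : K), Rk α x → ∃ U ∈ 𝓝 x, ∀ z ∈ U, z ≠ x → sInf {α | Rk α z} < α := by
    intro α x h
    cases h with
    | mk _ _ U g hU h3 h4 =>
      exact ⟨U, hU, fun z hz hzx => (csInf_le' (s := {α | Rk α z}) (h4 z hz hzx)).trans_lt (h3 z hz hzx)⟩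
  exact h2 _ x (csInf_mem (h1 x))

lemma core [CompactSpace K] [T2Space K]
    (hs : ∀ S : Set K, S.Nonempty → ∃ x ∈ S, ∃ U : Set K, IsOpen U ∧ U ∩ S = {x})
    (V : Finset K → K → Set (Set K)) (hVc : ∀ E m, (V E m).Countable)
    (hVm : ∀ E E' m, E ⊆ E' → V E m ⊆ V E' m) (hVo : ∀ E m, ∀ O ∈ V E m, IsOpen O ∧ m ∈ O) :
    ∃ M : Set K, M.Countable ∧ ∀ x, ∃ m ∈ M, ∀ E : Finset K, (E : Set K) ⊆ M →
      ∀ O ∈ V E m, x ∈ O := by
  classical
  obtain ⟨rk, hrk⟩ := exists_rank hs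
  have h1 : ∀ x, ∃ C ∈ 𝓝 x, IsCompact C ∧ ∀ z ∈ C, z ≠ x → rk z < rk x := by
    intro x
    obtain ⟨U, hU, h⟩ := hrk x
    obtain ⟨C, hC, hCU, hCc⟩ := local_compact_nhds hU
    exact ⟨C, hC, hCc, fun z hz => h z (hCU hz)⟩
  choose C hC hCc hCr using h1
  have h2 : ∀ T : Set K, ∃ E : Finset K, IsCompact T → (E : Set K) ⊆ T ∧ T ⊆ ⋃ y ∈ E, C y := by
    intro T
    by_cases hT : IsCompact T
    · obtain ⟨E, hE, hE'⟩ := hT.elim_nhds_subcover C fun x _ => hC x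
      exact ⟨E, fun _ => ⟨hE, hE'⟩⟩
    · exact ⟨∅, fun h => absurd h hT⟩
  choose G hG using h2
  set W : Finset K → Set K := fun E => G univ ∪ ⋃ m ∈ E, ⋃ O ∈ V E m, G (C m \ O) with hW
  have hWc : ∀ E, (W E).Countable := fun E => (G univ).countable_toSet.union
    (E.countable_toSet.biUnion fun m _ => (hVc E m).biUnion fun O _ => Finset.countable_toSet _)
  refine ⟨cls W ∅, cls_countable W hWc countable_empty, fun x => ?_⟩
  have h3 : {m | m ∈ cls W ∅ ∧ x ∈ C m}.Nonempty := by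
    obtain ⟨y, hy, hxy⟩ := mem_iUnion₂.1 ((hG univ isCompact_univ).2 (mem_univ x))
    exact ⟨y, cls_closed W ∅ (by simp) (Or.inl hy), hxy⟩
  obtain ⟨m, hm, hmin⟩ := (InvImage.wf rk wellFounded_lt).has_min _ h3
  refine ⟨m, hm.1, fun E hE O hO => ?_⟩
  by_contra hx
  obtain ⟨hOo, hmO⟩ := hVo E m O hO
  obtain ⟨h4, h5⟩ := hG (C m \ O) ((hCc m).diff hOo)
  obtain ⟨y, hy, hxy⟩ := mem_iUnion₂.1 (h5 ⟨hm.2, hx⟩)
  refine hmin y ⟨cls_closed W (insert m E) ?_ (Or.inr ?_), hxy⟩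
    (hCr m y (h4 hy).1 fun h => (h4 hy).2 (h ▸ hmO))
  · rw [Finset.coe_insert]; exact insert_subset hm.1 hE
  · exact mem_biUnion (Finset.mem_insert_self m E)
      (mem_biUnion (hVm _ _ _ (Finset.subset_insert _ _) hO) hy)

theorem sokolov [CompactSpace K] [T2Space K] {X : Type*} [tX : TopologicalSpace X] (e : X ≃ K)
    (hs : ∀ S : Set K, S.Nonempty → ∃ x ∈ S, ∃ U : Set K, IsOpen U ∧ U ∩ S = {x})
    (ht : tX = TopologicalSpace.generateFrom
      {S : Set X | ∃ U : ℕ → Set K, (∀ n, IsOpen (U n)) ∧ S = e ⁻¹' (⋂ n, U n)})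
    (F : (n : ℕ) → Set (Fin n → X)) (hF : ∀ n, IsClosed (F n)) :
    ∃ f : X → X, Continuous f ∧ (range f).Countable ∧
      ∀ n : ℕ, ∀ x ∈ F n, (fun i => f (x i)) ∈ F n := by
  classical
  have hb : ∀ O : Set X, IsOpen O → ∀ x ∈ O, ∃ U : ℕ → Set K,
      (∀ n, IsOpen (U n) ∧ e x ∈ U n) ∧ e ⁻¹' (⋂ n, U n) ⊆ O := by
    intro O hO
    rw [ht] at hO
    induction hO with
    | basic S hS =>
      obtain ⟨U, hU, rfl⟩ := hS
      exact fun x hx => ⟨U, fun n => ⟨hU n, mem_iInter.1 hx n⟩, Subset.rfl⟩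
    | univ => exact fun x _ => ⟨fun _ => univ, fun _ => ⟨isOpen_univ, trivial⟩, subset_univ _⟩
    | inter S T _ _ h1 h2 =>
      intro x hx
      obtain ⟨U, hU, hU'⟩ := h1 x hx.1
      obtain ⟨U', hV, hV'⟩ := h2 x hx.2
      exact ⟨fun n => U n ∩ U' n, fun n => ⟨(hU n).1.inter (hV n).1, (hU n).2, (hV n).2⟩,
        fun y hy => ⟨hU' (mem_iInter.2 fun n => (mem_iInter.1 hy n).1),
          hV' (mem_iInter.2 fun n => (mem_iInter.1 hy n).2)⟩⟩
    | sUnion S _ h =>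
      rintro x ⟨T, hT, hx⟩
      obtain ⟨U, hU, hU'⟩ := h T hT x hx
      exact ⟨U, hU, hU'.trans (subset_sUnion_of_mem hT)⟩
  have ho : ∀ 𝓥 : Set (Set K), 𝓥.Countable → (∀ O ∈ 𝓥, IsOpen O) → IsOpen (e ⁻¹' ⋂₀ 𝓥) := by
    intro 𝓥 h1 h2
    obtain ⟨U, hU⟩ := (h1.insert univ).exists_eq_range (insert_nonempty _ _)
    rw [ht]
    refine TopologicalSpace.isOpen_generateFrom_of_mem ⟨U, fun n => ?_, ?_⟩
    · rcases hU.ge (mem_range_self n) with h | h
      · rw [h]; exact isOpen_univ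
      · exact h2 _ h
    · rw [← sInter_range, ← hU, sInter_insert, univ_inter]
  have h1 : ∀ n (t : Fin n → K), ∃ U : Fin n → ℕ → Set K, (∀ i j, IsOpen (U i j) ∧ t i ∈ U i j) ∧
      ∀ x ∈ F n, (∀ i j, e (x i) ∈ U i j) → (fun i => e.symm (t i)) ∈ F n := by
    intro n t
    by_cases h : (fun i => e.symm (t i)) ∈ F n
    · exact ⟨fun _ _ => univ, fun _ _ => ⟨isOpen_univ, trivial⟩, fun _ _ _ => h⟩
    · obtain ⟨u, hu, hu'⟩ := isOpen_pi_iff'.1 (hF n).isOpen_compl _ h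
      choose U hU hU' using fun i => hb (u i) (hu i).1 _ (hu i).2
      refine ⟨U, fun i j => by simpa using hU i j, fun x hx h2 => absurd hx (hu' fun i _ => ?_)⟩
      exact hU' i (mem_iInter.2 (h2 i))
  choose U hU hU' using h1
  have h2 : ∀ a b : K, ∃ O : Set K × Set K, (IsOpen O.1 ∧ a ∈ O.1) ∧ (IsOpen O.2 ∧ b ∈ O.2) ∧
      (a ≠ b → Disjoint O.1 O.2) := by
    intro a b
    by_cases h : a = b
    · exact ⟨(univ, univ), ⟨isOpen_univ, trivial⟩, ⟨isOpen_univ, trivial⟩, fun h' => absurd h h'⟩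
    · obtain ⟨u, v, hu, hv, ha, hb, huv⟩ := t2_separation h
      exact ⟨(u, v), ⟨hu, ha⟩, ⟨hv, hb⟩, fun _ => huv⟩
  choose S hS1 hS2 hS using h2
  set V : Finset K → K → Set (Set K) := fun E m =>
    (⋃ n, ⋃ t ∈ {t : Fin n → K | ∀ i, t i ∈ E}, ⋃ i ∈ {i | t i = m}, range (U n t i)) ∪
      ((fun b => (S m b).1) '' E ∪ (fun a => (S a m).2) '' E) with hV
  have hVc : ∀ E m, (V E m).Countable := fun E m =>
    (countable_iUnion fun n => (Finite.pi' fun _ => E.finite_toSet).countable.biUnion fun t _ =>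
      (to_countable _).biUnion fun i _ => countable_range _).union
      ((E.countable_toSet.image _).union (E.countable_toSet.image _))
  have hVo : ∀ E m, ∀ O ∈ V E m, IsOpen O ∧ m ∈ O := by
    rintro E m O (h | ⟨b, -, rfl⟩ | ⟨a, -, rfl⟩)
    · simp only [mem_iUnion] at h
      obtain ⟨n, t, -, i, rfl, j, rfl⟩ := h
      exact hU n t i j
    · exact hS1 m b
    · exact hS2 a m
  obtain ⟨M, hMc, hM⟩ := core hs V hVc (fun E E' m h => union_subset_union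
    (iUnion_mono fun n => biUnion_subset_biUnion_left fun t ht i => h (ht i))
    (union_subset_union (image_mono h) (image_mono h))) hVo
  choose g hg hg' using hM
  have huniq : ∀ x, ∀ m ∈ M, (∀ E : Finset K, (E : Set K) ⊆ M → ∀ O ∈ V E m, x ∈ O) → g x = m := by
    intro x m hm h
    by_contra h3
    exact disjoint_left.1 (hS _ _ h3)
      (hg' x {m} (by simpa using hm) _ (Or.inr (Or.inl ⟨m, by simp, rfl⟩)))
      (h {g x} (by simpa using hg x) _ (Or.inr (Or.inr ⟨g x, by simp, rfl⟩)))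
  haveI : Countable {E : Finset K // (E : Set K) ⊆ M} :=
    Cardinal.mk_le_aleph0_iff.1 (card_fin le_rfl (Cardinal.le_aleph0_iff_set_countable.2 hMc))
  refine ⟨fun x => e.symm (g (e x)), IsLocallyConstant.continuous ?_,
    (hMc.image e.symm).mono (range_subset_iff.2 fun x => mem_image_of_mem _ (hg _)), fun n x hx => ?_⟩
  · rw [IsLocallyConstant.iff_exists_open]
    intro x
    refine ⟨e ⁻¹' ⋂₀ (⋃ E : {E : Finset K // (E : Set K) ⊆ M}, V E.1 (g (e x))),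
      ho _ (countable_iUnion fun E => hVc _ _) fun O hO => ?_, fun O hO => ?_, fun y hy => ?_⟩
    · obtain ⟨E, hE⟩ := mem_iUnion.1 hO
      exact (hVo _ _ O hE).1
    · obtain ⟨E, hE⟩ := mem_iUnion.1 hO
      exact hg' _ E.1 E.2 O hE
    · rw [huniq (e y) _ (hg (e x)) fun E hE O hO => hy O (mem_iUnion.2 ⟨⟨E, hE⟩, hO⟩)]
  · refine hU' n (fun i => g (e (x i))) x hx fun i j => ?_
    refine hg' _ (Finset.univ.image fun i => g (e (x i))) ?_ _ (Or.inl ?_)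
    · intro y hy
      obtain ⟨i, -, rfl⟩ := Finset.mem_image.1 hy
      exact hg _
    · simp only [mem_iUnion]
      exact ⟨n, _, fun i => Finset.mem_image_of_mem _ (Finset.mem_univ i), i, rfl, j, rfl⟩

end Pool.Agent.H19.Sok
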