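import Mathlib

set_option autoImplicit false
open Matrix Pointwise

namespace Pool.Agent.H19

/-- For a real symmetric matrix, `s • 1 - A` is positive semidefinite iff the spectrum is below `s`. -/
theorem psd_sub_iff {V : Type} [Fintype V] [DecidableEq V] (A : Matrix V V ℝ) (hA : A.IsHermitian)
    (s : ℝ) : (algebraMap ℝ (Matrix V V ℝ) s - A).PosSemidef ↔ ∀ μ ∈ spectrum ℝ A, μ ≤ s := by
  have h1 : (algebraMap ℝ (Matrix V V ℝ) s - A).IsHermitian := by
    refine IsHermitian.sub ?_ hA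
    rw [Matrix.algebraMap_eq_diagonal]
    exact Matrix.isHermitian_diagonal _
  rw [Matrix.posSemidef_iff_isHermitian_and_spectrum_nonneg, ← spectrum.singleton_sub_eq]
  constructor
  · rintro ⟨-, h⟩ μ hμ
    have : s - μ ∈ ({s} : Set ℝ) - spectrum ℝ A := Set.sub_mem_sub rfl hμ
    have := h this
    simpa using this
  · intro h
    refine ⟨h1, ?_⟩
    rintro x ⟨a, ha, b, hb, rfl⟩
    have := h b hb
    simp only [Set.mem_singleton_iff] at ha
    subst ha
    simpa using this

theorem sSup_spec_ge {V : Type} [Fintype V] [DecidableEq V] (A : Matrix V V ℝ) (hA : A.IsHermitian)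
    (x : V → ℝ) : x ⬝ᵥ (A *ᵥ x) ≤ sSup (spectrum ℝ A) * (x ⬝ᵥ x) := by
  have hb : BddAbove (spectrum ℝ A) := (Matrix.finite_real_spectrum (A := A)).bddAbove
  have h := (psd_sub_iff A hA (sSup (spectrum ℝ A))).2 (fun μ hμ => le_csSup hb hμ)
  have h2 := h.dotProduct_mulVec_nonneg x
  rw [star_trivial, sub_mulVec, dotProduct_sub, Algebra.algebraMap_eq_smul_one, smul_mulVec,
    one_mulVec, dotProduct_smul] at h2
  simp only [smul_eq_mul] at h2
  linarith

theorem sSup_spec_le {V : Type} [Fintype V] [DecidableEq V] [Nonempty V] (A : Matrix V V ℝ)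
    (hA : A.IsHermitian) (s : ℝ) (h : (algebraMap ℝ (Matrix V V ℝ) s - A).PosSemidef) :
    sSup (spectrum ℝ A) ≤ s := by
  refine csSup_le ?_ ((psd_sub_iff A hA s).1 h)
  rw [hA.spectrum_real_eq_range_eigenvalues]
  exact Set.range_nonempty _

/-- spectral radius at least the average degree -/
theorem adj_sSup_ge {V : Type} [Fintype V] [DecidableEq V] (H : SimpleGraph V)
    [DecidableRel H.Adj] :
    (2 * H.edgeSet.ncard : ℝ) ≤ sSup (spectrum ℝ (H.adjMatrix ℝ)) * Fintype.card V := by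
  have h := sSup_spec_ge (H.adjMatrix ℝ) (H.isHermitian_adjMatrix ℝ) (fun _ => 1)
  have h1 : (fun _ : V => (1:ℝ)) ⬝ᵥ (fun _ => 1) = Fintype.card V := by
    simp [dotProduct]
  have h2 : (fun _ : V => (1:ℝ)) ⬝ᵥ (H.adjMatrix ℝ *ᵥ (fun _ => 1)) = 2 * H.edgeSet.ncard := by
    have h3 := H.sum_degrees_eq_twice_card_edges
    have h4 : H.edgeSet.ncard = H.edgeFinset.card := by
      rw [← SimpleGraph.coe_edgeFinset, Set.ncard_coe_finset]
    rw [h4]
    simp only [dotProduct, one_mul, SimpleGraph.adjMatrix_mulVec_apply, Finset.sum_const,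
      SimpleGraph.card_neighborFinset_eq_degree, nsmul_eq_mul, mul_one]
    exact_mod_cast h3
  rw [h1, h2] at h
  exact h

/-- spectral radius of a regular graph is at most the degree -/
theorem adj_sSup_le {V : Type} [Fintype V] [DecidableEq V] [Nonempty V] (G : SimpleGraph V)
    [DecidableRel G.Adj] (d : ℕ) (hd : ∀ v, G.degree v = d) :
    sSup (spectrum ℝ (G.adjMatrix ℝ)) ≤ d := by
  apply sSup_spec_le _ (G.isHermitian_adjMatrix ℝ)
  have h := G.posSemidef_lapMatrix ℝ
  have : G.lapMatrix ℝ = algebraMap ℝ (Matrix V V ℝ) d - G.adjMatrix ℝ := by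
    rw [SimpleGraph.lapMatrix, SimpleGraph.degMatrix, Matrix.algebraMap_eq_diagonal]
    congr 2
    ext v
    simp [hd v]
  rwa [this] at h

end Pool.Agent.H19
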