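import Mathlib

/-! Abstract stabilizer functions on a vector space over `ZMod 2`. -/

namespace Pool.Agent.H19.Stab

open Module

/-- The sign character of `ZMod 2`. -/
def sgn (z : ZMod 2) : ℂ := if z = 0 then 1 else -1

lemma z2 (z : ZMod 2) : z = 0 ∨ z = 1 := by
  revert z; decide

@[simp] lemma sgn_zero : sgn 0 = 1 := by simp [sgn]

@[simp] lemma sgn_one : sgn 1 = -1 := by simp [sgn]

lemma one_add_one : (1 : ZMod 2) + 1 = 0 := by decide

lemma sgn_add (a b : ZMod 2) : sgn (a + b) = sgn a * sgn b := by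
  rcases z2 a with rfl | rfl <;> rcases z2 b with rfl | rfl <;> simp [one_add_one]

lemma sgn_mul_self (a : ZMod 2) : sgn a * sgn a = 1 := by
  rcases z2 a with rfl | rfl <;> simp

lemma sgn_ne_zero (a : ZMod 2) : sgn a ≠ 0 := by
  rcases z2 a with rfl | rfl <;> simp

lemma eq_zero_of_sgn {a : ZMod 2} (h : sgn a = 1) : a = 0 := by
  rcases z2 a with rfl | rfl
  · rfl
  · exfalso; rw [sgn_one] at h; norm_num at h

lemma sgn_sum {ι : Type*} (s : Finset ι) (f : ι → ZMod 2) :
    sgn (∑ i ∈ s, f i) = ∏ i ∈ s, sgn (f i) := by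
  classical
  induction s using Finset.induction_on with
  | empty => simp
  | insert i s hi ih => rw [Finset.sum_insert hi, Finset.prod_insert hi, sgn_add, ih]

variable {V : Type*} [AddCommGroup V] [Module (ZMod 2) V]

lemma add_self (a : V) : a + a = 0 := by
  have : a + a = ((1 : ZMod 2) + 1) • a := by rw [add_smul, one_smul]
  rw [this, one_add_one, zero_smul]

/-- Generalised Pauli operators acting on functions. -/
def Pau (c : ℂ) (a : V) (β : Dual (ZMod 2) V) : (V → ℂ) →ₗ[ℂ] (V → ℂ) where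
  toFun f := fun x => c * sgn (β x) * f (x + a)
  map_add' f g := by funext x; simp [mul_add]
  map_smul' l f := by funext x; simp; ring

lemma Pau_apply (c : ℂ) (a : V) (β : Dual (ZMod 2) V) (f : V → ℂ) (x : V) :
    Pau c a β f x = c * sgn (β x) * f (x + a) := rfl

lemma Pau_Pau (c c' : ℂ) (a a' : V) (β β' : Dual (ZMod 2) V) (f : V → ℂ) :
    Pau c a β (Pau c' a' β' f) = Pau (c * c' * sgn (β' a)) (a + a') (β + β') f := by
  funext x
  simp only [Pau_apply, map_add, LinearMap.add_apply, sgn_add, add_assoc]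
  ring

lemma Pau_comm (c c' : ℂ) (a a' : V) (β β' : Dual (ZMod 2) V) (f : V → ℂ) :
    Pau c a β (Pau c' a' β' f) = sgn (β' a + β a') • Pau c' a' β' (Pau c a β f) := by
  funext x
  simp only [Pau_apply, map_add, sgn_add, Pi.smul_apply, smul_eq_mul, add_assoc, add_comm a a']
  have := sgn_mul_self (β a')
  linear_combination (-(c * c' * sgn (β x) * sgn (β' x) * sgn (β' a) * f (x + (a' + a)))) * this

lemma Pau_zero (c : ℂ) (f : V → ℂ) : Pau c (0 : V) 0 f = c • f := by
  funext x; simp [Pau_apply]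

lemma Pau_smul (c : ℂ) (a : V) (β : Dual (ZMod 2) V) (f : V → ℂ) :
    Pau c a β f = c • Pau 1 a β f := by
  funext x; simp [Pau_apply]; ring

lemma Pau_self (c : ℂ) (a : V) (β : Dual (ZMod 2) V) (f : V → ℂ) :
    Pau c a β (Pau c a β f) = (c * c * sgn (β a)) • f := by
  rw [Pau_Pau, add_self, add_self, Pau_zero]

/-- `f` is determined up to a scalar by the Pauli operators fixing it. -/
def IsS (f : V → ℂ) : Prop :=
  ∀ g : V → ℂ, (∀ c a β, Pau c a β f = f → Pau c a β g = g) → ∃ l : ℂ, g = l • f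

lemma IsS.zero : IsS (0 : V → ℂ) := by
  intro g hg
  have := hg 0 0 0 (by simp)
  rw [Pau_zero] at this
  exact ⟨0, by rw [← this]; simp⟩

lemma IsS.smul {f : V → ℂ} (hf : IsS f) (l : ℂ) : IsS (l • f) := by
  by_cases hl : l = 0
  · rw [hl, zero_smul]; exact IsS.zero
  intro g hg
  obtain ⟨m, hm⟩ := hf g (fun c a β h => hg c a β (by rw [map_smul, h]))
  exact ⟨m / l, by rw [hm, smul_smul, div_mul_cancel₀ _ hl]⟩

lemma smul_eq_self {f : V → ℂ} (hf : f ≠ 0) {l : ℂ} (h : l • f = f) : l = 1 := by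
  have : (l - 1) • f = 0 := by rw [sub_smul, h, one_smul, sub_self]
  rcases smul_eq_zero.1 this with h1 | h1
  · exact sub_eq_zero.1 h1
  · exact absurd h1 hf

lemma IsS.proj {f : V → ℂ} (hf : IsS f) (a0 : V) (β0 : Dual (ZMod 2) V) (h0 : β0 a0 = 0) :
    IsS (f + Pau 1 a0 β0 f) := by
  by_cases hf0 : f = 0
  · rw [hf0]; simpa using IsS.zero
  have PP : ∀ g, Pau 1 a0 β0 (Pau 1 a0 β0 g) = g := by
    intro g; rw [Pau_self, h0]; simp
  by_cases hc : ∀ c a β, Pau c a β f = f → β0 a + β a0 = 0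
  · obtain ⟨l, hl⟩ := hf (Pau 1 a0 β0 f) (fun c a β h => by
      rw [Pau_comm, hc c a β h, sgn_zero, one_smul, h])
    have : f + Pau 1 a0 β0 f = (1 + l) • f := by rw [hl, add_smul, one_smul]
    rw [this]; exact hf.smul _
  push Not at hc
  obtain ⟨c1, a1, β1, h1, hω⟩ := hc
  have hω1 : β0 a1 + β1 a0 = 1 := (z2 _).resolve_left hω
  intro g hg
  have hPg : Pau 1 a0 β0 g = g := hg 1 a0 β0 (by rw [map_add, PP, add_comm])
  have hC : ∀ c a β, Pau c a β f = f → β0 a + β a0 = 0 → Pau c a β g = g := by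
    intro c a β h hz
    apply hg
    rw [map_add, h, Pau_comm, hz, sgn_zero, one_smul, h]
  have hab : ∀ c a β, Pau c a β f = f → ∀ k,
      Pau c a β (Pau c1 a1 β1 k) = Pau c1 a1 β1 (Pau c a β k) := by
    intro c a β h k
    have h2 := Pau_comm c c1 a a1 β β1 f
    rw [h1, h, h1] at h2
    rw [Pau_comm, smul_eq_self hf0 h2.symm, one_smul]
  have hQQ : ∀ k, Pau c1 a1 β1 (Pau c1 a1 β1 k) = k := by
    intro k
    have h2 := Pau_self c1 a1 β1 f
    rw [h1, h1] at h2
    rw [Pau_self, smul_eq_self hf0 h2.symm, one_smul]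
  obtain ⟨l, hl⟩ := hf (g + Pau c1 a1 β1 g) (by
    intro c a β h
    rcases z2 (β0 a + β a0) with hz | hz
    · rw [map_add, hab c a β h, hC c a β h hz]
    · have h3 : Pau c a β (Pau c1 a1 β1 g) = g := by
        rw [Pau_Pau]
        apply hC
        · rw [← Pau_Pau, h1, h]
        · rw [map_add, LinearMap.add_apply]
          have : β0 a + β0 a1 + (β a0 + β1 a0) = (β0 a + β a0) + (β0 a1 + β1 a0) := by ring
          rw [this, hz, hω1, one_add_one]
      have h4 : Pau c a β g = Pau c1 a1 β1 g := by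
        conv_lhs => rw [← hQQ g]
        rw [hab c a β h, h3]
      rw [map_add, h3, h4, add_comm])
  refine ⟨l / 2, ?_⟩
  have h5 : Pau 1 a0 β0 (Pau c1 a1 β1 g) = - Pau c1 a1 β1 g := by
    rw [Pau_comm, add_comm (β1 a0), hω1, hPg]; simp
  have h6 : (2 : ℂ) • g = l • (f + Pau 1 a0 β0 f) := by
    rw [smul_add, ← map_smul, ← hl, map_add, h5, hPg, two_smul]; abel
  have : g = (1 / 2 : ℂ) • ((2 : ℂ) • g) := by rw [smul_smul]; norm_num
  rw [this, h6, smul_smul]
  congr 1; ring

/-- Conjugation lemma. -/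
lemma IsS.conj {f : V → ℂ} (hf : IsS f) (T T' : (V → ℂ) →ₗ[ℂ] (V → ℂ))
    (h1 : ∀ g, T (T' g) = g) (h2 : ∀ g, T' (T g) = g)
    (hT : ∀ a β, ∃ c' a' β', ∀ g, T (Pau 1 a β g) = Pau c' a' β' (T g)) : IsS (T f) := by
  intro g hg
  obtain ⟨l, hl⟩ := hf (T' g) (by
    intro c a β h
    obtain ⟨c', a', β', h3⟩ := hT a β
    have h4 : ∀ k, T (Pau c a β k) = Pau (c * c') a' β' (T k) := by
      intro k
      rw [Pau_smul, map_smul, h3, Pau_smul c', Pau_smul (c * c'), smul_smul]
    have h5 := hg (c * c') a' β' (by rw [← h4, h])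
    have h6 := h4 (T' g)
    rw [h1, h5] at h6
    have h7 := congrArg T' h6
    rwa [h2] at h7)
  exact ⟨l, by rw [← h1 g, hl, map_smul]⟩

/-- Multiplication by a function as a linear map. -/
def mulL (m : V → ℂ) : (V → ℂ) →ₗ[ℂ] (V → ℂ) where
  toFun f := fun x => m x * f x
  map_add' f g := by funext x; simp [mul_add]
  map_smul' l f := by funext x; simp; ring

lemma IsS.quad {f : V → ℂ} (hf : IsS f) (B : V →ₗ[ZMod 2] V →ₗ[ZMod 2] ZMod 2) :
    IsS (fun x => sgn (B x x) * f x) := by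
  refine hf.conj (mulL fun x => sgn (B x x)) (mulL fun x => sgn (B x x)) ?_ ?_ ?_
  · intro g; funext x
    show sgn (B x x) * (sgn (B x x) * g x) = g x
    rw [← mul_assoc, sgn_mul_self, one_mul]
  · intro g; funext x
    show sgn (B x x) * (sgn (B x x) * g x) = g x
    rw [← mul_assoc, sgn_mul_self, one_mul]
  · intro a β
    refine ⟨sgn (B a a), a, β + B a + B.flip a, fun g => ?_⟩
    funext x
    show sgn (B x x) * (1 * sgn (β x) * g (x + a)) =
      sgn (B a a) * sgn ((β + B a + B.flip a) x) * (sgn (B (x + a) (x + a)) * g (x + a))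
    simp only [map_add, LinearMap.add_apply, LinearMap.flip_apply, sgn_add]
    have e1 := sgn_mul_self (B a a)
    have e2 := sgn_mul_self (B a x)
    have e3 := sgn_mul_self (B x a)
    calc sgn (B x x) * (1 * sgn (β x) * g (x + a))
        = (sgn (B a a) * sgn (B a a)) * (sgn (B a x) * sgn (B a x)) *
            (sgn (B x a) * sgn (B x a)) * (sgn (B x x) * (sgn (β x) * g (x + a))) := by
          rw [e1, e2, e3]; ring
      _ = _ := by ring

end Pool.Agent.H19.Stab
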