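import Pool.Agent.H19.Stab1

/-! Pullback, pushforward and counting for abstract stabilizer functions. -/

namespace Pool.Agent.H19.Stab

open Module

variable {V W : Type*} [AddCommGroup V] [Module (ZMod 2) V] [AddCommGroup W] [Module (ZMod 2) W]

lemma IsS.cut {f : V → ℂ} (hf : IsS f) (B : Finset (Dual (ZMod 2) V)) :
    IsS (Set.indicator {x | ∀ β ∈ B, β x = 0} f) := by
  classical
  induction B using Finset.induction_on with
  | empty => simpa using hf
  | insert β B hβ ih =>
    have h := (ih.proj 0 β (by simp)).smul (1 / 2)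
    have e : Set.indicator {x | ∀ γ ∈ insert β B, γ x = 0} f = (1 / 2 : ℂ) •
        (Set.indicator {x | ∀ β ∈ B, β x = 0} f +
          Pau 1 0 β (Set.indicator {x | ∀ β ∈ B, β x = 0} f)) := by
      funext x
      simp only [Pi.smul_apply, Pi.add_apply, Pau_apply, add_zero, smul_eq_mul]
      rcases z2 (β x) with h0 | h0
      · rw [h0, sgn_zero]
        by_cases hx : ∀ γ ∈ B, γ x = 0
        · rw [Set.indicator_of_mem, Set.indicator_of_mem]
          · ring
          · exact hx
          · simpa [h0] using hx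
        · rw [Set.indicator_of_notMem, Set.indicator_of_notMem]
          · ring
          · exact hx
          · simpa [h0] using hx
      · rw [h0, sgn_one, Set.indicator_of_notMem]
        · ring
        · simp [h0]
    rw [e]; exact h

lemma IsS.cutSub [Finite V] {f : V → ℂ} (hf : IsS f) (R : Submodule (ZMod 2) V) :
    IsS (Set.indicator R f) := by
  classical
  have : Finite (Dual (ZMod 2) V) :=
    Finite.of_injective _ (DFunLike.coe_injective (F := Dual (ZMod 2) V))
  have : Fintype (Dual (ZMod 2) V) := Fintype.ofFinite _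
  have h := hf.cut (Finset.univ.filter fun β => β ∈ R.dualAnnihilator)
  have e : (R : Set V) =
      {x | ∀ β ∈ (Finset.univ.filter fun β => β ∈ R.dualAnnihilator), β x = 0} := by
    ext x
    rw [SetLike.mem_coe, ← Subspace.forall_mem_dualAnnihilator_apply_eq_zero_iff R x]
    simp
  rw [e]; exact h

lemma IsS.comp_of_supp {f : W → ℂ} (hf : IsS f) (φ : V →ₗ[ZMod 2] W) (hφ : Function.Injective φ)
    (hs : ∀ w, f w ≠ 0 → w ∈ LinearMap.range φ) : IsS (fun x => f (φ x)) := by
  by_cases hf0 : f = 0
  · subst hf0; exact IsS.zero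
  obtain ⟨w0, hw0⟩ := Function.ne_iff.1 hf0
  intro g hg
  obtain ⟨l, hl⟩ := hf (Function.extend φ g 0) (by
    intro c a β h
    have ha : a ∈ LinearMap.range φ := by
      have h1 := congrFun h w0
      rw [Pau_apply] at h1
      have h2 : f (w0 + a) ≠ 0 := by
        intro h3; rw [h3, mul_zero] at h1; exact hw0 h1.symm
      have := (LinearMap.range φ).sub_mem (hs _ h2) (hs _ hw0)
      simpa using this
    obtain ⟨a', rfl⟩ := ha
    have h4 := hg c a' (β.comp φ) (by
      funext x
      have := congrFun h (φ x)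
      rw [Pau_apply] at this ⊢
      rw [map_add]; exact this)
    funext w
    rw [Pau_apply]
    by_cases hw : ∃ x, φ x = w
    · obtain ⟨x, rfl⟩ := hw
      rw [← map_add, hφ.extend_apply, hφ.extend_apply]
      exact congrFun h4 x
    · have hw' : ¬ ∃ x, φ x = w + φ a' := by
        rintro ⟨x, hx⟩
        exact hw ⟨x - a', by rw [map_sub, hx]; simp⟩
      rw [Function.extend_apply' _ _ _ hw, Function.extend_apply' _ _ _ hw']
      simp)
  refine ⟨l, ?_⟩
  funext x
  have := congrFun hl (φ x)
  rw [hφ.extend_apply] at this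
  exact this

/-- Pullback along an injective linear map. -/
lemma IsS.comp [Finite W] {f : W → ℂ} (hf : IsS f) (φ : V →ₗ[ZMod 2] W)
    (hφ : Function.Injective φ) : IsS (fun x => f (φ x)) := by
  classical
  have h := (hf.cutSub (LinearMap.range φ)).comp_of_supp φ hφ (by
    intro w hw
    by_contra h
    exact hw (Set.indicator_of_notMem h _))
  have e : (fun x => f (φ x)) = fun x => Set.indicator (LinearMap.range φ) f (φ x) := by
    funext x
    rw [Set.indicator_of_mem]
    exact ⟨x, rfl⟩
  rw [e]; exact h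

lemma IsS.desc {h : W → ℂ} (π : V →ₗ[ZMod 2] W) (hπ : Function.Surjective π)
    (hh : IsS (fun x => h (π x))) : IsS h := by
  by_cases h0 : h = 0
  · subst h0; exact IsS.zero
  obtain ⟨w0, hw0⟩ := Function.ne_iff.1 h0
  obtain ⟨x0, rfl⟩ := hπ w0
  intro g hg
  obtain ⟨l, hl⟩ := hh (fun x => g (π x)) (by
    intro c a β hP
    have hk : β ∈ (LinearMap.ker π).dualAnnihilator := by
      rw [Submodule.mem_dualAnnihilator]
      intro k hk
      have h1 := congrFun hP x0
      have h2 := congrFun hP (x0 + k)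
      rw [LinearMap.mem_ker] at hk
      simp only [Pau_apply, map_add, hk, add_zero, sgn_add] at h1 h2
      apply eq_zero_of_sgn
      have h3 : (sgn (β k) - 1) * h (π x0) = 0 := by
        linear_combination h2 - sgn (β k) * h1
      rcases mul_eq_zero.1 h3 with h4 | h4
      · exact sub_eq_zero.1 h4
      · exact absurd h4 hw0
    rw [← LinearMap.range_dualMap_eq_dualAnnihilator_ker] at hk
    obtain ⟨β', rfl⟩ := hk
    have h4 := hg c (π a) β' (by
      funext w
      obtain ⟨x, rfl⟩ := hπ w
      have := congrFun hP x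
      simp only [Pau_apply, map_add, LinearMap.dualMap_apply] at this ⊢
      exact this)
    funext x
    have := congrFun h4 (π x)
    simp only [Pau_apply, map_add, LinearMap.dualMap_apply] at this ⊢
    exact this)
  refine ⟨l, ?_⟩
  funext w
  obtain ⟨x, rfl⟩ := hπ w
  exact congrFun hl x

open Classical in
lemma IsS.avg [Fintype V] {f : V → ℂ} (hf : IsS f) (K : Submodule (ZMod 2) V) :
    IsS (fun x => ∑ k ∈ Finset.univ.filter (fun k => k ∈ K), f (x + k)) := by
  set S := Finset.univ.filter (fun k => k ∈ K) with hS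
  have shift : ∀ (F : V → ℂ) (a : V), a ∈ K → ∀ x,
      ∑ k ∈ S, F (x + k + a) = ∑ k ∈ S, F (x + k) := by
    intro F a ha x
    refine Finset.sum_bij' (fun k _ => k + a) (fun k _ => k + a) ?_ ?_ ?_ ?_ ?_
    · intro k hk; simp only [hS, Finset.mem_filter, Finset.mem_univ, true_and] at hk ⊢
      exact K.add_mem hk ha
    · intro k hk; simp only [hS, Finset.mem_filter, Finset.mem_univ, true_and] at hk ⊢
      exact K.add_mem hk ha
    · intro k _; simp [add_assoc, add_self]
    · intro k _; simp [add_assoc, add_self]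
    · intro k _; rw [add_assoc]
  have key : ∀ B : Finset V, (∀ a ∈ B, a ∈ K) → ∃ F : V → ℂ, IsS F ∧
      (∀ a ∈ B, ∀ x, F (x + a) = F x) ∧
      ∀ x, ∑ k ∈ S, F (x + k) = 2 ^ B.card * ∑ k ∈ S, f (x + k) := by
    intro B
    induction B using Finset.induction_on with
    | empty => intro _; exact ⟨f, hf, by simp, by simp⟩
    | insert a B ha ih =>
      intro hB
      obtain ⟨F, hF, h1, h2⟩ := ih (fun b hb => hB b (Finset.mem_insert_of_mem hb))
      refine ⟨F + Pau 1 a 0 F, hF.proj a 0 (by simp), ?_, ?_⟩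
      · intro b hb x
        simp only [Pi.add_apply, Pau_apply, LinearMap.zero_apply, sgn_zero, one_mul]
        rcases Finset.mem_insert.1 hb with rfl | hb
        · rw [add_assoc, add_self, add_zero, add_comm]
        · rw [h1 b hb, add_right_comm, h1 b hb]
      · intro x
        simp only [Pi.add_apply, Pau_apply, LinearMap.zero_apply, sgn_zero, one_mul]
        rw [Finset.sum_add_distrib, shift F a (hB a (Finset.mem_insert_self _ _)), h2,
          Finset.card_insert_of_notMem ha]
        ring
  obtain ⟨F, hF, h1, h2⟩ := key S (by intro a ha; simpa [hS] using ha)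
  have h3 := hF.smul ((S.card : ℂ) / 2 ^ S.card)
  have e : (fun x => ∑ k ∈ S, f (x + k)) = ((S.card : ℂ) / 2 ^ S.card) • F := by
    funext x
    have h4 := h2 x
    rw [Finset.sum_congr rfl (fun k hk => h1 k hk x), Finset.sum_const, nsmul_eq_mul] at h4
    have h5 : (2 : ℂ) ^ S.card ≠ 0 := pow_ne_zero _ two_ne_zero
    simp only [Pi.smul_apply, smul_eq_mul]
    field_simp
    linear_combination -h4
  rw [e]; exact h3

open Classical in
/-- Pushforward along a surjective linear map. -/
lemma IsS.push [Fintype V] {f : V → ℂ} (hf : IsS f) (π : V →ₗ[ZMod 2] W)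
    (hπ : Function.Surjective π) :
    IsS (fun w => ∑ x ∈ Finset.univ.filter (fun x => π x = w), f x) := by
  apply IsS.desc π hπ
  have h := hf.avg (LinearMap.ker π)
  have e : (fun x => ∑ y ∈ Finset.univ.filter (fun y => π y = π x), f y) =
      (fun x => ∑ k ∈ Finset.univ.filter (fun k => k ∈ LinearMap.ker π), f (x + k)) := by
    funext x
    refine Finset.sum_bij' (fun y _ => x + y) (fun k _ => x + k) ?_ ?_ ?_ ?_ ?_
    · intro y hy
      simp only [Finset.mem_filter, Finset.mem_univ, true_and, LinearMap.mem_ker] at hy ⊢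
      rw [map_add, hy, add_self]
    · intro k hk
      simp only [Finset.mem_filter, Finset.mem_univ, true_and, LinearMap.mem_ker] at hk ⊢
      rw [map_add, hk, add_zero]
    · intro y _; rw [← add_assoc, add_self, zero_add]
    · intro y _; rw [← add_assoc, add_self, zero_add]
    · intro y _; rw [← add_assoc, add_self, zero_add]
  rw [e]; exact h

/-- The four possible phases. -/
noncomputable def ph (m : Fin 4) : ℂ := Complex.I ^ (m : ℕ)

lemma exists_ph {c : ℂ} (h : c ^ 4 = 1) : ∃ m, c = ph m := by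
  have : (c - 1) * (c - Complex.I) * (c + 1) * (c + Complex.I) = 0 := by
    have := Complex.I_sq
    linear_combination h - (c ^ 2 - 1) * this
  rcases mul_eq_zero.1 this with h1 | h1
  · rcases mul_eq_zero.1 h1 with h2 | h2
    · rcases mul_eq_zero.1 h2 with h3 | h3
      · exact ⟨0, by simp [ph, sub_eq_zero.1 h3]⟩
      · exact ⟨1, by simp [ph, sub_eq_zero.1 h3]⟩
    · exact ⟨2, by simp [ph, eq_neg_of_add_eq_zero_left h2]⟩
  · exact ⟨3, by simp [ph, eq_neg_of_add_eq_zero_left h1]⟩

open Classical in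
/-- A chosen common fixed vector of a family of Pauli operators. -/
noncomputable def line {m : ℕ} (p : Fin m → Fin 4 × V × Dual (ZMod 2) V) : V → ℂ :=
  if h : ∃ g : V → ℂ, g ≠ 0 ∧ ∀ i, Pau (ph (p i).1) (p i).2.1 (p i).2.2 g = g then h.choose else 0

lemma IsS.exists_line [Finite V] {f : V → ℂ} (hf : IsS f) :
    ∃ p : Fin (2 * finrank (ZMod 2) V) → Fin 4 × V × Dual (ZMod 2) V, ∃ l : ℂ,
      f = l • line p := by
  by_cases hf0 : f = 0
  · exact ⟨fun _ => (0, 0, 0), 0, by simp [hf0]⟩
  have hfin : Module.Finite (ZMod 2) V := Module.Finite.of_finite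
  let S : (V → ℂ) → Submodule (ZMod 2) (V × Dual (ZMod 2) V) := fun g =>
    { carrier := {z | ∃ c, Pau c z.1 z.2 f = f ∧ Pau c z.1 z.2 g = g}
      zero_mem' := ⟨1, by simp [Pau_zero], by simp [Pau_zero]⟩
      add_mem' := by
        rintro z z' ⟨c, h1, h2⟩ ⟨c', h3, h4⟩
        refine ⟨c * c' * sgn (z'.2 z.1), ?_, ?_⟩
        · simp only [Prod.fst_add, Prod.snd_add]; rw [← Pau_Pau, h3, h1]
        · simp only [Prod.fst_add, Prod.snd_add]; rw [← Pau_Pau, h4, h2]
      smul_mem' := by
        rintro r z ⟨c, h1, h2⟩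
        rcases z2 r with rfl | rfl
        · exact ⟨1, by simp [Pau_zero], by simp [Pau_zero]⟩
        · exact ⟨c, by simpa using h1, by simpa using h2⟩ }
  have hle : finrank (ZMod 2) (S f) ≤ 2 * finrank (ZMod 2) V := by
    have := Submodule.finrank_le (S f)
    rw [finrank_prod, Subspace.dual_finrank_eq] at this
    omega
  let b := Module.finBasis (ZMod 2) (S f)
  have hb : ∀ j, ∃ m : Fin 4, Pau (ph m) (b j).1.1 (b j).1.2 f = f := by
    intro j
    obtain ⟨c, h1, -⟩ := (b j).2
    have h2 := Pau_self c (b j).1.1 (b j).1.2 f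
    rw [h1, h1] at h2
    have h3 := smul_eq_self hf0 h2.symm
    have h4 := sgn_mul_self ((b j).1.2 (b j).1.1)
    obtain ⟨m, rfl⟩ := exists_ph (c := c) (by
      linear_combination (c * c * sgn ((b j).1.2 (b j).1.1) + 1) * h3 - c ^ 4 * h4)
    exact ⟨m, h1⟩
  choose μ hμ using hb
  let p : Fin (2 * finrank (ZMod 2) V) → Fin 4 × V × Dual (ZMod 2) V := fun i =>
    if h : (i : ℕ) < finrank (ZMod 2) (S f) then (μ ⟨i, h⟩, (b ⟨i, h⟩).1) else (0, 0, 0)
  have hp : ∀ i, Pau (ph (p i).1) (p i).2.1 (p i).2.2 f = f := by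
    intro i
    by_cases h : (i : ℕ) < finrank (ZMod 2) (S f)
    · simp only [p, dif_pos h]; exact hμ _
    · simp only [p, dif_neg h]; simp [Pau_zero, ph]
  have hex : ∃ g : V → ℂ, g ≠ 0 ∧ ∀ i, Pau (ph (p i).1) (p i).2.1 (p i).2.2 g = g :=
    ⟨f, hf0, hp⟩
  have hl : line p = hex.choose := by unfold line; rw [dif_pos hex]
  obtain ⟨hg0, hg⟩ := hex.choose_spec
  rw [← hl] at hg0 hg
  have hsub : ∀ z : S f, z.1 ∈ S (line p) := by
    intro z
    have hz : z ∈ Submodule.span (ZMod 2) (Set.range b) := by rw [b.span_eq]; trivial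
    have : Submodule.span (ZMod 2) (Set.range b) ≤ (S (line p)).comap (S f).subtype := by
      rw [Submodule.span_le]
      rintro _ ⟨j, rfl⟩
      have hj : ((⟨j, lt_of_lt_of_le j.2 hle⟩ : Fin (2 * finrank (ZMod 2) V)) : ℕ) <
        finrank (ZMod 2) (S f) := j.2
      have := hg ⟨j, lt_of_lt_of_le j.2 hle⟩
      simp only [p, dif_pos hj] at this
      exact ⟨ph (μ j), hμ j, this⟩
    exact this hz
  obtain ⟨l, hl2⟩ := hf (line p) (by
    intro c a β h
    obtain ⟨c', h1, h2⟩ := hsub ⟨(a, β), c, h, h⟩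
    have hc : c = c' := by
      have h3 : (c - c') • Pau 1 a β f = 0 := by
        rw [sub_smul, ← Pau_smul, ← Pau_smul, h]; exact sub_eq_zero.2 h1.symm
      rcases smul_eq_zero.1 h3 with h4 | h4
      · exact sub_eq_zero.1 h4
      · rw [Pau_smul, h4, smul_zero] at h; exact absurd h.symm hf0
    rw [hc]; exact h2)
  have hl0 : l ≠ 0 := by rintro rfl; rw [zero_smul] at hl2; exact hg0 hl2
  exact ⟨p, l⁻¹, by rw [hl2, smul_smul, inv_mul_cancel₀ hl0, one_smul]⟩

/-- At most `2 ^ r` sign patterns in a coset of an `r`-dimensional subspace. -/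
lemma card_le_two_pow {X I : Type*} [Finite X] (pt : I → X) (cf : I → ℂ) (hcf : ∀ i, cf i ≠ 0)
    (H : (I → ZMod 2) → X → ℂ) (hH : ∀ F i, H F (pt i) = cf i * sgn (F i)) (r : ℕ) :
    ∀ (Wd : Submodule ℂ (X → ℂ)) (T : Finset (I → ZMod 2)), finrank ℂ Wd ≤ r →
      (∀ F ∈ T, ∀ G ∈ T, H F - H G ∈ Wd) → T.card ≤ 2 ^ r := by
  classical
  have inj : ∀ F G i, H F (pt i) = H G (pt i) → F i = G i := by
    intro F G i h
    rw [hH, hH] at h
    have h2 := mul_left_cancel₀ (hcf i) h
    have h3 : sgn (F i + G i) = 1 := by rw [sgn_add, h2, sgn_mul_self]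
    have h4 := eq_zero_of_sgn h3
    have h5 : F i + G i + G i = G i := by rw [h4, zero_add]
    rwa [add_assoc, add_self, add_zero] at h5
  induction r with
  | zero =>
    intro Wd T hW hT
    have : Wd = ⊥ := Submodule.finrank_eq_zero.1 (Nat.le_zero.1 hW)
    subst this
    rw [pow_zero, Finset.card_le_one]
    intro F hF G hG
    funext i
    apply inj
    rw [sub_eq_zero.1 ((Submodule.mem_bot ℂ).1 (hT F hF G hG))]
  | succ r ih =>
    intro Wd T hW hT
    by_cases h1 : T.card ≤ 1
    · exact h1.trans Nat.one_le_two_pow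
    push Not at h1
    obtain ⟨F0, hF0, G0, hG0, hne⟩ := Finset.one_lt_card.1 h1
    obtain ⟨i, hi⟩ := Function.ne_iff.1 hne
    let W' : Submodule ℂ (X → ℂ) := Wd ⊓ LinearMap.ker (LinearMap.proj (pt i))
    have hlt : W' < Wd := by
      refine lt_of_le_of_ne inf_le_left (fun h => hi ?_)
      have : H F0 - H G0 ∈ W' := h ▸ hT F0 hF0 G0 hG0
      have h2 := (Submodule.mem_inf.1 this).2
      simp only [LinearMap.mem_ker, LinearMap.coe_proj, Function.eval, Pi.sub_apply] at h2
      exact inj _ _ _ (sub_eq_zero.1 h2)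
    have hW' : finrank ℂ W' ≤ r := by
      have := Submodule.finrank_lt_finrank_of_lt hlt
      omega
    have hz : ∀ z : ZMod 2, (T.filter fun F => F i = z).card ≤ 2 ^ r := by
      intro z
      apply ih W' _ hW'
      intro F hF G hG
      rw [Finset.mem_filter] at hF hG
      refine Submodule.mem_inf.2 ⟨hT F hF.1 G hG.1, ?_⟩
      simp only [LinearMap.mem_ker, LinearMap.coe_proj, Function.eval, Pi.sub_apply]
      rw [hH, hH, hF.2, hG.2, sub_self]
    have hsub : T ⊆ (T.filter fun F => F i = 0) ∪ (T.filter fun F => F i = 1) := by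
      intro F hF
      rcases z2 (F i) with h | h <;> simp [hF, h]
    have := (Finset.card_le_card hsub).trans (Finset.card_union_le _ _)
    have a0 := hz 0
    have a1 := hz 1
    rw [pow_succ]; omega

/-- `f` is a sum of `r` abstract stabilizer functions. -/
def Rk (r : ℕ) (f : V → ℂ) : Prop := ∃ S : Fin r → V → ℂ, (∀ i, IsS (S i)) ∧ f = ∑ i, S i

lemma counting [Finite V] {I : Type*} [Fintype I] (pt : I → V) (cf : I → ℂ) (hcf : ∀ i, cf i ≠ 0)
    (H : (I → ZMod 2) → V → ℂ) (hH : ∀ F i, H F (pt i) = cf i * sgn (F i)) (r : ℕ)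
    (hr : ∀ F, Rk r (H F)) :
    Fintype.card I ≤ r * (2 * finrank (ZMod 2) V + 1) ^ 2 := by
  classical
  have hfin : Module.Finite (ZMod 2) V := Module.Finite.of_finite
  have : Finite (Dual (ZMod 2) V) :=
    Finite.of_injective _ (DFunLike.coe_injective (F := Dual (ZMod 2) V))
  have : Fintype (Dual (ZMod 2) V) := Fintype.ofFinite _
  have : Fintype V := Fintype.ofFinite _
  set n := finrank (ZMod 2) V with hn
  let Par := Fin r → Fin (2 * n) → Fin 4 × V × Dual (ZMod 2) V
  let T : Par → Finset (I → ZMod 2) := fun P => Finset.univ.filter fun F =>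
    H F ∈ Submodule.span ℂ (Set.range fun i => line (P i))
  have hT : ∀ P, (T P).card ≤ 2 ^ r := by
    intro P
    apply card_le_two_pow pt cf hcf H hH r (Submodule.span ℂ (Set.range fun i => line (P i)))
    · have := finrank_range_le_card (R := ℂ) (fun i => line (P i))
      simpa [Set.finrank] using this
    · intro F hF G hG
      simp only [T, Finset.mem_filter, Finset.mem_univ, true_and] at hF hG
      exact Submodule.sub_mem _ hF hG
  have hcov : (Finset.univ : Finset (I → ZMod 2)) ⊆ Finset.univ.biUnion T := by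
    intro F _
    obtain ⟨S, hS, hF⟩ := hr F
    choose p l hp using fun i => (hS i).exists_line
    rw [Finset.mem_biUnion]
    refine ⟨p, Finset.mem_univ _, ?_⟩
    simp only [T, Finset.mem_filter, Finset.mem_univ, true_and]
    rw [hF]
    refine Submodule.sum_mem _ fun i _ => ?_
    rw [hp i]
    exact Submodule.smul_mem _ _ (Submodule.subset_span ⟨i, rfl⟩)
  have h1 := (Finset.card_le_card hcov).trans
    (Finset.card_biUnion_le.trans (Finset.sum_le_card_nsmul _ _ _ fun P _ => hT P))
  have hV : Fintype.card V = 2 ^ n := by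
    rw [Module.card_eq_pow_finrank (K := ZMod 2), ZMod.card]
  have hD : Fintype.card (Dual (ZMod 2) V) = 2 ^ n := by
    rw [Module.card_eq_pow_finrank (K := ZMod 2), ZMod.card, Subspace.dual_finrank_eq]
  simp only [Par, Finset.card_univ, Fintype.card_fun, Fintype.card_fin, Fintype.card_prod, hV, hD,
    ZMod.card, smul_eq_mul] at h1
  have e : ((4 * (2 ^ n * 2 ^ n)) ^ (2 * n)) ^ r * 2 ^ r = 2 ^ (r * (2 * n + 1) ^ 2) := by
    have : (4 : ℕ) = 2 ^ 2 := by norm_num
    rw [this, ← pow_add, ← pow_add, ← pow_mul, ← pow_mul, ← pow_add]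
    congr 1; ring
  rw [e] at h1
  exact (Nat.pow_le_pow_iff_right (by norm_num)).1 h1

end Pool.Agent.H19.Stab
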