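import Pool.Agent.H19.Stab2

/-! The quadratic lower bound for abstract stabilizer rank of tensor powers. -/

namespace Pool.Agent.H19.Stab

open Module

variable {V W : Type*} [AddCommGroup V] [Module (ZMod 2) V] [AddCommGroup W] [Module (ZMod 2) W]

lemma Rk.comp [Finite W] {r : ℕ} {f : W → ℂ} (hf : Rk r f) (φ : V →ₗ[ZMod 2] W)
    (hφ : Function.Injective φ) : Rk r (fun x => f (φ x)) := by
  obtain ⟨S, hS, rfl⟩ := hf
  exact ⟨fun i x => S i (φ x), fun i => (hS i).comp φ hφ, by funext x; simp⟩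

lemma Rk.quad {r : ℕ} {f : V → ℂ} (hf : Rk r f) (B : V →ₗ[ZMod 2] V →ₗ[ZMod 2] ZMod 2) :
    Rk r (fun x => sgn (B x x) * f x) := by
  obtain ⟨S, hS, rfl⟩ := hf
  exact ⟨fun i x => sgn (B x x) * S i x, fun i => (hS i).quad B, by
    funext x; simp [Finset.mul_sum]⟩

open Classical in
lemma Rk.push [Fintype V] {r : ℕ} {f : V → ℂ} (hf : Rk r f) (π : V →ₗ[ZMod 2] W)
    (hπ : Function.Surjective π) :
    Rk r (fun w => ∑ x ∈ Finset.univ.filter (fun x => π x = w), f x) := by
  obtain ⟨S, hS, rfl⟩ := hf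
  refine ⟨fun i w => ∑ x ∈ Finset.univ.filter (fun x => π x = w), S i x,
    fun i => (hS i).push π hπ, ?_⟩
  funext w
  simp only [Finset.sum_apply]
  rw [Finset.sum_comm]

/-- The one-qubit amplitude function. -/
def τ (t : ℂ) (z : ZMod 2) : ℂ := if z = 0 then 1 else t

@[simp] lemma τ_zero (t : ℂ) : τ t 0 = 1 := by simp [τ]
@[simp] lemma τ_one (t : ℂ) : τ t 1 = t := by simp [τ]

/-- The two-qubit gadget. -/
def gad (t : ℂ) (a b : ZMod 2) : ℂ := ∑ c : ZMod 2, sgn (a * c) * (τ t (a + c) * τ t (a + c + b))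

lemma sum_z2 (f : ZMod 2 → ℂ) : ∑ c, f c = f 0 + f 1 := Fin.sum_univ_two f

lemma gad_one_one (t : ℂ) : gad t 1 1 = 0 := by
  simp [gad, sum_z2, one_add_one]

lemma gad_ne_zero {t : ℂ} (ht0 : t ≠ 0) (ht4 : t ^ 4 ≠ 1) {a b : ZMod 2} (h : ¬ (a = 1 ∧ b = 1)) :
    gad t a b ≠ 0 := by
  rcases z2 a with rfl | rfl <;> rcases z2 b with rfl | rfl
  · simp only [gad, sum_z2, zero_mul, sgn_zero, add_zero, τ_zero, zero_add, τ_one]
    intro h1; apply ht4; linear_combination (t ^ 2 - 1) * h1
  · simp only [gad, sum_z2, zero_mul, sgn_zero, add_zero, τ_zero, zero_add, τ_one, one_add_one]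
    intro h1; apply ht0; linear_combination (1 / 2 : ℂ) * h1
  · simp only [gad, sum_z2, mul_zero, mul_one, sgn_zero, sgn_one, add_zero, τ_zero, τ_one,
      one_add_one]
    intro h1; apply ht4; linear_combination (t ^ 2 + 1) * h1
  · simp at h

variable {N : ℕ}

/-- Partial sums. -/
def ps (N : ℕ) : (Bool × Fin N → ZMod 2) →ₗ[ZMod 2] (Bool × Fin N → ZMod 2) where
  toFun u κ := ∑ j ∈ Finset.univ.filter (fun j => j < κ.2), u (κ.1, j)
  map_add' u v := by funext κ; simp [Finset.sum_add_distrib]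
  map_smul' c u := by funext κ; simp [Finset.mul_sum]

/-- The wiring of the gadgets. -/
def wire (N : ℕ) : ((Bool × Fin N → ZMod 2) × (Bool × Fin N → ZMod 2)) →ₗ[ZMod 2]
    ((Bool × Fin N) × Bool → ZMod 2) where
  toFun x κ := ps N x.1 κ.1 + x.2 κ.1 + (if κ.2 then x.1 κ.1 else 0)
  map_add' u v := by
    funext κ
    rcases κ with ⟨κ, _ | _⟩ <;> simp <;> ring
  map_smul' c u := by
    funext κ
    rcases κ with ⟨κ, _ | _⟩ <;> simp <;> ring

lemma wire_inj : Function.Injective (wire N) := by
  rw [injective_iff_map_eq_zero]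
  rintro ⟨u, c⟩ h
  have h1 : ∀ κ, ps N u κ + c κ = 0 := fun κ => by
    have := congrFun h (κ, false)
    simpa [wire] using this
  have h2 : u = 0 := by
    funext κ
    have := congrFun h (κ, true)
    simp only [wire, LinearMap.coe_mk, AddHom.coe_mk, if_true, Pi.zero_apply] at this
    rwa [h1, zero_add] at this
  subst h2
  have h3 : c = 0 := by
    funext κ
    simpa using h1 κ
  rw [h3]; rfl

/-- The first quadratic form. -/
def B1 (N : ℕ) : ((Bool × Fin N → ZMod 2) × (Bool × Fin N → ZMod 2)) →ₗ[ZMod 2]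
    ((Bool × Fin N → ZMod 2) × (Bool × Fin N → ZMod 2)) →ₗ[ZMod 2] ZMod 2 :=
  LinearMap.mk₂ (ZMod 2) (fun x y => ∑ κ, ps N x.1 κ * y.2 κ)
    (by intro x x' y; simp [add_mul, Finset.sum_add_distrib])
    (by intro c x y; simp [Finset.mul_sum, mul_assoc])
    (by intro x y y'; simp [mul_add, Finset.sum_add_distrib])
    (by intro c x y; simp [Finset.mul_sum, mul_left_comm])

/-- The second quadratic form. -/
def B2 (F : Fin N × Fin N → ZMod 2) :
    (Bool × Fin N → ZMod 2) →ₗ[ZMod 2] (Bool × Fin N → ZMod 2) →ₗ[ZMod 2] ZMod 2 :=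
  LinearMap.mk₂ (ZMod 2) (fun x y => ∑ p, F p * (x (false, p.1) * y (true, p.2)))
    (by intro x x' y; simp [add_mul, mul_add, Finset.sum_add_distrib])
    (by intro c x y; simp [Finset.mul_sum, mul_assoc, mul_left_comm])
    (by intro x y y'; simp [mul_add, Finset.sum_add_distrib])
    (by intro c x y; simp [Finset.mul_sum, mul_left_comm])

/-- The domain wall state. -/
def Gw (t : ℂ) (u : Bool × Fin N → ZMod 2) : ℂ := ∏ κ, gad t (ps N u κ) (u κ)

lemma rk_Gw {t : ℂ} {d r : ℕ} (hd : 4 * N ≤ d)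
    (h : Rk r (fun x : Fin d → ZMod 2 => ∏ j, τ t (x j))) : Rk r (Gw (N := N) t) := by
  classical
  obtain ⟨e⟩ : Nonempty (((Bool × Fin N) × Bool) ↪ Fin d) := by
    apply Function.Embedding.nonempty_of_card_le
    simp; omega
  have h1 := h.comp (Function.ExtendByZero.linearMap (ZMod 2) e)
    (Function.extend_injective e.injective _)
  have e1 : (fun x : ((Bool × Fin N) × Bool) → ZMod 2 =>
      ∏ j, τ t (Function.ExtendByZero.linearMap (ZMod 2) e x j)) = fun x => ∏ j, τ t (x j) := by
    funext x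
    symm
    apply Fintype.prod_of_injective e e.injective
    · intro i hi
      rw [Function.ExtendByZero.linearMap_apply, Function.extend_apply' _ _ _ hi]
      simp
    · intro i
      rw [Function.ExtendByZero.linearMap_apply, e.injective.extend_apply]
  rw [e1] at h1
  have h2 := ((h1.comp (wire N) wire_inj).quad (B1 N)).push (LinearMap.fst (ZMod 2) _ _)
    (fun u => ⟨(u, 0), rfl⟩)
  refine (congrArg (Rk r) ?_).mp h2
  funext u
  rw [Finset.sum_filter, Fintype.sum_prod_type, Finset.sum_eq_single u]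
  · simp only [LinearMap.fst_apply, if_true, Gw, gad]
    rw [Fintype.prod_sum]
    refine Finset.sum_congr rfl fun c _ => ?_
    simp only [B1, LinearMap.mk₂_apply, sgn_sum]
    rw [Fintype.prod_prod_type (fun j => τ t (wire N (u, c) j)), ← Finset.prod_mul_distrib]
    refine Finset.prod_congr rfl fun κ _ => ?_
    simp [wire, mul_comm]
  · intro u' _ hu'
    simp [hu']
  · simp

lemma onehot (w : Fin N → ZMod 2)
    (h : ∀ k, ¬ (∑ j ∈ Finset.univ.filter (fun j => j < k), w j = 1 ∧ w k = 1)) :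
    w = 0 ∨ ∃ j, w = Pi.single j 1 := by
  classical
  by_cases h0 : w = 0
  · exact Or.inl h0
  right
  have hne : (Finset.univ.filter fun i => w i = 1).Nonempty := by
    obtain ⟨i, hi⟩ := Function.ne_iff.1 h0
    exact ⟨i, by simpa using (z2 _).resolve_left hi⟩
  obtain ⟨m, hm, hmin⟩ := Finset.exists_min_image _ id hne
  simp only [Finset.mem_filter, Finset.mem_univ, true_and, id] at hm hmin
  refine ⟨m, ?_⟩
  by_contra hc
  have hne2 : (Finset.univ.filter fun i => w i = 1 ∧ i ≠ m).Nonempty := by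
    obtain ⟨i, hi⟩ := Function.ne_iff.1 hc
    have him : i ≠ m := by rintro rfl; simp [hm] at hi
    rw [Pi.single_eq_of_ne him] at hi
    exact ⟨i, by simpa using ⟨(z2 _).resolve_left hi, him⟩⟩
  obtain ⟨k, hk, hkmin⟩ := Finset.exists_min_image _ id hne2
  simp only [Finset.mem_filter, Finset.mem_univ, true_and, id] at hk hkmin
  apply h k
  refine ⟨?_, hk.1⟩
  have hmk : m < k := lt_of_le_of_ne (hmin k hk.1) hk.2.symm
  rw [Finset.sum_eq_single m, hm]
  · intro j hj hjm
    simp only [Finset.mem_filter, Finset.mem_univ, true_and] at hj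
    by_contra h1
    exact absurd (hkmin j ⟨(z2 _).resolve_left h1, hjm⟩) (not_le.2 hj)
  · intro h1; simp [hmk] at h1

/-- The compression map. -/
def cmp {U : Type*} [AddCommGroup U] [Module (ZMod 2) U] (enc : Fin N → U) :
    (Bool × Fin N → ZMod 2) →ₗ[ZMod 2] U × U where
  toFun u := (∑ j, u (false, j) • enc j, ∑ j, u (true, j) • enc j)
  map_add' u v := by simp [add_smul, Finset.sum_add_distrib]
  map_smul' c u := by simp [Finset.smul_sum, smul_smul]

/-- Glue two halves. -/
def glue (w w' : Fin N → ZMod 2) : Bool × Fin N → ZMod 2 := fun κ => if κ.1 then w' κ.2 else w κ.2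

lemma sum_single_smul {U : Type*} [AddCommGroup U] [Module (ZMod 2) U] (enc : Fin N → U)
    (j : Fin N) : ∑ i, (Pi.single j 1 : Fin N → ZMod 2) i • enc i = enc j := by
  rw [Finset.sum_eq_single j]
  · simp
  · intro i _ hi; simp [Pi.single_eq_of_ne hi]
  · simp

theorem main {t : ℂ} (ht0 : t ≠ 0) (ht4 : t ^ 4 ≠ 1) {d a r : ℕ} (hd : 4 * (2 ^ a - 1) ≤ d)
    (h : Rk r (fun x : Fin d → ZMod 2 => ∏ j, τ t (x j))) :
    (2 ^ a - 1) ^ 2 ≤ r * (4 * a + 1) ^ 2 := by
  classical
  set N := 2 ^ a - 1 with hN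
  have hcard : Fintype.card {y : Fin a → ZMod 2 // y ≠ 0} = N := by
    rw [Fintype.card_subtype_compl, Fintype.card_subtype_eq]; simp [hN]
  let eq := (Fintype.equivFinOfCardEq hcard).symm
  let enc : Fin N → Fin a → ZMod 2 := fun j => (eq j).1
  have enc_inj : Function.Injective enc := fun j k hjk => eq.injective (Subtype.ext hjk)
  have enc_ne : ∀ j, enc j ≠ 0 := fun j => (eq j).2
  have enc_sur : ∀ y : Fin a → ZMod 2, ∃ w : Fin N → ZMod 2, ∑ i, w i • enc i = y := by
    intro y
    by_cases hy : y = 0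
    · exact ⟨0, by simp [hy]⟩
    · exact ⟨Pi.single (eq.symm ⟨y, hy⟩) 1, by rw [sum_single_smul]; simp [enc]⟩
  have hsur : Function.Surjective (cmp enc) := by
    rintro ⟨y, y'⟩
    obtain ⟨w, hw⟩ := enc_sur y
    obtain ⟨w', hw'⟩ := enc_sur y'
    exact ⟨glue w w', by simp [cmp, glue, hw, hw']⟩
  have hG := rk_Gw (N := N) hd h
  have hcount := counting (V := (Fin a → ZMod 2) × (Fin a → ZMod 2)) (I := Fin N × Fin N)
    (fun p => (enc p.1, enc p.2)) (fun p => Gw t (glue (Pi.single p.1 1) (Pi.single p.2 1)))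
    ?_ (fun F w => ∑ x ∈ Finset.univ.filter (fun x => cmp enc x = w), sgn (B2 F x x) * Gw t x)
    ?_ r (fun F => by
      have := (hG.quad (B2 F)).push (cmp enc) hsur
      refine (congrArg (Rk r) ?_).mp this
      funext w
      refine Finset.sum_congr ?_ fun _ _ => rfl
      ext x; simp)
  · simp only [Fintype.card_prod, Fintype.card_fin, finrank_prod, finrank_fintype_fun_eq_card]
      at hcount
    calc N ^ 2 = N * N := by ring
      _ ≤ _ := hcount
      _ = _ := by ring
  · rintro ⟨j, k⟩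
    have hs : ∀ j i : Fin N, ¬ (∑ l ∈ Finset.univ.filter (fun l => l < i),
        (Pi.single j 1 : Fin N → ZMod 2) l = 1 ∧ (Pi.single j 1 : Fin N → ZMod 2) i = 1) := by
      rintro j i ⟨h1, h2⟩
      have : i = j := by
        by_contra h3
        rw [Pi.single_eq_of_ne h3] at h2
        exact zero_ne_one h2
      subst this
      rw [Finset.sum_eq_zero] at h1
      · exact zero_ne_one h1
      · intro l hl
        simp only [Finset.mem_filter, Finset.mem_univ, true_and] at hl
        exact Pi.single_eq_of_ne hl.ne _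
    refine Finset.prod_ne_zero_iff.2 ?_
    rintro ⟨_ | _, i⟩ _
    · exact gad_ne_zero ht0 ht4 (by simpa [ps, glue] using hs j i)
    · exact gad_ne_zero ht0 ht4 (by simpa [ps, glue] using hs k i)
  · rintro F ⟨j, k⟩
    beta_reduce
    rw [Finset.sum_eq_single (glue (Pi.single j 1) (Pi.single k 1))]
    · rw [mul_comm]
      congr 2
      simp only [B2, LinearMap.mk₂_apply, glue]
      rw [Finset.sum_eq_single (j, k)]
      · simp
      · rintro ⟨j', k'⟩ _ hne
        by_cases h1 : j' = j
        · have h2 : k' ≠ k := by rintro rfl; exact hne (by rw [h1])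
          simp [Pi.single_eq_of_ne h2]
        · simp [Pi.single_eq_of_ne h1]
      · simp
    · intro u hu hne
      simp only [Finset.mem_filter, Finset.mem_univ, true_and] at hu
      by_contra hz
      have hz2 : Gw t u ≠ 0 := fun h1 => hz (by rw [h1, mul_zero])
      have hz3 := Finset.prod_ne_zero_iff.1 hz2
      have key : ∀ (b : Bool) (j : Fin N), ∑ i, u (b, i) • enc i = enc j →
          (fun i => u (b, i)) = Pi.single j 1 := by
        intro b j hj
        rcases onehot (fun i => u (b, i)) (by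
          rintro i ⟨h1, h2⟩
          apply hz3 (b, i) (Finset.mem_univ _)
          have : ps N u (b, i) = 1 := h1
          rw [this, h2, gad_one_one]) with h1 | ⟨j', h1⟩
        · exfalso
          apply enc_ne j
          rw [← hj]
          exact Finset.sum_eq_zero fun i _ => by rw [congrFun h1 i]; simp
        · have h2 := sum_single_smul enc j'
          rw [← h1] at h2
          rw [h1, enc_inj (h2.symm.trans hj)]
      have k1 := key false j (congrArg Prod.fst hu)
      have k2 := key true k (congrArg Prod.snd hu)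
      apply hne
      funext κ
      rcases κ with ⟨_ | _, i⟩
      · exact congrFun k1 i
      · exact congrFun k2 i
    · intro h1
      exfalso
      apply h1
      simp only [Finset.mem_filter, Finset.mem_univ, true_and]
      simp [cmp, glue, sum_single_smul]

end Pool.Agent.H19.Stab
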