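import Mathlib

/-! 3-tensors over a field, restriction, direct sum, Kronecker product, asymptotic spectrum.
The restriction preorder is well founded. -/

namespace Pool.Agent.H19.Tensor

open Matrix Kronecker

/-- A 3-tensor in `F^{n1} ⊗ F^{n2} ⊗ F^{n3}`, given by its array of coefficients. -/
structure Tensor3 (F : Type*) where
  n1 : ℕ
  n2 : ℕ
  n3 : ℕ
  t : Fin n1 → Fin n2 → Fin n3 → F

variable {F : Type*} [Field F]

/-- `Restricts S T` : `S = (A ⊗ B ⊗ C) T` for some linear maps `A, B, C` on the three factors. -/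
def Restricts (S T : Tensor3 F) : Prop :=
  ∃ (A : Matrix (Fin S.n1) (Fin T.n1) F) (B : Matrix (Fin S.n2) (Fin T.n2) F)
    (C : Matrix (Fin S.n3) (Fin T.n3) F),
    ∀ i j k, S.t i j k = ∑ a, ∑ b, ∑ c, A i a * B j b * C k c * T.t a b c

/-- Direct sum of tensors (block diagonal). -/
def dsum (S T : Tensor3 F) : Tensor3 F where
  n1 := S.n1 + T.n1
  n2 := S.n2 + T.n2
  n3 := S.n3 + T.n3
  t i j k :=
    match finSumFinEquiv.symm i, finSumFinEquiv.symm j, finSumFinEquiv.symm k with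
    | Sum.inl a, Sum.inl b, Sum.inl c => S.t a b c
    | Sum.inr a, Sum.inr b, Sum.inr c => T.t a b c
    | _, _, _ => 0

/-- Kronecker product of tensors. -/
def kron (S T : Tensor3 F) : Tensor3 F where
  n1 := S.n1 * T.n1
  n2 := S.n2 * T.n2
  n3 := S.n3 * T.n3
  t i j k := S.t i.divNat j.divNat k.divNat * T.t i.modNat j.modNat k.modNat

/-- The unit tensor `⟨r⟩ = ∑ e_i ⊗ e_i ⊗ e_i`. -/
def unitT (F : Type*) [Field F] (r : ℕ) : Tensor3 F where
  n1 := r
  n2 := r
  n3 := r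
  t i j k := if i = j ∧ j = k then 1 else 0

/-- Points of the asymptotic spectrum: restriction-monotone semiring homomorphisms to `ℝ≥0`. -/
def InSpectrum (f : Tensor3 F → NNReal) : Prop :=
  f (unitT F 0) = 0 ∧ f (unitT F 1) = 1 ∧
  (∀ S T, f (dsum S T) = f S + f T) ∧ (∀ S T, f (kron S T) = f S * f T) ∧
  (∀ S T, Restricts S T → f S ≤ f T)

/-- Condition (b). -/
def CondB (F : Type*) [Field F] : Prop :=
  ∃ (c : {q : ℚ // 2 ≤ q} → Tensor3 F) (b : Tensor3 F) (s t : ℝ), 1 < s ∧ s < t ∧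
    (∀ q r, q ≤ r → Restricts (c q) (c r)) ∧
    ∀ l ∈ Set.Icc s t, ∃ f : Tensor3 F → NNReal, InSpectrum f ∧
      (∀ q, (f (c q) : ℝ) = (q.1 : ℝ)) ∧ (f b : ℝ) = l

/-- flattened coefficient vector -/
def vec (T : Tensor3 F) : Fin T.n1 × Fin T.n2 × Fin T.n3 → F := fun p => T.t p.1 p.2.1 p.2.2

lemma restricts_iff (S T : Tensor3 F) : Restricts S T ↔
    ∃ (A : Matrix (Fin S.n1) (Fin T.n1) F) (B : Matrix (Fin S.n2) (Fin T.n2) F)
      (C : Matrix (Fin S.n3) (Fin T.n3) F), vec S = (A ⊗ₖ (B ⊗ₖ C)) *ᵥ vec T := by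
  have key : ∀ (A : Matrix (Fin S.n1) (Fin T.n1) F) (B : Matrix (Fin S.n2) (Fin T.n2) F)
      (C : Matrix (Fin S.n3) (Fin T.n3) F) i j k,
      ((A ⊗ₖ (B ⊗ₖ C)) *ᵥ vec T) (i, j, k) =
        ∑ a, ∑ b, ∑ c, A i a * B j b * C k c * T.t a b c := by
    intro A B C i j k
    simp only [mulVec, dotProduct, Fintype.sum_prod_type, kroneckerMap_apply, vec, mul_assoc]
  constructor
  · rintro ⟨A, B, C, h⟩
    refine ⟨A, B, C, ?_⟩
    funext ⟨i, j, k⟩
    rw [key, ← h]; rfl
  · rintro ⟨A, B, C, h⟩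
    refine ⟨A, B, C, fun i j k => ?_⟩
    rw [← key, ← h]; rfl

lemma Restricts.refl (T : Tensor3 F) : Restricts T T := by
  rw [restricts_iff]
  exact ⟨1, 1, 1, by simp [one_kronecker_one]⟩

lemma Restricts.trans {S T U : Tensor3 F} (h1 : Restricts S T) (h2 : Restricts T U) :
    Restricts S U := by
  rw [restricts_iff] at *
  obtain ⟨A, B, C, h⟩ := h1
  obtain ⟨A', B', C', h'⟩ := h2
  refine ⟨A * A', B * B', C * C', ?_⟩
  rw [h, h', mulVec_mulVec, ← mul_kronecker_mul, ← mul_kronecker_mul]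

/-- rank factorisation -/
lemma factor {m n : ℕ} (A : Matrix (Fin m) (Fin n) F) :
    ∃ (r : ℕ) (A1 : Matrix (Fin m) (Fin r) F) (A2 : Matrix (Fin r) (Fin n) F)
      (L : Matrix (Fin r) (Fin m) F), A = A1 * A2 ∧ L * A1 = 1 ∧ r ≤ n ∧
      (r = n → ∃ M : Matrix (Fin n) (Fin m) F, M * A = 1) := by
  set f : (Fin n → F) →ₗ[F] (Fin m → F) := Matrix.toLin' A with hf
  set r := Module.finrank F (LinearMap.range f) with hr
  let e : LinearMap.range f ≃ₗ[F] (Fin r → F) := (Module.finBasis F _).equivFun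
  let g1 : (Fin r → F) →ₗ[F] (Fin m → F) := (LinearMap.range f).subtype ∘ₗ e.symm.toLinearMap
  let g2 : (Fin n → F) →ₗ[F] (Fin r → F) := e.toLinearMap ∘ₗ f.rangeRestrict
  have hg1 : LinearMap.ker g1 = ⊥ := by
    rw [LinearMap.ker_eq_bot]
    exact (Submodule.injective_subtype _).comp e.symm.injective
  obtain ⟨l, hl⟩ := g1.exists_leftInverse_of_injective hg1
  have hcomp : g1 ∘ₗ g2 = f := by
    ext1 x
    ext1
    simp [g1, g2]
  refine ⟨r, LinearMap.toMatrix' g1, LinearMap.toMatrix' g2, LinearMap.toMatrix' l, ?_, ?_, ?_, ?_⟩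
  · rw [← LinearMap.toMatrix'_comp, hcomp, hf, LinearMap.toMatrix'_toLin']
  · rw [← LinearMap.toMatrix'_comp, hl, LinearMap.toMatrix'_id]
  · have := LinearMap.finrank_range_le f
    simpa using this
  · intro hrn
    have hk : LinearMap.ker f = ⊥ := by
      have h1 := LinearMap.finrank_range_add_finrank_ker f
      rw [← hr, hrn] at h1
      simp only [Module.finrank_fintype_fun_eq_card, Fintype.card_fin] at h1
      have h0 : Module.finrank F (LinearMap.ker f) = 0 := by omega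
      exact Submodule.finrank_eq_zero.mp h0
    obtain ⟨l', hl'⟩ := f.exists_leftInverse_of_injective hk
    refine ⟨LinearMap.toMatrix' l', ?_⟩
    have : A = LinearMap.toMatrix' f := by rw [hf, LinearMap.toMatrix'_toLin']
    rw [this, ← LinearMap.toMatrix'_comp, hl', LinearMap.toMatrix'_id]

/-- total format -/
def size (T : Tensor3 F) : ℕ := T.n1 + T.n2 + T.n3

/-- a strict restriction of `T` is equivalent to a tensor of smaller total format -/
lemma shrink {S T : Tensor3 F} (h : Restricts S T) (hn : ¬ Restricts T S) :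
    ∃ S' : Tensor3 F, Restricts S S' ∧ Restricts S' S ∧ size S' < size T := by
  rw [restricts_iff] at h
  obtain ⟨A, B, C, h⟩ := h
  obtain ⟨r1, A1, A2, LA, hA, hLA, hr1, eA⟩ := factor A
  obtain ⟨r2, B1, B2, LB, hB, hLB, hr2, eB⟩ := factor B
  obtain ⟨r3, C1, C2, LC, hC, hLC, hr3, eC⟩ := factor C
  let S' : Tensor3 F := ⟨r1, r2, r3, fun i j k => ((A2 ⊗ₖ (B2 ⊗ₖ C2)) *ᵥ vec T) (i, j, k)⟩
  have hv : vec S' = (A2 ⊗ₖ (B2 ⊗ₖ C2)) *ᵥ vec T := rfl
  have h1 : vec S = (A1 ⊗ₖ (B1 ⊗ₖ C1)) *ᵥ vec S' := by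
    rw [hv, mulVec_mulVec, ← mul_kronecker_mul, ← mul_kronecker_mul, ← hA, ← hB, ← hC, h]
  refine ⟨S', (restricts_iff _ _).2 ⟨A1, B1, C1, h1⟩, (restricts_iff _ _).2 ⟨LA, LB, LC, ?_⟩, ?_⟩
  · rw [h1, mulVec_mulVec, ← mul_kronecker_mul, ← mul_kronecker_mul, hLA, hLB, hLC]
    simp [one_kronecker_one]
  · by_contra hlt
    have hs : size S' = r1 + r2 + r3 := rfl
    have ht : size T = T.n1 + T.n2 + T.n3 := rfl
    obtain ⟨MA, hMA⟩ := eA (by omega)
    obtain ⟨MB, hMB⟩ := eB (by omega)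
    obtain ⟨MC, hMC⟩ := eC (by omega)
    apply hn
    rw [restricts_iff]
    refine ⟨MA, MB, MC, ?_⟩
    rw [h, mulVec_mulVec, ← mul_kronecker_mul, ← mul_kronecker_mul, hMA, hMB, hMC]
    simp [one_kronecker_one]

/-- There is no infinite strictly descending chain for restriction. -/
theorem no_descending (c : ℕ → Tensor3 F) (h : ∀ n, Restricts (c (n + 1)) (c n))
    (hn : ∀ n, ¬ Restricts (c n) (c (n + 1))) : False := by
  have key : ∀ N : ℕ, ∀ n, ∀ T : Tensor3 F, Restricts (c n) T → Restricts T (c n) →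
      size T ≤ N → False := by
    intro N
    induction N with
    | zero =>
      intro n T h1 h2 h3
      obtain ⟨S', -, -, h4⟩ := shrink ((h n).trans h1) (fun h5 => hn n (h1.trans h5))
      omega
    | succ N ih =>
      intro n T h1 h2 h3
      obtain ⟨S', h4, h5, h6⟩ := shrink ((h n).trans h1) (fun h5 => hn n (h1.trans h5))
      exact ih (n + 1) S' h4 h5 (by omega)
  exact key _ 0 (c 0) (Restricts.refl _) (Restricts.refl _) le_rfl

end Pool.Agent.H19.Tensor
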