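import Mathlib

/-! Iterated ultrafilters on lists and a level-homogeneous configuration of four lists. -/

set_option maxHeartbeats 400000
set_option synthInstance.maxSize 2000

namespace Pool.Agent.H19.Ul

open Filter

noncomputable def UL : ℕ → Ultrafilter (List ℕ)
  | 0 => pure []
  | n + 1 => (hyperfilter ℕ).bind fun x => (UL n).map (x :: ·)

lemma ev_succ (n : ℕ) (P : List ℕ → Prop) :
    (∀ᶠ l in UL (n + 1), P l) ↔ ∀ᶠ x in hyperfilter ℕ, ∀ᶠ l in UL n, P (x :: l) := Iff.rfl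

lemma ev_add (a b : ℕ) : ∀ P : List ℕ → Prop,
    (∀ᶠ l in UL (a + b), P l) ↔ ∀ᶠ u in UL a, ∀ᶠ v in UL b, P (u ++ v) := by
  induction a with
  | zero => intro P; rw [zero_add]; exact Iff.rfl
  | succ a ih =>
    intro P
    rw [show a + 1 + b = (a + b) + 1 by ring, ev_succ, ev_succ]
    simp only [ih, List.cons_append]

lemma ev_len (n : ℕ) : ∀ᶠ l : List ℕ in UL n, l.length = n := by
  induction n with
  | zero => exact rfl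
  | succ n ih =>
    rw [ev_succ]
    exact Eventually.of_forall fun x => ih.mono fun l h => by simp [h]

lemma ev_ne (n : ℕ) (l0 : List ℕ) : ∀ᶠ l in UL (n + 1), l ≠ l0 := by
  rw [ev_succ]
  have h : ∀ᶠ x in hyperfilter ℕ, x ≠ l0.headD 0 :=
    hyperfilter_le_cofinite (eventually_cofinite_ne _)
  exact h.mono fun x hx => Eventually.of_forall fun l h => hx (by rw [← h]; rfl)

lemma lim {α K : Type*} [Finite K] (u : Ultrafilter α) (f : α → K) : ∃ k, ∀ᶠ x in u, f x = k := by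
  obtain ⟨k, hk⟩ := Ultrafilter.eq_pure_of_finite (u.map f)
  refine ⟨k, ?_⟩
  have : {k} ∈ u.map f := by rw [hk]; simp
  exact this

lemma level {K : Type*} [Finite K] (c : List ℕ → List ℕ → K) (i n : ℕ) :
    ∃ k, ∀ᶠ w in UL i, ∀ᶠ u in UL n, ∀ᶠ v in UL n, c (w ++ u) (w ++ v) = k := by
  choose k1 h1 using fun w u => lim (UL n) fun v => c (w ++ u) (w ++ v)
  choose k2 h2 using fun w => lim (UL n) (k1 w)
  obtain ⟨k3, h3⟩ := lim (UL i) k2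
  exact ⟨k3, h3.mono fun w hw => (h2 w).mono fun u hu => (h1 w u).mono fun v hv => by
    rw [hv, hu, hw]⟩

lemma four {K : Type*} (c : List ℕ → List ℕ → K) (i m k : ℕ) (P Q : K)
    (h1 : ∀ᶠ w in UL i, ∀ᶠ u in UL (m + 1 + (k + 1)), ∀ᶠ v in UL (m + 1 + (k + 1)),
      c (w ++ u) (w ++ v) = P)
    (h2 : ∀ᶠ w in UL (i + (m + 1)), ∀ᶠ u in UL (k + 1), ∀ᶠ v in UL (k + 1),
      c (w ++ u) (w ++ v) = Q) :
    ∃ x y s1 s2 t1 t2 : List ℕ, x.length = i + (m + 1) ∧ y.length = i + (m + 1) ∧ x ≠ y ∧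
      s1 ≠ s2 ∧ t1 ≠ t2 ∧ c (x ++ s1) (x ++ s2) = Q ∧ c (y ++ t1) (y ++ t2) = Q ∧
      c (x ++ s1) (y ++ t1) = P ∧ c (x ++ s1) (y ++ t2) = P ∧
      c (x ++ s2) (y ++ t1) = P ∧ c (x ++ s2) (y ++ t2) = P := by
  simp only [ev_add i (m + 1)] at h2
  simp only [ev_add (m + 1) (k + 1), ← List.append_assoc] at h1
  obtain ⟨w, ⟨a1, a2⟩, a3⟩ := ((h1.and h2).and (ev_len i)).exists
  obtain ⟨p, ⟨b1, b2⟩, b3⟩ := ((a1.and a2).and (ev_len _)).exists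
  obtain ⟨s1, c1, c2⟩ := (b1.and b2).exists
  obtain ⟨s2, ⟨d1, d2⟩, d3⟩ := ((b1.and c2).and (ev_ne k s1)).exists
  obtain ⟨q, ⟨⟨e1, e2⟩, e3⟩, e4, e5⟩ :=
    (((c1.and d1).and a2).and ((ev_len _).and (ev_ne m p))).exists
  obtain ⟨t1, ⟨f1, f2⟩, f3⟩ := ((e1.and e2).and e3).exists
  obtain ⟨t2, ⟨⟨g1, g2⟩, g3⟩, g4⟩ := (((e1.and e2).and f3).and (ev_ne k t1)).exists
  exact ⟨w ++ p, w ++ q, s1, s2, t1, t2, by simp [a3, b3], by simp [a3, e4],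
    fun h => e5 (List.append_cancel_left h).symm, d3.symm, g4.symm, d2, g3, f1, g1, f2, g2⟩

/-- Two-element sets of positions. -/
abbrev K := {P : Finset (Fin 4) // P.card = 2}

theorem main (c : List ℕ → List ℕ → K) : ∃ (j : ℕ) (P Q : K) (x y s1 s2 t1 t2 : List ℕ),
    j < 4 ∧ (Q = P ∨ Q.1 = P.1ᶜ) ∧ x.length = j ∧ y.length = j ∧ x ≠ y ∧
      s1 ≠ s2 ∧ t1 ≠ t2 ∧ c (x ++ s1) (x ++ s2) = Q ∧ c (y ++ t1) (y ++ t2) = Q ∧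
      c (x ++ s1) (y ++ t1) = P ∧ c (x ++ s1) (y ++ t2) = P ∧
      c (x ++ s2) (y ++ t1) = P ∧ c (x ++ s2) (y ++ t2) = P := by
  obtain ⟨k0, h0⟩ := level c 0 4
  obtain ⟨k1, h1⟩ := level c 1 3
  obtain ⟨k2, h2⟩ := level c 2 2
  obtain ⟨k3, h3⟩ := level c 3 1
  have h : ∀ k0 k1 k2 k3 : K, (k1 = k0 ∨ k1.1 = k0.1ᶜ) ∨ (k2 = k0 ∨ k2.1 = k0.1ᶜ) ∨
      (k3 = k0 ∨ k3.1 = k0.1ᶜ) ∨ (k2 = k1 ∨ k2.1 = k1.1ᶜ) ∨ (k3 = k1 ∨ k3.1 = k1.1ᶜ) ∨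
      (k3 = k2 ∨ k3.1 = k2.1ᶜ) := by decide +kernel
  rcases h k0 k1 k2 k3 with h | h | h | h | h | h
  · obtain ⟨x, y, s1, s2, t1, t2, h'⟩ := four c 0 0 2 _ _ h0 h1
    exact ⟨1, _, _, x, y, s1, s2, t1, t2, by omega, h, h'⟩
  · obtain ⟨x, y, s1, s2, t1, t2, h'⟩ := four c 0 1 1 _ _ h0 h2
    exact ⟨2, _, _, x, y, s1, s2, t1, t2, by omega, h, h'⟩
  · obtain ⟨x, y, s1, s2, t1, t2, h'⟩ := four c 0 2 0 _ _ h0 h3
    exact ⟨3, _, _, x, y, s1, s2, t1, t2, by omega, h, h'⟩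
  · obtain ⟨x, y, s1, s2, t1, t2, h'⟩ := four c 1 0 1 _ _ h1 h2
    exact ⟨2, _, _, x, y, s1, s2, t1, t2, by omega, h, h'⟩
  · obtain ⟨x, y, s1, s2, t1, t2, h'⟩ := four c 1 1 0 _ _ h1 h3
    exact ⟨3, _, _, x, y, s1, s2, t1, t2, by omega, h, h'⟩
  · obtain ⟨x, y, s1, s2, t1, t2, h'⟩ := four c 2 0 0 _ _ h2 h3
    exact ⟨3, _, _, x, y, s1, s2, t1, t2, by omega, h, h'⟩

lemma cover : ∀ (P Q : K) (a b c d : Fin 4), (Q = P ∨ Q.1 = P.1ᶜ) → a ≠ b → a ≠ c → a ≠ d → b ≠ c →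
    b ≠ d → c ≠ d → ({a, b} = Q.1 ∨ {c, d} = Q.1 ∨ {a, c} = P.1 ∨ {a, d} = P.1 ∨ {b, c} = P.1 ∨
      {b, d} = P.1) := by decide +kernel

end Pool.Agent.H19.Ul
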