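import Pool.Agent.H19.Ul

/-! A finite colouring of pairs by five colours that defeats every assignment of forbidden position pairs. -/

set_option maxHeartbeats 400000

namespace Pool.Agent.H19.Ul

open Filter Finset

noncomputable def e : ℕ ≃ List ℕ := (Denumerable.eqv (List ℕ)).symm

open Classical in
noncomputable def colN (n : ℕ) (A : Finset (Fin n)) : ℕ :=
  ((range 4).filter fun k => ∀ u ∈ A, ∀ v ∈ A, (e u).take k = (e v).take k).card

lemma colN_lt (n : ℕ) (A : Finset (Fin n)) : colN n A < 6 := by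
  unfold colN
  exact lt_of_le_of_lt (card_filter_le _ _) (by simp)

open Classical in
noncomputable def pr (n : ℕ) (x y : List ℕ) : Finset (Fin n) :=
  univ.filter fun v => e v = x ∨ e v = y

lemma pr_eq (n : ℕ) (a b : Fin n) : pr n (e a) (e b) = {a, b} := by
  ext v
  simp [pr, Fin.val_inj]

lemma col_ne (n j : ℕ) (a b c : Fin n) (x y s1 s2 t1 : List ℕ) (hj : j < 4) (hx : x.length = j)
    (hy : y.length = j) (hxy : x ≠ y) (ha : e a = x ++ s1) (hb : e b = x ++ s2)
    (hc : e c = y ++ t1) : colN n {a, c} < colN n {a, b} := by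
  classical
  have h1 : colN n {a, c} ≤ j := by
    unfold colN
    refine le_trans (card_le_card (t := range j) ?_) (by simp)
    intro k hk
    simp only [mem_filter, mem_range] at hk ⊢
    by_contra hlt
    have h := hk.2 a (by simp) c (by simp)
    have h' := congrArg (List.take j) h
    rw [List.take_take, List.take_take, min_eq_left (by omega), ha, hc,
      List.take_left' hx, List.take_left' hy] at h'
    exact hxy h'
  have h2 : j + 1 ≤ colN n {a, b} := by
    unfold colN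
    refine le_trans (by simp) (card_le_card (s := range (j + 1)) ?_)
    intro k hk
    simp only [mem_filter, mem_range] at hk ⊢
    refine ⟨by omega, ?_⟩
    have key : ∀ u ∈ ({a, b} : Finset (Fin n)), (e u).take k = x.take k := by
      intro u hu
      simp only [mem_insert, mem_singleton] at hu
      rcases hu with rfl | rfl
      · rw [ha, List.take_append_of_le_length (by omega)]
      · rw [hb, List.take_append_of_le_length (by omega)]
    intro u hu v hv
    rw [key u hu, key v hv]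
  omega

theorem core : ∃ (n : ℕ) (col : Finset (Fin n) → Fin 6), ∀ c : Finset (Fin n) → K,
    ∃ (a b c' d : Fin n) (P Q : K), (Q = P ∨ Q.1 = P.1ᶜ) ∧ a ≠ b ∧ a ≠ c' ∧ a ≠ d ∧ b ≠ c' ∧
      b ≠ d ∧ c' ≠ d ∧ col {a, c'} ≠ col {a, b} ∧ c {a, b} = Q ∧ c {c', d} = Q ∧
      c {a, c'} = P ∧ c {a, d} = P ∧ c {b, c'} = P ∧ c {b, d} = P := by
  by_contra hno
  have hno' := fun n => not_forall.1 (not_exists.1 (not_exists.1 hno n)
    (fun A => ⟨colN n A, colN_lt n A⟩))
  choose cn hcn using hno'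
  choose c hc using fun x y => lim (hyperfilter ℕ) fun n => cn n (pr n x y)
  obtain ⟨j, P, Q, x, y, s1, s2, t1, t2, hj, hPQ, hx, hy, hxy, hs, ht, k1, k2, k3, k4, k5, k6⟩ :=
    main c
  have big : ∀ l : List ℕ, ∀ᶠ n in hyperfilter ℕ, e.symm l < n := fun l =>
    hyperfilter_le_cofinite (by rw [Nat.cofinite_eq_atTop]; exact eventually_gt_atTop _)
  obtain ⟨n, ⟨⟨⟨⟨b1, b2⟩, b3⟩, b4⟩, ⟨⟨⟨⟨⟨m1, m2⟩, m3⟩, m4⟩, m5⟩, m6⟩⟩⟩ :=
    (((((big (x ++ s1)).and (big (x ++ s2))).and (big (y ++ t1))).and (big (y ++ t2))).and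
      ((((((hc (x ++ s1) (x ++ s2)).and (hc (y ++ t1) (y ++ t2))).and (hc (x ++ s1) (y ++ t1))).and
        (hc (x ++ s1) (y ++ t2))).and (hc (x ++ s2) (y ++ t1))).and
        (hc (x ++ s2) (y ++ t2)))).exists
  obtain ⟨a, ha⟩ : ∃ a : Fin n, e a = x ++ s1 := ⟨⟨_, b1⟩, by simp⟩
  obtain ⟨b, hb⟩ : ∃ a : Fin n, e a = x ++ s2 := ⟨⟨_, b2⟩, by simp⟩
  obtain ⟨c', hc'⟩ : ∃ a : Fin n, e a = y ++ t1 := ⟨⟨_, b3⟩, by simp⟩
  obtain ⟨d, hd⟩ : ∃ a : Fin n, e a = y ++ t2 := ⟨⟨_, b4⟩, by simp⟩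
  have cross : ∀ (u v : Fin n) (s t : List ℕ), e u = x ++ s → e v = y ++ t → u ≠ v := by
    intro u v s t hu hv h
    rw [h, hv] at hu
    exact hxy (List.append_inj_left hu (by omega)).symm
  have same : ∀ (u v : Fin n) (z s t : List ℕ), e u = z ++ s → e v = z ++ t → s ≠ t → u ≠ v := by
    intro u v z s t hu hv hst h
    rw [h, hv] at hu
    exact hst (List.append_cancel_left hu).symm
  rw [k1, ← ha, ← hb, pr_eq] at m1
  rw [k2, ← hc', ← hd, pr_eq] at m2
  rw [k3, ← ha, ← hc', pr_eq] at m3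
  rw [k4, ← ha, ← hd, pr_eq] at m4
  rw [k5, ← hb, ← hc', pr_eq] at m5
  rw [k6, ← hb, ← hd, pr_eq] at m6
  refine hcn n ⟨a, b, c', d, P, Q, hPQ, same _ _ _ _ _ ha hb hs, cross _ _ _ _ ha hc',
    cross _ _ _ _ ha hd, cross _ _ _ _ hb hc', cross _ _ _ _ hb hd, same _ _ _ _ _ hc' hd ht, ?_,
    m1, m2, m3, m4, m5, m6⟩
  intro h
  have := col_ne n j a b c' x y s1 s2 t1 hj hx hy hxy ha hb hc'
  have h2 := congrArg Fin.val h
  simp only at h2
  omega

end Pool.Agent.H19.Ul
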