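import Mathlib
import Pool.Agent.H19.LSig
import Pool.Agent.H19.Pfc

/-! General facts on the Hewitt realcompactification as an evaluation closure. -/

set_option maxHeartbeats 400000

namespace Pool.Agent.H19.Up

open Set Filter Topology

/-- Continuous real functions with the pointwise topology. -/
abbrev Cp (Y : Type) [TopologicalSpace Y] := {f : Y → ℝ // Continuous f}

variable {Y : Type} [TopologicalSpace Y]

/-- Evaluation. -/
def ev (y : Y) : Cp Y → ℝ := fun g => g.1 y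

/-- Lindelöf Σ for a subset of a space. -/
def LSset {P : Type} [TopologicalSpace P] (W : Set P) : Prop :=
  ∃ F : Set (Set P), F.Countable ∧ ∀ x ∈ W, ∃ K : Set P, IsCompact K ∧ x ∈ K ∧ K ⊆ W ∧
    ∀ U : Set P, IsOpen U → K ⊆ U → ∃ A ∈ F, K ⊆ A ∧ A ⊆ U ∩ W

lemma lsset_of_ls {P : Type} [TopologicalSpace P] {W : Set P} (h : LSig.LS W) : LSset W := by
  obtain ⟨F, hF, h⟩ := h
  refine ⟨(fun A => Subtype.val '' A) '' F, hF.image _, fun x hx => ?_⟩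
  obtain ⟨C, hC, hxC, h⟩ := h ⟨x, hx⟩
  refine ⟨Subtype.val '' C, hC.image continuous_subtype_val, ⟨_, hxC, rfl⟩,
    Subtype.coe_image_subset _ _, fun U hU hCU => ?_⟩
  obtain ⟨A, hA, h1, h2⟩ := h _ (hU.preimage continuous_subtype_val) (image_subset_iff.1 hCU)
  exact ⟨_, ⟨A, hA, rfl⟩, image_mono h1, subset_inter (image_subset_iff.2 h2)
    (Subtype.coe_image_subset _ _)⟩

lemma ev_cont : Continuous (ev : Y → Cp Y → ℝ) := continuous_pi fun f => f.2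

lemma exists_rho {ι : Type} [Countable ι] (w : ι → ℝ) :
    ∃ ρ : (ι → ℝ) → ℝ, Continuous ρ ∧ ∀ q, ρ q = 0 ↔ q = w := by
  letI : MetricSpace (ι → ℝ) := TopologicalSpace.metrizableSpaceMetric _
  exact ⟨fun q => dist q w, continuous_id.dist continuous_const, fun q => dist_eq_zero⟩

lemma gd {ι : Type} [Countable ι] {q : Cp Y → ℝ} (hq : q ∈ closure (range ev))
    (ψ : ι → (Cp Y → ℝ) → ℝ) (hψ : ∀ i, Continuous (ψ i)) : ∃ y, ∀ i, ψ i (ev y) = ψ i q := by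
  obtain ⟨ρ, hρ, h0⟩ := exists_rho fun i => ψ i q
  have hF : Continuous fun p => ρ fun i => ψ i p := hρ.comp (continuous_pi hψ)
  by_contra hcon
  have h1 : ∀ y, (ρ fun i => ψ i (ev y)) ≠ 0 := fun y h => hcon ⟨y, congrFun ((h0 _).1 h)⟩
  set w : Cp Y := ⟨fun y => (ρ fun i => ψ i (ev y))⁻¹, (hF.comp ev_cont).inv₀ h1⟩
  have h2 : q ∈ {p : Cp Y → ℝ | (ρ fun i => ψ i p) * p w = 1} := by
    refine closure_minimal ?_ (isClosed_eq (hF.mul (continuous_apply w)) continuous_const) hq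
    rintro _ ⟨y, rfl⟩
    exact mul_inv_cancel₀ (h1 y)
  simp [(h0 _).2 rfl] at h2

lemma mem_cl {𝓑 : Set (Set Y)} (hc : 𝓑.Countable) (hcov : ∀ y, ∃ B ∈ 𝓑, y ∈ B)
    {q : Cp Y → ℝ} (hq : q ∈ closure (range ev)) : ∃ B ∈ 𝓑, q ∈ closure (ev '' B) := by
  by_contra hcon
  push Not at hcon
  haveI := hc.to_subtype
  choose u hu hup huB using fun B : 𝓑 =>
    CompletelyRegularSpace.completely_regular q _ isClosed_closure (hcon B.1 B.2)
  obtain ⟨y, hy⟩ := gd hq (fun B p => (u B p : ℝ)) fun B => continuous_subtype_val.comp (hu B)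
  obtain ⟨B, hB, hyB⟩ := hcov y
  have h1 : u ⟨B, hB⟩ (ev y) = 1 := huB ⟨B, hB⟩ (subset_closure (mem_image_of_mem _ hyB))
  have := hy ⟨B, hB⟩
  simp [h1, hup] at this

lemma ls_of_bdd {𝓝' : Set (Set Y)} (hc : 𝓝'.Countable)
    (h : ∀ (g : Cp Y) (y : Y), ∃ N ∈ 𝓝', y ∈ N ∧ ∃ b : ℝ, ∀ x ∈ N, |g.1 x| ≤ b) :
    LSset (closure (range (ev : Y → _))) := by
  refine lsset_of_ls (LSig.ls_of_closed isClosed_closure ((fun N => closure (ev '' N)) '' 𝓝')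
    (hc.image _) (by rintro _ ⟨N, -, rfl⟩; exact isClosed_closure) fun p hp g => ?_)
  obtain ⟨N, ⟨hN, b, hb⟩, hpN⟩ := mem_cl (𝓑 := {N | N ∈ 𝓝' ∧ ∃ b : ℝ, ∀ x ∈ N, |g.1 x| ≤ b})
    (hc.mono fun N hN => hN.1) (fun y => let ⟨N, h1, h2, h3⟩ := h g y; ⟨N, ⟨h1, h3⟩, h2⟩) hp
  refine ⟨_, ⟨N, hN, rfl⟩, hpN, b, fun q hq => ?_⟩
  refine closure_minimal (t := {q : Cp Y → ℝ | |q g| ≤ b}) ?_
    (isClosed_le (continuous_apply g).abs continuous_const) hq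
  rintro _ ⟨x, hx, rfl⟩
  exact hb x hx

lemma exists_ultra {P E : Type} [TopologicalSpace P] [Uncountable E] {W : Set P} (h : LSset W)
    (ω : E → P) (hω : ∀ x, ω x ∈ W) :
    ∃ q ∈ W, ∃ 𝒰 : Ultrafilter E, (𝒰 : Filter E) ≤ cofinite ∧ Tendsto ω 𝒰 (𝓝 q) := by
  obtain ⟨F, hF, h⟩ := h
  have h1 : (⋃ A ∈ {A | A ∈ F ∧ (ω ⁻¹' A).Finite}, ω ⁻¹' A).Countable :=
    (hF.mono fun A hA => hA.1).biUnion fun A hA => hA.2.countable
  obtain ⟨x, hx⟩ : ∃ x, x ∉ ⋃ A ∈ {A | A ∈ F ∧ (ω ⁻¹' A).Finite}, ω ⁻¹' A := by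
    by_contra hcon
    push Not at hcon
    exact not_countable_univ (h1.mono fun x _ => hcon x)
  obtain ⟨K, hK, hxK, hKW, hnet⟩ := h _ (hω x)
  by_contra hcon
  have h2 : Disjoint (𝓝ˢ K) (map ω cofinite) := hK.disjoint_nhdsSet_left.2 fun q hq => by
    by_contra h3
    have h4 : MapClusterPt q cofinite ω := ⟨fun h => h3 (disjoint_iff.2 h)⟩
    exact hcon ⟨q, hKW hq, mapClusterPt_iff_ultrafilter.1 h4⟩
  obtain ⟨U, ⟨hU, hKU⟩, hU'⟩ := ((hasBasis_nhdsSet K).disjoint_iff_left).1 h2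
  obtain ⟨A, hA, hKA, hAU⟩ := hnet U hU hKU
  refine hx (mem_biUnion (x := A) ⟨hA, ?_⟩ (hKA hxK))
  exact (mem_cofinite.1 (mem_map.1 hU')).subset fun z hz h => h (hAU hz).1

lemma nbhd {Ψ : Cp Y → ℝ} (hΨ : Continuous Ψ) (g : Cp Y) :
    ∃ F : Finset Y, ∃ V : Y → Set ℝ, (∀ y, V y ∈ 𝓝 (g.1 y)) ∧
      ∀ h : Cp Y, (∀ y ∈ F, h.1 y ∈ V y) → |Ψ h - Ψ g| < 1 := by
  have h1 : {h | |Ψ h - Ψ g| < 1} ∈ 𝓝 g :=
    (isOpen_lt (hΨ.sub continuous_const).abs continuous_const).mem_nhds (by simp)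
  rw [nhds_subtype, mem_comap] at h1
  obtain ⟨T, hT, hTO⟩ := h1
  rw [nhds_pi, Filter.mem_pi] at hT
  obtain ⟨F, hF, V, hV, hVT⟩ := hT
  exact ⟨hF.toFinset, V, hV, fun h hh => hTO (hVT fun y hy => hh y (by simpa using hy))⟩

lemma nobig [T35Space Y] {s : Y → ℝ}
    (hs : ∀ B : Set Y, B.Countable → ∃ g : Cp Y, ∀ y ∈ B, g.1 y = s y)
    {l : Filter ℕ} [l.NeBot] {g : ℕ → Cp Y} (hg : ∀ y, Tendsto (fun k => (g k).1 y) l (𝓝 (s y)))
    {Ψ : Cp Y → ℝ} (hΨ : Continuous Ψ) : ¬ Tendsto (fun k => |Ψ (g k)|) l atTop := by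
  classical
  intro hcon
  choose F V hV hFV using nbhd hΨ
  set B : Set Y := ⋃ k, (F (g k) : Set Y) with hB
  obtain ⟨g', hg'⟩ := hs B (countable_iUnion fun k => (F (g k)).countable_toSet)
  have h1 : ∀ᶠ k in l, ∀ y ∈ F g', y ∈ B → (g k).1 y ∈ V g' y := by
    rw [eventually_all_finset]
    intro y _
    by_cases hy : y ∈ B
    · filter_upwards [hg y (hg' y hy ▸ hV g' y)] with k hk _ using hk
    · exact Eventually.of_forall fun k h => absurd h hy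
  obtain ⟨k, hk1, hk2⟩ := (h1.and (hcon.eventually_gt_atTop (|Ψ g'| + 2))).exists
  obtain ⟨h, hc, hE⟩ := Pfc.interp (fun y => if y ∈ B then (g k).1 y else g'.1 y)
    (F g' ∪ F (g k))
  have h2 := hFV g' ⟨h, hc⟩ fun y hy => by
    simp only [hE y (Finset.mem_union_left _ hy)]
    split_ifs with h
    · exact hk1 y hy h
    · exact mem_of_mem_nhds (hV g' y)
  have h3 := hFV (g k) ⟨h, hc⟩ fun y hy => by
    simp only [hE y (Finset.mem_union_right _ hy),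
      if_pos (show y ∈ B from mem_iUnion.2 ⟨k, hy⟩)]
    exact mem_of_mem_nhds (hV (g k) y)
  have h4 := abs_sub_abs_le_abs_sub (Ψ (g k)) (Ψ g')
  have h5 := abs_sub_le (Ψ (g k)) (Ψ ⟨h, hc⟩) (Ψ g')
  rw [abs_sub_comm] at h3
  linarith

end Pool.Agent.H19.Up
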