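import Mathlib
import Pool.Agent.H19.UpA

/-! A space `X` with `υ C_p(X)` Lindelöf Σ and `υ C_p C_p(X)` not Lindelöf Σ. -/

set_option maxHeartbeats 400000

namespace Pool.Agent.H19.Up

open Set Filter Topology OnePoint

/-- Names for coordinates and points. -/
inductive Tm : Type
  | sub : Set (ℕ → Bool) → Tm
  | ind : ℝ → (ℕ → Tm) → Tm
  | e : (ℕ → Bool) → Tm
  | t : OnePoint ℕ → (ℕ → Tm) → (ℕ → Bool) → Tm

open Classical in
/-- Default value of a point at a coordinate. -/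
noncomputable def base (p c : Tm) : Bool :=
  decide ((∃ A x, c = .sub A ∧ p = .e x ∧ x ∈ A) ∨ ∃ η B, c = .ind η B ∧ p ∈ range B)

open Classical in
/-- The point of the Cantor cube with a given name. -/
noncomputable def val : Tm → Tm → Bool
  | .t j cs v, c => if h : ∃ i, cs i = c then v h.choose else base (.t j cs v) c
  | p, c => base p c

/-- The space. -/
abbrev XX : Type := {z : (Tm → Bool) × OnePoint ℕ //
  (∃ x, z.1 = val (.e x)) ∨ ∃ cs v, z.1 = val (.t z.2 cs v)}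

/-- The distinguished points. -/
noncomputable def pt (x : ℕ → Bool) (j : OnePoint ℕ) : XX := ⟨(val (.e x), j), Or.inl ⟨x, rfl⟩⟩

/-- The filling points. -/
noncomputable def pt' (j : OnePoint ℕ) (cs : ℕ → Tm) (v : ℕ → Bool) : XX :=
  ⟨(val (.t j cs v), j), Or.inr ⟨cs, v, rfl⟩⟩

lemma dense_lvl (j : OnePoint ℕ) {B : Set Tm} (hB : B.Countable) (k : Tm → Bool) :
    ∃ z : XX, z.1.2 = j ∧ ∀ c ∈ B, z.1.1 c = k c := by
  obtain ⟨cs, hcs⟩ := (hB.insert (.sub ∅)).exists_eq_range (insert_nonempty _ _)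
  refine ⟨pt' j cs (k ∘ cs), rfl, fun c hc => ?_⟩
  have h : ∃ i, cs i = c := by
    have : c ∈ range cs := hcs ▸ mem_insert_of_mem _ hc
    exact this
  simp only [pt', val, dif_pos h, Function.comp, h.choose_spec]

lemma val_sub (x : ℕ → Bool) (A : Set (ℕ → Bool)) : val (.e x) (.sub A) = true ↔ x ∈ A := by
  simp [val, base]

lemma indep {Q : Set Tm} (hQ : Q.Countable) (R : Set Tm) :
    ∃ β : (Tm → Bool) → Bool, Continuous β ∧ ∀ p ∈ Q, (β (val p) = true ↔ p ∈ R) := by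
  rcases (Q ∩ R).eq_empty_or_nonempty with h | h
  · exact ⟨fun _ => false, continuous_const, fun p hp =>
      ⟨fun h => by simp at h, fun hp' => absurd (h ▸ ⟨hp, hp'⟩ : p ∈ (∅ : Set Tm)) (by simp)⟩⟩
  obtain ⟨B, hB⟩ := (hQ.mono inter_subset_left).exists_eq_range h
  have h1 : ∀ p : Tm, {η : ℝ | ∃ j cs v i, p = .t j cs v ∧ cs i = .ind η B}.Countable := by
    intro p
    rcases p with _ | _ | _ | ⟨j, cs, v⟩
    any_goals simp
    refine ((countable_range cs).preimage_of_injOn (f := fun η => Tm.ind η B)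
      fun a _ b _ hab => by simpa using hab).mono ?_
    rintro η h
    exact h
  obtain ⟨η, hη⟩ : ∃ η : ℝ, η ∉ ⋃ p ∈ Q, {η : ℝ | ∃ j cs v i, p = .t j cs v ∧ cs i = .ind η B} := by
    by_contra hcon
    push Not at hcon
    exact not_countable_univ ((hQ.biUnion fun p _ => h1 p).mono fun η _ => hcon η)
  refine ⟨fun y => y (.ind η B), continuous_apply _, fun p hp => ?_⟩
  have h2 : val p (.ind η B) = base p (.ind η B) := by
    rcases p with _ | _ | _ | ⟨j, cs, v⟩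
    any_goals rfl
    simp only [val]
    rw [dif_neg]
    rintro ⟨i, hi⟩
    exact hη (mem_biUnion hp ⟨j, cs, v, i, rfl, hi⟩)
  have h3 : p ∈ range B ↔ p ∈ R := by rw [← hB]; simp [hp]
  simp only [h2, base, decide_eq_true_eq, ← h3]
  simp

lemma ext0 {Q : Set Tm} (hQ : Q.Countable) (τ : Tm → ℝ) {M : ℝ} (hM : ∀ p, |τ p| ≤ M) :
    ∃ G : C(Tm → Bool, ℝ), (∀ p ∈ Q, G (val p) = τ p) ∧
      ∀ M', (∀ p, |τ p| ≤ M') → ‖G‖ ≤ M' := by
  set M0 := ⨆ p, |τ p| with hM0
  have h1 : ∀ p, |τ p| ≤ M0 := fun p => le_ciSup (f := fun p => |τ p|) ⟨M, forall_mem_range.2 hM⟩ p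
  have h0 : 0 ≤ M0 := (abs_nonneg _).trans (h1 (.sub ∅))
  haveI : Nonempty (Icc (-M0) M0) := ⟨⟨0, by linarith, h0⟩⟩
  haveI : Nonempty Tm := ⟨.sub ∅⟩
  obtain ⟨σ, hσ, hs⟩ := exists_nat_bool_continuous_surjective_of_compact (Icc (-M0) M0)
  choose w hw using fun p => hs ⟨τ p, abs_le.1 (h1 p)⟩
  choose β hβ hβ' using fun i => indep hQ {p | w p i = true}
  refine ⟨⟨fun y => σ fun i => β i y, continuous_subtype_val.comp (hσ.comp (continuous_pi hβ))⟩,
    fun p hp => ?_, fun M' hM' => ?_⟩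
  · have : (fun i => β i (val p)) = w p := funext fun i => Bool.eq_iff_iff.2 (hβ' i p hp)
    simp [this, hw]
  · have h2 : M0 ≤ M' := ciSup_le hM'
    exact (ContinuousMap.norm_le _ (h0.trans h2)).2 fun y =>
      (abs_le.2 (σ fun i => β i y).2).trans h2

/-- Bounded functions converging uniformly along the distinguished points. -/
def Good (s : XX → ℝ) : Prop := (∃ n : ℕ, ∀ z, |s z| ≤ n) ∧
  ∀ ε > 0, ∃ r : ℕ, ∀ j ≥ r, ∀ x, |s (pt x j) - s (pt x ∞)| ≤ ε

lemma ext {s : XX → ℝ} (hs : Good s) (B : Set XX) (hB : B.Countable) :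
    ∃ g : Cp XX, ∀ y ∈ B, g.1 y = s y := by
  obtain ⟨⟨n, hn⟩, hs⟩ := hs
  have h1 : ∀ z : XX, ∃ p : Tm, (∃ x, p = .e x ∧ z = pt x z.1.2) ∨
      ∃ cs v, p = .t z.1.2 cs v ∧ z = pt' z.1.2 cs v := by
    rintro ⟨⟨y, j⟩, ⟨x, h⟩ | ⟨cs, v, h⟩⟩
    · exact ⟨_, Or.inl ⟨x, rfl, Subtype.ext (Prod.ext h rfl)⟩⟩
    · exact ⟨_, Or.inr ⟨cs, v, rfl, Subtype.ext (Prod.ext h rfl)⟩⟩
  choose ix hix using h1
  have hn0 : (0:ℝ) ≤ n := Nat.cast_nonneg n
  set σ : Tm → ℝ := fun p => match p with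
    | .e x => s (pt x ∞)
    | .t j cs v => s (pt' j cs v)
    | _ => 0 with hσ
  set d : ℕ → Tm → ℝ := fun j p => match p with
    | .e x => s (pt x j) - s (pt x ∞)
    | _ => 0 with hd
  obtain ⟨G, hG, -⟩ := ext0 (hB.image ix) σ (M := n) (by
    rintro (_ | _ | _ | _) <;> simp [hσ, hn])
  choose D hD hD' using fun j => ext0 (hB.image ix) (d j) (M := n + n) (by
    rintro (_ | _ | x | _) <;> simp only [hd, abs_zero]
    any_goals positivity
    exact (abs_sub _ _).trans (add_le_add (hn _) (hn _)))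
  have hD0 : Tendsto (fun j => G + D j) atTop (𝓝 G) := by
    rw [Metric.tendsto_atTop]
    intro ε hε
    obtain ⟨r, hr⟩ := hs (ε / 2) (half_pos hε)
    refine ⟨r, fun j hj => ?_⟩
    rw [dist_self_add_left]
    refine (hD' j (ε / 2) ?_).trans_lt (half_lt_self hε)
    rintro (_ | _ | x | _) <;> simp only [hd, abs_zero]
    any_goals positivity
    exact hr j hj x
  set Λ := continuousMapMkNat _ G hD0 with hΛ
  have hΛ1 : Λ ∞ = G := rfl
  have hΛ2 : ∀ j : ℕ, Λ j = G + D j := fun j => rfl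
  refine ⟨⟨fun z => Λ z.1.2 z.1.1, by fun_prop⟩, fun z hz => ?_⟩
  have h2 := hG _ (mem_image_of_mem ix hz)
  have h3 := fun j => hD j _ (mem_image_of_mem ix hz)
  rcases hix z with ⟨x, h, hz⟩ | ⟨cs, v, h, hz⟩
  · rw [h] at h2 h3
    rw [hz]
    generalize z.1.2 = l
    induction l using OnePoint.rec with
    | infty => exact h2
    | coe j =>
      change (G + D j) (val (.e x)) = _
      rw [ContinuousMap.add_apply, h2, h3]
      simp [hσ, hd]
  · rw [h] at h2 h3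
    rw [hz]
    generalize z.1.2 = l at h2 h3
    induction l using OnePoint.rec with
    | infty => exact h2
    | coe j =>
      change (G + D j) (val (.t j cs v)) = _
      rw [ContinuousMap.add_apply, h2, h3]
      simp [hσ, hd]

lemma loc (g : Cp XX) (z : XX) {ε : ℝ} (hε : 0 < ε) : ∃ F : Finset Tm, ∃ T ∈ 𝓝 z.1.2,
    ∀ z' : XX, (∀ c ∈ F, z'.1.1 c = z.1.1 c) → z'.1.2 ∈ T → |g.1 z' - g.1 z| < ε := by
  have h1 : {z' | |g.1 z' - g.1 z| < ε} ∈ 𝓝 z :=
    (isOpen_lt (g.2.sub continuous_const).abs continuous_const).mem_nhds (by simpa)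
  rw [nhds_subtype, mem_comap] at h1
  obtain ⟨T, hT, hTO⟩ := h1
  obtain ⟨U, hU, V, hV, hUV⟩ := mem_nhds_prod_iff.1 hT
  rw [nhds_pi, Filter.mem_pi] at hU
  obtain ⟨F, hF, W, hW, hWU⟩ := hU
  refine ⟨hF.toFinset, V, hV, fun z' h1 h2 => hTO (hUV ⟨hWU fun c hc => ?_, h2⟩)⟩
  rw [h1 c (by simpa using hc)]
  exact mem_of_mem_nhds (hW c)

lemma approx (z : ℕ → XX) (F : ℕ → Finset Tm) : ∃ y : XX,
    Tendsto (fun i => (z i).1.2) (hyperfilter ℕ) (𝓝 y.1.2) ∧ ∀ F' : Finset Tm,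
      ∀ᶠ i in hyperfilter ℕ, ∀ j, ∃ z' : XX, z'.1.2 = j ∧ (∀ c ∈ F i, z'.1.1 c = (z i).1.1 c) ∧
        ∀ c ∈ F', z'.1.1 c = y.1.1 c := by
  classical
  obtain ⟨k, -, hk⟩ := isCompact_univ.ultrafilter_le_nhds
    ((hyperfilter ℕ).map fun i => (z i).1) (by simp)
  have hk' : Tendsto (fun i => (z i).1) (hyperfilter ℕ) (𝓝 k) := hk
  set B : Set Tm := ⋃ i, (F i : Set Tm) with hB
  obtain ⟨y, hy, hyB⟩ := dense_lvl k.2 (countable_iUnion fun i => (F i).countable_toSet) k.1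
  refine ⟨y, hy ▸ (continuous_snd.tendsto k).comp hk', fun F' => ?_⟩
  have h1 : ∀ᶠ i in hyperfilter ℕ, ∀ c ∈ F', (z i).1.1 c = k.1 c := by
    rw [eventually_all_finset]
    intro c _
    exact (tendsto_pi_nhds.1 ((continuous_fst.tendsto k).comp hk') c).eventually
      ((isOpen_discrete {k.1 c}).mem_nhds rfl)
  filter_upwards [h1] with i hi j
  obtain ⟨z', h2, h3⟩ := dense_lvl j (F i ∪ F').countable_toSet
    fun c => if c ∈ B then (z i).1.1 c else y.1.1 c
  refine ⟨z', h2, fun c hc => ?_, fun c hc => ?_⟩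
  · rw [h3 c (by simp [hc]), if_pos (mem_iUnion.2 ⟨i, hc⟩)]
  · rw [h3 c (by simp [hc])]
    split_ifs with h
    · rw [hi c hc, hyB c h]
    · rfl

lemma good (g : Cp XX) : Good g.1 := by
  classical
  have hle : (hyperfilter ℕ : Filter ℕ) ≤ atTop := Nat.hyperfilter_le_atTop
  constructor
  · by_contra hcon
    push Not at hcon
    choose z hz using hcon
    choose F T hT hFT using fun y => loc g y one_pos
    obtain ⟨y, hy, h⟩ := approx z fun i => F (z i)
    obtain ⟨i, ⟨h1, h2⟩, h3⟩ := (((h (F y)).and (hy (hT y))).and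
      ((tendsto_natCast_atTop_atTop.mono_left hle).eventually_gt_atTop (|g.1 y| + 2))).exists
    obtain ⟨z', h4, h5, h6⟩ := h1 (z i).1.2
    have h7 := hFT (z i) z' h5 (h4 ▸ mem_of_mem_nhds (hT _))
    have h8 := hFT y z' h6 (h4 ▸ h2)
    have h9 := abs_sub_abs_le_abs_sub (g.1 (z i)) (g.1 y)
    have h10 := abs_sub_le (g.1 (z i)) (g.1 z') (g.1 y)
    rw [abs_sub_comm] at h7
    linarith [hz i]
  · intro ε hε
    by_contra hcon
    push Not at hcon
    choose j hj x hx using hcon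
    choose F T hT hFT using fun y => loc g y (show 0 < ε / 4 by positivity)
    obtain ⟨y, hy, h⟩ := approx (fun i => pt (x i) (j i))
      fun i => F (pt (x i) (j i)) ∪ F (pt (x i) ∞)
    have hy' : y.1.2 = ∞ := by
      refine tendsto_nhds_unique hy (Tendsto.mono_left ?_ hle)
      refine (tendsto_coe_infty (X := ℕ)).comp ?_
      rw [coclosedCompact_eq_cocompact, cocompact_eq_atTop]
      exact tendsto_atTop_mono hj tendsto_id
    obtain ⟨i, h1, h2⟩ := ((h (F y)).and (hy (hT y))).exists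
    obtain ⟨z', h4, h5, h6⟩ := h1 (j i)
    obtain ⟨z'', h4', h5', h6'⟩ := h1 ∞
    have h7 := abs_lt.1 (hFT (pt (x i) (j i)) z' (fun c hc => h5 c (by simp [hc]))
      (by rw [h4]; exact mem_of_mem_nhds (hT (pt (x i) (j i)))))
    have h8 := abs_lt.1 (hFT y z' h6 (by rw [h4]; exact h2))
    have h7' := abs_lt.1 (hFT (pt (x i) ∞) z'' (fun c hc => h5' c (by simp [hc]))
      (by rw [h4']; exact mem_of_mem_nhds (hT (pt (x i) ∞))))
    have h8' := abs_lt.1 (hFT y z'' h6' (by rw [h4', ← hy']; exact mem_of_mem_nhds (hT _)))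
    exact (hx i).not_ge (abs_le.2 ⟨by linarith, by linarith⟩)

theorem ls_one : LSset (closure (range (ev : Cp XX → _))) := by
  classical
  set N : ℕ × Finset (ℕ × ℕ) → Set (Cp XX) := fun a => {g | (∀ z, |g.1 z| ≤ a.1) ∧
    ∀ b ∈ a.2, ∀ j ≥ b.2, ∀ x, |g.1 (pt x j) - g.1 (pt x ∞)| ≤ 1 / ((b.1 : ℝ) + 1)} with hN
  refine ls_of_bdd (countable_range N) fun Ψ g => ?_
  obtain ⟨⟨n, hn⟩, hg⟩ := good g
  choose r hr using fun i : ℕ => hg (1 / ((i : ℝ) + 1)) (by positivity)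
  by_contra hcon
  push Not at hcon
  choose h hh hΨ using fun k : ℕ => hcon _ ⟨(n, (Finset.range k).image fun i => (i, r i)), rfl⟩
    ⟨hn, by simpa using fun i _ => hr i⟩ k
  have hle : (hyperfilter ℕ : Filter ℕ) ≤ atTop := Nat.hyperfilter_le_atTop
  have h1 : ∀ z, ∃ c, Tendsto (fun k => (h k).1 z) (hyperfilter ℕ) (𝓝 c) := fun z => by
    obtain ⟨c, -, hc⟩ := (isCompact_Icc (a := -(n:ℝ)) (b := n)).ultrafilter_le_nhds
      ((hyperfilter ℕ).map fun k => (h k).1 z) (by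
        rw [le_principal_iff]
        exact mem_map.2 (univ_mem' fun k => abs_le.1 ((hh k).1 z)))
    exact ⟨c, hc⟩
  choose s hs using h1
  refine nobig (ext (s := s) ⟨⟨n, fun z => le_of_tendsto' (hs z).abs fun k => (hh k).1 z⟩,
    fun ε hε => ?_⟩) hs Ψ.2 (tendsto_atTop_mono (fun k => (hΨ k).le)
      (tendsto_natCast_atTop_atTop.mono_left hle))
  obtain ⟨i, hi⟩ := exists_nat_one_div_lt hε
  refine ⟨r i, fun j hj x => (le_of_tendsto ((hs _).sub (hs _)).abs ?_).trans hi.le⟩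
  filter_upwards [hle (eventually_gt_atTop i)] with k hk
  exact (hh k).2 (i, r i) (Finset.mem_image.2 ⟨i, Finset.mem_range.2 hk, rfl⟩) j hj x

theorem not_ls_two : ¬ LSset (closure (range (ev : Cp (Cp XX) → _))) := by
  classical
  intro hls
  obtain ⟨ρ, hρ, hρ0⟩ := exists_rho (0 : ℕ → ℝ)
  set Fx : (ℕ → Bool) → Cp XX → ℕ → ℝ := fun x g j => max 0 (1 - |g.1 (pt x j) - g.1 (pt x ∞)|)
    with hFx
  have hev : ∀ z, Continuous fun g : Cp XX => g.1 z := fun z =>
    (continuous_apply z).comp continuous_subtype_val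
  have hFc : ∀ x, Continuous (Fx x) := fun x => continuous_pi fun j =>
    continuous_const.max (continuous_const.sub ((hev _).sub (hev _)).abs)
  have hF0 : ∀ x g, ρ (Fx x g) ≠ 0 := fun x g h => by
    obtain ⟨r, hr⟩ := (good g).2 (1 / 2) (by norm_num)
    have h1 : max 0 (1 - |g.1 (pt x r) - g.1 (pt x ∞)|) = 0 := congrFun ((hρ0 _).1 h) r
    linarith [hr r le_rfl x, le_max_right 0 (1 - |g.1 (pt x r) - g.1 (pt x ∞)|)]
  set Ψ : (ℕ → Bool) → Cp (Cp XX) := fun x =>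
    ⟨fun g => (ρ (Fx x g))⁻¹, (hρ.comp (hFc x)).inv₀ (hF0 x)⟩ with hΨ
  haveI : Uncountable (ℕ → Bool) := by
    rw [← Cardinal.aleph0_lt_mk_iff]
    simpa using Cardinal.aleph0_lt_continuum
  obtain ⟨q, hq, 𝒰, h𝒰, hlim⟩ := exists_ultra hls (fun x => ev (Ψ x))
    fun x => subset_closure (mem_range_self _)
  obtain ⟨x0, -, hx0⟩ := isCompact_univ.ultrafilter_le_nhds 𝒰 (by simp)
  set D : ℕ → Set (ℕ → Bool) := fun i => {x | x ≠ x0 ∧ x i = x0 i} with hD
  have hDU : ∀ i, D i ∈ 𝒰 := fun i => inter_mem (h𝒰 (finite_singleton x0).compl_mem_cofinite)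
    (hx0 ((continuous_apply i).continuousAt ((isOpen_discrete {x0 i}).mem_nhds rfl)))
  set P : ℕ → Set XX := fun r => {z | z.1.2 ∈ (↑) '' Iic r} ∩
    ⋂ i ∈ Iic r, {z | z.1.1 (.sub (D i)) = true} with hP
  have hPc : ∀ r, IsClopen (P r) := fun r => by
    refine (IsClopen.preimage (s := ((↑) '' Iic r : Set (OnePoint ℕ)))
      ⟨((finite_Iic r).image _).isClosed, isOpen_image_coe.2 (isOpen_discrete _)⟩
      (f := fun z : XX => z.1.2) (continuous_snd.comp continuous_subtype_val)).inter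
      ((finite_Iic r).isClopen_biInter fun i _ => ?_)
    exact (isClopen_discrete {true}).preimage (f := fun z : XX => z.1.1 (.sub (D i)))
      ((continuous_apply _).comp (continuous_fst.comp continuous_subtype_val))
  set a : ℕ → Cp XX := fun r =>
    ⟨indicator (P r) fun _ => 1, (hPc r).continuous_indicator continuous_const⟩ with ha
  set χ : ℕ → ℕ → ℝ := fun r j => if j ≤ r then 0 else 1 with hχ
  have hFa : ∀ r x, (∀ i ≤ r, x ∈ D i) → Fx x (a r) = χ r := fun r x hx => by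
    funext j
    have h1 : pt x ∞ ∉ P r := fun h => by simpa [pt] using h.1
    have h2 : pt x j ∈ P r ↔ j ≤ r := by
      simp only [hP, mem_inter_iff, mem_iInter, mem_setOf_eq, pt, val_sub]
      exact ⟨fun h => by simpa using h.1, fun h => ⟨⟨j, h, rfl⟩, hx⟩⟩
    simp only [hFx, ha, hχ, indicator, if_neg h1, h2]
    split_ifs <;> simp
  obtain ⟨Φ, hΦ⟩ := gd hq (fun r p => p ⟨fun Θ => Θ.1 (a r),
    (continuous_apply _).comp continuous_subtype_val⟩) fun r => continuous_apply _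
  have hΦa : ∀ r, Φ.1 (a r) = (ρ (χ r))⁻¹ := fun r => by
    refine (hΦ r).trans (tendsto_nhds_unique (tendsto_pi_nhds.1 hlim _)
      (tendsto_const_nhds.congr' ?_))
    filter_upwards [(biInter_mem (finite_Iic r)).2 fun i _ => hDU i] with x hx
    rw [← hFa r x fun i hi => mem_iInter₂.1 hx i hi]
    rfl
  set s : XX → ℝ := indicator {z | z.1.2 ≠ ∞ ∧ ∀ i, z.1.1 (.sub (D i)) = true} fun _ => 1 with hs
  have hs0 : ∀ x j, s (pt x j) = 0 := fun x j => indicator_of_notMem (fun h => by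
    have h1 : ∀ i, x ∈ D i := fun i => (val_sub x _).1 (h.2 i)
    exact (h1 0).1 (funext fun i => (h1 i).2)) _
  refine nobig (ext (s := s) ⟨⟨1, fun z => ?_⟩, fun ε hε => ⟨0, fun j _ x => ?_⟩⟩) (l := atTop)
    (g := a) (fun z => tendsto_const_nhds.congr' ?_) Φ.2 ?_
  · simp only [hs, indicator]
    split_ifs <;> simp
  · simp [hs0, hε.le]
  · by_cases h : z ∈ {z : XX | z.1.2 ≠ ∞ ∧ ∀ i, z.1.1 (.sub (D i)) = true}
    · obtain ⟨j, hj⟩ := ne_infty_iff_exists.1 h.1
      filter_upwards [eventually_ge_atTop j] with r hr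
      have : z ∈ P r := ⟨⟨j, hr, hj⟩, mem_iInter₂.2 fun i _ => h.2 i⟩
      simp only [hs, ha, indicator_of_mem h, indicator_of_mem this]
    · have h2 : ∀ᶠ r in atTop, z ∉ P r := by
        rcases not_and_or.1 h with h | h
        · refine Eventually.of_forall fun r hr => h ?_
          obtain ⟨j, -, hj⟩ := hr.1
          exact hj ▸ coe_ne_infty j
        · obtain ⟨i, hi⟩ := not_forall.1 h
          filter_upwards [eventually_ge_atTop i] with r hr hz using hi (mem_iInter₂.1 hz.2 i hr)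
      filter_upwards [h2] with r hr
      simp only [hs, ha, indicator_of_notMem h, indicator_of_notMem hr]
  · simp only [hΦa]
    refine (tendsto_norm_inv_nhdsNE_zero_atTop (α := ℝ)).comp
      (tendsto_nhdsWithin_iff.2 ⟨?_, Eventually.of_forall fun r h => ?_⟩)
    · rw [← (hρ0 0).2 rfl]
      refine (hρ.tendsto 0).comp (tendsto_pi_nhds.2 fun j => tendsto_const_nhds.congr' ?_)
      filter_upwards [eventually_ge_atTop j] with r hr
      simp [hχ, hr]
    · simpa [hχ] using congrFun ((hρ0 _).1 h) (r + 1)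

end Pool.Agent.H19.Up
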