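import Mathlib

set_option autoImplicit false

namespace Pool.Agent.H19.ZS

/-- first coordinates -/
def xs (i : ℕ) : ℕ := if i < 19 then 1 else if i = 19 then 17 else 0
/-- second coordinates -/
def ys (i : ℕ) : ℕ := if i < 16 then 0 else if i = 17 then 17 else if i < 36 then 1 else 0
/-- third coordinates -/
def zs (i : ℕ) : ℕ :=
  if i < 16 then i else if i = 16 then 11 else if i = 17 then 5 else if i = 18 then 2
  else if i = 19 then 5 else if i < 36 then i - 20 else if i < 38 then i - 35 else i - 29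

def enc (i : ℕ) : ℕ := xs i + 64 * ys i + 4096 * zs i

def mask : ℕ → ℕ
  | 0 => 1
  | n + 1 => mask n ||| (mask n <<< enc n)

def maskFast (n : ℕ) : ℕ := (List.range n).foldl (fun m i => m ||| (m <<< enc i)) 1

theorem maskFast_eq (n : ℕ) : maskFast n = mask n := by
  induction n with
  | zero => rfl
  | succ n ih =>
    unfold maskFast at ih ⊢
    rw [List.range_succ, List.foldl_append, ih]
    rfl

theorem mask_spec (n : ℕ) : ∀ I ⊆ Finset.range n, (mask n).testBit (∑ i ∈ I, enc i) = true := by
  induction n with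
  | zero =>
    intro I hI
    have : I = ∅ := by simpa using hI
    subst this
    simp [mask]
  | succ n ih =>
    intro I hI
    have h1 : I.erase n ⊆ Finset.range n := by
      intro i hi
      rw [Finset.mem_erase] at hi
      have := hI hi.2
      rw [Finset.mem_range] at this ⊢
      omega
    have h2 := ih _ h1
    rw [mask, Nat.testBit_or]
    by_cases hn : n ∈ I
    · rw [← Finset.add_sum_erase I enc hn, Nat.testBit_shiftLeft]
      simp [h2]
    · rw [Finset.erase_eq_of_notMem hn] at h2
      simp [h2]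

def chk (m : ℕ) : Bool :=
  (List.range 3).all fun a => (List.range 3).all fun b => (List.range 18).all fun c =>
    !(m.testBit (18 * a + 64 * (18 * b) + 4096 * (18 * c))) || (a + b + c == 0)

theorem chk_ok : chk (maskFast 41) = true := by decide +kernel

def f (i : ℕ) : Fin 3 → ZMod 18 := ![(xs i : ZMod 18), (ys i : ZMod 18), (zs i : ZMod 18)]

theorem f_inj : ∀ i ∈ Finset.range 41, ∀ j ∈ Finset.range 41, f i = f j → i = j := by
  decide +kernel

theorem enc_pos : ∀ i ∈ Finset.range 41, 0 < enc i := by decide +kernel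

theorem sum_xs : ∑ i ∈ Finset.range 41, xs i = 36 := by decide +kernel
theorem sum_ys : ∑ i ∈ Finset.range 41, ys i = 36 := by decide +kernel
theorem sum_zs : ∑ i ∈ Finset.range 41, zs i = 296 := by decide +kernel

def A : Finset (Fin 3 → ZMod 18) := (Finset.range 41).image f

theorem A_card : A.card = 41 := by
  rw [A, Finset.card_image_of_injOn (fun i hi j hj h => f_inj i hi j hj h)]
  simp

theorem A_free (B : Finset (Fin 3 → ZMod 18)) (hB : B ⊆ A) (hne : B.Nonempty) :
    ∑ x ∈ B, x ≠ 0 := by
  obtain ⟨I, hI, rfl⟩ := Finset.subset_image_iff.1 hB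
  rw [Finset.sum_image (fun i hi j hj h => f_inj i (hI hi) j (hI hj) h)]
  intro h0
  have hx : ((∑ i ∈ I, xs i : ℕ) : ZMod 18) = 0 := by
    have := congrFun h0 0
    simpa [f, Finset.sum_apply] using this
  have hy : ((∑ i ∈ I, ys i : ℕ) : ZMod 18) = 0 := by
    have := congrFun h0 1
    simpa [f, Finset.sum_apply] using this
  have hz : ((∑ i ∈ I, zs i : ℕ) : ZMod 18) = 0 := by
    have := congrFun h0 2
    simpa [f, Finset.sum_apply] using this
  rw [ZMod.natCast_eq_zero_iff] at hx hy hz
  obtain ⟨a, ha⟩ := hx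
  obtain ⟨b, hb⟩ := hy
  obtain ⟨c, hc⟩ := hz
  have h1 : ∑ i ∈ I, xs i ≤ 36 := sum_xs ▸ Finset.sum_le_sum_of_subset hI
  have h2 : ∑ i ∈ I, ys i ≤ 36 := sum_ys ▸ Finset.sum_le_sum_of_subset hI
  have h3 : ∑ i ∈ I, zs i ≤ 296 := sum_zs ▸ Finset.sum_le_sum_of_subset hI
  have h4 : ∑ i ∈ I, enc i = 18 * a + 64 * (18 * b) + 4096 * (18 * c) := by
    simp only [enc, Finset.sum_add_distrib, ← Finset.mul_sum]
    rw [ha, hb, hc]
  have h5 := mask_spec 41 I hI
  have h6 := chk_ok
  rw [maskFast_eq] at h6
  simp only [chk, List.all_eq_true, List.mem_range] at h6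
  have h7 := h6 a (by omega) b (by omega) c (by omega)
  rw [← h4, h5] at h7
  have h8 : a + b + c = 0 := by simpa using h7
  obtain ⟨i, hi⟩ : I.Nonempty := by simpa using hne
  have h9 := enc_pos i (hI hi)
  have h10 : enc i ≤ ∑ i ∈ I, enc i := Finset.single_le_sum (fun _ _ => Nat.zero_le _) hi
  have : a = 0 := by omega
  have : b = 0 := by omega
  have : c = 0 := by omega
  omega

end Pool.Agent.H19.ZS
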