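import Mathlib

/-! A cubic graph on 36 vertices and some of its forts. Branch `i` has vertices `(i, 0)` (on the
central triangle), `(i, 1)`, and two copies of `K4` with a subdivided edge, on `(i, 2..6)` and
`(i, 7..11)`, joined to `(i, 1)` at the subdividing vertices `(i, 2)` and `(i, 7)`. -/

set_option maxHeartbeats 400000

namespace Pool.Agent.H19.Zf

abbrev W := Fin 3 × Fin 12

def big : ℕ := 596832463784483245182951779021171823382808964995591309299830206994755985038515269749456393589197865934659259583328106757296603128808240475393876168782953538896551316501536752274168398194194701731641617886433677232806234742473858044149937835521642209931432449309085521455173803238092446613777044253412996070271660648394654939449183951338480225368884560007447155622905788974620677557738016770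

def G : SimpleGraph W where
  Adj u v := big.testBit ((12 * u.1.val + u.2.val) * 36 + (12 * v.1.val + v.2.val)) = true
  symm := ⟨by decide +kernel⟩
  loopless := ⟨by decide +kernel⟩

instance : DecidableRel G.Adj := fun u v => inferInstanceAs (Decidable
  (big.testBit ((12 * u.1.val + u.2.val) * 36 + (12 * v.1.val + v.2.val)) = true))

def Fort (F : List W) : Prop := ∀ u, u ∈ F ∨ ∀ w ∈ F, G.Adj u w → ∃ x ∈ F, x ≠ w ∧ G.Adj u x

instance (F : List W) : Decidable (Fort F) := by unfold Fort; infer_instance

def pc (i : Fin 3) (e x y : Fin 2) : List W :=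
  [(i, ⟨2 + 5 * e, by omega⟩), (i, ⟨3 + 5 * e + x, by omega⟩), (i, ⟨5 + 5 * e + y, by omega⟩)]

lemma f1 : ∀ i : Fin 3, Fort [(i, 3), (i, 4)] ∧ Fort [(i, 5), (i, 6)] ∧ Fort [(i, 8), (i, 9)] ∧
    Fort [(i, 10), (i, 11)] := by decide +kernel

lemma f2 : ∀ (i : Fin 3) (x y x' y' : Fin 2), Fort (pc i 0 x y ++ pc i 1 x' y') := by
  decide +kernel

lemma f3 : ∀ i j : Fin 3, i < j → ∀ e x y e' x' y' : Fin 2,
    Fort ((i, 0) :: (j, 0) :: (pc i e x y ++ pc j e' x' y')) := by decide +kernel

lemma reg : G.IsRegularOfDegree 3 := by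
  intro v
  revert v
  decide +kernel

def par (v : W) : W :=
  if v.2 = 0 then (0, 0) else (v.1, ![0, 0, 1, 2, 2, 3, 3, 1, 7, 7, 8, 8] v.2)

lemma conn : G.Connected := by
  have h : ∀ v : W, v = (0, 0) ∨ (G.Adj v (par v) ∧ 12 * (par v).1.val + (par v).2.val < 12 * v.1.val + v.2.val) := by
    decide +kernel
  have h2 : ∀ n, ∀ v : W, 12 * v.1.val + v.2.val = n → G.Reachable v (0, 0) := by
    intro n
    induction n using Nat.strong_induction_on with
    | _ n ih =>
      intro v hv
      rcases h v with rfl | ⟨h1, h2⟩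
      · rfl
      · exact h1.reachable.trans (ih _ (hv ▸ h2) _ rfl)
  exact ⟨fun u v => (h2 _ u rfl).trans (h2 _ v rfl).symm⟩

def col (v : W) : Fin 3 × Fin 5 := (v.1, ![0, 0, 1, 1, 2, 2, 2, 3, 3, 4, 4, 4] v.2)

lemma alpha : G.indepNum ≤ 15 := by
  have h : ∀ u v : W, col u = col v → u = v ∨ G.Adj u v := by decide +kernel
  obtain ⟨s, hs⟩ := G.exists_isNIndepSet_indepNum
  rw [← hs.card_eq]
  have := Finset.card_le_card_of_injOn (s := s) (t := Finset.univ) col (fun _ _ => Finset.mem_univ _)
    (fun u hu v hv huv => by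
      by_contra hne
      exact hs.isIndepSet hu hv hne ((h u v huv).resolve_left hne))
  simpa using this

end Pool.Agent.H19.Zf
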